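import Mathlib

namespace Pool.Agent.MP099f24

open MeasureTheory Filter Topology Set Metric
open scoped ENNReal ContDiff

/-- a smooth bump on the line, equal to `1` near `0` and vanishing for `1/2 ≤ |s|` -/
noncomputable def weyl_k : ContDiffBump (0 : ℝ) := ⟨1 / 4, 1 / 2, by norm_num, by norm_num⟩

/-- its primitive vanishing for large `s` -/
noncomputable def weyl_K (s : ℝ) : ℝ := ∫ t in (1 : ℝ)..s, weyl_k t

theorem weyl_k_smooth : ContDiff ℝ ∞ (weyl_k : ℝ → ℝ) := weyl_k.contDiff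

theorem weyl_k_cont : Continuous (weyl_k : ℝ → ℝ) := weyl_k_smooth.continuous

theorem weyl_k_zero {s : ℝ} (hs : 1 / 2 ≤ s) : weyl_k s = 0 := by
  apply weyl_k.zero_of_le_dist
  show (1 / 2 : ℝ) ≤ dist s 0
  rw [Real.dist_eq, sub_zero]
  exact hs.trans (le_abs_self s)

theorem weyl_K_hasDeriv (s : ℝ) : HasDerivAt weyl_K (weyl_k s) s :=
  (weyl_k_cont.integral_hasStrictDerivAt 1 s).hasDerivAt

theorem weyl_K_smooth : ContDiff ℝ ∞ weyl_K := by
  rw [contDiff_infty_iff_deriv]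
  refine ⟨fun s => (weyl_K_hasDeriv s).differentiableAt, ?_⟩
  have : deriv weyl_K = weyl_k := funext fun s => (weyl_K_hasDeriv s).deriv
  rw [this]
  exact weyl_k_smooth

theorem weyl_K_zero {s : ℝ} (hs : 1 / 2 ≤ s) : weyl_K s = 0 := by
  unfold weyl_K
  apply intervalIntegral.integral_zero_ae
  refine Eventually.of_forall fun t ht => ?_
  apply weyl_k_zero
  have := ht.1
  rcases min_lt_iff.1 this with h1 | h1
  · linarith
  · linarith

theorem weyl_deriv_k_zero {s : ℝ} (hs : 1 / 2 < s) : deriv weyl_k s = 0 := by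
  have : (weyl_k : ℝ → ℝ) =ᶠ[𝓝 s] fun _ => 0 := by
    filter_upwards [Ioi_mem_nhds hs] with t ht
    exact weyl_k_zero (le_of_lt ht)
  rw [this.deriv_eq]
  simp

theorem weyl_deriv_cont : Continuous (deriv weyl_k) :=
  (contDiff_infty_iff_deriv.1 weyl_k_smooth).2.continuous

/-- the function `s ↦ s κ'(s)` is bounded -/
theorem weyl_bound : ∃ B : ℝ, ∀ s : ℝ, 0 ≤ s → |weyl_k s + s * deriv weyl_k s| ≤ B := by
  have hc : Continuous fun s : ℝ => weyl_k s + s * deriv weyl_k s :=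
    weyl_k_cont.add (continuous_id.mul weyl_deriv_cont)
  obtain ⟨B, hB⟩ := (isCompact_Icc (a := (0 : ℝ)) (b := 1)).exists_bound_of_continuousOn
    hc.continuousOn
  refine ⟨max B 0, fun s hs => ?_⟩
  rcases le_or_gt s 1 with h1 | h1
  · exact (hB s ⟨hs, h1⟩).trans (le_max_left _ _)
  · rw [weyl_k_zero (by linarith), weyl_deriv_k_zero (by linarith)]
    simp

/-- first derivatives of `y ↦ K(a |y-x|²)` -/
theorem weyl_fd (a : ℝ) (x v y : ℂ) :
    fderiv ℝ (fun y : ℂ => weyl_K (a * ‖y - x‖ ^ 2)) y v =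
      2 * a * weyl_k (a * ‖y - x‖ ^ 2) * inner ℝ (y - x) v := by
  have h1 : HasFDerivAt (fun y : ℂ => y - x) (ContinuousLinearMap.id ℝ ℂ) y :=
    (hasFDerivAt_id y).sub_const x
  have h2 := (h1.norm_sq).const_mul a
  have h3 := (weyl_K_hasDeriv (a * ‖y - x‖ ^ 2)).comp_hasFDerivAt y h2
  have h4 : HasFDerivAt (fun y : ℂ => weyl_K (a * ‖y - x‖ ^ 2)) _ y := h3
  rw [h4.fderiv]
  simp [innerSL_apply_apply]
  ring

/-- second derivatives of `y ↦ K(a |y-x|²)` -/
theorem weyl_fd2 (a : ℝ) (x v y : ℂ) :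
    fderiv ℝ (fun y : ℂ => fderiv ℝ (fun y : ℂ => weyl_K (a * ‖y - x‖ ^ 2)) y v) y v =
      2 * a * (2 * a * deriv weyl_k (a * ‖y - x‖ ^ 2) * (inner ℝ (y - x) v) ^ 2 +
        weyl_k (a * ‖y - x‖ ^ 2) * ‖v‖ ^ 2) := by
  have h0 : (fun y : ℂ => fderiv ℝ (fun y : ℂ => weyl_K (a * ‖y - x‖ ^ 2)) y v) =
      fun y : ℂ => 2 * a * (weyl_k (a * ‖y - x‖ ^ 2) * inner ℝ (y - x) v) := by
    funext y
    rw [weyl_fd]
    ring
  rw [h0]
  have h1 : HasFDerivAt (fun y : ℂ => y - x) (ContinuousLinearMap.id ℝ ℂ) y :=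
    (hasFDerivAt_id y).sub_const x
  have h2 := (h1.norm_sq).const_mul a
  have hd : HasDerivAt weyl_k (deriv weyl_k (a * ‖y - x‖ ^ 2)) (a * ‖y - x‖ ^ 2) :=
    ((contDiff_infty_iff_deriv.1 weyl_k_smooth).1 _).hasDerivAt
  have h3a := hd.comp_hasFDerivAt y h2
  have h3 : HasFDerivAt (fun y : ℂ => weyl_k (a * ‖y - x‖ ^ 2)) _ y := h3a
  have h5 : HasFDerivAt (fun y : ℂ => inner ℝ (y - x) v) _ y :=
    h1.inner ℝ (hasFDerivAt_const v y)
  have h6 := (h3.mul h5).const_mul (2 * a)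
  have h7 : HasFDerivAt (fun y : ℂ => 2 * a * (weyl_k (a * ‖y - x‖ ^ 2) * inner ℝ (y - x) v))
    _ y := h6
  rw [h7.fderiv]
  simp [innerSL_apply_apply]
  ring

/-- the Laplacian of `y ↦ K(a |y-x|²)` -/
theorem weyl_lap (a : ℝ) (x y : ℂ) :
    fderiv ℝ (fun y : ℂ => fderiv ℝ (fun y : ℂ => weyl_K (a * ‖y - x‖ ^ 2)) y 1) y 1 +
      fderiv ℝ (fun y : ℂ => fderiv ℝ (fun y : ℂ => weyl_K (a * ‖y - x‖ ^ 2)) y Complex.I) y
        Complex.I =
      4 * a * (weyl_k (a * ‖y - x‖ ^ 2) +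
        a * ‖y - x‖ ^ 2 * deriv weyl_k (a * ‖y - x‖ ^ 2)) := by
  rw [weyl_fd2, weyl_fd2]
  have h1 : (inner ℝ (y - x) (1 : ℂ)) ^ 2 + (inner ℝ (y - x) Complex.I) ^ 2 = ‖y - x‖ ^ 2 := by
    rw [Complex.sq_norm, Complex.normSq_apply, Complex.inner, Complex.inner]
    simp
    ring
  have h2 : ‖(1 : ℂ)‖ = 1 := norm_one
  have h3 : ‖Complex.I‖ = 1 := Complex.norm_I
  rw [h2, h3]
  linear_combination (4 * a ^ 2 * deriv weyl_k (a * ‖y - x‖ ^ 2)) * h1

/-- admissibility of the test function -/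
theorem weyl_test {a R : ℝ} (x : ℂ) (hR : 0 < R) (ha : 1 / 2 < a * R ^ 2) :
    ContDiff ℝ ∞ (fun y : ℂ => weyl_K (a * ‖y - x‖ ^ 2)) ∧
    HasCompactSupport (fun y : ℂ => weyl_K (a * ‖y - x‖ ^ 2)) ∧
    tsupport (fun y : ℂ => weyl_K (a * ‖y - x‖ ^ 2)) ⊆ closedBall x R := by
  have ha0 : 0 < a := by
    by_contra h
    push Not at h
    nlinarith [sq_nonneg R]
  have hs : tsupport (fun y : ℂ => weyl_K (a * ‖y - x‖ ^ 2)) ⊆ closedBall x R := by
    apply closure_minimal _ isClosed_closedBall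
    intro y hy
    rw [Function.mem_support] at hy
    rw [mem_closedBall, dist_eq_norm]
    by_contra hc
    push Not at hc
    apply hy
    apply weyl_K_zero
    have h1 : R ^ 2 ≤ ‖y - x‖ ^ 2 := pow_le_pow_left₀ hR.le hc.le 2
    have h2 : a * R ^ 2 ≤ a * ‖y - x‖ ^ 2 := mul_le_mul_of_nonneg_left h1 ha0.le
    linarith
  refine ⟨?_, ?_, hs⟩
  · exact weyl_K_smooth.comp
      (contDiff_const.mul ((contDiff_norm_sq ℝ).comp (contDiff_id.sub contDiff_const)))
  · exact HasCompactSupport.of_support_subset_isCompact (isCompact_closedBall x R)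
      ((subset_tsupport _).trans hs)

/-- the radial mollification with parameter `a` -/
noncomputable def weyl_v (w : ℂ → ℝ) (a : ℝ) (x : ℂ) : ℝ :=
  ∫ y, w y * (a * weyl_k (a * ‖y - x‖ ^ 2))

theorem weyl_abs_le (s : ℝ) : |weyl_k s| ≤ 1 := by
  rw [abs_of_nonneg weyl_k.nonneg]
  exact weyl_k.le_one

theorem weyl_v_cont {w : ℂ → ℝ} (hw : Integrable w) {a : ℝ} (ha : 0 < a) :
    Continuous (weyl_v w a) := by
  have hm : ∀ x : ℂ, AEStronglyMeasurable (fun y : ℂ => w y * (a * weyl_k (a * ‖y - x‖ ^ 2)))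
      volume := by
    intro x
    refine hw.aestronglyMeasurable.mul ?_
    have : Continuous fun y : ℂ => a * weyl_k (a * ‖y - x‖ ^ 2) :=
      continuous_const.mul (weyl_k_cont.comp (by fun_prop))
    exact this.aestronglyMeasurable
  refine continuous_of_dominated (bound := fun y => ‖w y‖ * a) hm ?_ (hw.norm.mul_const a) ?_
  · intro x
    refine Eventually.of_forall fun y => ?_
    rw [norm_mul]
    refine mul_le_mul_of_nonneg_left ?_ (norm_nonneg _)
    rw [norm_mul, Real.norm_eq_abs, Real.norm_eq_abs, abs_of_pos ha]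
    calc a * |weyl_k (a * ‖y - x‖ ^ 2)| ≤ a * 1 :=
          mul_le_mul_of_nonneg_left (weyl_abs_le _) ha.le
      _ = a := mul_one a
  · refine Eventually.of_forall fun y => ?_
    exact continuous_const.mul (continuous_const.mul (weyl_k_cont.comp (by fun_prop)))

theorem weyl_v_deriv {w : ℂ → ℝ} (hw : Integrable w) (x : ℂ) {a : ℝ} (ha : 0 < a) :
    HasDerivAt (fun a => weyl_v w a x)
      (∫ y, w y * (weyl_k (a * ‖y - x‖ ^ 2) +
        a * ‖y - x‖ ^ 2 * deriv weyl_k (a * ‖y - x‖ ^ 2))) a := by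
  obtain ⟨B, hB⟩ := weyl_bound
  have hm : ∀ b : ℝ, AEStronglyMeasurable (fun y : ℂ => w y * (b * weyl_k (b * ‖y - x‖ ^ 2)))
      volume := by
    intro b
    refine hw.aestronglyMeasurable.mul ?_
    have : Continuous fun y : ℂ => b * weyl_k (b * ‖y - x‖ ^ 2) :=
      continuous_const.mul (weyl_k_cont.comp (by fun_prop))
    exact this.aestronglyMeasurable
  have hm' : AEStronglyMeasurable (fun y : ℂ => w y * (weyl_k (a * ‖y - x‖ ^ 2) +
        a * ‖y - x‖ ^ 2 * deriv weyl_k (a * ‖y - x‖ ^ 2))) volume := by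
    refine hw.aestronglyMeasurable.mul ?_
    have : Continuous fun y : ℂ => weyl_k (a * ‖y - x‖ ^ 2) +
        a * ‖y - x‖ ^ 2 * deriv weyl_k (a * ‖y - x‖ ^ 2) :=
      (weyl_k_cont.comp (by fun_prop)).add
        ((by fun_prop : Continuous fun y : ℂ => a * ‖y - x‖ ^ 2).mul
          (weyl_deriv_cont.comp (by fun_prop)))
    exact this.aestronglyMeasurable
  refine (hasDerivAt_integral_of_dominated_loc_of_deriv_le
    (F := fun (a : ℝ) (y : ℂ) => w y * (a * weyl_k (a * ‖y - x‖ ^ 2)))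
    (F' := fun (a : ℝ) (y : ℂ) => w y * (weyl_k (a * ‖y - x‖ ^ 2) +
        a * ‖y - x‖ ^ 2 * deriv weyl_k (a * ‖y - x‖ ^ 2)))
    (bound := fun y => ‖w y‖ * B) (s := Ioi 0) (Ioi_mem_nhds ha)
    (Eventually.of_forall hm) ?_ hm' ?_ (hw.norm.mul_const B) ?_).2
  · refine Integrable.mono' (hw.norm.mul_const a) (hm a) ?_
    refine Eventually.of_forall fun y => ?_
    rw [norm_mul]
    refine mul_le_mul_of_nonneg_left ?_ (norm_nonneg _)
    rw [norm_mul, Real.norm_eq_abs, Real.norm_eq_abs, abs_of_pos ha]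
    calc a * |weyl_k (a * ‖y - x‖ ^ 2)| ≤ a * 1 :=
          mul_le_mul_of_nonneg_left (weyl_abs_le _) ha.le
      _ = a := mul_one a
  · refine Eventually.of_forall fun y b hb => ?_
    rw [norm_mul]
    refine mul_le_mul_of_nonneg_left ?_ (norm_nonneg _)
    have hb : (0 : ℝ) < b := hb
    exact hB _ (by positivity)
  · refine Eventually.of_forall fun y b hb => ?_
    have h1 : HasDerivAt (fun b : ℝ => b * ‖y - x‖ ^ 2) (‖y - x‖ ^ 2) b := by
      simpa using (hasDerivAt_id b).mul_const (‖y - x‖ ^ 2)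
    have hd : HasDerivAt weyl_k (deriv weyl_k (b * ‖y - x‖ ^ 2)) (b * ‖y - x‖ ^ 2) :=
      ((contDiff_infty_iff_deriv.1 weyl_k_smooth).1 _).hasDerivAt
    have h2 := hd.comp b h1
    have h3 := ((hasDerivAt_id b).mul h2).const_mul (w y)
    refine h3.congr_deriv ?_
    simp only [id, Function.comp]
    ring

/-- the derivative in `a` vanishes -/
theorem weyl_harm {U : Set ℂ} {u w : ℂ → ℝ}
    (h : ∀ φ : ℂ → ℝ, ContDiff ℝ ∞ φ → HasCompactSupport φ → tsupport φ ⊆ U →
      ∫ x in U, u x * (fderiv ℝ (fun y => fderiv ℝ φ y 1) x 1 +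
        fderiv ℝ (fun y => fderiv ℝ φ y Complex.I) x Complex.I) = 0)
    (hU : IsOpen U) {x : ℂ} {R a : ℝ} (hR : 0 < R) (ha : 1 / 2 < a * R ^ 2)
    (hx : closedBall x R ⊆ U) (hw : ∀ y ∈ closedBall x R, w y = u y) :
    ∫ y, w y * (weyl_k (a * ‖y - x‖ ^ 2) +
        a * ‖y - x‖ ^ 2 * deriv weyl_k (a * ‖y - x‖ ^ 2)) = 0 := by
  have ha0 : 0 < a := by
    by_contra h
    push Not at h
    nlinarith [sq_nonneg R]
  obtain ⟨h1, h2, h3⟩ := weyl_test x hR ha
  have h4 := h _ h1 h2 (h3.trans hx)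
  simp only [weyl_lap] at h4
  rw [← integral_indicator hU.measurableSet] at h4
  have h5 : U.indicator (fun y => u y * (4 * a * (weyl_k (a * ‖y - x‖ ^ 2) +
        a * ‖y - x‖ ^ 2 * deriv weyl_k (a * ‖y - x‖ ^ 2)))) =
      fun y => 4 * a * (w y * (weyl_k (a * ‖y - x‖ ^ 2) +
        a * ‖y - x‖ ^ 2 * deriv weyl_k (a * ‖y - x‖ ^ 2))) := by
    funext y
    by_cases hy : y ∈ closedBall x R
    · rw [indicator_of_mem (hx hy), hw y hy]
      ring
    · rw [mem_closedBall, dist_eq_norm] at hy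
      push Not at hy
      have h6 : R ^ 2 ≤ ‖y - x‖ ^ 2 := pow_le_pow_left₀ hR.le hy.le 2
      have h7 : a * R ^ 2 ≤ a * ‖y - x‖ ^ 2 := mul_le_mul_of_nonneg_left h6 ha0.le
      have h8 : weyl_k (a * ‖y - x‖ ^ 2) = 0 := weyl_k_zero (by linarith)
      have h9 : deriv weyl_k (a * ‖y - x‖ ^ 2) = 0 := weyl_deriv_k_zero (by linarith)
      by_cases hyU : y ∈ U
      · rw [indicator_of_mem hyU, h8, h9]
        ring
      · rw [indicator_of_notMem hyU, h8, h9]
        ring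
  rw [h5, integral_const_mul] at h4
  rcases mul_eq_zero.1 h4 with h6 | h6
  · exfalso
    linarith
  · exact h6

/-- the mollifications do not depend on `a` -/
theorem weyl_indep {U : Set ℂ} {u w : ℂ → ℝ}
    (h : ∀ φ : ℂ → ℝ, ContDiff ℝ ∞ φ → HasCompactSupport φ → tsupport φ ⊆ U →
      ∫ x in U, u x * (fderiv ℝ (fun y => fderiv ℝ φ y 1) x 1 +
        fderiv ℝ (fun y => fderiv ℝ φ y Complex.I) x Complex.I) = 0)
    (hU : IsOpen U) (hwi : Integrable w) {x : ℂ} {R : ℝ} (hR : 0 < R)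
    (hx : closedBall x R ⊆ U) (hw : ∀ y ∈ closedBall x R, w y = u y) {a b : ℝ}
    (ha : 1 / (2 * R ^ 2) < a) (hb : 1 / (2 * R ^ 2) < b) : weyl_v w a x = weyl_v w b x := by
  have hR2 : 0 < 1 / (2 * R ^ 2) := by positivity
  have key : ∀ c ∈ Ioi (1 / (2 * R ^ 2)), HasDerivAt (fun a => weyl_v w a x) 0 c := by
    intro c hc
    have hc : 1 / (2 * R ^ 2) < c := hc
    have h1 := weyl_v_deriv hwi x (hR2.trans hc)
    rwa [weyl_harm h hU hR (a := c) ?_ hx hw] at h1
    rw [div_lt_iff₀ (by positivity)] at hc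
    linarith
  exact IsOpen.is_const_of_deriv_eq_zero (f := fun a => weyl_v w a x) (s := Ioi (1 / (2 * R ^ 2)))
    isOpen_Ioi isPreconnected_Ioi
    (fun c hc => (key c hc).differentiableAt.differentiableWithinAt)
    (fun c hc => (key c hc).deriv) ha hb

theorem weyl_const (x : ℂ) {a : ℝ} (ha : 0 < a) :
    ∫ y : ℂ, a * weyl_k (a * ‖y - x‖ ^ 2) = ∫ z : ℂ, weyl_k (‖z‖ ^ 2) := by
  have h1 := integral_sub_right_eq_self (μ := (volume : Measure ℂ))
    (fun y : ℂ => a * weyl_k (a * ‖y‖ ^ 2)) x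
  rw [h1, integral_const_mul]
  have h2 := Measure.integral_comp_smul (volume : Measure ℂ) (fun z : ℂ => weyl_k (‖z‖ ^ 2))
    (Real.sqrt a)
  have h3 : (fun z : ℂ => weyl_k (‖(Real.sqrt a) • z‖ ^ 2)) = fun y : ℂ => weyl_k (a * ‖y‖ ^ 2) := by
    funext z
    rw [norm_smul, mul_pow, Real.norm_eq_abs, sq_abs, Real.sq_sqrt ha.le]
  rw [h3, Complex.finrank_real_complex, Real.sq_sqrt ha.le] at h2
  rw [h2, abs_of_pos (inv_pos.2 ha), smul_eq_mul, ← mul_assoc, mul_inv_cancel₀ ha.ne', one_mul]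

theorem weyl_const_pos : 0 < ∫ z : ℂ, weyl_k (‖z‖ ^ 2) := by
  have hc : Continuous fun z : ℂ => weyl_k (‖z‖ ^ 2) := weyl_k_cont.comp (by fun_prop)
  refine Continuous.integral_pos_of_hasCompactSupport_nonneg_nonzero (x := 0) hc ?_ ?_ ?_
  · refine HasCompactSupport.intro (isCompact_closedBall (0 : ℂ) 1) fun z hz => ?_
    rw [mem_closedBall, dist_zero_right] at hz
    push Not at hz
    apply weyl_k_zero
    nlinarith
  · intro z
    exact weyl_k.nonneg
  · have : weyl_k (‖(0 : ℂ)‖ ^ 2) = 1 := by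
      apply weyl_k.one_of_mem_closedBall
      simp [weyl_k]
    rw [this]
    exact one_ne_zero

theorem weyl_ker_int (x : ℂ) {a : ℝ} (ha : 0 < a) :
    Integrable fun y : ℂ => a * weyl_k (a * ‖y - x‖ ^ 2) := by
  have hc : Continuous fun y : ℂ => a * weyl_k (a * ‖y - x‖ ^ 2) :=
    continuous_const.mul (weyl_k_cont.comp (by fun_prop))
  refine hc.integrable_of_hasCompactSupport ?_
  refine HasCompactSupport.intro (isCompact_closedBall x (1 / Real.sqrt a)) fun z hz => ?_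
  rw [mem_closedBall, dist_eq_norm] at hz
  push Not at hz
  have hs : 0 < Real.sqrt a := Real.sqrt_pos.2 ha
  have h1 : (1 / Real.sqrt a) ^ 2 ≤ ‖z - x‖ ^ 2 := pow_le_pow_left₀ (by positivity) hz.le 2
  rw [div_pow, Real.sq_sqrt ha.le, one_pow, div_le_iff₀ ha] at h1
  rw [weyl_k_zero (by linarith), mul_zero]

theorem weyl_lim {w : ℂ → ℝ} (hw : Integrable w) {x : ℂ}
    (hx : Tendsto (fun r => ⨍ y in closedBall x r, ‖w y - w x‖) (𝓝[>] 0) (𝓝 0)) :
    Tendsto (fun r : ℝ => weyl_v w (1 / (2 * r ^ 2)) x) (𝓝[>] 0)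
      (𝓝 ((∫ z : ℂ, weyl_k (‖z‖ ^ 2)) * w x)) := by
  rw [tendsto_iff_norm_sub_tendsto_zero]
  refine squeeze_zero' (g := fun r => Real.pi / 2 * ⨍ y in closedBall x r, ‖w y - w x‖)
    (Eventually.of_forall fun _ => norm_nonneg _) ?_ (by simpa using hx.const_mul (Real.pi / 2))
  filter_upwards [self_mem_nhdsWithin] with r hr
  have hr : 0 < r := hr
  obtain ⟨a, ha⟩ : ∃ a, a = 1 / (2 * r ^ 2) := ⟨_, rfl⟩
  have ha0 : 0 < a := by rw [ha]; positivity
  have har : a * (2 * r ^ 2) = 1 := by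
    rw [ha]
    field_simp
  rw [← ha]
  have hk := weyl_ker_int x ha0
  have hint : Integrable (fun y => w y * (a * weyl_k (a * ‖y - x‖ ^ 2))) := by
    refine Integrable.mono' (hw.norm.mul_const a) (hw.aestronglyMeasurable.mul
      hk.aestronglyMeasurable) ?_
    refine Eventually.of_forall fun y => ?_
    rw [norm_mul]
    refine mul_le_mul_of_nonneg_left ?_ (norm_nonneg _)
    rw [norm_mul, Real.norm_eq_abs, Real.norm_eq_abs, abs_of_pos ha0]
    calc a * |weyl_k (a * ‖y - x‖ ^ 2)| ≤ a * 1 :=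
          mul_le_mul_of_nonneg_left (weyl_abs_le _) ha0.le
      _ = a := mul_one a
  have hint2 : Integrable (fun y => w x * (a * weyl_k (a * ‖y - x‖ ^ 2))) := hk.const_mul _
  have e1 : weyl_v w a x - (∫ z : ℂ, weyl_k (‖z‖ ^ 2)) * w x =
      ∫ y, (w y - w x) * (a * weyl_k (a * ‖y - x‖ ^ 2)) := by
    simp only [sub_mul]
    rw [integral_sub hint hint2, integral_const_mul, weyl_const x ha0, mul_comm (w x)]
    rfl
  rw [e1]
  have hm : Integrable (fun y => (w y - w x) * (a * weyl_k (a * ‖y - x‖ ^ 2))) := by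
    simp only [sub_mul]
    exact hint.sub hint2
  have hwl : IntegrableOn (fun y => ‖w y - w x‖) (closedBall x r) := by
    refine (hw.integrableOn.sub ?_).norm
    exact integrableOn_const (by
      exact (isCompact_closedBall x r).measure_lt_top.ne)
  refine (norm_integral_le_integral_norm _).trans ?_
  have e2 : ∫ y, ‖(w y - w x) * (a * weyl_k (a * ‖y - x‖ ^ 2))‖ ≤
      ∫ y, (closedBall x r).indicator (fun y => a * ‖w y - w x‖) y := by
    refine integral_mono_of_nonneg (Eventually.of_forall fun _ => norm_nonneg _)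
      ((integrable_indicator_iff measurableSet_closedBall).2 (hwl.const_mul a)) ?_
    refine Eventually.of_forall fun y => ?_
    show ‖(w y - w x) * (a * weyl_k (a * ‖y - x‖ ^ 2))‖ ≤ _
    by_cases hy : y ∈ closedBall x r
    · rw [indicator_of_mem hy, norm_mul, mul_comm]
      refine mul_le_mul_of_nonneg_right ?_ (norm_nonneg _)
      rw [norm_mul, Real.norm_eq_abs, Real.norm_eq_abs, abs_of_pos ha0]
      calc a * |weyl_k (a * ‖y - x‖ ^ 2)| ≤ a * 1 :=
            mul_le_mul_of_nonneg_left (weyl_abs_le _) ha0.le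
        _ = a := mul_one a
    · rw [indicator_of_notMem hy]
      rw [mem_closedBall, dist_eq_norm] at hy
      push Not at hy
      have h6 : r ^ 2 ≤ ‖y - x‖ ^ 2 := pow_le_pow_left₀ hr.le hy.le 2
      have h7 : a * r ^ 2 ≤ a * ‖y - x‖ ^ 2 := mul_le_mul_of_nonneg_left h6 ha0.le
      rw [weyl_k_zero (by linarith)]
      simp
  refine e2.trans (le_of_eq ?_)
  rw [integral_indicator measurableSet_closedBall, integral_const_mul, setAverage_eq]
  have hv : (volume : Measure ℂ).real (closedBall x r) = Real.pi * r ^ 2 := by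
    rw [Measure.real, Complex.volume_closedBall, ENNReal.toReal_mul, ENNReal.toReal_pow,
      ENNReal.toReal_ofReal hr.le]
    simp [mul_comm]
  rw [hv, smul_eq_mul, ← mul_assoc]
  congr 1
  have hpi : Real.pi ≠ 0 := Real.pi_ne_zero
  rw [ha]
  field_simp

theorem weyl_local {U : Set ℂ} (hU : IsOpen U) {u : ℂ → ℝ} (hu : LocallyIntegrableOn u U)
    (h : ∀ φ : ℂ → ℝ, ContDiff ℝ ∞ φ → HasCompactSupport φ → tsupport φ ⊆ U →
      ∫ x in U, u x * (fderiv ℝ (fun y => fderiv ℝ φ y 1) x 1 +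
        fderiv ℝ (fun y => fderiv ℝ φ y Complex.I) x Complex.I) = 0) {x₀ : ℂ} (hx₀ : x₀ ∈ U) :
    ∃ r : ℝ, 0 < r ∧ ball x₀ r ⊆ U ∧ ∃ v : ℂ → ℝ, Continuous v ∧
      ∀ᵐ x ∂volume.restrict (ball x₀ r), u x = v x := by
  obtain ⟨ε, hε, hball⟩ := Metric.isOpen_iff.1 hU x₀ hx₀
  obtain ⟨R, hR⟩ : ∃ R, R = ε / 3 := ⟨_, rfl⟩
  have hR0 : 0 < R := by rw [hR]; positivity
  have hKU : closedBall x₀ (2 * R) ⊆ U := (closedBall_subset_ball (by linarith)).trans hball
  have hwi : Integrable ((closedBall x₀ (2 * R)).indicator u) :=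
    (integrable_indicator_iff measurableSet_closedBall).2
      (hu.integrableOn_compact_subset hKU (isCompact_closedBall _ _))
  obtain ⟨w, hw⟩ : ∃ w, w = (closedBall x₀ (2 * R)).indicator u := ⟨_, rfl⟩
  rw [← hw] at hwi
  have hcpos := weyl_const_pos
  have hR2 : 1 / (2 * R ^ 2) < 1 / R ^ 2 := by
    apply one_div_lt_one_div_of_lt (by positivity)
    nlinarith [pow_pos hR0 2]
  refine ⟨R, hR0, (ball_subset_ball (by linarith)).trans hball,
    fun x => weyl_v w (1 / R ^ 2) x / (∫ z : ℂ, weyl_k (‖z‖ ^ 2)),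
    (weyl_v_cont hwi (by positivity)).div_const _, ?_⟩
  have hleb := VitaliFamily.ae_tendsto_average_norm_sub
    (Besicovitch.vitaliFamily (volume : Measure ℂ)) hwi.locallyIntegrable
  filter_upwards [ae_restrict_of_ae hleb, ae_restrict_mem measurableSet_ball] with x hx hxb
  have h1 := weyl_lim hwi (hx.comp (Besicovitch.tendsto_filterAt volume x))
  have hxb' : dist x x₀ < R := hxb
  have hsub : closedBall x R ⊆ closedBall x₀ (2 * R) :=
    closedBall_subset_closedBall' (by linarith)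
  have hwu : ∀ y ∈ closedBall x R, w y = u y := by
    intro y hy
    rw [hw, indicator_of_mem (hsub hy)]
  have h2 : ∀ᶠ r : ℝ in 𝓝[>] 0, weyl_v w (1 / (2 * r ^ 2)) x = weyl_v w (1 / R ^ 2) x := by
    filter_upwards [self_mem_nhdsWithin, mem_nhdsWithin_of_mem_nhds (Iio_mem_nhds hR0)]
      with r hr hrR
    have hr : 0 < r := hr
    have hrR : r < R := hrR
    refine weyl_indep h hU hwi hR0 (hsub.trans hKU) hwu ?_ hR2
    apply one_div_lt_one_div_of_lt (by positivity)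
    have := pow_lt_pow_left₀ hrR hr.le two_ne_zero
    linarith
  have h3 : (∫ z : ℂ, weyl_k (‖z‖ ^ 2)) * w x = weyl_v w (1 / R ^ 2) x :=
    tendsto_nhds_unique (h1.congr' h2) tendsto_const_nhds
  rw [← hwu x (mem_closedBall_self hR0.le), ← h3, mul_div_cancel_left₀ _ hcpos.ne']

/-- **Weyl's lemma** in the plane: a locally integrable function that is weakly harmonic on an
open set agrees almost everywhere there with a continuous function. -/
theorem weyl {U : Set ℂ} (hU : IsOpen U) {u : ℂ → ℝ} (hu : LocallyIntegrableOn u U)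
    (h : ∀ φ : ℂ → ℝ, ContDiff ℝ ∞ φ → HasCompactSupport φ → tsupport φ ⊆ U →
      ∫ x in U, u x * (fderiv ℝ (fun y => fderiv ℝ φ y 1) x 1 +
        fderiv ℝ (fun y => fderiv ℝ φ y Complex.I) x Complex.I) = 0) :
    ∃ u' : ℂ → ℝ, ContinuousOn u' U ∧ ∀ᵐ x ∂volume.restrict U, u x = u' x := by
  have hloc := fun x (hx : x ∈ U) => weyl_local hU hu h hx
  choose! r hr0 hrU v hvc hv using hloc
  have hkey : ∀ x ∈ U, ∀ y ∈ ball x (r x), v y y = v x y := by
    intro x hx y hy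
    have hyU : y ∈ U := hrU x hx hy
    have hopen : IsOpen (ball x (r x) ∩ ball y (r y)) := isOpen_ball.inter isOpen_ball
    have h1 : v y =ᵐ[volume.restrict (ball x (r x) ∩ ball y (r y))] v x := by
      have h2 := ae_restrict_of_ae_restrict_of_subset
        (inter_subset_left (t := ball y (r y))) (hv x hx)
      have h3 := ae_restrict_of_ae_restrict_of_subset
        (inter_subset_right (s := ball x (r x))) (hv y hyU)
      filter_upwards [h2, h3] with z hz1 hz2
      rw [← hz1, ← hz2]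
    exact Measure.eqOn_open_of_ae_eq h1 hopen (hvc y hyU).continuousOn (hvc x hx).continuousOn
      ⟨hy, mem_ball_self (hr0 y hyU)⟩
  refine ⟨fun x => v x x, ?_, ?_⟩
  · intro x hx
    apply ContinuousAt.continuousWithinAt
    have h1 : (fun y => v y y) =ᶠ[𝓝 x] v x := by
      filter_upwards [ball_mem_nhds x (hr0 x hx)] with y hy
      exact hkey x hx y hy
    exact (hvc x hx).continuousAt.congr h1.symm
  · rw [ae_restrict_iff' hU.measurableSet, ae_iff]
    apply measure_null_of_locally_null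
    intro x hx
    simp only [mem_ofPred_eq, Classical.not_imp] at hx
    refine ⟨{y | ¬ (y ∈ ball x (r x) → u y = v x y)}, ?_, ?_⟩
    · rw [mem_nhdsWithin]
      refine ⟨ball x (r x), isOpen_ball, mem_ball_self (hr0 x hx.1), ?_⟩
      intro y hy
      have hy2 := hy.2
      simp only [mem_ofPred_eq, Classical.not_imp] at hy2 ⊢
      refine ⟨hy.1, ?_⟩
      rw [← hkey x hx.1 y hy.1]
      exact hy2.2
    · have := hv x hx.1
      rw [ae_restrict_iff' measurableSet_ball, ae_iff] at this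
      exact this

end Pool.Agent.MP099f24
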