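import Mathlib
import Pool.Agent.Lib.MP_099f24_an.Defs

/-!
# Sharp densities for local minimizers of the Mumford-Shah energy: definitions
-/

namespace Pool.Agent.MP099f24

open MeasureTheory Filter Topology Set Metric
open scoped ENNReal ContDiff

/-- the set of approximate jump points of `w` in `Ω` -/
def jumpSet (Ω : Set ℂ) (w : ℂ → ℝ) : Set ℂ := {x | x ∈ Ω ∧ ∃ a b ν, IsJump w x a b ν}

/-- the divergence of a vector field on the plane -/
noncomputable def dv (Y : ℂ → ℂ) (x : ℂ) : ℝ := (fderiv ℝ Y x 1).re + (fderiv ℝ Y x Complex.I).im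

/-- radial unit vector at the angle `θ` -/
noncomputable def er (θ : ℝ) : ℂ := Complex.exp (θ * Complex.I)

/-- tangential unit vector at the angle `θ` -/
noncomputable def et (θ : ℝ) : ℂ := Complex.I * Complex.exp (θ * Complex.I)

/-- polar coordinates with centre `a` -/
noncomputable def pc (a : ℂ) (r θ : ℝ) : ℂ := a + r * er θ

/-- A function `u ∈ SBV_loc(Ω)` with approximate gradient `g` and jump field `j`, with locally
finite Mumford-Shah energy. -/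
structure SBVData (Ω : Set ℂ) (u : ℂ → ℝ) (g j : ℂ → ℂ) : Prop where
  isOpen : IsOpen Ω
  meas_u : Measurable u
  meas_g : Measurable g
  intu : LocallyIntegrableOn u Ω
  intg : LocallyIntegrableOn g Ω
  jf : IsJumpField Ω u j
  intj : LocallyIntegrableOn j Ω (μH[1] : Measure ℂ)
  form : ∀ φ : ℂ → ℝ, ContDiff ℝ ∞ φ → HasCompactSupport φ → tsupport φ ⊆ Ω → ∀ v : ℂ,
      ∫ x in Ω, u x * fderiv ℝ φ x v =
        - (∫ x in Ω, φ x * inner ℝ (g x) v) - ∫ x in Ω, φ x * inner ℝ (j x) v ∂(μH[1] : Measure ℂ)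
  fin_g : ∀ K, IsCompact K → K ⊆ Ω → IntegrableOn (fun x => ‖g x‖ ^ 2) K
  fin_S : ∀ K, IsCompact K → K ⊆ Ω → (μH[1] : Measure ℂ) (discSet Ω u ∩ K) < ⊤

/-- A local minimizer of the Mumford-Shah energy in `Ω`, with approximate gradient `g` and jump
field `j` (minimality is stated on compact sets). -/
structure MSMin (Ω : Set ℂ) (u : ℂ → ℝ) (g j : ℂ → ℂ) : Prop extends SBVData Ω u g j where
  min : ∀ (w : ℂ → ℝ) (h : ℂ → ℂ) (K : Set ℂ), LocallyIntegrableOn w Ω → IsSBVGrad Ω w h →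
    IsCompact K → K ⊆ Ω → (∀ x ∈ Ω, x ∉ K → w x = u x) →
    (∫⁻ x in K, ‖g x‖ₑ ^ 2) + (μH[1] : Measure ℂ) (discSet Ω u ∩ K) ≤
      (∫⁻ x in K, ‖h x‖ₑ ^ 2) + (μH[1] : Measure ℂ) (discSet Ω w ∩ K)

/-- `D(s) = ∫_{B_s(a)} |g|²` -/
noncomputable def Dq (g : ℂ → ℂ) (a : ℂ) (s : ℝ) : ℝ := ∫ x in ball a s, ‖g x‖ ^ 2

/-- `L(s) = 𝓗¹(S_u ∩ B_s(a))` -/
noncomputable def Lq (Ω : Set ℂ) (u : ℂ → ℝ) (a : ℂ) (s : ℝ) : ℝ :=
  ((μH[1] : Measure ℂ) (discSet Ω u ∩ ball a s)).toReal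

/-- `T(s)`, the integral of the square of the tangential derivative over `∂B_s(a)` -/
noncomputable def Tq (g : ℂ → ℂ) (a : ℂ) (s : ℝ) : ℝ :=
  s * ∫ θ in Ioo (-Real.pi) Real.pi, (inner ℝ (g (pc a s θ)) (et θ)) ^ 2

/-- `V(s)`, the integral of the square of the normal derivative over `∂B_s(a)` -/
noncomputable def Vq (g : ℂ → ℂ) (a : ℂ) (s : ℝ) : ℝ :=
  s * ∫ θ in Ioo (-Real.pi) Real.pi, (inner ℝ (g (pc a s θ)) (er θ)) ^ 2

/-- the angular derivative of the slice `θ ↦ u (a + s e^{iθ})` -/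
noncomputable def Gq (g : ℂ → ℂ) (a : ℂ) (s θ : ℝ) : ℝ := s * inner ℝ (g (pc a s θ)) (et θ)

/-- `W` in the closed ball, `u` outside -/
noncomputable def glued {E : Type*} (a : ℂ) (s : ℝ) (W u : ℂ → E) (x : ℂ) : E := by
  classical
  exact if dist x a ≤ s then W x else u x

/-- the tangential Jacobian factor of `Φ` on the jump set -/
noncomputable def tfac (Φ : ℂ → ℂ) (j : ℂ → ℂ) (x : ℂ) : ℝ≥0∞ :=
  ‖fderiv ℝ Φ x (Complex.I * j x)‖ₑ / ‖j x‖ₑ

/-- `τ · DX τ` for the tangent `τ` of the jump set -/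
noncomputable def tdiv (X : ℂ → ℂ) (j : ℂ → ℂ) (x : ℂ) : ℝ :=
  inner ℝ (fderiv ℝ X x (Complex.I * j x)) (Complex.I * j x) / ‖j x‖ ^ 2

/-- `Λ(s) = ∫_{J ∩ B_s(a)} |⟨x̂, τ⟩| d𝓗¹` -/
noncomputable def Lam (j : ℂ → ℂ) (a : ℂ) (s : ℝ) : ℝ :=
  ∫ x in ball a s, |inner ℝ (x - a) (Complex.I * j x)| / (‖x - a‖ * ‖j x‖) ∂(μH[1] : Measure ℂ)

/-- The crack-tip function `√(2ρ/π) sin(θ/2)`, `θ ∈ (-π, π)`, where `(ρ, θ)` are the polar
coordinates of `z` with respect to the direction `e` (the crack is the half line `-ℝ₊ e`). -/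
noncomputable def ctip (e z : ℂ) : ℝ :=
  Real.sqrt (2 * ‖z‖ / Real.pi) * Real.sin ((z * (starRingEnd ℂ) e).arg / 2)

/-- `|⟨x̂, τ⟩|`: the cosine of the angle between the jump set and the radial direction
(`0` off the jump set) -/
noncomputable def cosf (j : ℂ → ℂ) (a x : ℂ) : ℝ :=
  |inner ℝ (x - a) (Complex.I * j x)| / (‖x - a‖ * ‖j x‖)

end Pool.Agent.MP099f24
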