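import Mathlib
import Pool.Agent.Lib.MP_099f24_an.SD.Defs
import Pool.Agent.Lib.MP_099f24_an.ChainRule
import Pool.Agent.Lib.MP_099f24_an.JumpBasic
import Pool.Agent.Lib.MP_099f24_an.Unique
import Pool.Agent.Lib.MP_099f24_an.Calibration

/-!
# Truncated outer variation for local minimizers of the Mumford-Shah energy
-/

set_option autoImplicit false

namespace Pool.Agent.MP099f24

open MeasureTheory Filter Topology Set Metric
open scoped ENNReal ContDiff

/-! ### Averages -/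

theorem outer_avg {S : ℝ → Set ℂ} {x : ℂ} {δ : ℝ} (hδ : 0 < δ) (hS : ∀ r, S r ⊆ ball x r)
    (hSm : ∀ r, MeasurableSet (S r)) {f F ρ : ℂ → ℝ} {C : ℝ}
    (hf : IntegrableOn f (ball x δ)) (hF0 : ∀ y, 0 ≤ F y)
    (hρ : Continuous ρ) (hρx : ρ x = 0) (hle : ∀ y, F y ≤ C * f y + ρ y)
    (hlim : Tendsto (fun r : ℝ => ⨍ y in S r, f y) (𝓝[>] 0) (𝓝 0)) :
    Tendsto (fun r : ℝ => ⨍ y in S r, F y) (𝓝[>] 0) (𝓝 0) := by
  rw [Metric.tendsto_nhds]
  intro ε hε
  have h1 : ∀ᶠ r : ℝ in 𝓝[>] 0, C * ⨍ y in S r, f y < ε / 4 := by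
    have h2 : Tendsto (fun r : ℝ => C * ⨍ y in S r, f y) (𝓝[>] 0) (𝓝 (C * 0)) :=
      hlim.const_mul C
    rw [mul_zero] at h2
    exact h2.eventually (gt_mem_nhds (by positivity))
  obtain ⟨η, hη, hηρ⟩ := Metric.continuousAt_iff.1 hρ.continuousAt (ε / 2) (by positivity)
  have hmem : Ioo (0 : ℝ) (min η δ) ∈ 𝓝[>] (0 : ℝ) := Ioo_mem_nhdsGT (lt_min hη hδ)
  filter_upwards [h1, hmem] with r h1 hr
  have hrη : r < η := hr.2.trans_le (min_le_left _ _)
  have hrδ : r < δ := hr.2.trans_le (min_le_right _ _)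
  have hfin : volume (S r) ≠ ⊤ := ne_top_of_le_ne_top measure_ball_lt_top.ne (measure_mono (hS r))
  have hfS : IntegrableOn f (S r) := hf.mono_set ((hS r).trans (ball_subset_ball hrδ.le))
  have hint : IntegrableOn (fun y => C * f y + ε / 2) (S r) :=
    (Integrable.const_mul hfS C).add (integrableOn_const hfin)
  have h3 : ∫ y in S r, F y ≤ ∫ y in S r, (C * f y + ε / 2) := by
    refine integral_mono_of_nonneg (Eventually.of_forall hF0) hint ?_
    refine (ae_restrict_iff' (hSm r)).2 (Eventually.of_forall fun y hy => ?_)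
    have h4 := hηρ (x := y) ((mem_ball.1 (hS r hy)).trans hrη)
    rw [hρx, Real.dist_eq, sub_zero] at h4
    have h5 := le_abs_self (ρ y)
    have h6 := hle y
    show F y ≤ C * f y + ε / 2
    linarith
  have h4 : ∫ y in S r, (C * f y + ε / 2) =
      C * (∫ y in S r, f y) + volume.real (S r) * (ε / 2) := by
    rw [integral_add (Integrable.const_mul hfS C) (integrableOn_const hfin), integral_const_mul,
      setIntegral_const, smul_eq_mul]
  rw [setAverage_eq, smul_eq_mul] at h1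
  have h5 : 0 ≤ ∫ y in S r, F y := integral_nonneg hF0
  have hv : 0 ≤ (volume.real (S r))⁻¹ := inv_nonneg.2 measureReal_nonneg
  have h6 : (volume.real (S r))⁻¹ * volume.real (S r) ≤ 1 := by
    by_cases h0 : volume.real (S r) = 0
    · rw [h0, mul_zero]
      exact zero_le_one
    · rw [inv_mul_cancel₀ h0]
  rw [Real.dist_eq, sub_zero, setAverage_eq, smul_eq_mul, abs_of_nonneg (mul_nonneg hv h5)]
  calc (volume.real (S r))⁻¹ * ∫ y in S r, F y
      ≤ (volume.real (S r))⁻¹ * (C * (∫ y in S r, f y) + volume.real (S r) * (ε / 2)) :=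
        mul_le_mul_of_nonneg_left (h3.trans_eq h4) hv
    _ = C * ((volume.real (S r))⁻¹ * ∫ y in S r, f y) +
        (volume.real (S r))⁻¹ * volume.real (S r) * (ε / 2) := by ring
    _ ≤ ε / 4 + 1 * (ε / 2) :=
        add_le_add h1.le (mul_le_mul_of_nonneg_right h6 (by positivity))
    _ < ε := by linarith

theorem outer_avg_iff {S : ℝ → Set ℂ} {x : ℂ} {δ : ℝ} (hδ : 0 < δ) (hS : ∀ r, S r ⊆ ball x r)
    (hSm : ∀ r, MeasurableSet (S r)) {u w ρ : ℂ → ℝ} {a a' : ℝ}
    (hu : IntegrableOn u (ball x δ)) (hw : IntegrableOn w (ball x δ))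
    (hρ : Continuous ρ) (hρx : ρ x = 0)
    (h1 : ∀ y, |w y - a'| ≤ 3 / 2 * |u y - a| + ρ y)
    (h2 : ∀ y, |u y - a| ≤ 2 * |w y - a'| + 2 * ρ y) :
    Tendsto (fun r : ℝ => ⨍ y in S r, |w y - a'|) (𝓝[>] 0) (𝓝 0) ↔
      Tendsto (fun r : ℝ => ⨍ y in S r, |u y - a|) (𝓝[>] 0) (𝓝 0) := by
  have hv : volume (ball x δ) ≠ ⊤ := measure_ball_lt_top.ne
  have hiu : IntegrableOn (fun y => |u y - a|) (ball x δ) :=
    (hu.sub (integrableOn_const hv)).abs
  have hiw : IntegrableOn (fun y => |w y - a'|) (ball x δ) :=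
    (hw.sub (integrableOn_const hv)).abs
  constructor
  · intro h
    exact outer_avg hδ hS hSm hiw (fun y => abs_nonneg _) (hρ.const_mul 2)
      (by simp [hρx]) h2 h
  · intro h
    exact outer_avg hδ hS hSm hiu (fun y => abs_nonneg _) hρ hρx h1 h

theorem outer_measurableSet_halfBall (x ν : ℂ) (r : ℝ) : MeasurableSet (halfBall x ν r) := by
  have h : IsOpen {y : ℂ | 0 < inner ℝ (y - x) ν} :=
    isOpen_lt continuous_const ((continuous_id.sub continuous_const).inner continuous_const)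
  exact measurableSet_ball.inter h.measurableSet

/-! ### The map `s ↦ s + t ψ(x) κ(s)` -/

section Phi

variable {ψ : ℂ → ℝ} {κ : ℝ → ℝ} {M P t : ℝ}

theorem outer_lip (hκ : ContDiff ℝ ∞ κ) (hM : ∀ s, |κ s| ≤ M ∧ |deriv κ s| ≤ M) (a b : ℝ) :
    |κ a - κ b| ≤ M * |a - b| := by
  have h := Convex.norm_image_sub_le_of_norm_deriv_le (f := κ) (s := univ) (x := b) (y := a)
    (C := M) (fun x _ => (hκ.differentiable (by simp)).differentiableAt)
    (fun x _ => by rw [Real.norm_eq_abs]; exact (hM x).2) convex_univ (mem_univ _) (mem_univ _)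
  rwa [Real.norm_eq_abs, Real.norm_eq_abs] at h

theorem outer_M (hM : ∀ s, |κ s| ≤ M ∧ |deriv κ s| ≤ M) : 0 ≤ M :=
  (abs_nonneg _).trans (hM 0).1

/-- the basic estimate -/
theorem outer_est (hκ : ContDiff ℝ ∞ κ) (hM : ∀ s, |κ s| ≤ M ∧ |deriv κ s| ≤ M)
    (hP : ∀ x, |ψ x| ≤ P) (ht : |t| * P * M ≤ 1 / 2) (x y : ℂ) (s z : ℝ) :
    |(s + t * (ψ y * κ s)) - (z + t * (ψ x * κ z))| ≤ 3 / 2 * |s - z| + |t| * M * |ψ y - ψ x| ∧
    |s - z| ≤ 2 * |(s + t * (ψ y * κ s)) - (z + t * (ψ x * κ z))| +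
      2 * (|t| * M * |ψ y - ψ x|) := by
  have hM0 := outer_M hM
  have e : (s + t * (ψ y * κ s)) - (z + t * (ψ x * κ z)) =
      (s - z) + (t * ψ x * (κ s - κ z) + t * κ s * (ψ y - ψ x)) := by ring
  have b1 : |t * ψ x * (κ s - κ z)| ≤ 1 / 2 * |s - z| := by
    rw [abs_mul, abs_mul]
    calc |t| * |ψ x| * |κ s - κ z| ≤ |t| * P * (M * |s - z|) :=
          mul_le_mul (mul_le_mul_of_nonneg_left (hP x) (abs_nonneg t)) (outer_lip hκ hM s z)
            (abs_nonneg _) (mul_nonneg (abs_nonneg t) ((abs_nonneg _).trans (hP x)))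
      _ = |t| * P * M * |s - z| := by ring
      _ ≤ 1 / 2 * |s - z| := mul_le_mul_of_nonneg_right ht (abs_nonneg _)
  have b2 : |t * κ s * (ψ y - ψ x)| ≤ |t| * M * |ψ y - ψ x| := by
    rw [abs_mul, abs_mul]
    exact mul_le_mul_of_nonneg_right (mul_le_mul_of_nonneg_left (hM s).1 (abs_nonneg t))
      (abs_nonneg _)
  have b3 := abs_add_le (t * ψ x * (κ s - κ z)) (t * κ s * (ψ y - ψ x))
  have b4 := abs_add_le (s - z) (t * ψ x * (κ s - κ z) + t * κ s * (ψ y - ψ x))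
  have b5 : |s - z| ≤ |(s - z) + (t * ψ x * (κ s - κ z) + t * κ s * (ψ y - ψ x))| +
      |t * ψ x * (κ s - κ z) + t * κ s * (ψ y - ψ x)| := by
    have := abs_sub_abs_le_abs_sub ((s - z) + (t * ψ x * (κ s - κ z) + t * κ s * (ψ y - ψ x)))
      (t * ψ x * (κ s - κ z) + t * κ s * (ψ y - ψ x))
    have h' := abs_sub ((s - z) + (t * ψ x * (κ s - κ z) + t * κ s * (ψ y - ψ x)))
      (t * ψ x * (κ s - κ z) + t * κ s * (ψ y - ψ x))
    rwa [add_sub_cancel_right] at h'
  rw [e]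
  constructor <;> linarith

theorem outer_surj (hκ : ContDiff ℝ ∞ κ) (hM : ∀ s, |κ s| ≤ M ∧ |deriv κ s| ≤ M)
    (hP : ∀ x, |ψ x| ≤ P) (ht : |t| * P * M ≤ 1 / 2) (x : ℂ) (z : ℝ) :
    ∃ s : ℝ, s + t * (ψ x * κ s) = z := by
  have hb : ∀ s, |t * (ψ x * κ s)| ≤ 1 / 2 := by
    intro s
    rw [abs_mul, abs_mul]
    calc |t| * (|ψ x| * |κ s|) ≤ |t| * (P * M) :=
          mul_le_mul_of_nonneg_left (mul_le_mul (hP x) (hM s).1 (abs_nonneg _)
            ((abs_nonneg _).trans (hP x))) (abs_nonneg t)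
      _ = |t| * P * M := by ring
      _ ≤ 1 / 2 := ht
  have hc : Continuous fun s : ℝ => s + t * (ψ x * κ s) :=
    continuous_id.add ((hκ.continuous.const_mul _).const_mul _)
  have h1 := intermediate_value_Icc (a := z - 1) (b := z + 1) (by linarith) hc.continuousOn
  have hmem : z ∈ Icc ((fun s : ℝ => s + t * (ψ x * κ s)) (z - 1))
      ((fun s : ℝ => s + t * (ψ x * κ s)) (z + 1)) := by
    have h2 := abs_le.1 (hb (z - 1))
    have h3 := abs_le.1 (hb (z + 1))
    constructor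
    · show z - 1 + t * (ψ x * κ (z - 1)) ≤ z
      linarith [h2.2]
    · show z ≤ z + 1 + t * (ψ x * κ (z + 1))
      linarith [h3.1]
  obtain ⟨s, -, hs⟩ := h1 hmem
  exact ⟨s, hs⟩

end Phi

/-! ### Approximate limits and jumps of `u + t ψ κ(u)` -/

section Lim

variable {Ω : Set ℂ} {u ψ : ℂ → ℝ} {κ : ℝ → ℝ} {M P t : ℝ}

theorem outer_bdd_int (hu : Measurable u) (hψ : Continuous ψ) (hκ : Continuous κ)
    (hM : ∀ s, |κ s| ≤ M) (hP : ∀ x, |ψ x| ≤ P) {K : Set ℂ} (hK : volume K ≠ ⊤) :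
    IntegrableOn (fun x => ψ x * κ (u x)) K := by
  refine Integrable.mono' (g := fun _ => P * M) (integrableOn_const hK)
    ((hψ.measurable.mul (hκ.measurable.comp hu)).aestronglyMeasurable)
    (Eventually.of_forall fun x => ?_)
  rw [Real.norm_eq_abs, abs_mul]
  exact mul_le_mul (hP x) (hM _) (abs_nonneg _) ((abs_nonneg _).trans (hP x))

theorem outer_ball (hΩ : IsOpen Ω) (hu : LocallyIntegrableOn u Ω) {x : ℂ} (hx : x ∈ Ω) :
    ∃ δ, 0 < δ ∧ IntegrableOn u (ball x δ) := by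
  obtain ⟨r, hr, hrΩ⟩ := Metric.mem_nhds_iff.1 (hΩ.mem_nhds hx)
  refine ⟨r / 2, by positivity, ?_⟩
  have h1 : closedBall x (r / 2) ⊆ Ω := (closedBall_subset_ball (by linarith)).trans hrΩ
  exact (hu.integrableOn_compact_subset h1 (isCompact_closedBall x _)).mono_set
    ball_subset_closedBall

theorem outer_lim_iff (hΩ : IsOpen Ω) (hui : LocallyIntegrableOn u Ω) (hu : Measurable u)
    (hψ : Continuous ψ) (hκ : ContDiff ℝ ∞ κ) (hM : ∀ s, |κ s| ≤ M ∧ |deriv κ s| ≤ M)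
    (hP : ∀ x, |ψ x| ≤ P) (ht : |t| * P * M ≤ 1 / 2) {x : ℂ} (hx : x ∈ Ω) (z : ℝ) :
    IsApproxLim (fun y => u y + t * (ψ y * κ (u y))) x (z + t * (ψ x * κ z)) ↔
      IsApproxLim u x z := by
  obtain ⟨δ, hδ, hint⟩ := outer_ball hΩ hui hx
  have hw : IntegrableOn (fun y => u y + t * (ψ y * κ (u y))) (ball x δ) :=
    hint.add (Integrable.const_mul (outer_bdd_int hu hψ hκ.continuous (fun s => (hM s).1) hP
      measure_ball_lt_top.ne) t)
  unfold IsApproxLim
  refine outer_avg_iff (S := fun r => ball x r) hδ (fun r => subset_rfl)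
    (fun r => measurableSet_ball) hint hw (ρ := fun y => |t| * M * |ψ y - ψ x|) ?_ ?_ ?_ ?_
  · exact ((hψ.sub continuous_const).abs).const_mul _
  · simp
  · exact fun y => (outer_est hκ hM hP ht x y (u y) z).1
  · exact fun y => (outer_est hκ hM hP ht x y (u y) z).2

theorem outer_jump_iff (hΩ : IsOpen Ω) (hui : LocallyIntegrableOn u Ω) (hu : Measurable u)
    (hψ : Continuous ψ) (hκ : ContDiff ℝ ∞ κ) (hM : ∀ s, |κ s| ≤ M ∧ |deriv κ s| ≤ M)
    (hP : ∀ x, |ψ x| ≤ P) (ht : |t| * P * M ≤ 1 / 2) {x : ℂ} (hx : x ∈ Ω) (a b : ℝ) (ν : ℂ) :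
    IsJump (fun y => u y + t * (ψ y * κ (u y))) x (a + t * (ψ x * κ a)) (b + t * (ψ x * κ b)) ν ↔
      IsJump u x a b ν := by
  obtain ⟨δ, hδ, hint⟩ := outer_ball hΩ hui hx
  have hw : IntegrableOn (fun y => u y + t * (ψ y * κ (u y))) (ball x δ) :=
    hint.add (Integrable.const_mul (outer_bdd_int hu hψ hκ.continuous (fun s => (hM s).1) hP
      measure_ball_lt_top.ne) t)
  have key : ∀ (μ : ℂ) (c : ℝ),
      Tendsto (fun r : ℝ => ⨍ y in halfBall x μ r,
        |(u y + t * (ψ y * κ (u y))) - (c + t * (ψ x * κ c))|) (𝓝[>] 0) (𝓝 0) ↔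
      Tendsto (fun r : ℝ => ⨍ y in halfBall x μ r, |u y - c|) (𝓝[>] 0) (𝓝 0) := by
    intro μ c
    refine outer_avg_iff (S := fun r => halfBall x μ r) hδ (fun r => inter_subset_left)
      (fun r => outer_measurableSet_halfBall x μ r) hint hw
      (ρ := fun y => |t| * M * |ψ y - ψ x|) ?_ ?_ ?_ ?_
    · exact ((hψ.sub continuous_const).abs).const_mul _
    · simp
    · exact fun y => (outer_est hκ hM hP ht x y (u y) c).1
    · exact fun y => (outer_est hκ hM hP ht x y (u y) c).2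
  have hne : a + t * (ψ x * κ a) ≠ b + t * (ψ x * κ b) ↔ a ≠ b := by
    constructor
    · intro h h'
      exact h (by rw [h'])
    · intro h h'
      have h1 := (outer_est hκ hM hP ht x x a b).2
      rw [h', sub_self, sub_self, abs_zero] at h1
      have h2 : |a - b| ≤ 0 := by simpa using h1
      have := abs_nonpos_iff.1 h2
      exact h (sub_eq_zero.1 this)
  unfold IsJump
  rw [hne, key ν a, key (-ν) b]

theorem outer_disc (hΩ : IsOpen Ω) (hui : LocallyIntegrableOn u Ω) (hu : Measurable u)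
    (hψ : Continuous ψ) (hκ : ContDiff ℝ ∞ κ) (hM : ∀ s, |κ s| ≤ M ∧ |deriv κ s| ≤ M)
    (hP : ∀ x, |ψ x| ≤ P) (ht : |t| * P * M ≤ 1 / 2) :
    discSet Ω (fun y => u y + t * (ψ y * κ (u y))) = discSet Ω u := by
  ext x
  unfold discSet
  simp only [mem_ofPred_eq]
  refine and_congr_right fun hx => not_congr ?_
  constructor
  · rintro ⟨z, hz⟩
    obtain ⟨s, hs⟩ := outer_surj hκ hM hP ht x z
    rw [← hs] at hz
    exact ⟨s, (outer_lim_iff hΩ hui hu hψ hκ hM hP ht hx s).1 hz⟩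
  · rintro ⟨z, hz⟩
    exact ⟨_, (outer_lim_iff hΩ hui hu hψ hκ hM hP ht hx z).2 hz⟩

theorem outer_nojump (hΩ : IsOpen Ω) (hui : LocallyIntegrableOn u Ω) (hu : Measurable u)
    (hψ : Continuous ψ) (hκ : ContDiff ℝ ∞ κ) (hM : ∀ s, |κ s| ≤ M ∧ |deriv κ s| ≤ M)
    (hP : ∀ x, |ψ x| ≤ P) (ht : |t| * P * M ≤ 1 / 2) {x : ℂ} (hx : x ∈ Ω)
    (h : ¬ ∃ a b ν, IsJump u x a b ν) :
    ¬ ∃ a b ν, IsJump (fun y => u y + t * (ψ y * κ (u y))) x a b ν := by
  rintro ⟨a, b, ν, hj⟩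
  obtain ⟨s, hs⟩ := outer_surj hκ hM hP ht x a
  obtain ⟨s', hs'⟩ := outer_surj hκ hM hP ht x b
  rw [← hs, ← hs'] at hj
  exact h ⟨s, s', ν, (outer_jump_iff hΩ hui hu hψ hκ hM hP ht hx s s' ν).1 hj⟩

end Lim

/-! ### Integrability -/

theorem outer_int {μ : Measure ℂ} {Ω : Set ℂ} {f : ℂ → ℂ} (hf : LocallyIntegrableOn f Ω μ)
    {φ : ℂ → ℝ} (hφ : Continuous φ) (hc : HasCompactSupport φ) (hs : tsupport φ ⊆ Ω) :
    IntegrableOn (fun x => φ x • f x) Ω μ := by
  have h1 : IntegrableOn f (tsupport φ) μ := hf.integrableOn_compact_subset hs hc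
  obtain ⟨C, hC⟩ := hc.exists_bound_of_continuous hφ
  have h2 : IntegrableOn (fun x => φ x • f x) (tsupport φ) μ :=
    Integrable.bdd_smul h1 C hφ.aestronglyMeasurable (Eventually.of_forall hC)
  have h3 : Integrable (fun x => φ x • f x) μ := by
    rw [← integrableOn_iff_integrable_of_support_subset (s := tsupport φ)]
    · exact h2
    · intro x hx
      by_contra h'
      exact hx (by simp [image_eq_zero_of_notMem_tsupport h'])
  exact h3.integrableOn

theorem outer_int_inner {μ : Measure ℂ} {Ω : Set ℂ} {f : ℂ → ℂ} (hf : LocallyIntegrableOn f Ω μ)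
    {φ : ℂ → ℝ} (hφ : Continuous φ) (hc : HasCompactSupport φ) (hs : tsupport φ ⊆ Ω) (v : ℂ) :
    IntegrableOn (fun x => φ x * inner ℝ (f x) v) Ω μ := by
  have h1 := (outer_int hf hφ hc hs).inner_const (𝕜 := ℝ) v
  refine h1.congr (Eventually.of_forall fun x => ?_)
  simp only [real_inner_smul_left]

theorem outer_int_real {μ : Measure ℂ} {Ω : Set ℂ} {f : ℂ → ℝ} (hf : LocallyIntegrableOn f Ω μ)
    {φ : ℂ → ℝ} (hφ : Continuous φ) (hc : HasCompactSupport φ) (hs : tsupport φ ⊆ Ω) :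
    IntegrableOn (fun x => f x * φ x) Ω μ := by
  have h1 : IntegrableOn f (tsupport φ) μ := hf.integrableOn_compact_subset hs hc
  obtain ⟨C, hC⟩ := hc.exists_bound_of_continuous hφ
  have h2 : IntegrableOn (fun x => f x * φ x) (tsupport φ) μ :=
    Integrable.mul_bdd (c := C) h1 hφ.aestronglyMeasurable (Eventually.of_forall hC)
  have h3 : Integrable (fun x => f x * φ x) μ := by
    rw [← integrableOn_iff_integrable_of_support_subset (s := tsupport φ)]
    · exact h2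
    · intro x hx
      by_contra h'
      exact hx (by simp [image_eq_zero_of_notMem_tsupport h'])
  exact h3.integrableOn

theorem outer_fderiv_cs {φ : ℂ → ℝ} (hc : HasCompactSupport φ) (v : ℂ) :
    HasCompactSupport (fun x => fderiv ℝ φ x v) ∧
      tsupport (fun x => fderiv ℝ φ x v) ⊆ tsupport φ := by
  have h1 : tsupport (fun x => fderiv ℝ φ x v) ⊆ tsupport φ := by
    refine (closure_mono ?_).trans (tsupport_fderiv_subset ℝ)
    intro x hx h'
    exact hx (by simp [h'])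
  exact ⟨hc.of_isClosed_subset (isClosed_tsupport _) h1, h1⟩

/-! ### The chain rule for `ψ(x) κ(u(x)) v` -/

section Chain

variable {Ω : Set ℂ} {u ψ : ℂ → ℝ} {g j : ℂ → ℂ} {κ : ℝ → ℝ} {M P P' : ℝ}

theorem outer_hasFDerivAt (hψ : ContDiff ℝ ∞ ψ) (hκ : ContDiff ℝ ∞ κ) (v : ℂ) (x : ℂ) (s : ℝ) :
    HasFDerivAt (fun p : ℂ × ℝ => (ψ p.1 * κ p.2) • v)
      ((ψ x • (deriv κ s • ContinuousLinearMap.snd ℝ ℂ ℝ) +
        κ s • (fderiv ℝ ψ x).comp (ContinuousLinearMap.fst ℝ ℂ ℝ)).smulRight v) (x, s) := by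
  have h1 : HasFDerivAt (fun p : ℂ × ℝ => ψ p.1)
      ((fderiv ℝ ψ x).comp (ContinuousLinearMap.fst ℝ ℂ ℝ)) (x, s) := by
    have h := ((hψ.differentiable (by simp)).differentiableAt (x := x)).hasFDerivAt
    exact HasFDerivAt.comp (x, s) (by exact h) hasFDerivAt_fst
  have h2 : HasFDerivAt (fun p : ℂ × ℝ => κ p.2)
      (deriv κ s • ContinuousLinearMap.snd ℝ ℂ ℝ) (x, s) := by
    have h := ((hκ.differentiable (by simp)).differentiableAt (x := s)).hasDerivAt
    exact HasDerivAt.comp_hasFDerivAt (x, s) (by exact h) hasFDerivAt_snd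
  exact (h1.mul h2).smul_const v

theorem outer_chain (hΩ : IsOpen Ω) (hu : LocallyIntegrableOn u Ω) (hg : IsSBVGrad Ω u g)
    (hψ : ContDiff ℝ ∞ ψ) (hκ : ContDiff ℝ ∞ κ) (hM : ∀ s, |κ s| ≤ M ∧ |deriv κ s| ≤ M)
    (hP : ∀ x, |ψ x| ≤ P) (hP' : ∀ x, ‖fderiv ℝ ψ x‖ ≤ P') (v : ℂ) :
    ∃ k : ℂ → ℝ, IsJumpFlux Ω u (fun x s => (ψ x * κ s) • v) k ∧
      LocallyIntegrableOn k Ω (μH[1] : Measure ℂ) ∧
      ∀ χ : ℂ → ℝ, ContDiff ℝ ∞ χ → HasCompactSupport χ → tsupport χ ⊆ Ω →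
        ∫ x in Ω, (ψ x * κ (u x)) * fderiv ℝ χ x v =
          - (∫ x in Ω, χ x * (κ (u x) * fderiv ℝ ψ x v + ψ x * deriv κ (u x) * inner ℝ (g x) v))
          - ∫ x in Ω, χ x * k x ∂(μH[1] : Measure ℂ) := by
  have hM0 := outer_M hM
  have hP0 : 0 ≤ P := (abs_nonneg _).trans (hP 0)
  obtain ⟨k, hk, hki, hkf⟩ := chain_rule hΩ hu hg (Ψ := fun x s => (ψ x * κ s) • v) (by
    refine ContDiff.contDiffOn ?_
    exact (((hψ.of_le (by simp)).comp contDiff_fst).mul
      ((hκ.of_le (by simp)).comp contDiff_snd)).smul contDiff_const) (by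
    intro K _ _
    refine ⟨max (P * M * ‖v‖) ((P * M + M * P') * ‖v‖), fun x _ s => ⟨?_, ?_⟩⟩
    · refine le_trans ?_ (le_max_left _ _)
      rw [norm_smul, Real.norm_eq_abs, abs_mul]
      exact mul_le_mul_of_nonneg_right (mul_le_mul (hP x) (hM s).1 (abs_nonneg _) hP0)
        (norm_nonneg _)
    · refine le_trans ?_ (le_max_right _ _)
      rw [(outer_hasFDerivAt hψ hκ v x s).fderiv, ContinuousLinearMap.norm_smulRight_apply]
      refine mul_le_mul_of_nonneg_right ((norm_add_le _ _).trans (add_le_add ?_ ?_))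
        (norm_nonneg _)
      · rw [norm_smul, norm_smul, Real.norm_eq_abs, Real.norm_eq_abs]
        refine mul_le_mul (hP x) ?_ (by positivity) hP0
        calc |deriv κ s| * ‖ContinuousLinearMap.snd ℝ ℂ ℝ‖ ≤ M * 1 :=
              mul_le_mul (hM s).2 (ContinuousLinearMap.norm_snd_le ℝ ℂ ℝ) (norm_nonneg _) hM0
          _ = M := mul_one M
      · rw [norm_smul, Real.norm_eq_abs]
        refine mul_le_mul (hM s).1 ?_ (norm_nonneg _) hM0
        calc ‖(fderiv ℝ ψ x).comp (ContinuousLinearMap.fst ℝ ℂ ℝ)‖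
            ≤ ‖fderiv ℝ ψ x‖ * ‖ContinuousLinearMap.fst ℝ ℂ ℝ‖ :=
              ContinuousLinearMap.opNorm_comp_le _ _
          _ ≤ P' * 1 := mul_le_mul (hP' x) (ContinuousLinearMap.norm_fst_le ℝ ℂ ℝ)
              (norm_nonneg _) ((norm_nonneg _).trans (hP' x))
          _ = P' := mul_one P')
  refine ⟨k, hk, hki, fun χ hχ hχc hχs => ?_⟩
  have h := hkf χ hχ hχc hχs
  have e1 : ∀ x, fderiv ℝ χ x ((ψ x * κ (u x)) • v) = (ψ x * κ (u x)) * fderiv ℝ χ x v := by
    intro x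
    rw [map_smul, smul_eq_mul]
  have e2 : ∀ x, divx (fun x s => (ψ x * κ s) • v) x (u x) +
      inner ℝ (derivt (fun x s => (ψ x * κ s) • v) x (u x)) (g x) =
      κ (u x) * fderiv ℝ ψ x v + ψ x * deriv κ (u x) * inner ℝ (g x) v := by
    intro x
    congr 1
    · unfold divx
      have h1 : HasFDerivAt (fun y => (ψ y * κ (u x)) • v)
          ((κ (u x) • fderiv ℝ ψ x).smulRight v) x := by
        have h2 := ((hψ.differentiable (by simp)).differentiableAt (x := x)).hasFDerivAt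
        exact (h2.mul_const (κ (u x))).smul_const v
      rw [h1.fderiv]
      have hv : v = v.re • (1 : ℂ) + v.im • Complex.I := by
        rw [Complex.real_smul, Complex.real_smul, mul_one, Complex.re_add_im]
      have h3 : fderiv ℝ ψ x v = v.re * fderiv ℝ ψ x 1 + v.im * fderiv ℝ ψ x Complex.I := by
        conv_lhs => rw [hv]
        rw [map_add, map_smul, map_smul, smul_eq_mul, smul_eq_mul]
      rw [h3]
      simp only [ContinuousLinearMap.smulRight_apply, smul_apply, smul_eq_mul,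
        Complex.smul_re, Complex.smul_im]
      ring
    · unfold derivt
      have h1 : HasDerivAt (fun s => (ψ x * κ s) • v) ((ψ x * deriv κ (u x)) • v) (u x) := by
        have h2 := ((hκ.differentiable (by simp)).differentiableAt (x := u x)).hasDerivAt
        exact (h2.const_mul (ψ x)).smul_const v
      rw [h1.deriv, real_inner_smul_left, real_inner_comm]
  simp only [e1, e2] at h
  exact h

end Chain

/-! ### The data of `u + t ψ κ(u)` -/

/-- the gradient of `ψ` as a vector -/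
noncomputable def outer_grad (ψ : ℂ → ℝ) (x : ℂ) : ℂ :=
  (InnerProductSpace.toDual ℝ ℂ).symm (fderiv ℝ ψ x)

/-- the approximate gradient of `ψ κ(u)` -/
noncomputable def outer_xi (u ψ : ℂ → ℝ) (g : ℂ → ℂ) (κ : ℝ → ℝ) (x : ℂ) : ℂ :=
  (ψ x * deriv κ (u x)) • g x + κ (u x) • outer_grad ψ x

section Data

variable {Ω : Set ℂ} {u ψ : ℂ → ℝ} {g j : ℂ → ℂ} {κ : ℝ → ℝ} {M P P' : ℝ}

theorem outer_inner_grad (ψ : ℂ → ℝ) (x v : ℂ) : inner ℝ (outer_grad ψ x) v = fderiv ℝ ψ x v :=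
  InnerProductSpace.toDual_symm_apply

theorem outer_inner_xi (x v : ℂ) : inner ℝ (outer_xi u ψ g κ x) v =
    ψ x * deriv κ (u x) * inner ℝ (g x) v + κ (u x) * fderiv ℝ ψ x v := by
  unfold outer_xi
  rw [inner_add_left, real_inner_smul_left, real_inner_smul_left, outer_inner_grad]

theorem outer_norm_xi (hM : ∀ s, |κ s| ≤ M ∧ |deriv κ s| ≤ M)
    (hP : ∀ x, |ψ x| ≤ P) (hP' : ∀ x, ‖fderiv ℝ ψ x‖ ≤ P') (x : ℂ) :
    ‖outer_xi u ψ g κ x‖ ≤ P * M * ‖g x‖ + M * P' := by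
  have hM0 := outer_M hM
  have hP0 : 0 ≤ P := (abs_nonneg _).trans (hP 0)
  unfold outer_xi
  refine (norm_add_le _ _).trans (add_le_add ?_ ?_)
  · rw [norm_smul, Real.norm_eq_abs, abs_mul]
    exact mul_le_mul_of_nonneg_right (mul_le_mul (hP x) (hM _).2 (abs_nonneg _) hP0)
      (norm_nonneg _)
  · rw [norm_smul, Real.norm_eq_abs]
    refine mul_le_mul (hM _).1 ?_ (norm_nonneg _) hM0
    unfold outer_grad
    rw [LinearIsometryEquiv.norm_map]
    exact hP' x

theorem outer_meas_xi (hu : Measurable u) (hg : Measurable g) (hψ : ContDiff ℝ ∞ ψ)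
    (hκ : ContDiff ℝ ∞ κ) : Measurable (outer_xi u ψ g κ) := by
  unfold outer_xi
  have h1 : Measurable (fun x => deriv κ (u x)) :=
    (hκ.continuous_deriv (by simp)).measurable.comp hu
  have h2 : Measurable (fun x => κ (u x)) := hκ.continuous.measurable.comp hu
  have h3 : Measurable (outer_grad ψ) := by
    unfold outer_grad
    exact ((InnerProductSpace.toDual ℝ ℂ).symm.continuous.comp
      (hψ.continuous_fderiv (by simp))).measurable
  exact ((hψ.continuous.measurable.mul h1).smul hg).add (h2.smul h3)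

theorem outer_locint_xi (hgi : LocallyIntegrableOn g Ω) (hu : Measurable u) (hg : Measurable g)
    (hψ : ContDiff ℝ ∞ ψ) (hκ : ContDiff ℝ ∞ κ) (hM : ∀ s, |κ s| ≤ M ∧ |deriv κ s| ≤ M)
    (hP : ∀ x, |ψ x| ≤ P) (hP' : ∀ x, ‖fderiv ℝ ψ x‖ ≤ P') :
    LocallyIntegrableOn (outer_xi u ψ g κ) Ω := by
  intro x hx
  obtain ⟨s, hs, h1⟩ := hgi x hx
  refine ⟨s ∩ ball x 1, inter_mem hs (mem_nhdsWithin_of_mem_nhds (ball_mem_nhds x one_pos)), ?_⟩
  have hfin : volume (s ∩ ball x 1) ≠ ⊤ :=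
    ne_top_of_le_ne_top measure_ball_lt_top.ne (measure_mono inter_subset_right)
  refine Integrable.mono' (g := fun y => P * M * ‖g y‖ + M * P') ?_
    (outer_meas_xi hu hg hψ hκ).aestronglyMeasurable
    (Eventually.of_forall fun y => outer_norm_xi hM hP hP' y)
  exact (Integrable.const_mul (h1.mono_set inter_subset_left).norm _).add (integrableOn_const hfin)

theorem outer_flux (hΩ : IsOpen Ω) (hui : LocallyIntegrableOn u Ω) {v : ℂ} {k : ℂ → ℝ}
    (hk : IsJumpFlux Ω u (fun x s => (ψ x * κ s) • v) k) {x : ℂ} (hx : x ∈ Ω) {a b : ℝ} {ν : ℂ}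
    (h : IsJump u x a b ν) : k x = ψ x * (κ a - κ b) * inner ℝ v ν := by
  obtain ⟨δ, hδ, hint⟩ := outer_ball hΩ hui hx
  rcases hk x hx with ⟨a', b', ν', h', e⟩ | ⟨h1, -⟩
  · rw [← sub_smul, real_inner_smul_left] at e
    rcases isJump_unique (ball_mem_nhds x hδ) hint h h' with ⟨rfl, rfl, rfl⟩ | ⟨rfl, rfl, rfl⟩
    · rw [e]
      ring
    · rw [e, inner_neg_right]
      ring
  · exact absurd ⟨a, b, ν, h⟩ h1

theorem outer_sbv (h : SBVData Ω u g j) (hψ : ContDiff ℝ ∞ ψ)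
    (hκ : ContDiff ℝ ∞ κ) (hM : ∀ s, |κ s| ≤ M ∧ |deriv κ s| ≤ M)
    (hP : ∀ x, |ψ x| ≤ P) (hP' : ∀ x, ‖fderiv ℝ ψ x‖ ≤ P') {t : ℝ} (ht : |t| * P * M ≤ 1 / 2) :
    LocallyIntegrableOn (fun y => u y + t * (ψ y * κ (u y))) Ω ∧
      IsSBVGrad Ω (fun y => u y + t * (ψ y * κ (u y)))
        (fun x => g x + t • outer_xi u ψ g κ x) := by
  have hΩ := h.isOpen
  have hg : IsSBVGrad Ω u g := ⟨h.intg, j, h.jf, h.intj, h.form⟩
  have hξi := outer_locint_xi h.intg h.meas_u h.meas_g hψ hκ hM hP hP'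
  have hpi : LocallyIntegrableOn (fun y => ψ y * κ (u y)) Ω := by
    intro x hx
    exact ⟨ball x 1, mem_nhdsWithin_of_mem_nhds (ball_mem_nhds x one_pos),
      outer_bdd_int h.meas_u hψ.continuous hκ.continuous (fun s => (hM s).1) hP
        measure_ball_lt_top.ne⟩
  obtain ⟨k1, hk1, hk1i, -⟩ := outer_chain hΩ h.intu hg hψ hκ hM hP hP' 1
  obtain ⟨k2, hk2, hk2i, -⟩ := outer_chain hΩ h.intu hg hψ hκ hM hP hP' Complex.I
  set q : ℂ → ℂ := fun x => k1 x • (1 : ℂ) + k2 x • Complex.I with hq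
  have hq1 : ∀ x ∈ Ω, ∀ a b ν, IsJump u x a b ν → q x = (ψ x * (κ a - κ b)) • ν := by
    intro x hx a b ν hj
    have e1 := outer_flux hΩ h.intu hk1 hx hj
    have e2 := outer_flux hΩ h.intu hk2 hx hj
    have i1 : inner ℝ (1 : ℂ) ν = ν.re := by simp [Complex.inner]
    have i2 : inner ℝ Complex.I ν = ν.im := by simp [Complex.inner]
    rw [i1] at e1
    rw [i2] at e2
    simp only [hq]
    rw [e1, e2]
    apply Complex.ext
    · simp
    · simp
  have hq0 : ∀ x ∈ Ω, (¬ ∃ a b ν, IsJump u x a b ν) → q x = 0 := by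
    intro x hx hn
    have e1 : k1 x = 0 := by
      rcases hk1 x hx with ⟨a, b, ν, h1, -⟩ | ⟨-, h1⟩
      · exact absurd ⟨a, b, ν, h1⟩ hn
      · exact h1
    have e2 : k2 x = 0 := by
      rcases hk2 x hx with ⟨a, b, ν, h1, -⟩ | ⟨-, h1⟩
      · exact absurd ⟨a, b, ν, h1⟩ hn
      · exact h1
    simp only [hq]
    rw [e1, e2]
    simp
  have hqi : LocallyIntegrableOn q Ω (μH[1] : Measure ℂ) := by
    intro x hx
    obtain ⟨s, hs, h1⟩ := hk1i x hx
    obtain ⟨s', hs', h2⟩ := hk2i x hx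
    exact ⟨s ∩ s', inter_mem hs hs', ((h1.mono_set inter_subset_left).smul_const 1).add
      ((h2.mono_set inter_subset_right).smul_const Complex.I)⟩
  have hloc : ∀ {μ : Measure ℂ} {f f' : ℂ → ℂ}, LocallyIntegrableOn f Ω μ →
      LocallyIntegrableOn f' Ω μ → LocallyIntegrableOn (fun x => f x + t • f' x) Ω μ := by
    intro μ f f' hf hf' x hx
    obtain ⟨s, hs, h1⟩ := hf x hx
    obtain ⟨s', hs', h2⟩ := hf' x hx
    exact ⟨s ∩ s', inter_mem hs hs', (h1.mono_set inter_subset_left).add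
      (Integrable.smul t (h2.mono_set inter_subset_right))⟩
  refine ⟨?_, hloc h.intg hξi, fun x => j x + t • q x, ?_, hloc h.intj hqi, ?_⟩
  · intro x hx
    obtain ⟨s, hs, h1⟩ := h.intu x hx
    obtain ⟨s', hs', h2⟩ := hpi x hx
    exact ⟨s ∩ s', inter_mem hs hs', (h1.mono_set inter_subset_left).add
      (Integrable.const_mul (h2.mono_set inter_subset_right) t)⟩
  · intro x hx
    rcases h.jf x hx with ⟨a, b, ν, h1, h2⟩ | ⟨h1, h2⟩
    · left
      refine ⟨_, _, ν, (outer_jump_iff hΩ h.intu h.meas_u hψ.continuous hκ hM hP ht hx a b ν).2 h1,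
        ?_⟩
      simp only
      rw [h2, hq1 x hx a b ν h1, smul_smul, ← add_smul]
      congr 1
      ring
    · right
      refine ⟨outer_nojump hΩ h.intu h.meas_u hψ.continuous hκ hM hP ht hx h1, ?_⟩
      simp only
      rw [h2, hq0 x hx h1, smul_zero, add_zero]
  · intro φ hφ hφc hφs v
    obtain ⟨k, hk, hki, hkf⟩ := outer_chain hΩ h.intu hg hψ hκ hM hP hP' v
    have e1 := h.form φ hφ hφc hφs v
    have e2 := hkf φ hφ hφc hφs
    have hfc := outer_fderiv_cs hφc v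
    have hfcont : Continuous (fun x => fderiv ℝ φ x v) :=
      (hφ.continuous_fderiv (by simp)).clm_apply continuous_const
    have a1 : ∫ x in Ω, (u x + t * (ψ x * κ (u x))) * fderiv ℝ φ x v =
        (∫ x in Ω, u x * fderiv ℝ φ x v) + t * ∫ x in Ω, (ψ x * κ (u x)) * fderiv ℝ φ x v := by
      rw [← integral_const_mul, ← integral_add
        (outer_int_real h.intu hfcont hfc.1 (hfc.2.trans hφs))
        (Integrable.const_mul (outer_int_real hpi hfcont hfc.1 (hfc.2.trans hφs)) t)]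
      refine integral_congr_ae (Eventually.of_forall fun x => ?_)
      simp only
      ring
    have a2 : ∫ x in Ω, φ x * inner ℝ (g x + t • outer_xi u ψ g κ x) v =
        (∫ x in Ω, φ x * inner ℝ (g x) v) +
          t * ∫ x in Ω, φ x * inner ℝ (outer_xi u ψ g κ x) v := by
      rw [← integral_const_mul, ← integral_add
        (outer_int_inner h.intg hφ.continuous hφc hφs v)
        (Integrable.const_mul (outer_int_inner hξi hφ.continuous hφc hφs v) t)]
      refine integral_congr_ae (Eventually.of_forall fun x => ?_)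
      simp only
      rw [inner_add_left, real_inner_smul_left]
      ring
    have a3 : ∫ x in Ω, φ x * inner ℝ (j x + t • q x) v ∂(μH[1] : Measure ℂ) =
        (∫ x in Ω, φ x * inner ℝ (j x) v ∂(μH[1] : Measure ℂ)) +
          t * ∫ x in Ω, φ x * inner ℝ (q x) v ∂(μH[1] : Measure ℂ) := by
      rw [← integral_const_mul, ← integral_add
        (outer_int_inner h.intj hφ.continuous hφc hφs v)
        (Integrable.const_mul (outer_int_inner hqi hφ.continuous hφc hφs v) t)]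
      refine integral_congr_ae (Eventually.of_forall fun x => ?_)
      simp only
      rw [inner_add_left, real_inner_smul_left]
      ring
    have a4 : ∫ x in Ω, φ x * k x ∂(μH[1] : Measure ℂ) =
        ∫ x in Ω, φ x * inner ℝ (q x) v ∂(μH[1] : Measure ℂ) := by
      refine setIntegral_congr_fun hΩ.measurableSet fun x hx => ?_
      congr 1
      by_cases hj : ∃ a b ν, IsJump u x a b ν
      · obtain ⟨a, b, ν, hj⟩ := hj
        rw [outer_flux hΩ h.intu hk hx hj, hq1 x hx a b ν hj, real_inner_smul_left,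
          real_inner_comm]
      · rw [hq0 x hx hj, inner_zero_left]
        rcases hk x hx with ⟨a, b, ν, h1, -⟩ | ⟨-, h1⟩
        · exact absurd ⟨a, b, ν, h1⟩ hj
        · exact h1
    have a5 : ∫ x in Ω, φ x * (κ (u x) * fderiv ℝ ψ x v +
        ψ x * deriv κ (u x) * inner ℝ (g x) v) =
        ∫ x in Ω, φ x * inner ℝ (outer_xi u ψ g κ x) v := by
      refine integral_congr_ae (Eventually.of_forall fun x => ?_)
      simp only
      rw [outer_inner_xi]
      ring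
    rw [a1, a2, a3, e1, e2, a4, a5]
    ring

end Data

/-! ### The variation -/

theorem outer_quad {A B t₀ : ℝ} (ht₀ : 0 < t₀) (h : ∀ t : ℝ, |t| ≤ t₀ → 0 ≤ 2 * t * A + t ^ 2 * B) :
    A = 0 := by
  have hB : 0 ≤ |B| := abs_nonneg B
  have key : ∀ s : ℝ, |s| = 1 → 0 ≤ s * A := by
    intro s hs
    by_contra hneg
    push Not at hneg
    set τ : ℝ := min t₀ (-(s * A) / (|B| + 1)) with hτ
    have hτ0 : 0 < τ := lt_min ht₀ (div_pos (by linarith) (by positivity))
    have h1 := h (τ * s) (by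
      rw [abs_mul, hs, mul_one, abs_of_pos hτ0]
      exact min_le_left _ _)
    have hs2 : s ^ 2 = 1 := by rw [← sq_abs, hs, one_pow]
    have h2 : 2 * (τ * s) * A + (τ * s) ^ 2 * B = τ * (2 * (s * A) + τ * B) := by
      rw [mul_pow, hs2]
      ring
    rw [h2] at h1
    have h3 : 0 ≤ 2 * (s * A) + τ * B := nonneg_of_mul_nonneg_right h1 hτ0
    have h4 : τ * B ≤ τ * (|B| + 1) := mul_le_mul_of_nonneg_left
      ((le_abs_self B).trans (by linarith)) hτ0.le
    have h5 : τ * (|B| + 1) ≤ -(s * A) := by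
      rw [← le_div_iff₀ (by positivity)]
      exact min_le_right _ _
    linarith
  have h1 := key 1 (by norm_num)
  have h2 := key (-1) (by norm_num)
  linarith

theorem outer_variation {Ω : Set ℂ} {u : ℂ → ℝ} {g j : ℂ → ℂ} (h : MSMin Ω u g j) {ψ : ℂ → ℝ}
    (hψ : ContDiff ℝ ∞ ψ) (hc : HasCompactSupport ψ) (hs : tsupport ψ ⊆ Ω) {κ : ℝ → ℝ}
    (hκ : ContDiff ℝ ∞ κ) {M : ℝ} (hM : ∀ t, |κ t| ≤ M ∧ |deriv κ t| ≤ M) :
    ∫ x in Ω, (ψ x * deriv κ (u x) * ‖g x‖ ^ 2 + κ (u x) * fderiv ℝ ψ x (g x)) = 0 := by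
  have hΩ := h.isOpen
  have hM0 := outer_M hM
  obtain ⟨P₁, hP₁⟩ := hc.exists_bound_of_continuous hψ.continuous
  obtain ⟨P', hP'⟩ := (hc.fderiv (𝕜 := ℝ)).exists_bound_of_continuous
    (hψ.continuous_fderiv (by simp))
  have hP : ∀ x, |ψ x| ≤ P₁ := fun x => by rw [← Real.norm_eq_abs]; exact hP₁ x
  have hP0 : 0 ≤ P₁ := (abs_nonneg _).trans (hP 0)
  set K : Set ℂ := tsupport ψ with hK
  have hKc : IsCompact K := hc
  have hKm : MeasurableSet K := hKc.measurableSet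
  have hKfin : volume K ≠ ⊤ := hKc.measure_lt_top.ne
  -- integrability on `K`
  have hg2 : IntegrableOn (fun x => ‖g x‖ ^ 2) K := h.fin_g K hKc hs
  have hg1 : IntegrableOn (fun x => ‖g x‖) K := (h.intg.integrableOn_compact_subset hs hKc).norm
  have hξm : Measurable (outer_xi u ψ g κ) := outer_meas_xi h.meas_u h.meas_g hψ hκ
  have hξb : ∀ x, ‖outer_xi u ψ g κ x‖ ≤ P₁ * M * ‖g x‖ + M * P' :=
    fun x => outer_norm_xi hM hP hP' x
  have hξ2 : IntegrableOn (fun x => ‖outer_xi u ψ g κ x‖ ^ 2) K := by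
    refine Integrable.mono' (g := fun x => 2 * (P₁ * M) ^ 2 * ‖g x‖ ^ 2 + 2 * (M * P') ^ 2) ?_
      (hξm.norm.pow_const 2).aestronglyMeasurable (Eventually.of_forall fun x => ?_)
    · exact (Integrable.const_mul hg2 _).add (integrableOn_const hKfin)
    · rw [Real.norm_eq_abs, abs_of_nonneg (by positivity)]
      have h1 := hξb x
      have h2 := norm_nonneg (outer_xi u ψ g κ x)
      have h3 : ‖outer_xi u ψ g κ x‖ ^ 2 ≤ (P₁ * M * ‖g x‖ + M * P') ^ 2 :=
        pow_le_pow_left₀ h2 h1 2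
      nlinarith [sq_nonneg (P₁ * M * ‖g x‖ - M * P')]
  have hgξ : IntegrableOn (fun x => inner ℝ (outer_xi u ψ g κ x) (g x)) K := by
    refine Integrable.mono' (g := fun x => P₁ * M * ‖g x‖ ^ 2 + M * P' * ‖g x‖) ?_
      (hξm.inner h.meas_g).aestronglyMeasurable (Eventually.of_forall fun x => ?_)
    · exact (Integrable.const_mul hg2 _).add (Integrable.const_mul hg1 _)
    · refine (norm_inner_le_norm _ _).trans ?_
      calc ‖outer_xi u ψ g κ x‖ * ‖g x‖ ≤ (P₁ * M * ‖g x‖ + M * P') * ‖g x‖ :=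
            mul_le_mul_of_nonneg_right (hξb x) (norm_nonneg _)
        _ = P₁ * M * ‖g x‖ ^ 2 + M * P' * ‖g x‖ := by ring
  -- minimality
  have hmin : ∀ t : ℝ, |t| * P₁ * M ≤ 1 / 2 →
      0 ≤ 2 * t * (∫ x in K, inner ℝ (outer_xi u ψ g κ x) (g x)) +
        t ^ 2 * ∫ x in K, ‖outer_xi u ψ g κ x‖ ^ 2 := by
    intro t ht
    obtain ⟨hwi, hwg⟩ := outer_sbv h.toSBVData hψ hκ hM hP hP' ht
    have h1 := h.min _ _ K hwi hwg hKc hs (fun x _ hx => by
      rw [image_eq_zero_of_notMem_tsupport hx]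
      ring)
    rw [outer_disc hΩ h.intu h.meas_u hψ.continuous hκ hM hP ht] at h1
    have hfS := (h.fin_S K hKc hs).ne
    have h2 := (ENNReal.add_le_add_iff_right hfS).1 h1
    have hexp : ∀ x, ‖g x + t • outer_xi u ψ g κ x‖ ^ 2 =
        ‖g x‖ ^ 2 + (2 * t * inner ℝ (outer_xi u ψ g κ x) (g x) +
          t ^ 2 * ‖outer_xi u ψ g κ x‖ ^ 2) := by
      intro x
      rw [norm_add_sq_real, real_inner_smul_right, norm_smul, mul_pow, Real.norm_eq_abs, sq_abs,
        real_inner_comm]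
      ring
    have hsum : IntegrableOn (fun x => 2 * t * inner ℝ (outer_xi u ψ g κ x) (g x) +
          t ^ 2 * ‖outer_xi u ψ g κ x‖ ^ 2) K :=
      (Integrable.const_mul hgξ _).add (Integrable.const_mul hξ2 _)
    have hwint : IntegrableOn (fun x => ‖g x + t • outer_xi u ψ g κ x‖ ^ 2) K := by
      simp only [hexp]
      exact Integrable.add hg2 hsum
    have ee : ∀ (f : ℂ → ℂ), IntegrableOn (fun x => ‖f x‖ ^ 2) K →
        ∫⁻ x in K, ‖f x‖ₑ ^ 2 = ENNReal.ofReal (∫ x in K, ‖f x‖ ^ 2) := by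
      intro f hf
      rw [ofReal_integral_eq_lintegral_ofReal hf (Eventually.of_forall fun x => by positivity)]
      refine lintegral_congr fun x => ?_
      rw [ENNReal.ofReal_pow (norm_nonneg _), ofReal_norm]
    rw [ee g hg2, ee _ hwint] at h2
    have hp : 0 ≤ ∫ x in K, ‖g x + t • outer_xi u ψ g κ x‖ ^ 2 :=
      integral_nonneg fun x => by positivity
    have h3 := (ENNReal.ofReal_le_ofReal_iff hp).1 h2
    simp only [hexp] at h3
    rw [integral_add hg2 hsum, integral_add (Integrable.const_mul hgξ _)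
      (Integrable.const_mul hξ2 _), integral_const_mul, integral_const_mul] at h3
    linarith
  have hA : ∫ x in K, inner ℝ (outer_xi u ψ g κ x) (g x) = 0 := by
    have hden : 0 < 2 * (P₁ * M + 1) := by positivity
    refine outer_quad (t₀ := 1 / (2 * (P₁ * M + 1))) (by positivity)
      (B := ∫ x in K, ‖outer_xi u ψ g κ x‖ ^ 2) fun t ht => hmin t ?_
    have h1 : |t| * P₁ * M = |t| * (P₁ * M) := by ring
    rw [h1]
    rw [le_div_iff₀ hden] at ht
    have h2 : |t| * (P₁ * M) ≤ |t| * (P₁ * M + 1) :=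
      mul_le_mul_of_nonneg_left (by linarith) (abs_nonneg t)
    linarith
  -- conclusion
  have hzero : ∀ x, x ∉ K →
      ψ x * deriv κ (u x) * ‖g x‖ ^ 2 + κ (u x) * fderiv ℝ ψ x (g x) = 0 := by
    intro x hx
    have h1 : ψ x = 0 := image_eq_zero_of_notMem_tsupport hx
    have h2 : fderiv ℝ ψ x = 0 := by
      have h3 : x ∉ tsupport (fderiv ℝ ψ) := fun h' => hx (tsupport_fderiv_subset ℝ h')
      exact image_eq_zero_of_notMem_tsupport h3
    rw [h1, h2]
    simp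
  rw [setIntegral_eq_of_subset_of_forall_sdiff_eq_zero hΩ.measurableSet hs
    (fun x hx => hzero x hx.2), ← hA]
  refine integral_congr_ae (Eventually.of_forall fun x => ?_)
  simp only
  rw [outer_inner_xi, real_inner_self_eq_norm_sq]

end Pool.Agent.MP099f24
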