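import Pool.Agent.Lib.MP_099f24_an.SD.Defs

/-!
# MP_099f24_an SD, module POLAR: polar coordinates, derivative of `D(s)`
-/

namespace Pool.Agent.MP099f24

open MeasureTheory Filter Topology Set Metric
open scoped ENNReal ContDiff

/-- the measurable equivalence `(x, y) ↦ a + x + i y` -/
noncomputable def polar_e (a : ℂ) : ℝ × ℝ ≃ᵐ ℂ :=
  Complex.measurableEquivRealProd.symm.trans (MeasurableEquiv.addLeft a)

theorem polar_e_apply (a : ℂ) (p : ℝ × ℝ) : polar_e a p = a + ⟨p.1, p.2⟩ := rfl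

theorem polar_e_mp (a : ℂ) : MeasurePreserving (polar_e a) volume volume :=
  (measurePreserving_add_left volume a).comp
    Complex.volume_preserving_equiv_real_prod.symm

theorem polar_e_symm (a : ℂ) (p : ℝ × ℝ) : polar_e a (polarCoord.symm p) = pc a p.1 p.2 := by
  rw [polar_e_apply, pc, er, polarCoord_symm_apply]
  congr 1
  apply Complex.ext
  · simp [Complex.exp_ofReal_mul_I_re, Complex.exp_ofReal_mul_I_im]
  · simp [Complex.exp_ofReal_mul_I_re, Complex.exp_ofReal_mul_I_im]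

theorem polar_dist (a : ℂ) {r : ℝ} (hr : 0 < r) (θ : ℝ) : dist (pc a r θ) a = r := by
  rw [pc, er, Complex.dist_eq, add_sub_cancel_left, norm_mul, Complex.norm_exp_ofReal_mul_I,
    mul_one, Complex.norm_real, Real.norm_eq_abs, abs_of_pos hr]

theorem polar_image_ae (a : ℂ) {P : Set ℝ} (hP0 : P ⊆ Ioi 0) :
    (polarCoord.symm '' (P ×ˢ Ioo (-Real.pi) Real.pi) : Set (ℝ × ℝ)) =ᵐ[volume]
      (polar_e a) ⁻¹' {x | dist x a ∈ P} := by
  have hsub : P ×ˢ Ioo (-Real.pi) Real.pi ⊆ polarCoord.target := fun p hp => ⟨hP0 hp.1, hp.2⟩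
  rw [polarCoord.symm_image_eq_source_inter_preimage hsub]
  have h1 : polarCoord.source ∩ ↑polarCoord ⁻¹' (P ×ˢ Ioo (-Real.pi) Real.pi) =
      polarCoord.source ∩ (polar_e a) ⁻¹' {x | dist x a ∈ P} := by
    ext q
    simp only [mem_inter_iff, mem_preimage, mem_prod, mem_ofPred_eq]
    refine and_congr_right fun hq => ?_
    have h2 := polarCoord.map_source hq
    have h3 : polarCoord q ∈ Ioi (0 : ℝ) ×ˢ Ioo (-Real.pi) Real.pi := h2
    have h4 : dist (polar_e a q) a = (polarCoord q).1 := by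
      have h5 : polarCoord.symm (polarCoord q) = q := polarCoord.left_inv hq
      conv_lhs => rw [← h5]
      rw [polar_e_symm, polar_dist a h3.1]
    rw [h4]
    exact ⟨fun h => h.1, fun h => ⟨h, h3.2⟩⟩
  rw [h1]
  have h2 := polarCoord_source_ae_eq_univ
  have h3 := h2.inter (ae_eq_refl ((polar_e a) ⁻¹' {x | dist x a ∈ P}))
  rwa [univ_inter] at h3

theorem polar_injOn {P : Set ℝ} (hP0 : P ⊆ Ioi 0) :
    InjOn (polarCoord.symm : ℝ × ℝ → ℝ × ℝ) (P ×ˢ Ioo (-Real.pi) Real.pi) :=
  polarCoord.symm.injOn.mono (show P ×ˢ Ioo (-Real.pi) Real.pi ⊆ polarCoord.symm.source from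
    fun _ hp => ⟨hP0 hp.1, hp.2⟩)

theorem polar_integral {E : Type*} [NormedAddCommGroup E] [NormedSpace ℝ E] (a : ℂ) {P : Set ℝ}
    (hP : MeasurableSet P) (hP0 : P ⊆ Ioi 0) (h : ℂ → E) :
    ∫ x in {x | dist x a ∈ P}, h x =
      ∫ p in P ×ˢ Ioo (-Real.pi) Real.pi, p.1 • h (pc a p.1 p.2) := by
  have hm : MeasurableSet (P ×ˢ Ioo (-Real.pi) Real.pi) := hP.prod measurableSet_Ioo
  rw [← (polar_e_mp a).setIntegral_preimage_emb (polar_e a).measurableEmbedding,
    ← setIntegral_congr_set (polar_image_ae a hP0),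
    integral_image_eq_integral_abs_det_fderiv_smul volume hm
      (fun p _ => (hasFDerivAt_polarCoord_symm p).hasFDerivWithinAt) (polar_injOn hP0)]
  apply setIntegral_congr_fun hm
  intro p hp
  simp only
  rw [det_fderivPolarCoordSymm, abs_of_pos (hP0 hp.1), polar_e_symm]

theorem polar_integrable {E : Type*} [NormedAddCommGroup E] [NormedSpace ℝ E] (a : ℂ) {P : Set ℝ}
    (hP : MeasurableSet P) (hP0 : P ⊆ Ioi 0) (h : ℂ → E) :
    IntegrableOn h {x | dist x a ∈ P} ↔
      IntegrableOn (fun p : ℝ × ℝ => p.1 • h (pc a p.1 p.2)) (P ×ˢ Ioo (-Real.pi) Real.pi) := by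
  have hm : MeasurableSet (P ×ˢ Ioo (-Real.pi) Real.pi) := hP.prod measurableSet_Ioo
  rw [← (polar_e_mp a).integrableOn_comp_preimage (polar_e a).measurableEmbedding,
    ← integrableOn_congr_set_ae (polar_image_ae a hP0),
    integrableOn_image_iff_integrableOn_abs_det_fderiv_smul volume hm
      (fun p _ => (hasFDerivAt_polarCoord_symm p).hasFDerivWithinAt) (polar_injOn hP0)]
  refine integrableOn_congr_fun ?_ hm
  intro p hp
  simp only [Function.comp]
  rw [det_fderivPolarCoordSymm, abs_of_pos (hP0 hp.1), polar_e_symm]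

theorem polar_lintegral (a : ℂ) {P : Set ℝ} (hP : MeasurableSet P) (hP0 : P ⊆ Ioi 0)
    (h : ℂ → ℝ≥0∞) :
    ∫⁻ x in {x | dist x a ∈ P}, h x =
      ∫⁻ p in P ×ˢ Ioo (-Real.pi) Real.pi, ENNReal.ofReal p.1 * h (pc a p.1 p.2) := by
  have hm : MeasurableSet (P ×ˢ Ioo (-Real.pi) Real.pi) := hP.prod measurableSet_Ioo
  rw [← (polar_e_mp a).setLIntegral_comp_preimage_emb (polar_e a).measurableEmbedding,
    ← setLIntegral_congr (polar_image_ae a hP0),
    lintegral_image_eq_lintegral_abs_det_fderiv_mul volume hm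
      (fun p _ => (hasFDerivAt_polarCoord_symm p).hasFDerivWithinAt) (polar_injOn hP0)]
  apply setLIntegral_congr_fun hm
  intro p hp
  simp only
  rw [det_fderivPolarCoordSymm, abs_of_pos (hP0 hp.1), polar_e_symm]

theorem polar_pc_cont (a : ℂ) : Continuous (fun p : ℝ × ℝ => pc a p.1 p.2) := by
  unfold pc er
  fun_prop

/-- almost every point of almost every circle -/
theorem polar_ae {a : ℂ} {R : ℝ} {p : ℂ → Prop} (h : ∀ᵐ x ∂volume.restrict (ball a R), p x) :
    ∀ᵐ s ∂(volume.restrict (Ioo 0 R)), ∀ᵐ θ ∂(volume.restrict (Ioo (-Real.pi) Real.pi)),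
      p (pc a s θ) := by
  have hm : MeasurableSet (Ioo (0 : ℝ) R ×ˢ Ioo (-Real.pi) Real.pi) :=
    measurableSet_Ioo.prod measurableSet_Ioo
  rw [ae_restrict_iff' measurableSet_ball, ae_iff] at h
  set N := toMeasurable volume {x | ¬ (x ∈ ball a R → p x)} with hN
  have hN0 : volume N = 0 := by rw [hN, measure_toMeasurable]; exact h
  have hNm : MeasurableSet N := measurableSet_toMeasurable _ _
  have h1 : ∫⁻ x in {x | dist x a ∈ Ioo 0 R}, N.indicator 1 x = 0 := by
    refine le_antisymm ((setLIntegral_le_lintegral _ _).trans ?_) bot_le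
    rw [lintegral_indicator_one hNm, hN0]
  rw [polar_lintegral a measurableSet_Ioo (fun r hr => hr.1)] at h1
  have hmeas : Measurable (fun p : ℝ × ℝ => ENNReal.ofReal p.1 *
      N.indicator (1 : ℂ → ℝ≥0∞) (pc a p.1 p.2)) :=
    measurable_fst.ennreal_ofReal.mul
      ((measurable_one.indicator hNm).comp (polar_pc_cont a).measurable)
  rw [lintegral_eq_zero_iff hmeas] at h1
  have h2 : ∀ᵐ q ∂((volume.restrict (Ioo 0 R)).prod
      (volume.restrict (Ioo (-Real.pi) Real.pi))), p (pc a q.1 q.2) := by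
    rw [Measure.prod_restrict]
    filter_upwards [h1, ae_restrict_mem hm] with q hq hq'
    have hq0 : 0 < q.1 := hq'.1.1
    by_contra hcon
    have h3 : pc a q.1 q.2 ∈ N := by
      apply subset_toMeasurable
      simp only [mem_ofPred_eq, Classical.not_imp]
      refine ⟨?_, hcon⟩
      rw [mem_ball, polar_dist a hq0]
      exact hq'.1.2
    simp only [Pi.zero_apply, indicator_of_mem h3, Pi.one_apply, mul_one,
      ENNReal.ofReal_eq_zero] at hq
    linarith
  exact Measure.ae_ae_of_ae_prod h2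

/-- the integral over a ball in polar coordinates, iterated form -/
theorem polar_iter {w : ℂ → ℝ} (a : ℂ) {P : Set ℝ} (hP : MeasurableSet P) (hP0 : P ⊆ Ioi 0)
    (hi : IntegrableOn w {x | dist x a ∈ P}) :
    (∫ x in {x | dist x a ∈ P}, w x = ∫ r in P, r * ∫ θ in Ioo (-Real.pi) Real.pi,
      w (pc a r θ)) ∧
    IntegrableOn (fun r => r * ∫ θ in Ioo (-Real.pi) Real.pi, w (pc a r θ)) P ∧
    ∀ᵐ r ∂(volume.restrict P),
      IntegrableOn (fun θ => w (pc a r θ)) (Ioo (-Real.pi) Real.pi) := by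
  have h1 := (polar_integrable a hP hP0 w).1 hi
  have h2 : Integrable (fun p : ℝ × ℝ => p.1 • w (pc a p.1 p.2))
      ((volume.restrict P).prod (volume.restrict (Ioo (-Real.pi) Real.pi))) := by
    rw [Measure.prod_restrict]
    exact h1
  refine ⟨?_, ?_, ?_⟩
  · rw [polar_integral a hP hP0]
    have h3 := setIntegral_prod (μ := volume) (ν := volume) (s := P)
      (t := Ioo (-Real.pi) Real.pi) (fun p : ℝ × ℝ => p.1 • w (pc a p.1 p.2)) h1
    rw [← Measure.volume_eq_prod] at h3
    rw [h3]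
    apply integral_congr_ae
    refine Eventually.of_forall fun r => ?_
    simp only [smul_eq_mul]
    rw [integral_const_mul]
  · have h3 := h2.integral_prod_left
    refine h3.congr (Eventually.of_forall fun r => ?_)
    simp only [smul_eq_mul]
    rw [integral_const_mul]
  · filter_upwards [h2.prod_right_ae, ae_restrict_mem hP] with r hr hr'
    have h4 : r ≠ 0 := (hP0 hr').ne'
    have h5 := hr.const_mul r⁻¹
    refine h5.congr (Eventually.of_forall fun θ => ?_)
    simp only [smul_eq_mul]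
    rw [← mul_assoc, inv_mul_cancel₀ h4, one_mul]

theorem polar_ball_ae (a : ℂ) {s : ℝ} (hs : 0 < s) :
    (ball a s : Set ℂ) =ᵐ[volume] {x | dist x a ∈ Ioo 0 s} := by
  have h1 : ball a s = {x | dist x a ∈ Ioo 0 s} ∪ {a} := by
    ext x
    simp only [mem_ball, mem_union, mem_ofPred_eq, mem_Ioo, mem_singleton_iff]
    constructor
    · intro h
      rcases eq_or_ne x a with h2 | h2
      · exact Or.inr h2
      · exact Or.inl ⟨dist_pos.2 h2, h⟩
    · rintro (h | h)
      · exact h.2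
      · rw [h, dist_self]; exact hs
  rw [h1]
  exact union_ae_eq_left_of_ae_eq_empty (by simp [ae_eq_empty])

theorem polar_pyth (z : ℂ) (θ : ℝ) :
    (inner ℝ z (et θ)) ^ 2 + (inner ℝ z (er θ)) ^ 2 = ‖z‖ ^ 2 := by
  have h1 : (er θ).re = Real.cos θ := by simp [er, Complex.exp_ofReal_mul_I_re]
  have h2 : (er θ).im = Real.sin θ := by simp [er, Complex.exp_ofReal_mul_I_im]
  have h3 : et θ = Complex.I * er θ := rfl
  rw [h3, ← Complex.normSq_eq_norm_sq, Complex.normSq_apply]
  simp only [Complex.inner, Complex.mul_re, Complex.mul_im, Complex.conj_re, Complex.conj_im,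
    Complex.I_re, Complex.I_im, h1, h2]
  have := Real.sin_sq_add_cos_sq θ
  linear_combination (z.re ^ 2 + z.im ^ 2) * this

theorem polar_er_cont : Continuous er := by
  unfold er
  fun_prop

theorem polar_et_cont : Continuous et := by
  unfold et
  fun_prop

theorem polar_TV {g : ℂ → ℂ} (hg : Measurable g) (a : ℂ) (s : ℝ)
    (hi : IntegrableOn (fun θ => ‖g (pc a s θ)‖ ^ 2) (Ioo (-Real.pi) Real.pi)) :
    Tq g a s + Vq g a s = s * ∫ θ in Ioo (-Real.pi) Real.pi, ‖g (pc a s θ)‖ ^ 2 := by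
  have hpc : Measurable (fun θ => g (pc a s θ)) := hg.comp
    ((polar_pc_cont a).comp (continuous_const.prodMk continuous_id)).measurable
  have i1 : IntegrableOn (fun θ => (inner ℝ (g (pc a s θ)) (et θ)) ^ 2)
      (Ioo (-Real.pi) Real.pi) := by
    refine Integrable.mono' hi
      ((hpc.inner polar_et_cont.measurable).pow_const 2).aestronglyMeasurable
      (Eventually.of_forall fun θ => ?_)
    rw [Real.norm_eq_abs, abs_of_nonneg (sq_nonneg _), ← polar_pyth (g (pc a s θ)) θ]
    linarith [sq_nonneg (inner ℝ (g (pc a s θ)) (er θ))]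
  have i2 : IntegrableOn (fun θ => (inner ℝ (g (pc a s θ)) (er θ)) ^ 2)
      (Ioo (-Real.pi) Real.pi) := by
    refine Integrable.mono' hi
      ((hpc.inner polar_er_cont.measurable).pow_const 2).aestronglyMeasurable
      (Eventually.of_forall fun θ => ?_)
    rw [Real.norm_eq_abs, abs_of_nonneg (sq_nonneg _), ← polar_pyth (g (pc a s θ)) θ]
    linarith [sq_nonneg (inner ℝ (g (pc a s θ)) (et θ))]
  rw [Tq, Vq, ← mul_add, ← integral_add i1 i2]
  congr 1
  apply integral_congr_ae
  exact Eventually.of_forall fun θ => polar_pyth _ θ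

theorem Dq_deriv {g : ℂ → ℂ} (hg : Measurable g) {a : ℂ} {R : ℝ}
    (hfin : ∀ s < R, IntegrableOn (fun x => ‖g x‖ ^ 2) (ball a s)) :
    (∀ᵐ s ∂(volume.restrict (Ioo 0 R)), HasDerivAt (Dq g a) (Tq g a s + Vq g a s) s ∧
      IntegrableOn (fun θ => ‖g (pc a s θ)‖ ^ 2) (Ioo (-Real.pi) Real.pi)) ∧
    MonotoneOn (Dq g a) (Ioo 0 R) ∧ ContinuousOn (Dq g a) (Ioo 0 R) := by
  set q : ℝ → ℝ := fun r => r * ∫ θ in Ioo (-Real.pi) Real.pi, ‖g (pc a r θ)‖ ^ 2 with hq
  have hfin' : ∀ s < R, IntegrableOn (fun x => ‖g x‖ ^ 2) {x | dist x a ∈ Ioo 0 s} :=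
    fun s hs => (hfin s hs).mono_set fun x hx => hx.2
  have hqi : ∀ s < R, IntegrableOn q (Ioo 0 s) := fun s hs =>
    (polar_iter a measurableSet_Ioo (fun r hr => hr.1) (hfin' s hs)).2.1
  have hD : ∀ s ∈ Ioo 0 R, Dq g a s = ∫ r in (0 : ℝ)..s, q r := by
    intro s hs
    rw [Dq, setIntegral_congr_set (polar_ball_ae a hs.1),
      (polar_iter a measurableSet_Ioo (fun r hr => hr.1) (hfin' s hs.2)).1,
      intervalIntegral.integral_of_le hs.1.le, integral_Ioc_eq_integral_Ioo]
  have hqI : ∀ s ∈ Ioo 0 R, IntervalIntegrable q volume 0 s := fun s hs => by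
    rw [intervalIntegrable_iff_integrableOn_Ioo_of_le hs.1.le]
    exact hqi s hs.2
  have hcov : Ioo 0 R = ⋃ n : ℕ, Ioo 0 (R - 1 / ((n : ℝ) + 1)) := by
    ext x
    simp only [mem_iUnion, mem_Ioo]
    constructor
    · rintro ⟨h1, h2⟩
      obtain ⟨n, hn⟩ := exists_nat_one_div_lt (show 0 < R - x by linarith)
      exact ⟨n, h1, by linarith⟩
    · rintro ⟨n, h1, h2⟩
      have h3 : (0 : ℝ) < 1 / ((n : ℝ) + 1) := by positivity
      exact ⟨h1, by linarith⟩
  refine ⟨?_, ?_, ?_⟩
  · rw [hcov, ae_restrict_iUnion_iff]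
    intro n
    set R' := R - 1 / ((n : ℝ) + 1) with hR'
    have h3 : (0 : ℝ) < 1 / ((n : ℝ) + 1) := by positivity
    have hR'R : R' < R := by rw [hR']; linarith
    rcases le_or_gt R' 0 with h0 | h0
    · rw [Ioo_eq_empty (not_lt.2 h0)]
      simp
    have h4 := (hqI R' ⟨h0, hR'R⟩).ae_hasDerivAt_integral
    have h5 := (polar_iter a measurableSet_Ioo (fun r hr => hr.1) (hfin' R' hR'R)).2.2
    rw [ae_restrict_iff' measurableSet_Ioo] at h5 ⊢
    filter_upwards [h4, h5] with s hs hs' hsm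
    refine ⟨?_, hs' hsm⟩
    rw [polar_TV hg a s (hs' hsm)]
    have h6 := hs (by rw [uIcc_of_le h0.le]; exact Ioo_subset_Icc_self hsm) 0 left_mem_uIcc
    refine h6.congr_of_eventuallyEq ?_
    filter_upwards [Ioo_mem_nhds hsm.1 (hsm.2.trans hR'R)] with t ht
    exact hD t ht
  · intro s hs t ht hst
    rw [Dq, Dq]
    exact setIntegral_mono_set (hfin t ht.2) (Eventually.of_forall fun x => by positivity)
      (Eventually.of_forall (ball_subset_ball hst))
  · intro s hs
    obtain ⟨R', h1, h2⟩ := exists_between hs.2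
    have h3 : ContinuousOn (fun x => ∫ r in (0 : ℝ)..x, q r) (uIcc 0 R') :=
      intervalIntegral.continuousOn_primitive_interval' (hqI R' ⟨hs.1.trans h1, h2⟩) left_mem_uIcc
    have h4 : ContinuousAt (fun x => ∫ r in (0 : ℝ)..x, q r) s := by
      apply h3.continuousAt
      rw [uIcc_of_le (hs.1.trans h1).le]
      exact Icc_mem_nhds hs.1 h1
    have h5 : ContinuousAt (Dq g a) s := by
      refine h4.congr ?_
      filter_upwards [Ioo_mem_nhds hs.1 hs.2] with t ht
      exact (hD t ht).symm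
    exact h5.continuousWithinAt

theorem polar_radial {w : ℂ → ℝ} {a : ℂ} {R : ℝ} (hi : ∀ s < R, IntegrableOn w (ball a s))
    {ζ : ℝ → ℝ} (hζ : Continuous ζ) (hc : HasCompactSupport ζ) (hs : tsupport ζ ⊆ Ioo 0 R) :
    (∫ x, ζ (dist x a) * w x = ∫ s in Ioo 0 R, ζ s * (s * ∫ θ in Ioo (-Real.pi) Real.pi,
      w (pc a s θ))) ∧
    IntegrableOn (fun s => ζ s * (s * ∫ θ in Ioo (-Real.pi) Real.pi, w (pc a s θ)))
      (Ioo 0 R) := by
  obtain ⟨B, hB⟩ := hζ.bounded_above_of_compact_support hc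
  -- the support lies in a smaller ball
  obtain ⟨R', hR', hR'0, hsub⟩ : ∃ R' < R, tsupport ζ ⊆ Iio R' ∧ True := by
    rcases (tsupport ζ).eq_empty_or_nonempty with he | hne
    · exact ⟨R - 1, by linarith, by rw [he]; exact empty_subset _, trivial⟩
    · obtain ⟨M, hM, hM'⟩ := hc.isCompact.exists_isMaxOn hne continuousOn_id
      obtain ⟨R', h1, h2⟩ := exists_between (hs hM).2
      exact ⟨R', h2, fun x hx => lt_of_le_of_lt (hM' hx) h1, trivial⟩
  have hdc : Continuous (fun x : ℂ => dist x a) := continuous_id.dist continuous_const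
  have h0 : ∀ x, x ∉ {x : ℂ | dist x a ∈ Ioo 0 R} → ζ (dist x a) * w x = 0 := by
    intro x hx
    rw [image_eq_zero_of_notMem_tsupport fun h' => hx (hs h'), zero_mul]
  have hint : Integrable (fun x => ζ (dist x a) * w x) := by
    have h1 : IntegrableOn (fun x => ζ (dist x a) * w x) (ball a R') :=
      (hi R' hR').bdd_mul (hζ.comp hdc).aestronglyMeasurable (Eventually.of_forall fun x => hB _)
    rw [← integrableOn_iff_integrable_of_support_subset (s := ball a R')]
    · exact h1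
    · intro x hx
      by_contra hcon
      apply hx
      simp only
      rw [image_eq_zero_of_notMem_tsupport fun h' => hcon (hR'0 h'), zero_mul]
  have h1 := polar_iter a (measurableSet_Ioo (a := (0 : ℝ)) (b := R)) (fun r hr => hr.1)
    hint.integrableOn
  have h2 : ∀ r ∈ Ioo (0 : ℝ) R, r * (∫ θ in Ioo (-Real.pi) Real.pi,
      ζ (dist (pc a r θ) a) * w (pc a r θ)) = ζ r * (r * ∫ θ in Ioo (-Real.pi) Real.pi,
      w (pc a r θ)) := by
    intro r hr
    simp only [polar_dist a hr.1]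
    rw [integral_const_mul]
    ring
  constructor
  · rw [← setIntegral_eq_integral_of_forall_compl_eq_zero h0, h1.1]
    exact setIntegral_congr_fun measurableSet_Ioo h2
  · exact (integrableOn_congr_fun h2 measurableSet_Ioo).1 h1.2.1

theorem polar_arg_pc (a : ℂ) {r θ : ℝ} (hr : 0 < r) (hθ : θ ∈ Ioo (-Real.pi) Real.pi) :
    (pc a r θ - a).arg = θ := by
  rw [pc, er, add_sub_cancel_left, Complex.arg_real_mul _ hr, Complex.arg_exp_mul_I]
  exact (toIocMod_eq_self Real.two_pi_pos).2 ⟨hθ.1, by linarith [hθ.2]⟩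

theorem polar_sub_eq (x a : ℂ) : x - a = (dist x a : ℂ) * er (x - a).arg := by
  rw [er, Complex.dist_eq, Complex.norm_mul_exp_arg_mul_I]

/-- weighted radial integrals -/
theorem radial_weight {g : ℂ → ℂ} (hg : Measurable g) {a : ℂ} {R : ℝ}
    (hfin : ∀ s < R, IntegrableOn (fun x => ‖g x‖ ^ 2) (ball a s)) {ζ : ℝ → ℝ}
    (hζ : Continuous ζ) (hc : HasCompactSupport ζ) (hs : tsupport ζ ⊆ Ioo 0 R) :
    (∫ x, ζ (dist x a) * ‖g x‖ ^ 2 = ∫ s in Ioo 0 R, ζ s * (Tq g a s + Vq g a s)) ∧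
    (∫ x, ζ (dist x a) * (inner ℝ (g x) (x - a)) ^ 2 = ∫ s in Ioo 0 R, ζ s * (s ^ 2 * Vq g a s)) ∧
    IntegrableOn (fun s => ζ s * Tq g a s) (Ioo 0 R) ∧
    IntegrableOn (fun s => ζ s * Vq g a s) (Ioo 0 R) := by
  have hargm : Measurable (fun x : ℂ => (x - a).arg) :=
    Complex.measurable_arg.comp (measurable_id.sub measurable_const)
  set wT : ℂ → ℝ := fun x => (inner ℝ (g x) (et (x - a).arg)) ^ 2 with hwT
  set wV : ℂ → ℝ := fun x => (inner ℝ (g x) (er (x - a).arg)) ^ 2 with hwV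
  have hwTi : ∀ s < R, IntegrableOn wT (ball a s) := fun s hs =>
    Integrable.mono' (hfin s hs) ((hg.inner (polar_et_cont.measurable.comp hargm)).pow_const
      2).aestronglyMeasurable (Eventually.of_forall fun x => by
        rw [hwT, Real.norm_eq_abs, abs_of_nonneg (sq_nonneg _), ← polar_pyth (g x) (x - a).arg]
        linarith [sq_nonneg (inner ℝ (g x) (er (x - a).arg))])
  have hwVi : ∀ s < R, IntegrableOn wV (ball a s) := fun s hs =>
    Integrable.mono' (hfin s hs) ((hg.inner (polar_er_cont.measurable.comp hargm)).pow_const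
      2).aestronglyMeasurable (Eventually.of_forall fun x => by
        rw [hwV, Real.norm_eq_abs, abs_of_nonneg (sq_nonneg _), ← polar_pyth (g x) (x - a).arg]
        linarith [sq_nonneg (inner ℝ (g x) (et (x - a).arg))])
  have hT : ∀ s ∈ Ioo (0 : ℝ) R, s * (∫ θ in Ioo (-Real.pi) Real.pi, wT (pc a s θ)) =
      Tq g a s := by
    intro s hs'
    rw [Tq]
    congr 1
    apply setIntegral_congr_fun measurableSet_Ioo
    intro θ hθ
    simp only [hwT, polar_arg_pc a hs'.1 hθ]
  have hV : ∀ s ∈ Ioo (0 : ℝ) R, s * (∫ θ in Ioo (-Real.pi) Real.pi, wV (pc a s θ)) =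
      Vq g a s := by
    intro s hs'
    rw [Vq]
    congr 1
    apply setIntegral_congr_fun measurableSet_Ioo
    intro θ hθ
    simp only [hwV, polar_arg_pc a hs'.1 hθ]
  obtain ⟨t1, t2⟩ := polar_radial hwTi hζ hc hs
  obtain ⟨v1, v2⟩ := polar_radial hwVi hζ hc hs
  have iT : IntegrableOn (fun s => ζ s * Tq g a s) (Ioo 0 R) :=
    (integrableOn_congr_fun (fun s hs' => by simp only [hT s hs']) measurableSet_Ioo).1 t2
  have iV : IntegrableOn (fun s => ζ s * Vq g a s) (Ioo 0 R) :=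
    (integrableOn_congr_fun (fun s hs' => by simp only [hV s hs']) measurableSet_Ioo).1 v2
  refine ⟨?_, ?_, iT, iV⟩
  · obtain ⟨n1, n2⟩ := polar_radial hfin hζ hc hs
    obtain ⟨B, hB⟩ := hζ.bounded_above_of_compact_support hc
    rw [n1]
    apply setIntegral_congr_ae measurableSet_Ioo
    have h1 := (Dq_deriv hg hfin).1
    rw [ae_restrict_iff' measurableSet_Ioo] at h1
    filter_upwards [h1] with s hs' hs''
    rw [polar_TV hg a s (hs' hs'').2]
  · set ζ' : ℝ → ℝ := fun r => ζ r * r ^ 2 with hζ'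
    have hζ'c : Continuous ζ' := hζ.mul (continuous_pow 2)
    have hζ's : tsupport ζ' ⊆ tsupport ζ := by
      refine closure_mono fun r hr => ?_
      intro h0
      apply hr
      simp only [hζ', h0, zero_mul]
    have hζ'cs : HasCompactSupport ζ' := hc.mono' ((subset_tsupport ζ').trans hζ's)
    obtain ⟨w1, w2⟩ := polar_radial hwVi hζ'c hζ'cs (hζ's.trans hs)
    have h1 : ∫ x, ζ (dist x a) * (inner ℝ (g x) (x - a)) ^ 2 = ∫ x, ζ' (dist x a) * wV x := by
      apply integral_congr_ae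
      refine Eventually.of_forall fun x => ?_
      simp only [hζ', hwV]
      have h2 : (inner ℝ (g x) (x - a) : ℝ) = dist x a * inner ℝ (g x) (er (x - a).arg) := by
        conv_lhs => rw [polar_sub_eq x a]
        rw [← Complex.real_smul, inner_smul_right]
      rw [h2]
      ring
    rw [h1, w1]
    apply setIntegral_congr_fun measurableSet_Ioo
    intro s hs'
    simp only [hζ', hV s hs']
    ring

end Pool.Agent.MP099f24
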