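import Mathlib

/-!
# Eilenberg inequality on circles (module COUNT)
-/

namespace Pool.Agent.MP099f24

open MeasureTheory Filter Topology Set Metric TopologicalSpace
open scoped ENNReal ContDiff

private lemma count_image_le (X : Set ℂ) (a : ℂ) :
    volume ((fun x => dist x a) '' X) ≤ (μH[1] : Measure ℂ) X := by
  have h1 : LipschitzWith 1 (fun x : ℂ => dist x a) := LipschitzWith.dist_left a
  have h2 := h1.hausdorffMeasure_image_le (d := 1) zero_le_one X
  rw [hausdorffMeasure_real] at h2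
  simpa using h2

private lemma count_incr {S : Set ℂ} {a : ℂ} {ι : Type*} (F : Finset ι) (B : ι → Set ℂ)
    (hB : ∀ i, MeasurableSet (B i)) (hdisj : (F : Set ι).PairwiseDisjoint B) (s t : ℝ) :
    ∑ i ∈ F, volume ((fun x => dist x a) '' (S ∩ B i) ∩ Ico s t) ≤
      (μH[1] : Measure ℂ).restrict S (ball a t \ ball a s) := by
  have hsh : MeasurableSet (ball a t \ ball a s) := measurableSet_ball.diff measurableSet_ball
  have h1 : ∀ i ∈ F, volume ((fun x => dist x a) '' (S ∩ B i) ∩ Ico s t) ≤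
      (μH[1] : Measure ℂ).restrict S (B i ∩ (ball a t \ ball a s)) := by
    intro i _
    rw [Measure.restrict_apply ((hB i).inter hsh)]
    refine le_trans (measure_mono ?_) (count_image_le _ a)
    rintro r ⟨⟨x, ⟨hxS, hxB⟩, rfl⟩, hr⟩
    refine ⟨x, ⟨⟨hxB, ?_, ?_⟩, hxS⟩, rfl⟩
    · rw [mem_ball]
      exact hr.2
    · rw [mem_ball, not_lt]
      exact hr.1
  refine (Finset.sum_le_sum h1).trans ?_
  rw [← measure_biUnion_finset]
  · refine measure_mono ?_
    simp only [iUnion_subset_iff]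
    exact fun i _ => inter_subset_right
  · intro i hi j hj hij
    exact (hdisj hi hj hij).mono inter_subset_left inter_subset_left
  · exact fun i _ => (hB i).inter hsh

theorem count_deriv {S : Set ℂ} {a : ℂ} {R : ℝ}
    (hfin : ∀ s < R, (μH[1] : Measure ℂ) (S ∩ ball a s) < ⊤) :
    ∀ᵐ s ∂(volume.restrict (Ioo 0 R)), ∀ n : ℕ, (n : ℕ∞) ≤ (S ∩ sphere a s).encard →
      (n : ℝ) ≤ deriv (fun t => ((μH[1] : Measure ℂ) (S ∩ ball a t)).toReal) s := by
  set ν : Measure ℂ := (μH[1] : Measure ℂ).restrict S with hν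
  have hνb : ∀ t, (μH[1] : Measure ℂ) (S ∩ ball a t) = ν (ball a t) := by
    intro t
    rw [hν, Measure.restrict_apply measurableSet_ball, inter_comm]
  simp only [hνb] at hfin ⊢
  set lam : ℝ → ℝ := fun t => (ν (ball a t)).toReal with hlam
  have hmono : MonotoneOn lam (Iio R) := by
    intro s _ t ht hst
    exact ENNReal.toReal_mono (hfin t ht).ne (measure_mono (ball_subset_ball hst))
  -- the balls
  set B : ℕ → ℕ → Set ℂ := fun m i => ball (denseSeq ℂ i) (1 / ((m : ℝ) + 1)) with hB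
  set Z : ℕ → ℕ → Set ℝ := fun m i => (fun x => dist x a) '' (S ∩ B m i) with hZ
  have hdiff : ∀ᵐ s : ℝ, s ∈ Iio R → DifferentiableWithinAt ℝ lam (Iio R) s :=
    hmono.ae_differentiableWithinAt_of_mem
  have hdens : ∀ m i : ℕ, ∀ᵐ s : ℝ, s ∈ Z m i →
      Tendsto (fun δ : ℝ => volume (Z m i ∩ closedBall (s + δ) δ) /
        volume (closedBall (s + δ) δ)) (𝓝[>] 0) (𝓝 1) := by
    intro m i
    have h1 := IsUnifLocDoublingMeasure.ae_tendsto_measure_inter_div (volume : Measure ℝ) (Z m i) 1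
    have h2 := ae_imp_of_ae_restrict h1
    filter_upwards [h2] with s hs hsZ
    refine hs hsZ (fun δ => s + δ) (fun δ => δ) tendsto_id ?_
    filter_upwards [self_mem_nhdsWithin] with δ hδ
    rw [mem_closedBall, Real.dist_eq]
    have : s - (s + δ) = -δ := by ring
    rw [this, abs_neg, abs_of_pos hδ, one_mul]
  have hdens' : ∀ᵐ s : ℝ, ∀ m i : ℕ, s ∈ Z m i →
      Tendsto (fun δ : ℝ => volume (Z m i ∩ closedBall (s + δ) δ) /
        volume (closedBall (s + δ) δ)) (𝓝[>] 0) (𝓝 1) :=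
    ae_all_iff.2 fun m => ae_all_iff.2 fun i => hdens m i
  rw [ae_restrict_iff' measurableSet_Ioo]
  filter_upwards [hdiff, hdens'] with s hs1 hs2 hs n hn
  obtain ⟨hs0, hsR⟩ := hs
  have hd : HasDerivAt lam (deriv lam s) s :=
    ((hs1 hsR).differentiableAt (Iio_mem_nhds hsR)).hasDerivAt
  -- a finite set of `n` points
  obtain ⟨T, hTS, hTn⟩ := exists_subset_encard_eq hn
  have hTfin : T.Finite := finite_of_encard_eq_coe hTn
  -- separation
  obtain ⟨m, hm⟩ : ∃ m : ℕ, ∀ p ∈ T, ∀ q ∈ T, p ≠ q → 4 * (1 / ((m : ℝ) + 1)) ≤ dist p q := by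
    have h1 : ∀ᶠ m : ℕ in atTop, ∀ pq ∈ (T ×ˢ T), pq.1 ≠ pq.2 →
        4 * (1 / ((m : ℝ) + 1)) ≤ dist pq.1 pq.2 := by
      rw [(hTfin.prod hTfin).eventually_all]
      rintro ⟨p, q⟩ _
      by_cases hpq : p = q
      · exact Eventually.of_forall fun m h => absurd hpq h
      · have h2 : Tendsto (fun m : ℕ => 4 * (1 / ((m : ℝ) + 1))) atTop (𝓝 (4 * 0)) :=
          tendsto_one_div_add_atTop_nhds_zero_nat.const_mul 4
        rw [mul_zero] at h2
        have h3 := h2.eventually_lt_const (dist_pos.2 hpq)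
        filter_upwards [h3] with m hm _ using hm.le
    obtain ⟨m, hm⟩ := h1.exists
    exact ⟨m, fun p hp q hq hpq => hm (p, q) ⟨hp, hq⟩ hpq⟩
  have hr : (0 : ℝ) < 1 / ((m : ℝ) + 1) := by positivity
  have hchoice : ∀ p : ℂ, ∃ i : ℕ, dist p (denseSeq ℂ i) < 1 / ((m : ℝ) + 1) := by
    intro p
    obtain ⟨i, hi⟩ := (denseRange_denseSeq ℂ).exists_dist_lt p hr
    exact ⟨i, hi⟩
  choose c hc using hchoice
  have hinj : InjOn c T := by
    intro p hp q hq hpq
    by_contra hne
    have h1 := hm p hp q hq hne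
    have h2 := hc p
    have h3 := hc q
    rw [← hpq] at h3
    have h4 := dist_triangle_right p q (denseSeq ℂ (c p))
    linarith
  set F : Finset ℕ := hTfin.toFinset.image c with hF
  have hFcard : F.card = n := by
    rw [hF, Finset.card_image_of_injOn (by simpa using hinj)]
    have h1 := hTfin.encard_eq_coe_toFinset_card
    rw [hTn] at h1
    exact_mod_cast h1.symm
  have hFd : (F : Set ℕ).PairwiseDisjoint (B m) := by
    intro i hi j hj hij
    rw [Finset.mem_coe, hF, Finset.mem_image] at hi hj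
    obtain ⟨p, hp, rfl⟩ := hi
    obtain ⟨q, hq, rfl⟩ := hj
    have hpq : p ≠ q := fun h => hij (by rw [h])
    have h1 := hm p (hTfin.mem_toFinset.1 hp) q (hTfin.mem_toFinset.1 hq) hpq
    change Disjoint (B m (c p)) (B m (c q))
    rw [Set.disjoint_left]
    intro x hx hx'
    rw [hB, mem_ball] at hx hx'
    have h2 := hc p
    have h3 := hc q
    have h4 := dist_triangle4 p (denseSeq ℂ (c p)) x (denseSeq ℂ (c q))
    have h5 := dist_triangle_right p q (denseSeq ℂ (c q))
    rw [dist_comm x] at hx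
    linarith
  have hFZ : ∀ i ∈ F, s ∈ Z m i := by
    intro i hi
    rw [hF, Finset.mem_image] at hi
    obtain ⟨p, hp, rfl⟩ := hi
    have hpT := hTS (hTfin.mem_toFinset.1 hp)
    exact ⟨p, ⟨hpT.1, mem_ball.2 (hc p)⟩, mem_sphere.1 hpT.2⟩
  -- the inequality of increments
  have hinc : ∀ δ : ℝ, 0 < δ → s + 2 * δ < R →
      ∑ i ∈ F, (volume (Z m i ∩ closedBall (s + δ) δ) / volume (closedBall (s + δ) δ)).toReal ≤
        (2 * δ)⁻¹ • (lam (s + 2 * δ) - lam s) := by
    intro δ hδ hδR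
    have h1 : closedBall (s + δ) δ = Icc s (s + 2 * δ) := by
      rw [Real.closedBall_eq_Icc]
      congr 1 <;> ring
    have h2 : ∀ i, volume (Z m i ∩ closedBall (s + δ) δ) = volume (Z m i ∩ Ico s (s + 2 * δ)) := by
      intro i
      rw [h1]
      refine measure_congr ?_
      exact (ae_eq_refl _).inter Ico_ae_eq_Icc.symm
    have h3 := count_incr (S := S) (a := a) F (B m) (fun i => measurableSet_ball) hFd s (s + 2 * δ)
    have hsub : ball a s ⊆ ball a (s + 2 * δ) := ball_subset_ball (by linarith)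
    have hfs : ν (ball a s) ≠ ⊤ := (hfin s hsR).ne
    have hft : ν (ball a (s + 2 * δ)) ≠ ⊤ := (hfin _ hδR).ne
    have h4 : lam (s + 2 * δ) - lam s = (ν (ball a (s + 2 * δ) \ ball a s)).toReal := by
      rw [measure_sdiff hsub measurableSet_ball.nullMeasurableSet hfs,
        ENNReal.toReal_sub_of_le (measure_mono hsub) hft]
    have hfd : ν (ball a (s + 2 * δ) \ ball a s) ≠ ⊤ :=
      ne_top_of_le_ne_top hft (measure_mono sdiff_subset)
    have hvol : volume (closedBall (s + δ) δ) = ENNReal.ofReal (2 * δ) := by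
      rw [Real.volume_closedBall]
    have h5 : ∑ i ∈ F, (volume (Z m i ∩ closedBall (s + δ) δ) /
        volume (closedBall (s + δ) δ)).toReal =
        (2 * δ)⁻¹ * (∑ i ∈ F, volume (Z m i ∩ Ico s (s + 2 * δ))).toReal := by
      rw [ENNReal.toReal_sum, Finset.mul_sum]
      · refine Finset.sum_congr rfl fun i _ => ?_
        rw [h2 i, hvol, ENNReal.toReal_div, ENNReal.toReal_ofReal (by positivity)]
        rw [div_eq_inv_mul]
      · intro i _
        refine ne_top_of_le_ne_top ?_ (measure_mono inter_subset_right)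
        rw [Real.volume_Ico]
        exact ENNReal.ofReal_ne_top
    rw [h5, h4, smul_eq_mul]
    refine mul_le_mul_of_nonneg_left ?_ (by positivity)
    exact ENNReal.toReal_mono hfd h3
  -- passage to the limit
  have hlim1 : Tendsto (fun δ : ℝ => ∑ i ∈ F, (volume (Z m i ∩ closedBall (s + δ) δ) /
      volume (closedBall (s + δ) δ)).toReal) (𝓝[>] 0) (𝓝 (n : ℝ)) := by
    have h1 : (n : ℝ) = ∑ i ∈ F, (1 : ℝ) := by
      rw [Finset.sum_const, hFcard]
      simp
    rw [h1]
    refine tendsto_finsetSum _ fun i hi => ?_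
    have h2 := hs2 m i (hFZ i hi)
    have h3 := (ENNReal.tendsto_toReal ENNReal.one_ne_top).comp h2
    rwa [ENNReal.toReal_one] at h3
  have hlim2 : Tendsto (fun δ : ℝ => (2 * δ)⁻¹ • (lam (s + 2 * δ) - lam s)) (𝓝[>] 0)
      (𝓝 (deriv lam s)) := by
    have h1 := hasDerivAt_iff_tendsto_slope_zero.1 hd
    refine h1.comp ?_
    refine tendsto_nhdsWithin_iff.2 ⟨?_, ?_⟩
    · have h2 : Tendsto (fun δ : ℝ => 2 * δ) (𝓝 0) (𝓝 (2 * 0)) := tendsto_id.const_mul 2
      rw [mul_zero] at h2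
      exact h2.mono_left nhdsWithin_le_nhds
    · filter_upwards [self_mem_nhdsWithin] with δ hδ
      have : (0 : ℝ) < δ := hδ
      simp only [mem_compl_iff, mem_singleton_iff]
      positivity
  refine le_of_tendsto_of_tendsto hlim1 hlim2 ?_
  have h6 : ∀ᶠ δ : ℝ in 𝓝[>] 0, s + 2 * δ < R := by
    have h7 : Tendsto (fun δ : ℝ => s + 2 * δ) (𝓝 0) (𝓝 (s + 2 * 0)) :=
      (tendsto_id.const_mul 2).const_add s
    rw [mul_zero, add_zero] at h7
    exact (h7.mono_left nhdsWithin_le_nhds).eventually_lt_const hsR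
  filter_upwards [self_mem_nhdsWithin, h6] with δ hδ hδR
  exact hinc δ hδ hδR

end Pool.Agent.MP099f24
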