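import Mathlib

/-!
# Differential inequalities for monotone functions
-/

namespace Pool.Agent.MP099f24

open MeasureTheory Filter Topology Set Metric
open scoped ENNReal ContDiff

/-- If `F` is monotone and `F' ≥ m F / s` almost everywhere, then `F / s ^ m` is monotone. -/
theorem ode_power {F : ℝ → ℝ} {a b m : ℝ} (ha : 0 < a) (hab : a ≤ b) (hm : 0 ≤ m)
    (hF : MonotoneOn F (Icc a b)) (hF0 : 0 ≤ F a)
    (hd : ∀ᵐ s ∂(volume.restrict (Icc a b)), m * F s / s ≤ deriv F s) :
    F a * (b / a) ^ m ≤ F b := by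
  -- one step
  have step : ∀ s ∈ Icc a b, ∀ t ∈ Icc a b, s ≤ t → F s * (1 + m * Real.log (t / s)) ≤ F t := by
    intro s hs t ht hst
    have hs0 : 0 < s := ha.trans_le hs.1
    have hFs : 0 ≤ F s := hF0.trans (hF ⟨le_rfl, hab⟩ hs hs.1)
    have hmono : MonotoneOn F (uIcc s t) := by
      rw [uIcc_of_le hst]
      exact hF.mono (Icc_subset_Icc hs.1 ht.2)
    have h1 := hmono.intervalIntegral_deriv_mem_uIcc
    have h2 : ∫ x in s..t, deriv F x ≤ F t - F s := by
      have h3 : F s ≤ F t := hF hs ht hst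
      rw [uIcc_of_le (by linarith)] at h1
      exact h1.2
    have h4 : ∫ x in s..t, m * F s / x ≤ ∫ x in s..t, deriv F x := by
      refine intervalIntegral.integral_mono_ae_restrict hst ?_ hmono.intervalIntegrable_deriv ?_
      · refine ContinuousOn.intervalIntegrable ?_
        rw [uIcc_of_le hst]
        refine continuousOn_const.div continuousOn_id ?_
        intro x hx
        exact (hs0.trans_le hx.1).ne'
      · have h5 : ∀ᵐ x ∂(volume.restrict (Icc s t)), m * F x / x ≤ deriv F x :=
          ae_restrict_of_ae_restrict_of_subset (Icc_subset_Icc hs.1 ht.2) hd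
        filter_upwards [h5, ae_restrict_mem measurableSet_Icc] with x hx hxm
        refine le_trans ?_ hx
        have hx0 : 0 < x := hs0.trans_le hxm.1
        have h6 : F s ≤ F x := hF hs ⟨hs.1.trans hxm.1, hxm.2.trans ht.2⟩ hxm.1
        gcongr
    have h7 : ∫ x in s..t, m * F s / x = m * F s * Real.log (t / s) := by
      have : (fun x => m * F s / x) = fun x : ℝ => (m * F s) * x⁻¹ := by
        funext x; ring
      rw [this, intervalIntegral.integral_const_mul, integral_inv_of_pos hs0 (hs0.trans_le hst)]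
    rw [h7] at h4
    nlinarith
  rcases hab.eq_or_lt with rfl | hab'
  · rw [div_self ha.ne']
    simp
  have hb0 : 0 < b := ha.trans hab'
  set l := Real.log (b / a) with hl
  have hl0 : 0 < l := Real.log_pos ((one_lt_div ha).2 hab')
  have hba : b = a * Real.exp l := by
    rw [hl, Real.exp_log (by positivity)]
    field_simp
  -- n steps
  have key : ∀ n : ℕ, 0 < n → F a * (1 + m * l / n) ^ n ≤ F b := by
    intro n hn
    have hn0 : (0 : ℝ) < n := by exact_mod_cast hn
    set t : ℕ → ℝ := fun k => a * Real.exp (l * k / n) with ht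
    have ht0 : t 0 = a := by simp [ht]
    have htn : t n = b := by
      rw [ht]
      simp only
      rw [hba]
      congr 2
      field_simp
    have htm : ∀ k ≤ n, t k ∈ Icc a b := by
      intro k hk
      have hk' : (k : ℝ) ≤ n := by exact_mod_cast hk
      constructor
      · have : 1 ≤ Real.exp (l * k / n) := Real.one_le_exp (by positivity)
        simp only [ht]
        nlinarith
      · simp only [ht]
        rw [hba]
        have : Real.exp (l * k / n) ≤ Real.exp l := by
          apply Real.exp_le_exp.2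
          rw [div_le_iff₀ hn0]
          nlinarith
        nlinarith
    have hind : ∀ k ≤ n, F a * (1 + m * l / n) ^ k ≤ F (t k) := by
      intro k
      induction k with
      | zero => intro _; simp [ht0]
      | succ k ih =>
        intro hk
        have hk' := ih (by omega)
        have h8 : t k ≤ t (k + 1) := by
          simp only [ht]
          have : Real.exp (l * k / n) ≤ Real.exp (l * ((k + 1 : ℕ) : ℝ) / n) := by
            apply Real.exp_le_exp.2
            rw [div_le_div_iff_of_pos_right hn0]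
            push_cast
            nlinarith
          nlinarith
        have h9 := step (t k) (htm k (by omega)) (t (k + 1)) (htm (k + 1) hk) h8
        have h10 : Real.log (t (k + 1) / t k) = l / n := by
          have : t (k + 1) / t k = Real.exp (l / n) := by
            simp only [ht]
            rw [mul_div_mul_left _ _ ha.ne', ← Real.exp_sub]
            congr 1
            push_cast
            field_simp
            ring
          rw [this, Real.log_exp]
        rw [h10] at h9
        have h11 : 0 ≤ 1 + m * l / n := by positivity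
        calc F a * (1 + m * l / n) ^ (k + 1) = (F a * (1 + m * l / n) ^ k) * (1 + m * l / n) := by
              ring
          _ ≤ F (t k) * (1 + m * l / n) := by gcongr
          _ = F (t k) * (1 + m * (l / n)) := by ring
          _ ≤ F (t (k + 1)) := h9
    have := hind n le_rfl
    rwa [htn] at this
  have hlim : Tendsto (fun n : ℕ => F a * (1 + m * l / n) ^ n) atTop
      (𝓝 (F a * Real.exp (m * l))) :=
    (Real.tendsto_one_add_div_pow_exp (m * l)).const_mul (F a)
  have hle : F a * Real.exp (m * l) ≤ F b := by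
    refine le_of_tendsto hlim ?_
    filter_upwards [eventually_gt_atTop 0] with n hn
    exact key n hn
  have h12 : (b / a) ^ m = Real.exp (m * l) := by
    rw [Real.rpow_def_of_pos (by positivity), ← hl, mul_comm]
  rw [h12]
  exact hle

/-- Truncated monotonicity. -/
theorem ode_trunc {E : ℝ → ℝ} {R c : ℝ} (hE : MonotoneOn E (Ioo 0 R)) (hE0 : ∀ s ∈ Ioo 0 R, 0 ≤ E s)
    (hd : ∀ᵐ s ∂(volume.restrict (Ioo 0 R)), min c (E s / s) ≤ deriv E s) {s t : ℝ}
    (hs : 0 < s) (hst : s ≤ t) (ht : t < R) : min c (E s / s) ≤ min c (E t / t) := by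
  refine le_min (min_le_left _ _) ?_
  by_contra hcon
  push Not at hcon
  have ht0 : 0 < t := hs.trans_le hst
  -- the last radius at which the density is at least `q`
  obtain ⟨q, hq1, hq2⟩ := exists_between hcon
  have hqc : q < c := hq2.trans_le (min_le_left _ _)
  have hqs : q < E s / s := hq2.trans_le (min_le_right _ _)
  have hEq0 : 0 ≤ E t / t := div_nonneg (hE0 t ⟨ht0, ht⟩) ht0.le
  have hq0 : 0 < q := hEq0.trans_lt hq1
  set A := {r | r ∈ Icc s t ∧ q * r ≤ E r} with hA
  have hsA : s ∈ A := ⟨⟨le_rfl, hst⟩, by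
    have := hqs.le
    rwa [le_div_iff₀ hs] at this⟩
  have hbdd : BddAbove A := ⟨t, fun r hr => hr.1.2⟩
  set r := sSup A with hr
  have hsr : s ≤ r := le_csSup hbdd hsA
  have hrt : r ≤ t := csSup_le ⟨s, hsA⟩ fun r hr => hr.1.2
  have hr0 : 0 < r := hs.trans_le hsr
  have hrI : r ∈ Ioo 0 R := ⟨hr0, hrt.trans_lt ht⟩
  have hEr : q * r ≤ E r := by
    by_contra hlt
    push Not at hlt
    obtain ⟨r', hr'A, hr'⟩ := exists_lt_of_lt_csSup ⟨s, hsA⟩
      (show E r / q < r by rwa [div_lt_iff₀ hq0, mul_comm])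
    have h1 : E r' ≤ E r := hE ⟨hs.trans_le hr'A.1.1, hr'A.1.2.trans_lt ht⟩ hrI
      (le_csSup hbdd hr'A)
    rw [div_lt_iff₀ hq0] at hr'
    have := hr'A.2
    nlinarith
  have hout : ∀ x, r < x → x ≤ t → E x < q * x := by
    intro x hx hxt
    by_contra hle
    push Not at hle
    have hxA : x ∈ A := ⟨⟨hsr.trans hx.le, hxt⟩, hle⟩
    exact absurd (le_csSup hbdd hxA) (not_le.2 hx)
  have hsub' : Icc r t ⊆ Ioo 0 R := fun x hx => ⟨hr0.trans_le hx.1, hx.2.trans_lt ht⟩
  have hpow := ode_power (F := E) (m := 1) hr0 hrt zero_le_one (hE.mono hsub') (hE0 r hrI) (by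
      have hsub : Icc r t ⊆ Ioo 0 R := fun x hx => ⟨hr0.trans_le hx.1, hx.2.trans_lt ht⟩
      have h1 : ∀ᵐ x ∂(volume.restrict (Icc r t)), min c (E x / x) ≤ deriv E x :=
        ae_restrict_of_ae_restrict_of_subset hsub hd
      have h2 : ∀ᵐ x ∂(volume.restrict (Icc r t)), x ≠ r :=
        ae_restrict_of_ae (by simp [ae_iff, measure_singleton])
      filter_upwards [h1, h2, ae_restrict_mem measurableSet_Icc] with x hx hxr hxm
      have hx1 := hout x (lt_of_le_of_ne hxm.1 hxr.symm) hxm.2
      have hx0 : 0 < x := hr0.trans_le hxm.1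
      have : E x / x < c := by
        rw [div_lt_iff₀ hx0]
        nlinarith
      rw [min_eq_right this.le] at hx
      rwa [one_mul])
  rw [Real.rpow_one] at hpow
  have h3 : E t < q * t := by
    rwa [div_lt_iff₀ ht0] at hq1
  have h4 : E r * (t / r) ≥ q * t := by
    have : q * r * (t / r) ≤ E r * (t / r) := by gcongr
    have h5 : q * r * (t / r) = q * t := by field_simp
    linarith
  linarith

/-- The differential inequality for the length. -/
theorem ode_length {D L : ℝ → ℝ} {R : ℝ} (hD : MonotoneOn D (Ioo 0 R))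
    (hL : MonotoneOn L (Ioo 0 R)) (hD0 : ∀ s ∈ Ioo 0 R, 0 ≤ D s) (hL0 : ∀ s ∈ Ioo 0 R, 0 ≤ L s)
    (h2 : ∀ s ∈ Ioo 0 R, 2 * s ≤ D s + L s)
    (hd : ∀ᵐ s ∂(volume.restrict (Ioo 0 R)), DifferentiableAt ℝ D s ∧ DifferentiableAt ℝ L s ∧
      ((2 * D s + L s) / s ≤ deriv D s ∨ (1 ≤ deriv L s ∧ D s / s ≤ deriv D s) ∨ 2 ≤ deriv L s))
    (h0 : ∀ δ > 0, ∃ s ∈ Ioo 0 δ, s ≤ L s) {t : ℝ} (ht : t ∈ Ioo 0 R) (hLt : L t < t) :
    3 * t ^ 2 ≤ 2 * D t * L t + L t ^ 2 := by
  obtain ⟨s, hs, hsL⟩ := h0 t ht.1
  have hs0 : 0 < s := hs.1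
  set A := {r | r ∈ Icc s t ∧ r ≤ L r} with hA
  have hsA : s ∈ A := ⟨⟨le_rfl, hs.2.le⟩, hsL⟩
  have hbdd : BddAbove A := ⟨t, fun r hr => hr.1.2⟩
  set r := sSup A with hr
  have hsr : s ≤ r := le_csSup hbdd hsA
  have hrt : r ≤ t := csSup_le ⟨s, hsA⟩ fun r hr => hr.1.2
  have hr0 : 0 < r := hs0.trans_le hsr
  have hrI : r ∈ Ioo 0 R := ⟨hr0, hrt.trans_lt ht.2⟩
  have hLr : r ≤ L r := by
    by_contra hlt
    push Not at hlt
    obtain ⟨r', hr'A, hr'⟩ := exists_lt_of_lt_csSup ⟨s, hsA⟩ hlt
    have h1 : L r' ≤ L r := hL ⟨hs0.trans_le hr'A.1.1, hr'A.1.2.trans_lt ht.2⟩ hrI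
      (le_csSup hbdd hr'A)
    have := hr'A.2
    linarith
  have hout : ∀ x, r < x → x ≤ t → L x < x := by
    intro x hx hxt
    by_contra hle
    push Not at hle
    have hxA : x ∈ A := ⟨⟨hsr.trans hx.le, hxt⟩, hle⟩
    exact absurd (le_csSup hbdd hxA) (not_le.2 hx)
  have hrt' : r < t := by
    rcases hrt.eq_or_lt with h | h
    · rw [h] at hLr
      linarith
    · exact h
  have hsub : Icc r t ⊆ Ioo 0 R := fun x hx => ⟨hr0.trans_le hx.1, hx.2.trans_lt ht.2⟩
  -- `L r = r`
  have hLr' : L r ≤ r := by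
    by_contra hgt
    push Not at hgt
    obtain ⟨x, hx1, hx2⟩ := exists_between (lt_min hgt hrt')
    have hx3 : x < L r := hx2.trans_le (min_le_left _ _)
    have hx4 : x < t := hx2.trans_le (min_le_right _ _)
    have h1 := hout x hx1 hx4.le
    have h2 : L r ≤ L x := hL hrI ⟨hr0.trans hx1, hx4.trans ht.2⟩ hx1.le
    linarith
  have hLeq : L r = r := le_antisymm hLr' hLr
  have hDr : r ≤ D r := by
    have := h2 r hrI
    linarith
  set F : ℝ → ℝ := fun x => 2 * D x * L x + L x ^ 2 with hF
  have hFmono : MonotoneOn F (Icc r t) := by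
    intro x hx y hy hxy
    have h1 := hD (hsub hx) (hsub hy) hxy
    have h2 := hL (hsub hx) (hsub hy) hxy
    have h3 := hD0 x (hsub hx)
    have h4 := hL0 x (hsub hx)
    have h5 : D x * L x ≤ D y * L y := mul_le_mul h1 h2 h4 (h3.trans h1)
    have h6 : L x ^ 2 ≤ L y ^ 2 := by gcongr
    simp only [hF]
    nlinarith
  have hF0 : 0 ≤ F r := by
    have h3 := hD0 r hrI
    have h4 := hL0 r hrI
    simp only [hF]
    positivity
  have hpow := ode_power (F := F) (m := 2) hr0 hrt zero_le_two hFmono hF0 (by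
    have h1 := ae_restrict_of_ae_restrict_of_subset hsub hd
    have h2' : ∀ᵐ x ∂(volume.restrict (Icc r t)), x ≠ r :=
      ae_restrict_of_ae (by simp [ae_iff, measure_singleton])
    have h3' : ∀ᵐ x ∂(volume.restrict (Icc r t)), x ≠ t :=
      ae_restrict_of_ae (by simp [ae_iff, measure_singleton])
    filter_upwards [h1, h2', h3', ae_restrict_mem measurableSet_Icc] with x hx hxr hxt hxm
    obtain ⟨hDd, hLd, hcase⟩ := hx
    have hrx : r < x := lt_of_le_of_ne hxm.1 hxr.symm
    have hxt' : x < t := lt_of_le_of_ne hxm.2 hxt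
    have hx0 : 0 < x := hr0.trans hrx
    have hLx := hout x hrx hxm.2
    have hD0x := hD0 x (hsub hxm)
    have hL0x := hL0 x (hsub hxm)
    have hnh : Icc r t ∈ 𝓝 x := Icc_mem_nhds hrx hxt'
    have hDd0 : 0 ≤ deriv D x := by
      rw [← derivWithin_of_mem_nhds hnh]
      exact (hD.mono hsub).derivWithin_nonneg
    have hLd0 : 0 ≤ deriv L x := by
      rw [← derivWithin_of_mem_nhds hnh]
      exact (hL.mono hsub).derivWithin_nonneg
    have hder : deriv F x = 2 * (deriv D x * L x + D x * deriv L x) + 2 * L x * deriv L x := by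
      have e1 := ((hDd.hasDerivAt.const_mul 2).mul hLd.hasDerivAt).add (hLd.hasDerivAt.pow 2)
      have e2 := e1.deriv
      have e3 : (fun y => (2 * D y) * L y + L y ^ 2) = F := by
        funext y; rfl
      have e4 : deriv F x = 2 * deriv D x * L x + 2 * D x * deriv L x +
          ((2 : ℕ) : ℝ) * L x ^ (2 - 1) * deriv L x := by
        rw [← e2]
        rfl
      rw [e4]
      push_cast
      ring
    rw [hder, div_le_iff₀ hx0]
    simp only [hF]
    rcases hcase with hc | ⟨hc1, hc2⟩ | hc
    · rw [div_le_iff₀ hx0] at hc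
      have e1 : 0 ≤ D x * deriv L x * x := by positivity
      have e2 : 0 ≤ L x * deriv L x * x := by positivity
      nlinarith [mul_le_mul_of_nonneg_right hc hL0x]
    · rw [div_le_iff₀ hx0] at hc2
      have e1 : (D x + L x) * x ≤ (D x + L x) * deriv L x * x := by
        have : (D x + L x) * 1 ≤ (D x + L x) * deriv L x :=
          mul_le_mul_of_nonneg_left hc1 (by positivity)
        nlinarith
      have e2 : 0 ≤ (D x + L x) * (x - L x) := mul_nonneg (by positivity) (by linarith)
      nlinarith [mul_le_mul_of_nonneg_right hc2 hL0x]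
    · have e1 : (D x + L x) * 2 * x ≤ (D x + L x) * deriv L x * x := by
        have : (D x + L x) * 2 ≤ (D x + L x) * deriv L x :=
          mul_le_mul_of_nonneg_left hc (by positivity)
        nlinarith
      have e2 : 0 ≤ (D x + L x) * (x - L x) := mul_nonneg (by positivity) (by linarith)
      have e3 : 0 ≤ deriv D x * L x * x := by positivity
      nlinarith)
  have hFr : 3 * r ^ 2 ≤ F r := by
    simp only [hF]
    rw [hLeq]
    nlinarith
  have ht0 : 0 < t := ht.1
  have h5 : (3 : ℝ) * t ^ 2 = 3 * r ^ 2 * (t / r) ^ (2 : ℝ) := by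
    have : (t / r) ^ (2 : ℝ) = (t / r) ^ 2 := by
      rw [← Real.rpow_natCast]
      norm_num
    rw [this]
    field_simp
  have h6 : 0 ≤ (t / r) ^ (2 : ℝ) := by positivity
  calc 3 * t ^ 2 = 3 * r ^ 2 * (t / r) ^ (2 : ℝ) := h5
    _ ≤ F r * (t / r) ^ (2 : ℝ) := mul_le_mul_of_nonneg_right hFr h6
    _ ≤ F t := hpow

end Pool.Agent.MP099f24
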