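import Mathlib
import Pool.Agent.Lib.MP_099f24_an.SD.Defs
import Pool.Agent.Lib.MP_099f24_an.JumpBasic

/-!
# MP_099f24_an, sharp densities, module JREP: a σ-compact representative of the jump set
-/

namespace Pool.Agent.MP099f24

open MeasureTheory Filter Topology Set Metric
open scoped ENNReal NNReal ContDiff

/-- A jump point is a point of approximate discontinuity. -/
theorem jrep_jump_subset {Ω : Set ℂ} {u : ℂ → ℝ} (hΩ : IsOpen Ω)
    (hu : LocallyIntegrableOn u Ω) : jumpSet Ω u ⊆ discSet Ω u := by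
  rintro x ⟨hxΩ, a, b, ν, hj⟩
  refine ⟨hxΩ, ?_⟩
  rintro ⟨z, hz⟩
  obtain ⟨U, hU, hUi⟩ := hu x hxΩ
  rw [hΩ.nhdsWithin_eq hxΩ] at hU
  exact not_isApproxLim_of_isJump hU hUi hj z hz

/-- On `Ω`, the jump points are the points where the jump field is not zero. -/
theorem jrep_mem_jump_iff {Ω : Set ℂ} {u : ℂ → ℝ} {j : ℂ → ℂ} (h : IsJumpField Ω u j) {x : ℂ}
    (hx : x ∈ Ω) : x ∈ jumpSet Ω u ↔ j x ≠ 0 := by
  rcases h x hx with ⟨a, b, ν, hj, hjx⟩ | hno
  · refine ⟨fun _ => ?_, fun _ => ⟨hx, a, b, ν, hj⟩⟩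
    rw [hjx]
    refine smul_ne_zero (sub_ne_zero.mpr hj.2.1) ?_
    intro h0
    have := hj.1
    rw [h0, norm_zero] at this
    exact zero_ne_one this
  · exact ⟨fun hxJ => absurd hxJ.2 hno.1, fun hne => absurd hno.2 hne⟩

theorem jump_rep {Ω : Set ℂ} {u : ℂ → ℝ} {g j : ℂ → ℂ} (h : SBVData Ω u g j) {K : Set ℂ}
    (hK : IsCompact K) (hKΩ : K ⊆ Ω) :
    ∃ (C : Set ℂ) (j' : ℂ → ℂ), IsSigmaCompact C ∧ C ⊆ jumpSet Ω u ∩ K ∧
      (μH[1] : Measure ℂ) ((jumpSet Ω u ∩ K) \ C) = 0 ∧ Measurable j' ∧ ∀ x ∈ C, j' x = j x := by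
  have hint : IntegrableOn j K (μH[1] : Measure ℂ) :=
    h.intj.integrableOn_compact_subset hKΩ hK
  have hae := hint.aestronglyMeasurable
  set j₀ := hae.mk j with hj₀
  have hj₀m : Measurable j₀ := hae.stronglyMeasurable_mk.measurable
  have hj₀e : ∀ᵐ x ∂((μH[1] : Measure ℂ).restrict K), j x = j₀ x := hae.ae_eq_mk
  set N := toMeasurable ((μH[1] : Measure ℂ).restrict K) {x | ¬ j x = j₀ x} with hN
  have hNm : MeasurableSet N := measurableSet_toMeasurable _ _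
  have hN0 : (μH[1] : Measure ℂ) (N ∩ K) = 0 := by
    rw [← Measure.restrict_apply hNm, hN, measure_toMeasurable]
    exact hj₀e
  have hNs : ∀ x, x ∉ N → j x = j₀ x := by
    intro x hx
    by_contra hne
    exact hx (subset_toMeasurable _ _ hne)
  set B := (K ∩ {x | j₀ x ≠ 0}) \ N with hB
  have hBm : MeasurableSet B :=
    (hK.measurableSet.inter ((measurableSet_eq_fun hj₀m measurable_const).compl)).diff hNm
  have hBJ : B ⊆ jumpSet Ω u ∩ K := by
    intro x hx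
    refine ⟨(jrep_mem_jump_iff h.jf (hKΩ hx.1.1)).mpr ?_, hx.1.1⟩
    rw [hNs x hx.2]
    exact hx.1.2
  have hJB : (μH[1] : Measure ℂ) ((jumpSet Ω u ∩ K) \ B) = 0 := by
    refine measure_mono_null ?_ hN0
    intro x hx
    refine ⟨?_, hx.1.2⟩
    by_contra hxN
    apply hx.2
    refine ⟨⟨hx.1.2, ?_⟩, hxN⟩
    have := (jrep_mem_jump_iff h.jf (hKΩ hx.1.2)).mp hx.1.1
    rw [hNs x hxN] at this
    exact this
  have hfin : (μH[1] : Measure ℂ) B < ⊤ := by
    refine lt_of_le_of_lt (measure_mono ?_) (h.fin_S K hK hKΩ)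
    intro x hx
    exact ⟨jrep_jump_subset h.isOpen h.intu (hBJ hx).1, (hBJ hx).2⟩
  set m := (μH[1] : Measure ℂ).restrict B with hm
  have hmf : IsFiniteMeasure m := ⟨by rwa [hm, Measure.restrict_apply_univ]⟩
  have hex : ∀ n : ℕ, ∃ C ⊆ B, IsCompact C ∧ m (B \ C) < ((n : ℝ≥0∞) + 1)⁻¹ := by
    intro n
    refine hBm.exists_isCompact_sdiff_lt (measure_ne_top _ _) ?_
    simp
  choose C hCB hCc hCm using hex
  refine ⟨⋃ n, C n, j₀, isSigmaCompact_iUnion_of_isCompact _ hCc,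
    (iUnion_subset hCB).trans hBJ, ?_, hj₀m, ?_⟩
  · have h3 : (μH[1] : Measure ℂ) (B \ ⋃ n, C n) = 0 := by
      have h4 : ∀ n : ℕ, (μH[1] : Measure ℂ) (B \ ⋃ n, C n) ≤ ((n : ℝ≥0∞) + 1)⁻¹ := by
        intro n
        have h5 : (μH[1] : Measure ℂ) (B \ C n) = m (B \ C n) := by
          rw [hm, Measure.restrict_apply (hBm.diff (hCc n).measurableSet)]
          congr 1
          exact (inter_eq_left.mpr sdiff_subset).symm
        calc (μH[1] : Measure ℂ) (B \ ⋃ n, C n) ≤ (μH[1] : Measure ℂ) (B \ C n) :=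
              measure_mono (sdiff_subset_sdiff_right (subset_iUnion _ n))
          _ = m (B \ C n) := h5
          _ ≤ _ := (hCm n).le
      refine le_antisymm ?_ zero_le
      have h6 : Tendsto (fun n : ℕ => ((n : ℝ≥0∞) + 1)⁻¹) atTop (𝓝 0) := by
        have h7 := ENNReal.tendsto_inv_nat_nhds_zero.comp (tendsto_add_atTop_nat 1)
        refine h7.congr fun n => ?_
        simp
      exact ge_of_tendsto' h6 h4
    refine measure_mono_null (t := ((jumpSet Ω u ∩ K) \ B) ∪ (B \ ⋃ n, C n)) ?_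
      (measure_union_null hJB h3)
    intro x hx
    by_cases hxB : x ∈ B
    · exact Or.inr ⟨hxB, hx.2⟩
    · exact Or.inl ⟨hx.1, hxB⟩
  · intro x hx
    obtain ⟨n, hn⟩ := mem_iUnion.mp hx
    exact (hNs x (hCB n hn).2).symm

end Pool.Agent.MP099f24
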