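import Pool.Agent.Lib.MP_099f24_an.ChainAux
import Pool.Agent.Lib.MP_099f24_an.SD.Polar

/-!
# MP_099f24_an SD, module LEB: circle slices, `L¹` Lebesgue points
-/

namespace Pool.Agent.MP099f24

open MeasureTheory Filter Topology Set Metric
open scoped ENNReal ContDiff

/-- right-sided averages at a point of differentiability of the primitive -/
theorem leb_slope {φ : ℝ → ℝ} {α β s : ℝ} (hφ : IntegrableOn φ (Ioo α β)) (hs : s ∈ Ioo α β)
    (hd : HasDerivAt (fun x => ∫ t in α..x, φ t) (φ s) s) :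
    Tendsto (fun ε : ℝ => ε⁻¹ * ∫ r in Ioo s (s + ε), φ r) (𝓝[>] 0) (𝓝 (φ s)) := by
  rw [hasDerivAt_iff_tendsto_slope_zero] at hd
  have h1 := hd.mono_left (nhdsWithin_mono 0 (show Ioi (0 : ℝ) ⊆ {0}ᶜ from
    fun x hx => ne_of_gt hx))
  refine h1.congr' ?_
  have h2 : ∀ᶠ ε : ℝ in 𝓝[>] 0, ε < β - s :=
    nhdsWithin_le_nhds (Iio_mem_nhds (by linarith [hs.2]))
  filter_upwards [h2, self_mem_nhdsWithin] with ε h2 h3
  have h3' : (0 : ℝ) < ε := h3
  have i1 : IntervalIntegrable φ volume α s := by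
    rw [intervalIntegrable_iff_integrableOn_Ioo_of_le hs.1.le]
    exact hφ.mono_set (Ioo_subset_Ioo_right hs.2.le)
  have i2 : IntervalIntegrable φ volume α (s + ε) := by
    rw [intervalIntegrable_iff_integrableOn_Ioo_of_le (by linarith [hs.1])]
    exact hφ.mono_set (Ioo_subset_Ioo_right (by linarith))
  rw [intervalIntegral.integral_interval_sub_left i2 i1,
    intervalIntegral.integral_of_le (by linarith), integral_Ioc_eq_integral_Ioo, smul_eq_mul]

/-- almost every point is a right-sided `L¹(μ)`-Lebesgue point of an integrable function of two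
variables -/
theorem leb_general {μ : Measure ℝ} [IsFiniteMeasure μ] {α β : ℝ} {F : ℝ × ℝ → ℝ}
    (hF : Integrable F ((volume.restrict (Ioo α β)).prod μ)) :
    ∀ᵐ s ∂(volume.restrict (Ioo α β)), Integrable (fun θ => F (s, θ)) μ ∧
      Tendsto (fun ε : ℝ => ε⁻¹ * ∫ r in Ioo s (s + ε), ∫ θ, |F (r, θ) - F (s, θ)| ∂μ)
        (𝓝[>] 0) (𝓝 0) := by
  have : Fact ((1 : ℝ≥0∞) ≠ ⊤) := ⟨ENNReal.one_ne_top⟩
  set q : ℕ → Lp ℝ 1 μ := TopologicalSpace.denseSeq (Lp ℝ 1 μ) with hq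
  have hqi : ∀ n, Integrable (q n) μ := fun n => L1.integrable_coeFn (q n)
  set φ : ℕ → ℝ → ℝ := fun n r => ∫ θ, |F (r, θ) - q n θ| ∂μ with hφ
  have hφi : ∀ n, IntegrableOn (φ n) (Ioo α β) := fun n =>
    ((hF.sub ((hqi n).comp_snd (volume.restrict (Ioo α β)))).abs).integral_prod_left
  rcases le_or_gt β α with h0 | h0
  · rw [Ioo_eq_empty (not_lt.2 h0)]
    simp
  have h1 : ∀ᵐ s ∂(volume.restrict (Ioo α β)), ∀ n,
      Tendsto (fun ε : ℝ => ε⁻¹ * ∫ r in Ioo s (s + ε), φ n r) (𝓝[>] 0) (𝓝 (φ n s)) := by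
    rw [ae_all_iff]
    intro n
    have h2 : IntervalIntegrable (φ n) volume α β := by
      rw [intervalIntegrable_iff_integrableOn_Ioo_of_le h0.le]
      exact hφi n
    rw [ae_restrict_iff' measurableSet_Ioo]
    filter_upwards [h2.ae_hasDerivAt_integral] with s hs hs'
    refine leb_slope (hφi n) hs' (hs ?_ α left_mem_uIcc)
    rw [uIcc_of_le h0.le]
    exact Ioo_subset_Icc_self hs'
  have h2 := hF.prod_right_ae
  have h2' := h2
  rw [ae_restrict_iff' measurableSet_Ioo] at h2'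
  filter_upwards [h1, h2, ae_restrict_mem measurableSet_Ioo] with s hs hsi hsm
  refine ⟨hsi, ?_⟩
  rw [Metric.tendsto_nhds]
  intro η hη
  -- choose a dense element
  have h3 : ∃ n, φ n s < η / 3 := by
    obtain ⟨n, hn⟩ := (TopologicalSpace.denseRange_denseSeq (Lp ℝ 1 μ)).exists_dist_lt
      (hsi.toL1 _) (show (0 : ℝ) < η / 3 by linarith)
    refine ⟨n, ?_⟩
    have h4 : ∫ θ, |F (s, θ) - q n θ| ∂μ = dist (hsi.toL1 _) (q n) := by
      rw [dist_eq_norm, L1.norm_eq_integral_norm]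
      apply integral_congr_ae
      filter_upwards [hsi.coeFn_toL1, Lp.coeFn_sub (hsi.toL1 _) (q n)] with θ hθ hθ'
      rw [hθ', Pi.sub_apply, hθ, Real.norm_eq_abs]
    simp only [hφ]
    rw [h4]
    exact hn
  obtain ⟨n, hn⟩ := h3
  have h4 : ∀ᶠ ε : ℝ in 𝓝[>] 0, ε⁻¹ * ∫ r in Ioo s (s + ε), φ n r < 2 * (η / 3) :=
    (hs n).eventually (gt_mem_nhds (by linarith))
  have h5 : ∀ᶠ ε : ℝ in 𝓝[>] 0, ε < β - s :=
    nhdsWithin_le_nhds (Iio_mem_nhds (by linarith [hsm.2]))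
  filter_upwards [h4, h5, self_mem_nhdsWithin] with ε h4 h5 h6
  have h6' : (0 : ℝ) < ε := h6
  have hsub : Ioo s (s + ε) ⊆ Ioo α β := Ioo_subset_Ioo hsm.1.le (by linarith)
  have hnn : 0 ≤ ∫ r in Ioo s (s + ε), ∫ θ, |F (r, θ) - F (s, θ)| ∂μ :=
    integral_nonneg fun r => integral_nonneg fun θ => abs_nonneg _
  have h7 : ∫ r in Ioo s (s + ε), ∫ θ, |F (r, θ) - F (s, θ)| ∂μ ≤
      ∫ r in Ioo s (s + ε), (φ n r + φ n s) := by
    have i1 : IntegrableOn (φ n) (Ioo s (s + ε)) := (hφi n).mono_set hsub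
    have i2 : IntegrableOn (fun _ => φ n s) (Ioo s (s + ε)) := by
      simp [integrableOn_const_iff]
    refine integral_mono_of_nonneg (Eventually.of_forall fun r => integral_nonneg fun θ =>
      abs_nonneg _) (i1.add i2) ?_
    change ∀ᵐ r ∂(volume.restrict (Ioo s (s + ε))), _
    rw [ae_restrict_iff' measurableSet_Ioo]
    filter_upwards [h2'] with r hr hr'
    have hri := hr (hsub hr')
    have i3 : Integrable (fun θ => |F (r, θ) - q n θ|) μ := (hri.sub (hqi n)).abs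
    have i4 : Integrable (fun θ => |F (s, θ) - q n θ|) μ := (hsi.sub (hqi n)).abs
    simp only [hφ]
    rw [← integral_add i3 i4]
    refine integral_mono (hri.sub hsi).abs (i3.add i4) fun θ => ?_
    have h8 : F (r, θ) - F (s, θ) = (F (r, θ) - q n θ) - (F (s, θ) - q n θ) := by ring
    simp only
    rw [h8]
    exact abs_sub _ _
  have h8 : ∫ r in Ioo s (s + ε), (φ n r + φ n s) =
      (∫ r in Ioo s (s + ε), φ n r) + ε * φ n s := by
    have i1 : IntegrableOn (φ n) (Ioo s (s + ε)) := (hφi n).mono_set hsub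
    have i2 : IntegrableOn (fun _ => φ n s) (Ioo s (s + ε)) := by
      simp [integrableOn_const_iff]
    rw [integral_add i1 i2]
    simp [Real.volume_real_Ioo_of_le (show s ≤ s + ε by linarith)]
  rw [h8] at h7
  rw [Real.dist_eq, sub_zero, abs_of_nonneg (mul_nonneg (inv_nonneg.2 h6'.le) hnn)]
  calc ε⁻¹ * ∫ r in Ioo s (s + ε), ∫ θ, |F (r, θ) - F (s, θ)| ∂μ
      ≤ ε⁻¹ * ((∫ r in Ioo s (s + ε), φ n r) + ε * φ n s) :=
        mul_le_mul_of_nonneg_left h7 (inv_nonneg.2 h6'.le)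
    _ = ε⁻¹ * (∫ r in Ioo s (s + ε), φ n r) + φ n s := by
        field_simp
    _ < η := by linarith

theorem slice_lebesgue {u : ℂ → ℝ} (hu : Measurable u) {a : ℂ} {R : ℝ}
    (hi : ∀ s < R, IntegrableOn u (ball a s)) :
    ∀ᵐ s ∂(volume.restrict (Ioo 0 R)),
      IntegrableOn (fun θ => u (pc a s θ)) (Ioo (-Real.pi) Real.pi) ∧
      (∀ᵐ θ ∂(volume.restrict (Ioo (-Real.pi) Real.pi)),
        IsApproxLim u (pc a s θ) (u (pc a s θ))) ∧
      Tendsto (fun ε : ℝ => ε⁻¹ * ∫ r in Ioo s (s + ε), ∫ θ in Ioo (-Real.pi) Real.pi,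
        |u (pc a r θ) - u (pc a s θ)|) (𝓝[>] 0) (𝓝 0) := by
  -- Lebesgue points
  have hA : ∀ δ R' : ℝ, 0 < δ → R' < R → ∀ᵐ s ∂(volume.restrict (Ioo δ R')),
      IntegrableOn (fun θ => u (pc a s θ)) (Ioo (-Real.pi) Real.pi) ∧
      Tendsto (fun ε : ℝ => ε⁻¹ * ∫ r in Ioo s (s + ε), ∫ θ in Ioo (-Real.pi) Real.pi,
        |u (pc a r θ) - u (pc a s θ)|) (𝓝[>] 0) (𝓝 0) := by
    intro δ R' hδ hR'
    have h1 : IntegrableOn u {x | dist x a ∈ Ioo δ R'} :=
      (hi R' hR').mono_set fun x hx => hx.2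
    have h2 := (polar_integrable a measurableSet_Ioo (fun r hr => hδ.trans hr.1) u).1 h1
    have hm : MeasurableSet (Ioo δ R' ×ˢ Ioo (-Real.pi) Real.pi) :=
      measurableSet_Ioo.prod measurableSet_Ioo
    have h3 : IntegrableOn (fun p : ℝ × ℝ => u (pc a p.1 p.2))
        (Ioo δ R' ×ˢ Ioo (-Real.pi) Real.pi) := by
      refine Integrable.mono' (h2.norm.const_mul δ⁻¹)
        (hu.comp (polar_pc_cont a).measurable).aestronglyMeasurable ?_
      filter_upwards [ae_restrict_mem hm] with p hp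
      have h4 : δ < p.1 := hp.1.1
      rw [norm_smul, Real.norm_eq_abs p.1, abs_of_pos (hδ.trans h4), ← mul_assoc]
      have h5 : 1 ≤ δ⁻¹ * p.1 := by
        rw [inv_mul_eq_div, one_le_div hδ]
        exact h4.le
      nlinarith [norm_nonneg (u (pc a p.1 p.2))]
    have h4 : Integrable (fun p : ℝ × ℝ => u (pc a p.1 p.2))
        ((volume.restrict (Ioo δ R')).prod (volume.restrict (Ioo (-Real.pi) Real.pi))) := by
      rw [Measure.prod_restrict]
      exact h3
    exact leb_general h4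
  -- approximate continuity
  have hB : ∀ R' < R, ∀ᵐ s ∂(volume.restrict (Ioo 0 R')),
      ∀ᵐ θ ∂(volume.restrict (Ioo (-Real.pi) Real.pi)),
        IsApproxLim u (pc a s θ) (u (pc a s θ)) := by
    intro R' hR'
    refine polar_ae (p := fun x => IsApproxLim u x (u x)) ?_
    have h1 := ae_isApproxLim ((integrable_indicator_iff measurableSet_ball).2 (hi R' hR'))
    rw [ae_restrict_iff' measurableSet_ball]
    filter_upwards [h1] with x hx hx'
    rw [indicator_of_mem hx'] at hx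
    refine IsApproxLim.congr_ae (isOpen_ball.mem_nhds hx') ?_ hx
    filter_upwards [ae_restrict_mem measurableSet_ball] with y hy
    rw [indicator_of_mem hy]
  have hcov : Ioo 0 R = ⋃ n : ℕ, Ioo (1 / ((n : ℝ) + 1)) (R - 1 / ((n : ℝ) + 1)) := by
    ext x
    simp only [mem_iUnion, mem_Ioo]
    constructor
    · rintro ⟨h1, h2⟩
      obtain ⟨n, hn⟩ := exists_nat_one_div_lt (show 0 < min x (R - x) from
        lt_min h1 (by linarith))
      rw [lt_min_iff] at hn
      exact ⟨n, hn.1, by linarith [hn.2]⟩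
    · rintro ⟨n, h1, h2⟩
      have h3 : (0 : ℝ) < 1 / ((n : ℝ) + 1) := by positivity
      exact ⟨h3.trans h1, by linarith⟩
  rw [hcov, ae_restrict_iUnion_iff]
  intro n
  have h3 : (0 : ℝ) < 1 / ((n : ℝ) + 1) := by positivity
  have h4 := hA (1 / ((n : ℝ) + 1)) (R - 1 / ((n : ℝ) + 1)) h3 (by linarith)
  have h5 := ae_mono (Measure.restrict_mono (Ioo_subset_Ioo_left h3.le) le_rfl)
    (hB (R - 1 / ((n : ℝ) + 1)) (by linarith))
  filter_upwards [h4, h5] with s hs hs'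
  exact ⟨hs.1, hs', hs.2⟩

end Pool.Agent.MP099f24
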