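import Pool.Agent.Lib.MP_099f24_an.SD.Defs

/-!
# Mumford-Shah: weak formulation for vector fields (module VF)
-/

namespace Pool.Agent.MP099f24

open MeasureTheory Filter Topology Set Metric
open scoped ENNReal ContDiff

theorem vf_intOn_mul {μ : Measure ℂ} {Ω K : Set ℂ} (hK : IsCompact K) (hKΩ : K ⊆ Ω)
    (hΩ : MeasurableSet Ω)
    {f : ℂ → ℝ} {φ : ℂ → ℝ} (hf : LocallyIntegrableOn f Ω μ) (hφ : Continuous φ)
    (h0 : ∀ x, x ∉ K → φ x = 0) : IntegrableOn (fun x => φ x * f x) Ω μ := by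
  have h1 : IntegrableOn f K μ := hf.integrableOn_compact_subset hKΩ hK
  have h2 : IntegrableOn (fun x => φ x * f x) K μ := by
    exact h1.continuousOn_mul hφ.continuousOn hK
  exact h2.of_forall_sdiff_eq_zero hΩ fun x hx => by
    show φ x * f x = 0
    rw [h0 x hx.2, zero_mul]

theorem vf_form {Ω : Set ℂ} {u : ℂ → ℝ} {g j : ℂ → ℂ} (h : SBVData Ω u g j) {Y : ℂ → ℂ}
    (hY : ContDiff ℝ ∞ Y) (hc : HasCompactSupport Y) (hs : tsupport Y ⊆ Ω) :
    ∫ x in Ω, u x * dv Y x = - (∫ x in Ω, inner ℝ (g x) (Y x)) -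
      ∫ x in Ω, inner ℝ (j x) (Y x) ∂(μH[1] : Measure ℂ) := by
  have hΩm : MeasurableSet Ω := h.isOpen.measurableSet
  -- the two components
  set φ : ℂ → ℝ := fun x => (Y x).re with hφ
  set ψ : ℂ → ℝ := fun x => (Y x).im with hψ
  have hφs : ContDiff ℝ ∞ φ := Complex.reCLM.contDiff.comp hY
  have hψs : ContDiff ℝ ∞ ψ := Complex.imCLM.contDiff.comp hY
  have hφt : tsupport φ ⊆ tsupport Y := by
    refine closure_mono fun x hx => ?_
    intro h0
    apply hx
    simp [hφ, h0]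
  have hψt : tsupport ψ ⊆ tsupport Y := by
    refine closure_mono fun x hx => ?_
    intro h0
    apply hx
    simp [hψ, h0]
  have hφc : HasCompactSupport φ := IsCompact.of_isClosed_subset hc (isClosed_tsupport _) hφt
  have hψc : HasCompactSupport ψ := IsCompact.of_isClosed_subset hc (isClosed_tsupport _) hψt
  have hYd : Differentiable ℝ Y := hY.differentiable (by simp)
  have hdφ : ∀ x v, fderiv ℝ φ x v = (fderiv ℝ Y x v).re := by
    intro x v
    have h1 : HasFDerivAt φ (Complex.reCLM.comp (fderiv ℝ Y x)) x :=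
      Complex.reCLM.hasFDerivAt.comp x (hYd x).hasFDerivAt
    rw [h1.fderiv]
    rfl
  have hdψ : ∀ x v, fderiv ℝ ψ x v = (fderiv ℝ Y x v).im := by
    intro x v
    have h1 : HasFDerivAt ψ (Complex.imCLM.comp (fderiv ℝ Y x)) x :=
      Complex.imCLM.hasFDerivAt.comp x (hYd x).hasFDerivAt
    rw [h1.fderiv]
    rfl
  have e1 := h.form φ hφs hφc (hφt.trans hs) 1
  have e2 := h.form ψ hψs hψc (hψt.trans hs) Complex.I
  -- integrability
  have h0 : ∀ x, x ∉ tsupport Y → Y x = 0 := fun x hx => image_eq_zero_of_notMem_tsupport hx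
  have hd0 : ∀ x, x ∉ tsupport Y → fderiv ℝ Y x = 0 := fun x hx =>
    image_eq_zero_of_notMem_tsupport fun hx' => hx (tsupport_fderiv_subset ℝ hx')
  have hdc : Continuous (fderiv ℝ Y) := hY.continuous_fderiv (by simp)
  have i1 : IntegrableOn (fun x => u x * fderiv ℝ φ x 1) Ω := by
    have := vf_intOn_mul (μ := volume) hc hs hΩm (f := u) (φ := fun x => fderiv ℝ φ x 1) h.intu
      ((hφs.continuous_fderiv (by simp)).clm_apply continuous_const)
      (fun x hx => by rw [hdφ, hd0 x hx]; rfl)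
    simpa only [mul_comm] using this
  have i2 : IntegrableOn (fun x => u x * fderiv ℝ ψ x Complex.I) Ω := by
    have := vf_intOn_mul (μ := volume) hc hs hΩm (f := u) (φ := fun x => fderiv ℝ ψ x Complex.I)
      h.intu ((hψs.continuous_fderiv (by simp)).clm_apply continuous_const)
      (fun x hx => by rw [hdψ, hd0 x hx]; rfl)
    simpa only [mul_comm] using this
  have gre : ∀ {μ : Measure ℂ} {f : ℂ → ℂ} (v : ℂ), LocallyIntegrableOn f Ω μ →
      LocallyIntegrableOn (fun x => inner ℝ (f x) v) Ω μ := by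
    intro μ f v hf x hx
    obtain ⟨t, ht, hi⟩ := hf x hx
    refine ⟨t, ht, ?_⟩
    have := ((innerSL ℝ v).integrable_comp hi)
    refine this.congr (Eventually.of_forall fun y => ?_)
    show (innerSL ℝ v) (f y) = inner ℝ (f y) v
    rw [innerSL_apply_apply, real_inner_comm]
  have hφ0 : ∀ x, x ∉ tsupport Y → φ x = 0 := fun x hx => by simp [hφ, h0 x hx]
  have hψ0 : ∀ x, x ∉ tsupport Y → ψ x = 0 := fun x hx => by simp [hψ, h0 x hx]
  have i3 := vf_intOn_mul (μ := volume) hc hs hΩm (gre 1 h.intg) hφs.continuous hφ0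
  have i4 := vf_intOn_mul (μ := volume) hc hs hΩm (gre Complex.I h.intg) hψs.continuous hψ0
  have i5 := vf_intOn_mul hc hs hΩm (gre 1 h.intj) hφs.continuous hφ0
  have i6 := vf_intOn_mul hc hs hΩm (gre Complex.I h.intj) hψs.continuous hψ0
  have hin : ∀ z w : ℂ, inner ℝ z w = w.re * inner ℝ z 1 + w.im * inner ℝ z Complex.I := by
    intro z w
    simp only [Complex.inner]
    simp
  have l : ∫ x in Ω, u x * dv Y x =
      (∫ x in Ω, u x * fderiv ℝ φ x 1) + ∫ x in Ω, u x * fderiv ℝ ψ x Complex.I := by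
    rw [← integral_add i1 i2]
    refine integral_congr_ae (Eventually.of_forall fun x => ?_)
    show u x * dv Y x = u x * fderiv ℝ φ x 1 + u x * fderiv ℝ ψ x Complex.I
    rw [hdφ, hdψ, dv, mul_add]
  have r1 : ∫ x in Ω, inner ℝ (g x) (Y x) =
      (∫ x in Ω, φ x * inner ℝ (g x) 1) + ∫ x in Ω, ψ x * inner ℝ (g x) Complex.I := by
    rw [← integral_add i3 i4]
    exact integral_congr_ae (Eventually.of_forall fun x => hin (g x) (Y x))
  have r2 : ∫ x in Ω, inner ℝ (j x) (Y x) ∂(μH[1] : Measure ℂ) =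
      (∫ x in Ω, φ x * inner ℝ (j x) 1 ∂(μH[1] : Measure ℂ)) +
        ∫ x in Ω, ψ x * inner ℝ (j x) Complex.I ∂(μH[1] : Measure ℂ) := by
    rw [← integral_add i5 i6]
    exact integral_congr_ae (Eventually.of_forall fun x => hin (j x) (Y x))
  rw [l, r1, r2, e1, e2]
  ring

end Pool.Agent.MP099f24
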