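import Mathlib
import Pool.Agent.Lib.MP_099f24_an.SD.Defs
import Pool.Agent.Lib.MP_099f24_an.SD.Polar
import Pool.Agent.Lib.MP_099f24_an.SD.Leb
import Pool.Agent.Lib.MP_099f24_an.SD.Vf

/-!
# The divergence formula outside almost every disc (module TRACE)
-/

namespace Pool.Agent.MP099f24

open MeasureTheory Filter Topology Set Metric
open scoped ENNReal ContDiff

/-! ### the cutoff functions -/

theorem trace_beta_zero {t : ℝ} (ht : t ≤ 0 ∨ 1 ≤ t) : deriv Real.smoothTransition t = 0 := by
  rcases ht with ht | ht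
  · have h1 : IsLocalMin Real.smoothTransition t := by
      refine Eventually.of_forall fun x => ?_
      rw [Real.smoothTransition.zero_of_nonpos ht]
      exact Real.smoothTransition.nonneg x
    exact h1.deriv_eq_zero
  · have h1 : IsLocalMax Real.smoothTransition t := by
      refine Eventually.of_forall fun x => ?_
      rw [Real.smoothTransition.one_of_one_le ht]
      exact Real.smoothTransition.le_one x
    exact h1.deriv_eq_zero

theorem trace_smooth : ContDiff ℝ ∞ Real.smoothTransition :=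
  Real.smoothTransition.contDiff (n := (⊤ : ℕ∞))

theorem trace_beta_cont : Continuous (deriv Real.smoothTransition) :=
  trace_smooth.continuous_deriv (by simp)

theorem trace_beta_bound : ∃ M : ℝ, 0 ≤ M ∧ ∀ t, |deriv Real.smoothTransition t| ≤ M := by
  obtain ⟨M, hM⟩ := (isCompact_Icc (a := (0 : ℝ)) (b := 1)).exists_bound_of_continuousOn
    trace_beta_cont.continuousOn
  refine ⟨max M 0, le_max_right _ _, fun t => ?_⟩
  by_cases ht : t ∈ Icc (0 : ℝ) 1
  · exact (hM t ht).trans (le_max_left _ _)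
  · have h1 : t ≤ 0 ∨ 1 ≤ t := by
      by_contra hcon
      push Not at hcon
      exact ht ⟨hcon.1.le, hcon.2.le⟩
    rw [trace_beta_zero h1, abs_zero]
    exact le_max_right _ _

/-- the cutoff: `0` on the closed disc of radius `s`, `1` outside the disc of radius `s + δ` -/
noncomputable def traceZ (a : ℂ) (s δ : ℝ) (x : ℂ) : ℝ :=
  Real.smoothTransition ((‖x - a‖ ^ 2 - s ^ 2) / ((s + δ) ^ 2 - s ^ 2))

theorem traceZ_contDiff (a : ℂ) (s δ : ℝ) : ContDiff ℝ ∞ (traceZ a s δ) := by
  unfold traceZ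
  refine trace_smooth.comp ?_
  exact (((contDiff_id.sub contDiff_const).norm_sq ℝ).sub contDiff_const).div_const _

theorem traceZ_fderiv (a : ℂ) (s δ : ℝ) (x v : ℂ) : fderiv ℝ (traceZ a s δ) x v =
    deriv Real.smoothTransition ((‖x - a‖ ^ 2 - s ^ 2) / ((s + δ) ^ 2 - s ^ 2)) *
      (2 * inner ℝ (x - a) v / ((s + δ) ^ 2 - s ^ 2)) := by
  have h1 : HasFDerivAt (fun y : ℂ => ‖y - a‖ ^ 2)
      (2 • (innerSL ℝ (x - a)).comp (ContinuousLinearMap.id ℝ ℂ)) x :=
    ((hasFDerivAt_id x).sub_const a).norm_sq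
  have h2 : HasFDerivAt (fun y : ℂ => (‖y - a‖ ^ 2 - s ^ 2) * ((s + δ) ^ 2 - s ^ 2)⁻¹)
      (((s + δ) ^ 2 - s ^ 2)⁻¹ • (2 • (innerSL ℝ (x - a)).comp (ContinuousLinearMap.id ℝ ℂ))) x :=
    (h1.sub_const (s ^ 2)).mul_const _
  have h3 : HasDerivAt Real.smoothTransition
      (deriv Real.smoothTransition ((‖x - a‖ ^ 2 - s ^ 2) * ((s + δ) ^ 2 - s ^ 2)⁻¹))
      ((‖x - a‖ ^ 2 - s ^ 2) * ((s + δ) ^ 2 - s ^ 2)⁻¹) :=
    ((trace_smooth.differentiable (by simp)) _).hasDerivAt
  have h4 := h3.comp_hasFDerivAt x h2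
  have h5 : traceZ a s δ = Real.smoothTransition ∘
      fun y : ℂ => (‖y - a‖ ^ 2 - s ^ 2) * ((s + δ) ^ 2 - s ^ 2)⁻¹ := by
    funext y
    simp only [traceZ, Function.comp_apply, div_eq_mul_inv]
  rw [h5, h4.fderiv]
  simp only [smul_apply, ContinuousLinearMap.comp_id, innerSL_apply_apply,
    smul_eq_mul, nsmul_eq_mul, Nat.cast_ofNat, div_eq_mul_inv]
  ring

theorem traceZ_le (a : ℂ) {s δ : ℝ} (hs : 0 < s) (hδ : 0 < δ) {x : ℂ} (hx : dist x a ≤ s) :
    traceZ a s δ x = 0 := by
  unfold traceZ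
  refine Real.smoothTransition.zero_of_nonpos ?_
  rw [dist_eq_norm] at hx
  refine div_nonpos_of_nonpos_of_nonneg ?_ ?_
  · have := pow_le_pow_left₀ (norm_nonneg (x - a)) hx 2
    linarith
  · nlinarith

theorem traceZ_ge (a : ℂ) {s δ : ℝ} (hs : 0 < s) (hδ : 0 < δ) {x : ℂ} (hx : s + δ ≤ dist x a) :
    traceZ a s δ x = 1 := by
  unfold traceZ
  refine Real.smoothTransition.one_of_one_le ?_
  rw [dist_eq_norm] at hx
  have h1 : 0 < (s + δ) ^ 2 - s ^ 2 := by nlinarith
  rw [le_div_iff₀ h1, one_mul]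
  have := pow_le_pow_left₀ (by positivity) hx 2
  linarith

theorem traceZ_abs (a : ℂ) (s δ : ℝ) (x : ℂ) : |traceZ a s δ x| ≤ 1 := by
  unfold traceZ
  rw [abs_of_nonneg (Real.smoothTransition.nonneg _)]
  exact Real.smoothTransition.le_one _

/-- pointwise limit of the cutoff -/
theorem traceZ_tendsto (a : ℂ) {s : ℝ} (hs : 0 < s) (x : ℂ) (c : ℝ) :
    Tendsto (fun δ : ℝ => traceZ a s δ x * c) (𝓝[>] 0) (𝓝 ((closedBall a s)ᶜ.indicator
      (fun _ => c) x)) := by
  by_cases hx : dist x a ≤ s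
  · rw [indicator_of_notMem (by simpa using hx)]
    refine tendsto_const_nhds.congr' ?_
    filter_upwards [self_mem_nhdsWithin] with δ hδ
    rw [traceZ_le a hs hδ hx, zero_mul]
  · push Not at hx
    rw [indicator_of_mem (by simpa using hx)]
    refine tendsto_const_nhds.congr' ?_
    filter_upwards [Ioo_mem_nhdsGT (sub_pos.2 hx)] with δ hδ
    rw [traceZ_ge a hs hδ.1 (by linarith [hδ.2]), one_mul]

/-- limit of integrals with the cutoff -/
theorem trace_lim {μ : Measure ℂ} {Ω : Set ℂ} (a : ℂ) {s : ℝ} (hs : 0 < s)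
    {F : ℂ → ℝ} (hF : IntegrableOn F Ω μ) :
    Tendsto (fun δ : ℝ => ∫ x in Ω, traceZ a s δ x * F x ∂μ) (𝓝[>] 0)
      (𝓝 (∫ x in Ω \ closedBall a s, F x ∂μ)) := by
  have h1 : ∫ x in Ω \ closedBall a s, F x ∂μ =
      ∫ x in Ω, (closedBall a s)ᶜ.indicator F x ∂μ := by
    rw [setIntegral_indicator measurableSet_closedBall.compl]
    rfl
  rw [h1]
  refine tendsto_integral_filter_of_dominated_convergence (fun x => ‖F x‖) ?_ ?_ hF.norm ?_
  · refine Eventually.of_forall fun δ => ?_
    exact (traceZ_contDiff a s δ).continuous.aestronglyMeasurable.mul hF.aestronglyMeasurable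
  · refine Eventually.of_forall fun δ => Eventually.of_forall fun x => ?_
    rw [norm_mul, Real.norm_eq_abs (traceZ a s δ x)]
    exact mul_le_of_le_one_left (norm_nonneg _) (traceZ_abs a s δ x)
  · refine Eventually.of_forall fun x => ?_
    have h2 := traceZ_tendsto a hs x (F x)
    have h3 : (closedBall a s)ᶜ.indicator (fun _ => F x) x = (closedBall a s)ᶜ.indicator F x := by
      by_cases hx : x ∈ (closedBall a s)ᶜ
      · rw [indicator_of_mem hx, indicator_of_mem hx]
      · rw [indicator_of_notMem hx, indicator_of_notMem hx]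
    rwa [h3] at h2

/-! ### the radial kernel -/

/-- the radial derivative of the cutoff -/
noncomputable def traceN (s δ r : ℝ) : ℝ :=
  deriv Real.smoothTransition ((r ^ 2 - s ^ 2) / ((s + δ) ^ 2 - s ^ 2)) *
    (2 * r / ((s + δ) ^ 2 - s ^ 2))

theorem traceN_cont (s δ : ℝ) : Continuous (traceN s δ) := by
  unfold traceN
  refine (trace_beta_cont.comp ?_).mul ?_
  · exact ((continuous_pow 2).sub continuous_const).div_const _
  · exact (continuous_const.mul continuous_id).div_const _

theorem traceN_bound {M : ℝ} (hM : ∀ t, |deriv Real.smoothTransition t| ≤ M) {s δ r : ℝ}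
    (hs : 0 < s) (hδ : 0 < δ) (hr : r ∈ Ioo s (s + δ)) : |traceN s δ r| ≤ 2 * M / δ := by
  have hM0 : 0 ≤ M := (abs_nonneg _).trans (hM 0)
  have h1 : 0 < (s + δ) ^ 2 - s ^ 2 := by nlinarith
  have hr0 : 0 < r := hs.trans hr.1
  unfold traceN
  rw [abs_mul, abs_of_nonneg (by positivity : 0 ≤ 2 * r / ((s + δ) ^ 2 - s ^ 2))]
  have h2 : 2 * r / ((s + δ) ^ 2 - s ^ 2) ≤ 2 / δ := by
    rw [div_le_div_iff₀ h1 hδ]
    have := hr.2
    nlinarith
  calc |deriv Real.smoothTransition ((r ^ 2 - s ^ 2) / ((s + δ) ^ 2 - s ^ 2))| *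
        (2 * r / ((s + δ) ^ 2 - s ^ 2)) ≤ M * (2 / δ) :=
        mul_le_mul (hM _) h2 (by positivity) hM0
    _ = 2 * M / δ := by ring

theorem traceN_integral {s δ : ℝ} (hs : 0 < s) (hδ : 0 < δ) :
    ∫ r in Ioo s (s + δ), traceN s δ r = 1 := by
  have h1 : 0 < (s + δ) ^ 2 - s ^ 2 := by nlinarith
  rw [← integral_Ioc_eq_integral_Ioo, ← intervalIntegral.integral_of_le (by linarith)]
  have h2 : ∀ r ∈ uIcc s (s + δ), HasDerivAt
      (fun r => Real.smoothTransition ((r ^ 2 - s ^ 2) / ((s + δ) ^ 2 - s ^ 2)))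
      (traceN s δ r) r := by
    intro r _
    have h3 : HasDerivAt (fun r : ℝ => (r ^ 2 - s ^ 2) / ((s + δ) ^ 2 - s ^ 2))
        ((2 * r) / ((s + δ) ^ 2 - s ^ 2)) r := by
      have := ((hasDerivAt_pow 2 r).sub_const (s ^ 2)).div_const ((s + δ) ^ 2 - s ^ 2)
      simpa using this
    have h4 : HasDerivAt Real.smoothTransition
        (deriv Real.smoothTransition ((r ^ 2 - s ^ 2) / ((s + δ) ^ 2 - s ^ 2)))
        ((r ^ 2 - s ^ 2) / ((s + δ) ^ 2 - s ^ 2)) :=
      ((trace_smooth.differentiable (by simp)) _).hasDerivAt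
    exact h4.comp r h3
  rw [intervalIntegral.integral_eq_sub_of_hasDerivAt h2
    ((traceN_cont s δ).intervalIntegrable _ _)]
  rw [div_self h1.ne', sub_self, zero_div, Real.smoothTransition.one, Real.smoothTransition.zero,
    sub_zero]

theorem trace_norm_er (θ : ℝ) : ‖er θ‖ = 1 := by
  unfold er
  exact Complex.norm_exp_ofReal_mul_I θ

theorem trace_pc_sub (a : ℂ) (r θ : ℝ) : pc a r θ - a = r • er θ := by
  unfold pc
  rw [add_sub_cancel_left, Complex.real_smul]

theorem trace_pc_pc (a : ℂ) (r s θ : ℝ) : pc a r θ - pc a s θ = (r - s) • er θ := by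
  unfold pc
  rw [add_sub_add_left_eq_sub, Complex.real_smul, Complex.ofReal_sub]
  ring

/-- the slice integral -/
noncomputable def traceH (u F : ℂ → ℝ) (a v : ℂ) (r : ℝ) : ℝ :=
  r * ∫ θ in Ioo (-Real.pi) Real.pi, u (pc a r θ) * F (pc a r θ) * inner ℝ (er θ) v

/-- the derivative term in polar coordinates -/
theorem trace_polar {u : ℂ → ℝ} {a : ℂ} {s δ : ℝ} (hs : 0 < s) (hδ : 0 < δ)
    (hi : IntegrableOn u (ball a (s + δ))) {F : ℂ → ℝ} (hFc : Continuous F) {Mf : ℝ}
    (hFb : ∀ x, |F x| ≤ Mf) (v : ℂ) {Ω : Set ℂ} (hΩ : MeasurableSet Ω)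
    (hb : ball a (s + δ) ⊆ Ω) :
    (∫ x in Ω, u x * (F x * fderiv ℝ (traceZ a s δ) x v) =
      ∫ r in Ioo s (s + δ), traceN s δ r * traceH u F a v r) ∧
    IntegrableOn (fun r => traceN s δ r * traceH u F a v r) (Ioo s (s + δ)) := by
  have h1 : 0 < (s + δ) ^ 2 - s ^ 2 := by nlinarith
  have hsub : {x : ℂ | dist x a ∈ Ioo s (s + δ)} ⊆ ball a (s + δ) := fun x hx => hx.2
  have hm : MeasurableSet {x : ℂ | dist x a ∈ Ioo s (s + δ)} :=
    measurableSet_Ioo.preimage (measurable_id.dist measurable_const)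
  have h2 : ∫ x in Ω, u x * (F x * fderiv ℝ (traceZ a s δ) x v) =
      ∫ x in {x : ℂ | dist x a ∈ Ioo s (s + δ)}, u x * (F x * fderiv ℝ (traceZ a s δ) x v) := by
    refine (setIntegral_eq_of_subset_of_forall_sdiff_eq_zero hΩ (hsub.trans hb) ?_).symm.symm
    rintro x ⟨-, hx⟩
    have hx' : ‖x - a‖ ≤ s ∨ s + δ ≤ ‖x - a‖ := by
      by_contra hcon
      push Not at hcon
      apply hx
      rw [mem_ofPred_eq, dist_eq_norm]
      exact hcon
    rw [traceZ_fderiv, trace_beta_zero, zero_mul, mul_zero, mul_zero]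
    rcases hx' with hx' | hx'
    · left
      refine div_nonpos_of_nonpos_of_nonneg ?_ h1.le
      have := pow_le_pow_left₀ (norm_nonneg (x - a)) hx' 2
      linarith
    · right
      rw [le_div_iff₀ h1, one_mul]
      have := pow_le_pow_left₀ (by positivity) hx' 2
      linarith
  have hcont : Continuous fun x : ℂ => F x * fderiv ℝ (traceZ a s δ) x v :=
    hFc.mul (((traceZ_contDiff a s δ).continuous_fderiv (by simp)).clm_apply continuous_const)
  have hint : IntegrableOn (fun x => u x * (F x * fderiv ℝ (traceZ a s δ) x v))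
      {x : ℂ | dist x a ∈ Ioo s (s + δ)} := by
    have h3 : IntegrableOn (fun x => u x * (F x * fderiv ℝ (traceZ a s δ) x v))
        (ball a (s + δ)) := by
      obtain ⟨C, hC⟩ := (isCompact_closedBall a (s + δ)).exists_bound_of_continuousOn
        hcont.continuousOn
      refine Integrable.mono' (hi.norm.mul_const C)
        (hi.aestronglyMeasurable.mul hcont.aestronglyMeasurable) ?_
      refine (ae_restrict_iff' measurableSet_ball).2 (Eventually.of_forall fun x hx => ?_)
      rw [norm_mul]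
      exact mul_le_mul_of_nonneg_left (hC x (ball_subset_closedBall hx)) (norm_nonneg _)
    exact h3.mono_set hsub
  have hcongr : ∀ r ∈ Ioo s (s + δ), r * (∫ θ in Ioo (-Real.pi) Real.pi,
      u (pc a r θ) * (F (pc a r θ) * fderiv ℝ (traceZ a s δ) (pc a r θ) v) : ℝ) =
      traceN s δ r * traceH u F a v r := by
    intro r hr
    have hr0 : 0 < r := hs.trans hr.1
    have e1 : traceN s δ r * traceH u F a v r = r * ∫ θ in Ioo (-Real.pi) Real.pi,
        traceN s δ r * (u (pc a r θ) * F (pc a r θ) * inner ℝ (er θ) v) := by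
      rw [integral_const_mul]
      unfold traceH
      ring
    rw [e1]
    congr 1
    refine integral_congr_ae (Eventually.of_forall fun θ => ?_)
    simp only
    rw [traceZ_fderiv, trace_pc_sub, norm_smul, trace_norm_er, mul_one,
      Real.norm_of_nonneg hr0.le, real_inner_smul_left]
    unfold traceN
    ring
  obtain ⟨q1, q2, -⟩ := polar_iter a measurableSet_Ioo (fun r hr => lt_trans hs hr.1) hint
  refine ⟨?_, ?_⟩
  · rw [h2, q1]
    exact setIntegral_congr_fun measurableSet_Ioo hcongr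
  · exact q2.congr_fun hcongr measurableSet_Ioo

/-- the limit of the derivative term -/
theorem trace_main {u : ℂ → ℝ} (hu : Measurable u) {a : ℂ} {s R : ℝ} (hs : s ∈ Ioo 0 R)
    (hi : ∀ s < R, IntegrableOn u (ball a s))
    (hs1 : IntegrableOn (fun θ => u (pc a s θ)) (Ioo (-Real.pi) Real.pi))
    (hs3 : Tendsto (fun ε : ℝ => ε⁻¹ * ∫ r in Ioo s (s + ε), ∫ θ in Ioo (-Real.pi) Real.pi,
        |u (pc a r θ) - u (pc a s θ)|) (𝓝[>] 0) (𝓝 0))
    {F : ℂ → ℝ} {Lf : NNReal} (hFL : LipschitzWith Lf F) {Mf : ℝ} (hMf : 0 ≤ Mf)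
    (hFb : ∀ x, |F x| ≤ Mf) (v : ℂ) {Ω : Set ℂ} (hΩ : MeasurableSet Ω) (hb : ball a R ⊆ Ω) :
    Tendsto (fun δ : ℝ => ∫ x in Ω, u x * (F x * fderiv ℝ (traceZ a s δ) x v)) (𝓝[>] 0)
      (𝓝 (traceH u F a v s)) := by
  obtain ⟨hs0, hsR⟩ := hs
  obtain ⟨M, hM0, hM⟩ := trace_beta_bound
  set D : Set ℝ := Ioo (-Real.pi) Real.pi with hD
  set W : ℝ → ℝ := fun r => ∫ θ in D, |u (pc a r θ) - u (pc a s θ)| with hW
  set A : ℝ := R * Mf * ‖v‖ with hA
  set B : ℝ := (Mf + s * Lf) * ‖v‖ * ∫ θ in D, |u (pc a s θ)| with hB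
  have hR0 : 0 < R := hs0.trans hsR
  have hA0 : 0 ≤ A := by positivity
  have hBint : 0 ≤ ∫ θ in D, |u (pc a s θ)| := integral_nonneg fun _ => abs_nonneg _
  have hB0 : 0 ≤ B := by positivity
  have hFc : Continuous F := hFL.continuous
  have hin : ∀ θ, |inner ℝ (er θ) v| ≤ ‖v‖ := by
    intro θ
    have := abs_real_inner_le_norm (er θ) v
    rwa [trace_norm_er, one_mul] at this
  have hpcθ : ∀ r : ℝ, Continuous fun θ : ℝ => pc a r θ := fun r =>
    (polar_pc_cont a).comp (continuous_const.prodMk continuous_id)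
  have hΦm : ∀ r : ℝ, Continuous fun θ : ℝ => F (pc a r θ) * inner ℝ (er θ) v := by
    intro r
    have e1 : Continuous fun θ : ℝ => inner ℝ (er θ) v := polar_er_cont.inner continuous_const
    exact (hFc.comp (hpcθ r)).mul e1
  -- the main estimate
  have key : ∀ δ : ℝ, 0 < δ → s + δ < R →
      |(∫ x in Ω, u x * (F x * fderiv ℝ (traceZ a s δ) x v)) - traceH u F a v s| ≤
        2 * M * (A * (δ⁻¹ * ∫ r in Ioo s (s + δ), W r) + B * δ) := by
    intro δ hδ hδR
    have hiδ : IntegrableOn u (ball a (s + δ)) := hi _ hδR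
    set P : Set ℝ := Ioo s (s + δ) with hP
    have hPm : MeasurableSet P := measurableSet_Ioo
    have hP0 : P ⊆ Ioi 0 := fun r hr => lt_trans hs0 hr.1
    have hiP : IntegrableOn u {x | dist x a ∈ P} := hiδ.mono_set fun x hx => hx.2
    -- integrability on the product
    have hprod : Integrable (fun p : ℝ × ℝ => u (pc a p.1 p.2))
        ((volume.restrict P).prod (volume.restrict D)) := by
      have e1 := (polar_integrable a hPm hP0 u).1 hiP
      rw [Measure.prod_restrict, ← Measure.volume_eq_prod]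
      refine Integrable.mono' (e1.norm.const_mul s⁻¹)
        (hu.comp (polar_pc_cont a).measurable).aestronglyMeasurable ?_
      refine (ae_restrict_iff' (hPm.prod measurableSet_Ioo)).2 (Eventually.of_forall fun p hp => ?_)
      have hp1 : s < p.1 := hp.1.1
      rw [norm_smul, Real.norm_of_nonneg (hs0.trans hp1).le, ← mul_assoc]
      refine le_mul_of_one_le_left (norm_nonneg _) ?_
      rw [inv_mul_eq_div, one_le_div hs0]
      exact hp1.le
    have hprod2 : Integrable (fun p : ℝ × ℝ => |u (pc a p.1 p.2) - u (pc a s p.2)|)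
        ((volume.restrict P).prod (volume.restrict D)) :=
      (hprod.sub (Integrable.comp_snd (f := fun θ => u (pc a s θ)) hs1
        (volume.restrict P))).abs
    have hWi : IntegrableOn W P := hprod2.integral_prod_left
    have hae : ∀ᵐ r ∂(volume.restrict P), IntegrableOn (fun θ => u (pc a r θ)) D :=
      hprod.prod_right_ae
    -- comparison of slices
    have hslice : ∀ r ∈ P, IntegrableOn (fun θ => u (pc a r θ)) D →
        |traceH u F a v r - traceH u F a v s| ≤ A * W r + B * δ := by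
      intro r hr hir
      have hr0 : 0 < r := hP0 hr
      have hrR : r < R := lt_trans hr.2 hδR
      have e0 : ∀ t : ℝ, IntegrableOn (fun θ => u (pc a t θ)) D →
          IntegrableOn (fun θ => t * (u (pc a t θ) * F (pc a t θ) * inner ℝ (er θ) v)) D := by
        intro t ht
        have e1 : IntegrableOn (fun θ => u (pc a t θ) * (F (pc a t θ) * inner ℝ (er θ) v)) D := by
          refine Integrable.mono' (ht.norm.mul_const (Mf * ‖v‖))
            (ht.aestronglyMeasurable.mul (hΦm t).aestronglyMeasurable) ?_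
          refine Eventually.of_forall fun θ => ?_
          rw [norm_mul, norm_mul (F _), Real.norm_eq_abs (F _), Real.norm_eq_abs (inner ℝ _ _)]
          exact mul_le_mul_of_nonneg_left
            (mul_le_mul (hFb _) (hin θ) (abs_nonneg _) hMf) (norm_nonneg _)
        refine (e1.const_mul t).congr (Eventually.of_forall fun θ => ?_)
        simp only
        ring
      have e2 : traceH u F a v r - traceH u F a v s =
          ∫ θ in D, (r * (u (pc a r θ) * F (pc a r θ) * inner ℝ (er θ) v) -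
            s * (u (pc a s θ) * F (pc a s θ) * inner ℝ (er θ) v)) := by
        rw [integral_sub (e0 r hir) (e0 s hs1), integral_const_mul, integral_const_mul]
        rfl
      rw [e2]
      have hi1 : IntegrableOn (fun θ => |u (pc a r θ) - u (pc a s θ)|) D := (hir.sub hs1).abs
      have hi2 : IntegrableOn (fun θ => |u (pc a s θ)|) D := hs1.abs
      have e3 : ∀ θ, ‖r * (u (pc a r θ) * F (pc a r θ) * inner ℝ (er θ) v) -
          s * (u (pc a s θ) * F (pc a s θ) * inner ℝ (er θ) v)‖ ≤
          A * |u (pc a r θ) - u (pc a s θ)| + (Mf + s * Lf) * ‖v‖ * δ * |u (pc a s θ)| := by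
        intro θ
        have f1 : r * (u (pc a r θ) * F (pc a r θ) * inner ℝ (er θ) v) -
            s * (u (pc a s θ) * F (pc a s θ) * inner ℝ (er θ) v) =
            (u (pc a r θ) - u (pc a s θ)) * (r * F (pc a r θ)) * inner ℝ (er θ) v +
            u (pc a s θ) * ((r - s) * F (pc a r θ) + s * (F (pc a r θ) - F (pc a s θ))) *
              inner ℝ (er θ) v := by ring
        have f2 : |F (pc a r θ) - F (pc a s θ)| ≤ Lf * δ := by
          have := hFL.dist_le_mul (pc a r θ) (pc a s θ)
          rw [Real.dist_eq, dist_eq_norm, trace_pc_pc, norm_smul, trace_norm_er, mul_one,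
            Real.norm_of_nonneg (sub_pos.2 hr.1).le] at this
          refine this.trans (mul_le_mul_of_nonneg_left ?_ Lf.2)
          linarith [hr.2]
        have f3 : |(r - s) * F (pc a r θ) + s * (F (pc a r θ) - F (pc a s θ))| ≤
            (Mf + s * Lf) * δ := by
          refine (abs_add_le _ _).trans ?_
          rw [abs_mul, abs_mul, abs_of_pos (sub_pos.2 hr.1), abs_of_pos hs0]
          have g1 : (r - s) * |F (pc a r θ)| ≤ δ * Mf :=
            mul_le_mul (by linarith [hr.2]) (hFb _) (abs_nonneg _) hδ.le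
          have g2 : s * |F (pc a r θ) - F (pc a s θ)| ≤ s * (Lf * δ) :=
            mul_le_mul_of_nonneg_left f2 hs0.le
          nlinarith
        rw [f1, Real.norm_eq_abs]
        refine (abs_add_le _ _).trans (add_le_add ?_ ?_)
        · rw [abs_mul, abs_mul, abs_mul, abs_of_pos hr0, hA]
          have g1 : r * |F (pc a r θ)| ≤ R * Mf := mul_le_mul hrR.le (hFb _) (abs_nonneg _) hR0.le
          calc |u (pc a r θ) - u (pc a s θ)| * (r * |F (pc a r θ)|) * |inner ℝ (er θ) v|
              ≤ |u (pc a r θ) - u (pc a s θ)| * (R * Mf) * ‖v‖ := by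
                refine mul_le_mul (mul_le_mul_of_nonneg_left g1 (abs_nonneg _)) (hin θ)
                  (abs_nonneg _) (by positivity)
            _ = _ := by ring
        · rw [abs_mul, abs_mul]
          calc |u (pc a s θ)| * |(r - s) * F (pc a r θ) + s * (F (pc a r θ) - F (pc a s θ))| *
                |inner ℝ (er θ) v|
              ≤ |u (pc a s θ)| * ((Mf + s * Lf) * δ) * ‖v‖ := by
                refine mul_le_mul (mul_le_mul_of_nonneg_left f3 (abs_nonneg _)) (hin θ)
                  (abs_nonneg _) (by positivity)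
            _ = _ := by ring
      have e4 := norm_integral_le_of_norm_le (μ := volume.restrict D)
        ((hi1.const_mul A).add (hi2.const_mul ((Mf + s * Lf) * ‖v‖ * δ)))
        (Eventually.of_forall e3)
      rw [Real.norm_eq_abs] at e4
      refine e4.trans (le_of_eq ?_)
      rw [integral_add' (hi1.const_mul A) (hi2.const_mul ((Mf + s * Lf) * ‖v‖ * δ)),
        integral_const_mul, integral_const_mul, hB]
      ring
    -- the weighted average
    obtain ⟨q1, hHi⟩ := trace_polar hs0 hδ hiδ hFc hFb v hΩ ((ball_subset_ball hδR.le).trans hb)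
    rw [q1]
    have hNi : IntegrableOn (traceN s δ) P :=
      ((traceN_cont s δ).integrableOn_Icc (a := s) (b := s + δ)).mono_set Ioo_subset_Icc_self
    have e5 : (∫ r in P, traceN s δ r * traceH u F a v r) - traceH u F a v s =
        ∫ r in P, traceN s δ r * (traceH u F a v r - traceH u F a v s) := by
      have e6 : ∫ r in P, traceN s δ r * traceH u F a v s = traceH u F a v s := by
        rw [integral_mul_const, traceN_integral hs0 hδ, one_mul]
      rw [← e6, ← integral_sub hHi (hNi.mul_const _)]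
      refine integral_congr_ae (Eventually.of_forall fun r => ?_)
      simp only
      rw [e6]
      ring
    rw [e5]
    have e7 : ∀ᵐ r ∂(volume.restrict P), ‖traceN s δ r *
        (traceH u F a v r - traceH u F a v s)‖ ≤ 2 * M / δ * (A * W r + B * δ) := by
      filter_upwards [hae, ae_restrict_mem hPm] with r hr hrP
      rw [norm_mul, Real.norm_eq_abs, Real.norm_eq_abs]
      exact mul_le_mul (traceN_bound hM hs0 hδ hrP) (hslice r hrP hr) (abs_nonneg _)
        (by positivity)
    have hgi : IntegrableOn (fun r => 2 * M / δ * (A * W r + B * δ)) P :=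
      ((hWi.const_mul A).add (integrableOn_const (by
        rw [hP, Real.volume_Ioo]; exact ENNReal.ofReal_ne_top))).const_mul _
    have e8 := norm_integral_le_of_norm_le hgi e7
    rw [Real.norm_eq_abs] at e8
    refine e8.trans (le_of_eq ?_)
    rw [integral_const_mul, integral_add (hWi.const_mul A) (integrableOn_const (by
        rw [hP, Real.volume_Ioo]; exact ENNReal.ofReal_ne_top)), integral_const_mul,
      setIntegral_const, hP, Real.volume_real_Ioo_of_le (by linarith), smul_eq_mul]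
    field_simp
    ring
  -- conclusion
  have hlim : Tendsto (fun δ : ℝ => 2 * M * (A * (δ⁻¹ * ∫ r in Ioo s (s + δ), W r) + B * δ))
      (𝓝[>] 0) (𝓝 (2 * M * (A * 0 + B * 0))) := by
    refine ((hs3.const_mul A).add (Tendsto.const_mul B ?_)).const_mul (2 * M)
    exact tendsto_id.mono_left nhdsWithin_le_nhds
  rw [mul_zero, mul_zero, add_zero, mul_zero] at hlim
  rw [tendsto_iff_dist_tendsto_zero]
  refine squeeze_zero' (Eventually.of_forall fun _ => dist_nonneg) ?_ hlim
  filter_upwards [Ioo_mem_nhdsGT (sub_pos.2 hsR)] with δ hδ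
  rw [Real.dist_eq]
  exact key δ hδ.1 (by linarith [hδ.2])

theorem trace_outside {Ω : Set ℂ} {u : ℂ → ℝ} {g j : ℂ → ℂ} (h : SBVData Ω u g j) {a : ℂ}
    {R : ℝ} (hR : ball a R ⊆ Ω) :
    ∀ᵐ s ∂(volume.restrict (Ioo 0 R)), ∀ φ : ℂ → ℝ, ContDiff ℝ ∞ φ → HasCompactSupport φ →
      tsupport φ ⊆ Ω → ∀ v : ℂ,
      ∫ x in Ω \ closedBall a s, u x * fderiv ℝ φ x v =
        - (∫ x in Ω \ closedBall a s, φ x * inner ℝ (g x) v)
        - (∫ x in Ω \ closedBall a s, φ x * inner ℝ (j x) v ∂(μH[1] : Measure ℂ))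
        - s * ∫ θ in Ioo (-Real.pi) Real.pi,
            u (pc a s θ) * φ (pc a s θ) * inner ℝ (er θ) v := by
  have hi : ∀ s < R, IntegrableOn u (ball a s) := by
    intro s hs
    have h1 : closedBall a s ⊆ Ω := (closedBall_subset_ball hs).trans hR
    exact (h.intu.integrableOn_compact_subset h1 (isCompact_closedBall a s)).mono_set
      ball_subset_closedBall
  filter_upwards [slice_lebesgue h.meas_u hi, ae_restrict_mem measurableSet_Ioo] with s hs hsm
  obtain ⟨hs1, -, hs3⟩ := hs
  intro φ hφ hc hsupp v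
  have hs0 : 0 < s := hsm.1
  have hΩm : MeasurableSet Ω := h.isOpen.measurableSet
  obtain ⟨Lf, hLf⟩ := ContDiff.lipschitzWith_of_hasCompactSupport (𝕂 := ℝ) hc hφ (by simp)
  obtain ⟨Mf, hMf⟩ := hc.exists_bound_of_continuous hφ.continuous
  have hMf0 : 0 ≤ Mf := (norm_nonneg _).trans (hMf 0)
  have hlim1 := trace_main h.meas_u hsm hi hs1 hs3 hLf hMf0 hMf v hΩm hR
  have hK : IsCompact (tsupport φ) := hc
  have hdφ : Continuous fun x => fderiv ℝ φ x v :=
    (hφ.continuous_fderiv (by simp)).clm_apply continuous_const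
  have hdφ0 : ∀ x, x ∉ tsupport φ → fderiv ℝ φ x v = 0 := by
    intro x hx
    have h1 : x ∉ Function.support (fderiv ℝ φ) := fun h2 => hx (support_fderiv_subset ℝ h2)
    rw [Function.notMem_support.1 h1]
    rfl
  have hφ0 : ∀ x, x ∉ tsupport φ → φ x = 0 := fun x hx => image_eq_zero_of_notMem_tsupport hx
  have hinn : ∀ (μ : Measure ℂ) (f : ℂ → ℂ), LocallyIntegrableOn f Ω μ →
      LocallyIntegrableOn (fun x => inner ℝ (f x) v) Ω μ := by
    intro μ f hf x hx
    obtain ⟨t, ht, hti⟩ := hf x hx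
    exact ⟨t, ht, hti.inner_const v⟩
  have iu : IntegrableOn (fun x => fderiv ℝ φ x v * u x) Ω :=
    vf_intOn_mul hK hsupp hΩm h.intu hdφ hdφ0
  have ig : IntegrableOn (fun x => φ x * inner ℝ (g x) v) Ω :=
    vf_intOn_mul hK hsupp hΩm (hinn _ g h.intg) hφ.continuous hφ0
  have ij : IntegrableOn (fun x => φ x * inner ℝ (j x) v) Ω (μH[1] : Measure ℂ) :=
    vf_intOn_mul hK hsupp hΩm (hinn _ j h.intj) hφ.continuous hφ0
  have hlim2 := trace_lim (μ := volume) (Ω := Ω) a hs0 iu
  have hlim3 := trace_lim (μ := volume) (Ω := Ω) a hs0 ig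
  have hlim4 := trace_lim (μ := (μH[1] : Measure ℂ)) (Ω := Ω) a hs0 ij
  have hlim := ((hlim1.add hlim2).add hlim3).add hlim4
  -- the weak formulation
  have hzero : ∀ δ : ℝ, (∫ x in Ω, u x * (φ x * fderiv ℝ (traceZ a s δ) x v)) +
      (∫ x in Ω, traceZ a s δ x * (fderiv ℝ φ x v * u x)) +
      (∫ x in Ω, traceZ a s δ x * (φ x * inner ℝ (g x) v)) +
      (∫ x in Ω, traceZ a s δ x * (φ x * inner ℝ (j x) v) ∂(μH[1] : Measure ℂ)) = 0 := by
    intro δ
    have hZ := traceZ_contDiff a s δ
    have hψ : ContDiff ℝ ∞ (fun x => φ x * traceZ a s δ x) := hφ.mul hZ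
    have hψc : HasCompactSupport (fun x => φ x * traceZ a s δ x) := hc.mul_right
    have hψs : tsupport (fun x => φ x * traceZ a s δ x) ⊆ Ω :=
      (tsupport_mul_subset_left).trans hsupp
    have h1 := h.form _ hψ hψc hψs v
    have h2 : ∀ x, fderiv ℝ (fun x => φ x * traceZ a s δ x) x v =
        φ x * fderiv ℝ (traceZ a s δ) x v + traceZ a s δ x * fderiv ℝ φ x v := by
      intro x
      rw [fderiv_fun_mul ((hφ.differentiable (by simp)) x) ((hZ.differentiable (by simp)) x)]
      simp
    have i1 : IntegrableOn (fun x => u x * (φ x * fderiv ℝ (traceZ a s δ) x v)) Ω := by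
      have h3 : IntegrableOn (fun x => (φ x * fderiv ℝ (traceZ a s δ) x v) * u x) Ω := by
        refine vf_intOn_mul hK hsupp hΩm h.intu ?_ ?_
        · exact hφ.continuous.mul ((hZ.continuous_fderiv (by simp)).clm_apply continuous_const)
        · intro x hx
          rw [hφ0 x hx, zero_mul]
      exact h3.congr (Eventually.of_forall fun x => mul_comm _ _)
    have i2 : IntegrableOn (fun x => traceZ a s δ x * (fderiv ℝ φ x v * u x)) Ω := by
      have h3 : IntegrableOn (fun x => (traceZ a s δ x * fderiv ℝ φ x v) * u x) Ω := by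
        refine vf_intOn_mul hK hsupp hΩm h.intu (hZ.continuous.mul hdφ) ?_
        intro x hx
        rw [hdφ0 x hx, mul_zero]
      exact h3.congr (Eventually.of_forall fun x => by simp only; ring)
    have h4 : ∫ x in Ω, u x * fderiv ℝ (fun x => φ x * traceZ a s δ x) x v =
        (∫ x in Ω, u x * (φ x * fderiv ℝ (traceZ a s δ) x v)) +
        (∫ x in Ω, traceZ a s δ x * (fderiv ℝ φ x v * u x)) := by
      rw [← integral_add i1 i2]
      refine integral_congr_ae (Eventually.of_forall fun x => ?_)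
      simp only
      rw [h2 x]
      ring
    have h5 : ∫ x in Ω, φ x * traceZ a s δ x * inner ℝ (g x) v =
        ∫ x in Ω, traceZ a s δ x * (φ x * inner ℝ (g x) v) :=
      integral_congr_ae (Eventually.of_forall fun x => by simp only; ring)
    have h6 : ∫ x in Ω, φ x * traceZ a s δ x * inner ℝ (j x) v ∂(μH[1] : Measure ℂ) =
        ∫ x in Ω, traceZ a s δ x * (φ x * inner ℝ (j x) v) ∂(μH[1] : Measure ℂ) :=
      integral_congr_ae (Eventually.of_forall fun x => by simp only; ring)
    rw [h4, h5, h6] at h1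
    linarith
  have hlim0 := tendsto_nhds_unique (hlim.congr hzero) tendsto_const_nhds
  have h7 : ∫ x in Ω \ closedBall a s, u x * fderiv ℝ φ x v =
      ∫ x in Ω \ closedBall a s, fderiv ℝ φ x v * u x :=
    integral_congr_ae (Eventually.of_forall fun x => mul_comm _ _)
  rw [h7]
  unfold traceH at hlim0
  linarith

end Pool.Agent.MP099f24
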