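import Pool.Agent.Lib.MP_099f24_an.SD.Defs
import Pool.Agent.Lib.MP_099f24_an.JumpBasic

/-!
# The jump set is covered by countably many almost flat compact sets (MP_099f24_an, module FLAT)
-/

namespace Pool.Agent.MP099f24

open MeasureTheory Filter Topology Set Metric
open scoped ENNReal ContDiff

/-- Two points at which one-sided averages are uniformly small satisfy a cone condition. -/
theorem flat_key {Ω : Set ℂ} {u : ℂ → ℝ} (hu : LocallyIntegrableOn u Ω) {e η κ α β ρ : ℝ}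
    (he : 0 < e) (he1 : e ≤ 1) (hκ : 0 < κ) (hη : η * (16 / (e / 4) ^ 2 + 1) ≤ κ / 8)
    (hη0 : 0 ≤ η)
    (hαβ : κ ≤ |α - β|) {n x y : ℂ} (hρ : closedBall x ρ ⊆ Ω) (hd : 2 * ‖y - x‖ < ρ)
    {a b : ℝ} {ν ν' : ℂ} (hν : ‖ν‖ = 1) (hν' : ‖ν'‖ = 1) (ha : |a - α| ≤ κ / 8)
    (hb : |b - β| ≤ κ / 8) (hn : ‖ν - n‖ ≤ e / 8)
    (h1 : ∀ r, 0 < r → r < ρ → ⨍ z in halfBall x ν r, |u z - a| ≤ η)
    (h2 : ∀ r, 0 < r → r < ρ → ⨍ z in halfBall y (-ν') r, |u z - b| ≤ η) :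
    inner ℝ (y - x) n ≤ e * ‖y - x‖ := by
  by_contra hcon
  push Not at hcon
  have hd0 : 0 < ‖y - x‖ := by
    rw [norm_pos_iff]
    intro h
    rw [h] at hcon
    simp at hcon
  set d : ℝ := ‖y - x‖ with hdd
  set c : ℝ := e / 4 with hc
  have hc0 : 0 < c := by positivity
  have hcd : 0 < c * d := by positivity
  have hsub : ball y (c * d) ⊆ halfBall x ν (2 * d) := by
    intro z hz
    rw [mem_ball, dist_eq_norm] at hz
    refine ⟨?_, ?_⟩
    · rw [mem_ball, dist_eq_norm]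
      have h3 : z - x = (z - y) + (y - x) := by ring
      rw [h3]
      refine lt_of_le_of_lt (norm_add_le _ _) ?_
      rw [← hdd]
      have : c * d ≤ d := by
        have : c ≤ 1 := by rw [hc]; linarith
        nlinarith
      linarith
    · show 0 < inner ℝ (z - x) ν
      have h3 : z - x = (z - y) + (y - x) := by ring
      have h4 : ν = n + (ν - n) := by ring
      have h5 : inner ℝ (z - x) ν = inner ℝ (z - y) ν + (inner ℝ (y - x) n +
          inner ℝ (y - x) (ν - n)) := by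
        rw [h3, inner_add_left, ← inner_add_right, ← h4]
      have h6 := abs_real_inner_le_norm (z - y) ν
      have h7 := abs_real_inner_le_norm (y - x) (ν - n)
      rw [hν, mul_one] at h6
      rw [← hdd] at h7
      have h8 := (abs_le.1 h6).1
      have h9 := (abs_le.1 h7).1
      have h10 : d * ‖ν - n‖ ≤ d * (e / 8) := mul_le_mul_of_nonneg_left hn hd0.le
      rw [h5]
      have h11 : c * d = e * d / 4 := by rw [hc]; ring
      nlinarith
  have h2d : 0 < 2 * d := by positivity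
  have hball : ball x (2 * d) ⊆ closedBall x ρ :=
    (ball_subset_closedBall).trans (closedBall_subset_closedBall hd.le)
  have hint : IntegrableOn u (closedBall x ρ) :=
    hu.integrableOn_compact_subset hρ (isCompact_closedBall x ρ)
  have hfin : (volume : Measure ℂ) (halfBall x ν (2 * d)) ≠ ⊤ := jb_halfBall_finite _ _ _
  have hix : IntegrableOn (fun z => |u z - a|) (halfBall x ν (2 * d)) :=
    ((hint.mono_set (inter_subset_left.trans hball)).sub (integrableOn_const hfin)).abs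
  -- the integral over the half ball at `x`
  have hI1 : ∫ z in halfBall x ν (2 * d), |u z - a| ≤ η * (Real.pi * (2 * d) ^ 2) := by
    have h3 := h1 (2 * d) h2d hd
    have hpos : (0 : ℝ) < (volume : Measure ℂ).real (halfBall x ν (2 * d)) :=
      lt_of_lt_of_le (by positivity) (jb_volume_halfBall x hν h2d)
    rw [setAverage_eq, smul_eq_mul, inv_mul_le_iff₀ hpos] at h3
    have h4 : (volume : Measure ℂ).real (halfBall x ν (2 * d)) ≤ Real.pi * (2 * d) ^ 2 := by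
      rw [← jb_volume_ball x h2d]
      exact measureReal_mono inter_subset_left measure_ball_lt_top.ne
    calc ∫ z in halfBall x ν (2 * d), |u z - a|
        ≤ (volume : Measure ℂ).real (halfBall x ν (2 * d)) * η := h3
      _ ≤ Real.pi * (2 * d) ^ 2 * η := mul_le_mul_of_nonneg_right h4 hη0
      _ = η * (Real.pi * (2 * d) ^ 2) := by ring
  have hcdρ : c * d < ρ := by
    have : c * d ≤ d := by
      have : c ≤ 1 := by rw [hc]; linarith
      nlinarith
    linarith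
  set A : Set ℂ := halfBall y (-ν') (c * d) with hA
  have hν'' : ‖-ν'‖ = 1 := by rw [norm_neg, hν']
  have hAfin : (volume : Measure ℂ) A ≠ ⊤ := jb_halfBall_finite _ _ _
  set v : ℝ := (volume : Measure ℂ).real A with hv
  have hvlow : Real.pi * (c * d) ^ 2 / 4 ≤ v := jb_volume_halfBall y hν'' hcd
  have hvpos : 0 < v := lt_of_lt_of_le (by positivity) hvlow
  have hAsub : A ⊆ halfBall x ν (2 * d) := inter_subset_left.trans hsub
  have hI2 : ∫ z in A, |u z - b| ≤ η * v := by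
    have h3 := h2 (c * d) hcd hcdρ
    rw [setAverage_eq, smul_eq_mul, inv_mul_le_iff₀ hvpos] at h3
    linarith [mul_comm v η]
  have hI3 : ∫ z in A, |u z - a| ≤ η * (Real.pi * (2 * d) ^ 2) :=
    (setIntegral_mono_set hix (Eventually.of_forall fun z => abs_nonneg _)
      (LE.le.eventuallyLE hAsub)).trans hI1
  have hiA : IntegrableOn (fun z => |u z - a|) A := hix.mono_set hAsub
  have hiB : IntegrableOn (fun z => |u z - b|) A :=
    ((hint.mono_set (hAsub.trans (inter_subset_left.trans hball))).sub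
      (integrableOn_const hAfin)).abs
  have hI4 : v * |a - b| ≤ ∫ z in A, (|u z - a| + |u z - b|) := by
    have h4 : ∫ _z in A, |a - b| = v * |a - b| := by
      rw [setIntegral_const, smul_eq_mul]
    rw [← h4]
    refine integral_mono (integrableOn_const hAfin) (hiA.add hiB) ?_
    intro z
    show |a - b| ≤ |u z - a| + |u z - b|
    have := abs_sub_le a (u z) b
    rw [abs_sub_comm a (u z)] at this
    exact this
  rw [integral_add hiA hiB] at hI4
  have hI5 : η * (Real.pi * (2 * d) ^ 2) ≤ η * (16 / c ^ 2) * v := by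
    have h3 : Real.pi * (2 * d) ^ 2 = 16 / c ^ 2 * (Real.pi * (c * d) ^ 2 / 4) := by
      field_simp
      ring
    rw [h3, mul_assoc]
    refine mul_le_mul_of_nonneg_left ?_ hη0
    exact mul_le_mul_of_nonneg_left hvlow (by positivity)
  have hI6 : v * |a - b| ≤ v * (κ / 8) := by
    have h3 : v * (η * (16 / c ^ 2 + 1)) ≤ v * (κ / 8) := mul_le_mul_of_nonneg_left hη hvpos.le
    have h4 : v * (η * (16 / c ^ 2 + 1)) = η * (16 / c ^ 2) * v + η * v := by ring
    linarith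
  have hI7 : |a - b| ≤ κ / 8 := le_of_mul_le_mul_left hI6 hvpos
  have hI8 : |α - β| ≤ |a - α| + |a - b| + |b - β| := by
    have h3 : α - β = -(a - α) + (a - b) + (b - β) := by ring
    rw [h3]
    refine (abs_add_le _ _).trans ?_
    refine add_le_add_left ((abs_add_le _ _).trans ?_) _
    rw [abs_neg]
  linarith

/-- The data of an index: the set of points captured by it. -/
def flatSet (Ω : Set ℂ) (u : ℂ → ℝ) (e : ℝ) (p : ℂ) (ρ α β : ℝ) (n : ℂ) : Set ℂ :=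
  {x | dist x p ≤ min e ρ / 5 ∧ closedBall x ρ ⊆ Ω ∧ ∃ (a b : ℝ) (ν : ℂ), ‖ν‖ = 1 ∧ a ≠ b ∧
    |a - α| ≤ |α - β| / 8 ∧ |b - β| ≤ |α - β| / 8 ∧ ‖ν - n‖ ≤ e / 8 ∧
    (∀ r, 0 < r → r < ρ → ⨍ z in halfBall x ν r, |u z - a| ≤
      |α - β| / 8 / (16 / (e / 4) ^ 2 + 1)) ∧
    (∀ r, 0 < r → r < ρ → ⨍ z in halfBall x (-ν) r, |u z - b| ≤
      |α - β| / 8 / (16 / (e / 4) ^ 2 + 1))}

theorem flat_set_prop {Ω : Set ℂ} {u : ℂ → ℝ} (hu : LocallyIntegrableOn u Ω) {e : ℝ}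
    (he : 0 < e) (he1 : e ≤ 1) {p : ℂ} {ρ α β : ℝ} (hρ : 0 < ρ) {n : ℂ} {x y : ℂ}
    (hx : x ∈ flatSet Ω u e p ρ α β n) (hy : y ∈ flatSet Ω u e p ρ α β n) :
    inner ℝ (y - x) n ≤ e * ‖y - x‖ ∧ ‖y - x‖ ≤ e := by
  obtain ⟨hx1, hx2, a, b, ν, hν, hab, ha, hb, hn, h1, h2⟩ := hx
  obtain ⟨hy1, hy2, a', b', ν', hν', hab', ha', hb', hn', h1', h2'⟩ := hy
  have hκ : 0 < |α - β| := by
    rcases (abs_nonneg (α - β)).lt_or_eq with h | h
    · exact h
    · exfalso
      apply hab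
      rw [← h] at ha hb
      have h3 : a - α = 0 := abs_nonpos_iff.1 (by linarith)
      have h4 : b - β = 0 := abs_nonpos_iff.1 (by linarith)
      have h5 : α - β = 0 := abs_eq_zero.1 h.symm
      linarith
  have hdist : ‖y - x‖ ≤ 2 * (min e ρ / 5) := by
    rw [← dist_eq_norm]
    have := dist_triangle_right y x p
    linarith
  have hm1 : min e ρ ≤ e := min_le_left _ _
  have hm2 : min e ρ ≤ ρ := min_le_right _ _
  have hm0 : 0 < min e ρ := lt_min he hρ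
  refine ⟨?_, by linarith⟩
  refine flat_key hu he he1 hκ (η := |α - β| / 8 / (16 / (e / 4) ^ 2 + 1)) ?_ (by positivity)
    le_rfl hx2 (by linarith) hν hν' ha hb' hn h1 h2'
  have h3 : (0 : ℝ) < 16 / (e / 4) ^ 2 + 1 := by positivity
  rw [div_mul_cancel₀ _ h3.ne']

theorem flat_capture {Ω : Set ℂ} {u : ℂ → ℝ} (hΩ : IsOpen Ω) {e : ℝ}
    (he : 0 < e) {x : ℂ} (hx : x ∈ Ω) {a b : ℝ} {ν : ℂ}
    (hj : IsJump u x a b ν) :
    ∃ (α β : ℚ) (m N q : ℕ), x ∈ flatSet Ω u e (TopologicalSpace.denseSeq ℂ q) (1 / ((N : ℝ) + 1))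
      α β (TopologicalSpace.denseSeq (sphere (0 : ℂ) 1) m : ℂ) ∧
      ‖ν - (TopologicalSpace.denseSeq (sphere (0 : ℂ) 1) m : ℂ)‖ ≤ e / 8 := by
  obtain ⟨hν, hab, hja, hjb⟩ := hj
  have hκ : 0 < |a - b| := abs_pos.2 (sub_ne_zero.2 hab)
  obtain ⟨α, hα1, hα2⟩ := exists_rat_btwn (show a < a + |a - b| / 16 by linarith)
  obtain ⟨β, hβ1, hβ2⟩ := exists_rat_btwn (show b < b + |a - b| / 16 by linarith)
  have hαabs : |a - (α : ℝ)| ≤ |a - b| / 16 := by
    rw [abs_le]; constructor <;> linarith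
  have hβabs : |b - (β : ℝ)| ≤ |a - b| / 16 := by
    rw [abs_le]; constructor <;> linarith
  have hαβ : 7 / 8 * |a - b| ≤ |(α : ℝ) - β| := by
    have h3 : a - b = (a - α) + ((α : ℝ) - β) + (-(b - β)) := by ring
    have h4 : |a - b| ≤ |a - (α : ℝ)| + |(α : ℝ) - β| + |b - (β : ℝ)| := by
      conv_lhs => rw [h3]
      refine (abs_add_le _ _).trans ?_
      rw [abs_neg]
      exact add_le_add_left (abs_add_le _ _) _
    linarith
  set η : ℝ := |(α : ℝ) - β| / 8 / (16 / (e / 4) ^ 2 + 1) with hη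
  have hη0 : 0 < η := by
    have : 0 < |(α : ℝ) - β| := by linarith
    positivity
  obtain ⟨m, hm⟩ := (TopologicalSpace.denseRange_denseSeq (sphere (0 : ℂ) 1)).exists_dist_lt
    (⟨ν, by rw [mem_sphere, dist_zero_right, hν]⟩ : sphere (0 : ℂ) 1) (show 0 < e / 8 by positivity)
  have hm' : ‖ν - (TopologicalSpace.denseSeq (sphere (0 : ℂ) 1) m : ℂ)‖ ≤ e / 8 := by
    rw [Subtype.dist_eq, dist_eq_norm] at hm
    exact hm.le
  have hev1 : ∀ᶠ r in 𝓝[>] (0 : ℝ), ⨍ z in halfBall x ν r, |u z - a| < η :=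
    hja.eventually (gt_mem_nhds hη0)
  have hev2 : ∀ᶠ r in 𝓝[>] (0 : ℝ), ⨍ z in halfBall x (-ν) r, |u z - b| < η :=
    hjb.eventually (gt_mem_nhds hη0)
  obtain ⟨δ, hδ, hδ'⟩ := mem_nhdsGT_iff_exists_Ioo_subset.1 (hev1.and hev2)
  obtain ⟨δ₂, hδ₂, hδ₂'⟩ := Metric.isOpen_iff.1 hΩ x hx
  obtain ⟨N, hN⟩ := exists_nat_one_div_lt (show (0 : ℝ) < min δ δ₂ from lt_min hδ hδ₂)
  have hρ : (0 : ℝ) < 1 / ((N : ℝ) + 1) := by positivity
  obtain ⟨q, hq⟩ := (TopologicalSpace.denseRange_denseSeq ℂ).exists_dist_lt x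
    (show 0 < min e (1 / ((N : ℝ) + 1)) / 5 by
      have := lt_min he hρ
      positivity)
  refine ⟨α, β, m, N, q, ⟨hq.le, ?_, a, b, ν, hν, hab, by linarith, by linarith, hm', ?_, ?_⟩, hm'⟩
  · refine (closedBall_subset_ball ?_).trans hδ₂'
    exact lt_of_lt_of_le hN (min_le_right _ _)
  · intro r hr0 hr1
    exact (hδ' ⟨hr0, hr1.trans (lt_of_lt_of_le hN (min_le_left _ _))⟩).1.le
  · intro r hr0 hr1
    exact (hδ' ⟨hr0, hr1.trans (lt_of_lt_of_le hN (min_le_left _ _))⟩).2.le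

theorem flat_cover {Ω : Set ℂ} {u : ℂ → ℝ} (hΩ : IsOpen Ω) (hu : LocallyIntegrableOn u Ω) {ε : ℝ}
    (hε : 0 < ε) :
    ∃ (F : ℕ → Set ℂ) (n : ℕ → ℂ), (∀ i, IsCompact (F i) ∧ ‖n i‖ = 1 ∧
      ∀ x ∈ F i, ∀ y ∈ F i, |inner ℝ (y - x) (n i)| ≤ ε * ‖y - x‖ ∧ ‖y - x‖ ≤ ε) ∧
      ∀ x ∈ Ω, ∀ a b ν, IsJump u x a b ν → ∃ i, x ∈ F i ∧ ‖ν - n i‖ ≤ ε := by
  set e : ℝ := min ε 1 with he
  have he0 : 0 < e := lt_min hε one_pos
  have he1 : e ≤ 1 := min_le_right _ _
  have heε : e ≤ ε := min_le_left _ _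
  obtain ⟨f, hf⟩ := exists_surjective_nat (ℚ × ℚ × ℕ × ℕ × ℕ)
  set E : ℕ → Set ℂ := fun i => flatSet Ω u e (TopologicalSpace.denseSeq ℂ (f i).2.2.2.2)
    (1 / (((f i).2.2.2.1 : ℝ) + 1)) (f i).1 (f i).2.1
    (TopologicalSpace.denseSeq (sphere (0 : ℂ) 1) (f i).2.2.1 : ℂ) with hE
  refine ⟨fun i => closure (E i),
    fun i => (TopologicalSpace.denseSeq (sphere (0 : ℂ) 1) (f i).2.2.1 : ℂ), fun i => ⟨?_, ?_, ?_⟩,
    ?_⟩
  · refine Bornology.IsBounded.isCompact_closure ?_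
    refine (isBounded_closedBall (x := TopologicalSpace.denseSeq ℂ (f i).2.2.2.2)
      (r := min e (1 / (((f i).2.2.2.1 : ℝ) + 1)) / 5)).subset ?_
    intro x hx
    exact mem_closedBall.2 hx.1
  · have := (TopologicalSpace.denseSeq (sphere (0 : ℂ) 1) (f i).2.2.1).2
    rwa [mem_sphere, dist_zero_right] at this
  · intro x hx y hy
    set n : ℂ := (TopologicalSpace.denseSeq (sphere (0 : ℂ) 1) (f i).2.2.1 : ℂ) with hn
    have hclosed : IsClosed {p : ℂ × ℂ | |inner ℝ (p.2 - p.1) n| ≤ ε * ‖p.2 - p.1‖ ∧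
        ‖p.2 - p.1‖ ≤ ε} := by
      have hc1 : IsClosed {p : ℂ × ℂ | |inner ℝ (p.2 - p.1) n| ≤ ε * ‖p.2 - p.1‖} :=
        isClosed_le (by fun_prop) (by fun_prop)
      have hc2 : IsClosed {p : ℂ × ℂ | ‖p.2 - p.1‖ ≤ ε} := isClosed_le (by fun_prop) (by fun_prop)
      exact hc1.inter hc2
    have hsub : E i ×ˢ E i ⊆ {p : ℂ × ℂ | |inner ℝ (p.2 - p.1) n| ≤ ε * ‖p.2 - p.1‖ ∧
        ‖p.2 - p.1‖ ≤ ε} := by
      rintro ⟨x', y'⟩ ⟨hx', hy'⟩
      have hρ : (0 : ℝ) < 1 / (((f i).2.2.2.1 : ℝ) + 1) := by positivity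
      have h3 := flat_set_prop hu he0 he1 hρ hx' hy'
      have h4 := flat_set_prop hu he0 he1 hρ hy' hx'
      have h5 : inner ℝ (x' - y') n = -inner ℝ (y' - x') n := by
        rw [← inner_neg_left, neg_sub]
      have h6 : ‖x' - y'‖ = ‖y' - x'‖ := norm_sub_rev _ _
      have h7 : e * ‖y' - x'‖ ≤ ε * ‖y' - x'‖ :=
        mul_le_mul_of_nonneg_right heε (norm_nonneg _)
      refine ⟨?_, h3.2.trans heε⟩
      show |inner ℝ (y' - x') n| ≤ ε * ‖y' - x'‖
      rw [abs_le]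
      have h8 := h4.1
      rw [← hn, h5, h6] at h8
      have h9 := h3.1
      rw [← hn] at h9
      constructor <;> linarith
    have hmem : (x, y) ∈ closure (E i ×ˢ E i) := by
      rw [closure_prod_eq]
      exact ⟨hx, hy⟩
    exact closure_minimal hsub hclosed hmem
  · intro x hx a b ν hj
    obtain ⟨α, β, m, N, q, h1, h2⟩ := flat_capture hΩ he0 hx hj
    obtain ⟨i, hi⟩ := hf (α, β, m, N, q)
    refine ⟨i, subset_closure ?_, ?_⟩
    · rw [hE]
      simp only [hi]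
      exact h1
    · simp only [hi]
      linarith

end Pool.Agent.MP099f24
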