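import Mathlib
import Pool.Agent.Lib.MP_099f24_an.SD.Defs
import Pool.Agent.Lib.MP_099f24_an.JumpBasic
import Pool.Agent.Lib.MP_099f24_an.SD.JRep
import Pool.Agent.Lib.MP_099f24_an.SD.Flat

/-!
# MP_099f24_an, sharp densities, module AREA: the area formula for the jump set
-/

namespace Pool.Agent.MP099f24

open MeasureTheory Filter Topology Set Metric
open scoped ENNReal NNReal ContDiff

/-! ### Elementary geometry -/

/-- The decomposition of a vector in the orthonormal basis `n, I n`. -/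
theorem area_decomp {n : ℂ} (hn : ‖n‖ = 1) (z : ℂ) :
    z = (inner ℝ z n : ℝ) • n + (inner ℝ z (Complex.I * n) : ℝ) • (Complex.I * n) := by
  have h : n.re ^ 2 + n.im ^ 2 = 1 := by
    have h1 := Complex.sq_norm n
    rw [hn, Complex.normSq_apply] at h1
    nlinarith [h1]
  apply Complex.ext
  · simp only [Complex.inner, Complex.add_re, Complex.real_smul, Complex.mul_re,
      Complex.ofReal_re, Complex.ofReal_im, Complex.conj_re, Complex.conj_im, Complex.I_re,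
      Complex.I_im, Complex.mul_im]
    linear_combination (-z.re) * h
  · simp only [Complex.inner, Complex.add_im, Complex.real_smul, Complex.mul_re,
      Complex.ofReal_re, Complex.ofReal_im, Complex.conj_re, Complex.conj_im, Complex.I_re,
      Complex.I_im, Complex.mul_im]
    linear_combination (-z.im) * h

theorem area_norm_I_mul (z : ℂ) : ‖Complex.I * z‖ = ‖z‖ := by
  rw [norm_mul, Complex.norm_I, one_mul]

/-- The image of a nearly tangential vector. -/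
theorem area_linear (A : ℂ →L[ℝ] ℂ) {n z : ℂ} (hn : ‖n‖ = 1) {ε M : ℝ} (hA : ‖A‖ ≤ M)
    (hz : |inner ℝ z n| ≤ ε * ‖z‖) :
    |‖A z‖ - ‖A (Complex.I * n)‖ * ‖z‖| ≤ 2 * M * ε * ‖z‖ := by
  have hM : 0 ≤ M := (norm_nonneg A).trans hA
  set c := (inner ℝ z n : ℝ) with hc
  set d := (inner ℝ z (Complex.I * n) : ℝ) with hd
  have h1 : z = c • n + d • (Complex.I * n) := area_decomp hn z
  have h2 : A z = c • A n + d • A (Complex.I * n) := by
    rw [h1, map_add, map_smul, map_smul]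
  have h3 : ‖A n‖ ≤ M := by
    have := A.le_opNorm n
    rw [hn, mul_one] at this
    exact this.trans hA
  have h3' : ‖A (Complex.I * n)‖ ≤ M := by
    have := A.le_opNorm (Complex.I * n)
    rw [area_norm_I_mul, hn, mul_one] at this
    exact this.trans hA
  have h4 : |‖A z‖ - |d| * ‖A (Complex.I * n)‖| ≤ |c| * M := by
    have h5 : |d| * ‖A (Complex.I * n)‖ = ‖d • A (Complex.I * n)‖ := by
      rw [norm_smul, Real.norm_eq_abs]
    rw [h5]
    refine (abs_norm_sub_norm_le _ _).trans ?_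
    rw [h2, add_sub_cancel_right, norm_smul, Real.norm_eq_abs]
    exact mul_le_mul_of_nonneg_left h3 (abs_nonneg _)
  have h5 : abs (‖z‖ - |d|) ≤ |c| := by
    have h6 : |d| = ‖d • (Complex.I * n)‖ := by
      rw [norm_smul, area_norm_I_mul, hn, mul_one, Real.norm_eq_abs]
    rw [h6]
    refine (abs_norm_sub_norm_le _ _).trans ?_
    have h7 : z - d • (Complex.I * n) = c • n := by
      conv_lhs => rw [h1]
      rw [add_sub_cancel_right]
    rw [h7, norm_smul, hn, mul_one, Real.norm_eq_abs]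
  have h6 : ‖A z‖ - ‖A (Complex.I * n)‖ * ‖z‖ =
      (‖A z‖ - |d| * ‖A (Complex.I * n)‖) - ‖A (Complex.I * n)‖ * (‖z‖ - |d|) := by ring
  rw [h6]
  calc |(‖A z‖ - |d| * ‖A (Complex.I * n)‖) - ‖A (Complex.I * n)‖ * (‖z‖ - |d|)|
      ≤ |‖A z‖ - |d| * ‖A (Complex.I * n)‖| + |‖A (Complex.I * n)‖ * (‖z‖ - |d|)| := abs_sub _ _
    _ ≤ |c| * M + M * |c| := by
        refine add_le_add h4 ?_
        rw [abs_mul, abs_of_nonneg (norm_nonneg _)]
        exact mul_le_mul h3' h5 (abs_nonneg _) hM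
    _ ≤ 2 * M * ε * ‖z‖ := by nlinarith

/-! ### One piece -/

theorem area_piece {Φ Ψ : ℂ → ℂ} (hΦ : ContDiff ℝ 1 Φ) (h1 : ∀ x, Ψ (Φ x) = x) {n : ℂ}
    (hn : ‖n‖ = 1) {ε η M R : ℝ} (hη : 0 ≤ η) (hε : 0 ≤ ε) {E : Set ℂ} (hEm : MeasurableSet E)
    (hE : E ⊆ closedBall 0 R)
    (hflat : ∀ x ∈ E, ∀ y ∈ E, |inner ℝ (y - x) n| ≤ ε * ‖y - x‖ ∧ ‖y - x‖ ≤ ε)
    (hM : ∀ x ∈ closedBall (0 : ℂ) R, ‖fderiv ℝ Φ x‖ ≤ M)
    (hu : ∀ x ∈ closedBall (0 : ℂ) R, ∀ y ∈ closedBall (0 : ℂ) R, ‖y - x‖ ≤ ε →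
      ‖fderiv ℝ Φ y - fderiv ℝ Φ x‖ ≤ η)
    {f : ℂ → ℝ≥0∞} (hf : ∀ x ∈ E, ∃ w, (‖w - n‖ ≤ ε ∨ ‖w + n‖ ≤ ε) ∧
      f x = ‖fderiv ℝ Φ x (Complex.I * w)‖ₑ) :
    (μH[1] : Measure ℂ) (Φ '' E) ≤ ∫⁻ x in E, f x ∂(μH[1] : Measure ℂ) +
        ENNReal.ofReal (2 * (η + 2 * M * ε)) * (μH[1] : Measure ℂ) E ∧
    ∫⁻ x in E, f x ∂(μH[1] : Measure ℂ) ≤ (μH[1] : Measure ℂ) (Φ '' E) +
        ENNReal.ofReal (2 * (η + 2 * M * ε)) * (μH[1] : Measure ℂ) E := by
  rcases E.eq_empty_or_nonempty with rfl | ⟨x₀, hx₀⟩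
  · simp
  have hM0 : 0 ≤ M := (norm_nonneg _).trans (hM x₀ (hE hx₀))
  set A := fderiv ℝ Φ x₀ with hA
  set l := ‖A (Complex.I * n)‖ with hl
  set κ := η + 2 * M * ε with hκ
  have hκ0 : 0 ≤ κ := by positivity
  -- the map is nearly a similarity on `E`
  have ha : ∀ x ∈ E, ∀ y ∈ E, |‖Φ y - Φ x‖ - l * ‖y - x‖| ≤ κ * ‖y - x‖ := by
    intro x hx y hy
    have h2 : ‖Φ y - Φ x - A (y - x)‖ ≤ η * ‖y - x‖ := by
      refine Convex.norm_image_sub_le_of_norm_fderiv_le' (s := closedBall (0 : ℂ) R ∩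
        closedBall x₀ ε) (fun z _ => (hΦ.differentiable (by norm_num)).differentiableAt)
        (fun z hz => hu x₀ (hE hx₀) z hz.1 ?_) ((convex_closedBall _ _).inter
          (convex_closedBall _ _)) ⟨hE hx, ?_⟩ ⟨hE hy, ?_⟩
      · have := hz.2
        rwa [mem_closedBall, dist_eq_norm] at this
      · rw [mem_closedBall, dist_eq_norm]
        exact (hflat x₀ hx₀ x hx).2
      · rw [mem_closedBall, dist_eq_norm]
        exact (hflat x₀ hx₀ y hy).2
    have h3 := area_linear A hn (hM x₀ (hE hx₀)) (hflat x hx y hy).1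
    have h4 : |‖Φ y - Φ x‖ - ‖A (y - x)‖| ≤ η * ‖y - x‖ := (abs_norm_sub_norm_le _ _).trans h2
    calc |‖Φ y - Φ x‖ - l * ‖y - x‖|
        ≤ |‖Φ y - Φ x‖ - ‖A (y - x)‖| + |‖A (y - x)‖ - l * ‖y - x‖| := abs_sub_le _ _ _
      _ ≤ η * ‖y - x‖ + 2 * M * ε * ‖y - x‖ := add_le_add h4 h3
      _ = κ * ‖y - x‖ := by rw [hκ]; ring
  -- the density is nearly constant
  have hb : ∀ x ∈ E, ENNReal.ofReal (l - κ) ≤ f x ∧ f x ≤ ENNReal.ofReal (l + κ) := by
    intro x hx
    obtain ⟨w, hw, hfx⟩ := hf x hx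
    have h2 : |‖fderiv ℝ Φ x (Complex.I * w)‖ - l| ≤ κ := by
      have h5 : ‖fderiv ℝ Φ x - A‖ ≤ η := hu x₀ (hE hx₀) x (hE hx) (hflat x₀ hx₀ x hx).2
      have key : ∀ n' : ℂ, ‖n'‖ = 1 → ‖A (Complex.I * n')‖ = l → ‖w - n'‖ ≤ ε →
          |‖fderiv ℝ Φ x (Complex.I * w)‖ - l| ≤ κ := by
        intro n' hn' hln hwn
        rw [← hln]
        refine (abs_norm_sub_norm_le _ _).trans ?_
        have h6 : fderiv ℝ Φ x (Complex.I * w) - A (Complex.I * n') =
            fderiv ℝ Φ x (Complex.I * (w - n')) + (fderiv ℝ Φ x - A) (Complex.I * n') := by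
          rw [sub_apply, mul_sub, map_sub]
          ring
        rw [h6]
        refine (norm_add_le _ _).trans ?_
        have h7 : ‖fderiv ℝ Φ x (Complex.I * (w - n'))‖ ≤ M * ε := by
          refine ((fderiv ℝ Φ x).le_opNorm _).trans ?_
          rw [area_norm_I_mul]
          exact mul_le_mul (hM x (hE hx)) hwn (norm_nonneg _) hM0
        have h8 : ‖(fderiv ℝ Φ x - A) (Complex.I * n')‖ ≤ η := by
          refine ((fderiv ℝ Φ x - A).le_opNorm _).trans ?_
          rw [area_norm_I_mul, hn', mul_one]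
          exact h5
        have h9 : 0 ≤ M * ε := by positivity
        rw [hκ]
        linarith
      rcases hw with hw | hw
      · exact key n hn hl.symm hw
      · refine key (-n) (by rw [norm_neg, hn]) ?_ (by rwa [sub_neg_eq_add])
        rw [mul_neg, map_neg, norm_neg]
    rw [abs_le] at h2
    rw [hfx, ← ofReal_norm]
    exact ⟨ENNReal.ofReal_le_ofReal (by linarith), ENNReal.ofReal_le_ofReal (by linarith)⟩
  -- upper bound for the image
  have hc : (μH[1] : Measure ℂ) (Φ '' E) ≤ ENNReal.ofReal (l + κ) * (μH[1] : Measure ℂ) E := by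
    have h2 : LipschitzOnWith (Real.toNNReal (l + κ)) Φ E := by
      refine LipschitzOnWith.of_dist_le_mul fun x hx y hy => ?_
      rw [Real.coe_toNNReal _ (add_nonneg (norm_nonneg _) hκ0), dist_eq_norm, dist_eq_norm]
      have h3 := (abs_le.mp (ha y hy x hx)).2
      linarith
    have h3 := h2.hausdorffMeasure_image_le (d := 1) zero_le_one
    rw [ENNReal.rpow_one] at h3
    exact h3
  -- lower bound for the image
  have hd : ENNReal.ofReal (l - κ) * (μH[1] : Measure ℂ) E ≤ (μH[1] : Measure ℂ) (Φ '' E) := by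
    rcases le_or_gt (l - κ) 0 with h2 | h2
    · rw [ENNReal.ofReal_of_nonpos h2, zero_mul]
      exact zero_le
    have h3 : LipschitzOnWith (Real.toNNReal (l - κ)⁻¹) Ψ (Φ '' E) := by
      refine LipschitzOnWith.of_dist_le_mul ?_
      rintro _ ⟨x, hx, rfl⟩ _ ⟨y, hy, rfl⟩
      rw [Real.coe_toNNReal _ (inv_nonneg.mpr h2.le), h1, h1, dist_eq_norm, dist_eq_norm,
        inv_mul_eq_div, le_div_iff₀ h2]
      have h4 := (abs_le.mp (ha y hy x hx)).1
      linarith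
    have h4 := h3.hausdorffMeasure_image_le (d := 1) zero_le_one
    rw [ENNReal.rpow_one] at h4
    have h5 : Ψ '' (Φ '' E) = E := by
      rw [image_image]
      simp [h1]
    rw [h5] at h4
    calc ENNReal.ofReal (l - κ) * (μH[1] : Measure ℂ) E
        ≤ ENNReal.ofReal (l - κ) * ((Real.toNNReal (l - κ)⁻¹ : ℝ≥0∞) *
          (μH[1] : Measure ℂ) (Φ '' E)) := by gcongr
      _ = (μH[1] : Measure ℂ) (Φ '' E) := by
        rw [← mul_assoc]
        have h6 : ENNReal.ofReal (l - κ) * (Real.toNNReal (l - κ)⁻¹ : ℝ≥0∞) = 1 := by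
          rw [show ((Real.toNNReal (l - κ)⁻¹ : ℝ≥0) : ℝ≥0∞) = ENNReal.ofReal (l - κ)⁻¹ from rfl,
            ← ENNReal.ofReal_mul h2.le, mul_inv_cancel₀ h2.ne', ENNReal.ofReal_one]
        rw [h6, one_mul]
  -- the integral
  have he : ENNReal.ofReal (l - κ) * (μH[1] : Measure ℂ) E ≤
      ∫⁻ x in E, f x ∂(μH[1] : Measure ℂ) := by
    rw [← setLIntegral_const]
    exact setLIntegral_mono' hEm fun x hx => (hb x hx).1
  have he' : ∫⁻ x in E, f x ∂(μH[1] : Measure ℂ) ≤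
      ENNReal.ofReal (l + κ) * (μH[1] : Measure ℂ) E := by
    rw [← setLIntegral_const]
    exact setLIntegral_mono' hEm fun x hx => (hb x hx).2
  have hg : ENNReal.ofReal (l + κ) * (μH[1] : Measure ℂ) E ≤
      ENNReal.ofReal (l - κ) * (μH[1] : Measure ℂ) E +
        ENNReal.ofReal (2 * κ) * (μH[1] : Measure ℂ) E := by
    rw [← add_mul]
    gcongr
    calc ENNReal.ofReal (l + κ) = ENNReal.ofReal ((l - κ) + 2 * κ) := by congr 1; ring
      _ ≤ _ := ENNReal.ofReal_add_le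
  constructor
  · exact hc.trans (hg.trans (add_le_add he le_rfl))
  · exact he'.trans (hg.trans (add_le_add hd le_rfl))

/-! ### The area formula -/

theorem area_image_eq {Φ Ψ : ℂ → ℂ} (h1 : ∀ x, Ψ (Φ x) = x) (h2 : ∀ y, Φ (Ψ y) = y) (A : Set ℂ) :
    Φ '' A = Ψ ⁻¹' A := by
  ext y
  constructor
  · rintro ⟨x, hx, rfl⟩
    rw [mem_preimage, h1]
    exact hx
  · intro hy
    exact ⟨Ψ y, hy, h2 y⟩

theorem area_approx {Ω : Set ℂ} {u : ℂ → ℝ} {g j : ℂ → ℂ} (h : SBVData Ω u g j) {Φ Ψ : ℂ → ℂ}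
    (hΦ : ContDiff ℝ 1 Φ) (hΨ : ContDiff ℝ 1 Ψ)
    (h1 : ∀ x, Ψ (Φ x) = x) (h2 : ∀ y, Φ (Ψ y) = y) {R : ℝ} {C : Set ℂ} {j' : ℂ → ℂ}
    (hCm : MeasurableSet C) (hCR : C ⊆ closedBall 0 R) (hCJ : C ⊆ jumpSet Ω u)
    (hj' : Measurable j') (hjj : ∀ x ∈ C, j' x = j x) {η : ℝ} (hη : 0 < η) :
    (μH[1] : Measure ℂ) (Φ '' C) ≤ ∫⁻ x in C, tfac Φ j' x ∂(μH[1] : Measure ℂ) +
        ENNReal.ofReal η * (μH[1] : Measure ℂ) C ∧
    ∫⁻ x in C, tfac Φ j' x ∂(μH[1] : Measure ℂ) ≤ (μH[1] : Measure ℂ) (Φ '' C) +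
        ENNReal.ofReal η * (μH[1] : Measure ℂ) C := by
  have hc : Continuous (fderiv ℝ Φ) := hΦ.continuous_fderiv (by norm_num)
  have hcomp : IsCompact (closedBall (0 : ℂ) R) := isCompact_closedBall _ _
  obtain ⟨M, hM⟩ := hcomp.exists_bound_of_continuousOn hc.continuousOn
  obtain ⟨M', hM'0, hM'⟩ : ∃ M', 0 < M' ∧ ∀ x ∈ closedBall (0 : ℂ) R, ‖fderiv ℝ Φ x‖ ≤ M' :=
    ⟨max M 1, by positivity, fun x hx => (hM x hx).trans (le_max_left _ _)⟩
  have huc := hcomp.uniformContinuousOn_of_continuous hc.continuousOn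
  rw [Metric.uniformContinuousOn_iff_le] at huc
  obtain ⟨δ, hδ, hδu⟩ := huc (η / 4) (by positivity)
  set ε := min δ (η / (8 * M')) with hε
  have hε0 : 0 < ε := by positivity
  have hεM : 2 * M' * ε ≤ η / 4 := by
    have h3 : ε ≤ η / (8 * M') := min_le_right _ _
    rw [le_div_iff₀ (by positivity)] at h3
    linarith
  obtain ⟨F, n, hF, hcov⟩ := flat_cover h.isOpen h.intu hε0
  -- the pieces
  set G : ℕ → Set ℂ := fun i => C ∩ F i ∩
    {x | ‖(‖j' x‖⁻¹ : ℝ) • j' x - n i‖ ≤ ε ∨ ‖(‖j' x‖⁻¹ : ℝ) • j' x + n i‖ ≤ ε} with hG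
  have hGm : ∀ i, MeasurableSet (G i) := by
    intro i
    refine (hCm.inter (hF i).1.measurableSet).inter ?_
    have h3 : Measurable fun x => (‖j' x‖⁻¹ : ℝ) • j' x := hj'.norm.inv.smul hj'
    exact (measurableSet_le (h3.sub_const _).norm measurable_const).union
      (measurableSet_le (h3.add_const _).norm measurable_const)
  have hGC : ⋃ i, G i = C := by
    apply Subset.antisymm
    · exact iUnion_subset fun i x hx => hx.1.1
    · intro x hx
      have hxJ := hCJ hx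
      rcases h.jf x hxJ.1 with ⟨a, b, ν, hj, hjx⟩ | hno
      · obtain ⟨i, hi, hni⟩ := hcov x hxJ.1 a b ν hj
        rw [mem_iUnion]
        refine ⟨i, ⟨hx, hi⟩, ?_⟩
        have h3 : j' x = (a - b) • ν := (hjj x hx).trans hjx
        have hab : a - b ≠ 0 := sub_ne_zero.mpr hj.2.1
        have h4 : (‖j' x‖⁻¹ : ℝ) • j' x = (|a - b|⁻¹ * (a - b)) • ν := by
          rw [h3, norm_smul, hj.1, mul_one, Real.norm_eq_abs, smul_smul]
        rcases lt_or_gt_of_ne hab with hlt | hgt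
        · right
          rw [h4, abs_of_neg hlt, show (-(a - b))⁻¹ * (a - b) = -1 by field_simp, neg_smul,
            one_smul, neg_add_eq_sub, norm_sub_rev]
          exact hni
        · left
          rw [h4, abs_of_pos hgt, inv_mul_cancel₀ hab, one_smul]
          exact hni
      · exact absurd hxJ.2 hno.1
  -- the estimate on a Borel part of a piece
  have hpiece : ∀ i (E : Set ℂ), MeasurableSet E → E ⊆ G i →
      (μH[1] : Measure ℂ) (Φ '' E) ≤ ∫⁻ x in E, tfac Φ j' x ∂(μH[1] : Measure ℂ) +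
        ENNReal.ofReal η * (μH[1] : Measure ℂ) E ∧
      ∫⁻ x in E, tfac Φ j' x ∂(μH[1] : Measure ℂ) ≤ (μH[1] : Measure ℂ) (Φ '' E) +
        ENNReal.ofReal η * (μH[1] : Measure ℂ) E := by
    intro i E hEm hEG
    have h3 := area_piece (f := tfac Φ j') hΦ h1 (hF i).2.1 (η := η / 4) (by positivity)
      hε0.le hEm (fun x hx => hCR (hEG hx).1.1) (fun x hx y hy =>
        (hF i).2.2 x (hEG hx).1.2 y (hEG hy).1.2) hM' (fun x hx y hy hxy => ?_) (fun x hx => ?_)
    · have h4 : ENNReal.ofReal (2 * (η / 4 + 2 * M' * ε)) ≤ ENNReal.ofReal η :=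
        ENNReal.ofReal_le_ofReal (by linarith)
      exact ⟨h3.1.trans (by gcongr), h3.2.trans (by gcongr)⟩
    · have := hδu y hy x hx (by
        rw [dist_eq_norm]
        exact hxy.trans (min_le_left _ _))
      rwa [dist_eq_norm] at this
    · refine ⟨(‖j' x‖⁻¹ : ℝ) • j' x, (hEG hx).2, ?_⟩
      have hxJ := hCJ (hEG hx).1.1
      have hjx0 : j' x ≠ 0 := by
        rcases h.jf x hxJ.1 with ⟨a, b, ν, hj, hjx⟩ | hno
        · rw [hjj x (hEG hx).1.1, hjx]
          refine smul_ne_zero (sub_ne_zero.mpr hj.2.1) ?_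
          intro h0
          have := hj.1
          rw [h0, norm_zero] at this
          exact zero_ne_one this
        · exact absurd hxJ.2 hno.1
      rw [tfac, mul_smul_comm, map_smul, enorm_smul, ENNReal.div_eq_inv_mul]
      congr 1
      rw [enorm_inv (norm_ne_zero_iff.mpr hjx0), enorm_norm]
  -- the disjoint pieces
  set E : ℕ → Set ℂ := disjointed G with hE
  have hEm : ∀ i, MeasurableSet (E i) := fun i => MeasurableSet.disjointed hGm i
  have hEd : Pairwise (Function.onFun Disjoint E) := disjoint_disjointed G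
  have hEC : ⋃ i, E i = C := by rw [hE, iUnion_disjointed, hGC]
  have hEG : ∀ i, E i ⊆ G i := fun i => disjointed_subset G i
  have hI : ∫⁻ x in C, tfac Φ j' x ∂(μH[1] : Measure ℂ) =
      ∑' i, ∫⁻ x in E i, tfac Φ j' x ∂(μH[1] : Measure ℂ) := by
    rw [← hEC, lintegral_iUnion hEm hEd]
  have hH : (μH[1] : Measure ℂ) C = ∑' i, (μH[1] : Measure ℂ) (E i) := by
    rw [← hEC, measure_iUnion hEd hEm]
  have hH' : (μH[1] : Measure ℂ) (Φ '' C) = ∑' i, (μH[1] : Measure ℂ) (Φ '' E i) := by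
    have h3 : Φ '' C = ⋃ i, Φ '' E i := by rw [← hEC, image_iUnion]
    rw [h3]
    refine measure_iUnion (fun i k hik => ?_) fun i => ?_
    · simp only [Function.onFun]
      exact (disjoint_image_iff (fun x y hxy => by rw [← h1 x, ← h1 y, hxy])).mpr (hEd hik)
    · rw [area_image_eq h1 h2]
      exact hΨ.continuous.measurable (hEm i)
  rw [hI, hH, hH', ← ENNReal.tsum_mul_left, ← ENNReal.tsum_add, ← ENNReal.tsum_add]
  exact ⟨ENNReal.tsum_le_tsum fun i => (hpiece i (E i) (hEm i) (hEG i)).1,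
    ENNReal.tsum_le_tsum fun i => (hpiece i (E i) (hEm i) (hEG i)).2⟩

theorem area_lim {a b c : ℝ≥0∞} (hc : c ≠ ⊤) (h : ∀ η : ℝ, 0 < η → a ≤ b + ENNReal.ofReal η * c) :
    a ≤ b := by
  have h1 : Tendsto (fun η : ℝ => b + ENNReal.ofReal η * c) (𝓝[>] 0)
      (𝓝 (b + ENNReal.ofReal 0 * c)) := by
    refine Tendsto.const_add b ?_
    refine ENNReal.Tendsto.mul_const ?_ (Or.inr hc)
    exact (ENNReal.continuous_ofReal.tendsto 0).mono_left nhdsWithin_le_nhds
  rw [ENNReal.ofReal_zero, zero_mul, add_zero] at h1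
  exact ge_of_tendsto h1 (eventually_mem_nhdsWithin.mono fun η hη => h η hη)

theorem area_jump {Ω : Set ℂ} {u : ℂ → ℝ} {g j : ℂ → ℂ} (h : SBVData Ω u g j) {Φ Ψ : ℂ → ℂ}
    (hΦ : ContDiff ℝ 1 Φ) (hΨ : ContDiff ℝ 1 Ψ)
    (h1 : ∀ x, Ψ (Φ x) = x) (h2 : ∀ y, Φ (Ψ y) = y) {K : Set ℂ} (hK : IsCompact K)
    (hKΩ : K ⊆ Ω) {B : Set ℂ} (hB : MeasurableSet B) (hBK : B ⊆ K) :
    (μH[1] : Measure ℂ) (Φ '' (jumpSet Ω u ∩ B)) = ∫⁻ x in B, tfac Φ j x ∂(μH[1] : Measure ℂ) := by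
  obtain ⟨C, j', hC, hCJ, hCn, hj', hjj⟩ := jump_rep h hK hKΩ
  have hCm : MeasurableSet C := by
    obtain ⟨κ, hκ, hκC⟩ := hC
    rw [← hκC]
    exact MeasurableSet.iUnion fun i => (hκ i).measurableSet
  obtain ⟨R, hR⟩ := hK.isBounded.subset_closedBall (0 : ℂ)
  -- the measure of `C` is finite
  have hJd : jumpSet Ω u ⊆ discSet Ω u := by
    rintro x ⟨hxΩ, a, b, ν, hj⟩
    refine ⟨hxΩ, ?_⟩
    rintro ⟨z, hz⟩
    obtain ⟨U, hU, hUi⟩ := h.intu x hxΩ
    rw [h.isOpen.nhdsWithin_eq hxΩ] at hU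
    exact not_isApproxLim_of_isJump hU hUi hj z hz
  have hfin : (μH[1] : Measure ℂ) (C ∩ B) ≠ ⊤ := by
    refine ne_top_of_le_ne_top (h.fin_S K hK hKΩ).ne (measure_mono ?_)
    intro x hx
    exact ⟨hJd (hCJ hx.1).1, (hCJ hx.1).2⟩
  -- the image
  have h3 : (μH[1] : Measure ℂ) (Φ '' (jumpSet Ω u ∩ B)) = (μH[1] : Measure ℂ) (Φ '' (C ∩ B)) := by
    apply le_antisymm
    · have h4 : Φ '' (jumpSet Ω u ∩ B) ⊆ Φ '' (C ∩ B) ∪ Φ '' ((jumpSet Ω u ∩ K) \ C) := by
        rw [← image_union]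
        apply image_mono
        intro x hx
        by_cases hxC : x ∈ C
        · exact Or.inl ⟨hxC, hx.2⟩
        · exact Or.inr ⟨⟨hx.1, hBK hx.2⟩, hxC⟩
      have h5 : (μH[1] : Measure ℂ) (Φ '' ((jumpSet Ω u ∩ K) \ C)) = 0 := by
        have hc : Continuous (fderiv ℝ Φ) := hΦ.continuous_fderiv (by norm_num)
        obtain ⟨M, hM⟩ := (isCompact_closedBall (0 : ℂ) R).exists_bound_of_continuousOn
          hc.continuousOn
        have h6 : LipschitzOnWith (Real.toNNReal M) Φ (closedBall 0 R) := by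
          refine (convex_closedBall (0 : ℂ) R).lipschitzOnWith_of_nnnorm_fderiv_le
            (𝕜 := ℝ) (fun x _ => (hΦ.differentiable (by norm_num)).differentiableAt) ?_
          intro x hx
          rw [← NNReal.coe_le_coe, coe_nnnorm]
          exact (hM x hx).trans (Real.le_coe_toNNReal M)
        have h7 := (h6.mono (show (jumpSet Ω u ∩ K) \ C ⊆ closedBall 0 R from
          fun x hx => hR hx.1.2)).hausdorffMeasure_image_le (d := 1) zero_le_one
        rw [hCn, mul_zero] at h7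
        exact le_antisymm h7 zero_le
      calc (μH[1] : Measure ℂ) (Φ '' (jumpSet Ω u ∩ B)) ≤ _ := measure_mono h4
        _ ≤ _ := measure_union_le _ _
        _ = _ := by rw [h5, add_zero]
    · exact measure_mono (image_mono fun x hx => ⟨(hCJ hx.1).1, hx.2⟩)
  -- the integral
  have h4 : ∫⁻ x in B, tfac Φ j x ∂(μH[1] : Measure ℂ) =
      ∫⁻ x in C ∩ B, tfac Φ j' x ∂(μH[1] : Measure ℂ) := by
    have h5 : ∫⁻ x in B, tfac Φ j x ∂(μH[1] : Measure ℂ) =
        ∫⁻ x in B, C.indicator (tfac Φ j') x ∂(μH[1] : Measure ℂ) := by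
      refine lintegral_congr_ae ?_
      rw [EventuallyEq, ae_restrict_iff' hB, ae_iff]
      refine measure_mono_null ?_ hCn
      intro x hx
      simp only [mem_ofPred_eq, Classical.not_imp] at hx
      have hxC : x ∉ C := by
        intro hxC
        apply hx.2
        rw [indicator_of_mem hxC, tfac, tfac, hjj x hxC]
      refine ⟨⟨?_, hBK hx.1⟩, hxC⟩
      by_contra hxJ
      apply hx.2
      rw [indicator_of_notMem hxC, tfac]
      have hxΩ : x ∈ Ω := hKΩ (hBK hx.1)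
      rcases h.jf x hxΩ with ⟨a, b, ν, hj, hjx⟩ | hno
      · exact absurd ⟨hxΩ, a, b, ν, hj⟩ hxJ
      · rw [hno.2]
        simp
    rw [h5, lintegral_indicator hCm, Measure.restrict_restrict hCm]
  rw [h3, h4]
  have h5 := fun η (hη : (0 : ℝ) < η) => area_approx h hΦ hΨ h1 h2 (hCm.inter hB)
    (fun x hx => hR (hCJ hx.1).2) (fun x hx => (hCJ hx.1).1) hj' (fun x hx => hjj x hx.1) hη
  exact le_antisymm (area_lim hfin fun η hη => (h5 η hη).1)
    (area_lim hfin fun η hη => (h5 η hη).2)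

end Pool.Agent.MP099f24
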