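import Pool.Agent.Lib.MP_099f24_an.SD.Defs

/-!
# The approximate discontinuity set is Borel (MP_099f24_an, module MEASS)
-/

set_option autoImplicit false

namespace Pool.Agent.MP099f24

open MeasureTheory Filter Topology Set Metric
open scoped ENNReal ContDiff

theorem meass_meas {f : ℂ → ℝ≥0∞} (hf : Measurable f) (r : ℝ) :
    Measurable fun x : ℂ => ∫⁻ y in ball x r, f y := by
  have h : (fun x : ℂ => ∫⁻ y in ball x r, f y) = fun x => ∫⁻ y,
      ({p : ℂ × ℂ | dist p.2 p.1 < r}.indicator (fun p => f p.2)) (x, y) := by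
    funext x
    rw [← lintegral_indicator measurableSet_ball]
    rfl
  rw [h]
  exact Measurable.lintegral_prod_right' ((hf.comp measurable_snd).indicator
    (measurableSet_lt (measurable_snd.dist measurable_fst) measurable_const))

theorem meass_vol (x : ℂ) (r : ℝ) :
    (volume : Measure ℂ) (ball x r) = volume (ball (0 : ℂ) r) := by
  rw [Complex.volume_ball, Complex.volume_ball]

theorem meass_vol_pos {r : ℝ} (hr : 0 < r) : 0 < ((volume : Measure ℂ) (ball (0 : ℂ) r)).toReal :=
  ENNReal.toReal_pos (measure_ball_pos _ _ hr).ne' measure_ball_lt_top.ne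

theorem meass_avg {w : ℂ → ℝ} {x : ℂ} {r : ℝ} (hr : 0 < r) (hw : IntegrableOn w (ball x r))
    (q : ℝ) {c : ℝ} (hc : 0 ≤ c) : (⨍ y in ball x r, |w y - q|) ≤ c ↔
      ∫⁻ y in ball x r, ‖w y - q‖ₑ ≤ ENNReal.ofReal c * volume (ball (0 : ℂ) r) := by
  have hwq : IntegrableOn (fun y => w y - q) (ball x r) :=
    hw.sub (integrableOn_const measure_ball_lt_top.ne)
  have hI : ∫⁻ y in ball x r, ‖w y - q‖ₑ ≠ ⊤ := hwq.2.ne
  have hV := meass_vol_pos hr
  have e : ∫ y in ball x r, |w y - q| = (∫⁻ y in ball x r, ‖w y - q‖ₑ).toReal := by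
    rw [← integral_norm_eq_lintegral_enorm hwq.1]
    rfl
  rw [setAverage_eq, e, smul_eq_mul, Measure.real, meass_vol, inv_mul_le_iff₀ hV,
    ← ENNReal.toReal_le_toReal hI (ENNReal.mul_ne_top ENNReal.ofReal_ne_top
      measure_ball_lt_top.ne), ENNReal.toReal_mul, ENNReal.toReal_ofReal hc, mul_comm c]

/-- The triangle inequality for the averages. -/
theorem meass_tri {w : ℂ → ℝ} {x : ℂ} {r : ℝ} (hr : 0 < r) (hw : IntegrableOn w (ball x r))
    (p q : ℝ) : (⨍ y in ball x r, |w y - p|) ≤ (⨍ y in ball x r, |w y - q|) + |q - p| := by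
  have hV := meass_vol_pos hr
  have h1 : ∀ q : ℝ, IntegrableOn (fun y => |w y - q|) (ball x r) := fun q =>
    (hw.sub (integrableOn_const measure_ball_lt_top.ne)).abs
  have h2 : ∫ y in ball x r, |w y - p| ≤ (∫ y in ball x r, |w y - q|) +
      (volume (ball (0 : ℂ) r)).toReal * |q - p| := by
    have e : ∫ _ in ball x r, |q - p| = (volume (ball (0 : ℂ) r)).toReal * |q - p| := by
      rw [setIntegral_const, smul_eq_mul, Measure.real, meass_vol]
    rw [← e, ← integral_add (h1 q) (integrableOn_const measure_ball_lt_top.ne)]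
    apply setIntegral_mono (h1 p) ((h1 q).add (integrableOn_const measure_ball_lt_top.ne))
    intro y
    have : w y - p = (w y - q) + (q - p) := by ring
    simp only [this]
    exact abs_add_le _ _
  rw [setAverage_eq, setAverage_eq, smul_eq_mul, smul_eq_mul, Measure.real, meass_vol]
  have h3 := mul_le_mul_of_nonneg_left h2 (inv_nonneg.2 hV.le)
  calc _ ≤ _ := h3
    _ = _ := by rw [mul_add, ← mul_assoc, inv_mul_cancel₀ hV.ne', one_mul]

theorem meass_const_le {w : ℂ → ℝ} {x : ℂ} {r : ℝ} (hr : 0 < r) (hw : IntegrableOn w (ball x r))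
    (p q : ℝ) : |q - p| ≤ (⨍ y in ball x r, |w y - p|) + (⨍ y in ball x r, |w y - q|) := by
  have hV := meass_vol_pos hr
  have h1 : ∀ q : ℝ, IntegrableOn (fun y => |w y - q|) (ball x r) := fun q =>
    (hw.sub (integrableOn_const measure_ball_lt_top.ne)).abs
  have h2 : (volume (ball (0 : ℂ) r)).toReal * |q - p| ≤ (∫ y in ball x r, |w y - p|) +
      ∫ y in ball x r, |w y - q| := by
    have e : ∫ _ in ball x r, |q - p| = (volume (ball (0 : ℂ) r)).toReal * |q - p| := by
      rw [setIntegral_const, smul_eq_mul, Measure.real, meass_vol]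
    rw [← e, ← integral_add (h1 p) (h1 q)]
    apply setIntegral_mono (integrableOn_const measure_ball_lt_top.ne) ((h1 p).add (h1 q))
    intro y
    have : q - p = (w y - p) - (w y - q) := by ring
    simp only [this]
    exact abs_sub _ _
  rw [setAverage_eq, setAverage_eq, smul_eq_mul, smul_eq_mul, Measure.real, meass_vol]
  have h3 := mul_le_mul_of_nonneg_left h2 (inv_nonneg.2 hV.le)
  calc _ = _ := by rw [← mul_assoc, inv_mul_cancel₀ hV.ne', one_mul]
    _ ≤ _ := h3
    _ = _ := by rw [mul_add]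

theorem measurableSet_discSet {Ω : Set ℂ} {u : ℂ → ℝ} (hΩ : IsOpen Ω)
    (hu : LocallyIntegrableOn u Ω) : MeasurableSet (discSet Ω u) := by
  obtain ⟨v, hv, huv⟩ := hu.aestronglyMeasurable
  have hint : ∀ {x : ℂ} {δ r : ℝ}, ball x δ ⊆ Ω → r < δ → IntegrableOn u (ball x r) := by
    intro x δ r h1 h2
    exact (hu.integrableOn_compact_subset ((closedBall_subset_ball h2).trans h1)
      (isCompact_closedBall x r)).mono_set ball_subset_closedBall
  have hcg : ∀ {x : ℂ} {δ r : ℝ} (q : ℝ), ball x δ ⊆ Ω → r < δ →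
      ∫⁻ y in ball x r, ‖v y - q‖ₑ = ∫⁻ y in ball x r, ‖u y - q‖ₑ := by
    intro x δ r q h1 h2
    apply lintegral_congr_ae
    have : u =ᵐ[volume.restrict (ball x r)] v :=
      ae_restrict_of_ae_restrict_of_subset ((ball_subset_ball h2.le).trans h1) huv
    filter_upwards [this] with y hy
    rw [hy]
  have key : discSet Ω u = Ω \ ⋂ n : ℕ, ⋃ q : ℚ, ⋃ m : ℕ,
      ({x : ℂ | ball x (1 / ((m : ℝ) + 1)) ⊆ Ω} ∩ ⋂ r : ℚ, ⋂ (_ : 0 < (r : ℝ)),
        ⋂ (_ : (r : ℝ) < 1 / ((m : ℝ) + 1)),
        {x : ℂ | ∫⁻ y in ball x (r : ℝ), ‖v y - (q : ℝ)‖ₑ ≤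
          ENNReal.ofReal (1 / ((n : ℝ) + 1)) * volume (ball (0 : ℂ) (r : ℝ))}) := by
    ext x
    simp only [discSet, mem_ofPred_eq, Set.mem_sdiff, mem_iInter, mem_iUnion, mem_inter_iff]
    refine and_congr_right fun hx => not_congr ⟨?_, ?_⟩
    · rintro ⟨z, hz⟩ n
      have hn : (0 : ℝ) < 1 / (2 * ((n : ℝ) + 1)) := by positivity
      obtain ⟨q, hq1, hq2⟩ := exists_rat_btwn (show z < z + 1 / (2 * ((n : ℝ) + 1)) by linarith)
      have h1 := hz.eventually (gt_mem_nhds hn)
      rw [eventually_nhdsWithin_iff, Metric.eventually_nhds_iff] at h1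
      obtain ⟨ε, hε, h1⟩ := h1
      obtain ⟨ε', hε', h2⟩ := Metric.isOpen_iff.1 hΩ x hx
      obtain ⟨m, hm⟩ := exists_nat_one_div_lt (lt_min hε hε')
      refine ⟨q, m, (ball_subset_ball (hm.le.trans (min_le_right _ _))).trans h2, ?_⟩
      intro r hr0 hrm
      have hb : ball x (1 / ((m : ℝ) + 1)) ⊆ Ω :=
        (ball_subset_ball (hm.le.trans (min_le_right _ _))).trans h2
      rw [hcg (q : ℝ) hb hrm, ← meass_avg hr0 (hint hb hrm) _ (by positivity)]
      have h3 := @h1 (r : ℝ) (by
        rw [Real.dist_eq, sub_zero, abs_of_pos hr0]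
        exact hrm.trans (hm.trans_le (min_le_left _ _))) hr0
      have h4 := meass_tri hr0 (hint hb hrm) (q : ℝ) z
      have h5 : |z - (q : ℝ)| ≤ 1 / (2 * ((n : ℝ) + 1)) := by
        rw [abs_le]; constructor <;> linarith
      have h6 : (1 : ℝ) / ((n : ℝ) + 1) = 1 / (2 * ((n : ℝ) + 1)) + 1 / (2 * ((n : ℝ) + 1)) := by
        field_simp; norm_num
      rw [h6]
      linarith
    · intro h
      choose q m hb hr using h
      -- all small real radii
      have hsm : ∀ n : ℕ, ∀ r : ℝ, 0 < r → r < 1 / ((m n : ℝ) + 1) / 2 →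
          (⨍ y in ball x r, |u y - (q n : ℝ)|) ≤ 4 / ((n : ℝ) + 1) := by
        intro n r hr0 hr1
        obtain ⟨r', h1, h2⟩ := exists_rat_btwn (show r < 2 * r by linarith)
        have hr'0 : (0 : ℝ) < r' := hr0.trans h1
        have hr'1 : (r' : ℝ) < 1 / ((m n : ℝ) + 1) := by linarith
        have h3 := hr n r' hr'0 hr'1
        rw [hcg (q n : ℝ) (hb n) hr'1] at h3
        rw [meass_avg hr0 (hint (hb n) (h1.trans hr'1)) _ (by positivity)]
        calc ∫⁻ y in ball x r, ‖u y - (q n : ℝ)‖ₑ
            ≤ ∫⁻ y in ball x (r' : ℝ), ‖u y - (q n : ℝ)‖ₑ :=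
              lintegral_mono_set (ball_subset_ball h1.le)
          _ ≤ ENNReal.ofReal (1 / ((n : ℝ) + 1)) * volume (ball (0 : ℂ) (r' : ℝ)) := h3
          _ ≤ ENNReal.ofReal (1 / ((n : ℝ) + 1)) * (4 * volume (ball (0 : ℂ) r)) := by
            gcongr
            calc volume (ball (0 : ℂ) (r' : ℝ)) ≤ volume (ball (0 : ℂ) (2 * r)) :=
                  measure_mono (ball_subset_ball h2.le)
              _ = 4 * volume (ball (0 : ℂ) r) := by
                rw [Complex.volume_ball, Complex.volume_ball, ENNReal.ofReal_mul (by norm_num),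
                  mul_pow, ← mul_assoc]
                norm_num
          _ = ENNReal.ofReal (4 / ((n : ℝ) + 1)) * volume (ball (0 : ℂ) r) := by
            rw [← mul_assoc]
            congr 1
            rw [show (4 : ℝ≥0∞) = ENNReal.ofReal 4 by norm_num,
              ← ENNReal.ofReal_mul (by positivity)]
            congr 1
            ring
      have hpos : ∀ n, (0 : ℝ) < 1 / ((m n : ℝ) + 1) / 2 := fun n => by positivity
      have hint' : ∀ n : ℕ, ∀ r : ℝ, 0 < r → r < 1 / ((m n : ℝ) + 1) / 2 →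
          IntegrableOn u (ball x r) := fun n r h0 h1 =>
        hint (hb n) (by linarith [hpos n])
      have hqq : ∀ n k, |(q k : ℝ) - q n| ≤ 4 / ((n : ℝ) + 1) + 4 / ((k : ℝ) + 1) := by
        intro n k
        obtain ⟨r, hr0, hr1⟩ := exists_between (lt_min (hpos n) (hpos k))
        have h1 := hsm n r hr0 (hr1.trans_le (min_le_left _ _))
        have h2 := hsm k r hr0 (hr1.trans_le (min_le_right _ _))
        have h3 := meass_const_le hr0 (hint' n r hr0 (hr1.trans_le (min_le_left _ _)))
          (q n : ℝ) (q k : ℝ)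
        linarith
      have hlim : Tendsto (fun n : ℕ => 4 / ((n : ℝ) + 1)) atTop (𝓝 0) := by
        have := (tendsto_one_div_add_atTop_nhds_zero_nat (𝕜 := ℝ)).const_mul 4
        simpa [mul_one_div, div_eq_mul_inv] using this
      have hcau : CauchySeq fun n : ℕ => (q n : ℝ) := by
        rw [Metric.cauchySeq_iff']
        intro ε hε
        obtain ⟨N, hN⟩ := (hlim.eventually (gt_mem_nhds (half_pos hε))).exists_forall_of_atTop
        refine ⟨N, fun n hn => ?_⟩
        rw [Real.dist_eq]
        have h1 := hN N le_rfl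
        have h2 := hN n hn
        have h3 := hqq N n
        linarith
      obtain ⟨z, hz⟩ := cauchySeq_tendsto_of_complete hcau
      have hzn : ∀ n : ℕ, |(q n : ℝ) - z| ≤ 4 / ((n : ℝ) + 1) := by
        intro n
        have h1 : Tendsto (fun k : ℕ => |(q n : ℝ) - q k|) atTop (𝓝 |(q n : ℝ) - z|) :=
          (tendsto_const_nhds.sub hz).abs
        have h2 : Tendsto (fun k : ℕ => 4 / ((k : ℝ) + 1) + 4 / ((n : ℝ) + 1)) atTop
            (𝓝 (0 + 4 / ((n : ℝ) + 1))) := hlim.add tendsto_const_nhds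
        rw [zero_add] at h2
        exact le_of_tendsto_of_tendsto' h1 h2 fun k => hqq k n
      refine ⟨z, ?_⟩
      unfold IsApproxLim
      rw [Metric.tendsto_nhdsWithin_nhds]
      intro ε hε
      obtain ⟨n, hn⟩ := (hlim.eventually (gt_mem_nhds (half_pos hε))).exists
      refine ⟨1 / ((m n : ℝ) + 1) / 2, hpos n, fun r hr0 hr1 => ?_⟩
      rw [Real.dist_eq, sub_zero, abs_of_pos hr0] at hr1
      have h0 : 0 ≤ ⨍ y in ball x r, |u y - z| := by
        rw [setAverage_eq]
        exact smul_nonneg (inv_nonneg.2 measureReal_nonneg)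
          (integral_nonneg fun y => abs_nonneg _)
      rw [Real.dist_eq, sub_zero, abs_of_nonneg h0]
      have h1 := hsm n r hr0 hr1
      have h2 := meass_tri hr0 (hint' n r hr0 hr1) z (q n : ℝ)
      have h3 := hzn n
      linarith
  rw [key]
  refine hΩ.measurableSet.diff (MeasurableSet.iInter fun n => MeasurableSet.iUnion fun q =>
    MeasurableSet.iUnion fun m => MeasurableSet.inter ?_ (MeasurableSet.iInter fun r =>
      MeasurableSet.iInter fun _ => MeasurableSet.iInter fun _ => ?_))
  · have : {x : ℂ | ball x (1 / ((m : ℝ) + 1)) ⊆ Ω} = (thickening (1 / ((m : ℝ) + 1)) Ωᶜ)ᶜ := by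
      ext x
      simp only [mem_ofPred_eq, mem_compl_iff, mem_thickening_iff, not_exists, not_and, not_lt]
      constructor
      · intro h y hy
        by_contra hc
        push Not at hc
        exact hy (h (by rw [mem_ball, dist_comm]; exact hc))
      · intro h y hy
        by_contra hc
        have := h y hc
        rw [mem_ball, dist_comm] at hy
        linarith
    rw [this]
    exact isOpen_thickening.measurableSet.compl
  · refine measurableSet_le (meass_meas ?_ _) measurable_const
    exact (hv.measurable.sub measurable_const).enorm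

end Pool.Agent.MP099f24
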