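import Mathlib
import Pool.Agent.Lib.MP_099f24_an.SD.Defs
import Pool.Agent.Lib.MP_099f24_an.JumpBasic

/-!
# Approximate limits and jumps under diffeomorphisms (module DIFFEO)
-/

namespace Pool.Agent.MP099f24

open MeasureTheory Filter Topology Set Metric
open scoped ENNReal ContDiff

private lemma diffeo_line_null (x : ℂ) {ν : ℂ} (hν : ‖ν‖ = 1) :
    (volume : Measure ℂ) {z | inner ℝ (z - x) ν = 0} = 0 := by
  have h1 : {z : ℂ | inner ℝ (z - x) ν = 0} = (fun z => z - x) ⁻¹' {w | inner ℝ w ν = 0} := rfl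
  rw [h1, (measurePreserving_sub_right (volume : Measure ℂ) x).measure_preimage]
  · have h2 : {w : ℂ | inner ℝ w ν = 0} = ((LinearMap.ker (innerSL ℝ ν).toLinearMap :
        Submodule ℝ ℂ) : Set ℂ) := by
      ext w
      simp only [mem_ofPred_eq, SetLike.mem_coe, LinearMap.mem_ker]
      change inner ℝ w ν = 0 ↔ inner ℝ ν w = 0
      rw [real_inner_comm]
    rw [h2]
    refine Measure.addHaar_submodule _ _ fun htop => ?_
    have h3 : ν ∈ (LinearMap.ker (innerSL ℝ ν).toLinearMap : Submodule ℝ ℂ) := by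
      rw [htop]
      trivial
    rw [LinearMap.mem_ker] at h3
    have h4 : inner ℝ ν ν = (0 : ℝ) := h3
    rw [real_inner_self_eq_norm_sq, hν] at h4
    norm_num at h4
  · exact (measurableSet_eq_fun (by fun_prop) (by fun_prop)).nullMeasurableSet

/-- The unit strip. -/
private def diffeoS (ν : ℂ) (L δ : ℝ) : Set ℂ :=
  ball (0 : ℂ) L ∩ {w | -δ < inner ℝ w ν ∧ inner ℝ w ν ≤ 0}

private lemma diffeoS_meas (ν : ℂ) (L δ : ℝ) : MeasurableSet (diffeoS ν L δ) := by
  have h1 : Measurable fun w : ℂ => inner ℝ w ν := by fun_prop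
  have h2 : {w : ℂ | -δ < inner ℝ w ν ∧ inner ℝ w ν ≤ 0} =
      {w : ℂ | -δ < inner ℝ w ν} ∩ {w : ℂ | inner ℝ w ν ≤ 0} := by
    ext w
    rfl
  unfold diffeoS
  rw [h2]
  exact measurableSet_ball.inter ((measurableSet_lt measurable_const h1).inter
    (measurableSet_le h1 measurable_const))

private lemma diffeoS_small {ν : ℂ} (hν : ‖ν‖ = 1) (L : ℝ) {η : ℝ} (hη : 0 < η) :
    ∃ δ : ℝ, 0 < δ ∧ (volume : Measure ℂ) (diffeoS ν L δ) ≤ ENNReal.ofReal η := by
  set s : ℕ → Set ℂ := fun n => diffeoS ν L (1 / ((n : ℝ) + 1)) with hs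
  have hanti : Antitone s := by
    intro m n hmn w hw
    refine ⟨hw.1, lt_of_le_of_lt ?_ hw.2.1, hw.2.2⟩
    have : 1 / ((n : ℝ) + 1) ≤ 1 / ((m : ℝ) + 1) := by
      apply one_div_le_one_div_of_le (by positivity)
      have : (m : ℝ) ≤ n := by exact_mod_cast hmn
      linarith
    linarith
  have hfin : ∀ n, (volume : Measure ℂ) (s n) ≠ ⊤ := fun n =>
    ne_top_of_le_ne_top measure_ball_lt_top.ne (measure_mono inter_subset_left)
  have hlim := tendsto_measure_iInter_atTop (μ := (volume : Measure ℂ)) (s := s)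
    (fun n => (diffeoS_meas ν L _).nullMeasurableSet) hanti ⟨0, hfin 0⟩
  have hzero : (volume : Measure ℂ) (⋂ n, s n) = 0 := by
    refine measure_mono_null ?_ (diffeo_line_null 0 hν)
    intro w hw
    rw [mem_iInter] at hw
    rw [mem_ofPred_eq, sub_zero]
    refine le_antisymm (hw 0).2.2 ?_
    have h1 : Tendsto (fun n : ℕ => -(1 / ((n : ℝ) + 1))) atTop (𝓝 (-0)) :=
      tendsto_one_div_add_atTop_nhds_zero_nat.neg
    rw [neg_zero] at h1
    exact le_of_tendsto h1 (Eventually.of_forall fun n => (hw n).2.1.le)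
  rw [hzero] at hlim
  obtain ⟨n, hn⟩ := (hlim.eventually_le_const (ENNReal.ofReal_pos.2 hη)).exists
  exact ⟨1 / ((n : ℝ) + 1), by positivity, hn⟩

private lemma diffeo_strip (x : ℂ) {ν : ℂ} (L δ : ℝ) {r : ℝ} (hr : 0 < r) {η : ℝ} (hη : 0 ≤ η)
    (h : (volume : Measure ℂ) (diffeoS ν L δ) ≤ ENNReal.ofReal η) :
    (volume : Measure ℂ).real (ball x (L * r) ∩
      {z | -(δ * r) < inner ℝ (z - x) ν ∧ inner ℝ (z - x) ν ≤ 0}) ≤ η * r ^ 2 := by
  have h1 : ball x (L * r) ∩ {z | -(δ * r) < inner ℝ (z - x) ν ∧ inner ℝ (z - x) ν ≤ 0} =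
      (fun z => z - x) ⁻¹' ((fun w : ℂ => r⁻¹ • w) ⁻¹' (diffeoS ν L δ)) := by
    ext z
    simp only [mem_inter_iff, mem_ball, mem_ofPred_eq, mem_preimage, diffeoS, dist_zero_right,
      norm_smul, norm_inv, Real.norm_of_nonneg hr.le, real_inner_smul_left]
    rw [dist_eq_norm, inv_mul_lt_iff₀ hr, mul_comm r L]
    refine and_congr_right fun _ => and_congr ?_ ?_
    · rw [← neg_mul, mul_comm (-δ) r, ← lt_inv_mul_iff₀ hr]
    · constructor
      · intro h2
        exact mul_nonpos_of_nonneg_of_nonpos (inv_nonneg.2 hr.le) h2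
      · intro h2
        by_contra h3
        push Not at h3
        have := mul_pos (inv_pos.2 hr) h3
        linarith
  rw [h1, measureReal_def,
    (measurePreserving_sub_right (volume : Measure ℂ) x).measure_preimage
      (((measurable_const_smul r⁻¹) (diffeoS_meas ν L δ)).nullMeasurableSet),
    Measure.addHaar_preimage_smul _ (inv_ne_zero hr.ne'), ENNReal.toReal_mul,
    ENNReal.toReal_ofReal (abs_nonneg _), Complex.finrank_real_complex]
  have h2 : |((r⁻¹) ^ 2)⁻¹| = r ^ 2 := by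
    rw [inv_pow, inv_inv, abs_of_pos (by positivity)]
  rw [h2, mul_comm]
  refine mul_le_mul_of_nonneg_right ?_ (by positivity)
  exact ENNReal.toReal_le_of_le_ofReal hη h

/-- Change of variables with an upper bound for the Jacobian determinant. -/
private lemma diffeo_cov {u : ℂ → ℝ} {Φ Ψ : ℂ → ℂ} (hΦ : ContDiff ℝ 1 Φ)
    (h1 : ∀ x, Ψ (Φ x) = x) (h2 : ∀ y, Φ (Ψ y) = y) (z C : ℝ) {H T : Set ℂ}
    (hH : MeasurableSet H) (hHT : ∀ y ∈ H, Ψ y ∈ T)
    (hC : ∀ w ∈ T, |(fderiv ℝ Φ w).det| ≤ C)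
    (hu : IntegrableOn (fun w => |u w - z|) T) :
    ∫ y in H, |u (Ψ y) - z| ≤ C * ∫ w in T, |u w - z| := by
  have hinj : Function.Injective Φ := fun a b hab => by rw [← h1 a, hab, h1 b]
  have himg : Φ '' (Φ ⁻¹' H) = H := image_preimage_eq H fun y => ⟨Ψ y, h2 y⟩
  have hsub : Φ ⁻¹' H ⊆ T := by
    intro w hw
    have := hHT _ hw
    rwa [h1] at this
  have hs : MeasurableSet (Φ ⁻¹' H) := hΦ.continuous.measurable hH
  have e1 := integral_image_eq_integral_abs_det_fderiv_smul (volume : Measure ℂ) hs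
    (fun w _ => ((hΦ.differentiable one_ne_zero) w).hasFDerivAt.hasFDerivWithinAt)
    hinj.injOn (fun y => |u (Ψ y) - z|)
  rw [himg] at e1
  rw [e1]
  have hus : IntegrableOn (fun w => |u w - z|) (Φ ⁻¹' H) := hu.mono_set hsub
  have e2 : ∫ w in Φ ⁻¹' H, |(fderiv ℝ Φ w).det| • |u (Ψ (Φ w)) - z| ≤
      ∫ w in Φ ⁻¹' H, C * |u w - z| := by
    refine integral_mono_of_nonneg ?_ (hus.const_mul C) ?_
    · exact Eventually.of_forall fun w => smul_nonneg (abs_nonneg _) (abs_nonneg _)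
    · refine (ae_restrict_iff' hs).2 (Eventually.of_forall fun w hw => ?_)
      simp only [smul_eq_mul, h1]
      exact mul_le_mul_of_nonneg_right (hC w (hsub hw)) (abs_nonneg _)
  refine e2.trans ?_
  rw [integral_const_mul]
  by_cases hC0 : 0 ≤ C
  · refine mul_le_mul_of_nonneg_left ?_ hC0
    exact setIntegral_mono_set hu (Eventually.of_forall fun w => abs_nonneg _)
      hsub.eventuallyLE
  · -- then `T` is empty
    have hTe : T = ∅ := by
      by_contra hne
      obtain ⟨w, hw⟩ := nonempty_iff_ne_empty.2 hne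
      exact hC0 ((abs_nonneg _).trans (hC w hw))
    have : Φ ⁻¹' H = ∅ := subset_empty_iff.1 (hTe ▸ hsub)
    rw [this, hTe]

/-- Local bounds. -/
private lemma diffeo_local {Φ Ψ : ℂ → ℂ} (hΦ : ContDiff ℝ 1 Φ) (hΨ : ContDiff ℝ 1 Ψ)
    (h1 : ∀ x, Ψ (Φ x) = x) {x : ℂ} {U : Set ℂ} (hU : U ∈ 𝓝 x) :
    ∃ C L ρ : ℝ, 0 < C ∧ 0 < L ∧ 0 < ρ ∧ ball x (L * ρ) ⊆ U ∧
      (∀ w ∈ ball x (L * ρ), |(fderiv ℝ Φ w).det| ≤ C) ∧
      ∀ r, 0 < r → r < ρ → ∀ y ∈ ball (Φ x) r, Ψ y ∈ ball x (L * r) := by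
  have hcont : Continuous fun w => |(fderiv ℝ Φ w).det| :=
    (ContinuousLinearMap.continuous_det.comp (hΦ.continuous_fderiv one_ne_zero)).abs
  set C : ℝ := |(fderiv ℝ Φ x).det| + 1 with hC
  have hC0 : 0 < C := by positivity
  have hev : ∀ᶠ w in 𝓝 x, |(fderiv ℝ Φ w).det| < C ∧ w ∈ U :=
    (hcont.continuousAt.eventually_lt_const (by linarith)).and hU
  obtain ⟨ε, hε, hεU⟩ := Metric.eventually_nhds_iff_ball.1 hev
  set L : ℝ := ‖fderiv ℝ Ψ (Φ x)‖ + 1 with hL
  have hL0 : 0 < L := by positivity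
  have hd : HasFDerivAt Ψ (fderiv ℝ Ψ (Φ x)) (Φ x) :=
    ((hΨ.differentiable one_ne_zero) (Φ x)).hasFDerivAt
  have hlip : ∀ᶠ y in 𝓝 (Φ x), ‖Ψ y - Ψ (Φ x)‖ ≤ L * ‖y - Φ x‖ := by
    have h3 := hd.isLittleO.def (c := 1) one_pos
    filter_upwards [h3] with y hy
    have h4 : ‖Ψ y - Ψ (Φ x)‖ ≤ ‖Ψ y - Ψ (Φ x) - fderiv ℝ Ψ (Φ x) (y - Φ x)‖ +
        ‖fderiv ℝ Ψ (Φ x) (y - Φ x)‖ := by
      have := norm_add_le (Ψ y - Ψ (Φ x) - fderiv ℝ Ψ (Φ x) (y - Φ x))
        (fderiv ℝ Ψ (Φ x) (y - Φ x))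
      rwa [sub_add_cancel] at this
    have h5 := (fderiv ℝ Ψ (Φ x)).le_opNorm (y - Φ x)
    rw [hL]
    nlinarith [norm_nonneg (y - Φ x)]
  obtain ⟨ρ₁, hρ₁, hρ₁'⟩ := Metric.eventually_nhds_iff_ball.1 hlip
  refine ⟨C, L, min ρ₁ (ε / L), hC0, hL0, by positivity, ?_, ?_, ?_⟩
  · intro w hw
    refine (hεU w (ball_subset_ball ?_ hw)).2
    calc L * min ρ₁ (ε / L) ≤ L * (ε / L) := by
          exact mul_le_mul_of_nonneg_left (min_le_right _ _) hL0.le
      _ = ε := by field_simp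
  · intro w hw
    refine (hεU w (ball_subset_ball ?_ hw)).1.le
    calc L * min ρ₁ (ε / L) ≤ L * (ε / L) := by
          exact mul_le_mul_of_nonneg_left (min_le_right _ _) hL0.le
      _ = ε := by field_simp
  · intro r hr hrρ y hy
    have h3 := hρ₁' y (ball_subset_ball (hrρ.le.trans (min_le_left _ _)) hy)
    rw [h1] at h3
    rw [mem_ball, dist_eq_norm] at hy ⊢
    exact lt_of_le_of_lt h3 (mul_lt_mul_of_pos_left hy hL0)

theorem approxLim_comp {u : ℂ → ℝ} {Φ Ψ : ℂ → ℂ} (hΦ : ContDiff ℝ 1 Φ) (hΨ : ContDiff ℝ 1 Ψ)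
    (h1 : ∀ x, Ψ (Φ x) = x) (h2 : ∀ y, Φ (Ψ y) = y) {x : ℂ} {U : Set ℂ} (hU : U ∈ 𝓝 x)
    (hu : IntegrableOn u U) {z : ℝ} (hz : IsApproxLim u x z) :
    IsApproxLim (fun y => u (Ψ y)) (Φ x) z := by
  obtain ⟨C, L, ρ, hC, hL, hρ, hsub, hdet, hmap⟩ := diffeo_local hΦ hΨ h1 hU
  have hlim : Tendsto (fun r : ℝ => C * L ^ 2 * ⨍ y in ball x (L * r), |u y - z|) (𝓝[>] 0)
      (𝓝 (C * L ^ 2 * 0)) := by
    refine Tendsto.const_mul _ (hz.comp ?_)
    refine tendsto_nhdsWithin_iff.2 ⟨?_, ?_⟩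
    · have h3 : Tendsto (fun r : ℝ => L * r) (𝓝 0) (𝓝 (L * 0)) := tendsto_id.const_mul L
      rw [mul_zero] at h3
      exact h3.mono_left nhdsWithin_le_nhds
    · filter_upwards [self_mem_nhdsWithin] with r hr
      exact mul_pos hL hr
  rw [mul_zero] at hlim
  refine squeeze_zero' ?_ ?_ hlim
  · exact Eventually.of_forall fun r => by
      rw [setAverage_eq, smul_eq_mul]
      exact mul_nonneg (inv_nonneg.2 measureReal_nonneg) (integral_nonneg fun _ => abs_nonneg _)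
  · filter_upwards [Ioo_mem_nhdsGT hρ] with r hr
    have hr0 := hr.1
    have hTU : ball x (L * r) ⊆ U :=
      (ball_subset_ball (mul_le_mul_of_nonneg_left hr.2.le hL.le)).trans hsub
    have hi : IntegrableOn (fun w => |u w - z|) (ball x (L * r)) :=
      ((hu.mono_set hTU).sub (integrableOn_const measure_ball_lt_top.ne)).abs
    have h3 := diffeo_cov (u := u) hΦ h1 h2 z C measurableSet_ball
      (hmap r hr0 hr.2)
      (fun w hw => hdet w (ball_subset_ball (mul_le_mul_of_nonneg_left hr.2.le hL.le) hw)) hi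
    rw [setAverage_eq, setAverage_eq, smul_eq_mul, smul_eq_mul, jb_volume_ball _ hr0,
      jb_volume_ball _ (mul_pos hL hr0)]
    calc (Real.pi * r ^ 2)⁻¹ * ∫ y in ball (Φ x) r, |u (Ψ y) - z|
        ≤ (Real.pi * r ^ 2)⁻¹ * (C * ∫ w in ball x (L * r), |u w - z|) :=
          mul_le_mul_of_nonneg_left h3 (by positivity)
      _ = C * L ^ 2 * ((Real.pi * (L * r) ^ 2)⁻¹ * ∫ w in ball x (L * r), |u w - z|) := by
          field_simp

private lemma diffeo_halfBall_meas (x ν : ℂ) (r : ℝ) : MeasurableSet (halfBall x ν r) := by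
  have h1 : Measurable fun y : ℂ => inner ℝ (y - x) ν := by fun_prop
  unfold halfBall
  exact measurableSet_ball.inter (measurableSet_lt measurable_const h1)

private lemma diffeo_volume_halfBall_le (x ν : ℂ) {r : ℝ} (hr : 0 < r) :
    (volume : Measure ℂ).real (halfBall x ν r) ≤ Real.pi * r ^ 2 := by
  rw [← jb_volume_ball x hr]
  exact measureReal_mono inter_subset_left measure_ball_lt_top.ne

/-- One side of a jump. -/
private lemma diffeo_half {u : ℂ → ℝ} {Φ Ψ : ℂ → ℂ} (hΦ : ContDiff ℝ 1 Φ) (hΨ : ContDiff ℝ 1 Ψ)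
    (h1 : ∀ x, Ψ (Φ x) = x) (h2 : ∀ y, Φ (Ψ y) = y) {x : ℂ} {U : Set ℂ} (hU : U ∈ 𝓝 x)
    (hu : IntegrableOn u U) {a b : ℝ} {ν : ℂ} (hν : ‖ν‖ = 1)
    (ha : Tendsto (fun r : ℝ => ⨍ y in halfBall x ν r, |u y - a|) (𝓝[>] 0) (𝓝 0))
    (hb : Tendsto (fun r : ℝ => ⨍ y in halfBall x (-ν) r, |u y - b|) (𝓝[>] 0) (𝓝 0))
    {c : ℝ} (hc : 0 < c) {n : ℂ} (hn : ‖n‖ = 1)
    (hcn : n = c • ContinuousLinearMap.adjoint (fderiv ℝ Ψ (Φ x)) ν) :
    Tendsto (fun r : ℝ => ⨍ y in halfBall (Φ x) n r, |u (Ψ y) - a|) (𝓝[>] 0) (𝓝 0) := by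
  obtain ⟨C, L, ρ, hC, hL, hρ, hsub, hdet, hmap⟩ := diffeo_local hΦ hΨ h1 hU
  have hd : HasFDerivAt Ψ (fderiv ℝ Ψ (Φ x)) (Φ x) :=
    ((hΨ.differentiable one_ne_zero) (Φ x)).hasFDerivAt
  have hLr : Tendsto (fun r : ℝ => L * r) (𝓝[>] 0) (𝓝[>] 0) := by
    refine tendsto_nhdsWithin_iff.2 ⟨?_, ?_⟩
    · have h3 : Tendsto (fun r : ℝ => L * r) (𝓝 0) (𝓝 (L * 0)) := tendsto_id.const_mul L
      rw [mul_zero] at h3
      exact h3.mono_left nhdsWithin_le_nhds
    · filter_upwards [self_mem_nhdsWithin] with r hr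
      exact mul_pos hL hr
  have ha' := ha.comp hLr
  have hb' := hb.comp hLr
  -- the main estimate
  have key : ∀ η : ℝ, 0 < η → ∀ᶠ r : ℝ in 𝓝[>] 0,
      ⨍ y in halfBall (Φ x) n r, |u (Ψ y) - a| ≤
        4 * C * L ^ 2 * ((⨍ y in halfBall x ν (L * r), |u y - a|) +
          ⨍ y in halfBall x (-ν) (L * r), |u y - b|) + 4 * C / Real.pi * |a - b| * η := by
    intro η hη
    obtain ⟨δ, hδ, hδη⟩ := diffeoS_small hν L hη
    have hlo := hd.isLittleO.def (c := δ) hδ
    obtain ⟨ρ₁, hρ₁, hρ₁'⟩ := Metric.eventually_nhds_iff_ball.1 hlo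
    filter_upwards [Ioo_mem_nhdsGT hρ, Ioo_mem_nhdsGT hρ₁] with r hr hrρ
    have hr0 := hr.1
    have hTball : ball x (L * r) ⊆ ball x (L * ρ) :=
      ball_subset_ball (mul_le_mul_of_nonneg_left hr.2.le hL.le)
    have hTU : ball x (L * r) ⊆ U := hTball.trans hsub
    set Sr : Set ℂ := ball x (L * r) ∩
      {z | -(δ * r) < inner ℝ (z - x) ν ∧ inner ℝ (z - x) ν ≤ 0} with hSr
    have hSrm : MeasurableSet Sr := by
      have e1 : Measurable fun z : ℂ => inner ℝ (z - x) ν := by fun_prop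
      have e2 : {z : ℂ | -(δ * r) < inner ℝ (z - x) ν ∧ inner ℝ (z - x) ν ≤ 0} =
          {z : ℂ | -(δ * r) < inner ℝ (z - x) ν} ∩ {z : ℂ | inner ℝ (z - x) ν ≤ 0} := by
        ext z
        rfl
      rw [hSr, e2]
      exact measurableSet_ball.inter ((measurableSet_lt measurable_const e1).inter
        (measurableSet_le e1 measurable_const))
    have hSrv := diffeo_strip x (ν := ν) L δ hr0 hη.le hδη
    rw [← hSr] at hSrv
    set Hr : Set ℂ := halfBall x ν (L * r) with hHr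
    have hdisj : Disjoint Hr Sr := by
      rw [Set.disjoint_left]
      intro z hz hz'
      have e1 : 0 < inner ℝ (z - x) ν := hz.2
      have e2 : inner ℝ (z - x) ν ≤ 0 := hz'.2.2
      linarith
    have hiU : ∀ t : ℝ, IntegrableOn (fun w => |u w - t|) (ball x (L * r)) := fun t =>
      ((hu.mono_set hTU).sub (integrableOn_const measure_ball_lt_top.ne)).abs
    have hmem : ∀ y ∈ halfBall (Φ x) n r, Ψ y ∈ Hr ∪ Sr := by
      intro y hy
      have e1 := hmap r hr0 hr.2 y hy.1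
      have e2 := hρ₁' y (ball_subset_ball hrρ.2.le hy.1)
      rw [h1] at e2
      have e3 : 0 < inner ℝ (y - Φ x) n := hy.2
      rw [hcn, real_inner_smul_right, ContinuousLinearMap.adjoint_inner_right] at e3
      have e4 : 0 < inner ℝ (fderiv ℝ Ψ (Φ x) (y - Φ x)) ν := by
        by_contra hcon
        push Not at hcon
        have := mul_nonpos_of_nonneg_of_nonpos hc.le hcon
        linarith
      have e5 : inner ℝ (Ψ y - x) ν = inner ℝ (Ψ y - x - fderiv ℝ Ψ (Φ x) (y - Φ x)) ν +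
          inner ℝ (fderiv ℝ Ψ (Φ x) (y - Φ x)) ν := by
        rw [← inner_add_left, sub_add_cancel]
      have e6 := abs_real_inner_le_norm (Ψ y - x - fderiv ℝ Ψ (Φ x) (y - Φ x)) ν
      rw [hν, mul_one] at e6
      have e7 : ‖y - Φ x‖ < r := by
        have := hy.1
        rwa [mem_ball, dist_eq_norm] at this
      have e8 : -(δ * r) < inner ℝ (Ψ y - x) ν := by
        have e9 := (abs_le.1 (e6.trans e2)).1
        nlinarith
      by_cases hpos : 0 < inner ℝ (Ψ y - x) ν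
      · exact Or.inl ⟨e1, hpos⟩
      · exact Or.inr ⟨e1, e8, not_lt.1 hpos⟩
    have hTsub : Hr ∪ Sr ⊆ ball x (L * r) := union_subset inter_subset_left inter_subset_left
    have h3 := diffeo_cov (u := u) hΦ h1 h2 a C (diffeo_halfBall_meas (Φ x) n r) hmem
      (fun w hw => hdet w (hTball (hTsub hw))) ((hiU a).mono_set hTsub)
    rw [setIntegral_union hdisj hSrm ((hiU a).mono_set inter_subset_left)
      ((hiU a).mono_set inter_subset_left)] at h3
    -- the integral over the strip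
    have h4 : ∫ w in Sr, |u w - a| ≤ (∫ w in halfBall x (-ν) (L * r), |u w - b|) +
        |a - b| * (η * r ^ 2) := by
      have e1 : ∫ w in Sr, |u w - a| ≤ ∫ w in Sr, (|u w - b| + |a - b|) := by
        refine setIntegral_mono_on ((hiU a).mono_set inter_subset_left) ?_ hSrm ?_
        · exact ((hiU b).mono_set inter_subset_left).add
            (integrableOn_const (ne_top_of_le_ne_top measure_ball_lt_top.ne
              (measure_mono inter_subset_left)))
        · intro w _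
          have := abs_sub_le (u w) b a
          rw [abs_sub_comm b a] at this
          exact this
      have e2 : ∫ w in Sr, (|u w - b| + |a - b|) = (∫ w in Sr, |u w - b|) +
          (volume : Measure ℂ).real Sr * |a - b| := by
        rw [integral_add ((hiU b).mono_set inter_subset_left)
          (integrableOn_const (ne_top_of_le_ne_top measure_ball_lt_top.ne
              (measure_mono inter_subset_left))), setIntegral_const, smul_eq_mul]
      have e3 : ∫ w in Sr, |u w - b| ≤ ∫ w in halfBall x (-ν) (L * r), |u w - b| := by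
        refine setIntegral_mono_set ((hiU b).mono_set inter_subset_left)
          (Eventually.of_forall fun w => abs_nonneg _) ?_
        have e4 : ∀ᵐ z : ℂ, z ∉ {z : ℂ | inner ℝ (z - x) ν = 0} :=
          measure_eq_zero_iff_ae_notMem.1 (diffeo_line_null x hν)
        filter_upwards [e4] with z hz hzS
        refine ⟨hzS.1, ?_⟩
        have e5 : inner ℝ (z - x) ν ≤ 0 := hzS.2.2
        have e6 : inner ℝ (z - x) ν ≠ 0 := hz
        show 0 < inner ℝ (z - x) (-ν)
        rw [inner_neg_right]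
        have := lt_of_le_of_ne e5 e6
        linarith
      have e7 : (volume : Measure ℂ).real Sr * |a - b| ≤ |a - b| * (η * r ^ 2) := by
        rw [mul_comm]
        exact mul_le_mul_of_nonneg_left hSrv (abs_nonneg _)
      linarith
    -- averages
    have hLr0 : 0 < L * r := mul_pos hL hr0
    have h5 : ∀ (m : ℂ) (t : ℝ), ‖m‖ = 1 → ∫ w in halfBall x m (L * r), |u w - t| ≤
        Real.pi * (L * r) ^ 2 * ⨍ w in halfBall x m (L * r), |u w - t| := by
      intro m t hm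
      rw [setAverage_eq, smul_eq_mul]
      have e1 := diffeo_volume_halfBall_le x m hLr0
      have e2 : 0 < (volume : Measure ℂ).real (halfBall x m (L * r)) :=
        lt_of_lt_of_le (by positivity) (jb_volume_halfBall x hm hLr0)
      have e3 : 0 ≤ ∫ w in halfBall x m (L * r), |u w - t| := integral_nonneg fun _ => abs_nonneg _
      rw [← mul_assoc, ← div_eq_mul_inv]
      have e4 : 1 ≤ Real.pi * (L * r) ^ 2 / (volume : Measure ℂ).real (halfBall x m (L * r)) := by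
        rw [le_div_iff₀ e2, one_mul]
        exact e1
      nlinarith
    have h6 := h5 ν a hν
    have h7 := h5 (-ν) b (by rwa [norm_neg])
    have h8 : ∫ y in halfBall (Φ x) n r, |u (Ψ y) - a| ≤
        C * (Real.pi * (L * r) ^ 2 * ((⨍ y in halfBall x ν (L * r), |u y - a|) +
          ⨍ y in halfBall x (-ν) (L * r), |u y - b|) + |a - b| * (η * r ^ 2)) := by
      refine h3.trans (mul_le_mul_of_nonneg_left ?_ hC.le)
      rw [mul_add (Real.pi * (L * r) ^ 2)]
      linarith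
    rw [setAverage_eq, smul_eq_mul]
    have h9 : ((volume : Measure ℂ).real (halfBall (Φ x) n r))⁻¹ ≤ (Real.pi * r ^ 2 / 4)⁻¹ :=
      inv_anti₀ (by positivity) (jb_volume_halfBall (Φ x) hn hr0)
    calc ((volume : Measure ℂ).real (halfBall (Φ x) n r))⁻¹ *
        ∫ y in halfBall (Φ x) n r, |u (Ψ y) - a|
        ≤ (Real.pi * r ^ 2 / 4)⁻¹ * (C * (Real.pi * (L * r) ^ 2 *
          ((⨍ y in halfBall x ν (L * r), |u y - a|) +
          ⨍ y in halfBall x (-ν) (L * r), |u y - b|) + |a - b| * (η * r ^ 2))) :=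
          mul_le_mul h9 h8 (integral_nonneg fun _ => abs_nonneg _) (by positivity)
      _ = _ := by
          simp only [hHr]
          generalize (⨍ y in halfBall x ν (L * r), |u y - a|) = A1
          generalize (⨍ y in halfBall x (-ν) (L * r), |u y - b|) = A2
          field_simp
  -- conclusion
  rw [Metric.tendsto_nhds]
  intro ε hε
  set D : ℝ := 4 * C / Real.pi * |a - b| with hD
  have hD0 : 0 ≤ D := by positivity
  have hη : 0 < ε / (2 * (D + 1)) := by positivity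
  have hsum : Tendsto (fun r : ℝ => 4 * C * L ^ 2 * ((⨍ y in halfBall x ν (L * r), |u y - a|) +
      ⨍ y in halfBall x (-ν) (L * r), |u y - b|)) (𝓝[>] 0) (𝓝 (4 * C * L ^ 2 * (0 + 0))) :=
    (ha'.add hb').const_mul _
  rw [add_zero, mul_zero] at hsum
  filter_upwards [key _ hη, hsum.eventually_lt_const (half_pos hε)] with r hr hr'
  have hnn : 0 ≤ ⨍ y in halfBall (Φ x) n r, |u (Ψ y) - a| := by
    rw [setAverage_eq, smul_eq_mul]
    exact mul_nonneg (inv_nonneg.2 measureReal_nonneg) (integral_nonneg fun _ => abs_nonneg _)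
  rw [Real.dist_eq, sub_zero, abs_of_nonneg hnn]
  have h10 : D * (ε / (2 * (D + 1))) ≤ ε / 2 := by
    rw [mul_div_assoc', div_le_div_iff₀ (by positivity) two_pos]
    nlinarith
  linarith

theorem jump_comp {u : ℂ → ℝ} {Φ Ψ : ℂ → ℂ} (hΦ : ContDiff ℝ 1 Φ) (hΨ : ContDiff ℝ 1 Ψ)
    (h1 : ∀ x, Ψ (Φ x) = x) (h2 : ∀ y, Φ (Ψ y) = y) {x : ℂ} {U : Set ℂ} (hU : U ∈ 𝓝 x)
    (hu : IntegrableOn u U) {a b : ℝ} {ν : ℂ} (hj : IsJump u x a b ν) :
    IsJump (fun y => u (Ψ y)) (Φ x) a b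
      ((‖ContinuousLinearMap.adjoint (fderiv ℝ Ψ (Φ x)) ν‖⁻¹ : ℝ) •
        ContinuousLinearMap.adjoint (fderiv ℝ Ψ (Φ x)) ν) := by
  obtain ⟨hν, hab, ha, hb⟩ := hj
  set m : ℂ := ContinuousLinearMap.adjoint (fderiv ℝ Ψ (Φ x)) ν with hm
  -- the covector is not zero
  have hm0 : m ≠ 0 := by
    intro h0
    have hdΦ : HasFDerivAt Φ (fderiv ℝ Φ x) x := ((hΦ.differentiable one_ne_zero) x).hasFDerivAt
    have hdΨ : HasFDerivAt Ψ (fderiv ℝ Ψ (Φ x)) (Φ x) :=
      ((hΨ.differentiable one_ne_zero) (Φ x)).hasFDerivAt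
    have hcomp := hdΨ.comp x hdΦ
    have hid : Ψ ∘ Φ = id := funext h1
    rw [hid] at hcomp
    have e1 := hcomp.unique (hasFDerivAt_id x)
    have e2 : (fderiv ℝ Ψ (Φ x)) (fderiv ℝ Φ x ν) = ν := by
      have := congrArg (fun A : ℂ →L[ℝ] ℂ => A ν) e1
      simpa using this
    have e3 : inner ℝ m (fderiv ℝ Φ x ν) = (1 : ℝ) := by
      rw [hm, ContinuousLinearMap.adjoint_inner_left, e2, real_inner_self_eq_norm_sq, hν]
      norm_num
    rw [h0, inner_zero_left] at e3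
    exact zero_ne_one e3
  have hmn : 0 < ‖m‖ := norm_pos_iff.2 hm0
  have hn : ‖((‖m‖⁻¹ : ℝ) • m : ℂ)‖ = 1 := by
    rw [norm_smul, norm_inv, norm_norm, inv_mul_cancel₀ hmn.ne']
  refine ⟨hn, hab, ?_, ?_⟩
  · exact diffeo_half hΦ hΨ h1 h2 hU hu hν ha hb (inv_pos.2 hmn) hn rfl
  · have hb2 : Tendsto (fun r : ℝ => ⨍ y in halfBall x (- -ν) r, |u y - a|) (𝓝[>] 0) (𝓝 0) := by
      rwa [neg_neg]
    refine diffeo_half hΦ hΨ h1 h2 hU hu (by rwa [norm_neg]) hb hb2 (inv_pos.2 hmn)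
      (by rwa [norm_neg]) ?_
    rw [map_neg, smul_neg]

end Pool.Agent.MP099f24
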