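import Pool.Agent.Lib.MP_099f24_an.SD.Vf
import Pool.Agent.Lib.MP_099f24_an.SD.Diffeo
import Pool.Agent.Lib.MP_099f24_an.SD.Area

/-!
# Mumford-Shah: SBV functions under diffeomorphisms (module PIOLA)
-/

namespace Pool.Agent.MP099f24

open MeasureTheory Filter Topology Set Metric
open scoped ENNReal ContDiff

/-- the cofactor matrix applied to a vector -/
noncomputable def piola_cof (A : ℂ →L[ℝ] ℂ) (z : ℂ) : ℂ := -Complex.I * A (Complex.I * z)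

/-- the adjugate matrix applied to a vector -/
noncomputable def piola_adj (A : ℂ →L[ℝ] ℂ) (v : ℂ) : ℂ :=
  ⟨(A Complex.I).im * v.re - (A Complex.I).re * v.im, -(A 1).im * v.re + (A 1).re * v.im⟩

theorem piola_apply (A : ℂ →L[ℝ] ℂ) (z : ℂ) : A z = (z.re : ℝ) • A 1 + (z.im : ℝ) • A Complex.I := by
  have h : z = (z.re : ℝ) • (1 : ℂ) + (z.im : ℝ) • Complex.I := by
    apply Complex.ext <;> simp
  conv_lhs => rw [h]
  rw [map_add, map_smul, map_smul]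

theorem piola_det (A : ℂ →L[ℝ] ℂ) :
    A.det = (A 1).re * (A Complex.I).im - (A Complex.I).re * (A 1).im := by
  rw [ContinuousLinearMap.det, ← LinearMap.det_toMatrix Complex.basisOneI, Matrix.det_fin_two]
  simp [LinearMap.toMatrix_apply]

theorem piola_cof_adj (A : ℂ →L[ℝ] ℂ) (z v : ℂ) :
    inner ℝ (piola_cof A z) v = inner ℝ z (piola_adj A v) := by
  simp only [piola_cof, piola_adj, Complex.inner]
  rw [piola_apply A (Complex.I * z)]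
  simp
  ring

theorem piola_adj_apply (A : ℂ →L[ℝ] ℂ) (v : ℂ) : A (piola_adj A v) = A.det • v := by
  rw [piola_apply A (piola_adj A v), piola_det]
  apply Complex.ext <;> simp [piola_adj] <;> ring

theorem piola_norm_cof (A : ℂ →L[ℝ] ℂ) (z : ℂ) : ‖piola_cof A z‖ = ‖A (Complex.I * z)‖ := by
  simp [piola_cof]

/-- if `B A = 1` then `det A • Bᵀ z = cof A z` -/
theorem piola_cof_eq {A B : ℂ →L[ℝ] ℂ} (hBA : ∀ x, B (A x) = x) (z : ℂ) :
    A.det • ContinuousLinearMap.adjoint B z = piola_cof A z := by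
  refine ext_inner_right ℝ fun v => ?_
  rw [piola_cof_adj, real_inner_smul_left, ContinuousLinearMap.adjoint_inner_left,
    ← real_inner_smul_right, ← map_smul, ← piola_adj_apply, hBA]

/-- the adjugate as a continuous linear function of the matrix -/
noncomputable def piola_adjCLM (v : ℂ) : (ℂ →L[ℝ] ℂ) →L[ℝ] ℂ :=
  (v.re • (Complex.imCLM.comp (ContinuousLinearMap.apply ℝ ℂ Complex.I)) -
    v.im • (Complex.reCLM.comp (ContinuousLinearMap.apply ℝ ℂ Complex.I))).smulRight (1 : ℂ) +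
  (-v.re • (Complex.imCLM.comp (ContinuousLinearMap.apply ℝ ℂ (1 : ℂ))) +
    v.im • (Complex.reCLM.comp (ContinuousLinearMap.apply ℝ ℂ (1 : ℂ)))).smulRight Complex.I

theorem piola_adjCLM_apply (v : ℂ) (A : ℂ →L[ℝ] ℂ) : piola_adjCLM v A = piola_adj A v := by
  apply Complex.ext <;> simp [piola_adjCLM, piola_adj] <;> ring

theorem piola_contDiff {Φ : ℂ → ℂ} (hΦ : ContDiff ℝ ∞ Φ) {φ : ℂ → ℝ} (hφ : ContDiff ℝ ∞ φ)
    (v : ℂ) : ContDiff ℝ ∞ (fun x => (φ (Φ x)) • piola_adj (fderiv ℝ Φ x) v) := by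
  have h1 : ContDiff ℝ ∞ (fderiv ℝ Φ) := hΦ.fderiv_right (by simp)
  have h2 : ContDiff ℝ ∞ (fun x => piola_adj (fderiv ℝ Φ x) v) := by
    have := (piola_adjCLM v).contDiff.comp h1
    simpa only [Function.comp_def, piola_adjCLM_apply] using this
  exact (hφ.comp hΦ).smul h2

theorem piola_dv {Φ : ℂ → ℂ} (hΦ : ContDiff ℝ ∞ Φ) {φ : ℂ → ℝ} (hφ : ContDiff ℝ ∞ φ) (v x : ℂ) :
    dv (fun x => (φ (Φ x)) • piola_adj (fderiv ℝ Φ x) v) x =
      (fderiv ℝ Φ x).det * fderiv ℝ φ (Φ x) v := by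
  have h1 : ContDiff ℝ ∞ (fderiv ℝ Φ) := hΦ.fderiv_right (by simp)
  have d1 : HasFDerivAt (fderiv ℝ Φ) (fderiv ℝ (fderiv ℝ Φ) x) x :=
    (h1.differentiable (by simp) x).hasFDerivAt
  have d2 : HasFDerivAt (fun x => piola_adj (fderiv ℝ Φ x) v)
      ((piola_adjCLM v).comp (fderiv ℝ (fderiv ℝ Φ) x)) x := by
    have := (piola_adjCLM v).hasFDerivAt.comp x d1
    simpa only [Function.comp_def, piola_adjCLM_apply] using this
  have d3 : HasFDerivAt (fun x => φ (Φ x)) ((fderiv ℝ φ (Φ x)).comp (fderiv ℝ Φ x)) x :=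
    ((hφ.differentiable (by simp) (Φ x)).hasFDerivAt).comp x
      (hΦ.differentiable (by simp) x).hasFDerivAt
  have d4 : HasFDerivAt (fun x => (φ (Φ x)) • piola_adj (fderiv ℝ Φ x) v)
      (φ (Φ x) • (piola_adjCLM v).comp (fderiv ℝ (fderiv ℝ Φ) x) +
        ((fderiv ℝ φ (Φ x)).comp (fderiv ℝ Φ x)).smulRight (piola_adj (fderiv ℝ Φ x) v)) x :=
    d3.smul d2
  have hsym : fderiv ℝ (fderiv ℝ Φ) x 1 Complex.I = fderiv ℝ (fderiv ℝ Φ) x Complex.I 1 := by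
    have := (hΦ.contDiffAt (x := x)).isSymmSndFDerivAt (by
      simp only [minSmoothness_of_isRCLikeNormedField]
      exact ENat.LEInfty.out)
    exact this 1 Complex.I
  rw [dv, d4.fderiv]
  have key : fderiv ℝ φ (Φ x) (fderiv ℝ Φ x (piola_adj (fderiv ℝ Φ x) v)) =
      (fderiv ℝ Φ x).det * fderiv ℝ φ (Φ x) v := by
    rw [piola_adj_apply, map_smul, smul_eq_mul]
  rw [piola_apply (fderiv ℝ Φ x) (piola_adj (fderiv ℝ Φ x) v), map_add, map_smul, map_smul,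
    smul_eq_mul, smul_eq_mul] at key
  rw [← key]
  simp only [_root_.add_apply, _root_.smul_apply,
    ContinuousLinearMap.comp_apply, ContinuousLinearMap.smulRight_apply, Complex.add_re,
    Complex.add_im, Complex.real_smul, Complex.mul_re, Complex.mul_im, Complex.ofReal_re,
    Complex.ofReal_im, zero_mul, sub_zero, add_zero, piola_adjCLM_apply, piola_adj, hsym]
  ring

/-! ### the diffeomorphism -/

theorem piola_id {Φ Ψ : ℂ → ℂ} (h1 : ∀ x, Ψ (Φ x) = x) {K : Set ℂ} (hid : ∀ x, x ∉ K → Φ x = x) :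
    ∀ x, x ∉ K → Ψ x = x := fun x hx => by
  have := h1 x
  rwa [hid x hx] at this

theorem piola_mem_K {Φ Ψ : ℂ → ℂ} (h1 : ∀ x, Ψ (Φ x) = x) {K : Set ℂ}
    (hid : ∀ x, x ∉ K → Φ x = x) {x : ℂ} (hx : x ∈ K) : Φ x ∈ K := by
  by_contra hx'
  have h := piola_id h1 hid (Φ x) hx'
  rw [h1] at h
  exact hx' (h ▸ hx)

theorem piola_mem {Φ Ψ : ℂ → ℂ} (h1 : ∀ x, Ψ (Φ x) = x) {K Ω : Set ℂ} (hKΩ : K ⊆ Ω)
    (hid : ∀ x, x ∉ K → Φ x = x) {x : ℂ} (hx : x ∈ Ω) : Φ x ∈ Ω := by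
  by_cases hK : x ∈ K
  · exact hKΩ (piola_mem_K h1 hid hK)
  · rwa [hid x hK]

/-- the homeomorphism of the plane -/
noncomputable def piola_homeo {Φ Ψ : ℂ → ℂ} (hΦ : Continuous Φ) (hΨ : Continuous Ψ)
    (h1 : ∀ x, Ψ (Φ x) = x) (h2 : ∀ y, Φ (Ψ y) = y) : ℂ ≃ₜ ℂ where
  toFun := Φ
  invFun := Ψ
  left_inv := h1
  right_inv := h2
  continuous_toFun := hΦ
  continuous_invFun := hΨ

theorem piola_image_preimage {Φ Ψ : ℂ → ℂ} (h1 : ∀ x, Ψ (Φ x) = x) (h2 : ∀ y, Φ (Ψ y) = y)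
    (s : Set ℂ) : Φ '' s = Ψ ⁻¹' s := by
  ext y
  constructor
  · rintro ⟨x, hx, rfl⟩
    rwa [mem_preimage, h1]
  · intro hy
    exact ⟨Ψ y, hy, h2 y⟩

theorem piola_fderiv {Φ Ψ : ℂ → ℂ} (hΦ : Differentiable ℝ Φ) (hΨ : Differentiable ℝ Ψ)
    (h1 : ∀ x, Ψ (Φ x) = x) (x w : ℂ) : fderiv ℝ Ψ (Φ x) (fderiv ℝ Φ x w) = w := by
  have d1 : HasFDerivAt (fun x => Ψ (Φ x)) ((fderiv ℝ Ψ (Φ x)).comp (fderiv ℝ Φ x)) x :=
    (hΨ (Φ x)).hasFDerivAt.comp x (hΦ x).hasFDerivAt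
  have d2 : HasFDerivAt (fun x => Ψ (Φ x)) (ContinuousLinearMap.id ℝ ℂ) x := by
    have : (fun x => Ψ (Φ x)) = id := funext h1
    rw [this]
    exact hasFDerivAt_id x
  have := d1.unique d2
  calc fderiv ℝ Ψ (Φ x) (fderiv ℝ Φ x w) = ((fderiv ℝ Ψ (Φ x)).comp (fderiv ℝ Φ x)) w := rfl
    _ = w := by rw [this]; rfl

theorem piola_change {Φ Ψ : ℂ → ℂ} (hΦ : Differentiable ℝ Φ)
    (h1 : ∀ x, Ψ (Φ x) = x) (hdet : ∀ x, 0 < (fderiv ℝ Φ x).det) {s : Set ℂ}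
    (hs : MeasurableSet s) (F : ℂ → ℝ) :
    ∫ y in Φ '' s, F y = ∫ x in s, (fderiv ℝ Φ x).det * F (Φ x) := by
  rw [integral_image_eq_integral_abs_det_fderiv_smul volume hs
    (fun x _ => (hΦ x).hasFDerivAt.hasFDerivWithinAt)
    (fun x _ y _ hxy => by rw [← h1 x, ← h1 y, hxy])]
  refine integral_congr_ae (Eventually.of_forall fun x => ?_)
  show |(fderiv ℝ Φ x).det| • F (Φ x) = (fderiv ℝ Φ x).det * F (Φ x)
  rw [abs_of_pos (hdet x), smul_eq_mul]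

theorem piola_locInt {E : Type*} [NormedAddCommGroup E] [NormedSpace ℝ E]
    {Φ Ψ : ℂ → ℂ} (hΦ : ContDiff ℝ ∞ Φ) (hΨ : ContDiff ℝ ∞ Ψ)
    (h1 : ∀ x, Ψ (Φ x) = x) (h2 : ∀ y, Φ (Ψ y) = y) {K Ω : Set ℂ} (hΩ : IsOpen Ω) (hKΩ : K ⊆ Ω)
    (hid : ∀ x, x ∉ K → Φ x = x) {F : ℂ → E}
    (hF : LocallyIntegrableOn F Ω) : LocallyIntegrableOn (fun y => F (Ψ y)) Ω := by
  rw [locallyIntegrableOn_iff hΩ.isLocallyClosed] at hF ⊢
  intro K' hK'Ω hK'
  have hc : IsCompact (Ψ '' K') := hK'.image hΨ.continuous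
  have hsub : Ψ '' K' ⊆ Ω := by
    rintro _ ⟨y, hy, rfl⟩
    exact piola_mem h2 hKΩ (piola_id h1 hid) (hK'Ω hy)
  have himg : K' = Φ '' (Ψ '' K') := by
    rw [image_image]
    simp [h2]
  rw [himg, integrableOn_image_iff_integrableOn_abs_det_fderiv_smul volume hc.measurableSet
    (fun x _ => ((hΦ.differentiable (by simp)) x).hasFDerivAt.hasFDerivWithinAt)
    (fun x _ y _ hxy => by rw [← h1 x, ← h1 y, hxy])]
  have h3 : IntegrableOn F (Ψ '' K') := hF _ hsub hc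
  have h4 : Continuous fun x => |(fderiv ℝ Φ x).det| := by
    have : Continuous fun x => (fderiv ℝ Φ x).det :=
      ContinuousLinearMap.continuous_det.comp (hΦ.continuous_fderiv (by simp))
    exact this.abs
  have h5 := h3.continuousOn_smul h4.continuousOn hc
  refine h5.congr (Eventually.of_forall fun x => ?_)
  show |(fderiv ℝ Φ x).det| • F x = |(fderiv ℝ Φ x).det| • F (Ψ (Φ x))
  rw [h1]

/-! ### the discontinuity set and the jumps -/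

theorem piola_nhds_int {u : ℂ → ℝ} {Ω : Set ℂ} (hΩ : IsOpen Ω) (hu : LocallyIntegrableOn u Ω)
    {x : ℂ} (hx : x ∈ Ω) : ∃ U ∈ 𝓝 x, IntegrableOn u U := by
  obtain ⟨t, ht, hi⟩ := hu x hx
  rw [hΩ.nhdsWithin_eq hx] at ht
  exact ⟨t, ht, hi⟩

theorem piola_discSet {Ω : Set ℂ} (hΩ : IsOpen Ω) {u : ℂ → ℝ} (hu : LocallyIntegrableOn u Ω)
    {Φ Ψ : ℂ → ℂ}
    (hΦ : ContDiff ℝ ∞ Φ) (hΨ : ContDiff ℝ ∞ Ψ) (h1 : ∀ x, Ψ (Φ x) = x)
    (h2 : ∀ y, Φ (Ψ y) = y) {K : Set ℂ} (hKΩ : K ⊆ Ω)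
    (hid : ∀ x, x ∉ K → Φ x = x) : discSet Ω (fun y => u (Ψ y)) = Φ '' (discSet Ω u) := by
  have hw := piola_locInt hΦ hΨ h1 h2 hΩ hKΩ hid hu
  have hΦ1 : ContDiff ℝ 1 Φ := hΦ.of_le (by simp)
  have hΨ1 : ContDiff ℝ 1 Ψ := hΨ.of_le (by simp)
  ext y
  constructor
  · rintro ⟨hy, hn⟩
    refine ⟨Ψ y, ⟨piola_mem h2 hKΩ (piola_id h1 hid) hy, ?_⟩, h2 y⟩
    rintro ⟨z, hz⟩
    obtain ⟨U, hU, hi⟩ := piola_nhds_int hΩ hu (piola_mem h2 hKΩ (piola_id h1 hid) hy)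
    have := approxLim_comp hΦ1 hΨ1 h1 h2 hU hi hz
    rw [h2] at this
    exact hn ⟨z, this⟩
  · rintro ⟨x, ⟨hx, hn⟩, rfl⟩
    refine ⟨piola_mem h1 hKΩ hid hx, ?_⟩
    rintro ⟨z, hz⟩
    obtain ⟨U, hU, hi⟩ := piola_nhds_int hΩ hw (piola_mem h1 hKΩ hid hx)
    have := approxLim_comp hΨ1 hΦ1 h2 h1 hU hi hz
    simp only [h1] at this
    exact hn ⟨z, this⟩

theorem piola_jump_iff {Ω : Set ℂ} (hΩ : IsOpen Ω) {u : ℂ → ℝ} (hu : LocallyIntegrableOn u Ω)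
    {Φ Ψ : ℂ → ℂ}
    (hΦ : ContDiff ℝ ∞ Φ) (hΨ : ContDiff ℝ ∞ Ψ) (h1 : ∀ x, Ψ (Φ x) = x)
    (h2 : ∀ y, Φ (Ψ y) = y) {K : Set ℂ} (hKΩ : K ⊆ Ω)
    (hid : ∀ x, x ∉ K → Φ x = x) {y : ℂ} (hy : y ∈ Ω)
    (hj : ∃ a b ν, IsJump (fun y => u (Ψ y)) y a b ν) : ∃ a b ν, IsJump u (Ψ y) a b ν := by
  have hw := piola_locInt hΦ hΨ h1 h2 hΩ hKΩ hid hu
  obtain ⟨a, b, ν, hj⟩ := hj
  obtain ⟨U, hU, hi⟩ := piola_nhds_int hΩ hw hy
  have := jump_comp (hΨ.of_le (by simp)) (hΦ.of_le (by simp)) h2 h1 hU hi hj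
  simp only [h1] at this
  exact ⟨a, b, _, this⟩

theorem piola_jumpSet {Ω : Set ℂ} (hΩ : IsOpen Ω) {u : ℂ → ℝ} (hu : LocallyIntegrableOn u Ω)
    {Φ Ψ : ℂ → ℂ}
    (hΦ : ContDiff ℝ ∞ Φ) (hΨ : ContDiff ℝ ∞ Ψ) (h1 : ∀ x, Ψ (Φ x) = x)
    (h2 : ∀ y, Φ (Ψ y) = y) {K : Set ℂ} (hKΩ : K ⊆ Ω)
    (hid : ∀ x, x ∉ K → Φ x = x) : jumpSet Ω (fun y => u (Ψ y)) = Φ '' (jumpSet Ω u) := by
  ext y
  constructor
  · rintro ⟨hy, hj⟩
    exact ⟨Ψ y, ⟨piola_mem h2 hKΩ (piola_id h1 hid) hy,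
      piola_jump_iff hΩ hu hΦ hΨ h1 h2 hKΩ hid hy hj⟩, h2 y⟩
  · rintro ⟨x, ⟨hx, a, b, ν, hj⟩, rfl⟩
    obtain ⟨U, hU, hi⟩ := piola_nhds_int hΩ hu hx
    exact ⟨piola_mem h1 hKΩ hid hx, a, b, _,
      jump_comp (hΦ.of_le (by simp)) (hΨ.of_le (by simp)) h1 h2 hU hi hj⟩

/-- the jump field of `u ∘ Ψ` -/
noncomputable def piola_jf (j : ℂ → ℂ) (Ψ : ℂ → ℂ) (y : ℂ) : ℂ :=
  (‖ContinuousLinearMap.adjoint (fderiv ℝ Ψ y) (j (Ψ y))‖⁻¹ * ‖j (Ψ y)‖ : ℝ) •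
    ContinuousLinearMap.adjoint (fderiv ℝ Ψ y) (j (Ψ y))

theorem piola_jf_smul {j : ℂ → ℂ} {Ψ : ℂ → ℂ} {y : ℂ} {c : ℝ} {ν : ℂ} (hν : ‖ν‖ = 1)
    (hj : j (Ψ y) = c • ν) : piola_jf j Ψ y =
      c • ((‖ContinuousLinearMap.adjoint (fderiv ℝ Ψ y) ν‖⁻¹ : ℝ) •
        ContinuousLinearMap.adjoint (fderiv ℝ Ψ y) ν) := by
  rw [piola_jf, hj, map_smul, norm_smul, norm_smul, hν, smul_smul, smul_smul, mul_one]
  rcases eq_or_ne c 0 with rfl | hc
  · simp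
  · congr 1
    have : ‖c‖ ≠ 0 := norm_ne_zero_iff.2 hc
    rw [mul_inv]
    field_simp

theorem piola_isJumpField {Ω : Set ℂ} {u : ℂ → ℝ} {g j : ℂ → ℂ} (h : SBVData Ω u g j) {Φ Ψ : ℂ → ℂ}
    (hΦ : ContDiff ℝ ∞ Φ) (hΨ : ContDiff ℝ ∞ Ψ) (h1 : ∀ x, Ψ (Φ x) = x)
    (h2 : ∀ y, Φ (Ψ y) = y) {K : Set ℂ} (hKΩ : K ⊆ Ω)
    (hid : ∀ x, x ∉ K → Φ x = x) : IsJumpField Ω (fun y => u (Ψ y)) (piola_jf j Ψ) := by
  intro y hy
  have hx : Ψ y ∈ Ω := piola_mem h2 hKΩ (piola_id h1 hid) hy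
  rcases h.jf (Ψ y) hx with ⟨a, b, ν, hj, he⟩ | ⟨hn, h0⟩
  · left
    obtain ⟨U, hU, hi⟩ := piola_nhds_int h.isOpen h.intu hx
    have := jump_comp (hΦ.of_le (by simp)) (hΨ.of_le (by simp)) h1 h2 hU hi hj
    rw [h2] at this
    have he' : j (Ψ y) = ((a - b : ℝ)) • ν := by
      rw [he]
    refine ⟨a, b, _, this, ?_⟩
    rw [piola_jf_smul hj.1 he']
  · right
    refine ⟨fun hj => hn (piola_jump_iff h.isOpen h.intu hΦ hΨ h1 h2 hKΩ hid hy hj), ?_⟩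
    rw [piola_jf, h0]
    simp

theorem piola_jf_tfac {Φ Ψ : ℂ → ℂ} (hΦ : Differentiable ℝ Φ) (hΨ : Differentiable ℝ Ψ)
    (h1 : ∀ x, Ψ (Φ x) = x) (hdet : ∀ x, 0 < (fderiv ℝ Φ x).det) (j : ℂ → ℂ) (x : ℂ) :
    (tfac Φ j x).toReal • piola_jf j Ψ (Φ x) = piola_cof (fderiv ℝ Φ x) (j x) := by
  have hBA := piola_fderiv hΦ hΨ h1 x
  have hc := piola_cof_eq hBA (j x)
  have ht : (tfac Φ j x).toReal = ‖fderiv ℝ Φ x (Complex.I * j x)‖ / ‖j x‖ := by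
    rw [tfac, ENNReal.toReal_div, toReal_enorm, toReal_enorm]
  rw [ht, piola_jf, h1, ← hc]
  rcases eq_or_ne (j x) 0 with h0 | h0
  · simp [h0]
  · have hd := hdet x
    have hn := piola_norm_cof (fderiv ℝ Φ x) (j x)
    rw [← hc, norm_smul, Real.norm_of_nonneg hd.le] at hn
    rw [← hn, smul_smul]
    congr 1
    have hj : ‖j x‖ ≠ 0 := norm_ne_zero_iff.2 h0
    have hB : ‖ContinuousLinearMap.adjoint (fderiv ℝ Ψ (Φ x)) (j x)‖ ≠ 0 := by
      intro h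
      rw [h, mul_zero] at hn
      have h3 : fderiv ℝ Φ x (Complex.I * j x) = 0 := norm_eq_zero.1 hn.symm
      have h4 := hBA (Complex.I * j x)
      rw [h3, map_zero] at h4
      have h5 : Complex.I * j x = 0 := h4.symm
      rcases mul_eq_zero.1 h5 with h6 | h6
      · exact Complex.I_ne_zero h6
      · exact h0 h6
    field_simp

/-! ### the one-dimensional measure -/

theorem piola_measure {Ω : Set ℂ} {u : ℂ → ℝ} {g j : ℂ → ℂ} (h : SBVData Ω u g j) {Φ Ψ : ℂ → ℂ}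
    (hΦ : ContDiff ℝ ∞ Φ) (hΨ : ContDiff ℝ ∞ Ψ) (h1 : ∀ x, Ψ (Φ x) = x)
    (h2 : ∀ y, Φ (Ψ y) = y) {K : Set ℂ} (hKΩ : K ⊆ Ω)
    (hid : ∀ x, x ∉ K → Φ x = x) {K' : Set ℂ} (hK' : IsCompact K') (hK'Ω : K' ⊆ Ω) :
    (μH[1] : Measure ℂ).restrict (jumpSet Ω (fun y => u (Ψ y)) ∩ K') =
      Measure.map Φ (((μH[1] : Measure ℂ).restrict (Ψ '' K')).withDensity (tfac Φ j)) := by
  have hc : IsCompact (Ψ '' K') := hK'.image hΨ.continuous
  have hsub : Ψ '' K' ⊆ Ω := by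
    rintro _ ⟨y, hy, rfl⟩
    exact piola_mem h2 hKΩ (piola_id h1 hid) (hK'Ω hy)
  have hpre : Ψ '' K' = Φ ⁻¹' K' := piola_image_preimage h2 h1 K'
  ext B hB
  have hB' : MeasurableSet (Φ ⁻¹' B) := hΦ.continuous.measurable hB
  rw [Measure.restrict_apply hB, Measure.map_apply hΦ.continuous.measurable hB,
    withDensity_apply _ hB', Measure.restrict_restrict hB',
    ← area_jump h (hΦ.of_le (by simp)) (hΨ.of_le (by simp)) h1 h2 hc hsub
      (hB'.inter hc.measurableSet) inter_subset_right,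
    piola_jumpSet h.isOpen h.intu hΦ hΨ h1 h2 hKΩ hid, hpre, ← preimage_inter,
    image_inter_preimage]
  congr 1
  ext y
  simp only [mem_inter_iff]
  tauto

theorem piola_tfac_lt (Φ j : ℂ → ℂ) (x : ℂ) : tfac Φ j x < ⊤ := by
  rw [tfac]
  rcases eq_or_ne (j x) 0 with h0 | h0
  · rw [h0]
    simp
  · exact ENNReal.div_lt_top enorm_ne_top (enorm_ne_zero.2 h0)

theorem piola_aesm {μ : Measure ℂ} {L : ℂ → (ℂ →L[ℝ] ℂ)} (hL : Continuous L) {f : ℂ → ℂ}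
    (hf : AEStronglyMeasurable f μ) : AEStronglyMeasurable (fun x => L x (f x)) μ :=
  ContinuousLinearMap.aestronglyMeasurable_comp₂ (ContinuousLinearMap.id ℝ (ℂ →L[ℝ] ℂ))
    hL.aestronglyMeasurable hf

theorem piola_intOn {μ : Measure ℂ} {L : ℂ → (ℂ →L[ℝ] ℂ)} (hL : Continuous L) {f : ℂ → ℂ}
    {K : Set ℂ} (hK : IsCompact K) (hf : IntegrableOn f K μ) :
    IntegrableOn (fun x => L x (f x)) K μ := by
  obtain ⟨C, hC⟩ := hK.exists_bound_of_continuousOn (f := L) hL.continuousOn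
  refine Integrable.mono' (hf.norm.const_mul C) (piola_aesm hL hf.aestronglyMeasurable) ?_
  refine (ae_restrict_iff' hK.measurableSet).2 (Eventually.of_forall fun x hx => ?_)
  exact (ContinuousLinearMap.le_opNorm _ _).trans
    (mul_le_mul_of_nonneg_right (hC x hx) (norm_nonneg _))

theorem piola_aem_tfac {μ : Measure ℂ} {Φ : ℂ → ℂ} (hΦ : ContDiff ℝ ∞ Φ) {j : ℂ → ℂ}
    (hj : AEStronglyMeasurable j μ) : AEMeasurable (tfac Φ j) μ := by
  have h1 : AEStronglyMeasurable (fun x => Complex.I * j x) μ := hj.const_mul Complex.I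
  have h2 := (piola_aesm (hΦ.continuous_fderiv (by simp)) h1).enorm
  exact h2.div hj.enorm

/-- integrals over the jump set of `u ∘ Ψ` -/
theorem piola_integral {Ω : Set ℂ} {u : ℂ → ℝ} {g j : ℂ → ℂ} (h : SBVData Ω u g j) {Φ Ψ : ℂ → ℂ}
    (hΦ : ContDiff ℝ ∞ Φ) (hΨ : ContDiff ℝ ∞ Ψ) (h1 : ∀ x, Ψ (Φ x) = x)
    (h2 : ∀ y, Φ (Ψ y) = y) {K : Set ℂ} (hKΩ : K ⊆ Ω)
    (hid : ∀ x, x ∉ K → Φ x = x) {K' : Set ℂ} (hK' : IsCompact K') (hK'Ω : K' ⊆ Ω)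
    {E : Type*} [NormedAddCommGroup E] [NormedSpace ℝ E] (F : ℂ → E) :
    (∫ y in jumpSet Ω (fun y => u (Ψ y)) ∩ K', F y ∂(μH[1] : Measure ℂ) =
      ∫ x in Ψ '' K', (tfac Φ j x).toReal • F (Φ x) ∂(μH[1] : Measure ℂ)) ∧
    (IntegrableOn F (jumpSet Ω (fun y => u (Ψ y)) ∩ K') (μH[1] : Measure ℂ) ↔
      IntegrableOn (fun x => (tfac Φ j x).toReal • F (Φ x)) (Ψ '' K') (μH[1] : Measure ℂ)) := by
  have hc : IsCompact (Ψ '' K') := hK'.image hΨ.continuous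
  have hsub : Ψ '' K' ⊆ Ω := by
    rintro _ ⟨y, hy, rfl⟩
    exact piola_mem h2 hKΩ (piola_id h1 hid) (hK'Ω hy)
  have hme : MeasurableEmbedding Φ :=
    (piola_homeo hΦ.continuous hΨ.continuous h1 h2).measurableEmbedding
  have hj : IntegrableOn j (Ψ '' K') (μH[1] : Measure ℂ) :=
    h.intj.integrableOn_compact_subset hsub hc
  have hm := piola_measure h hΦ hΨ h1 h2 hKΩ hid hK' hK'Ω
  have ht := piola_aem_tfac (μ := (μH[1] : Measure ℂ).restrict (Ψ '' K')) hΦ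
    hj.aestronglyMeasurable
  constructor
  · rw [hm, hme.integral_map, integral_withDensity_eq_integral_toReal_smul₀ ht
      (Eventually.of_forall fun x => piola_tfac_lt Φ j x)]
  · rw [IntegrableOn, hm, hme.integrable_map_iff, integrable_withDensity_iff_integrable_smul₀' ht
      (Eventually.of_forall fun x => piola_tfac_lt Φ j x)]
    rfl

theorem piola_jf_zero {Ω : Set ℂ} {w : ℂ → ℝ} {k : ℂ → ℂ} (hk : IsJumpField Ω w k) {y : ℂ}
    (hy : y ∈ Ω) (hn : y ∉ jumpSet Ω w) : k y = 0 := by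
  rcases hk y hy with ⟨a, b, ν, hj, _⟩ | ⟨_, h0⟩
  · exact absurd ⟨hy, a, b, ν, hj⟩ hn
  · exact h0

theorem sbv_comp {Ω : Set ℂ} {u : ℂ → ℝ} {g j : ℂ → ℂ} (h : SBVData Ω u g j) {Φ Ψ : ℂ → ℂ}
    (hΦ : ContDiff ℝ ∞ Φ) (hΨ : ContDiff ℝ ∞ Ψ) (h1 : ∀ x, Ψ (Φ x) = x)
    (h2 : ∀ y, Φ (Ψ y) = y) {K : Set ℂ} (hK : IsCompact K) (hKΩ : K ⊆ Ω)
    (hid : ∀ x, x ∉ K → Φ x = x) (hdet : ∀ x, 0 < (fderiv ℝ Φ x).det) :
    LocallyIntegrableOn (fun y => u (Ψ y)) Ω ∧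
    IsSBVGrad Ω (fun y => u (Ψ y))
      (fun y => ContinuousLinearMap.adjoint (fderiv ℝ Ψ y) (g (Ψ y))) ∧
    discSet Ω (fun y => u (Ψ y)) = Φ '' (discSet Ω u) := by
  have hΦd : Differentiable ℝ Φ := hΦ.differentiable (by simp)
  have hΨd : Differentiable ℝ Ψ := hΨ.differentiable (by simp)
  have hΩm : MeasurableSet Ω := h.isOpen.measurableSet
  have hadj : Continuous fun y => ContinuousLinearMap.adjoint (fderiv ℝ Ψ y) :=
    (ContinuousLinearMap.adjoint (𝕜 := ℝ) (E := ℂ) (F := ℂ)).continuous.comp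
      (hΨ.continuous_fderiv (by simp))
  refine ⟨piola_locInt hΦ hΨ h1 h2 h.isOpen hKΩ hid h.intu, ?_,
    piola_discSet h.isOpen h.intu hΦ hΨ h1 h2 hKΩ hid⟩
  refine ⟨?_, piola_jf j Ψ, piola_isJumpField h hΦ hΨ h1 h2 hKΩ hid, ?_, ?_⟩
  · -- local integrability of the gradient
    have hg := piola_locInt hΦ hΨ h1 h2 h.isOpen hKΩ hid h.intg
    rw [locallyIntegrableOn_iff h.isOpen.isLocallyClosed] at hg ⊢
    intro K' hK'Ω hK'
    exact piola_intOn hadj hK' (hg K' hK'Ω hK')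
  · -- local integrability of the jump field
    rw [locallyIntegrableOn_iff h.isOpen.isLocallyClosed]
    intro K' hK'Ω hK'
    have hc : IsCompact (Ψ '' K') := hK'.image hΨ.continuous
    have hsub : Ψ '' K' ⊆ Ω := by
      rintro _ ⟨y, hy, rfl⟩
      exact piola_mem h2 hKΩ (piola_id h1 hid) (hK'Ω hy)
    have hj : IntegrableOn j (Ψ '' K') (μH[1] : Measure ℂ) :=
      h.intj.integrableOn_compact_subset hsub hc
    have h3 : IntegrableOn (fun x => piola_cof (fderiv ℝ Φ x) (j x)) (Ψ '' K')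
        (μH[1] : Measure ℂ) := by
      have h4 : IntegrableOn (fun x => Complex.I * j x) (Ψ '' K') (μH[1] : Measure ℂ) :=
        hj.const_mul Complex.I
      have h5 := piola_intOn (hΦ.continuous_fderiv (by simp)) hc h4
      exact Integrable.const_mul h5 (-Complex.I)
    have h6 : IntegrableOn (piola_jf j Ψ) (jumpSet Ω (fun y => u (Ψ y)) ∩ K')
        (μH[1] : Measure ℂ) := by
      rw [(piola_integral h hΦ hΨ h1 h2 hKΩ hid hK' hK'Ω (piola_jf j Ψ)).2]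
      refine h3.congr (Eventually.of_forall fun x => ?_)
      exact (piola_jf_tfac hΦd hΨd h1 hdet j x).symm
    refine h6.of_forall_sdiff_eq_zero hK'.measurableSet fun y hy => ?_
    exact piola_jf_zero (piola_isJumpField h hΦ hΨ h1 h2 hKΩ hid) (hK'Ω hy.1)
      fun hy' => hy.2 ⟨hy', hy.1⟩
  · -- the weak formulation
    intro φ hφ hφc hφs v
    set K' := tsupport φ with hK'def
    have hK' : IsCompact K' := hφc
    have hc : IsCompact (Ψ '' K') := hK'.image hΨ.continuous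
    have hsub : Ψ '' K' ⊆ Ω := by
      rintro _ ⟨y, hy, rfl⟩
      exact piola_mem h2 hKΩ (piola_id h1 hid) (hφs hy)
    have hpre : Ψ '' K' = Φ ⁻¹' K' := piola_image_preimage h2 h1 K'
    have himg : Φ '' Ω = Ω := by
      ext y
      constructor
      · rintro ⟨x, hx, rfl⟩
        exact piola_mem h1 hKΩ hid hx
      · intro hy
        exact ⟨Ψ y, piola_mem h2 hKΩ (piola_id h1 hid) hy, h2 y⟩
    set Y : ℂ → ℂ := fun x => (φ (Φ x)) • piola_adj (fderiv ℝ Φ x) v with hYdef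
    have hY : ContDiff ℝ ∞ Y := piola_contDiff hΦ hφ v
    have hY0 : ∀ x, x ∉ Ψ '' K' → Y x = 0 := by
      intro x hx
      rw [hpre] at hx
      have : φ (Φ x) = 0 := image_eq_zero_of_notMem_tsupport hx
      rw [hYdef]
      simp [this]
    have hYt : tsupport Y ⊆ Ψ '' K' := by
      refine closure_minimal (fun x hx => ?_) hc.isClosed
      by_contra hx'
      exact hx (hY0 x hx')
    have hYc : HasCompactSupport Y := IsCompact.of_isClosed_subset hc (isClosed_tsupport _) hYt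
    have hform := vf_form h hY hYc (hYt.trans hsub)
    -- the left-hand side
    have l : ∫ y in Ω, u (Ψ y) * fderiv ℝ φ y v = ∫ x in Ω, u x * dv Y x := by
      have := piola_change hΦd h1 hdet hΩm (fun y => u (Ψ y) * fderiv ℝ φ y v)
      rw [himg] at this
      rw [this]
      refine integral_congr_ae (Eventually.of_forall fun x => ?_)
      show (fderiv ℝ Φ x).det * (u (Ψ (Φ x)) * fderiv ℝ φ (Φ x) v) = u x * dv Y x
      rw [h1, hYdef, piola_dv hΦ hφ v x]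
      ring
    -- the gradient term
    have r1 : ∫ y in Ω, φ y * inner ℝ (ContinuousLinearMap.adjoint (fderiv ℝ Ψ y) (g (Ψ y))) v =
        ∫ x in Ω, inner ℝ (g x) (Y x) := by
      have := piola_change hΦd h1 hdet hΩm (fun y => φ y *
        inner ℝ (ContinuousLinearMap.adjoint (fderiv ℝ Ψ y) (g (Ψ y))) v)
      rw [himg] at this
      rw [this]
      refine integral_congr_ae (Eventually.of_forall fun x => ?_)
      show (fderiv ℝ Φ x).det * (φ (Φ x) * inner ℝ (ContinuousLinearMap.adjoint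
        (fderiv ℝ Ψ (Φ x)) (g (Ψ (Φ x)))) v) = inner ℝ (g x) (Y x)
      rw [h1, hYdef]
      show _ = inner ℝ (g x) ((φ (Φ x)) • piola_adj (fderiv ℝ Φ x) v)
      rw [real_inner_smul_right, ← piola_cof_adj, ← piola_cof_eq (piola_fderiv hΦd hΨd h1 x),
        real_inner_smul_left]
      ring
    -- the jump term
    have r2 : ∫ y in Ω, φ y * inner ℝ (piola_jf j Ψ y) v ∂(μH[1] : Measure ℂ) =
        ∫ x in Ω, inner ℝ (j x) (Y x) ∂(μH[1] : Measure ℂ) := by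
      have e1 : ∫ y in Ω, φ y * inner ℝ (piola_jf j Ψ y) v ∂(μH[1] : Measure ℂ) =
          ∫ y in jumpSet Ω (fun y => u (Ψ y)) ∩ K',
            φ y * inner ℝ (piola_jf j Ψ y) v ∂(μH[1] : Measure ℂ) := by
        refine setIntegral_eq_of_subset_of_forall_sdiff_eq_zero hΩm
          (fun y hy => hφs hy.2) fun y hy => ?_
        by_cases hy' : y ∈ K'
        · rw [piola_jf_zero (piola_isJumpField h hΦ hΨ h1 h2 hKΩ hid) hy.1
            fun hy'' => hy.2 ⟨hy'', hy'⟩]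
          simp
        · rw [image_eq_zero_of_notMem_tsupport hy', zero_mul]
      have e2 : ∫ x in Ω, inner ℝ (j x) (Y x) ∂(μH[1] : Measure ℂ) =
          ∫ x in Ψ '' K', inner ℝ (j x) (Y x) ∂(μH[1] : Measure ℂ) := by
        refine setIntegral_eq_of_subset_of_forall_sdiff_eq_zero hΩm hsub fun x hx => ?_
        rw [hY0 x hx.2, inner_zero_right]
      rw [e1, e2, (piola_integral h hΦ hΨ h1 h2 hKΩ hid hK' hφs _).1]
      refine integral_congr_ae (Eventually.of_forall fun x => ?_)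
      show (tfac Φ j x).toReal • (φ (Φ x) * inner ℝ (piola_jf j Ψ (Φ x)) v) =
        inner ℝ (j x) (Y x)
      rw [hYdef]
      show _ = inner ℝ (j x) ((φ (Φ x)) • piola_adj (fderiv ℝ Φ x) v)
      rw [real_inner_smul_right, ← piola_cof_adj, ← piola_jf_tfac hΦd hΨd h1 hdet j x,
        real_inner_smul_left, smul_eq_mul]
      ring
    show ∫ y in Ω, u (Ψ y) * fderiv ℝ φ y v = _
    rw [l, hform, ← r1, ← r2]

end Pool.Agent.MP099f24
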