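import Pool.Agent.Lib.MP_099f24_an.SD.Defs
import Pool.Agent.Lib.MP_099f24_an.JumpBasic
import Pool.Agent.Lib.MP_099f24_an.SD.Meass
import Pool.Agent.Lib.MP_099f24_an.SD.JRep
import Pool.Agent.Lib.MP_099f24_an.SD.Area
import Pool.Agent.Lib.MP_099f24_an.SD.Piola

namespace Pool.Agent.MP099f24

open MeasureTheory Filter Topology Set Metric
open scoped ENNReal ContDiff

/-! ## linear algebra in the plane -/

lemma fvar_apply (B : ℂ →L[ℝ] ℂ) (v : ℂ) :
    B v = (v.re : ℝ) • B 1 + (v.im : ℝ) • B Complex.I := by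
  have h : v = (v.re : ℝ) • (1 : ℂ) + (v.im : ℝ) • Complex.I := by
    apply Complex.ext <;> simp
  conv_lhs => rw [h]
  rw [map_add, map_smul, map_smul]

lemma fvar_re (B : ℂ →L[ℝ] ℂ) (v : ℂ) :
    (B v).re = v.re * (B 1).re + v.im * (B Complex.I).re := by
  rw [fvar_apply]; simp

lemma fvar_im (B : ℂ →L[ℝ] ℂ) (v : ℂ) :
    (B v).im = v.re * (B 1).im + v.im * (B Complex.I).im := by
  rw [fvar_apply]; simp

lemma fvar_det (B : ℂ →L[ℝ] ℂ) :
    B.det = (B 1).re * (B Complex.I).im - (B 1).im * (B Complex.I).re := by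
  have h : B.det = (LinearMap.toMatrix Complex.basisOneI Complex.basisOneI
      (B : ℂ →ₗ[ℝ] ℂ)).det := (LinearMap.det_toMatrix _ _).symm
  rw [h, Matrix.det_fin_two]
  simp [LinearMap.toMatrix_apply]
  ring

lemma fvar_normSq (z : ℂ) : ‖z‖ ^ 2 = z.re ^ 2 + z.im ^ 2 := by
  rw [← Complex.normSq_eq_norm_sq, Complex.normSq_apply]; ring

lemma fvar_inner (z w : ℂ) : inner ℝ z w = z.re * w.re + z.im * w.im := by
  rw [Complex.inner]; simp; ring

/-- `|A^{-T} g|² det A = |A (I g)|² / det A` -/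
lemma fvar_adj (A P : ℂ →L[ℝ] ℂ) (hPA : ∀ v, P (A v) = v) (hdet : 0 < A.det) (g : ℂ) :
    ‖ContinuousLinearMap.adjoint P g‖ ^ 2 * A.det = ‖A (Complex.I * g)‖ ^ 2 / A.det := by
  have hw : (A.det : ℝ) • ContinuousLinearMap.adjoint P g = -(Complex.I * A (Complex.I * g)) := by
    -- test against all vectors `A v`
    have hsurj : ∀ z : ℂ, ∃ v, A v = z := by
      intro z
      have hbij : Function.Surjective (A : ℂ →ₗ[ℝ] ℂ) := by
        rw [← LinearMap.injective_iff_surjective]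
        intro v w hvw
        have := congrArg P hvw
        rw [← hPA v, ← hPA w]
        exact this
      exact hbij z
    have h1 : ∀ v, inner ℝ ((A.det : ℝ) • ContinuousLinearMap.adjoint P g) (A v) =
        inner ℝ (-(Complex.I * A (Complex.I * g))) (A v) := by
      intro v
      rw [real_inner_smul_left, ContinuousLinearMap.adjoint_inner_left, hPA]
      rw [fvar_inner, fvar_inner, fvar_det]
      simp only [Complex.neg_re, Complex.neg_im, Complex.mul_re, Complex.mul_im, Complex.I_re,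
        Complex.I_im, fvar_re A v, fvar_im A v, fvar_re A (Complex.I * g),
        fvar_im A (Complex.I * g)]
      ring
    apply ext_inner_right ℝ
    intro z
    obtain ⟨v, rfl⟩ := hsurj z
    exact h1 v
  have h2 : ‖(A.det : ℝ) • ContinuousLinearMap.adjoint P g‖ = ‖A (Complex.I * g)‖ := by
    rw [hw, norm_neg, norm_mul, Complex.norm_I, one_mul]
  rw [norm_smul, Real.norm_eq_abs, abs_of_pos hdet] at h2
  rw [eq_div_iff hdet.ne', ← h2]
  ring

lemma fvar_entries {B : ℂ →L[ℝ] ℂ} {M : ℝ} (hB : ‖B‖ ≤ M) :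
    |(B 1).re| ≤ M ∧ |(B 1).im| ≤ M ∧ |(B Complex.I).re| ≤ M ∧ |(B Complex.I).im| ≤ M := by
  have h1 : ‖B 1‖ ≤ M := by
    have := B.le_opNorm 1
    rw [norm_one, mul_one] at this
    exact this.trans hB
  have h2 : ‖B Complex.I‖ ≤ M := by
    have := B.le_opNorm Complex.I
    rw [Complex.norm_I, mul_one] at this
    exact this.trans hB
  exact ⟨(Complex.abs_re_le_norm _).trans h1, (Complex.abs_im_le_norm _).trans h1,
    (Complex.abs_re_le_norm _).trans h2, (Complex.abs_im_le_norm _).trans h2⟩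

lemma fvar_norm_add (B : ℂ →L[ℝ] ℂ) (t : ℝ) (v : ℂ) :
    ‖(ContinuousLinearMap.id ℝ ℂ + t • B) v‖ ^ 2 =
      ‖v‖ ^ 2 + 2 * t * inner ℝ (B v) v + t ^ 2 * ‖B v‖ ^ 2 := by
  rw [fvar_normSq, fvar_normSq, fvar_normSq, fvar_inner]
  simp
  ring

lemma fvar_det_add (B : ℂ →L[ℝ] ℂ) (t : ℝ) :
    (ContinuousLinearMap.id ℝ ℂ + t • B).det =
      1 + t * ((B 1).re + (B Complex.I).im) + t ^ 2 * B.det := by
  rw [fvar_det, fvar_det]
  simp
  ring

lemma fvar_det_abs {B : ℂ →L[ℝ] ℂ} {M : ℝ} (hB : ‖B‖ ≤ M) : |B.det| ≤ 2 * M ^ 2 := by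
  obtain ⟨h1, h2, h3, h4⟩ := fvar_entries hB
  have hM : 0 ≤ M := (norm_nonneg _).trans hB
  rw [fvar_det]
  have h5 : |(B 1).re * (B Complex.I).im| ≤ M * M := by
    rw [abs_mul]; exact mul_le_mul h1 h4 (abs_nonneg _) hM
  have h6 : |(B 1).im * (B Complex.I).re| ≤ M * M := by
    rw [abs_mul]; exact mul_le_mul h2 h3 (abs_nonneg _) hM
  calc _ ≤ |(B 1).re * (B Complex.I).im| + |(B 1).im * (B Complex.I).re| := abs_sub _ _
    _ ≤ _ := by nlinarith

lemma fvar_det_ge {B : ℂ →L[ℝ] ℂ} {M t : ℝ} (hB : ‖B‖ ≤ M) (ht : 0 ≤ t) (htM : t * M ≤ 1 / 4) :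
    1 / 4 ≤ (ContinuousLinearMap.id ℝ ℂ + t • B).det := by
  obtain ⟨h1, h2, h3, h4⟩ := fvar_entries hB
  have hM : 0 ≤ M := (norm_nonneg _).trans hB
  rw [fvar_det_add]
  have h5 := fvar_det_abs hB
  have h6 : -(2 * M ^ 2) ≤ B.det := (abs_le.1 h5).1
  have h7 : -(2 * M) ≤ (B 1).re + (B Complex.I).im := by
    have := (abs_le.1 h1).1; have := (abs_le.1 h4).1; linarith
  have h8 : -(2 * (t * M)) ≤ t * ((B 1).re + (B Complex.I).im) := by nlinarith
  have h9 : -(2 * (t * M) ^ 2) ≤ t ^ 2 * B.det := by nlinarith [sq_nonneg t]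
  have h10 : (t * M) ^ 2 ≤ 1 / 16 := by nlinarith [mul_nonneg ht hM]
  nlinarith

lemma fvar_expand {B : ℂ →L[ℝ] ℂ} {M t : ℝ} (hB : ‖B‖ ≤ M) (ht : 0 ≤ t) (htM : t * M ≤ 1 / 4)
    (g : ℂ) :
    ‖(ContinuousLinearMap.id ℝ ℂ + t • B) (Complex.I * g)‖ ^ 2 /
      (ContinuousLinearMap.id ℝ ℂ + t • B).det ≤
      ‖g‖ ^ 2 + t * (‖g‖ ^ 2 * ((B 1).re + (B Complex.I).im) - 2 * inner ℝ (B g) g) +
        60 * M ^ 2 * t ^ 2 * ‖g‖ ^ 2 := by
  have hM : 0 ≤ M := (norm_nonneg _).trans hB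
  have hdet := fvar_det_ge hB ht htM
  rw [div_le_iff₀ (by linarith), fvar_norm_add]
  have hI : inner ℝ (B (Complex.I * g)) (Complex.I * g) =
      ((B 1).re + (B Complex.I).im) * ‖g‖ ^ 2 - inner ℝ (B g) g := by
    rw [fvar_inner, fvar_inner, fvar_normSq, fvar_re B (Complex.I * g), fvar_im B (Complex.I * g),
      fvar_re B g, fvar_im B g]
    simp
    ring
  have hIg : ‖Complex.I * g‖ = ‖g‖ := by rw [norm_mul, Complex.norm_I, one_mul]
  rw [hI, hIg]
  set T := (B 1).re + (B Complex.I).im with hT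
  set q := inner ℝ (B g) g with hq
  set Gg := ‖g‖ ^ 2 with hG
  have hG0 : 0 ≤ Gg := sq_nonneg _
  obtain ⟨h1, -, -, h4⟩ := fvar_entries hB
  have hTM : |T| ≤ 2 * M := by
    calc |T| ≤ |(B 1).re| + |(B Complex.I).im| := abs_add_le _ _
      _ ≤ _ := by linarith
  have hqM : |q| ≤ M * Gg := by
    calc |q| ≤ ‖B g‖ * ‖g‖ := abs_real_inner_le_norm _ _
      _ ≤ (‖B‖ * ‖g‖) * ‖g‖ := by gcongr; exact B.le_opNorm g
      _ ≤ (M * ‖g‖) * ‖g‖ := by gcongr
      _ = M * Gg := by rw [hG]; ring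
  have hN : ‖B (Complex.I * g)‖ ^ 2 ≤ M ^ 2 * Gg := by
    have h : ‖B (Complex.I * g)‖ ≤ M * ‖g‖ := by
      calc _ ≤ ‖B‖ * ‖Complex.I * g‖ := B.le_opNorm _
        _ ≤ M * ‖g‖ := by rw [hIg]; gcongr
    calc _ ≤ (M * ‖g‖) ^ 2 := by gcongr
      _ = _ := by rw [hG]; ring
  have hD : |B.det| ≤ 2 * M ^ 2 := fvar_det_abs hB
  have hdet2 := hdet
  rw [fvar_det_add] at hdet2 ⊢
  set D := B.det
  rw [← hT] at hdet2 ⊢
  have hR : |T * Gg - 2 * q| ≤ 4 * M * Gg := by
    calc |T * Gg - 2 * q| ≤ |T * Gg| + |2 * q| := abs_sub _ _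
      _ = |T| * Gg + 2 * |q| := by rw [abs_mul, abs_mul, abs_of_nonneg hG0, abs_two]
      _ ≤ 2 * M * Gg + 2 * (M * Gg) := by gcongr
      _ = _ := by ring
  have e1 : -(2 * M ^ 2 * Gg) ≤ D * Gg := by
    have := (abs_le.1 hD).1
    nlinarith
  have e2 : -(8 * M ^ 2 * Gg) ≤ T * (T * Gg - 2 * q) := by
    have : |T * (T * Gg - 2 * q)| ≤ (2 * M) * (4 * M * Gg) := by
      rw [abs_mul]; exact mul_le_mul hTM hR (abs_nonneg _) (by positivity)
    have := (abs_le.1 this).1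
    nlinarith
  have e3 : -(8 * M ^ 3 * Gg) ≤ D * (T * Gg - 2 * q) := by
    have : |D * (T * Gg - 2 * q)| ≤ (2 * M ^ 2) * (4 * M * Gg) := by
      rw [abs_mul]; exact mul_le_mul hD hR (abs_nonneg _) (by positivity)
    have := (abs_le.1 this).1
    nlinarith
  have e4 : 60 * M ^ 2 * t ^ 2 * Gg * (1 / 4) ≤
      60 * M ^ 2 * t ^ 2 * Gg * (1 + t * T + t ^ 2 * D) := by
    apply mul_le_mul_of_nonneg_left hdet2
    positivity
  have e5 : t ^ 3 * (8 * M ^ 3 * Gg) ≤ 2 * M ^ 2 * t ^ 2 * Gg := by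
    have h0 : 0 ≤ M ^ 2 * t ^ 2 * Gg := by positivity
    nlinarith [mul_le_mul_of_nonneg_left htM h0]
  have e6 : t ^ 3 * (-(8 * M ^ 3 * Gg)) ≤ t ^ 3 * (D * (T * Gg - 2 * q)) :=
    mul_le_mul_of_nonneg_left e3 (by positivity)
  have e7 : t ^ 2 * (-(2 * M ^ 2 * Gg) + -(8 * M ^ 2 * Gg) - M ^ 2 * Gg) ≤
      t ^ 2 * (D * Gg + T * (T * Gg - 2 * q) - ‖B (Complex.I * g)‖ ^ 2) :=
    mul_le_mul_of_nonneg_left (by linarith) (by positivity)
  have key : (Gg + t * (Gg * T - 2 * q) + 60 * M ^ 2 * t ^ 2 * Gg) * (1 + t * T + t ^ 2 * D) -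
      (Gg + 2 * t * (T * Gg - q) + t ^ 2 * ‖B (Complex.I * g)‖ ^ 2) =
      t ^ 2 * (D * Gg + T * (T * Gg - 2 * q) - ‖B (Complex.I * g)‖ ^ 2) +
      t ^ 3 * (D * (T * Gg - 2 * q)) + 60 * M ^ 2 * t ^ 2 * Gg * (1 + t * T + t ^ 2 * D) := by
    ring
  have h0 : 0 ≤ M ^ 2 * t ^ 2 * Gg := by positivity
  nlinarith

/-! ## the diffeomorphism `id + t X` -/

lemma fvar_bound {X : ℂ → ℂ} (hX : ContDiff ℝ ∞ X) (hc : HasCompactSupport X) :
    ∃ M : ℝ, 1 ≤ M ∧ ∀ x, ‖fderiv ℝ X x‖ ≤ M := by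
  have h1 : Continuous (fderiv ℝ X) := hX.continuous_fderiv (by simp)
  have h2 : HasCompactSupport (fderiv ℝ X) := hc.fderiv ℝ
  obtain ⟨C, hC⟩ := h1.bounded_above_of_compact_support h2
  exact ⟨max C 1, le_max_right _ _, fun x => (hC x).trans (le_max_left _ _)⟩

lemma fvar_diffeo {X : ℂ → ℂ} (hX : ContDiff ℝ ∞ X) {M : ℝ} (hM1 : 1 ≤ M)
    (hM : ∀ x, ‖fderiv ℝ X x‖ ≤ M) {t : ℝ} (ht : 0 < t) (htM : t * M ≤ 1 / 4) :
    ∃ Ψ : ℂ → ℂ, ContDiff ℝ ∞ Ψ ∧ (∀ x, Ψ (x + t • X x) = x) ∧ (∀ y, Ψ y + t • X (Ψ y) = y) := by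
  have hΦ : ContDiff ℝ ∞ (fun x => x + t • X x) := contDiff_id.add (hX.const_smul t)
  have hlip : LipschitzWith (Real.toNNReal (t * M)) (fun x => t • X x) := by
    refine lipschitzWith_of_nnnorm_fderiv_le (𝕜 := ℝ) ((hX.const_smul t).differentiable (by simp)) ?_
    intro x
    have h1 : fderiv ℝ (fun x => t • X x) x = t • fderiv ℝ X x :=
      fderiv_const_smul (hX.differentiable (by simp) x) t
    rw [← NNReal.coe_le_coe, coe_nnnorm, h1, norm_smul, Real.coe_toNNReal _ (by positivity),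
      Real.norm_eq_abs, abs_of_pos ht]
    exact mul_le_mul_of_nonneg_left (hM x) ht.le
  have happ : ApproximatesLinearOn (fun x => x + t • X x)
      ((ContinuousLinearEquiv.refl ℝ ℂ : ℂ ≃L[ℝ] ℂ) : ℂ →L[ℝ] ℂ) univ (Real.toNNReal (t * M)) := by
    intro x _ y _
    have h1 := hlip.dist_le_mul x y
    rw [dist_eq_norm, dist_eq_norm] at h1
    have h2 : x + t • X x - (y + t • X y) -
      ((ContinuousLinearEquiv.refl ℝ ℂ : ℂ ≃L[ℝ] ℂ) : ℂ →L[ℝ] ℂ) (x - y) =
        t • X x - t • X y := by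
      simp
      ring
    rw [h2]
    exact h1
  have hcst : Subsingleton ℂ ∨ Real.toNNReal (t * M) <
      ‖((ContinuousLinearEquiv.refl ℝ ℂ).symm : ℂ →L[ℝ] ℂ)‖₊⁻¹ := by
    right
    have h1 : ‖((ContinuousLinearEquiv.refl ℝ ℂ).symm : ℂ →L[ℝ] ℂ)‖₊ = 1 := by
      have : ((ContinuousLinearEquiv.refl ℝ ℂ).symm : ℂ →L[ℝ] ℂ) = ContinuousLinearMap.id ℝ ℂ := rfl
      rw [this]
      exact ContinuousLinearMap.nnnorm_id
    rw [h1, inv_one, Real.toNNReal_lt_one]
    linarith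
  let e : ℂ ≃ₜ ℂ := happ.toHomeomorph _ hcst
  have he : ∀ x, e x = x + t • X x := fun x => rfl
  have hder : ∀ x, HasFDerivAt (fun x => x + t • X x)
      (ContinuousLinearMap.id ℝ ℂ + t • fderiv ℝ X x) x := by
    intro x
    exact (hasFDerivAt_id x).add
      (((hX.differentiable (by simp) x).hasFDerivAt).const_smul t)
  have hdet : ∀ x, (ContinuousLinearMap.id ℝ ℂ + t • fderiv ℝ X x).det ≠ 0 := by
    intro x
    have := fvar_det_ge (hM x) ht.le htM
    linarith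
  have hsm : ContDiff ℝ ∞ e.symm := by
    refine e.contDiff_symm (f₀' := fun x =>
      (ContinuousLinearMap.id ℝ ℂ + t • fderiv ℝ X x).toContinuousLinearEquivOfDetNeZero (hdet x))
      ?_ ?_
    · intro x
      have h2 : (((ContinuousLinearMap.id ℝ ℂ + t • fderiv ℝ X x).toContinuousLinearEquivOfDetNeZero
        (hdet x) : ℂ ≃L[ℝ] ℂ) : ℂ →L[ℝ] ℂ) = ContinuousLinearMap.id ℝ ℂ + t • fderiv ℝ X x :=
        ContinuousLinearMap.coe_toContinuousLinearEquivOfDetNeZero _ _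
      rw [h2]
      exact hder x
    · exact hΦ
  refine ⟨e.symm, hsm, ?_, ?_⟩
  · intro x
    rw [← he]
    exact e.symm_apply_apply x
  · intro y
    rw [← he]
    exact e.apply_symm_apply y

lemma fvar_hasFDerivAt {X : ℂ → ℂ} (hX : ContDiff ℝ ∞ X) (t : ℝ) (x : ℂ) :
    HasFDerivAt (fun x => x + t • X x) (ContinuousLinearMap.id ℝ ℂ + t • fderiv ℝ X x) x :=
  (hasFDerivAt_id x).add (((hX.differentiable (by simp) x).hasFDerivAt).const_smul t)

lemma fvar_inv_deriv {X : ℂ → ℂ} (hX : ContDiff ℝ ∞ X) {t : ℝ} {Ψ : ℂ → ℂ}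
    (hΨ : ContDiff ℝ ∞ Ψ) (h1 : ∀ x, Ψ (x + t • X x) = x) (x v : ℂ) :
    fderiv ℝ Ψ (x + t • X x) ((ContinuousLinearMap.id ℝ ℂ + t • fderiv ℝ X x) v) = v := by
  have h2 : HasFDerivAt (fun x => Ψ (x + t • X x))
      ((fderiv ℝ Ψ (x + t • X x)).comp (ContinuousLinearMap.id ℝ ℂ + t • fderiv ℝ X x)) x :=
    HasFDerivAt.comp x (hΨ.differentiable (by simp) (x + t • X x)).hasFDerivAt
      (fvar_hasFDerivAt hX t x)
  have h3 : HasFDerivAt (fun x => Ψ (x + t • X x)) (ContinuousLinearMap.id ℝ ℂ) x := by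
    have : (fun x => Ψ (x + t • X x)) = fun x => x := funext h1
    rw [this]
    exact hasFDerivAt_id x
  have h4 := h2.unique h3
  have h5 := congrArg (fun A : ℂ →L[ℝ] ℂ => A v) h4
  exact h5

/-- volume estimate -/
lemma fvar_vol {X : ℂ → ℂ} (hX : ContDiff ℝ ∞ X) {M : ℝ}
    (hM : ∀ x, ‖fderiv ℝ X x‖ ≤ M) {t : ℝ} (ht : 0 < t) (htM : t * M ≤ 1 / 4)
    {Ψ : ℂ → ℂ} (hΨ : ContDiff ℝ ∞ Ψ) (h1 : ∀ x, Ψ (x + t • X x) = x) {K : Set ℂ}
    (hK : MeasurableSet K) (hKK : (fun x => x + t • X x) '' K = K) (g : ℂ → ℂ) :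
    ∫⁻ y in K, ‖ContinuousLinearMap.adjoint (fderiv ℝ Ψ y) (g (Ψ y))‖ₑ ^ 2 ≤
      ∫⁻ x in K, ENNReal.ofReal (‖g x‖ ^ 2 + t * (‖g x‖ ^ 2 * dv X x -
        2 * inner ℝ (fderiv ℝ X x (g x)) (g x)) + 60 * M ^ 2 * t ^ 2 * ‖g x‖ ^ 2) := by
  have hinj : InjOn (fun x => x + t • X x) K := by
    intro x _ y _ hxy
    have := congrArg Ψ hxy
    simp only [h1] at this
    exact this
  have h2 := lintegral_image_eq_lintegral_abs_det_fderiv_mul volume hK
    (fun x _ => (fvar_hasFDerivAt hX t x).hasFDerivWithinAt) hinj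
    (fun y => ‖ContinuousLinearMap.adjoint (fderiv ℝ Ψ y) (g (Ψ y))‖ₑ ^ 2)
  rw [hKK] at h2
  rw [h2]
  refine lintegral_mono fun x => ?_
  simp only [h1]
  set A := ContinuousLinearMap.id ℝ ℂ + t • fderiv ℝ X x with hA
  have hdet : 1 / 4 ≤ A.det := fvar_det_ge (hM x) ht.le htM
  have hdet0 : 0 < A.det := by linarith
  have h3 : ∀ z : ℂ, ‖z‖ₑ ^ 2 = ENNReal.ofReal (‖z‖ ^ 2) := by
    intro z
    rw [← ofReal_norm, ENNReal.ofReal_pow (norm_nonneg _)]
  rw [h3, ← ENNReal.ofReal_mul (abs_nonneg _), abs_of_pos hdet0]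
  apply ENNReal.ofReal_le_ofReal
  rw [mul_comm, fvar_adj A (fderiv ℝ Ψ (x + t • X x))
    (fun v => fvar_inv_deriv hX hΨ h1 x v) hdet0 (g x)]
  exact fvar_expand (hM x) ht.le htM (g x)

/-! ## surface estimates -/

lemma fvar_tfac {X : ℂ → ℂ} (hX : ContDiff ℝ ∞ X) {M : ℝ}
    (hM : ∀ x, ‖fderiv ℝ X x‖ ≤ M) {t : ℝ} (ht : 0 < t) (htM : t * M ≤ 1 / 4) (j : ℂ → ℂ) {x : ℂ}
    (hx : j x ≠ 0) :
    tfac (fun x => x + t • X x) j x ≤ ENNReal.ofReal (1 + t * tdiv X j x + M ^ 2 * t ^ 2) := by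
  have hM0 : 0 ≤ M := (norm_nonneg _).trans (hM x)
  unfold tfac tdiv
  rw [(fvar_hasFDerivAt hX t x).fderiv]
  have hj : 0 < ‖j x‖ := norm_pos_iff.2 hx
  set v := Complex.I * j x with hv
  have hvn : ‖v‖ = ‖j x‖ := by rw [hv, norm_mul, Complex.norm_I, one_mul]
  rw [← ofReal_norm, ← ofReal_norm, ← ENNReal.ofReal_div_of_pos hj]
  apply ENNReal.ofReal_le_ofReal
  rw [div_le_iff₀ hj]
  set B := fderiv ℝ X x with hB
  have hBv : ‖B v‖ ≤ M * ‖j x‖ := by
    calc _ ≤ ‖B‖ * ‖v‖ := B.le_opNorm _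
      _ ≤ M * ‖j x‖ := by rw [hvn]; gcongr; exact hM x
  have hin : |inner ℝ (B v) v| ≤ M * ‖j x‖ ^ 2 := by
    calc _ ≤ ‖B v‖ * ‖v‖ := abs_real_inner_le_norm _ _
      _ ≤ (M * ‖j x‖) * ‖j x‖ := by rw [hvn]; gcongr
      _ = _ := by ring
  have h1 := fvar_norm_add B t v
  rw [hvn] at h1
  set q := inner ℝ (B v) v / ‖j x‖ ^ 2 with hq
  have hqe : inner ℝ (B v) v = q * ‖j x‖ ^ 2 := by
    rw [hq]; field_simp
  have hqM : |q| ≤ M := by
    rw [hq, abs_div, abs_of_pos (by positivity : 0 < ‖j x‖ ^ 2), div_le_iff₀ (by positivity)]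
    exact hin
  have hs : 0 ≤ 1 + t * q + M ^ 2 * t ^ 2 := by
    have := (abs_le.1 hqM).1
    nlinarith [sq_nonneg (M * t)]
  have hsq : ‖(ContinuousLinearMap.id ℝ ℂ + t • B) v‖ ^ 2 ≤
      ((1 + t * q + M ^ 2 * t ^ 2) * ‖j x‖) ^ 2 := by
    rw [h1, hqe]
    have h2 : ‖B v‖ ^ 2 ≤ M ^ 2 * ‖j x‖ ^ 2 := by
      calc _ ≤ (M * ‖j x‖) ^ 2 := by gcongr
        _ = _ := by ring
    have h3 : t ^ 2 * ‖B v‖ ^ 2 ≤ t ^ 2 * (M ^ 2 * ‖j x‖ ^ 2) := by gcongr
    have h4 : 0 ≤ ‖j x‖ ^ 2 * ((t * q + M ^ 2 * t ^ 2) ^ 2 + M ^ 2 * t ^ 2) := by positivity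
    nlinarith
  exact le_of_sq_le_sq hsq (by positivity)

lemma fvar_lip {X : ℂ → ℂ} (hX : ContDiff ℝ ∞ X) {M : ℝ}
    (hM : ∀ x, ‖fderiv ℝ X x‖ ≤ M) {t : ℝ} (ht : 0 < t) (htM : t * M ≤ 1 / 4) {lam : ℂ → ℝ}
    (hb : ∀ x v, inner ℝ (fderiv ℝ X x v) v ≤ lam x * ‖v‖ ^ 2) {x₀ : ℂ} {r δ : ℝ}
    (hδ : ∀ x ∈ ball x₀ r, lam x ≤ lam x₀ + δ) :
    LipschitzOnWith (Real.toNNReal (1 + t * (lam x₀ + δ) + M ^ 2 * t ^ 2))
      (fun x => x + t • X x) (ball x₀ r) := by
  have hM0 : 0 ≤ M := (norm_nonneg _).trans (hM x₀)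
  refine (convex_ball x₀ r).lipschitzOnWith_of_nnnorm_hasFDerivWithin_le
    (fun x _ => (fvar_hasFDerivAt hX t x).hasFDerivWithinAt) ?_
  intro x hx
  have hlow : -M ≤ lam x := by
    have h1 := hb x 1
    rw [norm_one, one_pow, mul_one] at h1
    have h2 : |inner ℝ (fderiv ℝ X x 1) (1 : ℂ)| ≤ M := by
      calc _ ≤ ‖fderiv ℝ X x 1‖ * ‖(1 : ℂ)‖ := abs_real_inner_le_norm _ _
        _ ≤ M := by
          rw [norm_one, mul_one]
          have := (fderiv ℝ X x).le_opNorm 1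
          rw [norm_one, mul_one] at this
          exact this.trans (hM x)
    have := (abs_le.1 h2).1
    linarith
  have hlx := hδ x hx
  have hL0 : 0 ≤ 1 + t * (lam x₀ + δ) + M ^ 2 * t ^ 2 := by
    nlinarith [sq_nonneg (M * t)]
  rw [← NNReal.coe_le_coe, coe_nnnorm, Real.coe_toNNReal _ hL0]
  refine ContinuousLinearMap.opNorm_le_bound _ hL0 fun v => ?_
  have h1 := fvar_norm_add (fderiv ℝ X x) t v
  have hsq : ‖(ContinuousLinearMap.id ℝ ℂ + t • fderiv ℝ X x) v‖ ^ 2 ≤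
      ((1 + t * (lam x₀ + δ) + M ^ 2 * t ^ 2) * ‖v‖) ^ 2 := by
    rw [h1]
    have h2 : ‖fderiv ℝ X x v‖ ^ 2 ≤ M ^ 2 * ‖v‖ ^ 2 := by
      have : ‖fderiv ℝ X x v‖ ≤ M * ‖v‖ :=
        ((fderiv ℝ X x).le_opNorm v).trans (by gcongr; exact hM x)
      calc _ ≤ (M * ‖v‖) ^ 2 := by gcongr
        _ = _ := by ring
    have h3 : t ^ 2 * ‖fderiv ℝ X x v‖ ^ 2 ≤ t ^ 2 * (M ^ 2 * ‖v‖ ^ 2) := by gcongr
    have h4 : 0 ≤ ‖v‖ ^ 2 * ((t * (lam x₀ + δ) + M ^ 2 * t ^ 2) ^ 2 + M ^ 2 * t ^ 2) := by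
      positivity
    have h5 : 2 * t * inner ℝ (fderiv ℝ X x v) v ≤ 2 * t * ((lam x₀ + δ) * ‖v‖ ^ 2) := by
      have h6 : inner ℝ (fderiv ℝ X x v) v ≤ (lam x₀ + δ) * ‖v‖ ^ 2 :=
        (hb x v).trans (by gcongr)
      have h7 : 0 ≤ 2 * t := by positivity
      exact mul_le_mul_of_nonneg_left h6 h7
    nlinarith
  exact le_of_sq_le_sq hsq (by positivity)

lemma fvar_surface {X : ℂ → ℂ} (hX : ContDiff ℝ ∞ X) {M : ℝ}
    (hM : ∀ x, ‖fderiv ℝ X x‖ ≤ M) {t : ℝ} (ht : 0 < t) (htM : t * M ≤ 1 / 4) {lam : ℂ → ℝ}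
    (hl : Continuous lam) (hb : ∀ x v, inner ℝ (fderiv ℝ X x v) v ≤ lam x * ‖v‖ ^ 2) {δ : ℝ}
    (hδ : 0 < δ) {K : Set ℂ} (hK : IsCompact K) {E : Set ℂ} (hE : MeasurableSet E)
    (hEK : E ⊆ K) :
    (μH[1] : Measure ℂ) ((fun x => x + t • X x) '' E) ≤
      ∫⁻ x in E, ENNReal.ofReal (1 + t * lam x + 2 * δ * t + M ^ 2 * t ^ 2)
        ∂(μH[1] : Measure ℂ) := by
  have hball : ∀ x : ℂ, ∃ r > 0, ∀ y ∈ ball x r, |lam y - lam x| < δ := by
    intro x
    obtain ⟨r, hr, h⟩ := Metric.continuousAt_iff.1 hl.continuousAt δ hδ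
    exact ⟨r, hr, fun y hy => h hy⟩
  choose r hr hrd using hball
  obtain ⟨T, -, hT⟩ := hK.elim_nhds_subcover (fun x => ball x (r x))
    (fun x _ => ball_mem_nhds x (hr x))
  have main : ∀ (T : Finset ℂ) (E : Set ℂ), MeasurableSet E → E ⊆ ⋃ x ∈ T, ball x (r x) →
      (μH[1] : Measure ℂ) ((fun x => x + t • X x) '' E) ≤
        ∫⁻ x in E, ENNReal.ofReal (1 + t * lam x + 2 * δ * t + M ^ 2 * t ^ 2)
          ∂(μH[1] : Measure ℂ) := by
    classical
    intro T
    induction T using Finset.induction_on with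
    | empty =>
      intro E _ hE2
      have : E = ∅ := by
        rw [eq_empty_iff_forall_notMem]
        intro x hx
        simpa using hE2 hx
      simp [this]
    | insert a T _ ih =>
      intro E hEm hE2
      have h1 := ih (E \ ball a (r a)) (hEm.diff measurableSet_ball) (by
        intro x hx
        have := hE2 hx.1
        simp only [Finset.mem_insert, mem_iUnion, exists_prop] at this ⊢
        obtain ⟨y, rfl | hy, hxy⟩ := this
        · exact absurd hxy hx.2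
        · exact ⟨y, hy, hxy⟩)
      have hlipE := (fvar_lip hX hM ht htM hb (x₀ := a) (r := r a) (δ := δ) (fun x hx => by
        have := (abs_lt.1 (hrd a x hx)).2
        linarith)).mono (inter_subset_right : E ∩ ball a (r a) ⊆ ball a (r a))
      have h2 : (μH[1] : Measure ℂ) ((fun x => x + t • X x) '' (E ∩ ball a (r a))) ≤
          ∫⁻ x in E ∩ ball a (r a),
            ENNReal.ofReal (1 + t * lam x + 2 * δ * t + M ^ 2 * t ^ 2)
              ∂(μH[1] : Measure ℂ) := by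
        have h3 := hlipE.hausdorffMeasure_image_le (d := 1) zero_le_one
        refine h3.trans ?_
        rw [ENNReal.rpow_one, ← setLIntegral_const]
        refine setLIntegral_mono' (hEm.inter measurableSet_ball) fun x hx => ?_
        apply ENNReal.ofReal_le_ofReal
        have := (abs_lt.1 (hrd a x hx.2)).1
        nlinarith
      calc (μH[1] : Measure ℂ) ((fun x => x + t • X x) '' E)
          ≤ (μH[1] : Measure ℂ) ((fun x => x + t • X x) '' (E ∩ ball a (r a)) ∪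
              (fun x => x + t • X x) '' (E \ ball a (r a))) := by
            apply measure_mono
            rw [← image_union, inter_union_sdiff]
        _ ≤ _ := measure_union_le _ _
        _ ≤ _ := add_le_add h2 h1
        _ = _ := lintegral_inter_add_sdiff _ _ measurableSet_ball
  exact main T E hE (hEK.trans hT)

lemma fvar_lower {X : ℂ → ℂ} {M : ℝ} (hM : ∀ x, ‖fderiv ℝ X x‖ ≤ M) {lam : ℂ → ℝ}
    (hb : ∀ x v, inner ℝ (fderiv ℝ X x v) v ≤ lam x * ‖v‖ ^ 2) (x : ℂ) : -M ≤ lam x := by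
  have h1 := hb x 1
  rw [norm_one, one_pow, mul_one] at h1
  have h2 : |inner ℝ (fderiv ℝ X x 1) (1 : ℂ)| ≤ M := by
    calc _ ≤ ‖fderiv ℝ X x 1‖ * ‖(1 : ℂ)‖ := abs_real_inner_le_norm _ _
      _ ≤ M := by
        rw [norm_one, mul_one]
        have := (fderiv ℝ X x).le_opNorm 1
        rw [norm_one, mul_one] at this
        exact this.trans (hM x)
  have := (abs_le.1 h2).1
  linarith

lemma fvar_tdiv_bound {X : ℂ → ℂ} {M : ℝ} (hM : ∀ x, ‖fderiv ℝ X x‖ ≤ M) (j : ℂ → ℂ) (x : ℂ) :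
    |tdiv X j x| ≤ M := by
  have hM0 : 0 ≤ M := (norm_nonneg _).trans (hM x)
  unfold tdiv
  rcases eq_or_ne (j x) 0 with hx | hx
  · simp [hx, hM0]
  · have hj : 0 < ‖j x‖ := norm_pos_iff.2 hx
    have hvn : ‖Complex.I * j x‖ = ‖j x‖ := by rw [norm_mul, Complex.norm_I, one_mul]
    rw [abs_div, abs_of_pos (by positivity : 0 < ‖j x‖ ^ 2), div_le_iff₀ (by positivity)]
    calc _ ≤ ‖fderiv ℝ X x (Complex.I * j x)‖ * ‖Complex.I * j x‖ := abs_real_inner_le_norm _ _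
      _ ≤ (‖fderiv ℝ X x‖ * ‖Complex.I * j x‖) * ‖Complex.I * j x‖ := by
        gcongr; exact ContinuousLinearMap.le_opNorm _ _
      _ ≤ (M * ‖j x‖) * ‖j x‖ := by rw [hvn]; gcongr; exact hM x
      _ = _ := by ring

lemma fvar_measurable_inner {X : ℂ → ℂ} (hX : ContDiff ℝ ∞ X) {v w : ℂ → ℂ} (hv : Measurable v)
    (hw : Measurable w) : Measurable (fun x => inner ℝ (fderiv ℝ X x (v x)) (w x)) := by
  have h1 : Continuous (fun x => fderiv ℝ X x 1) :=
    (hX.continuous_fderiv (by simp)).clm_apply continuous_const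
  have h2 : Continuous (fun x => fderiv ℝ X x Complex.I) :=
    (hX.continuous_fderiv (by simp)).clm_apply continuous_const
  have h3 : (fun x => inner ℝ (fderiv ℝ X x (v x)) (w x)) = fun x =>
      ((v x).re * (fderiv ℝ X x 1).re + (v x).im * (fderiv ℝ X x Complex.I).re) * (w x).re +
      ((v x).re * (fderiv ℝ X x 1).im + (v x).im * (fderiv ℝ X x Complex.I).im) * (w x).im := by
    funext x
    rw [fvar_inner, fvar_re, fvar_im]
  rw [h3]
  have := Complex.measurable_re.comp h1.measurable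
  have := Complex.measurable_im.comp h1.measurable
  have := Complex.measurable_re.comp h2.measurable
  have := Complex.measurable_im.comp h2.measurable
  have := Complex.measurable_re.comp hv
  have := Complex.measurable_im.comp hv
  have := Complex.measurable_re.comp hw
  have := Complex.measurable_im.comp hw
  fun_prop

lemma fvar_continuous_dv {X : ℂ → ℂ} (hX : ContDiff ℝ ∞ X) : Continuous (dv X) := by
  have h1 : Continuous (fun x => fderiv ℝ X x 1) :=
    (hX.continuous_fderiv (by simp)).clm_apply continuous_const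
  have h2 : Continuous (fun x => fderiv ℝ X x Complex.I) :=
    (hX.continuous_fderiv (by simp)).clm_apply continuous_const
  exact (Complex.continuous_re.comp h1).add (Complex.continuous_im.comp h2)

lemma fvar_dv_bound {X : ℂ → ℂ} {M : ℝ} (hM : ∀ x, ‖fderiv ℝ X x‖ ≤ M) (x : ℂ) :
    |dv X x| ≤ 2 * M := by
  obtain ⟨h1, -, -, h4⟩ := fvar_entries (hM x)
  unfold dv
  calc _ ≤ |(fderiv ℝ X x 1).re| + |(fderiv ℝ X x Complex.I).im| := abs_add_le _ _
    _ ≤ _ := by linarith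

theorem first_variation {Ω : Set ℂ} {u : ℂ → ℝ} {g j : ℂ → ℂ} (h : MSMin Ω u g j) {X : ℂ → ℂ}
    (hX : ContDiff ℝ ∞ X) (hc : HasCompactSupport X) (hs : tsupport X ⊆ Ω) {lam : ℂ → ℝ}
    (hl : Continuous lam) (hb : ∀ x v, inner ℝ (fderiv ℝ X x v) v ≤ lam x * ‖v‖ ^ 2) :
    0 ≤ (∫ x in tsupport X, (‖g x‖ ^ 2 * dv X x - 2 * inner ℝ (fderiv ℝ X x (g x)) (g x))) +
      (∫ x in tsupport X, tdiv X j x ∂(μH[1] : Measure ℂ)) +
      ∫ x in (discSet Ω u \ jumpSet Ω u) ∩ tsupport X, lam x ∂(μH[1] : Measure ℂ) := by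
  set K := tsupport X with hK
  have hKc : IsCompact K := hc
  have hKm : MeasurableSet K := hKc.measurableSet
  obtain ⟨M, hM1, hM⟩ := fvar_bound hX hc
  have hM0 : 0 ≤ M := by linarith
  obtain ⟨C, j', hCσ, hCJ, hCnull, hj'm, hj'⟩ := jump_rep h.toSBVData hKc hs
  have hSm := measurableSet_discSet h.isOpen h.intu
  set S := discSet Ω u with hSdef
  set H : Measure ℂ := μH[1] with hH
  have hCm : MeasurableSet C := by
    obtain ⟨K', hK', hKU⟩ := hCσ
    rw [← hKU]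
    exact MeasurableSet.iUnion fun n => (hK' n).measurableSet
  have hJS : jumpSet Ω u ⊆ S := by
    rintro x ⟨hxΩ, a, b, ν, hj⟩
    refine ⟨hxΩ, ?_⟩
    obtain ⟨U, hU, hUi⟩ := h.intu x hxΩ
    rw [h.isOpen.nhdsWithin_eq hxΩ] at hU
    rintro ⟨z, hz⟩
    exact not_isApproxLim_of_isJump hU hUi hj z hz
  have hCS : C ⊆ S ∩ K := fun x hx => ⟨hJS (hCJ hx).1, (hCJ hx).2⟩
  set S2 := (S ∩ K) \ C with hS2
  have hSKm : MeasurableSet (S ∩ K) := hSm.inter hKm
  have hS2m : MeasurableSet S2 := hSKm.diff hCm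
  have hfin : H (S ∩ K) < ⊤ := h.fin_S K hKc hs
  have hCfin : H C < ⊤ := (measure_mono hCS).trans_lt hfin
  have hS2fin : H S2 < ⊤ := (measure_mono sdiff_subset).trans_lt hfin
  have hsplit : H (S ∩ K) = H C + H S2 := by
    rw [hS2, ← measure_inter_add_sdiff (S ∩ K) hCm, inter_eq_right.2 hCS]
  have hjne : ∀ x ∈ C, j x ≠ 0 := by
    intro x hx
    obtain ⟨hxΩ, hjump⟩ := (hCJ hx).1
    rcases h.jf x hxΩ with ⟨a, b, ν, hj, hjx⟩ | ⟨hno, -⟩
    · rw [hjx]
      refine smul_ne_zero (sub_ne_zero.2 hj.2.1) ?_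
      rw [← norm_pos_iff, hj.1]
      exact one_pos
    · exact absurd hjump hno
  -- the three integrals
  set I1 := ∫ x in K, (‖g x‖ ^ 2 * dv X x - 2 * inner ℝ (fderiv ℝ X x (g x)) (g x)) with hI1
  have hI2 : ∫ x in K, tdiv X j x ∂H = ∫ x in C, tdiv X j x ∂H := by
    refine setIntegral_eq_of_subset_of_ae_sdiff_eq_zero hKm.nullMeasurableSet
      (fun x hx => (hCJ hx).2) ?_
    rw [ae_iff]
    refine measure_mono_null ?_ hCnull
    intro x hx
    simp only [mem_ofPred_eq, Classical.not_imp] at hx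
    obtain ⟨⟨hxK, hxC⟩, hne⟩ := hx
    refine ⟨⟨?_, hxK⟩, hxC⟩
    by_contra hxJ
    apply hne
    have hxΩ := hs hxK
    rcases h.jf x hxΩ with ⟨a, b, ν, hj, -⟩ | ⟨-, hj0⟩
    · exact absurd ⟨hxΩ, a, b, ν, hj⟩ hxJ
    · simp [tdiv, hj0]
  have hI3 : ∫ x in (S \ jumpSet Ω u) ∩ K, lam x ∂H = ∫ x in S2, lam x ∂H := by
    have h1 : ((S \ jumpSet Ω u) ∩ K : Set ℂ) =ᵐ[H] S2 := by
      have h2 : (S \ jumpSet Ω u) ∩ K ⊆ S2 := by
        rintro x ⟨⟨hxS, hxJ⟩, hxK⟩
        exact ⟨⟨hxS, hxK⟩, fun hxC => hxJ (hCJ hxC).1⟩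
      refine (LE.le.eventuallyLE h2).antisymm ?_
      rw [ae_le_set]
      refine measure_mono_null ?_ hCnull
      rintro x ⟨⟨⟨hxS, hxK⟩, hxC⟩, hx2⟩
      refine ⟨⟨?_, hxK⟩, hxC⟩
      by_contra hxJ
      exact hx2 ⟨⟨hxS, hxJ⟩, hxK⟩
    rw [Measure.restrict_congr_set h1]
  rw [hI2, hI3]
  set I2 := ∫ x in C, tdiv X j x ∂H with hI2def
  set I3 := ∫ x in S2, lam x ∂H with hI3def
  set D := ∫ x in K, ‖g x‖ ^ 2 with hD
  have hD0 : 0 ≤ D := integral_nonneg fun x => by positivity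
  -- integrability
  have hgint : IntegrableOn (fun x => ‖g x‖ ^ 2) K := h.fin_g K hKc hs
  have hmeasB : Measurable (fun x => inner ℝ (fderiv ℝ X x (g x)) (g x)) :=
    fvar_measurable_inner hX h.meas_g h.meas_g
  have hint1 : IntegrableOn
      (fun x => ‖g x‖ ^ 2 * dv X x - 2 * inner ℝ (fderiv ℝ X x (g x)) (g x)) K := by
    refine Integrable.mono' (hgint.const_mul (4 * M)) ?_ ?_
    · exact (((h.meas_g.norm.pow_const 2).mul (fvar_continuous_dv hX).measurable).sub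
        (hmeasB.const_mul 2)).aestronglyMeasurable
    · refine Eventually.of_forall fun x => ?_
      rw [Real.norm_eq_abs]
      have h1 := fvar_dv_bound hM x
      have h2 : |inner ℝ (fderiv ℝ X x (g x)) (g x)| ≤ M * ‖g x‖ ^ 2 := by
        calc _ ≤ ‖fderiv ℝ X x (g x)‖ * ‖g x‖ := abs_real_inner_le_norm _ _
          _ ≤ (‖fderiv ℝ X x‖ * ‖g x‖) * ‖g x‖ := by
            gcongr; exact ContinuousLinearMap.le_opNorm _ _
          _ ≤ (M * ‖g x‖) * ‖g x‖ := by gcongr; exact hM x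
          _ = _ := by ring
      calc _ ≤ |‖g x‖ ^ 2 * dv X x| + |2 * inner ℝ (fderiv ℝ X x (g x)) (g x)| := abs_sub _ _
        _ = ‖g x‖ ^ 2 * |dv X x| + 2 * |inner ℝ (fderiv ℝ X x (g x)) (g x)| := by
          rw [abs_mul, abs_mul, abs_of_nonneg (by positivity : 0 ≤ ‖g x‖ ^ 2), abs_two]
        _ ≤ ‖g x‖ ^ 2 * (2 * M) + 2 * (M * ‖g x‖ ^ 2) := by gcongr
        _ = _ := by ring
  have hC1 : IntegrableOn (fun _ => (1 : ℝ)) C H := integrableOn_const hCfin.ne
  have hS1 : IntegrableOn (fun _ => (1 : ℝ)) S2 H := integrableOn_const hS2fin.ne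
  have hint2 : IntegrableOn (tdiv X j) C H := by
    have h1 : IntegrableOn (tdiv X j') C H := by
      refine Integrable.mono' (hC1.const_mul M) ?_ ?_
      · refine Measurable.aestronglyMeasurable ?_
        unfold tdiv
        have h3 : Measurable (fun x => Complex.I * j' x) := hj'm.const_mul _
        exact (fvar_measurable_inner hX h3 h3).div (hj'm.norm.pow_const 2)
      · refine Eventually.of_forall fun x => ?_
        rw [Real.norm_eq_abs, mul_one]
        exact fvar_tdiv_bound hM j' x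
    refine h1.congr_fun ?_ hCm
    intro x hx
    simp only [tdiv, hj' x hx]
  have hint3 : IntegrableOn lam S2 H := by
    obtain ⟨B, hB⟩ := hKc.exists_bound_of_continuousOn hl.continuousOn
    refine Integrable.mono' (hS1.const_mul B) hl.aestronglyMeasurable ?_
    filter_upwards [ae_restrict_mem hS2m] with x hx
    rw [mul_one]
    exact hB x hx.1.2
  -- the main inequality
  have key : ∀ δ > 0, ∀ t > 0, t * M ≤ 1 / 4 →
      0 ≤ I1 + I2 + I3 + 2 * δ * (H S2).toReal +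
        t * (60 * M ^ 2 * D + M ^ 2 * ((H C).toReal + (H S2).toReal)) := by
    intro δ hδ t ht htM
    obtain ⟨Ψ, hΨ, h1, h2⟩ := fvar_diffeo hX hM1 hM ht htM
    have hΦ : ContDiff ℝ ∞ (fun x => x + t • X x) := contDiff_id.add (hX.const_smul t)
    have hid : ∀ x, x ∉ K → x + t • X x = x := by
      intro x hx
      rw [image_eq_zero_of_notMem_tsupport hx, smul_zero, add_zero]
    have hmem : ∀ x, x ∈ K → x + t • X x ∈ K := by
      intro x hx
      by_contra hcon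
      have h3 := hid _ hcon
      have h4 := congrArg Ψ h3
      rw [h1, h1] at h4
      rw [h4] at hcon
      exact hcon hx
    have hmem' : ∀ x, x + t • X x ∈ K → x ∈ K := by
      intro x hx
      by_contra hcon
      rw [hid x hcon] at hx
      exact hcon hx
    have hKK : (fun x => x + t • X x) '' K = K := by
      apply Subset.antisymm
      · rintro _ ⟨x, hx, rfl⟩
        exact hmem x hx
      · intro y hy
        exact ⟨Ψ y, hmem' _ (by rw [h2]; exact hy), h2 y⟩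
    have hdet : ∀ x, 0 < (fderiv ℝ (fun x => x + t • X x) x).det := by
      intro x
      rw [(fvar_hasFDerivAt hX t x).fderiv]
      have := fvar_det_ge (hM x) ht.le htM
      linarith
    obtain ⟨hw1, hw2, hw3⟩ := sbv_comp h.toSBVData hΦ hΨ h1 h2 hKc hs hid hdet
    have hmin := h.min _ _ K hw1 hw2 hKc hs (by
      intro x _ hxK
      have h3 := h1 x
      rw [hid x hxK] at h3
      rw [h3])
    rw [hw3] at hmin
    have hvol := fvar_vol hX hM ht htM hΨ h1 hKm hKK g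
    have hsub : (fun x => x + t • X x) '' S ∩ K ⊆
        (fun x => x + t • X x) '' (jumpSet Ω u ∩ C) ∪ (fun x => x + t • X x) '' S2 := by
      rintro y ⟨⟨x, hxS, rfl⟩, hyK⟩
      have hxK := hmem' x hyK
      by_cases hxC : x ∈ C
      · exact Or.inl ⟨x, ⟨(hCJ hxC).1, hxC⟩, rfl⟩
      · exact Or.inr ⟨x, ⟨⟨hxS, hxK⟩, hxC⟩, rfl⟩
    have harea := area_jump h.toSBVData (hΦ.of_le (by simp)) (hΨ.of_le (by simp)) h1 h2 hKc hs hCm
      (fun x hx => (hCJ hx).2)
    have hC2 : ∫⁻ x in C, tfac (fun x => x + t • X x) j x ∂H ≤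
        ∫⁻ x in C, ENNReal.ofReal (1 + t * tdiv X j x + M ^ 2 * t ^ 2) ∂H :=
      setLIntegral_mono' hCm fun x hx => fvar_tfac hX hM ht htM j (hjne x hx)
    have hS3 := fvar_surface hX hM ht htM hl hb hδ hKc hS2m (fun x hx => hx.1.2)
    have hsurf : H ((fun x => x + t • X x) '' S ∩ K) ≤
        (∫⁻ x in C, ENNReal.ofReal (1 + t * tdiv X j x + M ^ 2 * t ^ 2) ∂H) +
        ∫⁻ x in S2, ENNReal.ofReal (1 + t * lam x + 2 * δ * t + M ^ 2 * t ^ 2) ∂H := by
      calc _ ≤ H ((fun x => x + t • X x) '' (jumpSet Ω u ∩ C) ∪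
            (fun x => x + t • X x) '' S2) := measure_mono hsub
        _ ≤ _ := measure_union_le _ _
        _ ≤ _ := add_le_add (harea.le.trans hC2) hS3
    -- to real numbers
    have hF1 : ∫⁻ x in K, ENNReal.ofReal (‖g x‖ ^ 2 + t * (‖g x‖ ^ 2 * dv X x -
        2 * inner ℝ (fderiv ℝ X x (g x)) (g x)) + 60 * M ^ 2 * t ^ 2 * ‖g x‖ ^ 2) =
        ENNReal.ofReal (D + t * I1 + 60 * M ^ 2 * t ^ 2 * D) := by
      rw [← ofReal_integral_eq_lintegral_ofReal]
      · congr 1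
        rw [integral_add, integral_add, integral_const_mul, integral_const_mul]
        · exact hgint
        · exact hint1.const_mul t
        · exact hgint.add (hint1.const_mul t)
        · exact hgint.const_mul _
      · exact (hgint.add (hint1.const_mul t)).add (hgint.const_mul _)
      · refine Eventually.of_forall fun x => ?_
        have h3 := fvar_expand (hM x) ht.le htM (g x)
        have h4 := fvar_det_ge (hM x) ht.le htM
        refine le_trans ?_ h3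
        positivity
    have hF2 : ∫⁻ x in C, ENNReal.ofReal (1 + t * tdiv X j x + M ^ 2 * t ^ 2) ∂H =
        ENNReal.ofReal ((H C).toReal + t * I2 + M ^ 2 * t ^ 2 * (H C).toReal) := by
      rw [← ofReal_integral_eq_lintegral_ofReal]
      · congr 1
        have h5 : ∀ x, 1 + t * tdiv X j x + M ^ 2 * t ^ 2 =
            1 + t * tdiv X j x + M ^ 2 * t ^ 2 * 1 := fun x => by ring
        simp_rw [h5]
        rw [integral_add, integral_add, integral_const_mul, integral_const_mul]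
        · simp [Measure.real, ← hI2def]
        · exact hC1
        · exact hint2.const_mul t
        · exact hC1.add (hint2.const_mul t)
        · exact hC1.const_mul _
      · have h6 := (hC1.add (hint2.const_mul t)).add (hC1.const_mul (M ^ 2 * t ^ 2))
        refine h6.congr (Eventually.of_forall fun x => ?_)
        simp only [Pi.add_apply]
        ring
      · refine Eventually.of_forall fun x => ?_
        have h3 := (abs_le.1 (fvar_tdiv_bound hM j x)).1
        change 0 ≤ 1 + t * tdiv X j x + M ^ 2 * t ^ 2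
        nlinarith [sq_nonneg (M * t)]
    have hF3 : ∫⁻ x in S2, ENNReal.ofReal (1 + t * lam x + 2 * δ * t + M ^ 2 * t ^ 2) ∂H =
        ENNReal.ofReal ((H S2).toReal + t * I3 + (2 * δ * t + M ^ 2 * t ^ 2) *
          (H S2).toReal) := by
      rw [← ofReal_integral_eq_lintegral_ofReal]
      · congr 1
        have h5 : ∀ x, 1 + t * lam x + 2 * δ * t + M ^ 2 * t ^ 2 =
            1 + t * lam x + (2 * δ * t + M ^ 2 * t ^ 2) * 1 := fun x => by ring
        simp_rw [h5]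
        rw [integral_add, integral_add, integral_const_mul, integral_const_mul]
        · simp [Measure.real, ← hI3def]
        · exact hS1
        · exact hint3.const_mul t
        · exact hS1.add (hint3.const_mul t)
        · exact hS1.const_mul _
      · have h6 := (hS1.add (hint3.const_mul t)).add (hS1.const_mul (2 * δ * t + M ^ 2 * t ^ 2))
        refine h6.congr (Eventually.of_forall fun x => ?_)
        simp only [Pi.add_apply]
        ring
      · refine Eventually.of_forall fun x => ?_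
        have h3 := fvar_lower hM hb x
        change 0 ≤ 1 + t * lam x + 2 * δ * t + M ^ 2 * t ^ 2
        have : 0 ≤ δ * t := by positivity
        nlinarith [sq_nonneg (M * t)]
    have hG : ∫⁻ x in K, ‖g x‖ₑ ^ 2 = ENNReal.ofReal D := by
      rw [hD, ofReal_integral_eq_lintegral_ofReal hgint
        (Eventually.of_forall fun x => by positivity)]
      refine lintegral_congr fun x => ?_
      rw [← ofReal_norm, ENNReal.ofReal_pow (norm_nonneg _)]
    have hnn1 : 0 ≤ D + t * I1 + 60 * M ^ 2 * t ^ 2 * D := by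
      have h3 : 0 ≤ ∫ x in K, (‖g x‖ ^ 2 + t * (‖g x‖ ^ 2 * dv X x -
        2 * inner ℝ (fderiv ℝ X x (g x)) (g x)) + 60 * M ^ 2 * t ^ 2 * ‖g x‖ ^ 2) := by
        refine integral_nonneg fun x => ?_
        have h3 := fvar_expand (hM x) ht.le htM (g x)
        have h4 := fvar_det_ge (hM x) ht.le htM
        refine le_trans ?_ h3
        positivity
      rw [integral_add, integral_add, integral_const_mul, integral_const_mul] at h3
      · exact h3
      · exact hgint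
      · exact hint1.const_mul t
      · exact hgint.add (hint1.const_mul t)
      · exact hgint.const_mul _
    have hnn2 : 0 ≤ (H C).toReal + t * I2 + M ^ 2 * t ^ 2 * (H C).toReal := by
      have h3 : -(M * (H C).toReal) ≤ I2 := by
        have h4 : ‖I2‖ ≤ M * (H C).toReal := by
          refine norm_setIntegral_le_of_norm_le_const hCfin fun x _ => ?_
          rw [Real.norm_eq_abs]
          exact fvar_tdiv_bound hM j x
        rw [Real.norm_eq_abs] at h4
        exact (abs_le.1 h4).1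
      have h5 : 0 ≤ (H C).toReal := ENNReal.toReal_nonneg
      have h6 : -(t * M * (H C).toReal) ≤ t * I2 := by nlinarith
      have h7 : t * M * (H C).toReal ≤ 1 / 4 * (H C).toReal := by gcongr
      have h8 : 0 ≤ M ^ 2 * t ^ 2 * (H C).toReal := by positivity
      linarith
    have hnn3 : 0 ≤ (H S2).toReal + t * I3 + (2 * δ * t + M ^ 2 * t ^ 2) * (H S2).toReal := by
      have h3 : -M * (H S2).toReal ≤ I3 := by
        have h4 : ∫ x in S2, (-M) ∂H ≤ I3 := by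
          refine setIntegral_mono (integrableOn_const hS2fin.ne) hint3 fun x => ?_
          exact fvar_lower hM hb x
        rw [setIntegral_const, smul_eq_mul, mul_comm] at h4
        exact h4
      have h5 : 0 ≤ (H S2).toReal := ENNReal.toReal_nonneg
      have h6 : -(t * M * (H S2).toReal) ≤ t * I3 := by nlinarith
      have h7 : t * M * (H S2).toReal ≤ 1 / 4 * (H S2).toReal := by gcongr
      have h8 : 0 ≤ (2 * δ * t + M ^ 2 * t ^ 2) * (H S2).toReal := by positivity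
      linarith
    rw [hG, hsplit] at hmin
    have htot : ENNReal.ofReal D + (H C + H S2) ≤
        ENNReal.ofReal (D + t * I1 + 60 * M ^ 2 * t ^ 2 * D) +
        (ENNReal.ofReal ((H C).toReal + t * I2 + M ^ 2 * t ^ 2 * (H C).toReal) +
          ENNReal.ofReal ((H S2).toReal + t * I3 + (2 * δ * t + M ^ 2 * t ^ 2) *
          (H S2).toReal)) := by
      refine hmin.trans (add_le_add (hvol.trans hF1.le) ?_)
      rw [← hF2, ← hF3]
      exact hsurf
    rw [← ENNReal.ofReal_toReal hCfin.ne, ← ENNReal.ofReal_toReal hS2fin.ne] at htot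
    simp only [ENNReal.toReal_ofReal ENNReal.toReal_nonneg] at htot
    rw [← ENNReal.ofReal_add ENNReal.toReal_nonneg ENNReal.toReal_nonneg,
      ← ENNReal.ofReal_add hD0 (by positivity), ← ENNReal.ofReal_add hnn2 hnn3,
      ← ENNReal.ofReal_add hnn1 (add_nonneg hnn2 hnn3),
      ENNReal.ofReal_le_ofReal_iff (add_nonneg hnn1 (add_nonneg hnn2 hnn3))] at htot
    have hfinal : 0 ≤ t * (I1 + I2 + I3 + 2 * δ * (H S2).toReal +
        t * (60 * M ^ 2 * D + M ^ 2 * ((H C).toReal + (H S2).toReal))) := by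
      nlinarith
    exact nonneg_of_mul_nonneg_right hfinal ht
  by_contra hneg
  push Not at hneg
  set I := I1 + I2 + I3 with hI
  set Q := 60 * M ^ 2 * D + M ^ 2 * ((H C).toReal + (H S2).toReal) with hQ
  have hQ0 : 0 ≤ Q := by positivity
  have hS0 : 0 ≤ (H S2).toReal := ENNReal.toReal_nonneg
  set δ := -I / (8 * ((H S2).toReal + 1)) with hδ
  have hδ0 : 0 < δ := by
    apply div_pos (by linarith) (by positivity)
  set t := min (1 / (4 * M)) (-I / (8 * (Q + 1))) with ht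
  have ht0 : 0 < t := by
    apply lt_min (by positivity)
    apply div_pos (by linarith) (by positivity)
  have htM : t * M ≤ 1 / 4 := by
    have h1 : t ≤ 1 / (4 * M) := min_le_left _ _
    calc t * M ≤ 1 / (4 * M) * M := by gcongr
      _ = 1 / 4 := by field_simp
  have h1 := key δ hδ0 t ht0 htM
  have h2 : 2 * δ * (H S2).toReal ≤ -I / 4 := by
    have h3 : δ * (8 * ((H S2).toReal + 1)) = -I := by
      rw [hδ]; field_simp
    nlinarith
  have h3 : t * Q ≤ -I / 8 := by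
    have h4 : t ≤ -I / (8 * (Q + 1)) := min_le_right _ _
    have h5 : t * (8 * (Q + 1)) ≤ -I := by
      rwa [le_div_iff₀ (by positivity)] at h4
    nlinarith
  linarith

end Pool.Agent.MP099f24
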