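import Mathlib
import Pool.Agent.Lib.MP_099f24_an.SD.Defs
import Pool.Agent.Lib.MP_099f24_an.Curve
import Pool.Agent.Lib.MP_099f24_an.JumpBasic
import Pool.Agent.Lib.MP_099f24_an.Unique
import Pool.Agent.Lib.MP_099f24_an.Calibration

/-!
# Gluing a function inside a disc (MP_099f24_an), core statements
-/

namespace Pool.Agent.MP099f24

open MeasureTheory Filter Topology Set Metric
open scoped ENNReal ContDiff

/-! ### The circle -/

theorem glue_norm_er (θ : ℝ) : ‖er θ‖ = 1 := by
  rw [er, Complex.norm_exp_ofReal_mul_I]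

theorem glue_dist_pc (a : ℂ) {s : ℝ} (hs : 0 < s) (θ : ℝ) : dist (pc a s θ) a = s := by
  rw [pc, dist_eq_norm, add_sub_cancel_left, norm_mul, glue_norm_er, mul_one,
    Complex.norm_real, Real.norm_of_nonneg hs.le]

theorem glue_hasDerivAt_pc (a : ℂ) (s θ : ℝ) :
    HasDerivAt (fun t : ℝ => pc a s t) ((s : ℂ) * (Complex.I * er θ)) θ := by
  have h1 : HasDerivAt (fun t : ℝ => ((t : ℝ) : ℂ) * Complex.I) (1 * Complex.I) θ :=
    (Complex.ofRealCLM.hasDerivAt (x := θ)).mul_const Complex.I
  have h2 : HasDerivAt (fun t : ℝ => er t) (er θ * (1 * Complex.I)) θ := by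
    show HasDerivAt (fun t : ℝ => Complex.exp ((t : ℂ) * Complex.I)) _ θ
    exact h1.cexp
  have h3 : HasDerivAt (fun t : ℝ => a + (s : ℂ) * er t) ((s : ℂ) * (er θ * (1 * Complex.I))) θ :=
    (h2.const_mul (s : ℂ)).const_add a
  have e : (s : ℂ) * (Complex.I * er θ) = (s : ℂ) * (er θ * (1 * Complex.I)) := by ring
  rw [e]
  exact h3

theorem glue_norm_deriv_pc (a : ℂ) {s : ℝ} (hs : 0 < s) (θ : ℝ) :
    ‖deriv (fun t : ℝ => pc a s t) θ‖ = s := by
  rw [(glue_hasDerivAt_pc a s θ).deriv, norm_mul, norm_mul, Complex.norm_I, glue_norm_er,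
    Complex.norm_real, Real.norm_of_nonneg hs.le, one_mul, mul_one]

theorem glue_contDiff_pc (a : ℂ) (s : ℝ) : ContDiff ℝ 1 (fun t : ℝ => pc a s t) := by
  have h1 : ContDiff ℝ 1 (fun t : ℝ => ((t : ℝ) : ℂ) * Complex.I) :=
    (Complex.ofRealCLM.contDiff).mul contDiff_const
  have h2 : ContDiff ℝ 1 (fun t : ℝ => Complex.exp (((t : ℝ) : ℂ) * Complex.I)) := h1.cexp
  exact contDiff_const.add (contDiff_const.mul h2)

theorem glue_lipschitz_pc (a : ℂ) {s : ℝ} (hs : 0 < s) :
    LipschitzWith (Real.toNNReal s) (fun t : ℝ => pc a s t) := by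
  refine lipschitzWith_of_nnnorm_deriv_le
    ((glue_contDiff_pc a s).differentiable (by norm_num)) ?_
  intro t
  rw [← NNReal.coe_le_coe, coe_nnnorm, glue_norm_deriv_pc a hs, Real.coe_toNNReal s hs.le]

theorem glue_injOn_pc (a : ℂ) {s : ℝ} (hs : 0 < s) :
    InjOn (fun t : ℝ => pc a s t) (Ico (-Real.pi) Real.pi) := by
  intro x hx y hy hxy
  have h1 : er x = er y := by
    have h2 : a + (s : ℂ) * er x = a + (s : ℂ) * er y := hxy
    have h3 : (s : ℂ) * er x = (s : ℂ) * er y := add_left_cancel h2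
    exact mul_left_cancel₀ (Complex.ofReal_ne_zero.2 hs.ne') h3
  rw [er, er, Complex.exp_eq_exp_iff_exists_int] at h1
  obtain ⟨n, hn⟩ := h1
  have h4 : x = y + n * (2 * Real.pi) := by
    have h5 := congrArg Complex.im hn
    simpa using h5
  have hpi := Real.pi_pos
  have hn0 : n = 0 := by
    by_contra hne
    rcases lt_or_gt_of_ne hne with hlt | hgt
    · have : (n : ℝ) ≤ -1 := by exact_mod_cast Int.le_sub_one_of_lt hlt
      nlinarith [hx.1, hy.2, hx.2, hy.1]
    · have : (1 : ℝ) ≤ n := by exact_mod_cast hgt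
      nlinarith [hx.1, hy.2, hx.2, hy.1]
  rw [h4, hn0]
  simp

theorem glue_exists_pc (a : ℂ) {s : ℝ} {x : ℂ} (hx : x ∈ sphere a s) :
    ∃ θ ∈ Ico (-Real.pi) Real.pi, pc a s θ = x := by
  have hpi := Real.pi_pos
  have hn : ‖x - a‖ = s := by rwa [mem_sphere, dist_eq_norm] at hx
  have h1 : pc a s (x - a).arg = x := by
    have h2 := Complex.norm_mul_exp_arg_mul_I (x - a)
    rw [hn] at h2
    rw [pc, er, h2]
    ring
  by_cases hc : (x - a).arg = Real.pi
  · refine ⟨-Real.pi, ⟨le_refl _, by linarith⟩, ?_⟩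
    rw [← h1, hc, pc, pc, er, er]
    have e1 : Complex.exp ((((-Real.pi : ℝ)) : ℂ) * Complex.I) = -1 := by
      rw [Complex.ofReal_neg, neg_mul, Complex.exp_neg, Complex.exp_pi_mul_I]
      norm_num
    rw [e1, Complex.exp_pi_mul_I]
  · exact ⟨(x - a).arg, ⟨(Complex.neg_pi_lt_arg _).le,
      lt_of_le_of_ne (Complex.arg_le_pi _) hc⟩, h1⟩

theorem glue_image_pc (a : ℂ) {s : ℝ} (hs : 0 < s) :
    (fun t : ℝ => pc a s t) '' Ico (-Real.pi) Real.pi = sphere a s := by
  ext x
  constructor
  · rintro ⟨θ, _, rfl⟩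
    exact glue_dist_pc a hs θ
  · intro hx
    obtain ⟨θ, hθ, h⟩ := glue_exists_pc a hx
    exact ⟨θ, hθ, h⟩

theorem glue_hausdorff_image (a : ℂ) {s : ℝ} (hs : 0 < s) (A : Set ℝ) :
    (μH[1] : Measure ℂ) ((fun t : ℝ => pc a s t) '' A) ≤ ENNReal.ofReal s * volume A := by
  have h := (glue_lipschitz_pc a hs).hausdorffMeasure_image_le (d := 1) zero_le_one A
  rw [hausdorffMeasure_real, ENNReal.rpow_one] at h
  exact h

theorem glue_ae_sphere (a : ℂ) {s : ℝ} (hs : 0 < s) {p : ℂ → Prop}
    (h : ∀ᵐ θ ∂(volume.restrict (Ioo (-Real.pi) Real.pi)), p (pc a s θ)) :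
    ∀ᵐ x ∂((μH[1] : Measure ℂ).restrict (sphere a s)), p x := by
  rw [ae_restrict_iff' isClosed_sphere.measurableSet, ae_iff]
  have h' : ∀ᵐ θ ∂(volume.restrict (Ico (-Real.pi) Real.pi)), p (pc a s θ) := by
    rwa [← Measure.restrict_congr_set Ioo_ae_eq_Ico]
  rw [ae_restrict_iff' measurableSet_Ico, ae_iff] at h'
  refine measure_mono_null ?_ (le_antisymm ((glue_hausdorff_image a hs _).trans
    (le_of_eq (by rw [h', mul_zero]))) (zero_le))
  intro x hx
  have hx' : ¬ (x ∈ sphere a s → p x) := hx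
  rw [Classical.not_imp] at hx'
  obtain ⟨θ, hθ, rfl⟩ := glue_exists_pc a hx'.1
  exact ⟨θ, fun hh => hx'.2 (hh hθ), rfl⟩

theorem glue_restrict_sphere (a : ℂ) {s : ℝ} (hs : 0 < s) :
    (μH[1] : Measure ℂ).restrict (sphere a s) =
      Measure.map (fun t : ℝ => pc a s t)
        (ENNReal.ofReal s • volume.restrict (Ioo (-Real.pi) Real.pi)) := by
  have hreg : ∀ t, deriv (fun t : ℝ => pc a s t) t ≠ 0 := by
    intro t h0
    have := glue_norm_deriv_pc a hs t
    rw [h0, norm_zero] at this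
    exact hs.ne this
  have h := hausdorff_curve (glue_contDiff_pc a s) hreg (glue_injOn_pc a hs)
  rw [glue_image_pc a hs] at h
  rw [h, Measure.restrict_congr_set Ioo_ae_eq_Ico]
  simp_rw [glue_norm_deriv_pc a hs]
  rw [withDensity_const]

theorem glue_integrableOn_sphere (a : ℂ) {s : ℝ} (hs : 0 < s) {E : Type*} [NormedAddCommGroup E]
    {f : ℂ → E} (hm : AEStronglyMeasurable f ((μH[1] : Measure ℂ).restrict (sphere a s)))
    (hi : IntegrableOn (fun θ => f (pc a s θ)) (Ioo (-Real.pi) Real.pi)) :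
    IntegrableOn f (sphere a s) (μH[1] : Measure ℂ) := by
  rw [IntegrableOn]
  rw [glue_restrict_sphere a hs] at hm ⊢
  rw [integrable_map_measure hm (glue_contDiff_pc a s).continuous.aemeasurable]
  exact Integrable.smul_measure hi ENNReal.ofReal_ne_top

theorem glue_integral_sphere (a : ℂ) {s : ℝ} (hs : 0 < s) (f : ℂ → ℝ) :
    ∫ x in sphere a s, f x ∂(μH[1] : Measure ℂ) =
      s * ∫ θ in Ioo (-Real.pi) Real.pi, f (pc a s θ) := by
  have hpi := Real.pi_pos
  have hreg : ∀ t, deriv (fun t : ℝ => pc a s t) t ≠ 0 := by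
    intro t h0
    have := glue_norm_deriv_pc a hs t
    rw [h0, norm_zero] at this
    exact hs.ne this
  have h := integral_curve (show -Real.pi ≤ Real.pi by linarith) (glue_contDiff_pc a s) hreg
    (glue_injOn_pc a hs) f
  rw [glue_image_pc a hs] at h
  rw [h]
  simp_rw [glue_norm_deriv_pc a hs]
  rw [intervalIntegral.integral_smul, smul_eq_mul,
    intervalIntegral.integral_of_le (by linarith), integral_Ioc_eq_integral_Ioo]

/-! ### The strip -/

theorem glue_strip {x ν : ℂ} (hν : ‖ν‖ = 1) {r δ : ℝ} (hδ : 0 ≤ δ) :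
    (volume : Measure ℂ) (ball x r ∩ {y | -δ < inner ℝ (y - x) ν ∧ inner ℝ (y - x) ν < 0}) ≤
      ENNReal.ofReal (2 * r * δ) := by
  obtain ⟨c, hc⟩ : ∃ c : Circle, (c : ℂ) = ν :=
    ⟨⟨ν, mem_sphere_zero_iff_norm.2 hν⟩, rfl⟩
  have hmp : MeasurePreserving (fun z : ℂ => x + rotation c z) volume volume :=
    (measurePreserving_add_left volume x).comp ((rotation c).measurePreserving)
  have hemb : MeasurableEmbedding (fun z : ℂ => x + rotation c z) :=
    (MeasurableEquiv.addLeft x).measurableEmbedding.comp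
      (rotation c).toHomeomorph.measurableEmbedding
  rw [← hmp.measure_preimage_emb hemb]
  have hsub : (fun z : ℂ => x + rotation c z) ⁻¹'
      (ball x r ∩ {y | -δ < inner ℝ (y - x) ν ∧ inner ℝ (y - x) ν < 0}) ⊆
      Complex.measurableEquivRealProd ⁻¹' (Ioo (-δ) 0 ×ˢ Ioo (-r) r) := by
    intro z hz
    obtain ⟨h1, h2, h3⟩ := hz
    have e1 : x + rotation c z - x = ν * z := by rw [add_sub_cancel_left, rotation_apply, hc]
    have e2 : inner ℝ (ν * z) ν = z.re := by
      have e3 : (starRingEnd ℂ) ν * ν = 1 := by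
        rw [← Complex.normSq_eq_conj_mul_self, Complex.normSq_eq_norm_sq, hν]
        norm_num
      rw [Complex.inner, map_mul]
      have e4 : (starRingEnd ℂ) ν * (starRingEnd ℂ) z * ν = (starRingEnd ℂ) z := by
        calc (starRingEnd ℂ) ν * (starRingEnd ℂ) z * ν =
            ((starRingEnd ℂ) ν * ν) * (starRingEnd ℂ) z := by ring
          _ = _ := by rw [e3, one_mul]
      first
        | rw [e4, Complex.conj_re]
        | (rw [mul_comm ν, e4, Complex.conj_re])
    have h2' : -δ < inner ℝ (x + rotation c z - x) ν := h2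
    have h3' : inner ℝ (x + rotation c z - x) ν < 0 := h3
    rw [e1, e2] at h2' h3'
    have h4 : ‖z‖ < r := by
      have h5 : dist (x + rotation c z) x < r := h1
      rwa [dist_eq_norm, add_sub_cancel_left, LinearIsometryEquiv.norm_map] at h5
    have h6 := abs_lt.1 (lt_of_le_of_lt (Complex.abs_im_le_norm z) h4)
    exact ⟨⟨h2', h3'⟩, ⟨h6.1, h6.2⟩⟩
  refine (measure_mono hsub).trans ?_
  rw [Complex.volume_preserving_equiv_real_prod.measure_preimage_equiv, Measure.volume_eq_prod,
    Measure.prod_prod, Real.volume_Ioo, Real.volume_Ioo, ← ENNReal.ofReal_mul (by linarith)]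
  refine le_of_eq (congrArg ENNReal.ofReal ?_)
  ring

theorem glue_tendsto {f g : ℝ → ℝ} (hf : ∀ r, 0 ≤ f r) (hg : Tendsto g (𝓝[>] 0) (𝓝 0))
    (h : ∀ ε > 0, ∀ᶠ r in 𝓝[>] (0 : ℝ), f r ≤ ε + g r) : Tendsto f (𝓝[>] 0) (𝓝 0) := by
  rw [Metric.tendsto_nhds]
  intro η hη
  have h1 := Metric.tendsto_nhds.1 hg (η / 2) (half_pos hη)
  filter_upwards [h (η / 2) (half_pos hη), h1] with r hr1 hr2
  rw [Real.dist_eq, sub_zero] at hr2 ⊢
  rw [abs_of_nonneg (hf r)]
  have := (abs_lt.1 hr2).2
  linarith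

theorem glue_avg_nonneg {f : ℂ → ℝ} (hf : ∀ y, 0 ≤ f y) (A : Set ℂ) : 0 ≤ ⨍ y in A, f y := by
  rw [setAverage_eq, smul_eq_mul]
  exact mul_nonneg (inv_nonneg.2 measureReal_nonneg) (integral_nonneg hf)

/-- the values of the glued function -/
theorem glue_in {E : Type*} {a : ℂ} {s : ℝ} {W u : ℂ → E} {x : ℂ} (hx : dist x a ≤ s) :
    glued a s W u x = W x := by
  rw [glued]
  exact if_pos hx

theorem glue_out {E : Type*} {a : ℂ} {s : ℝ} {W u : ℂ → E} {x : ℂ} (hx : ¬ dist x a ≤ s) :
    glued a s W u x = u x := by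
  rw [glued]
  exact if_neg hx

/-- Case (i): the two traces agree. -/
theorem glue_case_eq {a : ℂ} {s : ℝ} {W u : ℂ → ℝ} {x : ℂ} {U : Set ℂ}
    (hU : U ∈ 𝓝 x) (hu : IntegrableOn u U) (hw : IntegrableOn (glued a s W u) U)
    (hW : ContinuousWithinAt W (closedBall a s) x)
    (h : IsApproxLim u x (W x)) : IsApproxLim (glued a s W u) x (W x) := by
  obtain ⟨ρ, hρ, hρU⟩ := Metric.mem_nhds_iff.1 hU
  refine glue_tendsto (fun r => glue_avg_nonneg (fun y => abs_nonneg _) _) h ?_
  intro ε hε
  obtain ⟨δ, hδ, hδW⟩ := Metric.continuousWithinAt_iff.1 hW ε hε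
  have hmem : Ioo (0 : ℝ) (min ρ δ) ∈ 𝓝[>] (0 : ℝ) := Ioo_mem_nhdsGT (lt_min hρ hδ)
  filter_upwards [hmem] with r hr
  have hrρ : r < ρ := lt_of_lt_of_le hr.2 (min_le_left _ _)
  have hrδ : r < δ := lt_of_lt_of_le hr.2 (min_le_right _ _)
  have hsub : ball x r ⊆ U := (ball_subset_ball hrρ.le).trans hρU
  have hvb : (volume : Measure ℂ) (ball x r) ≠ ⊤ := measure_ball_lt_top.ne
  have hpos : (0 : ℝ) < (volume : Measure ℂ).real (ball x r) := by
    rw [jb_volume_ball x hr.1]
    have := hr.1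
    positivity
  have hc (c : ℝ) : IntegrableOn (fun _ : ℂ => c) (ball x r) := integrableOn_const hvb
  have h1 : ∫ y in ball x r, |glued a s W u y - W x| ≤
      ∫ y in ball x r, (ε + |u y - W x|) := by
    refine setIntegral_mono_on ((hw.mono_set hsub).sub (hc _)).abs
      ((hc _).add ((hu.mono_set hsub).sub (hc _)).abs) measurableSet_ball ?_
    intro y hy
    by_cases hya : dist y a ≤ s
    · rw [glue_in hya]
      have h2 := hδW (show y ∈ closedBall a s from hya) (lt_trans (mem_ball.1 hy) hrδ)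
      rw [Real.dist_eq] at h2
      have h3 := abs_nonneg (u y - W x)
      show |W y - W x| ≤ ε + |u y - W x|
      linarith
    · rw [glue_out hya]
      show |u y - W x| ≤ ε + |u y - W x|
      linarith
  have hi2 : IntegrableOn (fun y => |u y - W x|) (ball x r) :=
    ((hu.mono_set hsub).sub (hc _)).abs
  rw [integral_add (hc ε) hi2, setIntegral_const, smul_eq_mul] at h1
  rw [setAverage_eq, setAverage_eq, smul_eq_mul, smul_eq_mul]
  calc ((volume : Measure ℂ).real (ball x r))⁻¹ * ∫ y in ball x r, |glued a s W u y - W x|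
      ≤ ((volume : Measure ℂ).real (ball x r))⁻¹ *
        ((volume : Measure ℂ).real (ball x r) * ε + ∫ y in ball x r, |u y - W x|) :=
        mul_le_mul_of_nonneg_left h1 (inv_nonneg.2 hpos.le)
    _ = ε + ((volume : Measure ℂ).real (ball x r))⁻¹ * ∫ y in ball x r, |u y - W x| := by
        rw [mul_add, ← mul_assoc, inv_mul_cancel₀ hpos.ne', one_mul]

theorem glue_inner_pc (a : ℂ) {s : ℝ} (θ : ℝ) (y : ℂ) :
    inner ℝ (y - a) (er θ) = inner ℝ (y - pc a s θ) (er θ) + s := by
  have e : y - a = (y - pc a s θ) + (s : ℝ) • er θ := by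
    rw [pc, Complex.real_smul]
    ring
  rw [e, inner_add_left, real_inner_smul_left, real_inner_self_eq_norm_sq, glue_norm_er]
  ring

theorem glue_outer_half {a : ℂ} {s θ : ℝ} {y : ℂ}
    (hy : 0 < inner ℝ (y - pc a s θ) (er θ)) : ¬ dist y a ≤ s := by
  intro h
  have h1 := abs_real_inner_le_norm (y - a) (er θ)
  rw [glue_norm_er, mul_one, ← dist_eq_norm] at h1
  have h2 := (abs_le.1 h1).2
  rw [glue_inner_pc a (s := s) θ y] at h2
  linarith

theorem glue_thin {a : ℂ} {s θ r : ℝ} (hs : 0 < s) {y : ℂ} (hy : y ∈ ball (pc a s θ) r)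
    (hya : ¬ dist y a ≤ s) : -(r ^ 2 / (2 * s)) < inner ℝ (y - pc a s θ) (er θ) := by
  have hr : dist y (pc a s θ) < r := hy
  rw [dist_eq_norm] at hr
  have hya' : s < ‖y - a‖ := by
    rw [← dist_eq_norm]
    exact not_le.1 hya
  have e : y - a = (y - pc a s θ) + (s : ℝ) • er θ := by
    rw [pc, Complex.real_smul]
    ring
  have h1 : ‖y - a‖ ^ 2 = ‖y - pc a s θ‖ ^ 2 + 2 * (s * inner ℝ (y - pc a s θ) (er θ)) + s ^ 2 := by
    rw [e, norm_add_sq_real, real_inner_smul_right, norm_smul, glue_norm_er, mul_one,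
      Real.norm_of_nonneg hs.le]
  have h2 : s ^ 2 < ‖y - a‖ ^ 2 := by
    have := norm_nonneg (y - a)
    nlinarith
  have h3 : ‖y - pc a s θ‖ ^ 2 < r ^ 2 := by
    have := norm_nonneg (y - pc a s θ)
    nlinarith
  have h4 : 0 < (2 * (s * inner ℝ (y - pc a s θ) (er θ)) + r ^ 2) / (2 * s) :=
    div_pos (by linarith) (by positivity)
  have h5 : (2 * (s * inner ℝ (y - pc a s θ) (er θ)) + r ^ 2) / (2 * s) =
      inner ℝ (y - pc a s θ) (er θ) + r ^ 2 / (2 * s) := by
    field_simp
  linarith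

/-- Case (ii): the two traces differ. -/
theorem glue_case_ne {a : ℂ} {s : ℝ} (hs : 0 < s) {W u : ℂ → ℝ} {θ c : ℝ} {U : Set ℂ}
    (hU : U ∈ 𝓝 (pc a s θ)) (hu : IntegrableOn u U) (hw : IntegrableOn (glued a s W u) U)
    (hW : ContinuousWithinAt W (closedBall a s) (pc a s θ)) (hne : c ≠ W (pc a s θ))
    (h : IsApproxLim u (pc a s θ) c) :
    IsJump (glued a s W u) (pc a s θ) c (W (pc a s θ)) (er θ) := by
  have hν := glue_norm_er θ
  set x : ℂ := pc a s θ with hx
  obtain ⟨ρ, hρ, hρU⟩ := Metric.mem_nhds_iff.1 hU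
  refine ⟨hν, hne, ?_, ?_⟩
  · -- the outer half ball
    refine squeeze_zero' (g := fun r => 4 * ⨍ y in ball x r, |u y - c|)
      (Eventually.of_forall fun r => glue_avg_nonneg (fun y => abs_nonneg _) _) ?_ ?_
    · have hmem : Ioo (0 : ℝ) ρ ∈ 𝓝[>] (0 : ℝ) := Ioo_mem_nhdsGT hρ
      filter_upwards [hmem] with r hr
      have hsub : ball x r ⊆ U := (ball_subset_ball hr.2.le).trans hρU
      have hvb : (volume : Measure ℂ) (ball x r) ≠ ⊤ := measure_ball_lt_top.ne
      have e1 : ⨍ y in halfBall x (er θ) r, |glued a s W u y - c| =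
          ⨍ y in halfBall x (er θ) r, |u y - c| := by
        rw [setAverage_eq, setAverage_eq]
        congr 1
        refine setIntegral_congr_fun ?_ ?_
        · exact measurableSet_ball.inter ((isOpen_lt continuous_const
            ((continuous_id.sub continuous_const).inner continuous_const)).measurableSet)
        · intro y hy
          show |glued a s W u y - c| = |u y - c|
          rw [glue_out (glue_outer_half hy.2)]
      rw [e1]
      exact jb_average_half (fun y => abs_nonneg _) x hν hr.1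
        ((hu.mono_set hsub).sub (integrableOn_const hvb)).abs
    · have := h.const_mul 4
      rwa [mul_zero] at this
  · -- the inner half ball
    set F : ℝ := W x with hF
    have hg : Tendsto (fun r : ℝ => 4 * (⨍ y in ball x r, |u y - c|) +
        (4 * |c - F| / (Real.pi * s)) * r) (𝓝[>] 0) (𝓝 0) := by
      have h1 := h.const_mul 4
      have h2 : Tendsto (fun r : ℝ => (4 * |c - F| / (Real.pi * s)) * r) (𝓝[>] 0) (𝓝 0) := by
        have h3 : Tendsto (fun r : ℝ => (4 * |c - F| / (Real.pi * s)) * r) (𝓝 0)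
            (𝓝 ((4 * |c - F| / (Real.pi * s)) * 0)) :=
          (continuous_const.mul continuous_id).tendsto 0
        rw [mul_zero] at h3
        exact h3.mono_left nhdsWithin_le_nhds
      have h4 := h1.add h2
      rwa [mul_zero, add_zero] at h4
    refine glue_tendsto (fun r => glue_avg_nonneg (fun y => abs_nonneg _) _) hg ?_
    intro ε hε
    obtain ⟨δ, hδ, hδW⟩ := Metric.continuousWithinAt_iff.1 hW ε hε
    have hmem : Ioo (0 : ℝ) (min ρ δ) ∈ 𝓝[>] (0 : ℝ) := Ioo_mem_nhdsGT (lt_min hρ hδ)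
    filter_upwards [hmem] with r hr
    have hr0 : 0 < r := hr.1
    have hrρ : r < ρ := lt_of_lt_of_le hr.2 (min_le_left _ _)
    have hrδ : r < δ := lt_of_lt_of_le hr.2 (min_le_right _ _)
    have hsub : ball x r ⊆ U := (ball_subset_ball hrρ.le).trans hρU
    have hvb : (volume : Measure ℂ) (ball x r) ≠ ⊤ := measure_ball_lt_top.ne
    have hν' : ‖-er θ‖ = 1 := by rw [norm_neg, hν]
    set H : Set ℂ := halfBall x (-er θ) r with hH
    have hHm : MeasurableSet H := measurableSet_ball.inter ((isOpen_lt continuous_const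
            ((continuous_id.sub continuous_const).inner continuous_const)).measurableSet)
    have hHfin : (volume : Measure ℂ) H ≠ ⊤ := jb_halfBall_finite x _ r
    have hHvol := jb_volume_halfBall x hν' hr0
    have hpi := Real.pi_pos
    have hHpos : (0 : ℝ) < (volume : Measure ℂ).real H := lt_of_lt_of_le (by positivity) hHvol
    set N : Set ℂ := ball x r ∩ {y | -(r ^ 2 / (2 * s)) < inner ℝ (y - x) (er θ) ∧
      inner ℝ (y - x) (er θ) < 0} with hN
    have hNm : MeasurableSet N := by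
      have hcont : Continuous fun y : ℂ => inner ℝ (y - x) (er θ) :=
        (continuous_id.sub continuous_const).inner continuous_const
      exact measurableSet_ball.inter ((isOpen_lt continuous_const hcont).measurableSet.inter
        (isOpen_lt hcont continuous_const).measurableSet)
    have hNfin : (volume : Measure ℂ) N ≠ ⊤ := ne_top_of_le_ne_top hvb (measure_mono inter_subset_left)
    have hNvol : (volume : Measure ℂ).real N ≤ r ^ 3 / s := by
      have h1 := glue_strip (x := x) hν (r := r) (δ := r ^ 2 / (2 * s)) (by positivity)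
      have h2 := ENNReal.toReal_mono ENNReal.ofReal_ne_top h1
      rw [ENNReal.toReal_ofReal (by positivity)] at h2
      refine h2.trans (le_of_eq ?_)
      field_simp
    have hi1 : IntegrableOn (fun y => |u y - c|) H :=
      (((hu.mono_set hsub).mono_set inter_subset_left).sub (integrableOn_const hHfin)).abs
    have hib : IntegrableOn (fun y => |u y - c|) (ball x r) :=
      ((hu.mono_set hsub).sub (integrableOn_const hvb)).abs
    have hi2 : IntegrableOn (fun y => N.indicator (fun _ => |c - F|) y) H :=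
      (integrableOn_const hHfin).indicator hNm
    have hi3 : IntegrableOn (fun _ : ℂ => ε) H := integrableOn_const hHfin
    have hi4 : IntegrableOn (fun y => |glued a s W u y - F|) H :=
      (((hw.mono_set hsub).mono_set inter_subset_left).sub (integrableOn_const hHfin)).abs
    have hpt : ∀ y ∈ H, |glued a s W u y - F| ≤
        ε + (|u y - c| + N.indicator (fun _ => |c - F|) y) := by
      intro y hy
      have hind : 0 ≤ N.indicator (fun _ => |c - F|) y :=
        indicator_nonneg (fun _ _ => abs_nonneg _) y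
      have huc := abs_nonneg (u y - c)
      by_cases hya : dist y a ≤ s
      · rw [glue_in hya]
        have h2 := hδW (show y ∈ closedBall a s from hya) (lt_trans (mem_ball.1 hy.1) hrδ)
        rw [Real.dist_eq] at h2
        linarith
      · rw [glue_out hya]
        have hyN : y ∈ N := by
          refine ⟨hy.1, glue_thin hs hy.1 hya, ?_⟩
          have h3 : 0 < inner ℝ (y - x) (-er θ) := hy.2
          rw [inner_neg_right] at h3
          linarith
        rw [indicator_of_mem hyN]
        have := abs_sub_le (u y) c F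
        linarith
    have hint : ∫ y in H, |glued a s W u y - F| ≤
        (volume : Measure ℂ).real H * ε + ((∫ y in ball x r, |u y - c|) + r ^ 3 / s * |c - F|) := by
      have h1 := setIntegral_mono_on hi4 (hi3.add (hi1.add hi2)) hHm hpt
      refine h1.trans ?_
      show ∫ y in H, (ε + (|u y - c| + N.indicator (fun _ => |c - F|) y)) ≤ _
      have hi5 : IntegrableOn (fun y => |u y - c| + N.indicator (fun _ => |c - F|) y) H :=
        hi1.add hi2
      rw [integral_add hi3 hi5, integral_add hi1 hi2, setIntegral_const, smul_eq_mul]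
      have h2 : ∫ y in H, |u y - c| ≤ ∫ y in ball x r, |u y - c| :=
        setIntegral_mono_set hib (Eventually.of_forall fun y => abs_nonneg _)
          (LE.le.eventuallyLE inter_subset_left)
      have h3 : ∫ y in H, N.indicator (fun _ => |c - F|) y ≤ r ^ 3 / s * |c - F| := by
        rw [setIntegral_indicator hNm, setIntegral_const, smul_eq_mul]
        refine mul_le_mul_of_nonneg_right ?_ (abs_nonneg _)
        exact (measureReal_mono inter_subset_right hNfin).trans hNvol
      linarith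
    rw [setAverage_eq, smul_eq_mul, setAverage_eq, smul_eq_mul, jb_volume_ball x hr0]
    have hinv : ((volume : Measure ℂ).real H)⁻¹ ≤ (Real.pi * r ^ 2 / 4)⁻¹ :=
      inv_anti₀ (by positivity) hHvol
    have hJ : 0 ≤ ∫ y in ball x r, |u y - c| := integral_nonneg fun y => abs_nonneg _
    calc ((volume : Measure ℂ).real H)⁻¹ * ∫ y in H, |glued a s W u y - F|
        ≤ ((volume : Measure ℂ).real H)⁻¹ * ((volume : Measure ℂ).real H * ε +
          ((∫ y in ball x r, |u y - c|) + r ^ 3 / s * |c - F|)) :=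
          mul_le_mul_of_nonneg_left hint (inv_nonneg.2 hHpos.le)
      _ = ε + ((volume : Measure ℂ).real H)⁻¹ *
          ((∫ y in ball x r, |u y - c|) + r ^ 3 / s * |c - F|) := by
          rw [mul_add, ← mul_assoc, inv_mul_cancel₀ hHpos.ne', one_mul]
      _ ≤ ε + (Real.pi * r ^ 2 / 4)⁻¹ *
          ((∫ y in ball x r, |u y - c|) + r ^ 3 / s * |c - F|) := by
          have : 0 ≤ (∫ y in ball x r, |u y - c|) + r ^ 3 / s * |c - F| := by positivity
          have := mul_le_mul_of_nonneg_right hinv this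
          linarith
      _ = ε + (4 * ((Real.pi * r ^ 2)⁻¹ * ∫ y in ball x r, |u y - c|) +
          (4 * |c - F| / (Real.pi * s)) * r) := by
          field_simp

/-! ### Integrability -/

theorem glue_locInt {E : Type*} [NormedAddCommGroup E] {Ω : Set ℂ} (hΩ : IsOpen Ω) {a : ℂ} {s : ℝ}
    {f₁ f₂ : ℂ → E} (h₁ : IntegrableOn f₁ (closedBall a s)) (h₂ : LocallyIntegrableOn f₂ Ω) :
    LocallyIntegrableOn (glued a s f₁ f₂) Ω := by
  rw [locallyIntegrableOn_iff hΩ.isLocallyClosed]
  intro K hKΩ hK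
  have hKm := hK.isClosed.measurableSet
  have h3 : IntegrableOn (glued a s f₁ f₂) (K ∩ closedBall a s) := by
    refine (h₁.mono_set inter_subset_right).congr_fun ?_ (hKm.inter measurableSet_closedBall)
    intro x hx
    exact (glue_in hx.2).symm
  have h4 : IntegrableOn (glued a s f₁ f₂) (K \ closedBall a s) := by
    refine ((h₂.integrableOn_compact_subset hKΩ hK).mono_set sdiff_subset).congr_fun ?_
      (hKm.diff measurableSet_closedBall)
    intro x hx
    exact (glue_out hx.2).symm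
  have h5 := h3.union h4
  rwa [inter_union_sdiff] at h5

theorem glue_int {μ : Measure ℂ} {Ω : Set ℂ} {f ψ : ℂ → ℝ} (hf : LocallyIntegrableOn f Ω μ)
    (hψ : Continuous ψ) (hc : HasCompactSupport ψ) (hs : tsupport ψ ⊆ Ω) :
    IntegrableOn (fun x => ψ x * f x) Ω μ := by
  have h1 : IntegrableOn (fun x => ψ x * f x) (tsupport ψ) μ :=
    (hf.integrableOn_compact_subset hs hc).continuousOn_mul hψ.continuousOn hc
  have h2 : Function.support (fun x => ψ x * f x) ⊆ tsupport ψ := by
    intro x hx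
    refine subset_tsupport ψ ?_
    intro h0
    exact hx (by show ψ x * f x = 0; rw [h0, zero_mul])
  exact ((integrableOn_iff_integrable_of_support_subset h2).1 h1).integrableOn

theorem glue_locInner {μ : Measure ℂ} {Ω : Set ℂ} (hΩ : IsOpen Ω) {f : ℂ → ℂ}
    (hf : LocallyIntegrableOn f Ω μ) (v : ℂ) :
    LocallyIntegrableOn (fun x => inner ℝ (f x) v) Ω μ := by
  rw [locallyIntegrableOn_iff hΩ.isLocallyClosed] at hf ⊢
  intro K hKΩ hK
  exact (hf K hKΩ hK).inner_const v

theorem glue_int_inner {μ : Measure ℂ} {Ω : Set ℂ} (hΩ : IsOpen Ω) {f : ℂ → ℂ} {ψ : ℂ → ℝ}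
    (hf : LocallyIntegrableOn f Ω μ) (hψ : Continuous ψ) (hc : HasCompactSupport ψ)
    (hs : tsupport ψ ⊆ Ω) (v : ℂ) : IntegrableOn (fun x => ψ x * inner ℝ (f x) v) Ω μ :=
  glue_int (glue_locInner hΩ hf v) hψ hc hs

theorem glue_int_fderiv {Ω : Set ℂ} {f φ : ℂ → ℝ} (hf : LocallyIntegrableOn f Ω)
    (hφ : ContDiff ℝ ∞ φ) (hc : HasCompactSupport φ) (hs : tsupport φ ⊆ Ω) (v : ℂ) :
    IntegrableOn (fun x => f x * fderiv ℝ φ x v) Ω := by
  have h1 : Continuous fun x => fderiv ℝ φ x v :=
    (hφ.continuous_fderiv (by simp)).clm_apply continuous_const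
  have h2 : HasCompactSupport fun x => fderiv ℝ φ x v := hc.fderiv_apply (𝕜 := ℝ) v
  have h3 : tsupport (fun x => fderiv ℝ φ x v) ⊆ Ω := (tsupport_fderiv_apply_subset ℝ v).trans hs
  have h4 := glue_int hf h1 h2 h3
  refine h4.congr (Eventually.of_forall fun x => ?_)
  exact mul_comm _ _

theorem glue_ball_ae (a : ℂ) (s : ℝ) : (closedBall a s : Set ℂ) =ᵐ[volume] ball a s := by
  have h1 : (volume : Measure ℂ) (sphere a s) = 0 := Measure.addHaar_sphere volume a s
  have h2 : closedBall a s = ball a s ∪ sphere a s := (ball_union_sphere).symm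
  rw [h2]
  exact union_ae_eq_left_of_ae_eq_empty (ae_eq_empty.2 h1)

theorem glue_nhds {Ω : Set ℂ} (hΩ : IsOpen Ω) {x : ℂ} (hx : x ∈ Ω) {f₁ f₂ : ℂ → ℝ}
    (h₁ : LocallyIntegrableOn f₁ Ω) (h₂ : LocallyIntegrableOn f₂ Ω) :
    ∃ U ∈ 𝓝 x, IntegrableOn f₁ U ∧ IntegrableOn f₂ U := by
  obtain ⟨K, hK, hxK, hKΩ⟩ := exists_compact_subset hΩ hx
  exact ⟨K, mem_interior_iff_mem_nhds.1 hxK, h₁.integrableOn_compact_subset hKΩ hK,
    h₂.integrableOn_compact_subset hKΩ hK⟩

theorem glue_inv_pc (a : ℂ) {s : ℝ} (hs : 0 < s) (θ : ℝ) :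
    (s⁻¹ : ℝ) • (pc a s θ - a) = er θ := by
  have hs' : (s : ℂ) ≠ 0 := Complex.ofReal_ne_zero.2 hs.ne'
  rw [pc, add_sub_cancel_left, Complex.real_smul, Complex.ofReal_inv, ← mul_assoc,
    inv_mul_cancel₀ hs', one_mul]

theorem glue_continuous_er : Continuous er := by
  unfold er
  exact Complex.continuous_exp.comp (Complex.continuous_ofReal.mul continuous_const)

theorem glue_continuous_W {a : ℂ} {s : ℝ} (hs : 0 < s) {W : ℂ → ℝ}
    (hW : ContinuousOn W (closedBall a s)) : Continuous fun θ => W (pc a s θ) :=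
  hW.comp_continuous (glue_contDiff_pc a s).continuous
    fun θ => (glue_dist_pc a hs θ).le

theorem glue_integrableOn_Ioo {f : ℝ → ℝ} (hf : Continuous f) (p q : ℝ) :
    IntegrableOn f (Ioo p q) :=
  (hf.integrableOn_Icc (a := p) (b := q)).mono_set Ioo_subset_Icc_self

/-! ### The core statement -/

theorem glue_core {Ω : Set ℂ} {u : ℂ → ℝ} {g j : ℂ → ℂ} (h : SBVData Ω u g j) {a : ℂ} {s : ℝ}
    (hs : 0 < s) (hcB : closedBall a s ⊆ Ω)
    (hL1 : IntegrableOn (fun θ => u (pc a s θ)) (Ioo (-Real.pi) Real.pi))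
    (hL2 : ∀ᵐ θ ∂(volume.restrict (Ioo (-Real.pi) Real.pi)),
      IsApproxLim u (pc a s θ) (u (pc a s θ)))
    (hT : ∀ φ : ℂ → ℝ, ContDiff ℝ ∞ φ → HasCompactSupport φ →
      tsupport φ ⊆ Ω → ∀ v : ℂ,
      ∫ x in Ω \ closedBall a s, u x * fderiv ℝ φ x v =
        - (∫ x in Ω \ closedBall a s, φ x * inner ℝ (g x) v)
        - (∫ x in Ω \ closedBall a s, φ x * inner ℝ (j x) v ∂(μH[1] : Measure ℂ))
        - s * ∫ θ in Ioo (-Real.pi) Real.pi,
            u (pc a s θ) * φ (pc a s θ) * inner ℝ (er θ) v)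
    {W : ℂ → ℝ} {k : ℂ → ℂ} (hW : ContinuousOn W (closedBall a s)) (hk : IntegrableOn k (ball a s))
    (hI : ∀ φ : ℂ → ℝ, ContDiff ℝ ∞ φ → HasCompactSupport φ → ∀ v : ℂ,
        ∫ x in ball a s, W x * fderiv ℝ φ x v = - (∫ x in ball a s, φ x * inner ℝ (k x) v) +
          s * ∫ θ in Ioo (-Real.pi) Real.pi,
            W (pc a s θ) * φ (pc a s θ) * inner ℝ (er θ) v) :
      LocallyIntegrableOn (glued a s W u) Ω ∧ IsSBVGrad Ω (glued a s W u) (glued a s k g) ∧
      discSet Ω (glued a s W u) ∩ ball a s = ∅ ∧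
      (μH[1] : Measure ℂ) (discSet Ω (glued a s W u) ∩ sphere a s) ≤
        ENNReal.ofReal s *
          volume {θ ∈ Ioo (-Real.pi) Real.pi | u (pc a s θ) ≠ W (pc a s θ)} := by
  classical
  have hΩ := h.isOpen
  have hpi := Real.pi_pos
  set w : ℂ → ℝ := glued a s W u with hw
  have hwl : LocallyIntegrableOn w Ω :=
    glue_locInt hΩ (hW.integrableOn_compact (isCompact_closedBall a s)) h.intu
  have hkc : IntegrableOn k (closedBall a s) := hk.congr_set_ae (glue_ball_ae a s)
  have hgl : LocallyIntegrableOn (glued a s k g) Ω := glue_locInt hΩ hkc h.intg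
  have hscB : sphere a s ⊆ closedBall a s := sphere_subset_closedBall
  -- continuity inside
  have hcont : ∀ x ∈ ball a s, IsApproxLim w x (w x) := by
    intro x hx
    refine isApproxLim_of_continuousAt ?_
    have h1 : ContinuousAt W x :=
      hW.continuousAt (mem_of_superset (isOpen_ball.mem_nhds hx) ball_subset_closedBall)
    have h2 : w =ᶠ[𝓝 x] W := by
      filter_upwards [isOpen_ball.mem_nhds hx] with y hy
      exact glue_in (le_of_lt hy)
    exact h1.congr_of_eventuallyEq h2
  -- the jump field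
  have hex : ∀ x : ℂ, ∃ z : ℂ, (dist x a < s → z = 0) ∧ (s < dist x a → z = j x) ∧
      (dist x a = s → ((∃ a b ν, IsJump w x a b ν ∧ z = (a - b) • ν) ∨
        ((¬ ∃ a b ν, IsJump w x a b ν) ∧ z = 0))) := by
    intro x
    rcases lt_trichotomy (dist x a) s with h1 | h1 | h1
    · exact ⟨0, fun _ => rfl, fun h2 => absurd (h2.trans h1) (lt_irrefl _),
        fun h2 => absurd h1 (by rw [h2]; exact lt_irrefl _)⟩
    · by_cases h2 : ∃ a b ν, IsJump w x a b ν
      · obtain ⟨p, q, ν, h3⟩ := h2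
        exact ⟨(p - q) • ν, fun h4 => absurd h4 (by rw [h1]; exact lt_irrefl _),
          fun h4 => absurd h4 (by rw [h1]; exact lt_irrefl _),
          fun _ => Or.inl ⟨p, q, ν, h3, rfl⟩⟩
      · exact ⟨0, fun h4 => absurd h4 (by rw [h1]; exact lt_irrefl _),
          fun h4 => absurd h4 (by rw [h1]; exact lt_irrefl _),
          fun _ => Or.inr ⟨h2, rfl⟩⟩
    · exact ⟨j x, fun h2 => absurd (h2.trans h1) (lt_irrefl _), fun _ => rfl,
        fun h2 => absurd h1 (by rw [h2]; exact lt_irrefl _)⟩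
  choose J hJ1 hJ2 hJ3 using hex
  have hJf : IsJumpField Ω w J := by
    intro x hx
    rcases lt_trichotomy (dist x a) s with h1 | h1 | h1
    · refine Or.inr ⟨?_, hJ1 x h1⟩
      rintro ⟨p, q, ν, h2⟩
      obtain ⟨U, hU, hU1, -⟩ := glue_nhds hΩ hx hwl hwl
      exact not_isApproxLim_of_isJump hU hU1 h2 _ (hcont x h1)
    · exact hJ3 x h1
    · have hU : (closedBall a s)ᶜ ∈ 𝓝 x :=
        isClosed_closedBall.isOpen_compl.mem_nhds (not_le.2 h1)
      have heq : ∀ᵐ y ∂volume.restrict (closedBall a s)ᶜ, w y = u y := by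
        rw [ae_restrict_iff' isClosed_closedBall.measurableSet.compl]
        exact Eventually.of_forall fun y hy => glue_out hy
      rcases h.jf x hx with ⟨p, q, ν, h2, h3⟩ | ⟨h2, h3⟩
      · exact Or.inl ⟨p, q, ν, (cal_isJump_iff hU heq).2 h2, (hJ2 x h1).trans h3⟩
      · refine Or.inr ⟨?_, (hJ2 x h1).trans h3⟩
        rintro ⟨p, q, ν, h4⟩
        exact h2 ⟨p, q, ν, (cal_isJump_iff hU heq).1 h4⟩
  -- almost every point of the circle
  have hae : ∀ᵐ θ ∂(volume.restrict (Ioo (-Real.pi) Real.pi)),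
      J (pc a s θ) = (u (pc a s θ) - W (pc a s θ)) • er θ ∧
      (u (pc a s θ) = W (pc a s θ) → pc a s θ ∉ discSet Ω w) := by
    filter_upwards [hL2] with θ hθ
    have hxs : dist (pc a s θ) a = s := glue_dist_pc a hs θ
    have hxc : pc a s θ ∈ closedBall a s := hxs.le
    obtain ⟨U, hU, hU1, hU2⟩ := glue_nhds hΩ (hcB hxc) h.intu hwl
    by_cases hc : u (pc a s θ) = W (pc a s θ)
    · have h1 : IsApproxLim w (pc a s θ) (W (pc a s θ)) :=
        glue_case_eq hU hU1 hU2 (hW _ hxc) (by rw [← hc]; exact hθ)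
      refine ⟨?_, fun _ hd => hd.2 ⟨_, h1⟩⟩
      rcases hJ3 _ hxs with ⟨p, q, ν, h2, -⟩ | ⟨-, h3⟩
      · exact absurd h1 (not_isApproxLim_of_isJump hU hU2 h2 _)
      · rw [h3, hc, sub_self, zero_smul]
    · have h1 : IsJump w (pc a s θ) (u (pc a s θ)) (W (pc a s θ)) (er θ) :=
        glue_case_ne hs hU hU1 hU2 (hW _ hxc) hc hθ
      refine ⟨?_, fun h2 => absurd h2 hc⟩
      rcases hJ3 _ hxs with ⟨p, q, ν, h2, h3⟩ | ⟨h2, -⟩
      · rw [h3]
        rcases isJump_unique hU hU2 h1 h2 with ⟨e1, e2, e3⟩ | ⟨e1, e2, e3⟩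
        · rw [e1, e2, e3]
        · rw [e1, e2, e3, smul_neg, ← neg_smul, neg_sub]
      · exact absurd ⟨_, _, _, h1⟩ h2
  -- integrability of the jump field on the circle
  have hWc := glue_continuous_W hs hW
  set Fs : ℂ → ℂ := fun x => (u x - W x) • ((s⁻¹ : ℝ) • (x - a)) with hFs
  have hFpc : ∀ θ, Fs (pc a s θ) = (u (pc a s θ) - W (pc a s θ)) • er θ := by
    intro θ
    show (u (pc a s θ) - W (pc a s θ)) • ((s⁻¹ : ℝ) • (pc a s θ - a)) = _
    rw [glue_inv_pc a hs]
  have hJF : ∀ᵐ x ∂((μH[1] : Measure ℂ).restrict (sphere a s)), J x = Fs x := by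
    refine glue_ae_sphere a hs ?_
    filter_upwards [hae] with θ hθ
    rw [hθ.1, hFpc]
  have hdi : IntegrableOn (fun θ => u (pc a s θ) - W (pc a s θ)) (Ioo (-Real.pi) Real.pi) :=
    hL1.sub (glue_integrableOn_Ioo hWc _ _)
  have hFi : IntegrableOn Fs (sphere a s) (μH[1] : Measure ℂ) := by
    refine glue_integrableOn_sphere a hs ?_ ?_
    · have h1 : AEStronglyMeasurable (fun x => u x - W x)
          ((μH[1] : Measure ℂ).restrict (sphere a s)) :=
        h.meas_u.aestronglyMeasurable.sub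
          ((hW.mono hscB).aestronglyMeasurable isClosed_sphere.measurableSet)
      have h2 : AEStronglyMeasurable (fun x : ℂ => (s⁻¹ : ℝ) • (x - a))
          ((μH[1] : Measure ℂ).restrict (sphere a s)) :=
        ((continuous_id.sub continuous_const).const_smul (s⁻¹ : ℝ)).aestronglyMeasurable
      exact h1.smul h2
    · simp_rw [hFpc]
      refine Integrable.mono hdi
        (hdi.aestronglyMeasurable.smul glue_continuous_er.aestronglyMeasurable) ?_
      refine Eventually.of_forall fun θ => ?_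
      rw [norm_smul, glue_norm_er, mul_one]
  have hJsph : IntegrableOn J (sphere a s) (μH[1] : Measure ℂ) :=
    Integrable.congr hFi (hJF.mono fun x hx => hx.symm)
  have hJl : LocallyIntegrableOn J Ω (μH[1] : Measure ℂ) := by
    rw [locallyIntegrableOn_iff hΩ.isLocallyClosed]
    intro K hKΩ hK
    have hKm := hK.isClosed.measurableSet
    have h1 : IntegrableOn J (K ∩ ball a s) (μH[1] : Measure ℂ) := by
      refine IntegrableOn.congr_fun (f := fun _ => (0 : ℂ)) integrableOn_zero ?_
        (hKm.inter measurableSet_ball)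
      intro x hx
      exact (hJ1 x hx.2).symm
    have h2 : IntegrableOn J (K ∩ sphere a s) (μH[1] : Measure ℂ) :=
      hJsph.mono_set inter_subset_right
    have h3 : IntegrableOn J (K \ closedBall a s) (μH[1] : Measure ℂ) := by
      refine ((h.intj.integrableOn_compact_subset hKΩ hK).mono_set sdiff_subset).congr_fun ?_
        (hKm.diff measurableSet_closedBall)
      intro x hx
      exact (hJ2 x (not_le.1 hx.2)).symm
    refine ((h1.union h2).union h3).mono_set ?_
    intro x hx
    rcases lt_trichotomy (dist x a) s with h4 | h4 | h4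
    · exact Or.inl (Or.inl ⟨hx, h4⟩)
    · exact Or.inl (Or.inr ⟨hx, h4⟩)
    · exact Or.inr ⟨hx, not_le.2 h4⟩
  refine ⟨hwl, ⟨hgl, J, hJf, hJl, ?_⟩, ?_, ?_⟩
  · -- the weak form
    intro φ hφ hφc hφs v
    have hφcont := hφ.continuous
    have hcap : Ω ∩ closedBall a s = closedBall a s := inter_eq_right.2 hcB
    -- left side
    have hL := integral_inter_add_sdiff (t := closedBall a s) measurableSet_closedBall
      (glue_int_fderiv hwl hφ hφc hφs v)
    rw [hcap, setIntegral_congr_set (glue_ball_ae a s)] at hL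
    have hLa : ∫ x in ball a s, w x * fderiv ℝ φ x v = ∫ x in ball a s, W x * fderiv ℝ φ x v := by
      refine setIntegral_congr_fun measurableSet_ball ?_
      intro x hx
      show w x * fderiv ℝ φ x v = W x * fderiv ℝ φ x v
      rw [hw, glue_in (le_of_lt hx)]
    have hLb : ∫ x in Ω \ closedBall a s, w x * fderiv ℝ φ x v =
        ∫ x in Ω \ closedBall a s, u x * fderiv ℝ φ x v := by
      refine setIntegral_congr_fun (hΩ.measurableSet.diff measurableSet_closedBall) ?_
      intro x hx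
      show w x * fderiv ℝ φ x v = u x * fderiv ℝ φ x v
      rw [hw, glue_out hx.2]
    -- gradient
    have hG := integral_inter_add_sdiff (t := closedBall a s) measurableSet_closedBall
      (glue_int_inner hΩ hgl hφcont hφc hφs v)
    rw [hcap, setIntegral_congr_set (glue_ball_ae a s)] at hG
    have hGa : ∫ x in ball a s, φ x * inner ℝ (glued a s k g x) v =
        ∫ x in ball a s, φ x * inner ℝ (k x) v := by
      refine setIntegral_congr_fun measurableSet_ball ?_
      intro x hx
      show φ x * inner ℝ (glued a s k g x) v = φ x * inner ℝ (k x) v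
      rw [glue_in (le_of_lt hx)]
    have hGb : ∫ x in Ω \ closedBall a s, φ x * inner ℝ (glued a s k g x) v =
        ∫ x in Ω \ closedBall a s, φ x * inner ℝ (g x) v := by
      refine setIntegral_congr_fun (hΩ.measurableSet.diff measurableSet_closedBall) ?_
      intro x hx
      show φ x * inner ℝ (glued a s k g x) v = φ x * inner ℝ (g x) v
      rw [glue_out hx.2]
    -- jump part
    have hJi := glue_int_inner hΩ hJl hφcont hφc hφs v
    have hJJ := integral_inter_add_sdiff (t := closedBall a s) measurableSet_closedBall hJi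
    rw [hcap] at hJJ
    have hJb : ∫ x in Ω \ closedBall a s, φ x * inner ℝ (J x) v ∂(μH[1] : Measure ℂ) =
        ∫ x in Ω \ closedBall a s, φ x * inner ℝ (j x) v ∂(μH[1] : Measure ℂ) := by
      refine setIntegral_congr_fun (hΩ.measurableSet.diff measurableSet_closedBall) ?_
      intro x hx
      show φ x * inner ℝ (J x) v = φ x * inner ℝ (j x) v
      rw [hJ2 x (not_le.1 hx.2)]
    have hJc := integral_inter_add_sdiff (t := ball a s) measurableSet_ball (hJi.mono_set hcB)
    rw [closedBall_sdiff_ball, inter_eq_right.2 (ball_subset_closedBall (x := a) (ε := s))] at hJc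
    have hJd : ∫ x in ball a s, φ x * inner ℝ (J x) v ∂(μH[1] : Measure ℂ) = 0 := by
      rw [setIntegral_eq_zero_of_forall_eq_zero]
      intro x hx
      rw [hJ1 x hx, inner_zero_left, mul_zero]
    have hJe : ∫ x in sphere a s, φ x * inner ℝ (J x) v ∂(μH[1] : Measure ℂ) =
        s * ((∫ θ in Ioo (-Real.pi) Real.pi, u (pc a s θ) * φ (pc a s θ) * inner ℝ (er θ) v) -
          ∫ θ in Ioo (-Real.pi) Real.pi, W (pc a s θ) * φ (pc a s θ) * inner ℝ (er θ) v) := by
      have e1 : ∫ x in sphere a s, φ x * inner ℝ (J x) v ∂(μH[1] : Measure ℂ) =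
          ∫ x in sphere a s, φ x * inner ℝ (Fs x) v ∂(μH[1] : Measure ℂ) := by
        refine integral_congr_ae ?_
        filter_upwards [hJF] with x hx
        rw [hx]
      rw [e1, glue_integral_sphere a hs]
      have hce : Continuous fun θ => φ (pc a s θ) * inner ℝ (er θ) v :=
        (hφcont.comp (glue_contDiff_pc a s).continuous).mul
          (glue_continuous_er.inner continuous_const)
      have hi1 : IntegrableOn (fun θ => u (pc a s θ) * φ (pc a s θ) * inner ℝ (er θ) v)
          (Ioo (-Real.pi) Real.pi) := by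
        obtain ⟨C, hC⟩ := isCompact_Icc.exists_bound_of_continuousOn
          (s := Icc (-Real.pi) Real.pi) hce.continuousOn
        have h1 : IntegrableOn (fun θ => (φ (pc a s θ) * inner ℝ (er θ) v) * u (pc a s θ))
            (Ioo (-Real.pi) Real.pi) := by
          refine Integrable.bdd_mul (c := C) hL1 hce.aestronglyMeasurable ?_
          rw [ae_restrict_iff' measurableSet_Ioo]
          exact Eventually.of_forall fun θ hθ => hC θ (Ioo_subset_Icc_self hθ)
        refine h1.congr (Eventually.of_forall fun θ => ?_)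
        show (φ (pc a s θ) * inner ℝ (er θ) v) * u (pc a s θ) =
          u (pc a s θ) * φ (pc a s θ) * inner ℝ (er θ) v
        ring
      have hi2 : IntegrableOn (fun θ => W (pc a s θ) * φ (pc a s θ) * inner ℝ (er θ) v)
          (Ioo (-Real.pi) Real.pi) := by
        refine glue_integrableOn_Ioo ?_ _ _
        have h1 := hWc.mul hce
        refine h1.congr fun θ => ?_
        show W (pc a s θ) * (φ (pc a s θ) * inner ℝ (er θ) v) =
          W (pc a s θ) * φ (pc a s θ) * inner ℝ (er θ) v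
        ring
      rw [← integral_sub hi1 hi2]
      congr 1
      refine integral_congr_ae (Eventually.of_forall fun θ => ?_)
      show φ (pc a s θ) * inner ℝ (Fs (pc a s θ)) v =
        u (pc a s θ) * φ (pc a s θ) * inner ℝ (er θ) v -
        W (pc a s θ) * φ (pc a s θ) * inner ℝ (er θ) v
      rw [hFpc, real_inner_smul_left]
      ring
    have hT' := hT φ hφ hφc hφs v
    have hI' := hI φ hφ hφc v
    rw [← hL, ← hG, ← hJJ, ← hJc, hLa, hLb, hGa, hGb, hJb, hJd, hJe, hT', hI']
    ring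
  · -- no discontinuity inside
    rw [eq_empty_iff_forall_notMem]
    rintro x ⟨hx1, hx2⟩
    exact hx1.2 ⟨_, hcont x hx2⟩
  · -- the measure of the discontinuity set on the circle
    set A : Set ℝ := {θ ∈ Ioo (-Real.pi) Real.pi | u (pc a s θ) ≠ W (pc a s θ)} with hA
    have hae' := hae
    rw [ae_restrict_iff' measurableSet_Ioo, ae_iff] at hae'
    set N : Set ℝ := {θ | ¬ (θ ∈ Ioo (-Real.pi) Real.pi →
      J (pc a s θ) = (u (pc a s θ) - W (pc a s θ)) • er θ ∧
      (u (pc a s θ) = W (pc a s θ) → pc a s θ ∉ discSet Ω w))} with hN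
    have hsub : discSet Ω w ∩ sphere a s ⊆ (fun t : ℝ => pc a s t) '' (A ∪ (N ∪ {-Real.pi})) := by
      rintro x ⟨hx1, hx2⟩
      obtain ⟨θ, hθ, rfl⟩ := glue_exists_pc a hx2
      refine ⟨θ, ?_, rfl⟩
      rcases eq_or_lt_of_le hθ.1 with h1 | h1
      · exact Or.inr (Or.inr h1.symm)
      · by_cases h2 : u (pc a s θ) = W (pc a s θ)
        · exact Or.inr (Or.inl fun h3 => (h3 ⟨h1, hθ.2⟩).2 h2 hx1)
        · exact Or.inl ⟨⟨h1, hθ.2⟩, h2⟩
    calc (μH[1] : Measure ℂ) (discSet Ω w ∩ sphere a s)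
        ≤ (μH[1] : Measure ℂ) ((fun t : ℝ => pc a s t) '' (A ∪ (N ∪ {-Real.pi}))) :=
          measure_mono hsub
      _ ≤ ENNReal.ofReal s * volume (A ∪ (N ∪ {-Real.pi})) := glue_hausdorff_image a hs _
      _ ≤ ENNReal.ofReal s * volume A := by
          refine mul_le_mul_right ?_ _
          refine (measure_union_le _ _).trans ?_
          have h1 : volume (N ∪ {-Real.pi}) = 0 := by
            rw [measure_union_null_iff]
            exact ⟨hae', Real.volume_singleton⟩
          rw [h1, add_zero]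

end Pool.Agent.MP099f24
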