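import Mathlib

/-!
# Wirtinger inequalities for primitives of square integrable functions
-/

namespace Pool.Agent.MP099f24

open MeasureTheory Filter Topology Set Metric

/-- Fubini form of integration by parts against the primitive of an integrable function. -/
theorem wirt_fub {a b : ℝ} (hab : a ≤ b) {φ φ' : ℝ → ℂ} (hφ : ∀ x, HasDerivAt φ (φ' x) x)
    (hc : Continuous φ') {G : ℝ → ℂ} (hG : IntegrableOn G (Ioc a b)) :
    ∫ x in a..b, φ' x * (∫ t in a..x, G t) = ∫ t in a..b, (φ b - φ t) * G t := by
  set μ : Measure ℝ := volume.restrict (Ioc a b) with hμ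
  have hφ'i : Integrable φ' μ := (hc.integrableOn_Icc (a := a) (b := b)).mono_set Ioc_subset_Icc_self
  have hprod : Integrable (Set.indicator {p : ℝ × ℝ | p.2 ≤ p.1} fun p : ℝ × ℝ => φ' p.1 * G p.2)
      (μ.prod μ) :=
    (hφ'i.mul_prod hG).indicator (measurableSet_le measurable_snd measurable_fst)
  have hsw := integral_integral_swap (f := fun x t => Set.indicator {p : ℝ × ℝ | p.2 ≤ p.1}
    (fun p : ℝ × ℝ => φ' p.1 * G p.2) (x, t)) hprod
  rw [intervalIntegral.integral_of_le hab, intervalIntegral.integral_of_le hab]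
  have h1 : ∀ x ∈ Ioc a b, φ' x * (∫ t in a..x, G t) =
      ∫ t, Set.indicator {p : ℝ × ℝ | p.2 ≤ p.1} (fun p : ℝ × ℝ => φ' p.1 * G p.2) (x, t) ∂μ := by
    intro x hx
    rw [intervalIntegral.integral_of_le hx.1.le, ← integral_const_mul, hμ]
    have e : ∀ t, Set.indicator {p : ℝ × ℝ | p.2 ≤ p.1} (fun p : ℝ × ℝ => φ' p.1 * G p.2) (x, t)
        = Set.indicator (Iic x) (fun t => φ' x * G t) t := by
      intro t
      simp only [Set.indicator, mem_ofPred_eq, mem_Iic]
    simp_rw [e]
    rw [setIntegral_indicator measurableSet_Iic]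
    congr 2
    ext t
    simp only [mem_inter_iff, mem_Ioc, mem_Iic]
    constructor
    · rintro ⟨h1, h2⟩; exact ⟨⟨h1, h2.trans hx.2⟩, h2⟩
    · rintro ⟨⟨h1, _⟩, h2⟩; exact ⟨h1, h2⟩
  have h2 : ∀ t ∈ Ioc a b, (φ b - φ t) * G t =
      ∫ x, Set.indicator {p : ℝ × ℝ | p.2 ≤ p.1} (fun p : ℝ × ℝ => φ' p.1 * G p.2) (x, t) ∂μ := by
    intro t ht
    have e : ∀ x, Set.indicator {p : ℝ × ℝ | p.2 ≤ p.1} (fun p : ℝ × ℝ => φ' p.1 * G p.2) (x, t)
        = Set.indicator (Ici t) (fun x => φ' x * G t) x := by
      intro x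
      simp only [Set.indicator, mem_ofPred_eq, mem_Ici]
    simp_rw [e]
    rw [hμ, setIntegral_indicator measurableSet_Ici]
    have e2 : Ioc a b ∩ Ici t = Icc t b := by
      ext x
      simp only [mem_inter_iff, mem_Ioc, mem_Ici, mem_Icc]
      constructor
      · rintro ⟨⟨_, h2⟩, h3⟩; exact ⟨h3, h2⟩
      · rintro ⟨h1, h2⟩; exact ⟨⟨ht.1.trans_le h1, h2⟩, h1⟩
    rw [e2, integral_Icc_eq_integral_Ioc, integral_mul_const,
      ← intervalIntegral.integral_of_le ht.2,
      intervalIntegral.integral_eq_sub_of_hasDerivAt (fun x _ => hφ x) (hc.intervalIntegrable _ _)]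
  rw [setIntegral_congr_fun measurableSet_Ioc h1, setIntegral_congr_fun measurableSet_Ioc h2]
  exact hsw

theorem wirt_main {a b : ℝ} (hab : a < b) {G : ℝ → ℝ}
    (hG : MemLp G 2 (volume.restrict (Ioc a b))) (h0 : ∫ t in a..b, G t = 0) :
    ∃ m : ℝ, ∫ θ in a..b, ((∫ t in a..θ, G t) - m) ^ 2 ≤
      ((b - a) / (2 * Real.pi)) ^ 2 * ∫ θ in a..b, G θ ^ 2 := by
  have hL : 0 < b - a := sub_pos.2 hab
  set L : ℝ := b - a with hLdef
  set F : ℝ → ℝ := fun x => ∫ t in a..x, G t with hF
  set m : ℝ := (∫ x in a..b, F x) / L with hm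
  refine ⟨m, ?_⟩
  have hGi : IntegrableOn G (Ioc a b) := hG.integrable (by norm_num)
  have hGii : IntervalIntegrable G volume a b := (intervalIntegrable_iff_integrableOn_Ioc_of_le hab.le).2 hGi
  have hFc : ContinuousOn F (Icc a b) := by
    have h := intervalIntegral.continuousOn_primitive_interval' (μ := volume) (f := G) hGii
      (left_mem_uIcc)
    rwa [uIcc_of_le hab.le] at h
  -- complex versions
  set g : ℝ → ℂ := fun x => (G x : ℂ) with hg
  set f : ℝ → ℂ := fun x => ((F x - m : ℝ) : ℂ) with hf
  have hgL : MemLp g 2 (volume.restrict (Ioc a b)) := hG.ofReal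
  have hgi : IntegrableOn g (Ioc a b) := hGi.ofReal
  have hfc : ContinuousOn f (Icc a b) :=
    Complex.continuous_ofReal.comp_continuousOn (hFc.sub continuousOn_const)
  have hfL : MemLp f 2 (volume.restrict (Ioc a b)) := by
    obtain ⟨C, hC⟩ := isCompact_Icc.exists_bound_of_continuousOn hfc
    refine MemLp.of_bound ((hfc.mono Ioc_subset_Icc_self).aestronglyMeasurable measurableSet_Ioc) C ?_
    exact (ae_restrict_iff' measurableSet_Ioc).2
      (Eventually.of_forall fun x hx => hC x (Ioc_subset_Icc_self hx))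
  have hPf := hasSum_sq_fourierCoeffOn hab hfL
  have hPg := hasSum_sq_fourierCoeffOn hab hgL
  -- coefficients
  have hcoef0 : fourierCoeffOn hab f 0 = 0 := by
    rw [fourierCoeffOn_eq_integral]
    have e : ∀ x : ℝ, fourier (-0) (x : AddCircle (b - a)) • f x = f x := by
      intro x; simp
    simp_rw [e]
    rw [hf]
    simp only
    rw [intervalIntegral.integral_ofReal, intervalIntegral.integral_sub
      ((hFc.mono (by rw [uIcc_of_le hab.le])).intervalIntegrable) (by simp),
      intervalIntegral.integral_const, hm]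
    have : (∫ x in a..b, F x) - (b - a) • ((∫ x in a..b, F x) / L) = 0 := by
      rw [smul_eq_mul, ← hLdef]
      field_simp
      ring
    rw [this]
    simp
  have hcoefn : ∀ n : ℤ, n ≠ 0 → ‖fourierCoeffOn hab f n‖ ^ 2 ≤
      (L / (2 * Real.pi)) ^ 2 * ‖fourierCoeffOn hab g n‖ ^ 2 := by
    intro n hn
    have hnC : (n : ℂ) ≠ 0 := by exact_mod_cast hn
    have hLC : (L : ℂ) ≠ 0 := by exact_mod_cast hL.ne'
    have hpi : (Real.pi : ℂ) ≠ 0 := by exact_mod_cast Real.pi_ne_zero
    set k : ℂ := 2 * Real.pi * Complex.I * (-n : ℤ) / L with hk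
    have hk0 : k ≠ 0 := by
      rw [hk]
      push_cast
      refine div_ne_zero (mul_ne_zero (mul_ne_zero (mul_ne_zero two_ne_zero hpi) Complex.I_ne_zero)
        (neg_ne_zero.2 hnC)) hLC
    have he : ∀ x : ℝ, fourier (-n) (x : AddCircle (b - a)) = Complex.exp (k * x) := by
      intro x
      rw [fourier_coe_apply, hk]
      congr 1
      rw [← hLdef]
      ring
    set φ : ℝ → ℂ := fun x => Complex.exp (k * x) / k with hφ
    have hder : ∀ x : ℝ, HasDerivAt φ (Complex.exp (k * x)) x := by
      intro x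
      have h1 : HasDerivAt (fun y : ℝ => k * (y : ℂ)) k x := by
        have := (Complex.ofRealCLM.hasDerivAt (x := x)).const_mul k
        simpa using this
      have h2 := (h1.cexp).div_const k
      have e : Complex.exp (k * x) * k / k = Complex.exp (k * x) := by
        rw [mul_div_assoc, div_self hk0, mul_one]
      rwa [e] at h2
    have hcont : Continuous fun x : ℝ => Complex.exp (k * x) := by fun_prop
    have hper : φ b = φ a := by
      rw [hφ]
      simp only
      congr 1
      have e : k * b = k * a + (-n : ℤ) * (2 * Real.pi * Complex.I) := by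
        have hb : (b : ℂ) = a + L := by rw [hLdef]; push_cast; ring
        rw [hb, mul_add, hk]
        field_simp
      rw [e, Complex.exp_add, Complex.exp_int_mul_two_pi_mul_I, mul_one]
    have hfub := wirt_fub hab.le hder hcont hgi
    have hFg : ∀ x, (∫ t in a..x, g t) = (F x : ℂ) := by
      intro x
      rw [hF, hg]
      exact intervalIntegral.integral_ofReal
    have hg0 : ∫ t in a..b, g t = 0 := by
      rw [hFg]
      have : F b = 0 := h0
      rw [this]; simp
    have hgint : IntervalIntegrable g volume a b :=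
      (intervalIntegrable_iff_integrableOn_Ioc_of_le hab.le).2 hgi
    have hmain : ∫ x in a..b, Complex.exp (k * x) * f x =
        - (1 / k) * ∫ t in a..b, Complex.exp (k * t) * g t := by
      have e1 : ∀ x : ℝ, Complex.exp (k * x) * f x =
          Complex.exp (k * x) * (∫ t in a..x, g t) - Complex.exp (k * x) * m := by
        intro x
        rw [hFg, hf]
        push_cast
        ring
      simp_rw [e1]
      rw [intervalIntegral.integral_sub, hfub, intervalIntegral.integral_mul_const,
        intervalIntegral.integral_eq_sub_of_hasDerivAt (fun x _ => hder x)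
          (hcont.intervalIntegrable _ _), hper, sub_self, zero_mul, sub_zero]
      · have e2 : ∀ t : ℝ, (φ a - φ t) * g t = φ a * g t - (1 / k) * (Complex.exp (k * t) * g t) := by
          intro t
          rw [hφ]
          simp only
          field_simp
        simp_rw [e2]
        rw [intervalIntegral.integral_sub (hgint.const_mul _)
          ((hgint.continuousOn_mul hcont.continuousOn).const_mul _),
          intervalIntegral.integral_const_mul, hg0, mul_zero, zero_sub,
          intervalIntegral.integral_const_mul]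
        ring
      · simp_rw [hFg]
        refine ContinuousOn.intervalIntegrable ?_
        rw [uIcc_of_le hab.le]
        exact hcont.continuousOn.mul (Complex.continuous_ofReal.comp_continuousOn hFc)
      · exact (hcont.mul continuous_const).intervalIntegrable _ _
    have hcf : fourierCoeffOn hab f n = - (1 / k) * fourierCoeffOn hab g n := by
      rw [fourierCoeffOn_eq_integral, fourierCoeffOn_eq_integral]
      simp_rw [he, smul_eq_mul]
      rw [hmain]
      rw [Complex.real_smul, Complex.real_smul]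
      ring
    rw [hcf, norm_mul, mul_pow]
    refine mul_le_mul_of_nonneg_right ?_ (by positivity)
    have hkn : ‖k‖ = 2 * Real.pi * |(n : ℝ)| / L := by
      rw [hk]
      push_cast
      rw [norm_div, norm_mul, norm_mul, norm_mul, norm_neg]
      simp only [Complex.norm_I, mul_one, Complex.norm_real, Real.norm_eq_abs]
      rw [abs_of_pos hL, abs_of_pos Real.pi_pos, Complex.norm_intCast]
      norm_num
    have hn1 : (1 : ℝ) ≤ |(n : ℝ)| := by
      exact_mod_cast Int.one_le_abs hn
    have h2pi : 0 < 2 * Real.pi := by positivity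
    rw [norm_neg, norm_div, norm_one, hkn]
    refine pow_le_pow_left₀ (by positivity) ?_ 2
    rw [one_div_div]
    refine div_le_div_of_nonneg_left hL.le h2pi ?_
    nlinarith
  have hsum : L⁻¹ • ∫ x in a..b, ‖f x‖ ^ 2 ≤
      (L / (2 * Real.pi)) ^ 2 * (L⁻¹ • ∫ x in a..b, ‖g x‖ ^ 2) := by
    refine hasSum_le (fun n => ?_) hPf (hPg.mul_left _)
    by_cases hn : n = 0
    · subst hn
      rw [hcoef0]
      simp only [norm_zero, ne_eq, OfNat.ofNat_ne_zero, not_false_eq_true, zero_pow]
      positivity
    · exact hcoefn n hn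
  have ef : ∀ x, ‖f x‖ ^ 2 = ((∫ t in a..x, G t) - m) ^ 2 := by
    intro x
    rw [hf]
    simp only
    rw [Complex.norm_real, Real.norm_eq_abs, sq_abs]
  have eg : ∀ x, ‖g x‖ ^ 2 = G x ^ 2 := by
    intro x
    rw [hg]
    simp only
    rw [Complex.norm_real, Real.norm_eq_abs, sq_abs]
  simp_rw [ef, eg, smul_eq_mul] at hsum
  have h3 := mul_le_mul_of_nonneg_left hsum hL.le
  have e3 : ∀ z : ℝ, L * (L⁻¹ * z) = z := fun z => by
    rw [← mul_assoc, mul_inv_cancel₀ hL.ne', one_mul]
  rw [e3] at h3
  calc _ ≤ L * ((L / (2 * Real.pi)) ^ 2 * (L⁻¹ * ∫ x in a..b, G x ^ 2)) := h3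
    _ = _ := by rw [mul_left_comm, e3]

theorem wirtinger_periodic {G : ℝ → ℝ}
    (hG : MemLp G 2 (volume.restrict (Ioo (-Real.pi) Real.pi)))
    (h0 : ∫ t in (-Real.pi)..Real.pi, G t = 0) :
    ∃ m : ℝ, ∫ θ in (-Real.pi)..Real.pi, ((∫ t in (-Real.pi)..θ, G t) - m) ^ 2 ≤
      ∫ θ in (-Real.pi)..Real.pi, G θ ^ 2 := by
  have hpi := Real.pi_pos
  rw [restrict_Ioo_eq_restrict_Ioc] at hG
  obtain ⟨m, hm⟩ := wirt_main (by linarith) hG h0
  refine ⟨m, hm.trans (le_of_eq ?_)⟩
  have e : (Real.pi - -Real.pi) / (2 * Real.pi) = 1 := by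
    rw [div_eq_one_iff_eq (by positivity)]; ring
  rw [e, one_pow, one_mul]

theorem wirtinger_neumann {G : ℝ → ℝ} {p : ℝ}
    (hG : MemLp G 2 (volume.restrict (Ioo p (p + 2 * Real.pi)))) :
    ∃ m : ℝ, ∫ θ in p..(p + 2 * Real.pi), ((∫ t in p..θ, G t) - m) ^ 2 ≤
      4 * ∫ θ in p..(p + 2 * Real.pi), G θ ^ 2 := by
  have hpi := Real.pi_pos
  set c : ℝ := p + 2 * Real.pi with hc
  have hpc : p < c := by linarith
  set q : ℝ := 2 * c - p with hq
  have hcq : c < q := by linarith
  set H : ℝ → ℝ := (Ioo p c).indicator G with hH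
  have hHL : MemLp H 2 volume := (memLp_indicator_iff_restrict measurableSet_Ioo).2 hG
  set K : ℝ → ℝ := fun t => H t - H (2 * c - t) with hK
  have hHr : MemLp (fun t => H (2 * c - t)) 2 volume :=
    hHL.comp_measurePreserving ((volume : Measure ℝ).measurePreserving_sub_left (2 * c))
  have hKL : MemLp K 2 volume := hHL.sub hHr
  have hHi : ∀ a b : ℝ, IntervalIntegrable H volume a b := by
    intro a b
    rw [intervalIntegrable_iff, uIoc]
    exact (hHL.restrict _).integrable (by norm_num)
  have hHri : ∀ a b : ℝ, IntervalIntegrable (fun t => H (2 * c - t)) volume a b := by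
    intro a b
    rw [intervalIntegrable_iff, uIoc]
    exact (hHr.restrict _).integrable (by norm_num)
  set A : ℝ → ℝ := fun x => ∫ t in p..x, H t with hA
  have hF : ∀ x, ∫ t in p..x, K t = A x - (A q - A (2 * c - x)) := by
    intro x
    rw [hK, intervalIntegral.integral_sub (hHi _ _) (hHri _ _),
      intervalIntegral.integral_comp_sub_left (fun t => H t) (2 * c), hA]
    simp only
    rw [← intervalIntegral.integral_interval_sub_left (hHi p (2 * c - p)) (hHi p (2 * c - x))]
  have hAbig : ∀ x, c ≤ x → A x = A c := by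
    intro x hx
    rw [hA]
    simp only
    rw [← intervalIntegral.integral_add_adjacent_intervals (hHi p c) (hHi c x)]
    have : ∫ t in c..x, H t = 0 := by
      rw [intervalIntegral.integral_of_le hx]
      refine (setIntegral_congr_fun measurableSet_Ioc (g := fun _ => (0 : ℝ)) fun t ht => ?_).trans
        (by simp)
      rw [hH]
      exact indicator_of_notMem (fun h => absurd h.2 (not_lt.2 ht.1.le)) _
    rw [this, add_zero]
  have hAsm : ∀ x ∈ Icc p c, A x = ∫ t in p..x, G t := by
    intro x hx
    rw [hA]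
    simp only
    rw [intervalIntegral.integral_of_le hx.1, intervalIntegral.integral_of_le hx.1,
      ← restrict_Ioo_eq_restrict_Ioc]
    refine setIntegral_congr_fun measurableSet_Ioo fun t ht => ?_
    rw [hH]
    have ht' : t ∈ Ioo p c := ⟨ht.1, ht.2.trans_le hx.2⟩
    exact indicator_of_mem ht' _
  have hK0 : ∫ t in p..q, K t = 0 := by
    rw [hF]
    have e : 2 * c - q = p := by rw [hq]; ring
    rw [e]
    have : A p = 0 := by rw [hA]; simp
    rw [this]; ring
  obtain ⟨m, hm⟩ := wirt_main (hpc.trans hcq) (hKL.restrict _) hK0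
  refine ⟨m, ?_⟩
  set h : ℝ → ℝ := fun θ => ((∫ t in p..θ, K t) - m) ^ 2 with hh
  have hsym : ∀ x, h (2 * c - x) = h x := by
    intro x
    rw [hh]
    simp only
    rw [hF, hF]
    have e : 2 * c - (2 * c - x) = x := by ring
    rw [e]; ring
  have hKi : ∀ a b : ℝ, IntervalIntegrable K volume a b := fun a b => (hHi a b).sub (hHri a b)
  have hcont : Continuous h := by
    have h1 : Continuous fun x => ∫ t in p..x, K t :=
      intervalIntegral.continuous_primitive hKi p
    exact (h1.sub continuous_const).pow 2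
  have hKsym : ∀ x, K (2 * c - x) ^ 2 = K x ^ 2 := by
    intro x
    rw [hK]
    simp only
    have e : 2 * c - (2 * c - x) = x := by ring
    rw [e]; ring
  have hK2 : ∀ a b : ℝ, IntervalIntegrable (fun x => K x ^ 2) volume a b := by
    intro a b
    rw [intervalIntegrable_iff]
    exact (hKL.restrict _).integrable_sq
  have hdouble : ∀ w : ℝ → ℝ, (∀ x, w (2 * c - x) = w x) →
      (∀ a b : ℝ, IntervalIntegrable w volume a b) →
      ∫ x in p..q, w x = 2 * ∫ x in p..c, w x := by
    intro w hw hwi
    rw [← intervalIntegral.integral_add_adjacent_intervals (hwi p c) (hwi c q)]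
    have e : ∫ x in c..q, w x = ∫ x in p..c, w x := by
      have h1 := intervalIntegral.integral_comp_sub_left w (2 * c) (a := p) (b := c)
      simp_rw [hw] at h1
      have e1 : 2 * c - c = c := by ring
      rw [e1] at h1
      exact h1.symm
    rw [e]; ring
  rw [hdouble h hsym (fun a b => hcont.intervalIntegrable a b), hdouble _ hKsym hK2] at hm
  have e4 : ((q - p) / (2 * Real.pi)) ^ 2 = 4 := by
    have : q - p = 2 * (2 * Real.pi) := by rw [hq, hc]; ring
    rw [this, mul_div_assoc, div_self (by positivity)]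
    norm_num
  rw [e4] at hm
  have e5 : ∫ θ in p..c, ((∫ t in p..θ, G t) - m) ^ 2 = ∫ θ in p..c, h θ := by
    refine intervalIntegral.integral_congr fun x hx => ?_
    rw [uIcc_of_le hpc.le] at hx
    rw [hh]
    simp only
    rw [hF, hAbig q hcq.le, hAbig (2 * c - x) (by linarith [hx.2]), hAsm x hx]
    ring
  have e6 : ∫ θ in p..c, G θ ^ 2 = ∫ θ in p..c, K θ ^ 2 := by
    rw [intervalIntegral.integral_of_le hpc.le, intervalIntegral.integral_of_le hpc.le,
      ← restrict_Ioo_eq_restrict_Ioc]
    refine setIntegral_congr_fun measurableSet_Ioo fun x hx => ?_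
    have e7 : H x = G x := indicator_of_mem hx _
    have e8 : H (2 * c - x) = 0 := indicator_of_notMem (fun h' => by
      have := h'.2
      have := hx.2
      linarith) _
    rw [hK]
    simp only
    rw [e7, e8, sub_zero]
  rw [e5, e6]
  linarith

end Pool.Agent.MP099f24
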