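import Mathlib
import Pool.Agent.Lib.MP_099f24_an.SD.Defs
import Pool.Agent.Lib.MP_099f24_an.SD.Wirt
import Pool.Agent.Lib.MP_099f24_an.SD.Polar

/-!
# Module COMP0 (core): the homogeneous competitor

For almost every radius `s` such that the circle of radius `s` carries no jump (more generally, such
that the slice on the circle is absolutely continuous), the energy in the disc is at most `s T(s)`.
-/

set_option autoImplicit false

namespace Pool.Agent.MP099f24

open MeasureTheory Filter Topology Set Metric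
open scoped ENNReal ContDiff

/-! ### Elementary facts about the moving frame -/

theorem comp0_er_eq (θ : ℝ) : er θ = (Real.cos θ : ℂ) + Real.sin θ * Complex.I := by
  unfold er
  rw [Complex.exp_mul_I, Complex.ofReal_cos, Complex.ofReal_sin]

theorem comp0_er_re (θ : ℝ) : (er θ).re = Real.cos θ := by
  rw [comp0_er_eq]; simp [Complex.cos_ofReal_re]

theorem comp0_er_im (θ : ℝ) : (er θ).im = Real.sin θ := by
  rw [comp0_er_eq]; simp [Complex.sin_ofReal_re]

theorem comp0_et_eq (θ : ℝ) : et θ = Complex.I * er θ := rfl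

theorem comp0_et_re (θ : ℝ) : (et θ).re = - Real.sin θ := by
  rw [comp0_et_eq, Complex.mul_re, comp0_er_re, comp0_er_im]; simp

theorem comp0_et_im (θ : ℝ) : (et θ).im = Real.cos θ := by
  rw [comp0_et_eq, Complex.mul_im, comp0_er_re, comp0_er_im]; simp

theorem comp0_inner (z w : ℂ) : (inner ℝ z w : ℝ) = z.re * w.re + z.im * w.im := by
  rw [Complex.inner]; simp; ring

theorem comp0_continuous_er : Continuous er := by
  unfold er; fun_prop

theorem comp0_continuous_et : Continuous et := by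
  unfold et; fun_prop

theorem comp0_hasDerivAt_er (θ : ℝ) : HasDerivAt er (et θ) θ := by
  have h1 : HasDerivAt (fun x : ℝ => ((x : ℝ) : ℂ) * Complex.I) Complex.I θ := by
    simpa using (Complex.ofRealCLM.hasDerivAt (x := θ)).mul_const Complex.I
  have h2 := h1.cexp
  have e : Complex.exp (θ * Complex.I) * Complex.I = et θ := by unfold et; ring
  rw [← e]
  exact h2

theorem comp0_hasDerivAt_et (θ : ℝ) : HasDerivAt et (- er θ) θ := by
  have h := (comp0_hasDerivAt_er θ).const_mul Complex.I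
  have e : Complex.I * et θ = - er θ := by
    rw [comp0_et_eq, ← mul_assoc, Complex.I_mul_I]; ring
  rw [e] at h
  exact h

theorem comp0_decomp (v : ℂ) (θ : ℝ) :
    v = (inner ℝ (er θ) v : ℝ) • er θ + (inner ℝ (et θ) v : ℝ) • et θ := by
  have hs := Real.sin_sq_add_cos_sq θ
  apply Complex.ext
  · simp only [comp0_inner, comp0_er_re, comp0_er_im, comp0_et_re, comp0_et_im, Complex.add_re,
      Complex.real_smul, Complex.mul_re, Complex.ofReal_re, Complex.ofReal_im]
    linear_combination (-v.re) * hs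
  · simp only [comp0_inner, comp0_er_re, comp0_er_im, comp0_et_re, comp0_et_im, Complex.add_im,
      Complex.real_smul, Complex.mul_im, Complex.ofReal_re, Complex.ofReal_im]
    linear_combination (-v.im) * hs

theorem comp0_normsq (x y : ℝ) (θ : ℝ) : ‖x • er θ + y • et θ‖ ^ 2 = x ^ 2 + y ^ 2 := by
  have hs := Real.sin_sq_add_cos_sq θ
  rw [← Complex.normSq_eq_norm_sq, Complex.normSq_apply]
  simp only [comp0_er_re, comp0_er_im, comp0_et_re, comp0_et_im, Complex.add_re, Complex.add_im,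
      Complex.real_smul, Complex.mul_re, Complex.mul_im, Complex.ofReal_re, Complex.ofReal_im]
  linear_combination (x ^ 2 + y ^ 2) * hs

theorem comp0_inner_le (z : ℂ) (θ : ℝ) : (inner ℝ z (et θ)) ^ 2 ≤ ‖z‖ ^ 2 := by
  have hs := Real.sin_sq_add_cos_sq θ
  rw [← Complex.normSq_eq_norm_sq, Complex.normSq_apply, comp0_inner, comp0_et_re, comp0_et_im]
  nlinarith [sq_nonneg (z.re * Real.cos θ + z.im * Real.sin θ)]

theorem comp0_pc_sub (a : ℂ) (r θ : ℝ) : pc a r θ - a = r * er θ := by unfold pc; ring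

theorem comp0_dist {a : ℂ} {r θ : ℝ} (hr : 0 ≤ r) : dist (pc a r θ) a = r := by
  rw [dist_eq_norm, comp0_pc_sub, norm_mul, Complex.norm_real, Real.norm_of_nonneg hr]
  unfold er
  rw [Complex.norm_exp_ofReal_mul_I, mul_one]

theorem comp0_arg {a : ℂ} {r θ : ℝ} (hr : 0 < r) (hθ : θ ∈ Ioc (-Real.pi) Real.pi) :
    (pc a r θ - a).arg = θ := by
  rw [comp0_pc_sub, Complex.arg_real_mul _ hr, comp0_er_eq, Complex.ofReal_cos,
    Complex.ofReal_sin]
  exact Complex.arg_cos_add_sin_mul_I hθ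

theorem comp0_pc_periodic (a : ℂ) (r θ : ℝ) : pc a r (θ + 2 * Real.pi) = pc a r θ := by
  unfold pc er
  have : ((θ + 2 * Real.pi : ℝ) : ℂ) * Complex.I = θ * Complex.I + 2 * Real.pi * Complex.I := by
    push_cast; ring
  rw [this, Complex.exp_periodic]

theorem comp0_et_periodic (θ : ℝ) : et (θ + 2 * Real.pi) = et θ := by
  unfold et
  have : ((θ + 2 * Real.pi : ℝ) : ℂ) * Complex.I = θ * Complex.I + 2 * Real.pi * Complex.I := by
    push_cast; ring
  rw [this, Complex.exp_periodic]

theorem comp0_Gq_periodic (g : ℂ → ℂ) (a : ℂ) (s θ : ℝ) :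
    Gq g a s (θ + 2 * Real.pi) = Gq g a s θ := by
  unfold Gq
  rw [comp0_pc_periodic, comp0_et_periodic]

/-! ### Integration by parts -/

theorem comp0_parts {G : ℝ → ℝ} (hG : IntegrableOn G (Ioc (-Real.pi) Real.pi))
    (h0 : ∫ t in (-Real.pi)..Real.pi, G t = 0) {H H' : ℝ → ℝ} (hH : ∀ x, HasDerivAt H (H' x) x)
    (hc : Continuous H') (hp : H (-Real.pi) = H Real.pi) (m : ℝ) :
    ∫ θ in (-Real.pi)..Real.pi, G θ * H θ =
      - ∫ θ in (-Real.pi)..Real.pi, ((∫ t in (-Real.pi)..θ, G t) - m) * H' θ := by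
  have hπ : -Real.pi ≤ Real.pi := by linarith [Real.pi_pos]
  have hfub : ∫ x in (-Real.pi)..Real.pi, H' x * (∫ t in (-Real.pi)..x, G t) =
      ∫ t in (-Real.pi)..Real.pi, (H Real.pi - H t) * G t := by
    have h := wirt_fub hπ (φ := fun x => (H x : ℂ)) (φ' := fun x => (H' x : ℂ))
      (fun x => (hH x).ofReal_comp) (Complex.continuous_ofReal.comp hc)
      (G := fun x => (G x : ℂ)) hG.ofReal
    simp only [intervalIntegral.integral_ofReal, ← Complex.ofReal_mul, ← Complex.ofReal_sub] at h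
    exact_mod_cast h
  have hHc : Continuous H := continuous_iff_continuousAt.2 fun x => (hH x).continuousAt
  have hGi : IntervalIntegrable G volume (-Real.pi) Real.pi :=
    (intervalIntegrable_iff_integrableOn_Ioc_of_le hπ).2 hG
  have hGH : IntervalIntegrable (fun t => G t * H t) volume (-Real.pi) Real.pi :=
    hGi.mul_continuousOn hHc.continuousOn
  have hFc : ContinuousOn (fun x => ∫ t in (-Real.pi)..x, G t) (uIcc (-Real.pi) Real.pi) :=
    intervalIntegral.continuousOn_primitive_interval' (μ := volume) hGi left_mem_uIcc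
  have e1 : ∫ t in (-Real.pi)..Real.pi, (H Real.pi - H t) * G t =
      - ∫ θ in (-Real.pi)..Real.pi, G θ * H θ := by
    have : ∀ t, (H Real.pi - H t) * G t = H Real.pi * G t - G t * H t := fun t => by ring
    simp_rw [this]
    rw [intervalIntegral.integral_sub (hGi.const_mul _) hGH, intervalIntegral.integral_const_mul,
      h0]
    ring
  have e2 : ∫ θ in (-Real.pi)..Real.pi, H' θ = 0 := by
    rw [intervalIntegral.integral_eq_sub_of_hasDerivAt (fun x _ => hH x)
      (hc.intervalIntegrable _ _), hp]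
    ring
  have e3 : ∫ θ in (-Real.pi)..Real.pi, ((∫ t in (-Real.pi)..θ, G t) - m) * H' θ =
      ∫ x in (-Real.pi)..Real.pi, H' x * (∫ t in (-Real.pi)..x, G t) := by
    have : ∀ θ, ((∫ t in (-Real.pi)..θ, G t) - m) * H' θ =
        H' θ * (∫ t in (-Real.pi)..θ, G t) - m * H' θ := fun θ => by ring
    simp_rw [this]
    rw [intervalIntegral.integral_sub _ ((hc.intervalIntegrable _ _).const_mul _),
      intervalIntegral.integral_const_mul, e2]
    · ring
    · exact (hc.continuousOn.mul hFc).intervalIntegrable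
  rw [e3, hfub, e1]
  ring

/-! ### The divergence identity -/

theorem comp0_hasDerivAt_inner_er (v : ℂ) (θ : ℝ) :
    HasDerivAt (fun θ => (inner ℝ (er θ) v : ℝ)) (inner ℝ (et θ) v) θ := by
  have h := (comp0_hasDerivAt_er θ).inner ℝ (hasDerivAt_const θ v)
  simpa using h

theorem comp0_hasDerivAt_inner_et (v : ℂ) (θ : ℝ) :
    HasDerivAt (fun θ => (inner ℝ (et θ) v : ℝ)) (- inner ℝ (er θ) v) θ := by
  have h := (comp0_hasDerivAt_et θ).inner ℝ (hasDerivAt_const θ v)
  simpa using h

theorem comp0_continuous_pc (a : ℂ) : Continuous fun p : ℝ × ℝ => pc a p.1 p.2 := by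
  unfold pc
  exact continuous_const.add ((Complex.continuous_ofReal.comp continuous_fst).mul
    (comp0_continuous_er.comp continuous_snd))

theorem comp0_hasDerivAt_r {φ : ℂ → ℝ} (hφ : Differentiable ℝ φ) (a : ℂ) (r θ : ℝ) :
    HasDerivAt (fun r => φ (pc a r θ)) (fderiv ℝ φ (pc a r θ) (er θ)) r := by
  have h1 : HasDerivAt (fun r : ℝ => pc a r θ) (er θ) r := by
    unfold pc
    simpa using ((Complex.ofRealCLM.hasDerivAt (x := r)).mul_const (er θ)).const_add a
  exact (hφ (pc a r θ)).hasFDerivAt.comp_hasDerivAt r h1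

theorem comp0_hasDerivAt_t {φ : ℂ → ℝ} (hφ : Differentiable ℝ φ) (a : ℂ) (r θ : ℝ) :
    HasDerivAt (fun θ => φ (pc a r θ)) (r * fderiv ℝ φ (pc a r θ) (et θ)) θ := by
  have h1 : HasDerivAt (fun θ : ℝ => pc a r θ) (r • et θ) θ := by
    unfold pc
    have := ((comp0_hasDerivAt_er θ).const_mul (r : ℂ)).const_add a
    simpa [Complex.real_smul] using this
  have h2 := (hφ (pc a r θ)).hasFDerivAt.comp_hasDerivAt θ h1
  rw [map_smul, smul_eq_mul] at h2
  exact h2

theorem comp0_theta {G : ℝ → ℝ} (hG : IntegrableOn G (Ioc (-Real.pi) Real.pi))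
    (h0 : ∫ t in (-Real.pi)..Real.pi, G t = 0) (C m s : ℝ) {φ : ℂ → ℝ}
    (hφ : ContDiff ℝ ∞ φ) (a v : ℂ) (r : ℝ) {F : ℝ → ℝ}
    (hF : ∀ θ, F θ = (∫ t in (-Real.pi)..θ, G t) - m) :
    ∫ θ in (-Real.pi)..Real.pi, (r * ((C + r / s * F θ) * fderiv ℝ φ (pc a r θ) v +
        φ (pc a r θ) * (s⁻¹ * (F θ * inner ℝ (er θ) v + G θ * inner ℝ (et θ) v)))) =
      ∫ θ in (-Real.pi)..Real.pi, ((C + 2 * (r / s) * F θ) * (inner ℝ (er θ) v * φ (pc a r θ)) +
        (r * C + r ^ 2 / s * F θ) * (inner ℝ (er θ) v * fderiv ℝ φ (pc a r θ) (er θ))) := by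
  have hφd : Differentiable ℝ φ := hφ.differentiable (by simp)
  have hφc : Continuous φ := hφ.continuous
  have hφf : Continuous (fderiv ℝ φ) := hφ.continuous_fderiv (by simp)
  have hπ : -Real.pi ≤ Real.pi := by linarith [Real.pi_pos]
  have hGi : IntervalIntegrable G volume (-Real.pi) Real.pi :=
    (intervalIntegrable_iff_integrableOn_Ioc_of_le hπ).2 hG
  have hFc : ContinuousOn F (uIcc (-Real.pi) Real.pi) := by
    have h1 := intervalIntegral.continuousOn_primitive_interval' (μ := volume) hGi left_mem_uIcc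
    have h2 : F = fun θ => (∫ t in (-Real.pi)..θ, G t) - m := funext hF
    rw [h2]
    exact h1.sub continuousOn_const
  have hpc : Continuous fun θ => pc a r θ :=
    (comp0_continuous_pc a).comp (Continuous.prodMk continuous_const continuous_id)
  have hec : Continuous fun θ => (inner ℝ (er θ) v : ℝ) :=
    continuous_iff_continuousAt.2 fun x => (comp0_hasDerivAt_inner_er v x).continuousAt
  have hetc : Continuous fun θ => (inner ℝ (et θ) v : ℝ) :=
    continuous_iff_continuousAt.2 fun x => (comp0_hasDerivAt_inner_et v x).continuousAt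
  have hDt : Continuous fun θ => fderiv ℝ φ (pc a r θ) (et θ) :=
    (hφf.comp hpc).clm_apply comp0_continuous_et
  have hDr : Continuous fun θ => fderiv ℝ φ (pc a r θ) (er θ) :=
    (hφf.comp hpc).clm_apply comp0_continuous_er
  set H : ℝ → ℝ := fun θ => inner ℝ (et θ) v * φ (pc a r θ) with hHdef
  set H' : ℝ → ℝ := fun θ => (- inner ℝ (er θ) v) * φ (pc a r θ) +
    inner ℝ (et θ) v * (r * fderiv ℝ φ (pc a r θ) (et θ)) with hH'def
  have hH : ∀ x, HasDerivAt H (H' x) x := fun x =>
    (comp0_hasDerivAt_inner_et v x).mul (comp0_hasDerivAt_t hφd a r x)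
  have hH'c : Continuous H' := by
    have := hφc.comp hpc
    exact (hec.neg.mul this).add (hetc.mul (continuous_const.mul hDt))
  have hp : H (-Real.pi) = H Real.pi := by
    have e1 : (Real.pi : ℝ) = -Real.pi + 2 * Real.pi := by ring
    have e2 : H Real.pi = H (-Real.pi + 2 * Real.pi) := by rw [← e1]
    rw [e2]
    simp only [hHdef]
    rw [comp0_et_periodic, comp0_pc_periodic]
  have hparts := comp0_parts hG h0 hH hH'c hp m
  simp_rw [← hF] at hparts
  have hH0 : ∫ θ in (-Real.pi)..Real.pi, H' θ = 0 := by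
    rw [intervalIntegral.integral_eq_sub_of_hasDerivAt (fun x _ => hH x)
      (hH'c.intervalIntegrable _ _), hp]
    ring
  have hkey : ∀ θ, r * ((C + r / s * F θ) * fderiv ℝ φ (pc a r θ) v +
        φ (pc a r θ) * (s⁻¹ * (F θ * inner ℝ (er θ) v + G θ * inner ℝ (et θ) v))) =
      ((C + 2 * (r / s) * F θ) * (inner ℝ (er θ) v * φ (pc a r θ)) +
        (r * C + r ^ 2 / s * F θ) * (inner ℝ (er θ) v * fderiv ℝ φ (pc a r θ) (er θ))) +
      (C * H' θ + r / s * (G θ * H θ + F θ * H' θ)) := by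
    intro θ
    have e1 : fderiv ℝ φ (pc a r θ) v = inner ℝ (er θ) v * fderiv ℝ φ (pc a r θ) (er θ) +
        inner ℝ (et θ) v * fderiv ℝ φ (pc a r θ) (et θ) := by
      conv_lhs => rw [comp0_decomp v θ]
      rw [map_add, map_smul, map_smul, smul_eq_mul, smul_eq_mul]
    rw [e1]
    simp only [hHdef, hH'def]
    ring
  simp_rw [hkey]
  have i1 : IntervalIntegrable (fun θ => G θ * H θ) volume (-Real.pi) Real.pi :=
    hGi.mul_continuousOn (continuous_iff_continuousAt.2 fun x => (hH x).continuousAt).continuousOn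
  have i2 : IntervalIntegrable (fun θ => F θ * H' θ) volume (-Real.pi) Real.pi :=
    (hFc.mul hH'c.continuousOn).intervalIntegrable
  have i3 : IntervalIntegrable (fun θ => (C + 2 * (r / s) * F θ) *
      (inner ℝ (er θ) v * φ (pc a r θ)) + (r * C + r ^ 2 / s * F θ) *
      (inner ℝ (er θ) v * fderiv ℝ φ (pc a r θ) (er θ))) volume (-Real.pi) Real.pi := by
    refine ContinuousOn.intervalIntegrable ?_
    refine ((continuousOn_const.add (continuousOn_const.mul hFc)).mul
      (hec.mul (hφc.comp hpc)).continuousOn).add ((continuousOn_const.add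
      (continuousOn_const.mul hFc)).mul (hec.mul hDr).continuousOn)
  rw [intervalIntegral.integral_add i3 (((hH'c.intervalIntegrable _ _).const_mul C).add
    ((i1.add i2).const_mul (r / s))), intervalIntegral.integral_add
    ((hH'c.intervalIntegrable _ _).const_mul C) ((i1.add i2).const_mul (r / s)),
    intervalIntegral.integral_const_mul, intervalIntegral.integral_const_mul,
    intervalIntegral.integral_add i1 i2, hH0, hparts]
  ring

theorem comp0_div {G : ℝ → ℝ} (hG : IntegrableOn G (Ioc (-Real.pi) Real.pi))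
    (h0 : ∫ t in (-Real.pi)..Real.pi, G t = 0) (C m : ℝ) {s : ℝ} (hs : 0 < s) {φ : ℂ → ℝ}
    (hφ : ContDiff ℝ ∞ φ) (a v : ℂ) {F : ℝ → ℝ}
    (hF : ∀ θ, F θ = (∫ t in (-Real.pi)..θ, G t) - m) :
    IntegrableOn (fun p : ℝ × ℝ => p.1 * ((C + p.1 / s * F p.2) * fderiv ℝ φ (pc a p.1 p.2) v +
        φ (pc a p.1 p.2) * (s⁻¹ * (F p.2 * inner ℝ (er p.2) v + G p.2 * inner ℝ (et p.2) v))))
        (Ioo 0 s ×ˢ Ioo (-Real.pi) Real.pi) ∧
    ∫ p in Ioo 0 s ×ˢ Ioo (-Real.pi) Real.pi,
      (p.1 * ((C + p.1 / s * F p.2) * fderiv ℝ φ (pc a p.1 p.2) v +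
        φ (pc a p.1 p.2) * (s⁻¹ * (F p.2 * inner ℝ (er p.2) v + G p.2 * inner ℝ (et p.2) v)))) =
      s * ∫ θ in Ioo (-Real.pi) Real.pi, (C + F θ) * φ (pc a s θ) * inner ℝ (er θ) v := by
  have hφd : Differentiable ℝ φ := hφ.differentiable (by simp)
  have hφc : Continuous φ := hφ.continuous
  have hφf : Continuous (fderiv ℝ φ) := hφ.continuous_fderiv (by simp)
  have hπ : -Real.pi ≤ Real.pi := by linarith [Real.pi_pos]
  have hGi : IntervalIntegrable G volume (-Real.pi) Real.pi :=
    (intervalIntegrable_iff_integrableOn_Ioc_of_le hπ).2 hG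
  have hFc : ContinuousOn F (Icc (-Real.pi) Real.pi) := by
    have h1 := intervalIntegral.continuousOn_primitive_interval' (μ := volume) hGi left_mem_uIcc
    have h2 : F = fun θ => (∫ t in (-Real.pi)..θ, G t) - m := funext hF
    rw [h2]
    rw [uIcc_of_le hπ] at h1
    exact h1.sub continuousOn_const
  set K : Set (ℝ × ℝ) := Icc 0 s ×ˢ Icc (-Real.pi) Real.pi with hK
  have hKc : IsCompact K := isCompact_Icc.prod isCompact_Icc
  have hsub : Ioo 0 s ×ˢ Ioo (-Real.pi) Real.pi ⊆ K :=
    Set.prod_mono Ioo_subset_Icc_self Ioo_subset_Icc_self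
  have hFK : ContinuousOn (fun p : ℝ × ℝ => F p.2) K :=
    hFc.comp continuousOn_snd fun p hp => hp.2
  have hpc := comp0_continuous_pc a
  have hec : Continuous fun p : ℝ × ℝ => (inner ℝ (er p.2) v : ℝ) :=
    (comp0_continuous_er.comp continuous_snd).inner continuous_const
  have hetc : Continuous fun p : ℝ × ℝ => (inner ℝ (et p.2) v : ℝ) :=
    (comp0_continuous_et.comp continuous_snd).inner continuous_const
  have hDv : Continuous fun p : ℝ × ℝ => fderiv ℝ φ (pc a p.1 p.2) v :=
    (hφf.comp hpc).clm_apply continuous_const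
  have hDr : Continuous fun p : ℝ × ℝ => fderiv ℝ φ (pc a p.1 p.2) (er p.2) :=
    (hφf.comp hpc).clm_apply (comp0_continuous_er.comp continuous_snd)
  have hΦ : Continuous fun p : ℝ × ℝ => φ (pc a p.1 p.2) := hφc.comp hpc
  -- integrability
  have hGK : IntegrableOn (fun p : ℝ × ℝ => G p.2) K := by
    have h1 : IntegrableOn G (Icc (-Real.pi) Real.pi) := by
      rwa [integrableOn_Icc_iff_integrableOn_Ioc]
    have h2 : IntegrableOn (fun _ : ℝ => (1 : ℝ)) (Icc 0 s) := by
      simp
    have h3 := Integrable.mul_prod (μ := volume.restrict (Icc (0:ℝ) s))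
      (ν := volume.restrict (Icc (-Real.pi) Real.pi)) h2 h1
    rw [Measure.prod_restrict, ← Measure.volume_eq_prod] at h3
    simp only [one_mul] at h3
    exact h3
  have hA : IntegrableOn (fun p : ℝ × ℝ => p.1 * ((C + p.1 / s * F p.2) *
      fderiv ℝ φ (pc a p.1 p.2) v + φ (pc a p.1 p.2) *
      (s⁻¹ * (F p.2 * inner ℝ (er p.2) v + G p.2 * inner ℝ (et p.2) v))))
        (Ioo 0 s ×ˢ Ioo (-Real.pi) Real.pi) := by
    refine IntegrableOn.mono_set ?_ hsub
    have e : (fun p : ℝ × ℝ => p.1 * ((C + p.1 / s * F p.2) *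
      fderiv ℝ φ (pc a p.1 p.2) v + φ (pc a p.1 p.2) *
      (s⁻¹ * (F p.2 * inner ℝ (er p.2) v + G p.2 * inner ℝ (et p.2) v)))) =
      fun p : ℝ × ℝ => (p.1 * ((C + p.1 / s * F p.2) *
      fderiv ℝ φ (pc a p.1 p.2) v + φ (pc a p.1 p.2) *
      (s⁻¹ * (F p.2 * inner ℝ (er p.2) v)))) +
      (p.1 * (φ (pc a p.1 p.2) * (s⁻¹ * inner ℝ (et p.2) v))) * G p.2 := by
      funext p; ring
    rw [e]
    refine Integrable.add ?_ ?_
    · refine ContinuousOn.integrableOn_compact hKc ?_
      refine continuousOn_fst.mul (((continuousOn_const.add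
        ((continuousOn_fst.div_const s).mul hFK)).mul hDv.continuousOn).add
        (hΦ.continuousOn.mul (continuousOn_const.mul (hFK.mul hec.continuousOn))))
    · refine IntegrableOn.continuousOn_mul ?_ hGK hKc
      exact (continuous_fst.mul (hΦ.mul (continuous_const.mul hetc))).continuousOn
  refine ⟨hA, ?_⟩
  have hB : IntegrableOn (fun p : ℝ × ℝ => (C + 2 * (p.1 / s) * F p.2) *
      (inner ℝ (er p.2) v * φ (pc a p.1 p.2)) + (p.1 * C + p.1 ^ 2 / s * F p.2) *
      (inner ℝ (er p.2) v * fderiv ℝ φ (pc a p.1 p.2) (er p.2)))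
        (Ioo 0 s ×ˢ Ioo (-Real.pi) Real.pi) := by
    refine IntegrableOn.mono_set ?_ hsub
    refine ContinuousOn.integrableOn_compact hKc ?_
    refine ((continuousOn_const.add ((continuousOn_const.mul (continuousOn_fst.div_const s)).mul
      hFK)).mul (hec.mul hΦ).continuousOn).add
      (((continuousOn_fst.mul continuousOn_const).add (((continuousOn_fst.pow 2).div_const s).mul
      hFK)).mul (hec.mul hDr).continuousOn)
  have hA' := hA
  rw [Measure.volume_eq_prod] at hA' ⊢
  rw [setIntegral_prod _ hA']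
  have h3 : ∀ r : ℝ, ∫ θ in Ioo (-Real.pi) Real.pi, (r * ((C + r / s * F θ) *
        fderiv ℝ φ (pc a r θ) v +
        φ (pc a r θ) * (s⁻¹ * (F θ * inner ℝ (er θ) v + G θ * inner ℝ (et θ) v)))) =
      ∫ θ in Ioo (-Real.pi) Real.pi, ((C + 2 * (r / s) * F θ) *
        (inner ℝ (er θ) v * φ (pc a r θ)) +
        (r * C + r ^ 2 / s * F θ) * (inner ℝ (er θ) v * fderiv ℝ φ (pc a r θ) (er θ))) := by
    intro r
    have h := comp0_theta hG h0 C m s hφ a v r hF
    rw [intervalIntegral.integral_of_le hπ, intervalIntegral.integral_of_le hπ,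
      integral_Ioc_eq_integral_Ioo, integral_Ioc_eq_integral_Ioo] at h
    exact h
  simp_rw [h3]
  have hsw := integral_integral_swap (μ := volume.restrict (Ioo (0:ℝ) s))
    (ν := volume.restrict (Ioo (-Real.pi) Real.pi)) (f := fun r θ =>
      ((C + 2 * (r / s) * F θ) * (inner ℝ (er θ) v * φ (pc a r θ)) +
        (r * C + r ^ 2 / s * F θ) * (inner ℝ (er θ) v * fderiv ℝ φ (pc a r θ) (er θ)))) (by
      rw [Measure.prod_restrict, ← Measure.volume_eq_prod]
      exact hB)
  rw [hsw, ← integral_const_mul]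
  refine integral_congr_ae (Eventually.of_forall fun θ => ?_)
  have hd : ∀ r, HasDerivAt (fun r => (r * C + r ^ 2 / s * F θ) *
      (inner ℝ (er θ) v * φ (pc a r θ)))
      ((C + 2 * (r / s) * F θ) * (inner ℝ (er θ) v * φ (pc a r θ)) +
        (r * C + r ^ 2 / s * F θ) * (inner ℝ (er θ) v * fderiv ℝ φ (pc a r θ) (er θ))) r := by
    intro r
    have h1 : HasDerivAt (fun r : ℝ => r * C + r ^ 2 / s * F θ) (C + 2 * (r / s) * F θ) r := by
      have h2 := ((hasDerivAt_id r).mul_const C).add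
        ((((hasDerivAt_id r).pow 2).div_const s).mul_const (F θ))
      refine h2.congr_deriv ?_
      simp only [id, Nat.cast_ofNat, Nat.add_one_sub_one, pow_one]
      ring
    exact h1.mul ((comp0_hasDerivAt_r hφd a r θ).const_mul _)
  have hcB : Continuous fun r : ℝ => ((C + 2 * (r / s) * F θ) *
      (inner ℝ (er θ) v * φ (pc a r θ)) +
        (r * C + r ^ 2 / s * F θ) * (inner ℝ (er θ) v * fderiv ℝ φ (pc a r θ) (er θ))) := by
    have hp1 : Continuous fun r : ℝ => (r, θ) := Continuous.prodMk continuous_id continuous_const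
    have c1 : Continuous fun r : ℝ => φ (pc a r θ) := hΦ.comp hp1
    have c2 : Continuous fun r : ℝ => fderiv ℝ φ (pc a r θ) (er θ) := hDr.comp hp1
    fun_prop
  have h4 := intervalIntegral.integral_eq_sub_of_hasDerivAt (a := 0) (b := s) (fun x _ => hd x)
    (hcB.intervalIntegrable _ _)
  rw [intervalIntegral.integral_of_le hs.le, integral_Ioc_eq_integral_Ioo] at h4
  simp only at h4 ⊢
  rw [h4]
  field_simp
  ring

/-! ### The competitor -/

theorem comp0_cont_arg {F : ℝ → ℝ} (hF : ContinuousOn F (Icc (-Real.pi) Real.pi))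
    (hp : F (-Real.pi) = F Real.pi) {z : ℂ} (hz : z ≠ 0) :
    ContinuousAt (fun z : ℂ => F z.arg) z := by
  have : Fact (0 < 2 * Real.pi) := ⟨Real.two_pi_pos⟩
  have e : -Real.pi + 2 * Real.pi = Real.pi := by ring
  have h1 : Continuous (AddCircle.liftIoc (2 * Real.pi) (-Real.pi) F) :=
    AddCircle.liftIoc_continuous (by rw [e]; exact hp) (by rw [e]; exact hF)
  have h2 : ∀ z : ℂ, F z.arg = AddCircle.liftIoc (2 * Real.pi) (-Real.pi) F
      ((z.arg : ℝ) : AddCircle (2 * Real.pi)) := by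
    intro z
    rw [AddCircle.liftIoc_coe_apply]
    rw [e]
    exact Complex.arg_mem_Ioc z
  have h3 : (fun z : ℂ => F z.arg) = fun z : ℂ => AddCircle.liftIoc (2 * Real.pi) (-Real.pi) F
      ((z.arg : ℝ) : AddCircle (2 * Real.pi)) := funext h2
  rw [h3]
  exact ContinuousAt.comp (f := fun z : ℂ => ((z.arg : ℝ) : AddCircle (2 * Real.pi)))
    h1.continuousAt (Complex.continuousAt_arg_coe_angle hz)

theorem comp0_cont_W {F : ℝ → ℝ} (hF : ContinuousOn F (Icc (-Real.pi) Real.pi))
    (hp : F (-Real.pi) = F Real.pi) (a : ℂ) (s C : ℝ) :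
    Continuous (fun x : ℂ => C + dist x a / s * F (x - a).arg) := by
  refine continuous_iff_continuousAt.2 fun x => ?_
  refine ContinuousAt.add continuousAt_const ?_
  by_cases hx : x = a
  · subst hx
    obtain ⟨M, hM⟩ := isCompact_Icc.exists_bound_of_continuousOn hF
    have h1 : Tendsto (fun y : ℂ => dist y x / s * F (y - x).arg) (𝓝 x) (𝓝 0) := by
      have h2 : Tendsto (fun y : ℂ => dist y x / |s| * M) (𝓝 x) (𝓝 0) := by
        have h3 : Continuous fun y : ℂ => dist y x / |s| * M := by fun_prop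
        have h4 := h3.tendsto x
        simpa using h4
      refine squeeze_zero_norm (fun y => ?_) h2
      rw [norm_mul, norm_div, Real.norm_of_nonneg dist_nonneg, Real.norm_eq_abs s]
      refine mul_le_mul_of_nonneg_left (hM _ (Ioc_subset_Icc_self (Complex.arg_mem_Ioc _))) ?_
      positivity
    have h5 : ContinuousAt (fun y : ℂ => dist y x / s * F (y - x).arg) x := by
      have e : (fun y : ℂ => dist y x / s * F (y - x).arg) x = 0 := by simp
      unfold ContinuousAt
      rw [e]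
      exact h1
    exact h5
  · refine ContinuousAt.mul (by fun_prop) ?_
    have h1 : ContinuousAt (fun z : ℂ => F z.arg) (x - a) :=
      comp0_cont_arg hF hp (sub_ne_zero.2 hx)
    exact ContinuousAt.comp (f := fun x : ℂ => x - a) h1 (by fun_prop)

theorem comp0_ball_ae (a : ℂ) (s : ℝ) :
    ({x | dist x a ∈ Ioo 0 s} : Set ℂ) =ᵐ[volume] ball a s := by
  have h : ∀ᵐ x : ℂ, x ≠ a := by
    have := (measure_singleton a : volume ({a} : Set ℂ) = 0)
    rw [ae_iff]
    simpa using this
  filter_upwards [h] with x hx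
  apply propext
  constructor
  · intro hx'
    exact hx'.2
  · intro hx'
    exact ⟨dist_pos.2 hx, hx'⟩

theorem comp0_closedBall_ae (a : ℂ) {s : ℝ} (hs : 0 < s) :
    (closedBall a s : Set ℂ) =ᵐ[volume] ball a s := by
  have h : ∀ᵐ x : ℂ, x ∉ sphere a s := by
    rw [ae_iff]
    simp only [not_not]
    exact Measure.addHaar_sphere_of_ne_zero volume a hs.ne'
  filter_upwards [h] with x hx
  apply propext
  constructor
  · intro hx'
    exact lt_of_le_of_ne hx' hx
  · intro hx'
    exact ball_subset_closedBall hx'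

/-- the field of gradients of the homogeneous competitor -/
noncomputable def comp0_k (a : ℂ) (s : ℝ) (F G : ℝ → ℝ) (x : ℂ) : ℂ :=
  ((dist x a)⁻¹ * (dist x a / s * F (x - a).arg)) • er (x - a).arg +
    (s⁻¹ * G (x - a).arg) • et (x - a).arg

theorem comp0_k_pc {a : ℂ} {s r θ : ℝ} (F G : ℝ → ℝ) (hr : 0 < r)
    (hθ : θ ∈ Ioc (-Real.pi) Real.pi) :
    comp0_k a s F G (pc a r θ) = (s⁻¹ * F θ) • er θ + (s⁻¹ * G θ) • et θ := by
  unfold comp0_k
  rw [comp0_arg hr hθ, comp0_dist hr.le]
  congr 2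
  field_simp

theorem comp0_k_meas {a : ℂ} {s : ℝ} {F G : ℝ → ℝ}
    (hF : ContinuousOn F (Icc (-Real.pi) Real.pi)) (hp : F (-Real.pi) = F Real.pi)
    (hG : Measurable G) : Measurable (comp0_k a s F G) := by
  have h1 : Measurable (fun x : ℂ => dist x a / s * F (x - a).arg) := by
    have := (comp0_cont_W hF hp a s 0).measurable
    simpa only [zero_add] using this
  have harg : Measurable (fun x : ℂ => (x - a).arg) :=
    Complex.measurable_arg.comp (measurable_id.sub_const a)
  have her : Measurable (fun x : ℂ => er (x - a).arg) :=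
    comp0_continuous_er.measurable.comp harg
  have het : Measurable (fun x : ℂ => et (x - a).arg) :=
    comp0_continuous_et.measurable.comp harg
  have hd : Measurable (fun x : ℂ => (dist x a)⁻¹) :=
    (measurable_id.dist measurable_const).inv
  unfold comp0_k
  exact ((hd.mul h1).smul her).add (((hG.comp harg).const_mul s⁻¹).smul het)

theorem comp0_k_lint {F G : ℝ → ℝ} {a : ℂ} {s : ℝ} (hs : 0 < s)
    (hFG : IntegrableOn (fun θ => F θ ^ 2 + G θ ^ 2) (Ioo (-Real.pi) Real.pi)) :
    ∫⁻ x in ball a s, ‖comp0_k a s F G x‖ₑ ^ 2 =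
      ENNReal.ofReal (1 / 2 * ∫ θ in Ioo (-Real.pi) Real.pi, (F θ ^ 2 + G θ ^ 2)) := by
  rw [← setLIntegral_congr (comp0_ball_ae a s),
    polar_lintegral a measurableSet_Ioo (fun r hr => hr.1)]
  have h1 : ∀ p ∈ Ioo 0 s ×ˢ Ioo (-Real.pi) Real.pi,
      ENNReal.ofReal p.1 * ‖comp0_k a s F G (pc a p.1 p.2)‖ₑ ^ 2 =
      ENNReal.ofReal (p.1 * ((s⁻¹) ^ 2 * (F p.2 ^ 2 + G p.2 ^ 2))) := by
    intro p hp
    have hp1 : 0 < p.1 := hp.1.1
    rw [comp0_k_pc F G hp1 ⟨hp.2.1, hp.2.2.le⟩, ENNReal.ofReal_mul hp1.le, ← ofReal_norm,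
      ← ENNReal.ofReal_pow (norm_nonneg _), comp0_normsq]
    congr 2
    ring
  rw [setLIntegral_congr_fun (measurableSet_Ioo.prod measurableSet_Ioo) h1]
  have i1 : IntegrableOn (fun r : ℝ => r) (Ioo 0 s) :=
    (continuous_id.integrableOn_Icc (a := 0) (b := s)).mono_set Ioo_subset_Icc_self
  have i2 : IntegrableOn (fun θ : ℝ => (s⁻¹) ^ 2 * (F θ ^ 2 + G θ ^ 2))
      (Ioo (-Real.pi) Real.pi) := hFG.const_mul _
  have i3 := Integrable.mul_prod i1 i2
  rw [Measure.prod_restrict, ← Measure.volume_eq_prod] at i3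
  have h0 : ∫ r in Ioo 0 s, r = s ^ 2 / 2 := by
    have := integral_id (a := 0) (b := s)
    rw [intervalIntegral.integral_of_le hs.le, integral_Ioc_eq_integral_Ioo] at this
    rw [this]
    ring
  rw [← ofReal_integral_eq_lintegral_ofReal i3]
  · congr 1
    rw [Measure.volume_eq_prod]
    rw [setIntegral_prod_mul (fun r : ℝ => r) (fun θ => (s⁻¹) ^ 2 * (F θ ^ 2 + G θ ^ 2)),
      h0, integral_const_mul]
    field_simp
  · filter_upwards [ae_restrict_mem (measurableSet_Ioo.prod measurableSet_Ioo)] with p hp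
    have hp1 : 0 < p.1 := hp.1.1
    simp only [Pi.zero_apply]
    positivity

theorem comp0_div_ball {G : ℝ → ℝ} (hG : IntegrableOn G (Ioc (-Real.pi) Real.pi))
    (h0 : ∫ t in (-Real.pi)..Real.pi, G t = 0) (C m : ℝ) {s : ℝ} (hs : 0 < s) {φ : ℂ → ℝ}
    (hφ : ContDiff ℝ ∞ φ) (a v : ℂ) {F : ℝ → ℝ}
    (hF : ∀ θ, F θ = (∫ t in (-Real.pi)..θ, G t) - m) :
    ∫ x in ball a s, ((C + dist x a / s * F (x - a).arg) * fderiv ℝ φ x v +
      φ x * inner ℝ (comp0_k a s F G x) v) =
      s * ∫ θ in Ioo (-Real.pi) Real.pi,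
        (C + dist (pc a s θ) a / s * F (pc a s θ - a).arg) * φ (pc a s θ) * inner ℝ (er θ) v := by
  rw [← setIntegral_congr_set (comp0_ball_ae a s),
    polar_integral a measurableSet_Ioo (fun r hr => hr.1)]
  have h1 := (comp0_div hG h0 C m hs hφ a v hF).2
  have h2 : ∀ p ∈ Ioo 0 s ×ˢ Ioo (-Real.pi) Real.pi,
      p.1 • ((C + dist (pc a p.1 p.2) a / s * F (pc a p.1 p.2 - a).arg) *
        fderiv ℝ φ (pc a p.1 p.2) v +
      φ (pc a p.1 p.2) * inner ℝ (comp0_k a s F G (pc a p.1 p.2)) v) =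
      (p.1 * ((C + p.1 / s * F p.2) * fderiv ℝ φ (pc a p.1 p.2) v +
        φ (pc a p.1 p.2) * (s⁻¹ * (F p.2 * inner ℝ (er p.2) v + G p.2 * inner ℝ (et p.2) v)))) := by
    intro p hp
    have hp1 : 0 < p.1 := hp.1.1
    have hp2 : p.2 ∈ Ioc (-Real.pi) Real.pi := ⟨hp.2.1, hp.2.2.le⟩
    rw [comp0_k_pc F G hp1 hp2, comp0_dist hp1.le, comp0_arg hp1 hp2, inner_add_left,
      real_inner_smul_left, real_inner_smul_left, smul_eq_mul]
    ring
  rw [setIntegral_congr_fun (measurableSet_Ioo.prod measurableSet_Ioo) h2, h1]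
  congr 1
  refine setIntegral_congr_fun measurableSet_Ioo fun θ hθ => ?_
  have hp2 : θ ∈ Ioc (-Real.pi) Real.pi := ⟨hθ.1, hθ.2.le⟩
  rw [comp0_dist hs.le, comp0_arg hs hp2, div_self hs.ne', one_mul]

/-- the energy inequality, from the gluing property at the radius `s` -/
theorem comp0_main {Ω : Set ℂ} {u : ℂ → ℝ} {g j : ℂ → ℂ} (h : MSMin Ω u g j) {a : ℂ} {s : ℝ}
    (hs : 0 < s) (hsR : closedBall a s ⊆ Ω)
    (hglue : ∀ (W : ℂ → ℝ) (k : ℂ → ℂ),
      ContinuousOn W (closedBall a s) → IntegrableOn k (ball a s) →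
      (∀ φ : ℂ → ℝ, ContDiff ℝ ∞ φ → HasCompactSupport φ → ∀ v : ℂ,
        ∫ x in ball a s, W x * fderiv ℝ φ x v = - (∫ x in ball a s, φ x * inner ℝ (k x) v) +
          s * ∫ θ in Ioo (-Real.pi) Real.pi,
            W (pc a s θ) * φ (pc a s θ) * inner ℝ (er θ) v) →
      LocallyIntegrableOn (glued a s W u) Ω ∧ IsSBVGrad Ω (glued a s W u) (glued a s k g) ∧
      discSet Ω (glued a s W u) ∩ ball a s = ∅ ∧
      (μH[1] : Measure ℂ) (discSet Ω (glued a s W u) ∩ sphere a s) ≤
        ENNReal.ofReal s * volume {θ ∈ Ioo (-Real.pi) Real.pi | u (pc a s θ) ≠ W (pc a s θ)})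
    (hgi : IntegrableOn (fun θ => ‖g (pc a s θ)‖ ^ 2) (Ioo (-Real.pi) Real.pi)) {c : ℝ}
    (hc : ∀ᵐ θ ∂(volume.restrict (Ioo (-Real.pi) Real.pi)),
        u (pc a s θ) = c + ∫ t in (-Real.pi)..θ, Gq g a s t)
    (h0 : ∫ t in (-Real.pi)..Real.pi, Gq g a s t = 0) :
    Dq g a s + Lq Ω u a s ≤ s * Tq g a s := by
  have hπ : -Real.pi ≤ Real.pi := by linarith [Real.pi_pos]
  set G : ℝ → ℝ := Gq g a s with hGdef
  have hpc : Continuous fun θ => pc a s θ :=
    (comp0_continuous_pc a).comp (Continuous.prodMk continuous_const continuous_id)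
  have hGm : Measurable G := by
    have h1 : Measurable fun θ => (inner ℝ (g (pc a s θ)) (et θ) : ℝ) :=
      (h.meas_g.comp hpc.measurable).inner comp0_continuous_et.measurable
    exact h1.const_mul s
  have hGsq : IntegrableOn (fun θ => G θ ^ 2) (Ioo (-Real.pi) Real.pi) := by
    refine Integrable.mono' (hgi.const_mul (s ^ 2)) (hGm.pow_const 2).aestronglyMeasurable ?_
    refine Eventually.of_forall fun θ => ?_
    rw [Real.norm_of_nonneg (sq_nonneg _)]
    have := comp0_inner_le (g (pc a s θ)) θ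
    have e : G θ ^ 2 = s ^ 2 * (inner ℝ (g (pc a s θ)) (et θ)) ^ 2 := by
      rw [hGdef]; unfold Gq; ring
    rw [e]
    exact mul_le_mul_of_nonneg_left this (sq_nonneg _)
  have hG2 : MemLp G 2 (volume.restrict (Ioo (-Real.pi) Real.pi)) :=
    (memLp_two_iff_integrable_sq hGm.aestronglyMeasurable).2 hGsq
  have hG1 : IntegrableOn G (Ioc (-Real.pi) Real.pi) := by
    have : IntegrableOn G (Ioo (-Real.pi) Real.pi) := hG2.integrable (by norm_num)
    rwa [integrableOn_Ioc_iff_integrableOn_Ioo]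
  obtain ⟨m, hm⟩ := wirtinger_periodic hG2 h0
  obtain ⟨F, hF⟩ : ∃ F : ℝ → ℝ, ∀ θ, F θ = (∫ t in (-Real.pi)..θ, G t) - m := ⟨_, fun _ => rfl⟩
  have hGi : IntervalIntegrable G volume (-Real.pi) Real.pi :=
    (intervalIntegrable_iff_integrableOn_Ioc_of_le hπ).2 hG1
  have hFc : ContinuousOn F (Icc (-Real.pi) Real.pi) := by
    have h1 := intervalIntegral.continuousOn_primitive_interval' (μ := volume) hGi left_mem_uIcc
    have h2 : F = fun θ => (∫ t in (-Real.pi)..θ, G t) - m := funext hF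
    rw [h2]
    rw [uIcc_of_le hπ] at h1
    exact h1.sub continuousOn_const
  have hFp : F (-Real.pi) = F Real.pi := by rw [hF, hF, h0, intervalIntegral.integral_same]
  set C : ℝ := c + m with hC
  set W : ℂ → ℝ := fun x => C + dist x a / s * F (x - a).arg with hW
  have hWc : Continuous W := comp0_cont_W hFc hFp a s C
  have hkm : Measurable (comp0_k a s F G) := comp0_k_meas hFc hFp hGm
  have hFsq : IntegrableOn (fun θ => F θ ^ 2) (Ioo (-Real.pi) Real.pi) :=
    ((hFc.pow 2).integrableOn_compact isCompact_Icc).mono_set Ioo_subset_Icc_self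
  have hFG : IntegrableOn (fun θ => F θ ^ 2 + G θ ^ 2) (Ioo (-Real.pi) Real.pi) := hFsq.add hGsq
  have hlint := comp0_k_lint (a := a) hs hFG
  -- integrability of k
  have hk2 : MemLp (comp0_k a s F G) 2 (volume.restrict (ball a s)) := by
    rw [memLp_two_iff_integrable_sq_norm hkm.aestronglyMeasurable]
    refine ⟨(hkm.norm.pow_const 2).aestronglyMeasurable, ?_⟩
    unfold HasFiniteIntegral
    have e : ∀ x, ‖‖comp0_k a s F G x‖ ^ 2‖ₑ = ‖comp0_k a s F G x‖ₑ ^ 2 := by
      intro x
      rw [enorm_pow, enorm_norm]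
    simp_rw [e]
    rw [hlint]
    exact ENNReal.ofReal_lt_top
  have hki : IntegrableOn (comp0_k a s F G) (ball a s) := by
    have : IsFiniteMeasure (volume.restrict (ball a s)) :=
      ⟨by rw [Measure.restrict_apply_univ]; exact measure_ball_lt_top⟩
    exact hk2.integrable (by norm_num)
  have hdiv : ∀ φ : ℂ → ℝ, ContDiff ℝ ∞ φ → HasCompactSupport φ → ∀ v : ℂ,
        ∫ x in ball a s, W x * fderiv ℝ φ x v =
          - (∫ x in ball a s, φ x * inner ℝ (comp0_k a s F G x) v) +
          s * ∫ θ in Ioo (-Real.pi) Real.pi,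
            W (pc a s θ) * φ (pc a s θ) * inner ℝ (er θ) v := by
    intro φ hφ hφc v
    have h1 := comp0_div_ball hG1 h0 C m hs hφ a v hF
    have i1 : IntegrableOn (fun x => W x * fderiv ℝ φ x v) (ball a s) := by
      have : Continuous fun x => W x * fderiv ℝ φ x v :=
        hWc.mul ((hφ.continuous_fderiv (by simp)).clm_apply continuous_const)
      exact (this.continuousOn.integrableOn_compact (isCompact_closedBall a s)).mono_set
        ball_subset_closedBall
    have i2 : IntegrableOn (fun x => φ x * inner ℝ (comp0_k a s F G x) v) (ball a s) := by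
      obtain ⟨M, hM⟩ := hφ.continuous.bounded_above_of_compact_support hφc
      refine Integrable.bdd_mul (c := M) (hki.inner_const v) hφ.continuous.aestronglyMeasurable ?_
      exact Eventually.of_forall hM
    rw [integral_add i1 i2] at h1
    linarith
  obtain ⟨hloc, hgrad, hball, hsph⟩ := hglue W (comp0_k a s F G) hWc.continuousOn hki hdiv
  have hzero : volume {θ ∈ Ioo (-Real.pi) Real.pi | u (pc a s θ) ≠ W (pc a s θ)} = 0 := by
    rw [ae_restrict_iff' measurableSet_Ioo, ae_iff] at hc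
    refine measure_mono_null ?_ hc
    rintro θ ⟨hθ, hne⟩ hcon
    apply hne
    rw [hcon hθ]
    simp only [hW]
    rw [comp0_dist hs.le, comp0_arg hs ⟨hθ.1, hθ.2.le⟩, div_self hs.ne', one_mul, hF]
    ring
  rw [hzero, mul_zero] at hsph
  have hmin := h.min (glued a s W u) (glued a s (comp0_k a s F G) g) (closedBall a s) hloc hgrad
    (isCompact_closedBall a s) hsR (fun x _ hx => by
      have : ¬ dist x a ≤ s := hx
      unfold glued
      rw [if_neg this])
  -- right-hand side
  have hr1 : (μH[1] : Measure ℂ) (discSet Ω (glued a s W u) ∩ closedBall a s) = 0 := by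
    refine le_antisymm ?_ (zero_le)
    rw [← ball_union_sphere, inter_union_distrib_left, hball, empty_union]
    exact hsph
  have hr2 : ∫⁻ x in closedBall a s, ‖glued a s (comp0_k a s F G) g x‖ₑ ^ 2 =
      ∫⁻ x in ball a s, ‖comp0_k a s F G x‖ₑ ^ 2 := by
    rw [setLIntegral_congr (comp0_closedBall_ae a hs)]
    refine setLIntegral_congr_fun measurableSet_ball fun x hx => ?_
    have : dist x a ≤ s := le_of_lt hx
    simp only [glued]
    rw [if_pos this]
  rw [hr1, hr2, add_zero, hlint] at hmin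
  -- left-hand side
  have hgI : IntegrableOn (fun x => ‖g x‖ ^ 2) (ball a s) :=
    (h.fin_g _ (isCompact_closedBall a s) hsR).mono_set ball_subset_closedBall
  have hD : ENNReal.ofReal (Dq g a s) = ∫⁻ x in ball a s, ‖g x‖ₑ ^ 2 := by
    unfold Dq
    rw [ofReal_integral_eq_lintegral_ofReal hgI (Eventually.of_forall fun x => sq_nonneg _)]
    refine lintegral_congr fun x => ?_
    rw [ENNReal.ofReal_pow (norm_nonneg _), ofReal_norm]
  have hfinS : (μH[1] : Measure ℂ) (discSet Ω u ∩ ball a s) ≠ ⊤ :=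
    ne_top_of_le_ne_top (h.fin_S _ (isCompact_closedBall a s) hsR).ne
      (measure_mono (inter_subset_inter_right _ ball_subset_closedBall))
  have hL : ENNReal.ofReal (Lq Ω u a s) = (μH[1] : Measure ℂ) (discSet Ω u ∩ ball a s) := by
    unfold Lq
    rw [ENNReal.ofReal_toReal hfinS]
  have hD0 : 0 ≤ Dq g a s := integral_nonneg fun x => sq_nonneg _
  have hL0 : 0 ≤ Lq Ω u a s := ENNReal.toReal_nonneg
  have hle : ENNReal.ofReal (Dq g a s + Lq Ω u a s) ≤
      ENNReal.ofReal (1 / 2 * ∫ θ in Ioo (-Real.pi) Real.pi, (F θ ^ 2 + G θ ^ 2)) := by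
    rw [ENNReal.ofReal_add hD0 hL0, hD, hL]
    refine le_trans (add_le_add (lintegral_mono_set ball_subset_closedBall) (measure_mono
      (inter_subset_inter_right _ ball_subset_closedBall))) hmin
  have hrhs : 0 ≤ 1 / 2 * ∫ θ in Ioo (-Real.pi) Real.pi, (F θ ^ 2 + G θ ^ 2) := by
    have : 0 ≤ ∫ θ in Ioo (-Real.pi) Real.pi, (F θ ^ 2 + G θ ^ 2) :=
      integral_nonneg fun x => by positivity
    positivity
  have hle' := (ENNReal.ofReal_le_ofReal_iff hrhs).1 hle
  refine hle'.trans ?_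
  rw [integral_add hFsq hGsq]
  have hm' : ∫ θ in Ioo (-Real.pi) Real.pi, F θ ^ 2 ≤ ∫ θ in Ioo (-Real.pi) Real.pi, G θ ^ 2 := by
    rw [intervalIntegral.integral_of_le hπ, intervalIntegral.integral_of_le hπ,
      integral_Ioc_eq_integral_Ioo, integral_Ioc_eq_integral_Ioo] at hm
    simp_rw [← hF] at hm
    exact hm
  have hT : ∫ θ in Ioo (-Real.pi) Real.pi, G θ ^ 2 = s * Tq g a s := by
    unfold Tq
    rw [← mul_assoc, ← integral_const_mul]
    refine integral_congr_ae (Eventually.of_forall fun θ => ?_)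
    simp only [hGdef, Gq]
    ring
  linarith

end Pool.Agent.MP099f24
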