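import Pool.Agent.Lib.MP_099f24_an.SD.Defs

/-!
# MP_099f24_an SD, module MEAS: comparison of measures on an interval by smooth functions
-/

namespace Pool.Agent.MP099f24

open MeasureTheory Filter Topology Set Metric
open scoped ENNReal ContDiff

theorem meas_urysohn {K U : Set ℝ} (hK : IsCompact K) (hU : IsOpen U) (hKU : K ⊆ U) :
    ∃ f : ℝ → ℝ, ContDiff ℝ ∞ f ∧ HasCompactSupport f ∧ tsupport f ⊆ U ∧ (∀ x, 0 ≤ f x) ∧
      (∀ x, f x ≤ 1) ∧ ∀ x ∈ K, f x = 1 := by
  obtain ⟨K', hK', hKK', hK'U⟩ := exists_compact_between hK hU hKU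
  obtain ⟨f, hf, hfr, hfs, hf1⟩ := exists_contMDiff_support_eq_eq_one_iff (n := ⊤)
    (modelWithCornersSelf ℝ ℝ) (isOpen_interior (s := K')) hK.isClosed hKK'
  have hts : tsupport f ⊆ K' := by
    rw [tsupport, hfs]
    exact closure_minimal interior_subset hK'.isClosed
  refine ⟨f, hf.contDiff, HasCompactSupport.of_support_subset_isCompact hK'
    ((subset_tsupport f).trans hts), hts.trans hK'U, fun x => (hfr (mem_range_self x)).1,
    fun x => (hfr (mem_range_self x)).2, fun x hx => (hf1 x).1 hx⟩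

theorem measure_le_of_smooth {μ₁ μ₂ : Measure ℝ} [IsFiniteMeasure μ₁] [IsFiniteMeasure μ₂]
    {a b : ℝ} (h : ∀ ζ : ℝ → ℝ, ContDiff ℝ ∞ ζ → HasCompactSupport ζ → tsupport ζ ⊆ Ioo a b →
      (∀ t, 0 ≤ ζ t) → ∫ t, ζ t ∂μ₁ ≤ ∫ t, ζ t ∂μ₂) {P : Set ℝ} (hP : MeasurableSet P)
    (hPab : P ⊆ Ioo a b) : μ₁ P ≤ μ₂ P := by
  rw [hP.measure_eq_iSup_isCompact (μ := μ₁)]
  refine iSup₂_le fun K hKP => iSup_le fun hK => ?_
  refine le_trans ?_ (measure_mono hKP : μ₂ K ≤ μ₂ P)
  refine ENNReal.le_of_forall_pos_le_add fun ε hε _ => ?_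
  obtain ⟨V, hKV, hV, hVε⟩ := K.exists_isOpen_le_add μ₂
    (ENNReal.coe_ne_zero.2 hε.ne' : (ε : ℝ≥0∞) ≠ 0)
  obtain ⟨f, hf, hfc, hfs, hf0, hf1, hfK⟩ := meas_urysohn hK (hV.inter isOpen_Ioo)
    (subset_inter hKV (hKP.trans hPab))
  have hbi : ∀ ν : Measure ℝ, IsFiniteMeasure ν → Integrable f ν := fun ν hν =>
    (integrable_const (1 : ℝ)).mono' hf.continuous.aestronglyMeasurable
      (Eventually.of_forall fun x => by
        rw [Real.norm_eq_abs, abs_of_nonneg (hf0 x)]; exact hf1 x)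
  have h1 := h f hf hfc (hfs.trans inter_subset_right) hf0
  have h2 : μ₁.real K ≤ ∫ t, f t ∂μ₁ := by
    rw [← integral_indicator_one hK.measurableSet]
    refine integral_mono ((integrable_const (1 : ℝ)).indicator hK.measurableSet)
      (hbi _ inferInstance) fun x => ?_
    by_cases hx : x ∈ K
    · simp [indicator_of_mem hx, hfK x hx]
    · simp [indicator_of_notMem hx, hf0 x]
  have h3 : ∫ t, f t ∂μ₂ ≤ μ₂.real V := by
    rw [← integral_indicator_one hV.measurableSet]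
    refine integral_mono (hbi _ inferInstance)
      ((integrable_const (1 : ℝ)).indicator hV.measurableSet) fun x => ?_
    by_cases hx : x ∈ V
    · simp [indicator_of_mem hx, hf1 x]
    · have : f x = 0 := image_eq_zero_of_notMem_tsupport fun h' => hx (hfs h').1
      simp [indicator_of_notMem hx, this]
  have h4 : μ₁.real K ≤ μ₂.real V := h2.trans (h1.trans h3)
  have h5 : μ₁ K ≤ μ₂ V := by
    rw [Measure.real, Measure.real] at h4
    exact (ENNReal.toReal_le_toReal (measure_ne_top _ _) (measure_ne_top _ _)).1 h4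
  exact h5.trans hVε

end Pool.Agent.MP099f24
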