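import Mathlib
import Pool.Agent.Lib.MP_099f24_an.SD.Defs
import Pool.Agent.Lib.MP_099f24_an.SD.Polar
import Pool.Agent.Lib.MP_099f24_an.SD.Vf

/-!
# The weak formulation in polar coordinates (module PF)
-/

namespace Pool.Agent.MP099f24

open MeasureTheory Filter Topology Set Metric
open scoped ENNReal ContDiff

/-- the vector field -/
private noncomputable def pfZ (γ η : ℝ → ℝ) (c : ℂ) (z : ℂ) : ℂ :=
  (γ ‖z‖ * ‖z‖⁻¹ * η z.arg : ℝ) • (c * z)

private lemma pf_arg_contDiffAt {z : ℂ} (hz : z ∈ Complex.slitPlane) :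
    ContDiffAt ℝ ∞ Complex.arg z := by
  have h1 : ContDiffAt ℝ ∞ Complex.log z := (Complex.contDiffAt_log hz).restrict_scalars ℝ
  have h2 : ContDiffAt ℝ ∞ (fun w : ℂ => (Complex.log w).im) z :=
    (Complex.imCLM.contDiff.contDiffAt).comp z h1
  have h3 : (fun w : ℂ => (Complex.log w).im) = Complex.arg := by
    funext w
    exact Complex.log_im w
  rwa [h3] at h2

private lemma pf_eta_neg {η : ℝ → ℝ} (hper : ∀ t, η (t + 2 * Real.pi) = η t) {z : ℂ}
    (hz : z ≠ 0) : η z.arg = η ((-z).arg + Real.pi) := by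
  have hp : Function.Periodic η (2 * Real.pi) := hper
  have h1 : (((-z).arg + Real.pi : ℝ) : Real.Angle) = (z.arg : Real.Angle) := by
    rw [Real.Angle.coe_add, Complex.arg_neg_coe_angle hz, add_assoc, Real.Angle.coe_pi_add_coe_pi,
      add_zero]
  obtain ⟨k, hk⟩ := Real.Angle.angle_eq_iff_two_pi_dvd_sub.1 h1
  have h2 : (-z).arg + Real.pi = z.arg + k * (2 * Real.pi) := by linarith
  rw [h2]
  exact (hp.int_mul k z.arg).symm

private lemma pf_eta_contDiffAt {η : ℝ → ℝ} (hη : ContDiff ℝ ∞ η)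
    (hper : ∀ t, η (t + 2 * Real.pi) = η t) {z : ℂ} (hz : z ≠ 0) :
    ContDiffAt ℝ ∞ (fun w : ℂ => η w.arg) z := by
  by_cases h : z ∈ Complex.slitPlane
  · exact hη.contDiffAt.comp z (pf_arg_contDiffAt h)
  · have h' : -z ∈ Complex.slitPlane := by
      rw [Complex.mem_slitPlane_iff] at h ⊢
      push Not at h
      left
      have h1 : z.re ≠ 0 := fun h0 => hz (Complex.ext h0 h.2)
      have h2 := lt_of_le_of_ne h.1 h1
      simpa using h2
    have h3 : ContDiffAt ℝ ∞ (fun w : ℂ => η ((-w).arg + Real.pi)) z := by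
      refine hη.contDiffAt.comp z (ContDiffAt.add ?_ contDiffAt_const)
      exact (pf_arg_contDiffAt h').comp z contDiffAt_id.neg
    refine h3.congr_of_eventuallyEq ?_
    filter_upwards [isOpen_ne.mem_nhds hz] with w hw
    exact pf_eta_neg hper hw

private lemma pf_zero {γ : ℝ → ℝ} {R : ℝ} (hs : tsupport γ ⊆ Ioo 0 R) {r : ℝ}
    (hr : r ∉ Ioo 0 R) : γ r = 0 :=
  image_eq_zero_of_notMem_tsupport fun h => hr (hs h)

/-- `γ` vanishes near `0` -/
private lemma pf_near {γ : ℝ → ℝ} {R : ℝ} (hs : tsupport γ ⊆ Ioo 0 R) :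
    ∀ᶠ r in 𝓝 (0 : ℝ), γ r = 0 := by
  have h : (tsupport γ)ᶜ ∈ 𝓝 (0 : ℝ) :=
    (isClosed_tsupport γ).isOpen_compl.mem_nhds fun h => lt_irrefl _ (hs h).1
  filter_upwards [h] with r hr
  exact image_eq_zero_of_notMem_tsupport hr

private lemma pf_contDiff {γ η : ℝ → ℝ} {R : ℝ} (hγ : ContDiff ℝ ∞ γ)
    (hs : tsupport γ ⊆ Ioo 0 R) (hη : ContDiff ℝ ∞ η) (hper : ∀ t, η (t + 2 * Real.pi) = η t)
    (c : ℂ) : ContDiff ℝ ∞ (pfZ γ η c) := by
  rw [contDiff_iff_contDiffAt]
  intro z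
  by_cases hz : z = 0
  · subst hz
    have h1 : ∀ᶠ w in 𝓝 (0 : ℂ), pfZ γ η c w = 0 := by
      have h2 : Tendsto (fun w : ℂ => ‖w‖) (𝓝 0) (𝓝 0) := by
        have := continuous_norm.tendsto (0 : ℂ)
        rwa [norm_zero] at this
      filter_upwards [h2.eventually (pf_near hs)] with w hw
      simp [pfZ, hw]
    exact (contDiffAt_const (c := (0 : ℂ))).congr_of_eventuallyEq h1
  · have hn : ContDiffAt ℝ ∞ (fun w : ℂ => ‖w‖) z := contDiffAt_norm ℝ hz
    have h1 : ContDiffAt ℝ ∞ (fun w : ℂ => γ ‖w‖) z := hγ.contDiffAt.comp z hn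
    have h2 : ContDiffAt ℝ ∞ (fun w : ℂ => ‖w‖⁻¹) z := hn.inv (norm_ne_zero_iff.2 hz)
    exact ((h1.mul h2).mul (pf_eta_contDiffAt hη hper hz)).smul
      (contDiffAt_const.mul contDiffAt_id)

private lemma pf_norm_er (θ : ℝ) : ‖er θ‖ = 1 := by
  rw [er, Complex.norm_exp_ofReal_mul_I]

private lemma pf_norm {r : ℝ} (hr : 0 < r) (θ : ℝ) : ‖(r : ℂ) * er θ‖ = r := by
  rw [norm_mul, pf_norm_er, mul_one, Complex.norm_real, Real.norm_of_nonneg hr.le]

private lemma pf_arg {r θ : ℝ} (hr : 0 < r) (hθ : θ ∈ Ioo (-Real.pi) Real.pi) :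
    ((r : ℂ) * er θ).arg = θ := by
  rw [er, Complex.exp_mul_I]
  exact Complex.arg_mul_cos_add_sin_mul_I hr ⟨hθ.1, hθ.2.le⟩

private lemma pf_pcval {γ η : ℝ → ℝ} {c : ℂ} {r θ : ℝ} (hr : 0 < r)
    (hθ : θ ∈ Ioo (-Real.pi) Real.pi) :
    pfZ γ η c ((r : ℂ) * er θ) = (γ r * η θ : ℝ) • (c * er θ) := by
  have hr' : (r : ℂ) ≠ 0 := by exact_mod_cast hr.ne'
  rw [pfZ, pf_norm hr, pf_arg hr hθ]
  simp only [Complex.real_smul, Complex.ofReal_mul, Complex.ofReal_inv]
  field_simp

/-- derivative along the radius -/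
private lemma pf_deriv_r {γ η : ℝ → ℝ} {c : ℂ} (hd : Differentiable ℝ (pfZ γ η c))
    (hγ : Differentiable ℝ γ) {r θ : ℝ} (hr : 0 < r) (hθ : θ ∈ Ioo (-Real.pi) Real.pi) :
    fderiv ℝ (pfZ γ η c) ((r : ℂ) * er θ) (er θ) = (deriv γ r * η θ : ℝ) • (c * er θ) := by
  have h1 : HasDerivAt (fun t : ℝ => (t : ℂ) * er θ) (er θ) r := by
    simpa using (Complex.ofRealCLM.hasDerivAt (x := r)).mul_const (er θ)
  have h2 : HasDerivAt (fun t : ℝ => pfZ γ η c ((t : ℂ) * er θ))
      (fderiv ℝ (pfZ γ η c) ((r : ℂ) * er θ) (er θ)) r :=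
    (hd _).hasFDerivAt.comp_hasDerivAt r h1
  have h3 : HasDerivAt (fun t : ℝ => (γ t * η θ : ℝ) • (c * er θ))
      ((deriv γ r * η θ : ℝ) • (c * er θ)) r :=
    (((hγ r).hasDerivAt).mul_const (η θ)).smul_const _
  have h4 : (fun t : ℝ => pfZ γ η c ((t : ℂ) * er θ)) =ᶠ[𝓝 r]
      fun t : ℝ => (γ t * η θ : ℝ) • (c * er θ) := by
    filter_upwards [isOpen_Ioi.mem_nhds hr] with t ht
    exact pf_pcval ht hθ
  exact h2.unique (h3.congr_of_eventuallyEq h4)

private lemma pf_er_deriv (θ : ℝ) : HasDerivAt er (et θ) θ := by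
  have h1 : HasDerivAt (fun t : ℝ => (t : ℂ) * Complex.I) Complex.I θ := by
    simpa using (Complex.ofRealCLM.hasDerivAt (x := θ)).mul_const Complex.I
  have h2 := h1.cexp
  rw [mul_comm] at h2
  exact h2

/-- derivative along the circle -/
private lemma pf_deriv_t {γ η : ℝ → ℝ} {c : ℂ} (hd : Differentiable ℝ (pfZ γ η c))
    (hη : Differentiable ℝ η) {r θ : ℝ} (hr : 0 < r) (hθ : θ ∈ Ioo (-Real.pi) Real.pi) :
    fderiv ℝ (pfZ γ η c) ((r : ℂ) * er θ) (et θ) =
      (γ r / r * deriv η θ : ℝ) • (c * er θ) + (γ r / r * η θ : ℝ) • (c * et θ) := by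
  have h1 : HasDerivAt (fun t : ℝ => (r : ℂ) * er t) ((r : ℂ) * et θ) θ :=
    (pf_er_deriv θ).const_mul _
  have h2 : HasDerivAt (fun t : ℝ => pfZ γ η c ((r : ℂ) * er t))
      (fderiv ℝ (pfZ γ η c) ((r : ℂ) * er θ) ((r : ℂ) * et θ)) θ :=
    (hd _).hasFDerivAt.comp_hasDerivAt θ h1
  have h3 : HasDerivAt (fun t : ℝ => (γ r * η t : ℝ) • (c * er t))
      ((γ r * η θ : ℝ) • (c * et θ) + (γ r * deriv η θ : ℝ) • (c * er θ)) θ :=
    ((hη θ).hasDerivAt.const_mul (γ r)).smul ((pf_er_deriv θ).const_mul c)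
  have h4 : (fun t : ℝ => pfZ γ η c ((r : ℂ) * er t)) =ᶠ[𝓝 θ]
      fun t : ℝ => (γ r * η t : ℝ) • (c * er t) := by
    filter_upwards [isOpen_Ioo.mem_nhds hθ] with t ht
    exact pf_pcval hr ht
  have h5 := h2.unique (h3.congr_of_eventuallyEq h4)
  have h6 : (r : ℂ) * et θ = r • et θ := by rw [Complex.real_smul]
  rw [h6, map_smul] at h5
  have h7 : fderiv ℝ (pfZ γ η c) ((r : ℂ) * er θ) (et θ) =
      r⁻¹ • (r • fderiv ℝ (pfZ γ η c) ((r : ℂ) * er θ) (et θ)) := by
    rw [smul_smul, inv_mul_cancel₀ hr.ne', one_smul]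
  rw [h7, h5, smul_add, smul_smul, smul_smul, add_comm]
  congr 2 <;> ring_nf

/-- the divergence in the frame `er`, `et` -/
private lemma pf_dv (Y : ℂ → ℂ) (x : ℂ) (θ : ℝ) :
    dv Y x = inner ℝ (fderiv ℝ Y x (er θ)) (er θ) + inner ℝ (fderiv ℝ Y x (et θ)) (et θ) := by
  have e1 : er θ = Real.cos θ • (1 : ℂ) + Real.sin θ • Complex.I := by
    rw [er, Complex.exp_mul_I, Complex.real_smul, Complex.real_smul, mul_one, Complex.ofReal_cos,
      Complex.ofReal_sin]
  have e2 : et θ = (-Real.sin θ) • (1 : ℂ) + Real.cos θ • Complex.I := by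
    have : et θ = Complex.I * er θ := rfl
    rw [this, e1]
    simp only [Complex.real_smul]
    push_cast
    ring_nf
    rw [Complex.I_sq]
    ring
  have e3 : fderiv ℝ Y x (er θ) = Real.cos θ • fderiv ℝ Y x 1 +
      Real.sin θ • fderiv ℝ Y x Complex.I := by
    rw [e1, map_add, map_smul, map_smul]
  have e4 : fderiv ℝ Y x (et θ) = (-Real.sin θ) • fderiv ℝ Y x 1 +
      Real.cos θ • fderiv ℝ Y x Complex.I := by
    rw [e2, map_add, map_smul, map_smul]
  rw [e3, e4, dv, e1, e2]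
  simp only [Complex.inner, Complex.add_re, Complex.mul_re, Complex.conj_re, Complex.conj_im,
    Complex.add_im, Complex.real_smul, Complex.ofReal_re, Complex.ofReal_im, Complex.mul_im,
    Complex.one_re, Complex.one_im, Complex.I_re, Complex.I_im, map_add]
  linear_combination (-(fderiv ℝ Y x 1).re - (fderiv ℝ Y x Complex.I).im) * Real.sin_sq_add_cos_sq θ

private lemma pf_inner_rr (θ : ℝ) : inner ℝ (er θ) (er θ) = (1 : ℝ) := by
  rw [real_inner_self_eq_norm_sq, pf_norm_er, one_pow]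

private lemma pf_inner_tt (θ : ℝ) : inner ℝ (et θ) (et θ) = (1 : ℝ) := by
  rw [real_inner_self_eq_norm_sq, et, norm_mul, Complex.norm_I, one_mul,
    Complex.norm_exp_ofReal_mul_I, one_pow]

private lemma pf_inner_rt (θ : ℝ) : inner ℝ (er θ) (et θ) = (0 : ℝ) := by
  have : et θ = Complex.I * er θ := rfl
  rw [this]
  simp only [Complex.inner, Complex.mul_re, Complex.conj_re, Complex.conj_im, Complex.mul_im,
    Complex.I_re, Complex.I_im]
  ring

private lemma pf_inner_tr (θ : ℝ) : inner ℝ (et θ) (er θ) = (0 : ℝ) := by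
  rw [real_inner_comm, pf_inner_rt]

private lemma pf_I_et (θ : ℝ) : Complex.I * et θ = - er θ := by
  have : et θ = Complex.I * er θ := rfl
  rw [this, ← mul_assoc, Complex.I_mul_I, neg_one_mul]

private lemma pf_div_theta {γ η : ℝ → ℝ} (hd : Differentiable ℝ (pfZ γ η Complex.I))
    (hγ : Differentiable ℝ γ) (hη : Differentiable ℝ η) {r θ : ℝ} (hr : 0 < r)
    (hθ : θ ∈ Ioo (-Real.pi) Real.pi) :
    dv (pfZ γ η Complex.I) ((r : ℂ) * er θ) = γ r / r * deriv η θ := by
  rw [pf_dv _ _ θ, pf_deriv_r hd hγ hr hθ, pf_deriv_t hd hη hr hθ, pf_I_et]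
  have : Complex.I * er θ = et θ := rfl
  rw [this, inner_add_left, inner_smul_left, inner_smul_left, inner_smul_left, inner_neg_left,
    pf_inner_tr, pf_inner_tt, pf_inner_rt]
  simp

private lemma pf_div_r {γ η : ℝ → ℝ} (hd : Differentiable ℝ (pfZ γ η 1))
    (hγ : Differentiable ℝ γ) (hη : Differentiable ℝ η) {r θ : ℝ} (hr : 0 < r)
    (hθ : θ ∈ Ioo (-Real.pi) Real.pi) :
    dv (pfZ γ η 1) ((r : ℂ) * er θ) = (deriv γ r + γ r / r) * η θ := by
  rw [pf_dv _ _ θ, pf_deriv_r hd hγ hr hθ, pf_deriv_t hd hη hr hθ, one_mul, one_mul,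
    inner_add_left, inner_smul_left, inner_smul_left, inner_smul_left, pf_inner_rr, pf_inner_tt,
    pf_inner_rt]
  simp
  ring

private lemma pf_dv_sub (Z : ℂ → ℂ) (a x : ℂ) : dv (fun y => Z (y - a)) x = dv Z (x - a) := by
  unfold dv
  rw [fderiv_comp_sub]

private lemma pf_Y_zero {γ η : ℝ → ℝ} {c a : ℂ} {R : ℝ} (hs : tsupport γ ⊆ Ioo 0 R) :
    tsupport (fun y => pfZ γ η c (y - a)) ⊆ {x | dist x a ∈ Ioo 0 R} := by
  have h1 : IsClosed {x : ℂ | dist x a ∈ tsupport γ} :=
    (isClosed_tsupport γ).preimage (continuous_id.dist continuous_const)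
  have h2 : tsupport (fun y => pfZ γ η c (y - a)) ⊆ {x : ℂ | dist x a ∈ tsupport γ} := by
    refine closure_minimal ?_ h1
    intro x hx
    by_contra h
    apply hx
    have h3 : γ ‖x - a‖ = 0 := by
      rw [← dist_eq_norm]
      exact image_eq_zero_of_notMem_tsupport h
    simp [pfZ, h3]
  exact fun x hx => hs (h2 hx)

private lemma pf_Y_compact {γ η : ℝ → ℝ} {c a : ℂ} {R : ℝ} (hs : tsupport γ ⊆ Ioo 0 R) :
    HasCompactSupport (fun y => pfZ γ η c (y - a)) := by
  refine (isCompact_closedBall a R).of_isClosed_subset (isClosed_tsupport _) ?_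
  exact fun x hx => (pf_Y_zero hs hx).2.le

private lemma pf_dv_zero {Y : ℂ → ℂ} {x : ℂ} (hx : x ∉ tsupport Y) : dv Y x = 0 := by
  have h : fderiv ℝ Y x = 0 := by
    by_contra h
    exact hx (support_fderiv_subset ℝ h)
  simp [dv, h]

private lemma pf_polar {Ω : Set ℂ} (hΩ : IsOpen Ω) {a : ℂ} {R : ℝ} (hR : ball a R ⊆ Ω)
    {f : ℂ → ℝ} (hf : Integrable f) (h0 : ∀ x, dist x a ∉ Ioo 0 R → f x = 0) :
    ∫ x in Ω, f x = ∫ r in Ioo 0 R, ∫ θ in Ioo (-Real.pi) Real.pi, r * f (pc a r θ) := by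
  have h1 : {x : ℂ | dist x a ∈ Ioo 0 R} ⊆ Ω := fun x hx => hR hx.2
  rw [setIntegral_eq_of_subset_of_forall_sdiff_eq_zero hΩ.measurableSet h1
    (fun x hx => h0 x hx.2), polar_integral a measurableSet_Ioo Ioo_subset_Ioi_self,
    Measure.volume_eq_prod, setIntegral_prod]
  · rfl
  · rw [← Measure.volume_eq_prod]
    exact (polar_integrable a measurableSet_Ioo Ioo_subset_Ioi_self f).1 hf.integrableOn

private lemma pf_int_u {Ω : Set ℂ} {u : ℂ → ℝ} {g j : ℂ → ℂ} (h : SBVData Ω u g j) {Y : ℂ → ℂ}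
    (hY : ContDiff ℝ ∞ Y) (hc : HasCompactSupport Y) (hs : tsupport Y ⊆ Ω) :
    Integrable (fun x => u x * dv Y x) := by
  have h1 : IntegrableOn u (tsupport Y) := h.intu.integrableOn_compact_subset hs hc
  have hcf : Continuous (fderiv ℝ Y) := hY.continuous_fderiv (by simp)
  have h2 : Continuous (dv Y) := by
    unfold dv
    exact (Complex.continuous_re.comp (hcf.clm_apply continuous_const)).add
      (Complex.continuous_im.comp (hcf.clm_apply continuous_const))
  have h3 := h1.mul_continuousOn h2.continuousOn hc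
  rw [integrableOn_iff_integrable_of_support_subset] at h3
  · exact h3
  · intro x hx
    by_contra hx'
    apply hx
    simp [pf_dv_zero hx']

private lemma pf_int_g {Ω : Set ℂ} {u : ℂ → ℝ} {g j : ℂ → ℂ} (h : SBVData Ω u g j) {Y : ℂ → ℂ}
    (hY : ContDiff ℝ ∞ Y) (hc : HasCompactSupport Y) (hs : tsupport Y ⊆ Ω) :
    Integrable (fun x => inner ℝ (g x) (Y x)) := by
  have h1 : IntegrableOn g (tsupport Y) := h.intg.integrableOn_compact_subset hs hc
  have h2 : IntegrableOn (fun x => (g x).re * (Y x).re) (tsupport Y) :=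
    IntegrableOn.mul_continuousOn (Complex.reCLM.integrable_comp h1)
      (Complex.continuous_re.comp hY.continuous).continuousOn hc
  have h3 : IntegrableOn (fun x => (g x).im * (Y x).im) (tsupport Y) :=
    IntegrableOn.mul_continuousOn (Complex.imCLM.integrable_comp h1)
      (Complex.continuous_im.comp hY.continuous).continuousOn hc
  have h4 : (fun x => inner ℝ (g x) (Y x)) =
      fun x => (g x).re * (Y x).re + (g x).im * (Y x).im := by
    funext x
    simp only [Complex.inner, Complex.mul_re, Complex.conj_re, Complex.conj_im]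
    ring
  have h5 : IntegrableOn (fun x => inner ℝ (g x) (Y x)) (tsupport Y) := by
    rw [h4]
    exact h2.add h3
  rw [integrableOn_iff_integrable_of_support_subset] at h5
  · exact h5
  · intro x hx
    by_contra hx'
    apply hx
    simp [image_eq_zero_of_notMem_tsupport hx']

private lemma pf_sub_eq (a x : ℂ) : x - a = (dist x a : ℝ) * er (x - a).arg := by
  rw [dist_eq_norm, er]
  exact (Complex.norm_mul_exp_arg_mul_I (x - a)).symm

theorem polar_form_theta {Ω : Set ℂ} {u : ℂ → ℝ} {g j : ℂ → ℂ} (h : SBVData Ω u g j) {a : ℂ}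
    {R : ℝ} (hR : ball a R ⊆ Ω) {χ η : ℝ → ℝ} (hχ : ContDiff ℝ ∞ χ) (hχc : HasCompactSupport χ)
    (hχs : tsupport χ ⊆ Ioo 0 R) (hη : ContDiff ℝ ∞ η)
    (hper : ∀ t, η (t + 2 * Real.pi) = η t) :
    ∫ r in Ioo 0 R, χ r * ∫ θ in Ioo (-Real.pi) Real.pi,
        (u (pc a r θ) * deriv η θ + Gq g a r θ * η θ) =
      - ∫ x in ball a R, χ (dist x a) * η (x - a).arg * inner ℝ (j x) (et (x - a).arg)
        ∂(μH[1] : Measure ℂ) := by
  set Z : ℂ → ℂ := pfZ χ η Complex.I with hZ
  set Y : ℂ → ℂ := fun y => Z (y - a) with hYdef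
  have hZc : ContDiff ℝ ∞ Z := pf_contDiff hχ hχs hη hper _
  have hY : ContDiff ℝ ∞ Y := hZc.comp (contDiff_id.sub contDiff_const)
  have hts : tsupport Y ⊆ {x | dist x a ∈ Ioo 0 R} := pf_Y_zero hχs
  have hsΩ : tsupport Y ⊆ Ω := fun x hx => hR (hts hx).2
  have hc : HasCompactSupport Y := pf_Y_compact hχs
  have hf := vf_form h hY hc hsΩ
  have i1 := pf_int_u h hY hc hsΩ
  have i2 := pf_int_g h hY hc hsΩ
  have e1 : ∫ x in Ω, (u x * dv Y x + inner ℝ (g x) (Y x)) =
      - ∫ x in Ω, inner ℝ (j x) (Y x) ∂(μH[1] : Measure ℂ) := by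
    rw [integral_add i1.integrableOn i2.integrableOn, hf]
    ring
  have e0 := pf_polar (f := fun x => u x * dv Y x + inner ℝ (g x) (Y x)) h.isOpen hR
    (i1.add i2) (by
    intro x hx
    have hx' : x ∉ tsupport Y := fun h' => hx (hts h')
    simp [pf_dv_zero hx', image_eq_zero_of_notMem_tsupport hx'])
  rw [e0] at e1
  have e2 : ∫ x in Ω, inner ℝ (j x) (Y x) ∂(μH[1] : Measure ℂ) =
      ∫ x in ball a R, χ (dist x a) * η (x - a).arg * inner ℝ (j x) (et (x - a).arg)
        ∂(μH[1] : Measure ℂ) := by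
    rw [setIntegral_eq_of_subset_of_forall_sdiff_eq_zero h.isOpen.measurableSet hR]
    · refine setIntegral_congr_fun measurableSet_ball fun x _ => ?_
      have e3 : Y x = (χ (dist x a) * η (x - a).arg : ℝ) • et (x - a).arg := by
        have e4 : et (x - a).arg = Complex.I * er (x - a).arg := rfl
        by_cases hx : x = a
        · subst hx
          have h0 : χ 0 = 0 := pf_zero hχs (fun h' => lt_irrefl _ h'.1)
          simp [hYdef, hZ, pfZ, h0]
        · have h0 : dist x a ≠ 0 := dist_ne_zero.2 hx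
          have h0' : ((dist x a : ℝ) : ℂ) ≠ 0 := by exact_mod_cast h0
          rw [hYdef, hZ]
          simp only [pfZ]
          rw [← dist_eq_norm, e4]
          conv_lhs => rw [show Complex.I * (x - a) =
            Complex.I * ((dist x a : ℝ) * er (x - a).arg) from by rw [← pf_sub_eq]]
          simp only [Complex.real_smul]
          push_cast
          field_simp
      rw [e3, inner_smul_right]
    · intro x hx
      have hx' : x ∉ tsupport Y := fun h' => hx.2 (hts h').2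
      simp [image_eq_zero_of_notMem_tsupport hx']
  rw [← e2, ← e1]
  refine setIntegral_congr_fun measurableSet_Ioo fun r hr => ?_
  rw [← integral_const_mul]
  refine setIntegral_congr_fun measurableSet_Ioo fun θ hθ => ?_
  have e5 : pc a r θ - a = (r : ℂ) * er θ := by
    unfold pc
    ring
  have e6 : dv Y (pc a r θ) = χ r / r * deriv η θ := by
    rw [hYdef, pf_dv_sub, e5]
    exact pf_div_theta (hZc.differentiable (by simp)) (hχ.differentiable (by simp))
      (hη.differentiable (by simp)) hr.1 hθ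
  have e7 : Y (pc a r θ) = (χ r * η θ : ℝ) • et θ := by
    simp only [hYdef]
    rw [e5]
    exact pf_pcval hr.1 hθ
  simp only [e6, e7, inner_smul_right, Gq]
  have hr0 := hr.1.ne'
  field_simp

private lemma pf_quot_contDiff {χ : ℝ → ℝ} {R : ℝ} (hχ : ContDiff ℝ ∞ χ)
    (hχs : tsupport χ ⊆ Ioo 0 R) : ContDiff ℝ ∞ (fun r => χ r / r) := by
  rw [contDiff_iff_contDiffAt]
  intro r
  by_cases hr : r = 0
  · subst hr
    refine (contDiffAt_const (c := (0 : ℝ))).congr_of_eventuallyEq ?_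
    filter_upwards [pf_near hχs] with t ht
    rw [ht, zero_div]
  · exact hχ.contDiffAt.div contDiffAt_id hr

private lemma pf_quot_tsupport {χ : ℝ → ℝ} {R : ℝ} (hχs : tsupport χ ⊆ Ioo 0 R) :
    tsupport (fun r => χ r / r) ⊆ Ioo 0 R := by
  refine (closure_mono ?_).trans hχs
  intro r hr h
  apply hr
  simp [h]

theorem polar_form_r {Ω : Set ℂ} {u : ℂ → ℝ} {g j : ℂ → ℂ} (h : SBVData Ω u g j) {a : ℂ}
    {R : ℝ} (hR : ball a R ⊆ Ω) {χ η : ℝ → ℝ} (hχ : ContDiff ℝ ∞ χ) (hχc : HasCompactSupport χ)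
    (hχs : tsupport χ ⊆ Ioo 0 R) (hη : ContDiff ℝ ∞ η)
    (hper : ∀ t, η (t + 2 * Real.pi) = η t) :
    ∫ r in Ioo 0 R, deriv χ r * ∫ θ in Ioo (-Real.pi) Real.pi, u (pc a r θ) * η θ =
      - (∫ r in Ioo 0 R, χ r * ∫ θ in Ioo (-Real.pi) Real.pi,
          inner ℝ (g (pc a r θ)) (er θ) * η θ)
      - ∫ x in ball a R, χ (dist x a) / dist x a * η (x - a).arg *
          inner ℝ (j x) (er (x - a).arg) ∂(μH[1] : Measure ℂ) := by
  set γ : ℝ → ℝ := fun r => χ r / r with hγdef
  have hγ : ContDiff ℝ ∞ γ := pf_quot_contDiff hχ hχs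
  have hγs : tsupport γ ⊆ Ioo 0 R := pf_quot_tsupport hχs
  set Z : ℂ → ℂ := pfZ γ η 1 with hZ
  set Y : ℂ → ℂ := fun y => Z (y - a) with hYdef
  have hZc : ContDiff ℝ ∞ Z := pf_contDiff hγ hγs hη hper _
  have hY : ContDiff ℝ ∞ Y := hZc.comp (contDiff_id.sub contDiff_const)
  have hts : tsupport Y ⊆ {x | dist x a ∈ Ioo 0 R} := pf_Y_zero hγs
  have hsΩ : tsupport Y ⊆ Ω := fun x hx => hR (hts hx).2
  have hc : HasCompactSupport Y := pf_Y_compact hγs
  have hf := vf_form h hY hc hsΩ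
  have i1 := pf_int_u h hY hc hsΩ
  have i2 := pf_int_g h hY hc hsΩ
  have e1 := pf_polar (f := fun x => u x * dv Y x) h.isOpen hR i1 (by
    intro x hx
    have hx' : x ∉ tsupport Y := fun h' => hx (hts h')
    simp [pf_dv_zero hx'])
  have e1' := pf_polar (f := fun x => inner ℝ (g x) (Y x)) h.isOpen hR i2 (by
    intro x hx
    have hx' : x ∉ tsupport Y := fun h' => hx (hts h')
    simp [image_eq_zero_of_notMem_tsupport hx'])
  have e2 : ∫ x in Ω, inner ℝ (j x) (Y x) ∂(μH[1] : Measure ℂ) =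
      ∫ x in ball a R, χ (dist x a) / dist x a * η (x - a).arg * inner ℝ (j x) (er (x - a).arg)
        ∂(μH[1] : Measure ℂ) := by
    rw [setIntegral_eq_of_subset_of_forall_sdiff_eq_zero h.isOpen.measurableSet hR]
    · refine setIntegral_congr_fun measurableSet_ball fun x _ => ?_
      have e3 : Y x = (χ (dist x a) / dist x a * η (x - a).arg : ℝ) • er (x - a).arg := by
        by_cases hx : x = a
        · subst hx
          simp [hYdef, hZ, pfZ]
        · have h0 : dist x a ≠ 0 := dist_ne_zero.2 hx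
          have h0' : ((dist x a : ℝ) : ℂ) ≠ 0 := by exact_mod_cast h0
          rw [hYdef, hZ]
          simp only [pfZ]
          rw [← dist_eq_norm]
          conv_lhs => rw [show (1 : ℂ) * (x - a) =
            (dist x a : ℝ) * er (x - a).arg from by rw [← pf_sub_eq, one_mul]]
          simp only [Complex.real_smul, hγdef]
          push_cast
          field_simp
      rw [e3, inner_smul_right]
    · intro x hx
      have hx' : x ∉ tsupport Y := fun h' => hx.2 (hts h').2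
      simp [image_eq_zero_of_notMem_tsupport hx']
  have e5 : ∀ r θ : ℝ, pc a r θ - a = (r : ℂ) * er θ := fun r θ => by
    unfold pc
    ring
  have e6 : ∫ r in Ioo 0 R, deriv χ r * ∫ θ in Ioo (-Real.pi) Real.pi, u (pc a r θ) * η θ =
      ∫ x in Ω, u x * dv Y x := by
    rw [e1]
    refine setIntegral_congr_fun measurableSet_Ioo fun r hr => ?_
    rw [← integral_const_mul]
    refine setIntegral_congr_fun measurableSet_Ioo fun θ hθ => ?_
    have e7 : dv Y (pc a r θ) = (deriv γ r + γ r / r) * η θ := by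
      rw [hYdef, pf_dv_sub, e5]
      exact pf_div_r (hZc.differentiable (by simp)) (hγ.differentiable (by simp))
        (hη.differentiable (by simp)) hr.1 hθ
    have hr0 := hr.1.ne'
    have e8 : deriv γ r = (deriv χ r * r - χ r) / r ^ 2 := by
      have h1 := ((hχ.differentiable (by simp)) r).hasDerivAt.div (hasDerivAt_id r) hr0
      have h2 := h1.deriv
      simp only [id, mul_one] at h2
      exact h2
    have e9 : deriv γ r + γ r / r = deriv χ r / r := by
      rw [e8, show γ r = χ r / r from rfl]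
      field_simp
      ring
    simp only [e7, e9]
    field_simp
  have e6' : ∫ r in Ioo 0 R, χ r * ∫ θ in Ioo (-Real.pi) Real.pi,
        inner ℝ (g (pc a r θ)) (er θ) * η θ = ∫ x in Ω, inner ℝ (g x) (Y x) := by
    rw [e1']
    refine setIntegral_congr_fun measurableSet_Ioo fun r hr => ?_
    rw [← integral_const_mul]
    refine setIntegral_congr_fun measurableSet_Ioo fun θ hθ => ?_
    have e7 : Y (pc a r θ) = (γ r * η θ : ℝ) • er θ := by
      simp only [hYdef]
      rw [e5, hZ, pf_pcval hr.1 hθ, one_mul]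
    have hr0 := hr.1.ne'
    simp only [e7, inner_smul_right, hγdef]
    field_simp
  rw [e6, e6', ← e2, hf]

end Pool.Agent.MP099f24
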