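import Pool.Agent.Lib.MP_099f24_an.SD.Defs
import Pool.Agent.Lib.MP_099f24_an.SD.Meas
import Pool.Agent.Lib.MP_099f24_an.SD.Polar
import Pool.Agent.Lib.MP_099f24_an.SD.JRep
import Pool.Agent.Lib.MP_099f24_an.SD.Pf

/-!
# MP_099f24_an SD, module SLICE: slices on circles are absolutely continuous off the jump set
-/

namespace Pool.Agent.MP099f24

open MeasureTheory Filter Topology Set Metric
open scoped ENNReal ContDiff


/-! ### One dimensional lemmas -/

theorem slice_glue_const {F : ℝ → ℝ} {p q : ℝ} (hpq : p < q)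
    (h : ∀ x ∈ Ioo p q, ∃ α β c : ℝ, x ∈ Ioo α β ∧ ∀ᵐ θ ∂(volume.restrict (Ioo α β)), F θ = c) :
    ∃ c : ℝ, ∀ᵐ θ ∂(volume.restrict (Ioo p q)), F θ = c := by
  classical
  choose! α β c hx hc using h
  obtain ⟨x₀, hx₀⟩ : (Ioo p q).Nonempty := nonempty_Ioo.2 hpq
  have key : ∀ x ∈ Ioo p q, c x₀ = c x := by
    intro x hxm
    refine isPreconnected_Ioo.induction₂ (fun x y => c x = c y) ?_ ?_ ?_ hx₀ hxm
    · intro x hx'
      have hopen : Ioo (α x) (β x) ∈ 𝓝[Ioo p q] x :=
        mem_nhdsWithin_of_mem_nhds (Ioo_mem_nhds (hx x hx').1 (hx x hx').2)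
      filter_upwards [hopen, self_mem_nhdsWithin] with y hy hy'
      by_contra hne
      -- both constants hold a.e. on the nonempty open intersection
      set U := Ioo (α x) (β x) ∩ Ioo (α y) (β y) with hU
      have hUo : IsOpen U := isOpen_Ioo.inter isOpen_Ioo
      have hUn : U.Nonempty := ⟨y, hy, hx y hy'⟩
      have h1 : ∀ᵐ θ ∂(volume.restrict U), F θ = c x := ae_restrict_of_ae_restrict_of_subset
        inter_subset_left (hc x hx')
      have h2 : ∀ᵐ θ ∂(volume.restrict U), F θ = c y := ae_restrict_of_ae_restrict_of_subset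
        inter_subset_right (hc y hy')
      have h3 : ∀ᵐ θ ∂(volume.restrict U), False := by
        filter_upwards [h1, h2] with θ e1 e2
        exact hne (e1.symm.trans e2)
      have h4 : volume.restrict U = 0 := by
        rw [← ae_eq_bot]
        exact eventually_false_iff_eq_bot.1 h3
      rw [Measure.restrict_eq_zero] at h4
      exact (hUo.measure_pos volume hUn).ne' h4
    · intro x y z _ _ _ h1 h2
      exact h1.trans h2
    · intro x y _ _ h1
      exact h1.symm
  refine ⟨c x₀, ?_⟩
  rw [ae_restrict_iff' measurableSet_Ioo, ae_iff]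
  refine measure_null_of_locally_null _ fun x hx' => ?_
  have hxm : x ∈ Ioo p q := by
    simp only [mem_ofPred_eq, Classical.not_imp] at hx'
    exact hx'.1
  refine ⟨_, inter_mem_nhdsWithin _ (Ioo_mem_nhds (hx x hxm).1 (hx x hxm).2), ?_⟩
  have h1 := hc x hxm
  rw [ae_restrict_iff' measurableSet_Ioo, ae_iff] at h1
  refine measure_mono_null ?_ h1
  rintro θ ⟨h2, h3⟩
  simp only [mem_ofPred_eq, Classical.not_imp] at h2 ⊢
  exact ⟨h3, by rw [← key x hxm]; exact h2.2⟩

/-- du Bois-Reymond lemma -/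
theorem slice_dbr0 {F : ℝ → ℝ} {α β : ℝ} (hab : α < β) (hF : IntegrableOn F (Ioo α β))
    (h : ∀ η : ℝ → ℝ, ContDiff ℝ ∞ η → HasCompactSupport η → tsupport η ⊆ Ioo α β →
      ∫ θ in Ioo α β, F θ * deriv η θ = 0) :
    ∃ c : ℝ, ∀ᵐ θ ∂(volume.restrict (Ioo α β)), F θ = c := by
  -- a bump function with integral one
  obtain ⟨x₀, hx₀⟩ : (Ioo α β).Nonempty := nonempty_Ioo.2 hab
  obtain ⟨ε, hε, hball⟩ := Metric.isOpen_iff.1 (isOpen_Ioo (a := α) (b := β)) x₀ hx₀
  let b : ContDiffBump x₀ := ⟨ε / 4, ε / 2, by positivity, by linarith⟩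
  set ψ : ℝ → ℝ := b.normed volume with hψ
  have hψ1 : ContDiff ℝ ∞ ψ := b.contDiff_normed
  have hψc : HasCompactSupport ψ := b.hasCompactSupport_normed
  have hψs : tsupport ψ ⊆ Ioo α β := by
    rw [hψ, b.tsupport_normed_eq]
    refine Subset.trans ?_ hball
    exact closedBall_subset_ball (by show ε / 2 < ε; linarith)
  have hψi : ∫ x, ψ x = 1 := b.integral_normed
  set c : ℝ := ∫ θ in Ioo α β, F θ * ψ θ with hc
  refine ⟨c, ?_⟩
  have hmain : ∀ φ : ℝ → ℝ, ContDiff ℝ ∞ φ → HasCompactSupport φ → tsupport φ ⊆ Ioo α β →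
      ∫ θ in Ioo α β, F θ * φ θ = c * ∫ θ, φ θ := by
    intro φ hφ hφc hφs
    set I := ∫ θ, φ θ with hI
    set κ : ℝ → ℝ := fun θ => φ θ - I * ψ θ with hκ
    have hκd : ContDiff ℝ ∞ κ := hφ.sub (contDiff_const.mul hψ1)
    have hκs' : tsupport κ ⊆ tsupport φ ∪ tsupport ψ := by
      refine closure_minimal ?_ ((isClosed_tsupport _).union (isClosed_tsupport _))
      intro θ hθ
      by_contra hcon
      rw [mem_union, not_or] at hcon
      have e1 := image_eq_zero_of_notMem_tsupport hcon.1
      have e2 := image_eq_zero_of_notMem_tsupport hcon.2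
      exact hθ (by simp [hκ, e1, e2])
    have hcomp : IsCompact (tsupport φ ∪ tsupport ψ) := hφc.union hψc
    have hsub : tsupport φ ∪ tsupport ψ ⊆ Ioo α β := union_subset hφs hψs
    -- a compact interval containing the supports
    obtain ⟨α', β', hα', hβ', hαβ', hsub'⟩ : ∃ α' β', α < α' ∧ β' < β ∧ α' ≤ β' ∧
        tsupport φ ∪ tsupport ψ ⊆ Icc α' β' := by
      rcases (tsupport φ ∪ tsupport ψ).eq_empty_or_nonempty with he | hne
      · exact ⟨(α + β) / 2, (α + β) / 2, by linarith, by linarith, le_rfl,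
          by rw [he]; exact empty_subset _⟩
      · obtain ⟨m, hm, hm'⟩ := hcomp.exists_isMinOn hne continuousOn_id
        obtain ⟨M, hM, hM'⟩ := hcomp.exists_isMaxOn hne continuousOn_id
        exact ⟨m, M, (hsub hm).1, (hsub hM).2, hm' hM, fun x hx => ⟨hm' hx, hM' hx⟩⟩
    have hκ0 : ∀ θ, θ ∉ Icc α' β' → κ θ = 0 := fun θ hθ =>
      image_eq_zero_of_notMem_tsupport fun h' => hθ (hsub' (hκs' h'))
    have hκint : Integrable κ := hκd.continuous.integrable_of_hasCompactSupport
      (HasCompactSupport.of_support_subset_isCompact hcomp ((subset_tsupport κ).trans hκs'))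
    have hφint : Integrable φ := hφ.continuous.integrable_of_hasCompactSupport hφc
    have hψint : Integrable ψ := hψ1.continuous.integrable_of_hasCompactSupport hψc
    have hκI : ∫ θ, κ θ = 0 := by
      rw [hκ, integral_sub hφint (hψint.const_mul I), integral_const_mul, hψi]
      simp [hI]
    set η : ℝ → ℝ := fun θ => ∫ t in α..θ, κ t with hη
    have hηd : ∀ θ, HasDerivAt η (κ θ) θ := fun θ =>
      intervalIntegral.integral_hasDerivAt_right (hκd.continuous.intervalIntegrable _ _)
        (hκd.continuous.stronglyMeasurableAtFilter _ _) hκd.continuous.continuousAt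
    have hηderiv : deriv η = κ := funext fun θ => (hηd θ).deriv
    have hηC : ContDiff ℝ ∞ η := by
      rw [contDiff_infty_iff_deriv]
      refine ⟨fun θ => (hηd θ).differentiableAt, ?_⟩
      rw [hηderiv]
      exact hκd
    have hη0 : ∀ θ, θ ∉ Icc α' β' → η θ = 0 := by
      intro θ hθ
      rw [mem_Icc, not_and_or, not_le, not_le] at hθ
      rcases hθ with hθ | hθ
      · rw [hη]
        simp only
        have : ∫ t in α..θ, κ t = ∫ t in α..θ, (0 : ℝ) := by
          apply intervalIntegral.integral_congr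
          intro t ht
          apply hκ0
          intro h'
          have h1 : t ≤ max α θ := ht.2
          rcases le_max_iff.1 h1 with h2 | h2
          · linarith [h'.1]
          · linarith [h'.1]
        rw [this]; simp
      · have h1 : ∫ t in α..θ, κ t = ∫ t, κ t := by
          rw [intervalIntegral.integral_of_le (by linarith)]
          apply setIntegral_eq_integral_of_forall_compl_eq_zero
          intro t ht
          apply hκ0
          intro h'
          exact ht ⟨by linarith [h'.1], by linarith [h'.2]⟩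
        rw [hη]
        simp only
        rw [h1, hκI]
    have hηs : tsupport η ⊆ Icc α' β' := closure_minimal
      (fun θ hθ => by by_contra hcon; exact hθ (hη0 θ hcon)) isClosed_Icc
    have hηcs : HasCompactSupport η := HasCompactSupport.of_support_subset_isCompact isCompact_Icc
      ((subset_tsupport η).trans hηs)
    have h2 := h η hηC hηcs (hηs.trans fun x hx => ⟨by linarith [hx.1], by linarith [hx.2]⟩)
    rw [hηderiv] at h2
    obtain ⟨B, hB⟩ := hφ.continuous.bounded_above_of_compact_support hφc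
    obtain ⟨B', hB'⟩ := hψ1.continuous.bounded_above_of_compact_support hψc
    have i1 : IntegrableOn (fun θ => F θ * φ θ) (Ioo α β) :=
      hF.mul_bdd (c := B) hφ.continuous.aestronglyMeasurable (Eventually.of_forall hB)
    have i2 : IntegrableOn (fun θ => F θ * ψ θ) (Ioo α β) :=
      hF.mul_bdd (c := B') hψ1.continuous.aestronglyMeasurable (Eventually.of_forall hB')
    have h3 : ∫ θ in Ioo α β, F θ * κ θ =
        (∫ θ in Ioo α β, F θ * φ θ) - I * ∫ θ in Ioo α β, F θ * ψ θ := by
      rw [← integral_const_mul, ← integral_sub i1 (i2.const_mul I)]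
      apply integral_congr_ae
      refine Eventually.of_forall fun θ => ?_
      simp only [hκ]
      ring
    rw [h3] at h2
    rw [hc]
    linarith
  have hloc : LocallyIntegrableOn (fun θ => F θ - c) (Ioo α β) := by
    refine IntegrableOn.locallyIntegrableOn ?_
    exact hF.sub (integrableOn_const (by simp) (by simp))
  have := isOpen_Ioo.ae_eq_zero_of_integral_contDiff_smul_eq_zero hloc (fun φ hφ hφc hφs => by
    have h1 := hmain φ hφ hφc hφs
    have h2 : ∫ x, φ x • (F x - c) = ∫ x in Ioo α β, φ x • (F x - c) := by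
      symm
      apply setIntegral_eq_integral_of_forall_compl_eq_zero
      intro x hx
      rw [image_eq_zero_of_notMem_tsupport fun h' => hx (hφs h'), zero_smul]
    rw [h2]
    obtain ⟨B, hB⟩ := hφ.continuous.bounded_above_of_compact_support hφc
    have i1 : IntegrableOn (fun θ => F θ * φ θ) (Ioo α β) :=
      hF.mul_bdd (c := B) hφ.continuous.aestronglyMeasurable (Eventually.of_forall hB)
    have i2 : IntegrableOn (fun θ => c * φ θ) (Ioo α β) :=
      ((hφ.continuous.integrable_of_hasCompactSupport hφc).const_mul c).integrableOn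
    have h3 : ∫ x in Ioo α β, φ x • (F x - c) =
        (∫ x in Ioo α β, F x * φ x) - ∫ x in Ioo α β, c * φ x := by
      rw [← integral_sub i1 i2]
      apply integral_congr_ae
      refine Eventually.of_forall fun θ => ?_
      simp only [smul_eq_mul]
      ring
    rw [h3, h1, integral_const_mul]
    have h4 : ∫ x in Ioo α β, φ x = ∫ x, φ x := by
      apply setIntegral_eq_integral_of_forall_compl_eq_zero
      intro x hx
      exact image_eq_zero_of_notMem_tsupport fun h' => hx (hφs h')
    rw [h4]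
    ring)
  rw [ae_restrict_iff' measurableSet_Ioo]
  filter_upwards [this] with x hx hx'
  have := hx hx'
  linarith




theorem slice_bdd {η : ℝ → ℝ} (hη : ContDiff ℝ ∞ η) (hc : HasCompactSupport η) :
    (∃ B, ∀ x, ‖η x‖ ≤ B) ∧ ∃ B, ∀ x, ‖deriv η x‖ ≤ B := by
  refine ⟨hη.continuous.bounded_above_of_compact_support hc, ?_⟩
  have h1 : Continuous (deriv η) := hη.continuous_deriv (by simp)
  exact h1.bounded_above_of_compact_support hc.deriv

theorem slice_dbr {f G : ℝ → ℝ} {α β : ℝ} (hab : α < β) (hf : IntegrableOn f (Ioo α β))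
    (hG : IntegrableOn G (Ioo α β))
    (h : ∀ η : ℝ → ℝ, ContDiff ℝ ∞ η → HasCompactSupport η → tsupport η ⊆ Ioo α β →
      ∫ θ in Ioo α β, (f θ * deriv η θ + G θ * η θ) = 0) :
    ∃ c : ℝ, ∀ᵐ θ ∂(volume.restrict (Ioo α β)), f θ = c + ∫ t in α..θ, G t := by
  have hGi : IntervalIntegrable G volume α β := by
    rw [intervalIntegrable_iff_integrableOn_Ioo_of_le hab.le]
    exact hG
  set P : ℝ → ℝ := fun θ => ∫ t in α..θ, G t with hP
  have hPac : AbsolutelyContinuousOnInterval P α β :=
    hGi.absolutelyContinuousOnInterval_intervalIntegral left_mem_uIcc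
  have hPc : ContinuousOn P (Icc α β) := by
    have := hPac.continuousOn
    rwa [uIcc_of_le hab.le] at this
  have hPi : IntegrableOn P (Ioo α β) :=
    (hPc.integrableOn_compact isCompact_Icc).mono_set Ioo_subset_Icc_self
  have hF : IntegrableOn (fun θ => f θ - P θ) (Ioo α β) := hf.sub hPi
  obtain ⟨c, hc⟩ := slice_dbr0 hab hF (fun η hη hηc hηs => by
    have h1 := h η hη hηc hηs
    obtain ⟨⟨B, hB⟩, ⟨B', hB'⟩⟩ := slice_bdd hη hηc
    have hηc1 : Continuous (deriv η) := hη.continuous_deriv (by simp)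
    have i1 : IntegrableOn (fun θ => f θ * deriv η θ) (Ioo α β) :=
      hf.mul_bdd (c := B') hηc1.aestronglyMeasurable (Eventually.of_forall hB')
    have i2 : IntegrableOn (fun θ => G θ * η θ) (Ioo α β) :=
      hG.mul_bdd (c := B) hη.continuous.aestronglyMeasurable (Eventually.of_forall hB)
    have i3 : IntegrableOn (fun θ => P θ * deriv η θ) (Ioo α β) :=
      hPi.mul_bdd (c := B') hηc1.aestronglyMeasurable (Eventually.of_forall hB')
    rw [integral_add i1 i2] at h1
    have h2 : ∫ θ in Ioo α β, P θ * deriv η θ = - ∫ θ in Ioo α β, G θ * η θ := by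
      have hηac : AbsolutelyContinuousOnInterval η α β :=
        (hη.of_le (by simp)).contDiffOn.absolutelyContinuousOnInterval
      have h3 := hPac.integral_mul_deriv_eq_deriv_mul hηac
      have ha : η α = 0 := image_eq_zero_of_notMem_tsupport fun h' => (hηs h').1.false
      have hb : η β = 0 := image_eq_zero_of_notMem_tsupport fun h' => (hηs h').2.false
      rw [ha, hb, mul_zero, mul_zero, sub_zero, zero_sub] at h3
      have h4 : ∫ x in α..β, deriv P x * η x = ∫ x in α..β, G x * η x := by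
        apply intervalIntegral.integral_congr_ae
        filter_upwards [hGi.ae_hasDerivAt_integral] with x hx hx'
        rw [(hx (uIoc_subset_uIcc hx') α left_mem_uIcc).deriv]
      rw [h4] at h3
      rw [intervalIntegral.integral_of_le hab.le, intervalIntegral.integral_of_le hab.le,
        integral_Ioc_eq_integral_Ioo, integral_Ioc_eq_integral_Ioo] at h3
      exact h3
    have h5 : ∫ θ in Ioo α β, (f θ - P θ) * deriv η θ =
        (∫ θ in Ioo α β, f θ * deriv η θ) - ∫ θ in Ioo α β, P θ * deriv η θ := by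
      rw [← integral_sub i1 i3]
      apply integral_congr_ae
      refine Eventually.of_forall fun θ => ?_
      simp only
      ring
    rw [h5, h2]
    linarith)
  refine ⟨c, ?_⟩
  filter_upwards [hc] with θ hθ
  linarith

/-- a countable family of test functions that is enough -/
theorem slice_countable (α β : ℝ) :
    ∃ T : Set (ℝ → ℝ), T.Countable ∧
      (∀ η ∈ T, ContDiff ℝ ∞ η ∧ HasCompactSupport η ∧ tsupport η ⊆ Ioo α β) ∧
      ∀ f G : ℝ → ℝ, IntegrableOn f (Ioo α β) → IntegrableOn G (Ioo α β) →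
        (∀ η ∈ T, ∫ θ in Ioo α β, (f θ * deriv η θ + G θ * η θ) = 0) →
        ∀ η : ℝ → ℝ, ContDiff ℝ ∞ η → HasCompactSupport η → tsupport η ⊆ Ioo α β →
          ∫ θ in Ioo α β, (f θ * deriv η θ + G θ * η θ) = 0 := by
  classical
  let E : Set (C(ℝ, ℝ) × C(ℝ, ℝ)) := {e | (ContDiff ℝ ∞ (e.1 : ℝ → ℝ) ∧
    HasCompactSupport (e.1 : ℝ → ℝ) ∧ tsupport (e.1 : ℝ → ℝ) ⊆ Ioo α β) ∧
    (e.2 : ℝ → ℝ) = deriv (e.1 : ℝ → ℝ)}
  obtain ⟨D, hDc, hDd⟩ := TopologicalSpace.exists_countable_dense E
  refine ⟨(fun e : E => (e.1.1 : ℝ → ℝ)) '' D, hDc.image _, ?_, ?_⟩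
  · rintro _ ⟨e, -, rfl⟩
    exact e.2.1
  · intro f G hf hG h0 η hη hηc hηs
    let L : C(ℝ, ℝ) × C(ℝ, ℝ) → ℝ := fun e => ∫ θ in Ioo α β, (f θ * e.2 θ + G θ * e.1 θ)
    have hL : Continuous L := by
      rw [continuous_iff_continuousAt]
      intro e₀
      obtain ⟨M₁, hM₁⟩ := isCompact_Icc.exists_bound_of_continuousOn
        (s := Icc α β) (f := fun x => e₀.1 x) e₀.1.continuous.continuousOn
      obtain ⟨M₂, hM₂⟩ := isCompact_Icc.exists_bound_of_continuousOn
        (s := Icc α β) (f := fun x => e₀.2 x) e₀.2.continuous.continuousOn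
      have hu : ∀ e : C(ℝ, ℝ), ∀ᶠ e' in 𝓝 e, ∀ x ∈ Icc α β, dist (e x) (e' x) < 1 := by
        intro e
        have h1 := (ContinuousMap.tendsto_iff_forall_isCompact_tendstoUniformlyOn.1
          (tendsto_id (x := 𝓝 e))) (Icc α β) isCompact_Icc
        exact Metric.tendstoUniformlyOn_iff.1 h1 1 one_pos
      refine continuousAt_of_dominated (bound := fun θ => |f θ| * (M₂ + 1) + |G θ| * (M₁ + 1))
        ?_ ?_ ?_ ?_
      · refine Eventually.of_forall fun e => ?_
        exact (hf.aestronglyMeasurable.mul e.2.continuous.aestronglyMeasurable).add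
          (hG.aestronglyMeasurable.mul e.1.continuous.aestronglyMeasurable)
      · have h1 : ∀ᶠ e : C(ℝ, ℝ) × C(ℝ, ℝ) in 𝓝 e₀, ∀ x ∈ Icc α β, dist (e₀.1 x) (e.1 x) < 1 :=
          (continuous_fst.tendsto e₀).eventually (hu e₀.1)
        have h2 : ∀ᶠ e : C(ℝ, ℝ) × C(ℝ, ℝ) in 𝓝 e₀, ∀ x ∈ Icc α β, dist (e₀.2 x) (e.2 x) < 1 :=
          (continuous_snd.tendsto e₀).eventually (hu e₀.2)
        filter_upwards [h1, h2] with e h1 h2
        rw [ae_restrict_iff' measurableSet_Ioo]
        refine Eventually.of_forall fun θ hθ => ?_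
        have hθ' := Ioo_subset_Icc_self hθ
        have k1 : |e.1 θ| ≤ M₁ + 1 := by
          have := h1 θ hθ'
          have h3 := hM₁ θ hθ'
          rw [Real.dist_eq] at this
          rw [Real.norm_eq_abs] at h3
          have h4 := abs_sub_abs_le_abs_sub (e.1 θ) (e₀.1 θ)
          rw [abs_sub_comm] at h4
          linarith
        have k2 : |e.2 θ| ≤ M₂ + 1 := by
          have := h2 θ hθ'
          have h3 := hM₂ θ hθ'
          rw [Real.dist_eq] at this
          rw [Real.norm_eq_abs] at h3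
          have h4 := abs_sub_abs_le_abs_sub (e.2 θ) (e₀.2 θ)
          rw [abs_sub_comm] at h4
          linarith
        calc ‖f θ * e.2 θ + G θ * e.1 θ‖ ≤ ‖f θ * e.2 θ‖ + ‖G θ * e.1 θ‖ := norm_add_le _ _
          _ = |f θ| * |e.2 θ| + |G θ| * |e.1 θ| := by
              simp only [Real.norm_eq_abs, abs_mul]
          _ ≤ |f θ| * (M₂ + 1) + |G θ| * (M₁ + 1) := by gcongr
      · exact (hf.abs.mul_const _).add (hG.abs.mul_const _)
      · refine Eventually.of_forall fun θ => Continuous.continuousAt ?_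
        have c1 : Continuous fun e : C(ℝ, ℝ) × C(ℝ, ℝ) => e.2 θ :=
          (continuous_eval_const θ).comp continuous_snd
        have c2 : Continuous fun e : C(ℝ, ℝ) × C(ℝ, ℝ) => e.1 θ :=
          (continuous_eval_const θ).comp continuous_fst
        exact (continuous_const.mul c1).add (continuous_const.mul c2)
    have hLE : (fun e : E => L e.1) = fun _ => 0 := by
      refine Continuous.ext_on hDd (hL.comp continuous_subtype_val) continuous_const ?_
      intro e he
      have := h0 _ ⟨e, he, rfl⟩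
      simp only
      rw [← this]
      simp only [L]
      rw [e.2.2]
    have := congrFun hLE ⟨(⟨η, hη.continuous⟩, ⟨deriv η, hη.continuous_deriv (by simp)⟩),
      ⟨hη, hηc, hηs⟩, rfl⟩
    exact this



/-- periodic extension of a function supported in `(α, β)`, `β ≤ α + 2π` -/
noncomputable def slice_per (α : ℝ) (η : ℝ → ℝ) (θ : ℝ) : ℝ :=
  η (toIocMod Real.two_pi_pos α θ)

theorem slice_per_periodic (α : ℝ) (η : ℝ → ℝ) (t : ℝ) :
    slice_per α η (t + 2 * Real.pi) = slice_per α η t := by
  simp [slice_per]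

theorem slice_per_eq (α : ℝ) (η : ℝ → ℝ) {θ : ℝ} (h : θ ∈ Ioc α (α + 2 * Real.pi)) :
    slice_per α η θ = η θ := by
  rw [slice_per, (toIocMod_eq_self Real.two_pi_pos).2 h]

theorem slice_per_sub (α : ℝ) (η : ℝ → ℝ) (θ : ℝ) (k : ℤ) :
    slice_per α η (θ - k • (2 * Real.pi)) = slice_per α η θ := by
  simp only [slice_per, toIocMod_sub_zsmul]

theorem slice_per_ne {α β : ℝ} {η : ℝ → ℝ} (hs : tsupport η ⊆ Ioo α β) {θ : ℝ}
    (h : slice_per α η θ ≠ 0) : ∃ θ' ∈ Ioo α β, ∃ k : ℤ, θ = θ' + k • (2 * Real.pi) := by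
  refine ⟨toIocMod Real.two_pi_pos α θ, hs (subset_tsupport η h), toIocDiv Real.two_pi_pos α θ, ?_⟩
  exact (toIocMod_add_toIocDiv_zsmul Real.two_pi_pos α θ).symm

theorem slice_per_smooth {α β : ℝ} {η : ℝ → ℝ} (hη : ContDiff ℝ ∞ η)
    (hs : tsupport η ⊆ Ioo α β) (hβ : β ≤ α + 2 * Real.pi) : ContDiff ℝ ∞ (slice_per α η) := by
  have hloc : ∀ t ∈ Ioc α (α + 2 * Real.pi), ContDiffAt ℝ ∞ (slice_per α η) t := by
    intro t ht
    rcases ht.2.lt_or_eq with h1 | h1
    · have : slice_per α η =ᶠ[𝓝 t] η := by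
        filter_upwards [Ioo_mem_nhds ht.1 h1] with x hx
        exact slice_per_eq α η ⟨hx.1, hx.2.le⟩
      exact hη.contDiffAt.congr_of_eventuallyEq this
    · -- near the end point the periodic extension vanishes
      have hα : α ∉ tsupport η := fun h' => (hs h').1.false
      have hn : (tsupport η)ᶜ ∈ 𝓝 α := (isClosed_tsupport η).isOpen_compl.mem_nhds hα
      have hn' : ∀ᶠ x in 𝓝 t, x - 2 * Real.pi ∉ tsupport η := by
        have hcont : Tendsto (fun x : ℝ => x - 2 * Real.pi) (𝓝 t) (𝓝 α) := by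
          have : Tendsto (fun x : ℝ => x - 2 * Real.pi) (𝓝 t) (𝓝 (t - 2 * Real.pi)) :=
            (continuous_id.sub continuous_const).tendsto t
          have e : t - 2 * Real.pi = α := by rw [h1]; ring
          rwa [e] at this
        exact hcont hn
      have hβ' : t ∉ tsupport η := fun h' => by
        have := (hs h').2
        linarith
      have hn'' : ∀ᶠ x in 𝓝 t, x ∉ tsupport η :=
        (isClosed_tsupport η).isOpen_compl.mem_nhds hβ'
      have : slice_per α η =ᶠ[𝓝 t] fun _ => 0 := by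
        filter_upwards [hn', hn'', Ioo_mem_nhds ht.1 (show t < t + 2 * Real.pi by
          linarith [Real.two_pi_pos])] with x hx hx' hx''
        rcases le_or_gt x (α + 2 * Real.pi) with h2 | h2
        · rw [slice_per_eq α η ⟨hx''.1, h2⟩]
          exact image_eq_zero_of_notMem_tsupport hx'
        · have h3 : slice_per α η x = slice_per α η (x - 2 * Real.pi) := by
            rw [← slice_per_periodic α η (x - 2 * Real.pi), sub_add_cancel]
          rw [h3, slice_per_eq α η ⟨by linarith, by linarith [hx''.2]⟩]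
          exact image_eq_zero_of_notMem_tsupport hx
      exact contDiffAt_const.congr_of_eventuallyEq this
  rw [contDiff_iff_contDiffAt]
  intro θ
  set k := toIocDiv Real.two_pi_pos α θ with hk
  have hmem := toIocMod_mem_Ioc Real.two_pi_pos α θ
  have h1 : θ - k • (2 * Real.pi) = toIocMod Real.two_pi_pos α θ := rfl
  have h2 := hloc _ hmem
  rw [← h1] at h2
  have h3 : slice_per α η = (slice_per α η) ∘ fun x => x - k • (2 * Real.pi) := by
    funext x
    simp only [Function.comp]
    rw [slice_per_sub]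
  rw [h3]
  exact ContDiffAt.comp θ h2 (contDiffAt_id.sub contDiffAt_const)

/-- the integral over a period -/
theorem slice_per_integral {α β : ℝ} {η f G : ℝ → ℝ} (hs : tsupport η ⊆ Ioo α β)
    (hβ : β ≤ α + 2 * Real.pi) (hf : ∀ t, f (t + 2 * Real.pi) = f t)
    (hG : ∀ t, G (t + 2 * Real.pi) = G t) :
    ∫ θ in Ioo (-Real.pi) Real.pi,
        (f θ * deriv (slice_per α η) θ + G θ * slice_per α η θ) =
      ∫ θ in Ioo α β, (f θ * deriv η θ + G θ * η θ) := by
  set h : ℝ → ℝ := fun θ => f θ * deriv (slice_per α η) θ + G θ * slice_per α η θ with hh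
  have hper : Function.Periodic h (2 * Real.pi) := by
    intro t
    have h1 : deriv (slice_per α η) (t + 2 * Real.pi) = deriv (slice_per α η) t := by
      rw [← deriv_comp_add_const]
      congr 1
      funext x
      exact slice_per_periodic α η x
    simp only [hh, h1, hf t, hG t, slice_per_periodic]
  have e1 := hper.intervalIntegral_add_eq (-Real.pi) α
  rw [show -Real.pi + 2 * Real.pi = Real.pi by ring] at e1
  rw [intervalIntegral.integral_of_le (by linarith [Real.pi_pos]),
    intervalIntegral.integral_of_le (by linarith [Real.two_pi_pos]),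
    integral_Ioc_eq_integral_Ioo, integral_Ioc_eq_integral_Ioo] at e1
  rw [e1]
  have e2 : ∫ θ in Ioo α (α + 2 * Real.pi), h θ =
      ∫ θ in Ioo α (α + 2 * Real.pi), (f θ * deriv η θ + G θ * η θ) := by
    apply setIntegral_congr_fun measurableSet_Ioo
    intro θ hθ
    have h1 : slice_per α η =ᶠ[𝓝 θ] η := by
      filter_upwards [Ioo_mem_nhds hθ.1 hθ.2] with x hx
      exact slice_per_eq α η ⟨hx.1, hx.2.le⟩
    simp only [hh, h1.deriv_eq, h1.eq_of_nhds]
  rw [e2]
  apply setIntegral_eq_of_subset_of_forall_sdiff_eq_zero measurableSet_Ioo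
    (Ioo_subset_Ioo_right hβ)
  intro θ hθ
  have h1 : θ ∉ tsupport η := fun h' => hθ.2 (hs h')
  have h2 : deriv η θ = 0 := image_eq_zero_of_notMem_tsupport
    fun h' => h1 (tsupport_deriv_subset h')
  rw [image_eq_zero_of_notMem_tsupport h1, h2]
  ring




/-- integral of a test function against the sum of the two positive parts -/
theorem slice_int_mu {A : ℝ → ℝ} (hA : Measurable A) {δ R' : ℝ}
    (hAi : IntegrableOn A (Ioo δ R')) {C : Set ℂ} {k : ℂ → ℝ} (hk : Measurable k)
    (hki : IntegrableOn k C (μH[1] : Measure ℂ)) (a : ℂ) {χ : ℝ → ℝ} (hχ : Continuous χ)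
    (hχc : HasCompactSupport χ) :
    ∫ t, χ t ∂((volume.restrict (Ioo δ R')).withDensity (fun r => ENNReal.ofReal (A r)) +
      (((μH[1] : Measure ℂ).restrict C).withDensity (fun x => ENNReal.ofReal (k x))).map
        (fun x => dist x a)) =
      (∫ r in Ioo δ R', χ r * max (A r) 0) +
        ∫ x in C, χ (dist x a) * max (k x) 0 ∂(μH[1] : Measure ℂ) := by
  obtain ⟨B, hB⟩ := hχ.bounded_above_of_compact_support hχc
  have : IsFiniteMeasure ((volume.restrict (Ioo δ R')).withDensity
      (fun r => ENNReal.ofReal (A r))) := isFiniteMeasure_withDensity_ofReal hAi.2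
  have : IsFiniteMeasure ((((μH[1] : Measure ℂ).restrict C)).withDensity
      (fun x => ENNReal.ofReal (k x))) := isFiniteMeasure_withDensity_ofReal hki.2
  have hd : Measurable (fun x : ℂ => dist x a) := measurable_id.dist measurable_const
  have hbi : ∀ ν : Measure ℝ, IsFiniteMeasure ν → Integrable χ ν := fun ν hν =>
    (integrable_const B).mono' hχ.aestronglyMeasurable (Eventually.of_forall hB)
  rw [integral_add_measure (hbi _ inferInstance) (hbi _ (Measure.isFiniteMeasure_map _ _)),
    integral_map hd.aemeasurable hχ.aestronglyMeasurable,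
    integral_withDensity_eq_integral_toReal_smul hA.ennreal_ofReal (by simp),
    integral_withDensity_eq_integral_toReal_smul hk.ennreal_ofReal (by simp)]
  congr 1
  · apply integral_congr_ae
    refine Eventually.of_forall fun r => ?_
    simp only [ENNReal.toReal_ofReal', smul_eq_mul]
    ring
  · apply integral_congr_ae
    refine Eventually.of_forall fun r => ?_
    simp only [ENNReal.toReal_ofReal', smul_eq_mul]
    ring

theorem slice_meas_le {A : ℝ → ℝ} (hA : Measurable A) {δ R' : ℝ}
    (hAi : IntegrableOn A (Ioo δ R')) {C : Set ℂ} {k : ℂ → ℝ} (hk : Measurable k)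
    (hki : IntegrableOn k C (μH[1] : Measure ℂ)) (a : ℂ)
    (hid : ∀ χ : ℝ → ℝ, ContDiff ℝ ∞ χ → HasCompactSupport χ → tsupport χ ⊆ Ioo δ R' →
      ∫ r in Ioo δ R', χ r * A r = - ∫ x in C, χ (dist x a) * k x ∂(μH[1] : Measure ℂ))
    {P : Set ℝ} (hP : MeasurableSet P) (hPs : P ⊆ Ioo δ R')
    (hPk : ∀ x ∈ C, dist x a ∈ P → k x = 0) (hC : MeasurableSet C) :
    ∫⁻ r in P, ENNReal.ofReal (A r) ≤ ∫⁻ r in P, ENNReal.ofReal (-(A r)) := by
  have hd : Measurable (fun x : ℂ => dist x a) := measurable_id.dist measurable_const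
  set μ₁ := (volume.restrict (Ioo δ R')).withDensity (fun r => ENNReal.ofReal (A r)) +
      (((μH[1] : Measure ℂ).restrict C).withDensity (fun x => ENNReal.ofReal (k x))).map
        (fun x => dist x a) with hμ₁
  set μ₂ := (volume.restrict (Ioo δ R')).withDensity (fun r => ENNReal.ofReal (-(A r))) +
      (((μH[1] : Measure ℂ).restrict C).withDensity (fun x => ENNReal.ofReal (-(k x)))).map
        (fun x => dist x a) with hμ₂
  have f1 : IsFiniteMeasure ((volume.restrict (Ioo δ R')).withDensity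
      (fun r => ENNReal.ofReal (A r))) := isFiniteMeasure_withDensity_ofReal hAi.2
  have f2 : IsFiniteMeasure ((((μH[1] : Measure ℂ).restrict C)).withDensity
      (fun x => ENNReal.ofReal (k x))) := isFiniteMeasure_withDensity_ofReal hki.2
  have f3 : IsFiniteMeasure ((volume.restrict (Ioo δ R')).withDensity
      (fun r => ENNReal.ofReal (-(A r)))) := isFiniteMeasure_withDensity_ofReal hAi.neg.2
  have f4 : IsFiniteMeasure ((((μH[1] : Measure ℂ).restrict C)).withDensity
      (fun x => ENNReal.ofReal (-(k x)))) := isFiniteMeasure_withDensity_ofReal hki.neg.2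
  have f5 := Measure.isFiniteMeasure_map (((μH[1] : Measure ℂ).restrict C).withDensity
    (fun x => ENNReal.ofReal (k x))) (fun x => dist x a)
  have f6 := Measure.isFiniteMeasure_map (((μH[1] : Measure ℂ).restrict C).withDensity
    (fun x => ENNReal.ofReal (-(k x)))) (fun x => dist x a)
  have hle : μ₁ P ≤ μ₂ P := by
    refine measure_le_of_smooth (fun χ hχ hχc hχs _ => le_of_eq ?_) hP hPs
    obtain ⟨B, hB⟩ := hχ.continuous.bounded_above_of_compact_support hχc
    rw [hμ₁, hμ₂, slice_int_mu hA hAi hk hki a hχ.continuous hχc,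
      slice_int_mu (A := fun r => -(A r)) hA.neg hAi.neg (k := fun x => -(k x)) hk.neg hki.neg a
        hχ.continuous hχc]
    have h1 := hid χ hχ hχc hχs
    have i1 : IntegrableOn (fun r => χ r * max (A r) 0) (Ioo δ R') :=
      hAi.pos_part.bdd_mul hχ.continuous.aestronglyMeasurable (Eventually.of_forall hB)
    have i2 : IntegrableOn (fun r => χ r * max (-(A r)) 0) (Ioo δ R') :=
      hAi.neg_part.bdd_mul hχ.continuous.aestronglyMeasurable (Eventually.of_forall hB)
    have hχd : AEStronglyMeasurable (fun x : ℂ => χ (dist x a))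
        ((μH[1] : Measure ℂ).restrict C) :=
      (hχ.continuous.comp (continuous_id.dist continuous_const)).aestronglyMeasurable
    have i3 : IntegrableOn (fun x => χ (dist x a) * max (k x) 0) C (μH[1] : Measure ℂ) :=
      hki.pos_part.bdd_mul hχd (Eventually.of_forall fun x => hB _)
    have i4 : IntegrableOn (fun x => χ (dist x a) * max (-(k x)) 0) C (μH[1] : Measure ℂ) :=
      hki.neg_part.bdd_mul hχd (Eventually.of_forall fun x => hB _)
    have e1 : ∫ r in Ioo δ R', χ r * A r = (∫ r in Ioo δ R', χ r * max (A r) 0) -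
        ∫ r in Ioo δ R', χ r * max (-(A r)) 0 := by
      rw [← integral_sub i1 i2]
      apply integral_congr_ae
      refine Eventually.of_forall fun r => ?_
      simp only
      rw [← mul_sub, max_zero_sub_max_neg_zero_eq_self]
    have e2 : ∫ x in C, χ (dist x a) * k x ∂(μH[1] : Measure ℂ) =
        (∫ x in C, χ (dist x a) * max (k x) 0 ∂(μH[1] : Measure ℂ)) -
        ∫ x in C, χ (dist x a) * max (-(k x)) 0 ∂(μH[1] : Measure ℂ) := by
      rw [← integral_sub i3 i4]
      apply integral_congr_ae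
      refine Eventually.of_forall fun r => ?_
      simp only
      rw [← mul_sub, max_zero_sub_max_neg_zero_eq_self]
    rw [e1, e2] at h1
    linarith
  have hval : ∀ (A' : ℝ → ℝ) (k' : ℂ → ℝ), Measurable k' → (∀ x ∈ C, dist x a ∈ P → k' x = 0) →
      ((volume.restrict (Ioo δ R')).withDensity (fun r => ENNReal.ofReal (A' r)) +
      (((μH[1] : Measure ℂ).restrict C).withDensity (fun x => ENNReal.ofReal (k' x))).map
        (fun x => dist x a)) P = ∫⁻ r in P, ENNReal.ofReal (A' r) := by
    intro A' k' hk' hPk'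
    rw [Measure.add_apply, withDensity_apply _ hP, Measure.restrict_restrict hP,
      inter_eq_left.2 hPs, Measure.map_apply hd hP, withDensity_apply _ (hd hP),
      Measure.restrict_restrict (hd hP)]
    have : ∫⁻ x in (fun x => dist x a) ⁻¹' P ∩ C, ENNReal.ofReal (k' x) ∂(μH[1] : Measure ℂ) = 0 := by
      rw [setLIntegral_congr_fun ((hd hP).inter hC) (g := fun _ => 0)
        (fun x hx => by simp [hPk' x hx.2 hx.1])]
      simp
    rw [this, add_zero]
  rw [hμ₁, hμ₂, hval A k hk hPk, hval (fun r => -(A r)) (fun x => -(k x)) hk.neg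
    (fun x hx hx' => by simp [hPk x hx hx'])] at hle
  exact hle

theorem slice_meas {A : ℝ → ℝ} (hA : Measurable A) {δ R' : ℝ}
    (hAi : IntegrableOn A (Ioo δ R')) {C : Set ℂ} {k : ℂ → ℝ} (hk : Measurable k)
    (hki : IntegrableOn k C (μH[1] : Measure ℂ)) (a : ℂ)
    (hid : ∀ χ : ℝ → ℝ, ContDiff ℝ ∞ χ → HasCompactSupport χ → tsupport χ ⊆ Ioo δ R' →
      ∫ r in Ioo δ R', χ r * A r = - ∫ x in C, χ (dist x a) * k x ∂(μH[1] : Measure ℂ))
    {P : Set ℝ} (hP : MeasurableSet P) (hPs : P ⊆ Ioo δ R')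
    (hPk : ∀ x ∈ C, dist x a ∈ P → k x = 0) (hC : MeasurableSet C) :
    ∀ᵐ r ∂(volume.restrict P), A r = 0 := by
  have hpos : ∀ (A' : ℝ → ℝ) (k' : ℂ → ℝ), Measurable A' → IntegrableOn A' (Ioo δ R') →
      Measurable k' → IntegrableOn k' C (μH[1] : Measure ℂ) →
      (∀ χ : ℝ → ℝ, ContDiff ℝ ∞ χ → HasCompactSupport χ → tsupport χ ⊆ Ioo δ R' →
        ∫ r in Ioo δ R', χ r * A' r = - ∫ x in C, χ (dist x a) * k' x ∂(μH[1] : Measure ℂ)) →
      (∀ x ∈ C, dist x a ∈ P → k' x = 0) → volume (P ∩ {r | 0 < A' r}) = 0 := by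
    intro A' k' hA' hAi' hk' hki' hid' hPk'
    have hPm : MeasurableSet (P ∩ {r | 0 < A' r}) :=
      hP.inter (measurableSet_lt measurable_const hA')
    have h1 := slice_meas_le hA' hAi' hk' hki' a hid' hPm (inter_subset_left.trans hPs)
      (fun x hx hx' => hPk' x hx hx'.1) hC
    have h2 : ∫⁻ r in P ∩ {r | 0 < A' r}, ENNReal.ofReal (-(A' r)) = 0 := by
      rw [setLIntegral_congr_fun hPm (g := fun _ => 0) (fun x hx => by
        simp only
        rw [ENNReal.ofReal_eq_zero]
        have : 0 < A' x := hx.2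
        linarith)]
      simp
    rw [h2, nonpos_iff_eq_zero, lintegral_eq_zero_iff hA'.ennreal_ofReal] at h1
    have h3 : ∀ᵐ r ∂(volume.restrict (P ∩ {r | 0 < A' r})), False := by
      filter_upwards [h1, ae_restrict_mem hPm] with r hr hr'
      have h4 : 0 < A' r := hr'.2
      have h5 : ENNReal.ofReal (A' r) = 0 := hr
      rw [ENNReal.ofReal_eq_zero] at h5
      linarith
    have h4 : volume.restrict (P ∩ {r | 0 < A' r}) = 0 := by
      rw [← ae_eq_bot]
      exact eventually_false_iff_eq_bot.1 h3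
    rwa [Measure.restrict_eq_zero] at h4
  have h1 := hpos A k hA hAi hk hki hid hPk
  have h2 := hpos (fun r => -(A r)) (fun x => -(k x)) hA.neg hAi.neg hk.neg hki.neg
    (fun χ hχ hχc hχs => by
      have := hid χ hχ hχc hχs
      simp only [mul_neg, integral_neg, this])
    (fun x hx hx' => by simp [hPk x hx hx'])
  rw [ae_restrict_iff' hP, ae_iff]
  refine measure_mono_null ?_ (measure_union_null h1 h2)
  intro r hr
  simp only [mem_ofPred_eq, Classical.not_imp] at hr
  rcases lt_trichotomy (A r) 0 with h | h | h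
  · right
    exact ⟨hr.1, by simp only [mem_ofPred_eq]; linarith⟩
  · exact absurd h hr.2
  · left
    exact ⟨hr.1, h⟩







theorem slice_pc_cont (a : ℂ) : Continuous (fun p : ℝ × ℝ => pc a p.1 p.2) := by
  unfold pc er
  fun_prop

theorem slice_et_cont : Continuous et := by
  unfold et
  fun_prop

theorem slice_norm_et (θ : ℝ) : ‖et θ‖ = 1 := by
  simp [et, Complex.norm_exp_ofReal_mul_I]

theorem slice_er_periodic (θ : ℝ) (k : ℤ) : er (θ + k • (2 * Real.pi)) = er θ := by
  unfold er
  rw [show ((θ + k • (2 * Real.pi) : ℝ) : ℂ) * Complex.I =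
    θ * Complex.I + k * (2 * Real.pi * Complex.I) by push_cast [zsmul_eq_mul]; ring]
  exact Complex.exp_periodic.int_mul k _

theorem slice_pc_periodic (a : ℂ) (s θ : ℝ) (k : ℤ) :
    pc a s (θ + k • (2 * Real.pi)) = pc a s θ := by
  unfold pc
  rw [slice_er_periodic]

theorem slice_Gq_periodic (g : ℂ → ℂ) (a : ℂ) (s θ : ℝ) (k : ℤ) :
    Gq g a s (θ + k • (2 * Real.pi)) = Gq g a s θ := by
  unfold Gq
  rw [slice_pc_periodic]
  have : et (θ + k • (2 * Real.pi)) = et θ := by
    have := slice_er_periodic θ k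
    unfold er at this
    unfold et
    rw [this]
  rw [this]

theorem slice_arg_pc (x a : ℂ) : pc a (dist x a) (x - a).arg = x := by
  unfold pc er
  rw [Complex.dist_eq, Complex.norm_mul_exp_arg_mul_I]
  ring

theorem slice_arg_cont {η : ℝ → ℝ} (hη : Continuous η) (hper : ∀ t, η (t + 2 * Real.pi) = η t)
    (a : ℂ) : ContinuousOn (fun x : ℂ => η (x - a).arg) {a}ᶜ := by
  have hper' : Function.Periodic η (2 * Real.pi) := hper
  have hl : Continuous (hper'.lift : AddCircle (2 * Real.pi) → ℝ) :=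
    hη.quotient_lift _
  intro x hx
  have hx' : x - a ≠ 0 := sub_ne_zero.2 hx
  have h1 : ContinuousAt (fun y : ℂ => ((y - a).arg : Real.Angle)) x := by
    have := Complex.continuousAt_arg_coe_angle hx'
    exact ContinuousAt.comp (f := fun y : ℂ => y - a) (x := x) this
      (continuousAt_id.sub continuousAt_const)
  have h2 : ContinuousAt (fun y : ℂ => hper'.lift ((y - a).arg : Real.Angle)) x :=
    hl.continuousAt.comp h1
  exact h2.continuousWithinAt

theorem slice_measurable_G {g : ℂ → ℂ} (hg : Measurable g) (a : ℂ) :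
    Measurable (fun p : ℝ × ℝ => Gq g a p.1 p.2) := by
  unfold Gq
  exact measurable_fst.mul ((hg.comp (slice_pc_cont a).measurable).inner
    (slice_et_cont.measurable.comp measurable_snd))

theorem slice_joint {Ω : Set ℂ} {u : ℂ → ℝ} {g j : ℂ → ℂ} (h : SBVData Ω u g j) {a : ℂ}
    {R : ℝ} (hR : ball a R ⊆ Ω) {δ R' : ℝ} (hδ : 0 < δ) (hR' : R' < R) :
    IntegrableOn (fun p : ℝ × ℝ => u (pc a p.1 p.2)) (Ioo δ R' ×ˢ Ioo (-Real.pi) Real.pi) ∧
    IntegrableOn (fun p : ℝ × ℝ => Gq g a p.1 p.2) (Ioo δ R' ×ˢ Ioo (-Real.pi) Real.pi) := by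
  have hK : IsCompact (closedBall a R') := isCompact_closedBall a R'
  have hKΩ : closedBall a R' ⊆ Ω := (closedBall_subset_ball hR').trans hR
  have hsub : {x : ℂ | dist x a ∈ Ioo δ R'} ⊆ closedBall a R' := fun x hx => hx.2.le
  have hPs : Ioo δ R' ⊆ Ioi 0 := fun r hr => hδ.trans hr.1
  have hms : MeasurableSet (Ioo δ R' ×ˢ Ioo (-Real.pi) Real.pi) :=
    measurableSet_Ioo.prod measurableSet_Ioo
  have h1 := (polar_integrable a measurableSet_Ioo hPs u).1
    ((h.intu.integrableOn_compact_subset hKΩ hK).mono_set hsub)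
  have h2 := (polar_integrable a measurableSet_Ioo hPs g).1
    ((h.intg.integrableOn_compact_subset hKΩ hK).mono_set hsub)
  constructor
  · refine Integrable.mono' (h1.norm.const_mul δ⁻¹)
      (h.meas_u.comp (slice_pc_cont a).measurable).aestronglyMeasurable ?_
    rw [ae_restrict_iff' hms]
    refine Eventually.of_forall fun p hp => ?_
    have hp1 : δ < p.1 := hp.1.1
    simp only [norm_smul, Real.norm_eq_abs]
    rw [abs_of_pos (hδ.trans hp1), ← mul_assoc]
    have h3 : 1 ≤ δ⁻¹ * p.1 := by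
      rw [inv_mul_eq_div, one_le_div hδ]
      exact hp1.le
    exact le_mul_of_one_le_left (abs_nonneg _) h3
  · refine Integrable.mono' h2.norm (slice_measurable_G h.meas_g a).aestronglyMeasurable ?_
    refine Eventually.of_forall fun p => ?_
    simp only [Gq, norm_mul, norm_smul]
    gcongr
    have := norm_inner_le_norm (𝕜 := ℝ) (g (pc a p.1 p.2)) (et p.2)
    rwa [slice_norm_et, mul_one] at this

theorem slice_key {Ω : Set ℂ} {u : ℂ → ℝ} {g j : ℂ → ℂ} (h : SBVData Ω u g j) {a : ℂ}
    {R : ℝ} (hR : ball a R ⊆ Ω) {δ R' : ℝ} (hδ : 0 < δ) (hR' : R' < R) {η : ℝ → ℝ}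
    (hη : ContDiff ℝ ∞ η) (hper : ∀ t, η (t + 2 * Real.pi) = η t) :
    ∀ᵐ s ∂(volume.restrict (Ioo δ R')), (∀ θ, η θ ≠ 0 → pc a s θ ∉ jumpSet Ω u) →
      ∫ θ in Ioo (-Real.pi) Real.pi, (u (pc a s θ) * deriv η θ + Gq g a s θ * η θ) = 0 := by
  obtain ⟨hu, hG⟩ := slice_joint h hR hδ hR'
  have hK : IsCompact (closedBall a R') := isCompact_closedBall a R'
  have hKΩ : closedBall a R' ⊆ Ω := (closedBall_subset_ball hR').trans hR
  have hηc1 : Continuous (deriv η) := hη.continuous_deriv (by simp)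
  obtain ⟨M₁, hM₁⟩ := (isCompact_Icc (a := -Real.pi) (b := Real.pi)).exists_bound_of_continuousOn
    hη.continuous.continuousOn
  obtain ⟨M₂, hM₂⟩ := (isCompact_Icc (a := -Real.pi) (b := Real.pi)).exists_bound_of_continuousOn
    hηc1.continuousOn
  have hms : MeasurableSet (Ioo δ R' ×ˢ Ioo (-Real.pi) Real.pi) :=
    measurableSet_Ioo.prod measurableSet_Ioo
  set F : ℝ × ℝ → ℝ := fun p => u (pc a p.1 p.2) * deriv η p.2 + Gq g a p.1 p.2 * η p.2 with hF
  have hFm : Measurable F :=
    ((h.meas_u.comp (slice_pc_cont a).measurable).mul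
      (hηc1.measurable.comp measurable_snd)).add
    ((slice_measurable_G h.meas_g a).mul (hη.continuous.measurable.comp measurable_snd))
  have hFi : IntegrableOn F (Ioo δ R' ×ˢ Ioo (-Real.pi) Real.pi) := by
    refine Integrable.add ?_ ?_
    · refine hu.mul_bdd (c := M₂) (hηc1.comp continuous_snd).aestronglyMeasurable ?_
      rw [ae_restrict_iff' hms]
      exact Eventually.of_forall fun p hp => hM₂ _ (Ioo_subset_Icc_self hp.2)
    · refine hG.mul_bdd (c := M₁) (hη.continuous.comp continuous_snd).aestronglyMeasurable ?_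
      rw [ae_restrict_iff' hms]
      exact Eventually.of_forall fun p hp => hM₁ _ (Ioo_subset_Icc_self hp.2)
  set A : ℝ → ℝ := fun r => ∫ θ in Ioo (-Real.pi) Real.pi,
    (u (pc a r θ) * deriv η θ + Gq g a r θ * η θ) with hA
  have hAm : Measurable A := by
    have := (hFm.stronglyMeasurable).integral_prod_right'
      (ν := volume.restrict (Ioo (-Real.pi) Real.pi))
    exact this.measurable
  have hAi : IntegrableOn A (Ioo δ R') := by
    have h1 : Integrable F ((volume.restrict (Ioo δ R')).prod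
        (volume.restrict (Ioo (-Real.pi) Real.pi))) := by
      rw [Measure.prod_restrict]
      exact hFi
    exact h1.integral_prod_left
  obtain ⟨C, j', hCσ, hCs, hCn, hj'm, hj'⟩ := jump_rep h hK hKΩ
  have hCm : MeasurableSet C := by
    obtain ⟨Kn, hKn, rfl⟩ := hCσ
    exact MeasurableSet.iUnion fun n => (hKn n).measurableSet
  set k : ℂ → ℝ := fun x => η (x - a).arg * inner ℝ (j' x) (et (x - a).arg) with hk
  have hargm : Measurable (fun x : ℂ => (x - a).arg) :=
    Complex.measurable_arg.comp (measurable_id.sub measurable_const)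
  have hkm : Measurable k :=
    (hη.continuous.measurable.comp hargm).mul (hj'm.inner (slice_et_cont.measurable.comp hargm))
  have hki : IntegrableOn k C (μH[1] : Measure ℂ) := by
    have h1 : IntegrableOn j C (μH[1] : Measure ℂ) :=
      (h.intj.integrableOn_compact_subset hKΩ hK).mono_set (hCs.trans inter_subset_right)
    refine Integrable.mono' (h1.norm.const_mul M₁) hkm.aestronglyMeasurable ?_
    rw [ae_restrict_iff' hCm]
    refine Eventually.of_forall fun x hx => ?_
    rw [hk]
    simp only [norm_mul]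
    have h2 : ‖η (x - a).arg‖ ≤ M₁ := hM₁ _ ⟨(Complex.neg_pi_lt_arg _).le, Complex.arg_le_pi _⟩
    have h3 := norm_inner_le_norm (𝕜 := ℝ) (j' x) (et (x - a).arg)
    rw [slice_norm_et, mul_one, hj' x hx] at h3
    rw [← hj' x hx] at h3 ⊢
    exact mul_le_mul h2 h3 (norm_nonneg _) ((norm_nonneg _).trans h2)
  -- the open set where the weight does not vanish
  have hU : IsOpen ({a}ᶜ ∩ (fun x : ℂ => η (x - a).arg) ⁻¹' {0}ᶜ) :=
    (slice_arg_cont hη.continuous hper a).isOpen_inter_preimage isOpen_compl_singleton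
      isOpen_compl_singleton
  set U : Set ℂ := {a}ᶜ ∩ (fun x : ℂ => η (x - a).arg) ⁻¹' {0}ᶜ with hUdef
  have hρm : MeasurableSet ((fun x : ℂ => dist x a) '' (C ∩ U)) := by
    obtain ⟨Kn, hKn, rfl⟩ := hCσ
    obtain ⟨Fn, hFn, hFs, hFU, -⟩ := hU.exists_iUnion_isClosed
    rw [← hFU, iUnion_inter_iUnion, image_iUnion]
    refine MeasurableSet.iUnion fun n => ?_
    rw [image_iUnion]
    refine MeasurableSet.iUnion fun m => ?_
    exact (((hKn n).inter_right (hFn m)).image
      (continuous_id.dist continuous_const)).measurableSet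
  have hPm : MeasurableSet (Ioo δ R' \ (fun x : ℂ => dist x a) '' (C ∩ U)) :=
    measurableSet_Ioo.diff hρm
  have hmain := slice_meas hAm hAi hkm hki a (fun χ hχ hχc hχs => by
    have h1 := polar_form_theta h hR hχ hχc
      (hχs.trans (Ioo_subset_Ioo hδ.le hR'.le)) hη hper
    have h2 : ∫ r in Ioo 0 R, χ r * A r = ∫ r in Ioo δ R', χ r * A r := by
      apply setIntegral_eq_of_subset_of_forall_sdiff_eq_zero measurableSet_Ioo
        (Ioo_subset_Ioo hδ.le hR'.le)
      intro r hr
      rw [image_eq_zero_of_notMem_tsupport fun h' => hr.2 (hχs h'), zero_mul]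
    have h3 : ∫ x in ball a R, χ (dist x a) * η (x - a).arg * inner ℝ (j x) (et (x - a).arg)
        ∂(μH[1] : Measure ℂ) = ∫ x in C, χ (dist x a) * η (x - a).arg *
          inner ℝ (j x) (et (x - a).arg) ∂(μH[1] : Measure ℂ) := by
      apply setIntegral_eq_of_subset_of_ae_sdiff_eq_zero measurableSet_ball.nullMeasurableSet
        (hCs.trans (inter_subset_right.trans (closedBall_subset_ball hR')))
      have h4 : ∀ᵐ x ∂(μH[1] : Measure ℂ), x ∉ (jumpSet Ω u ∩ closedBall a R') \ C := by
        exact measure_eq_zero_iff_ae_notMem.1 hCn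
      filter_upwards [h4] with x hx hx'
      by_cases h5 : x ∈ closedBall a R'
      · have h6 : x ∉ jumpSet Ω u := fun h7 => hx ⟨⟨h7, h5⟩, hx'.2⟩
        have h7 : j x = 0 := by
          rcases h.jf x (hKΩ h5) with ⟨a', b', ν, h8, -⟩ | ⟨-, h8⟩
          · exact absurd ⟨hKΩ h5, a', b', ν, h8⟩ h6
          · exact h8
        rw [h7, inner_zero_left, mul_zero]
      · have h6 : χ (dist x a) = 0 := image_eq_zero_of_notMem_tsupport fun h' => by
          have := (hχs h').2
          rw [mem_closedBall, not_le] at h5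
          exact absurd this (not_lt.2 h5.le)
        rw [h6, zero_mul, zero_mul]
    rw [h2, h3] at h1
    rw [h1]
    congr 1
    apply setIntegral_congr_fun hCm
    intro x hx
    simp only [hk, hj' x hx]
    ring) hPm (sdiff_subset) (fun x hx hx' => by
      have h1 : x ∉ U := fun h2 => hx'.2 ⟨x, ⟨hx, h2⟩, rfl⟩
      have h2 : x ∈ ({a}ᶜ : Set ℂ) := by
        intro h3
        have h4 : x = a := h3
        have h5 : δ < dist x a := hx'.1.1
        rw [h4, dist_self] at h5
        linarith
      have h3 : η (x - a).arg = 0 := by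
        by_contra h4
        exact h1 ⟨h2, h4⟩
      simp only [hk, h3, zero_mul]) hCm
  rw [ae_restrict_iff' hPm] at hmain
  rw [ae_restrict_iff' measurableSet_Ioo]
  filter_upwards [hmain] with s hs hs' hθ
  refine hs ⟨hs', ?_⟩
  rintro ⟨x, ⟨hxC, hxU⟩, hxs⟩
  simp only at hxs
  apply hθ (x - a).arg hxU.2
  rw [← hxs, slice_arg_pc]
  exact (hCs hxC).1

theorem slice_arc_aux {Ω : Set ℂ} {u : ℂ → ℝ} {g j : ℂ → ℂ} (h : SBVData Ω u g j) {a : ℂ} {R : ℝ}
    (hR : ball a R ⊆ Ω) {δ R' : ℝ} (hδ : 0 < δ) (hR' : R' < R) :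
    ∀ᵐ s ∂(volume.restrict (Ioo δ R')), ∀ p q : ℝ, p < q →
      (∀ θ ∈ Ioo p q, pc a s θ ∉ jumpSet Ω u) →
      ∃ c : ℝ, ∀ᵐ θ ∂(volume.restrict (Ioo p q)),
        u (pc a s θ) = c + ∫ t in p..θ, Gq g a s t := by
  obtain ⟨hu, hG⟩ := slice_joint h hR hδ hR'
  have hu' : ∀ᵐ s ∂(volume.restrict (Ioo δ R')),
      IntegrableOn (fun θ => u (pc a s θ)) (Ioo (-Real.pi) Real.pi) := by
    have h1 : Integrable (fun p : ℝ × ℝ => u (pc a p.1 p.2)) ((volume.restrict (Ioo δ R')).prod
        (volume.restrict (Ioo (-Real.pi) Real.pi))) := by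
      rw [Measure.prod_restrict]
      exact hu
    exact h1.prod_right_ae
  have hG' : ∀ᵐ s ∂(volume.restrict (Ioo δ R')),
      IntegrableOn (fun θ => Gq g a s θ) (Ioo (-Real.pi) Real.pi) := by
    have h1 : Integrable (fun p : ℝ × ℝ => Gq g a p.1 p.2) ((volume.restrict (Ioo δ R')).prod
        (volume.restrict (Ioo (-Real.pi) Real.pi))) := by
      rw [Measure.prod_restrict]
      exact hG
    exact h1.prod_right_ae
  choose T hTc hTs hT using slice_countable
  have hkey : ∀ᵐ s ∂(volume.restrict (Ioo δ R')), ∀ α β : ℚ, (β : ℝ) ≤ α + 2 * Real.pi →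
      ∀ η ∈ T α β, (∀ θ, slice_per α η θ ≠ 0 → pc a s θ ∉ jumpSet Ω u) →
      ∫ θ in Ioo (-Real.pi) Real.pi, (u (pc a s θ) * deriv (slice_per α η) θ +
        Gq g a s θ * slice_per α η θ) = 0 := by
    rw [ae_all_iff]
    intro α
    rw [ae_all_iff]
    intro β
    by_cases hβ : (β : ℝ) ≤ α + 2 * Real.pi
    · have h1 : ∀ᵐ s ∂(volume.restrict (Ioo δ R')), ∀ η ∈ T α β,
          (∀ θ, slice_per α η θ ≠ 0 → pc a s θ ∉ jumpSet Ω u) →
          ∫ θ in Ioo (-Real.pi) Real.pi, (u (pc a s θ) * deriv (slice_per α η) θ +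
            Gq g a s θ * slice_per α η θ) = 0 := by
        rw [ae_ball_iff (hTc α β)]
        intro η hη
        obtain ⟨e1, e2, e3⟩ := hTs α β η hη
        exact slice_key h hR hδ hR' (slice_per_smooth e1 e3 hβ) (slice_per_periodic α η)
      filter_upwards [h1] with s hs _
      exact hs
    · exact Eventually.of_forall fun s hs => absurd hs hβ
  filter_upwards [hu', hG', hkey] with s hus hGs hks p q hpq hno
  have hfper : Function.Periodic (fun θ => u (pc a s θ)) (2 * Real.pi) := by
    intro θ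
    have := slice_pc_periodic a s θ 1
    rw [one_zsmul] at this
    simp only [this]
  have hGper : Function.Periodic (fun θ => Gq g a s θ) (2 * Real.pi) := by
    intro θ
    have := slice_Gq_periodic g a s θ 1
    rw [one_zsmul] at this
    simp only [this]
  have hint : ∀ F : ℝ → ℝ, Function.Periodic F (2 * Real.pi) →
      IntegrableOn F (Ioo (-Real.pi) Real.pi) → ∀ x y : ℝ, IntervalIntegrable F volume x y := by
    intro F hF hFi x y
    refine hF.intervalIntegrable (t := -Real.pi) (by positivity) ?_ x y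
    rw [show -Real.pi + 2 * Real.pi = Real.pi by ring,
      intervalIntegrable_iff_integrableOn_Ioo_of_le (by linarith [Real.pi_pos])]
    exact hFi
  have hfi := hint _ hfper hus
  have hGi := hint _ hGper hGs
  obtain ⟨c, hc⟩ := slice_glue_const (F := fun θ => u (pc a s θ) - ∫ t in p..θ, Gq g a s t) hpq (by
    intro x hx
    obtain ⟨α, hα1, hα2⟩ := exists_rat_btwn (show max p (x - Real.pi) < x from
      max_lt hx.1 (by linarith [Real.pi_pos]))
    obtain ⟨β, hβ1, hβ2⟩ := exists_rat_btwn (show x < min q (x + Real.pi) from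
      lt_min hx.2 (by linarith [Real.pi_pos]))
    have hpα : p < α := (le_max_left _ _).trans_lt hα1
    have hxα : x - Real.pi < α := (le_max_right _ _).trans_lt hα1
    have hβq : (β : ℝ) < q := hβ2.trans_le (min_le_left _ _)
    have hβx : (β : ℝ) < x + Real.pi := hβ2.trans_le (min_le_right _ _)
    have hβα : (β : ℝ) ≤ α + 2 * Real.pi := by linarith
    have hαβ : (α : ℝ) < β := hα2.trans hβ1
    have i1 : IntegrableOn (fun θ => u (pc a s θ)) (Ioo (α : ℝ) β) :=
      (intervalIntegrable_iff_integrableOn_Ioo_of_le hαβ.le).1 (hfi α β)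
    have i2 : IntegrableOn (fun θ => Gq g a s θ) (Ioo (α : ℝ) β) :=
      (intervalIntegrable_iff_integrableOn_Ioo_of_le hαβ.le).1 (hGi α β)
    have h1 := hT α β (fun θ => u (pc a s θ)) (fun θ => Gq g a s θ) i1 i2 (by
      intro η hη
      obtain ⟨e1, e2, e3⟩ := hTs α β η hη
      refine (slice_per_integral (f := fun θ => u (pc a s θ)) (G := fun θ => Gq g a s θ) e3 hβα
        hfper hGper).symm.trans ?_
      apply hks α β hβα η hη
      intro θ hθ
      obtain ⟨θ', hθ', k, hk⟩ := slice_per_ne e3 hθ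
      rw [hk, slice_pc_periodic]
      exact hno θ' ⟨hpα.trans hθ'.1, hθ'.2.trans hβq⟩)
    obtain ⟨c, hc⟩ := slice_dbr hαβ i1 i2 h1
    refine ⟨α, β, c - ∫ t in p..(α : ℝ), Gq g a s t, ⟨hα2, hβ1⟩, ?_⟩
    filter_upwards [hc] with θ hθ
    rw [hθ]
    have := intervalIntegral.integral_add_adjacent_intervals (hGi p α) (hGi α θ)
    linarith)
  refine ⟨c, ?_⟩
  filter_upwards [hc] with θ hθ
  linarith

theorem slice_arc {Ω : Set ℂ} {u : ℂ → ℝ} {g j : ℂ → ℂ} (h : SBVData Ω u g j) {a : ℂ} {R : ℝ}
    (hR : ball a R ⊆ Ω) :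
    ∀ᵐ s ∂(volume.restrict (Ioo 0 R)), ∀ p q : ℝ, p < q →
      (∀ θ ∈ Ioo p q, pc a s θ ∉ jumpSet Ω u) →
      ∃ c : ℝ, ∀ᵐ θ ∂(volume.restrict (Ioo p q)),
        u (pc a s θ) = c + ∫ t in p..θ, Gq g a s t := by
  have hcov : Ioo 0 R = ⋃ n : ℕ, Ioo (1 / ((n : ℝ) + 1)) (R - 1 / ((n : ℝ) + 1)) := by
    ext x
    simp only [mem_iUnion, mem_Ioo]
    constructor
    · rintro ⟨h1, h2⟩
      obtain ⟨n, hn⟩ := exists_nat_one_div_lt (show 0 < min x (R - x) from
        lt_min h1 (by linarith))
      refine ⟨n, hn.trans_le (min_le_left _ _), ?_⟩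
      have := hn.trans_le (min_le_right _ _)
      linarith
    · rintro ⟨n, h1, h2⟩
      have h3 : (0 : ℝ) < 1 / ((n : ℝ) + 1) := by positivity
      exact ⟨h3.trans h1, by linarith⟩
  rw [hcov, ae_restrict_iUnion_iff]
  intro n
  have h3 : (0 : ℝ) < 1 / ((n : ℝ) + 1) := by positivity
  exact slice_arc_aux h hR h3 (by linarith)

end Pool.Agent.MP099f24
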