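import Mathlib
import Pool.Agent.Lib.MP_099f24_an.SD.Comp0Core
import Pool.Agent.Lib.MP_099f24_an.SD.Slice
import Pool.Agent.Lib.MP_099f24_an.SD.Glue

/-!
# Module COMP0: the homogeneous competitor

For almost every radius `s` such that the circle of radius `s` carries no jump (more generally, such
that the slice on the circle is absolutely continuous), the energy in the disc is at most `s T(s)`.
-/

set_option autoImplicit false

namespace Pool.Agent.MP099f24

open MeasureTheory Filter Topology Set Metric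
open scoped ENNReal ContDiff

theorem comp_homog_gen {Ω : Set ℂ} {u : ℂ → ℝ} {g j : ℂ → ℂ} (h : MSMin Ω u g j) {a : ℂ} {R : ℝ}
    (hR : ball a R ⊆ Ω) :
    ∀ᵐ s ∂(volume.restrict (Ioo 0 R)),
      (∃ c : ℝ, ∀ᵐ θ ∂(volume.restrict (Ioo (-Real.pi) Real.pi)),
        u (pc a s θ) = c + ∫ t in (-Real.pi)..θ, Gq g a s t) →
      ∫ t in (-Real.pi)..Real.pi, Gq g a s t = 0 →
      Dq g a s + Lq Ω u a s ≤ s * Tq g a s := by
  have hfin : ∀ s < R, IntegrableOn (fun x => ‖g x‖ ^ 2) (ball a s) := fun s hs =>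
    (h.fin_g _ (isCompact_closedBall a s) ((closedBall_subset_ball hs).trans hR)).mono_set
      ball_subset_closedBall
  filter_upwards [glue h.toSBVData hR, (Dq_deriv h.meas_g hfin).1,
    ae_restrict_mem measurableSet_Ioo] with s hglue hder hs hc h0
  obtain ⟨c, hc⟩ := hc
  exact comp0_main h hs.1 ((closedBall_subset_ball hs.2).trans hR) hglue hder.2 hc h0

theorem comp_homog {Ω : Set ℂ} {u : ℂ → ℝ} {g j : ℂ → ℂ} (h : MSMin Ω u g j) {a : ℂ} {R : ℝ}
    (hR : ball a R ⊆ Ω) :
    ∀ᵐ s ∂(volume.restrict (Ioo 0 R)), jumpSet Ω u ∩ sphere a s = ∅ →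
      Dq g a s + Lq Ω u a s ≤ s * Tq g a s := by
  have hfin : ∀ s < R, IntegrableOn (fun x => ‖g x‖ ^ 2) (ball a s) := fun s hs =>
    (h.fin_g _ (isCompact_closedBall a s) ((closedBall_subset_ball hs).trans hR)).mono_set
      ball_subset_closedBall
  filter_upwards [comp_homog_gen h hR, slice_arc h.toSBVData hR, (Dq_deriv h.meas_g hfin).1,
    ae_restrict_mem measurableSet_Ioo] with s hgen hslice hder hs hJ
  have hπ := Real.pi_pos
  obtain ⟨c, hc⟩ := hslice (-Real.pi) (3 * Real.pi) (by linarith) (fun θ _ hθ => by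
    have : pc a s θ ∈ jumpSet Ω u ∩ sphere a s := ⟨hθ, comp0_dist hs.1.le⟩
    rw [hJ] at this
    exact this)
  have hc1 : ∀ᵐ θ ∂(volume.restrict (Ioo (-Real.pi) Real.pi)),
      u (pc a s θ) = c + ∫ t in (-Real.pi)..θ, Gq g a s t :=
    ae_restrict_of_ae_restrict_of_subset (Ioo_subset_Ioo le_rfl (by linarith)) hc
  have hpc : Continuous fun θ => pc a s θ :=
    (comp0_continuous_pc a).comp (Continuous.prodMk continuous_const continuous_id)
  have hGm : Measurable (Gq g a s) := by
    have h1 : Measurable fun θ => (inner ℝ (g (pc a s θ)) (et θ) : ℝ) :=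
      (h.meas_g.comp hpc.measurable).inner comp0_continuous_et.measurable
    exact h1.const_mul s
  have hper : Function.Periodic (Gq g a s) (2 * Real.pi) := comp0_Gq_periodic g a s
  have hGi : IntervalIntegrable (Gq g a s) volume (-Real.pi) (-Real.pi + 2 * Real.pi) := by
    have e : -Real.pi + 2 * Real.pi = Real.pi := by ring
    rw [e, intervalIntegrable_iff_integrableOn_Ioo_of_le (by linarith)]
    have h1 : IntegrableOn (fun θ => s ^ 2 * ‖g (pc a s θ)‖ ^ 2 + 1) (Ioo (-Real.pi) Real.pi) := by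
      refine (hder.2.const_mul _).add ?_
      simp
    refine Integrable.mono' h1 hGm.aestronglyMeasurable (Eventually.of_forall fun θ => ?_)
    have h2 := comp0_inner_le (g (pc a s θ)) θ
    have h3 : (Gq g a s θ) ^ 2 ≤ s ^ 2 * ‖g (pc a s θ)‖ ^ 2 := by
      have e : Gq g a s θ ^ 2 = s ^ 2 * (inner ℝ (g (pc a s θ)) (et θ)) ^ 2 := by
        unfold Gq; ring
      rw [e]
      exact mul_le_mul_of_nonneg_left h2 (sq_nonneg _)
    rw [Real.norm_eq_abs]
    nlinarith [sq_abs (Gq g a s θ), abs_nonneg (Gq g a s θ)]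
  have hGall : ∀ x y, IntervalIntegrable (Gq g a s) volume x y := fun x y =>
    hper.intervalIntegrable (by linarith) hGi x y
  -- the integral over a period vanishes
  have hc2 : ∀ᵐ θ ∂(volume.restrict (Ioo (-Real.pi) Real.pi)),
      u (pc a s (θ + 2 * Real.pi)) = c + ∫ t in (-Real.pi)..(θ + 2 * Real.pi), Gq g a s t := by
    rw [ae_restrict_iff' measurableSet_Ioo] at hc ⊢
    have hmp : MeasurePreserving (fun θ : ℝ => θ + 2 * Real.pi) volume volume :=
      measurePreserving_add_right volume _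
    have := hmp.quasiMeasurePreserving.ae hc
    filter_upwards [this] with θ hθ hθ'
    exact hθ ⟨by linarith [hθ'.1], by linarith [hθ'.2]⟩
  have hne : (ae (volume.restrict (Ioo (-Real.pi) Real.pi))).NeBot := by
    rw [ae_neBot]
    intro h0
    have h1 := congrArg (fun μ : Measure ℝ => μ univ) h0
    simp only [Measure.restrict_apply_univ, Real.volume_Ioo, Measure.coe_zero, Pi.zero_apply,
      ENNReal.ofReal_eq_zero] at h1
    linarith
  obtain ⟨θ, h1, h2⟩ := (hc1.and hc2).exists
  rw [comp0_pc_periodic, h1] at h2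
  have h3 : ∫ t in (-Real.pi)..(θ + 2 * Real.pi), Gq g a s t =
      (∫ t in (-Real.pi)..θ, Gq g a s t) + ∫ t in θ..(θ + 2 * Real.pi), Gq g a s t :=
    (intervalIntegral.integral_add_adjacent_intervals (hGall _ _) (hGall _ _)).symm
  have h4 : ∫ t in θ..(θ + 2 * Real.pi), Gq g a s t =
      ∫ t in (-Real.pi)..(-Real.pi + 2 * Real.pi), Gq g a s t :=
    hper.intervalIntegral_add_eq θ (-Real.pi)
  have e : -Real.pi + 2 * Real.pi = Real.pi := by ring
  rw [e] at h4
  refine hgen ⟨c, hc1⟩ ?_
  rw [← h4]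
  linarith

end Pool.Agent.MP099f24
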