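import Pool.Agent.Lib.MP_099f24_an.SD.Glue

/-!
# MP_099f24_an SD, module COMPB: the constant competitor

For a local minimizer of the Mumford-Shah energy the energy in a disc of radius `R` is at most the
length `2 π R` of its boundary circle.
-/

namespace Pool.Agent.MP099f24

open MeasureTheory Filter Topology Set Metric
open scoped ENNReal ContDiff

/-- the bound on almost every closed disc -/
theorem compb_ae {Ω : Set ℂ} {u : ℂ → ℝ} {g j : ℂ → ℂ} (h : MSMin Ω u g j) {a : ℂ} {R : ℝ}
    (hR : ball a R ⊆ Ω) :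
    ∀ᵐ s ∂(volume.restrict (Ioo 0 R)),
      (∫⁻ x in closedBall a s, ‖g x‖ₑ ^ 2) + (μH[1] : Measure ℂ) (discSet Ω u ∩ closedBall a s) ≤
        ENNReal.ofReal (2 * Real.pi * R) := by
  filter_upwards [glue h.toSBVData hR, ae_restrict_mem measurableSet_Ioo] with s hs hsR
  obtain ⟨h1, h2, h3, h4⟩ := hs (fun _ => 0) (fun _ => 0) continuousOn_const
    integrableOn_zero (fun φ _ _ v => by simp)
  have hK : closedBall a s ⊆ Ω := (closedBall_subset_ball hsR.2).trans hR
  have h5 := h.min (glued a s (fun _ => 0) u) (glued a s (fun _ => 0) g) (closedBall a s) h1 h2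
    (isCompact_closedBall a s) hK (fun x _ hx => by
      rw [glued, if_neg (by simpa [mem_closedBall] using hx)])
  refine h5.trans ?_
  have h6 : ∫⁻ x in closedBall a s, ‖glued a s (fun _ => (0 : ℂ)) g x‖ₑ ^ 2 = 0 := by
    rw [setLIntegral_congr_fun (g := fun _ => 0) measurableSet_closedBall (fun x hx => by
      simp only
      rw [glued, if_pos (mem_closedBall.1 hx)]
      simp)]
    simp
  rw [h6, zero_add, ← ball_union_sphere, inter_union_distrib_left]
  refine (measure_union_le _ _).trans ?_
  rw [h3, measure_empty, zero_add]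
  refine h4.trans ?_
  calc ENNReal.ofReal s * volume {θ ∈ Ioo (-Real.pi) Real.pi | u (pc a s θ) ≠ 0}
      ≤ ENNReal.ofReal R * ENNReal.ofReal (2 * Real.pi) := by
        refine mul_le_mul' (ENNReal.ofReal_le_ofReal hsR.2.le) ?_
        refine (measure_mono (sep_subset _ _)).trans ?_
        rw [Real.volume_Ioo]
        exact ENNReal.ofReal_le_ofReal (by linarith)
    _ = ENNReal.ofReal (2 * Real.pi * R) := by
        rw [← ENNReal.ofReal_mul (hsR.1.trans hsR.2).le, mul_comm]

theorem comp_const {Ω : Set ℂ} {u : ℂ → ℝ} {g j : ℂ → ℂ} (h : MSMin Ω u g j) {a : ℂ} {R : ℝ}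
    (hR : ball a R ⊆ Ω) :
    (∫⁻ x in ball a R, ‖g x‖ₑ ^ 2) + (μH[1] : Measure ℂ) (discSet Ω u ∩ ball a R) ≤
      ENNReal.ofReal (2 * Real.pi * R) := by
  rcases le_or_gt R 0 with h0 | h0
  · rw [ball_eq_empty.2 h0]
    simp
  -- the bound on every smaller disc
  have hb : ∀ t < R, (∫⁻ x in ball a t, ‖g x‖ₑ ^ 2) +
      (μH[1] : Measure ℂ) (discSet Ω u ∩ ball a t) ≤ ENNReal.ofReal (2 * Real.pi * R) := by
    intro t ht
    have h1 := compb_ae h hR
    have h2 : ∃ s ∈ Ioo (max t 0) R, (∫⁻ x in closedBall a s, ‖g x‖ₑ ^ 2) +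
        (μH[1] : Measure ℂ) (discSet Ω u ∩ closedBall a s) ≤ ENNReal.ofReal (2 * Real.pi * R) := by
      by_contra hcon
      push Not at hcon
      have h3 : ∀ᵐ s ∂(volume.restrict (Ioo (max t 0) R)), False := by
        have h4 := ae_mono (Measure.restrict_mono (Ioo_subset_Ioo_left (le_max_right t 0) :
          Ioo (max t 0) R ⊆ Ioo 0 R) le_rfl) h1
        filter_upwards [h4, ae_restrict_mem measurableSet_Ioo] with s hs hs'
        exact absurd hs (not_le.2 (hcon s hs'))
      rw [ae_iff] at h3
      simp only [not_false_eq_true, ofPred_true, Measure.restrict_apply_univ, Real.volume_Ioo,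
        ENNReal.ofReal_eq_zero] at h3
      have h5 : max t 0 < R := max_lt ht h0
      linarith
    obtain ⟨s, hs, hs'⟩ := h2
    have h3 : ball a t ⊆ closedBall a s := (ball_subset_ball (lt_of_le_of_lt
      (le_max_left t 0) hs.1).le).trans ball_subset_closedBall
    refine le_trans (add_le_add (lintegral_mono_set h3)
      (measure_mono (inter_subset_inter_right _ h3))) hs'
  -- exhaust the disc
  set t : ℕ → ℝ := fun n => R - 1 / ((n : ℝ) + 1) with ht
  have htR : ∀ n, t n < R := fun n => by
    have h3 : (0 : ℝ) < 1 / ((n : ℝ) + 1) := by positivity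
    simp only [ht]
    linarith
  have htm : Monotone t := fun n m hnm => by
    simp only [ht]
    have h3 : 1 / ((m : ℝ) + 1) ≤ 1 / ((n : ℝ) + 1) := by
      apply one_div_le_one_div_of_le (by positivity)
      have : (n : ℝ) ≤ m := by exact_mod_cast hnm
      linarith
    linarith
  have hmono : Monotone (fun n => ball a (t n)) := fun n m hnm => ball_subset_ball (htm hnm)
  have hU : ⋃ n, ball a (t n) = ball a R := by
    ext x
    simp only [mem_iUnion, mem_ball]
    constructor
    · rintro ⟨n, hn⟩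
      exact hn.trans (htR n)
    · intro hx
      obtain ⟨n, hn⟩ := exists_nat_one_div_lt (show 0 < R - dist x a by linarith)
      exact ⟨n, by simp only [ht]; linarith⟩
  have l1 : Tendsto (fun n => ∫⁻ x in ball a (t n), ‖g x‖ₑ ^ 2) atTop
      (𝓝 (∫⁻ x in ball a R, ‖g x‖ₑ ^ 2)) := by
    have h4 := tendsto_measure_iUnion_atTop (μ := volume.withDensity fun x => ‖g x‖ₑ ^ 2) hmono
    rw [hU, withDensity_apply _ measurableSet_ball] at h4
    refine h4.congr fun n => ?_
    exact withDensity_apply _ measurableSet_ball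
  have l2 : Tendsto (fun n => (μH[1] : Measure ℂ) (discSet Ω u ∩ ball a (t n))) atTop
      (𝓝 ((μH[1] : Measure ℂ) (discSet Ω u ∩ ball a R))) := by
    have h4 := tendsto_measure_iUnion_atTop (μ := (μH[1] : Measure ℂ))
      (s := fun n => discSet Ω u ∩ ball a (t n))
      (fun n m hnm => inter_subset_inter_right _ (hmono hnm))
    rwa [← inter_iUnion, hU] at h4
  exact le_of_tendsto' (l1.add l2) fun n => hb _ (htR n)

end Pool.Agent.MP099f24
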