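import Pool.Agent.Lib.MP_099f24_an.SD.Defs
import Pool.Agent.Lib.MP_099f24_an.SD.Meas
import Pool.Agent.Lib.MP_099f24_an.SD.Polar
import Pool.Agent.Lib.MP_099f24_an.SD.JRep
import Pool.Agent.Lib.MP_099f24_an.SD.Fvar

/-!
# MP_099f24_an SD, module DIL: the dilation identity
-/

namespace Pool.Agent.MP099f24

open MeasureTheory Filter Topology Set Metric
open scoped ENNReal ContDiff

/-- the primitive `r ↦ ∫_r^R ζ` -/
noncomputable def dil_psi (R : ℝ) (ζ : ℝ → ℝ) (r : ℝ) : ℝ := ∫ t in r..R, ζ t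

theorem dil_psi_deriv {R : ℝ} {ζ : ℝ → ℝ} (hζ : Continuous ζ) (r : ℝ) :
    HasDerivAt (dil_psi R ζ) (-(ζ r)) r :=
  intervalIntegral.integral_hasDerivAt_left (hζ.intervalIntegrable _ _)
    (hζ.stronglyMeasurableAtFilter _ _) hζ.continuousAt

theorem dil_psi_smooth {R : ℝ} {ζ : ℝ → ℝ} (hζ : ContDiff ℝ ∞ ζ) :
    ContDiff ℝ ∞ (dil_psi R ζ) := by
  rw [contDiff_infty_iff_deriv]
  refine ⟨fun r => (dil_psi_deriv hζ.continuous r).differentiableAt, ?_⟩
  have : deriv (dil_psi R ζ) = fun r => -(ζ r) :=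
    funext fun r => (dil_psi_deriv hζ.continuous r).deriv
  rw [this]
  exact hζ.neg

theorem dil_supp {R : ℝ} {ζ : ℝ → ℝ} (hR : 0 < R) (hc : HasCompactSupport ζ)
    (hs : tsupport ζ ⊆ Ioo 0 R) :
    ∃ δ R' : ℝ, 0 < δ ∧ δ < R' ∧ R' < R ∧ (∀ t < δ, ζ t = 0) ∧ ∀ t, R' ≤ t → ζ t = 0 := by
  rcases (tsupport ζ).eq_empty_or_nonempty with he | hne
  · refine ⟨R / 3, R / 2, by positivity, by linarith, by linarith, fun t _ => ?_, fun t _ => ?_⟩
    · exact image_eq_zero_of_notMem_tsupport (by rw [he]; exact notMem_empty _)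
    · exact image_eq_zero_of_notMem_tsupport (by rw [he]; exact notMem_empty _)
  · obtain ⟨m, hm, hm'⟩ := hc.isCompact.exists_isMinOn hne continuousOn_id
    obtain ⟨M, hM, hM'⟩ := hc.isCompact.exists_isMaxOn hne continuousOn_id
    obtain ⟨R', h1, h2⟩ := exists_between (hs hM).2
    have h3 : m ≤ M := hm' hM
    have h4 : 0 < m := (hs hm).1
    refine ⟨m, R', h4, by linarith, h2, fun t ht => ?_, fun t ht => ?_⟩
    · exact image_eq_zero_of_notMem_tsupport fun h' => absurd (hm' h') (not_le.2 ht)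
    · exact image_eq_zero_of_notMem_tsupport fun h' => by
        have : t ≤ M := hM' h'
        linarith

/-- `Φ(t) = ψ(√t)` -/
noncomputable def dil_phi (R : ℝ) (ζ : ℝ → ℝ) (t : ℝ) : ℝ := dil_psi R ζ (Real.sqrt t)

theorem dil_psi_const {R : ℝ} {ζ : ℝ → ℝ} (hζ : Continuous ζ) {δ : ℝ} (h : ∀ t < δ, ζ t = 0)
    {r : ℝ} (hr0 : 0 ≤ r) (hr : r < δ) : dil_psi R ζ r = dil_psi R ζ 0 := by
  unfold dil_psi
  rw [← intervalIntegral.integral_add_adjacent_intervals (hζ.intervalIntegrable 0 r)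
    (hζ.intervalIntegrable r R)]
  have : ∫ t in (0 : ℝ)..r, ζ t = ∫ t in (0 : ℝ)..r, (0 : ℝ) := by
    apply intervalIntegral.integral_congr
    intro t ht
    rw [uIcc_of_le hr0] at ht
    exact h t (ht.2.trans_lt hr)
  rw [this]
  simp

theorem dil_psi_zero {R : ℝ} {ζ : ℝ → ℝ} {R' : ℝ} (h : ∀ t, R' ≤ t → ζ t = 0)
    (hR : R' < R) {r : ℝ} (hr : R' ≤ r) : dil_psi R ζ r = 0 := by
  unfold dil_psi
  have : ∫ t in r..R, ζ t = ∫ t in r..R, (0 : ℝ) := by
    apply intervalIntegral.integral_congr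
    intro t ht
    apply h
    have h1 : min r R ≤ t := ht.1
    rcases min_le_iff.1 h1 with h2 | h2 <;> linarith
  rw [this]
  simp

theorem dil_phi_near {R : ℝ} {ζ : ℝ → ℝ} (hζ : Continuous ζ) {δ : ℝ} (h : ∀ t < δ, ζ t = 0)
    (hδ : 0 < δ) {t : ℝ} (ht : t < δ ^ 2) : dil_phi R ζ =ᶠ[𝓝 t] fun _ => dil_psi R ζ 0 := by
  filter_upwards [Iio_mem_nhds ht] with s hs
  unfold dil_phi
  apply dil_psi_const hζ h (Real.sqrt_nonneg s)
  rw [Real.sqrt_lt' hδ]
  exact hs

theorem dil_phi_smooth {R : ℝ} {ζ : ℝ → ℝ} (hζ : ContDiff ℝ ∞ ζ) {δ : ℝ} (h : ∀ t < δ, ζ t = 0)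
    (hδ : 0 < δ) : ContDiff ℝ ∞ (dil_phi R ζ) := by
  rw [contDiff_iff_contDiffAt]
  intro t
  rcases lt_or_ge t (δ ^ 2) with ht | ht
  · exact contDiffAt_const.congr_of_eventuallyEq (dil_phi_near hζ.continuous h hδ ht)
  · have ht0 : t ≠ 0 := by
      have : 0 < δ ^ 2 := by positivity
      linarith
    exact (dil_psi_smooth hζ).contDiffAt.comp t (Real.contDiffAt_sqrt ht0)

theorem dil_phi_deriv {R : ℝ} {ζ : ℝ → ℝ} (hζ : Continuous ζ) {δ : ℝ} (h : ∀ t < δ, ζ t = 0)
    (hδ : 0 < δ) (t : ℝ) :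
    HasDerivAt (dil_phi R ζ) (-(ζ (Real.sqrt t) / (2 * Real.sqrt t))) t := by
  rcases lt_or_ge t (δ ^ 2) with ht | ht
  · have h1 : ζ (Real.sqrt t) = 0 := by
      apply h
      rw [Real.sqrt_lt' hδ]
      exact ht
    rw [h1, zero_div, neg_zero]
    exact (hasDerivAt_const t _).congr_of_eventuallyEq (dil_phi_near hζ h hδ ht)
  · have ht0 : t ≠ 0 := by
      have : 0 < δ ^ 2 := by positivity
      linarith
    have h1 := (dil_psi_deriv (R := R) hζ (Real.sqrt t)).comp t (Real.hasDerivAt_sqrt ht0)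
    refine HasDerivAt.congr_deriv (f := dil_phi R ζ) h1 ?_
    ring

/-- a locally integrable function that is nonnegative against nonnegative test functions -/
theorem dil_nonneg {f : ℝ → ℝ} (hf : Measurable f) {δ R' : ℝ} (hfi : IntegrableOn f (Ioo δ R'))
    (h : ∀ ζ : ℝ → ℝ, ContDiff ℝ ∞ ζ → HasCompactSupport ζ → tsupport ζ ⊆ Ioo δ R' →
      (∀ t, 0 ≤ ζ t) → 0 ≤ ∫ t in Ioo δ R', ζ t * f t) :
    ∀ᵐ t ∂(volume.restrict (Ioo δ R')), 0 ≤ f t := by
  have hfn : Measurable (fun r => -(f r)) := hf.neg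
  set μ₁ := (volume.restrict (Ioo δ R')).withDensity (fun r => ENNReal.ofReal (-(f r))) with hμ₁
  set μ₂ := (volume.restrict (Ioo δ R')).withDensity (fun r => ENNReal.ofReal (f r)) with hμ₂
  have f1 : IsFiniteMeasure μ₁ := isFiniteMeasure_withDensity_ofReal hfi.neg.2
  have f2 : IsFiniteMeasure μ₂ := isFiniteMeasure_withDensity_ofReal hfi.2
  have hPm : MeasurableSet (Ioo δ R' ∩ {r | f r < 0}) :=
    measurableSet_Ioo.inter (measurableSet_lt hf measurable_const)
  have hle : μ₁ (Ioo δ R' ∩ {r | f r < 0}) ≤ μ₂ (Ioo δ R' ∩ {r | f r < 0}) := by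
    refine measure_le_of_smooth (fun ζ hζ hζc hζs hζ0 => ?_) hPm inter_subset_left
    obtain ⟨B, hB⟩ := hζ.continuous.bounded_above_of_compact_support hζc
    rw [hμ₁, hμ₂, integral_withDensity_eq_integral_toReal_smul hfn.ennreal_ofReal (by simp),
      integral_withDensity_eq_integral_toReal_smul hf.ennreal_ofReal (by simp)]
    have i1 : IntegrableOn (fun r => ζ r * max (f r) 0) (Ioo δ R') :=
      hfi.pos_part.bdd_mul hζ.continuous.aestronglyMeasurable (Eventually.of_forall hB)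
    have i2 : IntegrableOn (fun r => ζ r * max (-(f r)) 0) (Ioo δ R') :=
      hfi.neg_part.bdd_mul hζ.continuous.aestronglyMeasurable (Eventually.of_forall hB)
    have e1 : ∫ r in Ioo δ R', ζ r * f r = (∫ r in Ioo δ R', ζ r * max (f r) 0) -
        ∫ r in Ioo δ R', ζ r * max (-(f r)) 0 := by
      rw [← integral_sub i1 i2]
      apply integral_congr_ae
      refine Eventually.of_forall fun r => ?_
      simp only
      rw [← mul_sub, max_zero_sub_max_neg_zero_eq_self]
    have h1 := h ζ hζ hζc hζs hζ0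
    rw [e1] at h1
    have e2 : ∫ r in Ioo δ R', (ENNReal.ofReal (-(f r))).toReal • ζ r =
        ∫ r in Ioo δ R', ζ r * max (-(f r)) 0 := by
      apply integral_congr_ae
      refine Eventually.of_forall fun r => ?_
      simp only [ENNReal.toReal_ofReal', smul_eq_mul]
      ring
    have e3 : ∫ r in Ioo δ R', (ENNReal.ofReal (f r)).toReal • ζ r =
        ∫ r in Ioo δ R', ζ r * max (f r) 0 := by
      apply integral_congr_ae
      refine Eventually.of_forall fun r => ?_
      simp only [ENNReal.toReal_ofReal', smul_eq_mul]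
      ring
    rw [e2, e3]
    linarith
  rw [hμ₁, hμ₂, withDensity_apply _ hPm, withDensity_apply _ hPm, Measure.restrict_restrict hPm,
    inter_eq_left.2 inter_subset_left] at hle
  have h2 : ∫⁻ r in Ioo δ R' ∩ {r | f r < 0}, ENNReal.ofReal (f r) = 0 := by
    rw [setLIntegral_congr_fun hPm (g := fun _ => 0) (fun x hx => by
      simp only
      rw [ENNReal.ofReal_eq_zero]
      exact (show f x < 0 from hx.2).le)]
    simp
  rw [h2, nonpos_iff_eq_zero, lintegral_eq_zero_iff hfn.ennreal_ofReal] at hle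
  rw [EventuallyEq, ae_restrict_iff' hPm] at hle
  rw [ae_restrict_iff' measurableSet_Ioo]
  filter_upwards [hle] with t ht ht'
  by_contra hcon
  push Not at hcon
  have h3 : ENNReal.ofReal (-(f t)) = 0 := ht ⟨ht', hcon⟩
  rw [ENNReal.ofReal_eq_zero] at h3
  linarith


/-- the radial vector field -/
noncomputable def dil_X (R : ℝ) (ζ : ℝ → ℝ) (a x : ℂ) : ℂ :=
  dil_phi R ζ (‖x - a‖ ^ 2) • (x - a)

theorem dil_X_smooth {R : ℝ} {ζ : ℝ → ℝ} (hζ : ContDiff ℝ ∞ ζ) {δ : ℝ} (h : ∀ t < δ, ζ t = 0)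
    (hδ : 0 < δ) (a : ℂ) : ContDiff ℝ ∞ (dil_X R ζ a) := by
  have h1 : ContDiff ℝ ∞ (fun x : ℂ => x - a) := contDiff_id.sub contDiff_const
  exact ((dil_phi_smooth hζ h hδ).comp (h1.norm_sq ℝ)).smul h1

theorem dil_phi_sq (R : ℝ) (ζ : ℝ → ℝ) (x a : ℂ) :
    dil_phi R ζ (‖x - a‖ ^ 2) = dil_psi R ζ (dist x a) := by
  rw [dil_phi, Real.sqrt_sq (norm_nonneg _), Complex.dist_eq]

theorem dil_X_fderiv {R : ℝ} {ζ : ℝ → ℝ} (hζ : Continuous ζ) {δ : ℝ} (h : ∀ t < δ, ζ t = 0)
    (hδ : 0 < δ) (a x v : ℂ) : fderiv ℝ (dil_X R ζ a) x v =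
      dil_psi R ζ (dist x a) • v -
        (ζ (dist x a) / dist x a * inner ℝ (x - a) v) • (x - a) := by
  have h1 : HasFDerivAt (fun x : ℂ => x - a) (ContinuousLinearMap.id ℝ ℂ) x :=
    (hasFDerivAt_id x).sub_const a
  have h2 := h1.norm_sq
  have h3 := (dil_phi_deriv (R := R) hζ h hδ (‖x - a‖ ^ 2)).comp_hasFDerivAt x h2
  have h4 := h3.smul h1
  have h5 : fderiv ℝ (dil_X R ζ a) x = _ := h4.fderiv
  rw [h5, Function.comp_apply, dil_phi_sq, Real.sqrt_sq (norm_nonneg _), ← Complex.dist_eq]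
  simp only [_root_.add_apply, _root_.smul_apply,
    ContinuousLinearMap.smulRight_apply, ContinuousLinearMap.comp_apply,
    ContinuousLinearMap.id_apply, innerSL_apply_apply]
  rcases eq_or_ne (dist x a) 0 with h0 | h0
  · rw [h0, h 0 hδ]
    simp
  · have h6 : -(ζ (dist x a) / (2 * dist x a)) • 2 • (inner ℝ (x - a) v : ℝ) =
        -(ζ (dist x a) / dist x a * inner ℝ (x - a) v) := by
      simp only [smul_eq_mul, nsmul_eq_mul, Nat.cast_ofNat]
      field_simp
    rw [h6, neg_smul, ← sub_eq_add_neg]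

theorem dil_X_dv {R : ℝ} {ζ : ℝ → ℝ} (hζ : Continuous ζ) {δ : ℝ} (h : ∀ t < δ, ζ t = 0)
    (hδ : 0 < δ) (a x : ℂ) : dv (dil_X R ζ a) x =
      2 * dil_psi R ζ (dist x a) - dist x a * ζ (dist x a) := by
  have h0 : ‖x - a‖ ^ 2 = (x - a).re ^ 2 + (x - a).im ^ 2 := by
    rw [← Complex.normSq_eq_norm_sq, Complex.normSq_apply]
    ring
  rw [dv, dil_X_fderiv hζ h hδ, dil_X_fderiv hζ h hδ]
  have e1 : inner ℝ (x - a) (1 : ℂ) = (x - a).re := by simp [Complex.inner]
  have e2 : inner ℝ (x - a) Complex.I = (x - a).im := by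
    simp [Complex.inner]
    ring
  rw [e1, e2]
  simp only [Complex.sub_re, Complex.sub_im, Complex.real_smul, Complex.mul_re, Complex.mul_im,
    Complex.ofReal_re, Complex.ofReal_im, Complex.I_im, Complex.I_re, zero_mul,
    mul_one, sub_zero, add_zero, mul_zero]
  rcases eq_or_ne (dist x a) 0 with h1 | h1
  · rw [h1, h 0 hδ]
    simp
    ring
  · have h2 : dist x a ^ 2 = (x.re - a.re) ^ 2 + (x.im - a.im) ^ 2 := by
      rw [Complex.dist_eq, h0]
      simp
    field_simp
    linear_combination (ζ (dist x a)) * h2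


theorem dil_X_supp {R : ℝ} {ζ : ℝ → ℝ} {R' : ℝ} (h : ∀ t, R' ≤ t → ζ t = 0) (hR : R' < R)
    (a : ℂ) : tsupport (dil_X R ζ a) ⊆ closedBall a R' := by
  refine closure_minimal ?_ isClosed_closedBall
  intro x hx
  by_contra hcon
  rw [mem_closedBall, not_le] at hcon
  apply hx
  rw [dil_X, dil_phi_sq, dil_psi_zero h hR hcon.le, zero_smul]

theorem dil_meas_T {g : ℂ → ℂ} (hg : Measurable g) (a : ℂ) : Measurable (Tq g a) := by
  unfold Tq
  refine measurable_id.mul ?_
  have h1 : Measurable (fun p : ℝ × ℝ => (inner ℝ (g (pc a p.1 p.2)) (et p.2)) ^ 2) :=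
    ((hg.comp (polar_pc_cont a).measurable).inner
      (polar_et_cont.measurable.comp measurable_snd)).pow_const 2
  exact (h1.stronglyMeasurable.integral_prod_right'
    (ν := volume.restrict (Ioo (-Real.pi) Real.pi))).measurable

theorem dil_meas_V {g : ℂ → ℂ} (hg : Measurable g) (a : ℂ) : Measurable (Vq g a) := by
  unfold Vq
  refine measurable_id.mul ?_
  have h1 : Measurable (fun p : ℝ × ℝ => (inner ℝ (g (pc a p.1 p.2)) (er p.2)) ^ 2) :=
    ((hg.comp (polar_pc_cont a).measurable).inner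
      (polar_er_cont.measurable.comp measurable_snd)).pow_const 2
  exact (h1.stronglyMeasurable.integral_prod_right'
    (ν := volume.restrict (Ioo (-Real.pi) Real.pi))).measurable

theorem dil_L_int {S : Set ℂ} {a : ℂ} {R R' : ℝ} (hR' : R' < R)
    (hfin : ∀ t < R, (μH[1] : Measure ℂ) (S ∩ ball a t) < ⊤)
    {ζ : ℝ → ℝ} (hζ : Continuous ζ) (hζb : ∃ B, ∀ t, ‖ζ t‖ ≤ B) (hζR : ∀ t, R' ≤ t → ζ t = 0) :
    IntegrableOn (fun t => ζ t * ((μH[1] : Measure ℂ) (S ∩ ball a t)).toReal) (Ioo 0 R) := by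
  obtain ⟨B, hB⟩ := hζb
  have hB0 : 0 ≤ B := (norm_nonneg _).trans (hB 0)
  have hmono : MonotoneOn (fun t => ((μH[1] : Measure ℂ) (S ∩ ball a t)).toReal) (Ioo 0 R) := by
    intro s hs t ht hst
    exact ENNReal.toReal_mono (hfin t ht.2).ne
      (measure_mono (inter_subset_inter_right _ (ball_subset_ball hst)))
  have hm : AEMeasurable (fun t => ζ t * ((μH[1] : Measure ℂ) (S ∩ ball a t)).toReal)
      (volume.restrict (Ioo 0 R)) :=
    hζ.measurable.aemeasurable.mul (aemeasurable_restrict_of_monotoneOn measurableSet_Ioo hmono)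
  have hc : IntegrableOn (fun _ : ℝ => B * ((μH[1] : Measure ℂ) (S ∩ ball a R')).toReal)
      (Ioo 0 R) := integrableOn_const (by simp) enorm_ne_top
  refine Integrable.mono' hc hm.aestronglyMeasurable ?_
  rw [ae_restrict_iff' measurableSet_Ioo]
  refine Eventually.of_forall fun t ht => ?_
  rcases le_or_gt R' t with h1 | h1
  · rw [hζR t h1, zero_mul, norm_zero]
    positivity
  · rw [norm_mul]
    refine mul_le_mul (hB t) ?_ (norm_nonneg _) hB0
    rw [Real.norm_eq_abs, abs_of_nonneg ENNReal.toReal_nonneg]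
    exact ENNReal.toReal_mono (hfin R' hR').ne
      (measure_mono (inter_subset_inter_right _ (ball_subset_ball h1.le)))

/-- the surface part -/
theorem dil_surface {S K : Set ℂ} {a : ℂ} {R R' : ℝ} (hfinS : (μH[1] : Measure ℂ) (S ∩ K) < ⊤)
    (hK : K ⊆ closedBall a R') (hR' : R' < R)
    (hfin : ∀ t < R, (μH[1] : Measure ℂ) (S ∩ ball a t) < ⊤)
    {ζ : ℝ → ℝ} (hζ : Continuous ζ) (hζb : ∃ B, ∀ t, ‖ζ t‖ ≤ B) (hζ0 : ∀ t, 0 ≤ ζ t)
    (hζR : ∀ t, R' ≤ t → ζ t = 0) :
    ∫ x in S ∩ K, dil_psi R ζ (dist x a) ∂(μH[1] : Measure ℂ) ≤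
      ∫ t in Ioo 0 R, ζ t * ((μH[1] : Measure ℂ) (S ∩ ball a t)).toReal := by
  obtain ⟨B, hB⟩ := hζb
  set ν : Measure ℂ := (μH[1] : Measure ℂ).restrict (S ∩ K) with hν
  have hνf : IsFiniteMeasure ν := ⟨by rw [hν, Measure.restrict_apply_univ]; exact hfinS⟩
  have hae : ∀ᵐ x ∂ν, dist x a ≤ R' := by
    rw [ae_iff]
    have hm : MeasurableSet {x : ℂ | ¬ dist x a ≤ R'} :=
      (measurableSet_le (measurable_id.dist measurable_const) measurable_const).compl
    rw [hν, Measure.restrict_apply hm]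
    have : {x : ℂ | ¬ dist x a ≤ R'} ∩ (S ∩ K) = ∅ := by
      rw [eq_empty_iff_forall_notMem]
      rintro x ⟨h1, -, h2⟩
      exact h1 (hK h2)
    rw [this, measure_empty]
  have hdm : MeasurableSet {p : ℂ × ℝ | dist p.1 a < p.2} :=
    measurableSet_lt (measurable_fst.dist measurable_const) measurable_snd
  set f : ℂ → ℝ → ℝ := fun x t => {p : ℂ × ℝ | dist p.1 a < p.2}.indicator (fun p => ζ p.2) (x, t)
    with hf
  have hfi : Integrable (Function.uncurry f) (ν.prod (volume.restrict (Ioo 0 R))) := by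
    have hm : Measurable (Function.uncurry f) := by
      have : Function.uncurry f = {p : ℂ × ℝ | dist p.1 a < p.2}.indicator (fun p => ζ p.2) := rfl
      rw [this]
      exact (hζ.measurable.comp measurable_snd).indicator hdm
    refine Integrable.mono' (integrable_const B) hm.aestronglyMeasurable
      (Eventually.of_forall fun p => ?_)
    have : Function.uncurry f p = {p : ℂ × ℝ | dist p.1 a < p.2}.indicator (fun p => ζ p.2) p := rfl
    rw [this]
    exact (norm_indicator_le_norm_self _ _).trans (hB _)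
  have h1 : ∫ x, dil_psi R ζ (dist x a) ∂ν = ∫ x, (∫ t in Ioo 0 R, f x t) ∂ν := by
    apply integral_congr_ae
    filter_upwards [hae] with x hx
    rw [dil_psi, intervalIntegral.integral_of_le (hx.trans hR'.le), integral_Ioc_eq_integral_Ioo]
    have h2 : ∀ t, f x t = (Ioi (dist x a)).indicator ζ t := by
      intro t
      simp only [hf, indicator, mem_ofPred_eq, mem_Ioi]
    simp only [h2]
    rw [setIntegral_indicator measurableSet_Ioi]
    congr 2
    ext t
    simp only [mem_inter_iff, mem_Ioo, mem_Ioi]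
    exact ⟨fun h => ⟨⟨dist_nonneg.trans_lt h.1, h.2⟩, h.1⟩, fun h => ⟨h.2, h.1.2⟩⟩
  rw [h1, integral_integral_swap hfi]
  have h3 : ∀ t ∈ Ioo 0 R, ∫ x, f x t ∂ν ≤ ζ t * ((μH[1] : Measure ℂ) (S ∩ ball a t)).toReal := by
    intro t ht
    have h4 : ∀ x, f x t = (ball a t).indicator (fun _ => ζ t) x := by
      intro x
      simp only [hf, indicator, mem_ofPred_eq, mem_ball]
    simp only [h4]
    rw [integral_indicator_const _ measurableSet_ball, smul_eq_mul, mul_comm]
    refine mul_le_mul_of_nonneg_left ?_ (hζ0 t)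
    rw [Measure.real, hν, Measure.restrict_apply measurableSet_ball]
    refine ENNReal.toReal_mono (hfin t ht.2).ne (measure_mono ?_)
    rintro x ⟨h5, h6, -⟩
    exact ⟨h6, h5⟩
  exact setIntegral_mono_on hfi.integral_prod_right (dil_L_int hR' hfin hζ ⟨B, hB⟩ hζR)
    measurableSet_Ioo h3

theorem dil_er_inner (z : ℂ) (x a : ℂ) :
    (inner ℝ (x - a) z : ℝ) = dist x a * inner ℝ z (er (x - a).arg) := by
  conv_lhs => rw [polar_sub_eq x a]
  rw [← Complex.real_smul, real_inner_smul_left, real_inner_comm]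

theorem dil_volume {g : ℂ → ℂ} (hg : Measurable g) {a : ℂ} {R : ℝ}
    (hfin : ∀ s < R, IntegrableOn (fun x => ‖g x‖ ^ 2) (ball a s)) {ζ : ℝ → ℝ}
    (hζ : ContDiff ℝ ∞ ζ) (hc : HasCompactSupport ζ) (hs : tsupport ζ ⊆ Ioo 0 R) {δ : ℝ}
    (h : ∀ t < δ, ζ t = 0) (hδ : 0 < δ) :
    (∫ x in tsupport (dil_X R ζ a), (‖g x‖ ^ 2 * dv (dil_X R ζ a) x -
      2 * inner ℝ (fderiv ℝ (dil_X R ζ a) x (g x)) (g x))) =
      ∫ s in Ioo 0 R, ζ s * (s * (Vq g a s - Tq g a s)) := by
  have hargm : Measurable (fun x : ℂ => (x - a).arg) :=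
    Complex.measurable_arg.comp (measurable_id.sub measurable_const)
  set w : ℂ → ℝ := fun x => dist x a * ((inner ℝ (g x) (er (x - a).arg)) ^ 2 -
    (inner ℝ (g x) (et (x - a).arg)) ^ 2) with hw
  have hwm : Measurable w := (measurable_id.dist measurable_const).mul
    (((hg.inner (polar_er_cont.measurable.comp hargm)).pow_const 2).sub
      ((hg.inner (polar_et_cont.measurable.comp hargm)).pow_const 2))
  have hwb : ∀ x, |w x| ≤ dist x a * ‖g x‖ ^ 2 := by
    intro x
    rw [hw, abs_mul, abs_of_nonneg dist_nonneg]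
    refine mul_le_mul_of_nonneg_left ?_ dist_nonneg
    rw [← polar_pyth (g x) (x - a).arg, abs_le]
    constructor <;> nlinarith [sq_nonneg (inner ℝ (g x) (er (x - a).arg) : ℝ),
      sq_nonneg (inner ℝ (g x) (et (x - a).arg) : ℝ)]
  have hwi : ∀ s < R, IntegrableOn w (ball a s) := fun s hs' => by
    refine Integrable.mono' ((hfin s hs').const_mul |s|) hwm.aestronglyMeasurable ?_
    rw [ae_restrict_iff' measurableSet_ball]
    refine Eventually.of_forall fun x hx => ?_
    rw [Real.norm_eq_abs]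
    refine (hwb x).trans (mul_le_mul_of_nonneg_right ?_ (by positivity))
    exact (mem_ball.1 hx).le.trans (le_abs_self s)
  have hpt : ∀ x, ‖g x‖ ^ 2 * dv (dil_X R ζ a) x -
      2 * inner ℝ (fderiv ℝ (dil_X R ζ a) x (g x)) (g x) = ζ (dist x a) * w x := by
    intro x
    rw [dil_X_dv hζ.continuous h hδ, dil_X_fderiv hζ.continuous h hδ, inner_sub_left,
      real_inner_smul_left, real_inner_smul_left, real_inner_self_eq_norm_sq, dil_er_inner, hw]
    simp only
    rcases eq_or_ne (dist x a) 0 with h1 | h1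
    · rw [h1, h 0 hδ]
      ring
    · rw [← polar_pyth (g x) (x - a).arg]
      field_simp
      ring
  have hoff : ∀ x, x ∉ tsupport (dil_X R ζ a) → ζ (dist x a) * w x = 0 := by
    intro x hx
    rw [← hpt, dv, fderiv_of_notMem_tsupport ℝ hx]
    simp
  have h1 : (∫ x in tsupport (dil_X R ζ a), (‖g x‖ ^ 2 * dv (dil_X R ζ a) x -
      2 * inner ℝ (fderiv ℝ (dil_X R ζ a) x (g x)) (g x))) = ∫ x, ζ (dist x a) * w x := by
    rw [← setIntegral_eq_integral_of_forall_compl_eq_zero hoff]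
    apply integral_congr_ae
    exact Eventually.of_forall fun x => hpt x
  rw [h1, (polar_radial hwi hζ.continuous hc hs).1]
  apply setIntegral_congr_ae measurableSet_Ioo
  have h2 := (Dq_deriv hg hfin).1
  rw [ae_restrict_iff' measurableSet_Ioo] at h2
  filter_upwards [h2] with s hs1 hs2
  have hi := (hs1 hs2).2
  have hpc : Measurable (fun θ => g (pc a s θ)) := hg.comp
    ((polar_pc_cont a).comp (continuous_const.prodMk continuous_id)).measurable
  have i1 : IntegrableOn (fun θ => (inner ℝ (g (pc a s θ)) (et θ)) ^ 2)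
      (Ioo (-Real.pi) Real.pi) := by
    refine Integrable.mono' hi
      ((hpc.inner polar_et_cont.measurable).pow_const 2).aestronglyMeasurable
      (Eventually.of_forall fun θ => ?_)
    rw [Real.norm_eq_abs, abs_of_nonneg (sq_nonneg _), ← polar_pyth (g (pc a s θ)) θ]
    linarith [sq_nonneg (inner ℝ (g (pc a s θ)) (er θ))]
  have i2 : IntegrableOn (fun θ => (inner ℝ (g (pc a s θ)) (er θ)) ^ 2)
      (Ioo (-Real.pi) Real.pi) := by
    refine Integrable.mono' hi
      ((hpc.inner polar_er_cont.measurable).pow_const 2).aestronglyMeasurable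
      (Eventually.of_forall fun θ => ?_)
    rw [Real.norm_eq_abs, abs_of_nonneg (sq_nonneg _), ← polar_pyth (g (pc a s θ)) θ]
    linarith [sq_nonneg (inner ℝ (g (pc a s θ)) (et θ))]
  have h3 : ∫ θ in Ioo (-Real.pi) Real.pi, w (pc a s θ) =
      s * ((∫ θ in Ioo (-Real.pi) Real.pi, (inner ℝ (g (pc a s θ)) (er θ)) ^ 2) -
        ∫ θ in Ioo (-Real.pi) Real.pi, (inner ℝ (g (pc a s θ)) (et θ)) ^ 2) := by
    rw [← integral_sub i2 i1, ← integral_const_mul]
    apply setIntegral_congr_fun measurableSet_Ioo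
    intro θ hθ
    simp only [hw, polar_arg_pc a hs2.1 hθ, polar_dist a hs2.1]
  rw [h3, Tq, Vq]
  ring

theorem dil_main {Ω : Set ℂ} {u : ℂ → ℝ} {g j : ℂ → ℂ} (h : MSMin Ω u g j) {a : ℂ} {R : ℝ}
    (hR : ball a R ⊆ Ω) (hR0 : 0 < R) {ζ : ℝ → ℝ}
    (hζ : ContDiff ℝ ∞ ζ) (hc : HasCompactSupport ζ) (hs : tsupport ζ ⊆ Ioo 0 R)
    (hζ0 : ∀ t, 0 ≤ ζ t) :
    0 ≤ (∫ s in Ioo 0 R, ζ s * (s * (Vq g a s - Tq g a s))) +
      ∫ t in Ioo 0 R, ζ t * Lq Ω u a t := by
  obtain ⟨δ, R', hδ, hδR', hR', hz, hz'⟩ := dil_supp hR0 hc hs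
  have hfinS : ∀ t < R, (μH[1] : Measure ℂ) (discSet Ω u ∩ ball a t) < ⊤ := fun t ht =>
    (measure_mono (inter_subset_inter_right _ ball_subset_closedBall)).trans_lt
      (h.fin_S (closedBall a t) (isCompact_closedBall a t)
        ((closedBall_subset_ball ht).trans hR))
  have hfing : ∀ s < R, IntegrableOn (fun x => ‖g x‖ ^ 2) (ball a s) := fun s hs' =>
    (h.fin_g (closedBall a s) (isCompact_closedBall a s)
      ((closedBall_subset_ball hs').trans hR)).mono_set ball_subset_closedBall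
  set X := dil_X R ζ a with hXdef
  have hXs : ContDiff ℝ ∞ X := dil_X_smooth hζ hz hδ a
  have hsub : tsupport X ⊆ closedBall a R' := dil_X_supp hz' hR' a
  have hXc : HasCompactSupport X := HasCompactSupport.of_support_subset_isCompact
    (isCompact_closedBall a R') ((subset_tsupport X).trans hsub)
  have hKΩ : tsupport X ⊆ Ω := hsub.trans ((closedBall_subset_ball hR').trans hR)
  set lam : ℂ → ℝ := fun x => dil_psi R ζ (dist x a) with hlam
  have hlc : Continuous lam := (dil_psi_smooth hζ).continuous.comp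
    (continuous_id.dist continuous_const)
  have hb : ∀ x v, inner ℝ (fderiv ℝ X x v) v ≤ lam x * ‖v‖ ^ 2 := by
    intro x v
    rw [hXdef, dil_X_fderiv hζ.continuous hz hδ, inner_sub_left, real_inner_smul_left,
      real_inner_smul_left, real_inner_self_eq_norm_sq]
    have : 0 ≤ ζ (dist x a) / dist x a * inner ℝ (x - a) v * inner ℝ (x - a) v := by
      rw [mul_assoc]
      exact mul_nonneg (div_nonneg (hζ0 _) dist_nonneg) (mul_self_nonneg _)
    linarith
  have hfv := first_variation h hXs hXc hKΩ hlc hb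
  rw [hXdef, dil_volume h.meas_g hfing hζ hc hs hz hδ, ← hXdef] at hfv
  -- nonnegativity of `lam`
  have hψ0 : ∀ x ∈ tsupport X, 0 ≤ lam x := by
    intro x hx
    have : dist x a ≤ R := (hsub hx : dist x a ≤ R').trans hR'.le
    exact intervalIntegral.integral_nonneg this fun t _ => hζ0 t
  have hKc : IsCompact (tsupport X) := hXc
  have hSK : (μH[1] : Measure ℂ) (discSet Ω u ∩ tsupport X) < ⊤ := h.fin_S _ hKc hKΩ
  have hJS := jrep_jump_subset h.isOpen h.intu
  obtain ⟨C, j', hCσ, hCs, hCn, -, -⟩ := jump_rep h.toSBVData hKc hKΩ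
  have hCm : MeasurableSet C := by
    obtain ⟨Kn, hKn, rfl⟩ := hCσ
    exact MeasurableSet.iUnion fun n => (hKn n).measurableSet
  have hCK : C ⊆ tsupport X := hCs.trans inter_subset_right
  have hCSK : C ⊆ discSet Ω u ∩ tsupport X := fun x hx => ⟨hJS (hCs hx).1, hCK hx⟩
  obtain ⟨B, hB⟩ := hKc.exists_bound_of_continuousOn hlc.continuousOn
  have hlint : IntegrableOn lam (discSet Ω u ∩ tsupport X) (μH[1] : Measure ℂ) := by
    have hf : IsFiniteMeasure ((μH[1] : Measure ℂ).restrict (discSet Ω u ∩ tsupport X)) :=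
      ⟨by rw [Measure.restrict_apply_univ]; exact hSK⟩
    refine Integrable.mono' (integrable_const B) hlc.aestronglyMeasurable ?_
    have h1 : ∀ᵐ x ∂((μH[1] : Measure ℂ).restrict (discSet Ω u ∩ tsupport X)),
        x ∈ tsupport X := by
      have hm : MeasurableSet {x | x ∉ tsupport X} := (isClosed_tsupport X).measurableSet.compl
      rw [ae_iff, Measure.restrict_apply hm]
      have : {x | x ∉ tsupport X} ∩ (discSet Ω u ∩ tsupport X) = ∅ := by
        rw [eq_empty_iff_forall_notMem]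
        rintro x ⟨h2, -, h3⟩
        exact h2 h3
      rw [this, measure_empty]
    filter_upwards [h1] with x hx
    exact hB x hx
  have ht1 : ∫ x in tsupport X, tdiv X j x ∂(μH[1] : Measure ℂ) ≤
      ∫ x in C, lam x ∂(μH[1] : Measure ℂ) := by
    have h2 : ∫ x in tsupport X, tdiv X j x ∂(μH[1] : Measure ℂ) =
        ∫ x in C, tdiv X j x ∂(μH[1] : Measure ℂ) := by
      apply setIntegral_eq_of_subset_of_ae_sdiff_eq_zero
        (isClosed_tsupport X).measurableSet.nullMeasurableSet hCK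
      filter_upwards [measure_eq_zero_iff_ae_notMem.1 hCn] with x hx hx'
      have h3 : x ∉ jumpSet Ω u := fun h4 => hx ⟨⟨h4, hx'.1⟩, hx'.2⟩
      have h4 : j x = 0 := by
        by_contra h5
        exact h3 ((jrep_mem_jump_iff h.jf (hKΩ hx'.1)).2 h5)
      rw [tdiv, h4]
      simp
    rw [h2]
    have h3 : ∀ x ∈ C, tdiv X j x ≤ lam x := by
      intro x hx
      have h4 : j x ≠ 0 := (jrep_mem_jump_iff h.jf (hKΩ (hCK hx))).1 (hCs hx).1
      have h5 : 0 < ‖j x‖ ^ 2 := by positivity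
      rw [tdiv, div_le_iff₀ h5]
      have h6 := hb x (Complex.I * j x)
      rwa [norm_mul, Complex.norm_I, one_mul] at h6
    by_cases hint : IntegrableOn (tdiv X j) C (μH[1] : Measure ℂ)
    · exact setIntegral_mono_on hint (hlint.mono_set hCSK) hCm h3
    · rw [integral_undef hint]
      exact setIntegral_nonneg hCm fun x hx => hψ0 x (hCK hx)
  have ht2 : ∫ x in (discSet Ω u \ jumpSet Ω u) ∩ tsupport X, lam x ∂(μH[1] : Measure ℂ) =
      ∫ x in (discSet Ω u ∩ tsupport X) \ C, lam x ∂(μH[1] : Measure ℂ) := by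
    apply setIntegral_congr_set
    filter_upwards [measure_eq_zero_iff_ae_notMem.1 hCn] with x hx
    apply propext
    constructor
    · rintro ⟨⟨h3, h4⟩, h5⟩
      exact ⟨⟨h3, h5⟩, fun h6 => h4 (hCs h6).1⟩
    · rintro ⟨⟨h3, h4⟩, h5⟩
      exact ⟨⟨h3, fun h6 => hx ⟨⟨h6, h4⟩, h5⟩⟩, h4⟩
  have ht3 : (∫ x in C, lam x ∂(μH[1] : Measure ℂ)) +
      ∫ x in (discSet Ω u ∩ tsupport X) \ C, lam x ∂(μH[1] : Measure ℂ) =
      ∫ x in discSet Ω u ∩ tsupport X, lam x ∂(μH[1] : Measure ℂ) := by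
    have := integral_inter_add_sdiff hCm hlint
    rwa [inter_eq_right.2 hCSK] at this
  have ht4 := dil_surface hSK hsub hR' hfinS hζ.continuous
    (hζ.continuous.bounded_above_of_compact_support hc) hζ0 hz'
  have ht5 : ∫ t in Ioo 0 R, ζ t * ((μH[1] : Measure ℂ) (discSet Ω u ∩ ball a t)).toReal =
      ∫ t in Ioo 0 R, ζ t * Lq Ω u a t := rfl
  rw [ht5] at ht4
  rw [ht2] at hfv
  linarith

theorem dilation {Ω : Set ℂ} {u : ℂ → ℝ} {g j : ℂ → ℂ} (h : MSMin Ω u g j) {a : ℂ} {R : ℝ}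
    (hR : ball a R ⊆ Ω) :
    ∀ᵐ s ∂(volume.restrict (Ioo 0 R)), s * (Tq g a s - Vq g a s) ≤ Lq Ω u a s := by
  rcases le_or_gt R 0 with hR0 | hR0
  · rw [Ioo_eq_empty (not_lt.2 hR0)]
    simp
  have hfinS : ∀ t < R, (μH[1] : Measure ℂ) (discSet Ω u ∩ ball a t) < ⊤ := fun t ht =>
    (measure_mono (inter_subset_inter_right _ ball_subset_closedBall)).trans_lt
      (h.fin_S (closedBall a t) (isCompact_closedBall a t)
        ((closedBall_subset_ball ht).trans hR))
  have hfing : ∀ s < R, IntegrableOn (fun x => ‖g x‖ ^ 2) (ball a s) := fun s hs' =>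
    (h.fin_g (closedBall a s) (isCompact_closedBall a s)
      ((closedBall_subset_ball hs').trans hR)).mono_set ball_subset_closedBall
  have hcov : Ioo 0 R = ⋃ n : ℕ, Ioo (1 / ((n : ℝ) + 1)) (R - 1 / ((n : ℝ) + 1)) := by
    ext x
    simp only [mem_iUnion, mem_Ioo]
    constructor
    · rintro ⟨h1, h2⟩
      obtain ⟨n, hn⟩ := exists_nat_one_div_lt (show 0 < min x (R - x) from
        lt_min h1 (by linarith))
      refine ⟨n, hn.trans_le (min_le_left _ _), ?_⟩
      have := hn.trans_le (min_le_right _ _)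
      linarith
    · rintro ⟨n, h1, h2⟩
      have h3 : (0 : ℝ) < 1 / ((n : ℝ) + 1) := by positivity
      exact ⟨h3.trans h1, by linarith⟩
  rw [hcov, ae_restrict_iUnion_iff]
  intro n
  have h3 : (0 : ℝ) < 1 / ((n : ℝ) + 1) := by positivity
  set δ := 1 / ((n : ℝ) + 1) with hδ
  set R' := R - δ with hR'
  have hR'R : R' < R := by linarith
  have hTm := dil_meas_T h.meas_g a
  have hVm := dil_meas_V h.meas_g a
  have hLm : Measurable (Lq Ω u a) := by
    have : Monotone fun t : ℝ => (μH[1] : Measure ℂ) (discSet Ω u ∩ ball a t) :=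
      fun s t hst => measure_mono (inter_subset_inter_right _ (ball_subset_ball hst))
    exact this.measurable.ennreal_toReal
  have hT0 : ∀ s, 0 ≤ s → 0 ≤ Tq g a s := fun s hs =>
    mul_nonneg hs (integral_nonneg fun θ => sq_nonneg _)
  have hV0 : ∀ s, 0 ≤ s → 0 ≤ Vq g a s := fun s hs =>
    mul_nonneg hs (integral_nonneg fun θ => sq_nonneg _)
  have hTVi : IntegrableOn (fun s => Tq g a s + Vq g a s) (Ioo δ R') := by
    have h4 := polar_iter a (measurableSet_Ioo (a := (0 : ℝ)) (b := R')) (fun r hr => hr.1)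
      ((hfing R' hR'R).mono_set fun x hx => hx.2)
    have h5 := h4.2.1.mono_set (Ioo_subset_Ioo_left h3.le : Ioo δ R' ⊆ Ioo 0 R')
    refine h5.congr ?_
    have h6 := (Dq_deriv h.meas_g hfing).1
    rw [ae_restrict_iff' measurableSet_Ioo] at h6
    rw [EventuallyEq, ae_restrict_iff' measurableSet_Ioo]
    filter_upwards [h6] with s hs hs'
    exact (polar_TV h.meas_g a s (hs ⟨h3.trans hs'.1, hs'.2.trans hR'R⟩).2).symm
  have hLi : IntegrableOn (Lq Ω u a) (Ioo δ R') := by
    have hc : IntegrableOn (fun _ : ℝ => Lq Ω u a R') (Ioo δ R') :=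
      integrableOn_const (by simp) enorm_ne_top
    refine Integrable.mono' hc hLm.aestronglyMeasurable ?_
    rw [ae_restrict_iff' measurableSet_Ioo]
    refine Eventually.of_forall fun t ht => ?_
    rw [Lq, Real.norm_eq_abs, abs_of_nonneg ENNReal.toReal_nonneg]
    exact ENNReal.toReal_mono (hfinS R' hR'R).ne
      (measure_mono (inter_subset_inter_right _ (ball_subset_ball ht.2.le)))
  have hTVi' : IntegrableOn (fun s => s * (Vq g a s - Tq g a s)) (Ioo δ R') := by
    refine Integrable.mono' (hTVi.const_mul R')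
      (measurable_id.mul (hVm.sub hTm)).aestronglyMeasurable ?_
    rw [ae_restrict_iff' measurableSet_Ioo]
    refine Eventually.of_forall fun t ht => ?_
    have h4 : 0 < t := h3.trans ht.1
    rw [Real.norm_eq_abs, abs_mul, abs_of_pos h4]
    refine mul_le_mul ht.2.le ?_ (abs_nonneg _) (h4.le.trans ht.2.le)
    rw [abs_le]
    constructor <;> linarith [hT0 t h4.le, hV0 t h4.le]
  have hmain := dil_nonneg (f := fun s => s * (Vq g a s - Tq g a s) + Lq Ω u a s)
    ((measurable_id.mul (hVm.sub hTm)).add hLm) (hTVi'.add hLi) (by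
    intro ζ hζ hc hs hζ0
    have hs' : tsupport ζ ⊆ Ioo 0 R := hs.trans (Ioo_subset_Ioo h3.le hR'R.le)
    obtain ⟨B, hB⟩ := hζ.continuous.bounded_above_of_compact_support hc
    have h4 := dil_main h hR hR0 hζ hc hs' hζ0
    have hz : ∀ F : ℝ → ℝ, ∫ s in Ioo 0 R, ζ s * F s = ∫ s in Ioo δ R', ζ s * F s := by
      intro F
      apply setIntegral_eq_of_subset_of_forall_sdiff_eq_zero measurableSet_Ioo
        (Ioo_subset_Ioo h3.le hR'R.le)
      intro r hr
      rw [image_eq_zero_of_notMem_tsupport fun h' => hr.2 (hs h'), zero_mul]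
    rw [hz (fun s => s * (Vq g a s - Tq g a s)), hz (Lq Ω u a)] at h4
    have i1 : IntegrableOn (fun s => ζ s * (s * (Vq g a s - Tq g a s))) (Ioo δ R') :=
      hTVi'.bdd_mul hζ.continuous.aestronglyMeasurable (Eventually.of_forall hB)
    have i2 : IntegrableOn (fun s => ζ s * Lq Ω u a s) (Ioo δ R') :=
      hLi.bdd_mul hζ.continuous.aestronglyMeasurable (Eventually.of_forall hB)
    rw [← integral_add i1 i2] at h4
    refine h4.trans (le_of_eq ?_)
    apply integral_congr_ae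
    refine Eventually.of_forall fun s => ?_
    simp only
    ring)
  filter_upwards [hmain] with s hs
  linarith

end Pool.Agent.MP099f24
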