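import Pool.Agent.Lib.MP_099f24_an.SD.Defs
import Pool.Agent.Lib.MP_099f24_an.SD.Wirt
import Pool.Agent.Lib.MP_099f24_an.SD.Polar
import Pool.Agent.Lib.MP_099f24_an.SD.Slice
import Pool.Agent.Lib.MP_099f24_an.SD.Outer

/-!
# MP_099f24_an, module FLUX

The flux identity on almost every circle, for local minimizers of the Mumford-Shah energy, and the
resulting bounds of the Dirichlet energy in a disc.
-/

namespace Pool.Agent.MP099f24

open MeasureTheory Filter Topology Set Metric
open scoped ENNReal ContDiff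
/-! ### elementary facts on polar coordinates -/

theorem flux_norm_er (θ : ℝ) : ‖er θ‖ = 1 := by
  simp [er, Complex.norm_exp_ofReal_mul_I]

theorem flux_norm_et (θ : ℝ) : ‖et θ‖ = 1 := by
  simp [et, Complex.norm_exp_ofReal_mul_I]

theorem flux_pc_sub (a : ℂ) (r θ : ℝ) : pc a r θ - a = r • er θ := by
  simp [pc, Complex.real_smul]

theorem flux_norm_pc (a : ℂ) {r : ℝ} (hr : 0 ≤ r) (θ : ℝ) : ‖pc a r θ - a‖ = r := by
  rw [flux_pc_sub, norm_smul, flux_norm_er, mul_one, Real.norm_of_nonneg hr]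

theorem flux_cont_er : Continuous er := by
  unfold er; fun_prop

theorem flux_cont_et : Continuous et := by
  unfold et; fun_prop

theorem flux_cont_pc (a : ℂ) (r : ℝ) : Continuous (pc a r) := by
  unfold pc; have := flux_cont_er; fun_prop

theorem flux_cont_pc2 (a : ℂ) : Continuous (fun p : ℝ × ℝ => pc a p.1 p.2) := by
  unfold pc
  have := flux_cont_er
  fun_prop

theorem flux_er_per (θ : ℝ) : er (θ + 2 * Real.pi) = er θ := by
  unfold er
  push_cast
  rw [add_mul, Complex.exp_add, Complex.exp_two_pi_mul_I, mul_one]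

theorem flux_et_per (θ : ℝ) : et (θ + 2 * Real.pi) = et θ := by
  have : ∀ t, et t = Complex.I * er t := fun t => rfl
  rw [this, this, flux_er_per]

theorem flux_pc_per (a : ℂ) (r θ : ℝ) : pc a r (θ + 2 * Real.pi) = pc a r θ := by
  simp [pc, flux_er_per]

/-! ### the radial cut-off -/

/-- the radial primitive -/
noncomputable def flux_chi (ζ : ℝ → ℝ) (R r : ℝ) : ℝ := ∫ t in r..R, ζ t

theorem flux_chi_deriv {ζ : ℝ → ℝ} (hζ : Continuous ζ) (R r : ℝ) :
    HasDerivAt (flux_chi ζ R) (-ζ r) r := by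
  have h1 : HasDerivAt (fun r => ∫ t in R..r, ζ t) (ζ r) r :=
    intervalIntegral.integral_hasDerivAt_right (hζ.intervalIntegrable _ _)
      (hζ.stronglyMeasurableAtFilter _ _) hζ.continuousAt
  have h2 : flux_chi ζ R = fun r => -∫ t in R..r, ζ t := by
    funext r
    rw [flux_chi, intervalIntegral.integral_symm]
  rw [h2]
  exact h1.neg

theorem flux_chi_smooth {ζ : ℝ → ℝ} (hζ : ContDiff ℝ ∞ ζ) (R : ℝ) :
    ContDiff ℝ ∞ (flux_chi ζ R) := by
  rw [contDiff_infty_iff_deriv]
  have hd : deriv (flux_chi ζ R) = fun r => -ζ r := by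
    funext r
    exact (flux_chi_deriv hζ.continuous R r).deriv
  exact ⟨fun r => (flux_chi_deriv hζ.continuous R r).differentiableAt, by
    rw [hd]; exact hζ.neg⟩

theorem flux_chi_zero {ζ : ℝ → ℝ} {R R' : ℝ} (h0 : ∀ r, R' ≤ r → ζ r = 0) {r : ℝ}
    (hr : R' ≤ r) (hR : R' ≤ R) : flux_chi ζ R r = 0 := by
  unfold flux_chi
  apply intervalIntegral.integral_zero_ae
  refine Eventually.of_forall fun t ht => h0 t ?_
  rw [uIoc, mem_Ioc] at ht
  exact (le_min hr hR).trans ht.1.le

theorem flux_chi_const {ζ : ℝ → ℝ} (hζ : Continuous ζ) {R δ : ℝ} (h0 : ∀ r, r ≤ δ → ζ r = 0)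
    {r : ℝ} (hr : r ≤ δ) : flux_chi ζ R r = flux_chi ζ R δ := by
  unfold flux_chi
  rw [← intervalIntegral.integral_add_adjacent_intervals (hζ.intervalIntegrable r δ)
    (hζ.intervalIntegrable δ R)]
  have : ∫ t in r..δ, ζ t = 0 := by
    apply intervalIntegral.integral_zero_ae
    refine Eventually.of_forall fun t ht => h0 t ?_
    rw [uIoc_of_le hr] at ht
    exact ht.2
  rw [this, zero_add]

theorem flux_psi_fderiv {ζ : ℝ → ℝ} (hζ : ContDiff ℝ ∞ ζ) {R δ : ℝ} (hδ : 0 < δ)
    (h0 : ∀ r, r ≤ δ → ζ r = 0) (a x : ℂ) :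
    ContDiffAt ℝ ∞ (fun x : ℂ => flux_chi ζ R ‖x - a‖) x ∧ ∀ v : ℂ,
      fderiv ℝ (fun x : ℂ => flux_chi ζ R ‖x - a‖) x v =
        -(ζ ‖x - a‖ / ‖x - a‖ * inner ℝ (x - a) v) := by
  by_cases hx : x = a
  · have hev : (fun x : ℂ => flux_chi ζ R ‖x - a‖) =ᶠ[𝓝 x] fun _ => flux_chi ζ R δ := by
      filter_upwards [Metric.ball_mem_nhds x hδ] with y hy
      refine flux_chi_const hζ.continuous h0 ?_
      rw [mem_ball, dist_eq_norm, hx] at hy
      exact hy.le
    refine ⟨contDiffAt_const.congr_of_eventuallyEq hev, fun v => ?_⟩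
    rw [hev.fderiv_eq, hx]
    simp
  · have hne : x - a ≠ 0 := sub_ne_zero.2 hx
    have hpos : 0 < ‖x - a‖ := norm_pos_iff.2 hne
    have hn : ContDiffAt ℝ ∞ (fun x : ℂ => ‖x - a‖) x :=
      (contDiffAt_norm ℝ hne).comp x (contDiffAt_id.sub contDiffAt_const)
    refine ⟨((flux_chi_smooth hζ R).contDiffAt).comp x hn, fun v => ?_⟩
    have h2 : HasFDerivAt (fun x : ℂ => ‖x - a‖ ^ 2) (2 • (innerSL ℝ (x - a))) x := by
      have := ((hasFDerivAt_id (𝕜 := ℝ) x).sub_const a).norm_sq
      simpa using this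
    have h3 : HasFDerivAt (fun x : ℂ => ‖x - a‖) (‖x - a‖⁻¹ • (innerSL ℝ (x - a))) x := by
      have h4 := h2.sqrt (by positivity)
      have h5 : (fun x : ℂ => √(‖x - a‖ ^ 2)) = fun x => ‖x - a‖ := by
        funext y; rw [Real.sqrt_sq (norm_nonneg _)]
      rw [h5, Real.sqrt_sq (norm_nonneg _)] at h4
      have h8 : (1 / (2 * ‖x - a‖)) • 2 • (innerSL ℝ) (x - a) = ‖x - a‖⁻¹ • (innerSL ℝ (x - a)) := by
        rw [← Nat.cast_smul_eq_nsmul ℝ, smul_smul]
        congr 1
        push_cast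
        field_simp
      rwa [h8] at h4
    have h6 := (flux_chi_deriv hζ.continuous R ‖x - a‖).comp_hasFDerivAt x h3
    have h7 : fderiv ℝ (fun x : ℂ => flux_chi ζ R ‖x - a‖) x =
        (-ζ ‖x - a‖) • (‖x - a‖⁻¹ • (innerSL ℝ (x - a))) := h6.fderiv
    rw [h7]
    simp only [smul_apply, innerSL_apply_apply, smul_eq_mul]
    ring

/-! ### one dimensional Fubini -/

theorem flux_fub {Φ ζ : ℝ → ℝ} {R : ℝ} (hΦ : IntegrableOn Φ (Ioo 0 R)) (hζ : Continuous ζ) :
    ∫ t in Ioo 0 R, flux_chi ζ R t * Φ t = ∫ r in Ioo 0 R, ζ r * ∫ t in Ioo 0 r, Φ t := by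
  set μ := (volume : Measure ℝ).restrict (Ioo 0 R) with hμ
  have hb : ∃ C, ∀ r ∈ Icc (0:ℝ) R, ‖ζ r‖ ≤ C :=
    isCompact_Icc.exists_bound_of_continuousOn hζ.continuousOn
  obtain ⟨C, hC⟩ := hb
  have hζi : Integrable ζ μ :=
    (hζ.integrableOn_Icc (a := 0) (b := R)).mono_set Ioo_subset_Icc_self
  have hprod : Integrable (fun p : ℝ × ℝ => ({p : ℝ × ℝ | p.1 < p.2}).indicator
      (fun p => ζ p.2 * Φ p.1) p) (μ.prod μ) := by
    refine Integrable.indicator ?_ (measurableSet_lt measurable_fst measurable_snd)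
    have := Integrable.mul_prod (μ := μ) (ν := μ) hΦ hζi
    refine this.congr (Eventually.of_forall fun p => ?_)
    simp only
    ring
  have hswap := integral_integral_swap (f := fun t r => ({p : ℝ × ℝ | p.1 < p.2}).indicator
      (fun p => ζ p.2 * Φ p.1) (t, r)) hprod
  have h1 : ∀ t ∈ Ioo (0:ℝ) R, flux_chi ζ R t * Φ t = ∫ r, ({p : ℝ × ℝ | p.1 < p.2}).indicator
      (fun p => ζ p.2 * Φ p.1) (t, r) ∂μ := by
    intro t ht
    have e1 : ∀ r, ({p : ℝ × ℝ | p.1 < p.2}).indicator (fun p => ζ p.2 * Φ p.1) (t, r) =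
        (Ioi t).indicator (fun r => ζ r * Φ t) r := by
      intro r
      by_cases h : t < r
      · rw [indicator_of_mem (show (t, r) ∈ {p : ℝ × ℝ | p.1 < p.2} from h),
          indicator_of_mem (show r ∈ Ioi t from h)]
      · rw [indicator_of_notMem (show (t, r) ∉ {p : ℝ × ℝ | p.1 < p.2} from h),
          indicator_of_notMem (show r ∉ Ioi t from h)]
    simp_rw [e1]
    rw [integral_indicator measurableSet_Ioi, hμ, Measure.restrict_restrict measurableSet_Ioi,
      integral_mul_const, flux_chi, intervalIntegral.integral_of_le ht.2.le,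
      integral_Ioc_eq_integral_Ioo]
    congr 2
    congr 1
    ext r
    simp only [mem_inter_iff, mem_Ioo, mem_Ioi]
    exact ⟨fun h => ⟨h.1, ht.1.trans h.1, h.2⟩, fun h => ⟨h.1, h.2.2⟩⟩
  have h2 : ∀ r ∈ Ioo (0:ℝ) R, ζ r * ∫ t in Ioo 0 r, Φ t =
      ∫ t, ({p : ℝ × ℝ | p.1 < p.2}).indicator (fun p => ζ p.2 * Φ p.1) (t, r) ∂μ := by
    intro r hr
    have e1 : ∀ t, ({p : ℝ × ℝ | p.1 < p.2}).indicator (fun p => ζ p.2 * Φ p.1) (t, r) =
        (Iio r).indicator (fun t => ζ r * Φ t) t := by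
      intro t
      by_cases h : t < r
      · rw [indicator_of_mem (show (t, r) ∈ {p : ℝ × ℝ | p.1 < p.2} from h),
          indicator_of_mem (show t ∈ Iio r from h)]
      · rw [indicator_of_notMem (show (t, r) ∉ {p : ℝ × ℝ | p.1 < p.2} from h),
          indicator_of_notMem (show t ∉ Iio r from h)]
    simp_rw [e1]
    rw [integral_indicator measurableSet_Iio, hμ, Measure.restrict_restrict measurableSet_Iio,
      integral_const_mul]
    congr 2
    congr 1
    ext t
    simp only [mem_inter_iff, mem_Ioo, mem_Iio]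
    exact ⟨fun h => ⟨h.2, h.1, h.2.trans hr.2⟩, fun h => ⟨h.2.1, h.1⟩⟩
  rw [setIntegral_congr_fun measurableSet_Ioo h1, setIntegral_congr_fun measurableSet_Ioo h2]
  exact hswap

/-! ### the flux identity -/

theorem flux_loc {Ω : Set ℂ} {u : ℂ → ℝ} {g j : ℂ → ℂ} (h : SBVData Ω u g j) {a : ℂ} {R : ℝ}
    (hR : ball a R ⊆ Ω) {s : ℝ} (hs : s < R) :
    IntegrableOn (fun x => ‖g x‖ ^ 2) (ball a s) ∧ IntegrableOn g (ball a s) := by
  have h1 : closedBall a s ⊆ Ω := (closedBall_subset_ball hs).trans hR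
  exact ⟨(h.fin_g _ (isCompact_closedBall a s) h1).mono_set ball_subset_closedBall,
    (h.intg.integrableOn_compact_subset h1 (isCompact_closedBall a s)).mono_set
      ball_subset_closedBall⟩

theorem flux_ball_ae (a : ℂ) (s : ℝ) :
    (ball a s : Set ℂ) =ᵐ[volume] {x | dist x a ∈ Ioo 0 s} := by
  have h1 : {x : ℂ | dist x a ∈ Ioo 0 s} = ball a s \ {a} := by
    ext x
    simp only [Set.mem_ofPred_eq, mem_Ioo, Set.mem_sdiff, mem_ball, mem_singleton_iff, dist_pos]
    exact ⟨fun h => ⟨h.2, h.1⟩, fun h => ⟨h.2, h.1⟩⟩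
  rw [h1]
  exact (sdiff_null_ae_eq_self (by simp)).symm

/-- the integral over a ball as an iterated integral -/
theorem flux_ball_integral {a : ℂ} {s : ℝ} {F : ℂ → ℝ} (hF : IntegrableOn F (ball a s)) :
    IntegrableOn (fun t => ∫ θ in Ioo (-Real.pi) Real.pi, t * F (pc a t θ)) (Ioo 0 s) ∧
    ∫ x in ball a s, F x = ∫ t in Ioo 0 s, ∫ θ in Ioo (-Real.pi) Real.pi, t * F (pc a t θ) := by
  have h0 : IntegrableOn F {x | dist x a ∈ Ioo 0 s} :=
    hF.congr_set_ae (flux_ball_ae a s).symm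
  have h1 := (polar_integrable a measurableSet_Ioo (fun t (ht : t ∈ Ioo 0 s) => ht.1) F).1 h0
  simp only [smul_eq_mul] at h1
  have h2 : Integrable (fun p : ℝ × ℝ => p.1 * F (pc a p.1 p.2))
      ((volume.restrict (Ioo 0 s)).prod (volume.restrict (Ioo (-Real.pi) Real.pi))) := by
    rw [Measure.prod_restrict]; exact h1
  refine ⟨h2.integral_prod_left, ?_⟩
  rw [setIntegral_congr_set (flux_ball_ae a s),
    polar_integral a measurableSet_Ioo (fun t (ht : t ∈ Ioo 0 s) => ht.1) F]
  simp only [smul_eq_mul]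
  rw [Measure.volume_eq_prod, ← Measure.prod_restrict, integral_prod _ h2]

theorem flux_id {Ω : Set ℂ} {u : ℂ → ℝ} {g j : ℂ → ℂ} (h : MSMin Ω u g j) {a : ℂ} {R : ℝ}
    (hR : ball a R ⊆ Ω) {κ : ℝ → ℝ}
    (hκ : ContDiff ℝ ∞ κ) {M : ℝ} (hM : ∀ t, |κ t| ≤ M ∧ |deriv κ t| ≤ M) :
    ∀ᵐ s ∂(volume.restrict (Ioo 0 R)), ∫ x in ball a s, deriv κ (u x) * ‖g x‖ ^ 2 =
      s * ∫ θ in Ioo (-Real.pi) Real.pi, κ (u (pc a s θ)) * inner ℝ (g (pc a s θ)) (er θ) := by
  have hκ' : Continuous (deriv κ) := hκ.continuous_deriv (by simp)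
  set F : ℂ → ℝ := fun x => deriv κ (u x) * ‖g x‖ ^ 2 with hF
  set B : ℂ → ℝ := fun x => κ (u x) * (inner ℝ (x - a) (g x) / ‖x - a‖) with hB
  have hmF : Measurable F := (hκ'.measurable.comp h.meas_u).mul (h.meas_g.norm.pow_const 2)
  have hmB : Measurable B := by
    refine (hκ.continuous.measurable.comp h.meas_u).mul ?_
    exact ((measurable_id.sub_const a).inner h.meas_g).div ((measurable_id.sub_const a).norm)
  have hFi : ∀ s < R, IntegrableOn F (ball a s) := by
    intro s hs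
    have h1 := (flux_loc h.toSBVData hR hs).1
    refine (h1.const_mul M).mono' hmF.aestronglyMeasurable (Eventually.of_forall fun x => ?_)
    rw [hF, norm_mul, Real.norm_eq_abs, Real.norm_of_nonneg (by positivity)]
    exact mul_le_mul_of_nonneg_right (hM _).2 (by positivity)
  have hBi : ∀ s < R, IntegrableOn B (ball a s) := by
    intro s hs
    have h1 := (flux_loc h.toSBVData hR hs).2
    refine (h1.norm.const_mul M).mono' hmB.aestronglyMeasurable (Eventually.of_forall fun x => ?_)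
    rw [hB, norm_mul, Real.norm_eq_abs]
    refine mul_le_mul (hM _).1 ?_ (norm_nonneg _) ((abs_nonneg _).trans (hM 0).1)
    rw [norm_div, norm_norm]
    rcases eq_or_ne (x - a) 0 with h0 | h0
    · rw [h0]; simp
    · rw [div_le_iff₀ (norm_pos_iff.2 h0), mul_comm]
      exact norm_inner_le_norm _ _
  set Φ : ℝ → ℝ := fun t => ∫ θ in Ioo (-Real.pi) Real.pi, t * F (pc a t θ) with hΦ
  set Bt : ℝ → ℝ := fun t => ∫ θ in Ioo (-Real.pi) Real.pi, t * B (pc a t θ) with hBt
  set A : ℝ → ℝ := fun r => ∫ t in Ioo 0 r, Φ t with hA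
  have hΦi : ∀ s < R, IntegrableOn Φ (Ioo 0 s) := fun s hs => (flux_ball_integral (hFi s hs)).1
  have hBti : ∀ s < R, IntegrableOn Bt (Ioo 0 s) := fun s hs => (flux_ball_integral (hBi s hs)).1
  -- the integral identity
  have key : ∀ ζ : ℝ → ℝ, ContDiff ℝ ∞ ζ → HasCompactSupport ζ → tsupport ζ ⊆ Ioo 0 R →
      ∫ r, ζ r • (A r - Bt r) = 0 := by
    intro ζ hζ hζc hζs
    by_cases hemp : tsupport ζ = ∅
    · have : ζ = 0 := by
        rw [tsupport_eq_empty_iff] at hemp
        exact hemp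
      simp [this]
    -- bounds of the support
    obtain ⟨δ, hδ0, R', hR'0, hR'R, hsub⟩ : ∃ δ > 0, ∃ R' > 0, R' < R ∧
        tsupport ζ ⊆ Icc δ R' := by
      have hne : (tsupport ζ).Nonempty := nonempty_iff_ne_empty.2 hemp
      obtain ⟨x₁, hx₁, hx₁'⟩ := hζc.exists_isMinOn hne continuousOn_id
      obtain ⟨x₂, hx₂, hx₂'⟩ := hζc.exists_isMaxOn hne continuousOn_id
      exact ⟨x₁, (hζs hx₁).1, x₂, (hζs hx₂).1, (hζs hx₂).2, fun y hy => ⟨hx₁' hy, hx₂' hy⟩⟩
    have hz : ∀ r, r ∉ Icc δ R' → ζ r = 0 := fun r hr =>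
      image_eq_zero_of_notMem_tsupport fun hr' => hr (hsub hr')
    have hz0 : ∀ r, r ≤ δ / 2 → ζ r = 0 := fun r hr => hz r fun hr' => by
      linarith [hr'.1]
    have hz1 : ∀ r, (R' + R) / 2 ≤ r → ζ r = 0 := fun r hr => hz r fun hr' => by
      linarith [hr'.2]
    set R₁ := (R' + R) / 2 with hR₁
    have hR₁R : R₁ < R := by rw [hR₁]; linarith
    have hR₁0 : 0 < R₁ := by rw [hR₁]; linarith
    set ψ : ℂ → ℝ := fun x => flux_chi ζ R₁ ‖x - a‖ with hψ
    have hψd := fun x => flux_psi_fderiv hζ (R := R₁) (half_pos hδ0) hz0 a x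
    have hψs : ContDiff ℝ ∞ ψ := contDiff_iff_contDiffAt.2 fun x => (hψd x).1
    have hψ0 : ∀ x, R₁ ≤ ‖x - a‖ → ψ x = 0 := fun x hx =>
      flux_chi_zero hz1 hx le_rfl
    have hts : tsupport ψ ⊆ closedBall a R₁ := by
      refine closure_minimal (fun x hx => ?_) isClosed_closedBall
      by_contra hx'
      rw [mem_closedBall, dist_eq_norm, not_le] at hx'
      exact hx (hψ0 x hx'.le)
    have hψc : HasCompactSupport ψ :=
      (isCompact_closedBall a R₁).of_isClosed_subset (isClosed_tsupport ψ) hts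
    have hout := outer_variation h hψs hψc
      (hts.trans ((closedBall_subset_ball hR₁R).trans hR)) hκ hM
    set H : ℂ → ℝ := fun x => ψ x * F x - ζ ‖x - a‖ * B x with hH
    have hH1 : ∀ x, ψ x * deriv κ (u x) * ‖g x‖ ^ 2 + κ (u x) * fderiv ℝ ψ x (g x) = H x := by
      intro x
      rw [hψ, (hψd x).2, hH, hF, hB]
      simp only [hψ]
      ring
    simp_rw [hH1] at hout
    have hH0 : ∀ x, x ∉ ball a R₁ → H x = 0 := by
      intro x hx
      rw [mem_ball, dist_eq_norm, not_lt] at hx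
      simp only [hH, hψ0 x hx, hz1 _ hx, zero_mul, sub_zero]
    have hsubΩ : ball a R₁ ⊆ Ω := (ball_subset_ball hR₁R.le).trans hR
    rw [setIntegral_eq_of_subset_of_forall_sdiff_eq_zero h.isOpen.measurableSet hsubΩ
      (fun x hx => hH0 x hx.2)] at hout
    have hψF : IntegrableOn (fun x => ψ x * F x) (ball a R₁) := by
      obtain ⟨C, hC⟩ := hψs.continuous.bounded_above_of_compact_support hψc
      exact (hFi R₁ hR₁R).bdd_mul hψs.continuous.aestronglyMeasurable
        (Eventually.of_forall hC)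
    have hζB : IntegrableOn (fun x => ζ ‖x - a‖ * B x) (ball a R₁) := by
      obtain ⟨C, hC⟩ := hζ.continuous.bounded_above_of_compact_support hζc
      have hc : Continuous fun x : ℂ => ζ ‖x - a‖ := hζ.continuous.comp (by fun_prop)
      exact (hBi R₁ hR₁R).bdd_mul hc.aestronglyMeasurable (Eventually.of_forall fun x => hC _)
    rw [hH, integral_sub hψF hζB, (flux_ball_integral hψF).2, (flux_ball_integral hζB).2] at hout
    have e1 : ∫ t in Ioo 0 R₁, ∫ θ in Ioo (-Real.pi) Real.pi, t * (ψ (pc a t θ) * F (pc a t θ)) =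
        ∫ t in Ioo 0 R₁, flux_chi ζ R₁ t * Φ t := by
      refine setIntegral_congr_fun measurableSet_Ioo fun t ht => ?_
      simp only [hΦ]
      rw [← integral_const_mul]
      refine setIntegral_congr_fun measurableSet_Ioo fun θ _ => ?_
      simp only [hψ]
      rw [flux_norm_pc a ht.1.le]
      ring
    have e2 : ∫ t in Ioo 0 R₁, ∫ θ in Ioo (-Real.pi) Real.pi,
        t * (ζ ‖pc a t θ - a‖ * B (pc a t θ)) = ∫ t in Ioo 0 R₁, ζ t * Bt t := by
      refine setIntegral_congr_fun measurableSet_Ioo fun t ht => ?_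
      simp only [hBt]
      rw [← integral_const_mul]
      refine setIntegral_congr_fun measurableSet_Ioo fun θ _ => ?_
      rw [flux_norm_pc a ht.1.le]
      ring
    rw [e1, e2, flux_fub (hΦi R₁ hR₁R) hζ.continuous] at hout
    have hb : ∃ C, ∀ r, ‖ζ r‖ ≤ C := hζ.continuous.bounded_above_of_compact_support hζc
    obtain ⟨C, hC⟩ := hb
    have hAi : IntegrableOn A (Ioo 0 R₁) := by
      have h1 : ContinuousOn (fun r => ∫ t in (0:ℝ)..r, Φ t) (uIcc 0 R₁) := by
        apply intervalIntegral.continuousOn_primitive_interval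
        rw [uIcc_of_le hR₁0.le, integrableOn_Icc_iff_integrableOn_Ioo]
        exact hΦi R₁ hR₁R
      rw [uIcc_of_le hR₁0.le] at h1
      have h2 : IntegrableOn (fun r => ∫ t in (0:ℝ)..r, Φ t) (Ioo 0 R₁) :=
        (h1.integrableOn_Icc).mono_set Ioo_subset_Icc_self
      refine h2.congr_fun (fun r hr => ?_) measurableSet_Ioo
      simp only [hA]
      rw [intervalIntegral.integral_of_le hr.1.le, integral_Ioc_eq_integral_Ioo]
    have i1 : IntegrableOn (fun r => ζ r * A r) (Ioo 0 R₁) :=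
      hAi.bdd_mul hζ.continuous.aestronglyMeasurable (Eventually.of_forall hC)
    have i2 : IntegrableOn (fun r => ζ r * Bt r) (Ioo 0 R₁) :=
      (hBti R₁ hR₁R).bdd_mul hζ.continuous.aestronglyMeasurable (Eventually.of_forall hC)
    rw [← integral_sub i1 i2] at hout
    have e3 : ∫ r, ζ r • (A r - Bt r) = ∫ r in Ioo 0 R₁, (ζ r * A r - ζ r * Bt r) := by
      rw [← setIntegral_eq_integral_of_forall_compl_eq_zero (s := Ioo 0 R₁)]
      · refine setIntegral_congr_fun measurableSet_Ioo fun r _ => ?_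
        simp only [smul_eq_mul]
        ring
      · intro r hr
        have : ζ r = 0 := by
          rw [mem_Ioo, not_and_or, not_lt, not_lt] at hr
          rcases hr with hr | hr
          · exact hz0 r (by linarith)
          · exact hz1 r hr
        rw [this, zero_smul]
    rw [e3]
    exact hout
  have hloc : LocallyIntegrableOn (fun r => A r - Bt r) (Ioo 0 R) := by
    intro x hx
    obtain ⟨s, hxs, hsR⟩ := exists_between hx.2
    refine ⟨Ioo 0 s, mem_nhdsWithin_of_mem_nhds (Ioo_mem_nhds hx.1 hxs), ?_⟩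
    have hs0 : 0 < s := hx.1.trans hxs
    have h1 : ContinuousOn (fun r => ∫ t in (0:ℝ)..r, Φ t) (uIcc 0 s) := by
      apply intervalIntegral.continuousOn_primitive_interval
      rw [uIcc_of_le hs0.le, integrableOn_Icc_iff_integrableOn_Ioo]
      exact hΦi s hsR
    rw [uIcc_of_le hs0.le] at h1
    have h2 : IntegrableOn (fun r => ∫ t in (0:ℝ)..r, Φ t) (Ioo 0 s) :=
      (h1.integrableOn_Icc).mono_set Ioo_subset_Icc_self
    have h3 : IntegrableOn A (Ioo 0 s) := by
      refine h2.congr_fun (fun r hr => ?_) measurableSet_Ioo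
      simp only [hA]
      rw [intervalIntegral.integral_of_le hr.1.le, integral_Ioc_eq_integral_Ioo]
    exact h3.sub (hBti s hsR)
  have hae := isOpen_Ioo.ae_eq_zero_of_integral_contDiff_smul_eq_zero hloc key
  rw [ae_restrict_iff' measurableSet_Ioo]
  filter_upwards [hae] with s hs hsR
  have h1 := hs hsR
  rw [sub_eq_zero] at h1
  have h2 : ∫ x in ball a s, F x = A s := (flux_ball_integral (hFi s hsR.2)).2
  change ∫ x in ball a s, F x = _
  rw [h2, h1, hBt]
  simp only
  rw [← integral_const_mul]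
  refine setIntegral_congr_fun measurableSet_Ioo fun θ _ => ?_
  simp only [hB]
  rw [flux_norm_pc a hsR.1.le, flux_pc_sub, real_inner_smul_left, real_inner_comm]
  have := hsR.1.ne'
  field_simp

/-! ### truncations -/

/-- smooth truncations of the identity -/
noncomputable def flux_bump (n : ℕ) : ContDiffBump (0 : ℝ) where
  rIn := n + 1
  rOut := n + 2
  rIn_pos := by positivity
  rIn_lt_rOut := by linarith

noncomputable def flux_kap (n : ℕ) (t : ℝ) : ℝ := ∫ s in (0:ℝ)..t, flux_bump n s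

theorem flux_kap_deriv (n : ℕ) (t : ℝ) : HasDerivAt (flux_kap n) (flux_bump n t) t :=
  intervalIntegral.integral_hasDerivAt_right ((flux_bump n).continuous.intervalIntegrable _ _)
    ((flux_bump n).continuous.stronglyMeasurableAtFilter _ _) (flux_bump n).continuous.continuousAt

theorem flux_kap_deriv' (n : ℕ) : deriv (flux_kap n) = fun t => flux_bump n t := by
  funext t
  exact (flux_kap_deriv n t).deriv

theorem flux_kap_smooth (n : ℕ) : ContDiff ℝ ∞ (flux_kap n) := by
  rw [contDiff_infty_iff_deriv]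
  exact ⟨fun r => (flux_kap_deriv n r).differentiableAt, by
    rw [flux_kap_deriv']; exact (flux_bump n).contDiff⟩

theorem flux_bump_one {n : ℕ} {t : ℝ} (ht : |t| ≤ n + 1) : flux_bump n t = 1 := by
  apply (flux_bump n).one_of_mem_closedBall
  rw [mem_closedBall, dist_zero_right, Real.norm_eq_abs]
  exact ht

theorem flux_kap_eq {n : ℕ} {t : ℝ} (ht : |t| ≤ n + 1) : flux_kap n t = t := by
  unfold flux_kap
  have : ∫ s in (0:ℝ)..t, flux_bump n s = ∫ s in (0:ℝ)..t, (1:ℝ) := by
    apply intervalIntegral.integral_congr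
    intro s hs
    apply flux_bump_one
    refine le_trans ?_ ht
    rw [mem_uIcc] at hs
    rcases hs with hs | hs
    · rw [abs_of_nonneg hs.1, abs_of_nonneg (hs.1.trans hs.2)]; exact hs.2
    · rw [abs_of_nonpos hs.2, abs_of_nonpos (hs.1.trans hs.2)]; linarith [hs.1]
  rw [this]
  simp

theorem flux_kap_bound (n : ℕ) (t : ℝ) :
    |flux_kap n t| ≤ 2 * (n + 2) ∧ |deriv (flux_kap n) t| ≤ 2 * (n + 2) := by
  have hn : (0:ℝ) ≤ n := Nat.cast_nonneg n
  constructor
  · have hint : Integrable (fun s => flux_bump n s) :=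
      (flux_bump n).continuous.integrable_of_hasCompactSupport (flux_bump n).hasCompactSupport
    have h1 : |flux_kap n t| ≤ ∫ s, flux_bump n s := by
      unfold flux_kap
      rw [← Real.norm_eq_abs]
      refine (intervalIntegral.norm_integral_le_integral_norm_uIoc).trans ?_
      refine (setIntegral_le_integral hint.norm (Eventually.of_forall fun s => norm_nonneg _)).trans
        (le_of_eq ?_)
      refine integral_congr_ae (Eventually.of_forall fun s => ?_)
      simp only
      rw [Real.norm_of_nonneg ((flux_bump n).nonneg)]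
    refine h1.trans ?_
    have h2 : ∫ s, flux_bump n s = ∫ s in Ioo (-((n:ℝ)+2)) (n+2), flux_bump n s := by
      rw [setIntegral_eq_integral_of_forall_compl_eq_zero]
      intro s hs
      have : s ∉ Function.support (flux_bump n) := by
        rw [(flux_bump n).support_eq, mem_ball, dist_zero_right, Real.norm_eq_abs, abs_lt]
        exact hs
      rwa [Function.notMem_support] at this
    rw [h2]
    have h3 : ∫ s in Ioo (-((n:ℝ)+2)) (n+2), flux_bump n s ≤
        ∫ s in Ioo (-((n:ℝ)+2)) (n+2), (1:ℝ) := by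
      refine setIntegral_mono hint.integrableOn (by simp) fun s => (flux_bump n).le_one
    refine h3.trans ?_
    simp only [integral_const, MeasurableSet.univ, measureReal_restrict_apply, univ_inter,
      Real.volume_real_Ioo_of_le (show -((n:ℝ)+2) ≤ n + 2 by linarith), smul_eq_mul, mul_one]
    linarith
  · rw [flux_kap_deriv', abs_of_nonneg (flux_bump n).nonneg]
    exact (flux_bump n).le_one.trans (by linarith)

/-- the limit of the truncated Dirichlet integrals -/
theorem flux_lim {u : ℂ → ℝ} {g : ℂ → ℂ} (hu : Measurable u) (hg : Measurable g) {a : ℂ} {s : ℝ}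
    (hi : IntegrableOn (fun x => ‖g x‖ ^ 2) (ball a s)) :
    Tendsto (fun n : ℕ => ∫ x in ball a s, deriv (flux_kap n) (u x) * ‖g x‖ ^ 2) atTop
      (𝓝 (Dq g a s)) := by
  refine tendsto_integral_of_dominated_convergence (fun x => ‖g x‖ ^ 2) (fun n => ?_) hi
    (fun n => ?_) ?_
  · rw [flux_kap_deriv']
    exact (((flux_bump n).continuous.measurable.comp hu).mul
      (hg.norm.pow_const 2)).aestronglyMeasurable
  · refine Eventually.of_forall fun x => ?_
    rw [flux_kap_deriv', norm_mul, Real.norm_of_nonneg (flux_bump n).nonneg,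
      Real.norm_of_nonneg (by positivity)]
    exact mul_le_of_le_one_left (by positivity) (flux_bump n).le_one
  · refine Eventually.of_forall fun x => ?_
    refine tendsto_const_nhds.congr' ?_
    obtain ⟨N, hN⟩ := exists_nat_ge |u x|
    filter_upwards [eventually_ge_atTop N] with n hn
    rw [flux_kap_deriv']
    simp only
    rw [flux_bump_one, one_mul]
    have : (N:ℝ) ≤ n := by exact_mod_cast hn
    linarith

/-- all the good properties of almost every radius -/
theorem flux_good {Ω : Set ℂ} {u : ℂ → ℝ} {g j : ℂ → ℂ} (h : MSMin Ω u g j) {a : ℂ} {R : ℝ}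
    (hR : ball a R ⊆ Ω) :
    ∀ᵐ s ∂(volume.restrict (Ioo 0 R)), (∀ n : ℕ,
      ∫ x in ball a s, deriv (flux_kap n) (u x) * ‖g x‖ ^ 2 =
      s * ∫ θ in Ioo (-Real.pi) Real.pi,
        flux_kap n (u (pc a s θ)) * inner ℝ (g (pc a s θ)) (er θ)) ∧
      (∫ θ in Ioo (-Real.pi) Real.pi, inner ℝ (g (pc a s θ)) (er θ) = 0) ∧
      IntegrableOn (fun θ => ‖g (pc a s θ)‖ ^ 2) (Ioo (-Real.pi) Real.pi) ∧
      (0 < s ∧ s < R) := by
  have h1 := ae_all_iff.2 fun n : ℕ => flux_id h hR (flux_kap_smooth n) (flux_kap_bound n)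
  have h2 := flux_id h hR (κ := fun _ => 1) contDiff_const (M := 1) (by simp)
  have h3 := (Dq_deriv h.meas_g (a := a) (R := R)
    (fun s hs => (flux_loc h.toSBVData hR hs).1)).1
  filter_upwards [h1, h2, h3, ae_restrict_mem measurableSet_Ioo] with s h1 h2 h3 h4
  refine ⟨h1, ?_, h3.2, h4⟩
  simp only [deriv_const', zero_mul, integral_zero, one_mul] at h2
  have := h2.symm
  rcases mul_eq_zero.1 this with h5 | h5
  · exact absurd h5 h4.1.ne'
  · exact h5

theorem flux_zero {Ω : Set ℂ} {u : ℂ → ℝ} {g j : ℂ → ℂ} (h : MSMin Ω u g j) {a : ℂ} {R : ℝ}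
    (hR : ball a R ⊆ Ω) :
    ∀ᵐ s ∂(volume.restrict (Ioo 0 R)), Vq g a s = 0 → Dq g a s = 0 := by
  filter_upwards [flux_good h hR] with s hs hV
  obtain ⟨h1, -, h3, h4, h5⟩ := hs
  have hmer : Measurable fun θ => (inner ℝ (g (pc a s θ)) (er θ) : ℝ) :=
    (h.meas_g.comp (flux_cont_pc a s).measurable).inner flux_cont_er.measurable
  have hi : IntegrableOn (fun θ => (inner ℝ (g (pc a s θ)) (er θ) : ℝ) ^ 2)
      (Ioo (-Real.pi) Real.pi) := by
    refine h3.mono' (hmer.pow_const 2).aestronglyMeasurable (Eventually.of_forall fun θ => ?_)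
    rw [norm_pow, sq_le_sq₀ (norm_nonneg _) (norm_nonneg _)]
    have := norm_inner_le_norm (𝕜 := ℝ) (g (pc a s θ)) (er θ)
    rwa [flux_norm_er, mul_one] at this
  have h6 : ∫ θ in Ioo (-Real.pi) Real.pi, (inner ℝ (g (pc a s θ)) (er θ) : ℝ) ^ 2 = 0 := by
    rcases mul_eq_zero.1 hV with h7 | h7
    · exact absurd h7 h4.ne'
    · exact h7
  rw [integral_eq_zero_iff_of_nonneg (fun θ => sq_nonneg _) hi] at h6
  have h7 : ∀ n : ℕ, ∫ x in ball a s, deriv (flux_kap n) (u x) * ‖g x‖ ^ 2 = 0 := by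
    intro n
    rw [h1 n]
    have : ∫ θ in Ioo (-Real.pi) Real.pi,
        flux_kap n (u (pc a s θ)) * inner ℝ (g (pc a s θ)) (er θ) = 0 := by
      apply integral_eq_zero_of_ae
      filter_upwards [h6] with θ hθ
      have : (inner ℝ (g (pc a s θ)) (er θ) : ℝ) = 0 := by simpa using hθ
      rw [this]; simp
    rw [this, mul_zero]
  have h8 := flux_lim h.meas_u h.meas_g (flux_loc h.toSBVData hR h5).1
  simp_rw [h7] at h8
  exact (tendsto_nhds_unique h8 tendsto_const_nhds)

/-- the flux identity on circles where `u` is bounded -/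
theorem flux_bdd {Ω : Set ℂ} {u : ℂ → ℝ} {g j : ℂ → ℂ} (h : MSMin Ω u g j) {a : ℂ} {R : ℝ}
    (hR : ball a R ⊆ Ω) :
    ∀ᵐ s ∂(volume.restrict (Ioo 0 R)),
      (∫ θ in Ioo (-Real.pi) Real.pi, inner ℝ (g (pc a s θ)) (er θ)) = 0 ∧
      ∀ B : ℝ, (∀ᵐ θ ∂(volume.restrict (Ioo (-Real.pi) Real.pi)), |u (pc a s θ)| ≤ B) →
        Dq g a s = s * ∫ θ in Ioo (-Real.pi) Real.pi,
          u (pc a s θ) * inner ℝ (g (pc a s θ)) (er θ) := by
  filter_upwards [flux_good h hR] with s hs
  obtain ⟨h1, h2, h3, h4, h5⟩ := hs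
  refine ⟨h2, fun B hB => ?_⟩
  refine tendsto_nhds_unique (flux_lim h.meas_u h.meas_g (flux_loc h.toSBVData hR h5).1)
    (tendsto_const_nhds.congr' ?_)
  obtain ⟨N, hN⟩ := exists_nat_ge B
  filter_upwards [eventually_ge_atTop N] with n hn
  rw [h1 n]
  congr 1
  refine integral_congr_ae ?_
  filter_upwards [hB] with θ hθ
  rw [flux_kap_eq]
  have : (N:ℝ) ≤ n := by exact_mod_cast hn
  linarith

/-- Cauchy-Schwarz -/
theorem flux_cs {μ : Measure ℝ} {f k : ℝ → ℝ} (hf : Integrable (fun x => f x ^ 2) μ)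
    (hk : Integrable (fun x => k x ^ 2) μ) (hfk : Integrable (fun x => f x * k x) μ) :
    (∫ x, f x * k x ∂μ) ^ 2 ≤ (∫ x, f x ^ 2 ∂μ) * ∫ x, k x ^ 2 ∂μ := by
  have h1 : ∀ t : ℝ, 0 ≤ (∫ x, k x ^ 2 ∂μ) * (t * t) + (-2 * ∫ x, f x * k x ∂μ) * t +
      ∫ x, f x ^ 2 ∂μ := by
    intro t
    have h2 : 0 ≤ ∫ x, (f x - t * k x) ^ 2 ∂μ := integral_nonneg fun x => sq_nonneg _
    have h3 : ∫ x, (f x - t * k x) ^ 2 ∂μ =
        ∫ x, (f x ^ 2 - 2 * t * (f x * k x) + t ^ 2 * k x ^ 2) ∂μ := by
      congr 1; funext x; ring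
    have i1 : Integrable (fun x => 2 * t * (f x * k x)) μ := hfk.const_mul _
    have i2 : Integrable (fun x => f x ^ 2 - 2 * t * (f x * k x)) μ := hf.sub i1
    have i3 : Integrable (fun x => t ^ 2 * k x ^ 2) μ := hk.const_mul _
    rw [h3, integral_add i2 i3, integral_sub hf i1, integral_const_mul, integral_const_mul] at h2
    linarith
  have h4 := discrim_le_zero h1
  unfold discrim at h4
  linarith

theorem flux_sq {Ω : Set ℂ} {u : ℂ → ℝ} {g j : ℂ → ℂ} (h : MSMin Ω u g j) {a : ℂ} {R : ℝ}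
    (hR : ball a R ⊆ Ω) :
    ∀ᵐ s ∂(volume.restrict (Ioo 0 R)), (jumpSet Ω u ∩ sphere a s).Subsingleton →
      Dq g a s ^ 2 ≤ 4 * s ^ 2 * (Tq g a s * Vq g a s) := by
  filter_upwards [flux_good h hR, slice_arc h.toSBVData hR] with s hs hsl hJ
  obtain ⟨h1, h2, h3, h4, h5⟩ := hs
  have hpi := Real.pi_pos
  -- the cut angle
  obtain ⟨p, hp⟩ : ∃ p : ℝ, ∀ θ ∈ Ioo p (p + 2 * Real.pi), pc a s θ ∉ jumpSet Ω u := by
    rcases (jumpSet Ω u ∩ sphere a s).eq_empty_or_nonempty with he | ⟨x, hx⟩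
    · refine ⟨0, fun θ _ hθ => ?_⟩
      have : pc a s θ ∈ jumpSet Ω u ∩ sphere a s :=
        ⟨hθ, by rw [mem_sphere, dist_eq_norm, flux_norm_pc a h4.le]⟩
      rw [he] at this
      exact this
    · refine ⟨(x - a).arg, fun θ hθ hθ' => ?_⟩
      have h6 : pc a s θ = x := hJ ⟨hθ', by rw [mem_sphere, dist_eq_norm, flux_norm_pc a h4.le]⟩ hx
      have h7 : pc a s (x - a).arg = x := by
        have h8 : ‖x - a‖ = s := by rw [← dist_eq_norm]; exact hx.2
        unfold pc er
        rw [← h8, Complex.norm_mul_exp_arg_mul_I]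
        ring
      have h9 : er θ = er (x - a).arg := by
        have h10 := h6.trans h7.symm
        unfold pc at h10
        have h11 : (s:ℂ) * er θ = s * er (x - a).arg := by simpa using h10
        exact mul_left_cancel₀ (by exact_mod_cast h4.ne') h11
      unfold er at h9
      rw [Complex.exp_eq_exp_iff_exists_int] at h9
      obtain ⟨n, hn⟩ := h9
      have h12 : θ = (x - a).arg + n * (2 * Real.pi) := by
        have := congrArg Complex.im hn
        simpa using this
      have h13 : (0:ℝ) < n := by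
        by_contra hc
        have : (n:ℝ) * (2 * Real.pi) ≤ 0 := mul_nonpos_of_nonpos_of_nonneg (not_lt.1 hc)
          (by positivity)
        linarith [hθ.1]
      have h14 : (n:ℝ) < 1 := by
        by_contra hc
        have : 1 * (2 * Real.pi) ≤ (n:ℝ) * (2 * Real.pi) :=
          mul_le_mul_of_nonneg_right (not_lt.1 hc) (by positivity)
        linarith [hθ.2]
      have h15 : (0:ℤ) < n := by exact_mod_cast h13
      have h16 : n < (1:ℤ) := by exact_mod_cast h14
      omega
  obtain ⟨c, hc⟩ := hsl p (p + 2 * Real.pi) (by linarith) hp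
  set b : ℝ → ℝ := fun θ => inner ℝ (g (pc a s θ)) (er θ) with hb
  set e : ℝ → ℝ := fun θ => inner ℝ (g (pc a s θ)) (et θ) with he
  have hmb : Measurable b :=
    (h.meas_g.comp (flux_cont_pc a s).measurable).inner flux_cont_er.measurable
  have hme : Measurable e :=
    (h.meas_g.comp (flux_cont_pc a s).measurable).inner flux_cont_et.measurable
  have hle_b : ∀ θ, b θ ^ 2 ≤ ‖g (pc a s θ)‖ ^ 2 := fun θ => by
    have := abs_real_inner_le_norm (g (pc a s θ)) (er θ)
    rw [flux_norm_er, mul_one] at this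
    rw [← sq_abs]
    exact pow_le_pow_left₀ (abs_nonneg _) this 2
  have hle_e : ∀ θ, e θ ^ 2 ≤ ‖g (pc a s θ)‖ ^ 2 := fun θ => by
    have := abs_real_inner_le_norm (g (pc a s θ)) (et θ)
    rw [flux_norm_et, mul_one] at this
    rw [← sq_abs]
    exact pow_le_pow_left₀ (abs_nonneg _) this 2
  have hperg : Function.Periodic (fun θ => ‖g (pc a s θ)‖ ^ 2) (2 * Real.pi) := fun θ => by
    simp only [flux_pc_per]
  have hperb : Function.Periodic b (2 * Real.pi) := fun θ => by
    simp only [hb, flux_pc_per, flux_er_per]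
  have hpere : Function.Periodic e (2 * Real.pi) := fun θ => by
    simp only [he, flux_pc_per, flux_et_per]
  -- integrals over a period
  have hper : ∀ f : ℝ → ℝ, Function.Periodic f (2 * Real.pi) →
      ∫ θ in Ioo (-Real.pi) Real.pi, f θ = ∫ θ in Ioo p (p + 2 * Real.pi), f θ := by
    intro f hf
    have h6 := hf.intervalIntegral_add_eq (-Real.pi) p
    rw [show -Real.pi + 2 * Real.pi = Real.pi by ring] at h6
    rwa [intervalIntegral.integral_of_le (by linarith),
      intervalIntegral.integral_of_le (by linarith), integral_Ioc_eq_integral_Ioo,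
      integral_Ioc_eq_integral_Ioo] at h6
  have hig : IntegrableOn (fun θ => ‖g (pc a s θ)‖ ^ 2) (Ioo p (p + 2 * Real.pi)) := by
    have h6 : IntervalIntegrable (fun θ => ‖g (pc a s θ)‖ ^ 2) volume (-Real.pi)
        (-Real.pi + 2 * Real.pi) := by
      rw [show -Real.pi + 2 * Real.pi = Real.pi by ring,
        intervalIntegrable_iff_integrableOn_Ioo_of_le (by linarith)]
      exact h3
    have h7 := hperg.intervalIntegrable (by positivity) h6 p (p + 2 * Real.pi)
    rwa [intervalIntegrable_iff_integrableOn_Ioo_of_le (by linarith)] at h7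
  set I := Ioo p (p + 2 * Real.pi) with hI
  have hib : IntegrableOn (fun θ => b θ ^ 2) I :=
    hig.mono' (hmb.pow_const 2).aestronglyMeasurable (Eventually.of_forall fun θ => by
      rw [Real.norm_of_nonneg (sq_nonneg _)]; exact hle_b θ)
  have hie : IntegrableOn (fun θ => e θ ^ 2) I :=
    hig.mono' (hme.pow_const 2).aestronglyMeasurable (Eventually.of_forall fun θ => by
      rw [Real.norm_of_nonneg (sq_nonneg _)]; exact hle_e θ)
  have hG : ∀ θ, Gq g a s θ = s * e θ := fun θ => rfl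
  have hGm : MemLp (fun θ => Gq g a s θ) 2 (volume.restrict I) := by
    rw [memLp_two_iff_integrable_sq]
    · refine (hie.const_mul (s ^ 2)).congr (Eventually.of_forall fun θ => ?_)
      simp only [hG]
      ring
    · exact (hme.const_mul s).aestronglyMeasurable
  obtain ⟨m, hm⟩ := wirtinger_neumann hGm
  have hGi : IntegrableOn (fun θ => Gq g a s θ) I := by
    have : IsFiniteMeasure (volume.restrict I) := ⟨by rw [hI, Measure.restrict_apply_univ]; exact measure_Ioo_lt_top⟩
    exact hGm.integrable (by norm_num)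
  set P : ℝ → ℝ := fun θ => ∫ t in p..θ, Gq g a s t with hP
  have hPc : ContinuousOn P (Icc p (p + 2 * Real.pi)) := by
    have h6 := intervalIntegral.continuousOn_primitive_interval (f := fun t => Gq g a s t)
      (μ := volume) (a := p) (b := p + 2 * Real.pi) (by
        rw [uIcc_of_le (by linarith), integrableOn_Icc_iff_integrableOn_Ioo]; exact hGi)
    rwa [uIcc_of_le (by linarith)] at h6
  obtain ⟨C, hC⟩ := isCompact_Icc.exists_bound_of_continuousOn hPc
  -- the truncations are not active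
  obtain ⟨N, hN⟩ := exists_nat_ge (|c| + C)
  have hut : ∀ n : ℕ, N ≤ n → (∫ x in ball a s, deriv (flux_kap n) (u x) * ‖g x‖ ^ 2) =
      s * ∫ θ in I, (P θ - m) * b θ := by
    intro n hn
    rw [h1 n, hper (fun θ => flux_kap n (u (pc a s θ)) * inner ℝ (g (pc a s θ)) (er θ))
      (fun θ => by simp only [flux_pc_per, flux_er_per])]
    congr 1
    have hbi : IntegrableOn b I := by
      have : IsFiniteMeasure (volume.restrict I) := ⟨by rw [hI, Measure.restrict_apply_univ]; exact measure_Ioo_lt_top⟩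
      have h6 : MemLp b 2 (volume.restrict I) :=
        (memLp_two_iff_integrable_sq hmb.aestronglyMeasurable).2 hib
      exact h6.integrable (by norm_num)
    have h6 : ∫ θ in I, b θ = 0 := by rw [← hper b hperb]; exact h2
    have h7 : ∫ θ in I, flux_kap n (u (pc a s θ)) * inner ℝ (g (pc a s θ)) (er θ) =
        ∫ θ in I, ((P θ - m) * b θ + (c + m) * b θ) := by
      refine integral_congr_ae ?_
      filter_upwards [hc, ae_restrict_mem measurableSet_Ioo] with θ hθ hθI
      have h8 : |u (pc a s θ)| ≤ n + 1 := by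
        rw [hθ]
        have h9 := hC θ (Ioo_subset_Icc_self hθI)
        rw [Real.norm_eq_abs] at h9
        have h10 : (N:ℝ) ≤ n := by exact_mod_cast hn
        calc |c + P θ| ≤ |c| + |P θ| := abs_add_le _ _
          _ ≤ n + 1 := by linarith
      rw [flux_kap_eq h8, hθ]
      change (c + P θ) * b θ = _
      ring
    have hPb : IntegrableOn (fun θ => (P θ - m) * b θ) I := by
      have h8 : ContinuousOn (fun θ => P θ - m) (Icc p (p + 2 * Real.pi)) :=
        hPc.sub continuousOn_const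
      obtain ⟨C', hC'⟩ := isCompact_Icc.exists_bound_of_continuousOn h8
      refine hbi.bdd_mul (c := C') ?_ ?_
      · exact (h8.mono Ioo_subset_Icc_self).aestronglyMeasurable measurableSet_Ioo
      · filter_upwards [ae_restrict_mem measurableSet_Ioo] with θ hθ
        exact hC' θ (Ioo_subset_Icc_self hθ)
    rw [h7, integral_add hPb (hbi.const_mul _), integral_const_mul, h6, mul_zero, add_zero]
  have hlim := flux_lim h.meas_u h.meas_g (flux_loc h.toSBVData hR h5).1
  have hDq : Dq g a s = s * ∫ θ in I, (P θ - m) * b θ := by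
    refine tendsto_nhds_unique hlim (tendsto_const_nhds.congr' ?_)
    filter_upwards [eventually_ge_atTop N] with n hn
    exact (hut n hn).symm
  rw [intervalIntegral.integral_of_le (by linarith), intervalIntegral.integral_of_le (by linarith),
    integral_Ioc_eq_integral_Ioo, integral_Ioc_eq_integral_Ioo] at hm
  have hP2 : IntegrableOn (fun θ => (P θ - m) ^ 2) I := by
    have h8 : ContinuousOn (fun θ => (P θ - m) ^ 2) (Icc p (p + 2 * Real.pi)) :=
      (hPc.sub continuousOn_const).pow 2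
    exact h8.integrableOn_Icc.mono_set Ioo_subset_Icc_self
  have hbi : IntegrableOn b I := by
    have : IsFiniteMeasure (volume.restrict I) := ⟨by rw [hI, Measure.restrict_apply_univ]; exact measure_Ioo_lt_top⟩
    have h6 : MemLp b 2 (volume.restrict I) :=
      (memLp_two_iff_integrable_sq hmb.aestronglyMeasurable).2 hib
    exact h6.integrable (by norm_num)
  have hPb : IntegrableOn (fun θ => (P θ - m) * b θ) I := by
    have h8 : ContinuousOn (fun θ => P θ - m) (Icc p (p + 2 * Real.pi)) :=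
      hPc.sub continuousOn_const
    obtain ⟨C', hC'⟩ := isCompact_Icc.exists_bound_of_continuousOn h8
    refine hbi.bdd_mul (c := C') ?_ ?_
    · exact (h8.mono Ioo_subset_Icc_self).aestronglyMeasurable measurableSet_Ioo
    · filter_upwards [ae_restrict_mem measurableSet_Ioo] with θ hθ
      exact hC' θ (Ioo_subset_Icc_self hθ)
  have hcs := flux_cs (μ := volume.restrict I) hP2 hib hPb
  have hT : Tq g a s = s * ∫ θ in I, e θ ^ 2 := by
    unfold Tq
    rw [hper (fun θ => (inner ℝ (g (pc a s θ)) (et θ)) ^ 2)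
      (fun θ => by simp only [flux_pc_per, flux_et_per])]
  have hV : Vq g a s = s * ∫ θ in I, b θ ^ 2 := by
    unfold Vq
    rw [hper (fun θ => (inner ℝ (g (pc a s θ)) (er θ)) ^ 2)
      (fun θ => by simp only [flux_pc_per, flux_er_per])]
  have hG2 : ∫ θ in I, Gq g a s θ ^ 2 = s ^ 2 * ∫ θ in I, e θ ^ 2 := by
    rw [← integral_const_mul]
    refine integral_congr_ae (Eventually.of_forall fun θ => ?_)
    simp only [hG]
    ring
  rw [hG2] at hm
  have hb0 : 0 ≤ ∫ θ in I, b θ ^ 2 := integral_nonneg fun θ => sq_nonneg _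
  have hfin : (∫ θ in I, (P θ - m) * b θ) ^ 2 ≤
      (4 * (s ^ 2 * ∫ θ in I, e θ ^ 2)) * ∫ θ in I, b θ ^ 2 :=
    hcs.trans (mul_le_mul_of_nonneg_right hm hb0)
  rw [hDq, hT, hV, mul_pow]
  calc s ^ 2 * (∫ θ in I, (P θ - m) * b θ) ^ 2
      ≤ s ^ 2 * ((4 * (s ^ 2 * ∫ θ in I, e θ ^ 2)) * ∫ θ in I, b θ ^ 2) :=
        mul_le_mul_of_nonneg_left hfin (sq_nonneg s)
    _ = 4 * s ^ 2 * (s * (∫ θ in I, e θ ^ 2) * (s * ∫ θ in I, b θ ^ 2)) := by ring

theorem flux_bound {Ω : Set ℂ} {u : ℂ → ℝ} {g j : ℂ → ℂ} (h : MSMin Ω u g j) {a : ℂ} {R : ℝ}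
    (hR : ball a R ⊆ Ω) :
    ∀ᵐ s ∂(volume.restrict (Ioo 0 R)), (jumpSet Ω u ∩ sphere a s).Subsingleton →
      Dq g a s ≤ s * (Tq g a s + Vq g a s) := by
  filter_upwards [flux_sq h hR, ae_restrict_mem measurableSet_Ioo] with s hs h4 hJ
  have h0 : 0 < s := h4.1
  have hT : 0 ≤ Tq g a s := mul_nonneg h0.le (integral_nonneg fun θ => sq_nonneg _)
  have hV : 0 ≤ Vq g a s := mul_nonneg h0.le (integral_nonneg fun θ => sq_nonneg _)
  have h1 : Dq g a s ^ 2 ≤ (s * (Tq g a s + Vq g a s)) ^ 2 := by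
    refine (hs hJ).trans ?_
    have : 0 ≤ s ^ 2 * (Tq g a s - Vq g a s) ^ 2 := by positivity
    nlinarith
  exact le_of_sq_le_sq h1 (by positivity)

end Pool.Agent.MP099f24
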