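import Mathlib
import Pool.Agent.Lib.MP_099f24_an.SD.Defs
import Pool.Agent.Lib.MP_099f24_an.SD.JRep
import Pool.Agent.Lib.MP_099f24_an.SD.Flat

/-!
# MP_099f24_an, sharp densities: decomposition of the jump set into flat pieces
-/

namespace Pool.Agent.MP099f24

open MeasureTheory Filter Topology Set Metric
open scoped ENNReal NNReal ContDiff

/-- A Borel part `C` of the jump set is a disjoint union of Borel flat pieces. -/
theorem jump_pieces {Ω : Set ℂ} {u : ℂ → ℝ} {g j : ℂ → ℂ} (h : SBVData Ω u g j) {C : Set ℂ}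
    {j' : ℂ → ℂ} (hCm : MeasurableSet C) (hCJ : C ⊆ jumpSet Ω u) (hj' : Measurable j')
    (hjj : ∀ x ∈ C, j' x = j x) {ε : ℝ} (hε : 0 < ε) :
    ∃ (E : ℕ → Set ℂ) (n : ℕ → ℂ), (∀ i, MeasurableSet (E i)) ∧
      Pairwise (Function.onFun Disjoint E) ∧ ⋃ i, E i = C ∧ (∀ i, ‖n i‖ = 1) ∧
      (∀ i, ∀ x ∈ E i, ∀ y ∈ E i, |inner ℝ (y - x) (n i)| ≤ ε * ‖y - x‖ ∧ ‖y - x‖ ≤ ε) ∧
      ∀ i, ∀ x ∈ E i, j' x ≠ 0 ∧
        (‖(‖j' x‖⁻¹ : ℝ) • j' x - n i‖ ≤ ε ∨ ‖(‖j' x‖⁻¹ : ℝ) • j' x + n i‖ ≤ ε) := by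
  obtain ⟨F, n, hF, hcov⟩ := flat_cover h.isOpen h.intu hε
  set G : ℕ → Set ℂ := fun i => C ∩ F i ∩
    {x | ‖(‖j' x‖⁻¹ : ℝ) • j' x - n i‖ ≤ ε ∨ ‖(‖j' x‖⁻¹ : ℝ) • j' x + n i‖ ≤ ε} with hG
  have hGm : ∀ i, MeasurableSet (G i) := by
    intro i
    refine (hCm.inter (hF i).1.measurableSet).inter ?_
    have h3 : Measurable fun x => (‖j' x‖⁻¹ : ℝ) • j' x := hj'.norm.inv.smul hj'
    exact (measurableSet_le (h3.sub_const _).norm measurable_const).union
      (measurableSet_le (h3.add_const _).norm measurable_const)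
  have hGC : ⋃ i, G i = C := by
    apply Subset.antisymm
    · exact iUnion_subset fun i x hx => hx.1.1
    · intro x hx
      have hxJ := hCJ hx
      rcases h.jf x hxJ.1 with ⟨a, b, ν, hj, hjx⟩ | hno
      · obtain ⟨i, hi, hni⟩ := hcov x hxJ.1 a b ν hj
        rw [mem_iUnion]
        refine ⟨i, ⟨hx, hi⟩, ?_⟩
        have h3 : j' x = (a - b) • ν := (hjj x hx).trans hjx
        have hab : a - b ≠ 0 := sub_ne_zero.mpr hj.2.1
        have h4 : (‖j' x‖⁻¹ : ℝ) • j' x = (|a - b|⁻¹ * (a - b)) • ν := by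
          rw [h3, norm_smul, hj.1, mul_one, Real.norm_eq_abs, smul_smul]
        rcases lt_or_gt_of_ne hab with hlt | hgt
        · right
          rw [h4, abs_of_neg hlt, show (-(a - b))⁻¹ * (a - b) = -1 by field_simp, neg_smul,
            one_smul, neg_add_eq_sub, norm_sub_rev]
          exact hni
        · left
          rw [h4, abs_of_pos hgt, inv_mul_cancel₀ hab, one_smul]
          exact hni
      · exact absurd hxJ.2 hno.1
  have hEG : ∀ i, disjointed G i ⊆ G i := fun i => disjointed_subset G i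
  refine ⟨disjointed G, n, fun i => MeasurableSet.disjointed hGm i, disjoint_disjointed G,
    by rw [iUnion_disjointed, hGC], fun i => (hF i).2.1,
    fun i x hx y hy => (hF i).2.2 x (hEG i hx).1.2 y (hEG i hy).1.2,
    fun i x hx => ⟨?_, (hEG i hx).2⟩⟩
  have hxC := (hEG i hx).1.1
  rw [hjj x hxC]
  exact (jrep_mem_jump_iff h.jf (hCJ hxC).1).mp (hCJ hxC)

end Pool.Agent.MP099f24
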