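import Mathlib
import Pool.Agent.Lib.MP_099f24_an.SD.Defs

/-!
# MP_099f24_an, sharp densities: smooth radial functions
-/

namespace Pool.Agent.MP099f24

open MeasureTheory Filter Topology Set Metric
open scoped ENNReal NNReal ContDiff

theorem rad_hasFDerivAt_norm {z : ℂ} (hz : z ≠ 0) :
    HasFDerivAt (fun y : ℂ => ‖y‖) ((‖z‖⁻¹ : ℝ) • innerSL ℝ z) z := by
  have h1 : HasFDerivAt (fun y : ℂ => ‖y‖ ^ 2) (2 • innerSL ℝ z) z :=
    (hasStrictFDerivAt_norm_sq z).hasFDerivAt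
  have h2 := h1.sqrt (by simpa using hz)
  have h3 : (fun y : ℂ => √(‖y‖ ^ 2)) = fun y => ‖y‖ := by
    funext y
    exact Real.sqrt_sq (norm_nonneg y)
  rw [h3] at h2
  refine h2.congr_fderiv ?_
  rw [Real.sqrt_sq (norm_nonneg z), ← Nat.cast_smul_eq_nsmul ℝ, smul_smul]
  congr 1
  have : ‖z‖ ≠ 0 := norm_ne_zero_iff.mpr hz
  field_simp
  norm_num

theorem rad_hasFDerivAt_dist {a x : ℂ} (hx : x ≠ a) :
    HasFDerivAt (fun y : ℂ => dist y a) (((dist x a)⁻¹ : ℝ) • innerSL ℝ (x - a)) x := by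
  have h1 : HasFDerivAt (fun y : ℂ => y - a) (ContinuousLinearMap.id ℝ ℂ) x :=
    (hasFDerivAt_id x).sub_const a
  have h2 := (rad_hasFDerivAt_norm (sub_ne_zero.mpr hx)).comp x h1
  have h3 : (fun y : ℂ => dist y a) = (fun y : ℂ => ‖y‖) ∘ fun y => y - a := by
    funext y
    exact dist_eq_norm y a
  rw [h3, dist_eq_norm]
  exact h2.congr_fderiv (by rfl)

/-- The support of a test function on an interval. -/
theorem rad_support {ζ : ℝ → ℝ} (hc : HasCompactSupport ζ) {R : ℝ} (hR : 0 < R)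
    (hs : tsupport ζ ⊆ Ioo 0 R) :
    ∃ δ R'', 0 < δ ∧ δ < R'' ∧ R'' < R ∧ ∀ t, ζ t ≠ 0 → δ < t ∧ t < R'' := by
  rcases (tsupport ζ).eq_empty_or_nonempty with h0 | hne
  · refine ⟨R / 3, R / 2, by positivity, by linarith, by linarith, fun t ht => ?_⟩
    have : t ∈ tsupport ζ := subset_tsupport _ ht
    rw [h0] at this
    exact absurd this (notMem_empty t)
  · have hK : IsCompact (tsupport ζ) := hc
    have h1 := hK.sInf_mem hne
    have h2 := hK.sSup_mem hne
    set m := sInf (tsupport ζ) with hm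
    set M := sSup (tsupport ζ) with hM
    have hmM : m ≤ M := csInf_le hK.bddBelow h2
    refine ⟨m / 2, (M + R) / 2, by linarith [(hs h1).1], by linarith [(hs h1).1, (hs h2).2],
      by linarith [(hs h2).2], fun t ht => ?_⟩
    have ht' : t ∈ tsupport ζ := subset_tsupport _ ht
    have h3 : m ≤ t := csInf_le hK.bddBelow ht'
    have h4 : t ≤ M := le_csSup hK.bddAbove ht'
    exact ⟨by linarith [(hs h1).1], by linarith [(hs h2).2]⟩

/-- The antiderivative of `ζ` which vanishes on the right. -/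
noncomputable def radPsi (ζ : ℝ → ℝ) (R : ℝ) (r : ℝ) : ℝ :=
  (∫ t in (0 : ℝ)..r, ζ t) - ∫ t in (0 : ℝ)..R, ζ t

theorem radPsi_hasDerivAt {ζ : ℝ → ℝ} (hζ : Continuous ζ) (R r : ℝ) :
    HasDerivAt (radPsi ζ R) (ζ r) r := by
  have h1 : HasDerivAt (fun r => ∫ t in (0 : ℝ)..r, ζ t) (ζ r) r :=
    intervalIntegral.integral_hasDerivAt_right (hζ.intervalIntegrable _ _)
      (hζ.stronglyMeasurableAtFilter _ _) hζ.continuousAt
  exact h1.sub_const _

theorem radPsi_contDiff {ζ : ℝ → ℝ} (hζ : ContDiff ℝ ∞ ζ) (R : ℝ) :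
    ContDiff ℝ ∞ (radPsi ζ R) := by
  rw [contDiff_infty_iff_deriv]
  refine ⟨fun r => (radPsi_hasDerivAt hζ.continuous R r).differentiableAt, ?_⟩
  have h1 : deriv (radPsi ζ R) = ζ := by
    funext r
    exact (radPsi_hasDerivAt hζ.continuous R r).deriv
  rw [h1]
  exact hζ

theorem radPsi_left {ζ : ℝ → ℝ} {R δ : ℝ} (hδ : 0 ≤ δ) (h : ∀ t, ζ t ≠ 0 → δ < t) {r : ℝ}
    (hr : r ≤ δ) : radPsi ζ R r = - ∫ t in (0 : ℝ)..R, ζ t := by
  have h1 : ∫ t in (0 : ℝ)..r, ζ t = 0 := by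
    rw [intervalIntegral.integral_congr (g := fun _ => 0)]
    · simp
    · intro t ht
      have h2 : t ≤ δ := by
        have := ht.2
        exact this.trans (max_le hδ hr)
      by_contra h3
      exact absurd (h t h3) (not_lt.mpr h2)
  rw [radPsi, h1, zero_sub]

theorem radPsi_right {ζ : ℝ → ℝ} (hζ : Continuous ζ) {R R'' : ℝ} (hR : R'' ≤ R)
    (h : ∀ t, ζ t ≠ 0 → t < R'') {r : ℝ}
    (hr : R'' ≤ r) : radPsi ζ R r = 0 := by
  rw [radPsi, intervalIntegral.integral_interval_sub_left (hζ.intervalIntegrable _ _)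
    (hζ.intervalIntegrable _ _), intervalIntegral.integral_congr (g := fun _ => 0)]
  · simp
  · intro t ht
    have h2 : R'' ≤ t := by
      have := ht.1
      exact le_trans (le_min hR hr) this
    by_contra h3
    exact absurd (h t h3) (not_lt.mpr h2)

/-- Smoothness and derivative of a radial function which is constant near the centre. -/
theorem rad_contDiff {ψ : ℝ → ℝ} (hψ : ContDiff ℝ ∞ ψ) {δ c : ℝ} (hδ : 0 < δ)
    (h : ∀ r ≤ δ, ψ r = c) (a : ℂ) : ContDiff ℝ ∞ fun x : ℂ => ψ (dist x a) := by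
  rw [contDiff_iff_contDiffAt]
  intro x
  rcases eq_or_ne x a with rfl | hx
  · have h1 : (fun y : ℂ => ψ (dist y x)) =ᶠ[𝓝 x] fun _ => c := by
      filter_upwards [ball_mem_nhds x hδ] with y hy
      exact h _ (le_of_lt hy)
    exact contDiffAt_const.congr_of_eventuallyEq h1
  · have h2 : ContDiffAt ℝ ∞ (fun y : ℂ => dist y a) x :=
      contDiffAt_id.dist ℝ contDiffAt_const hx
    exact hψ.contDiffAt.comp x h2

theorem rad_hasFDerivAt {ψ : ℝ → ℝ} {δ c : ℝ} (hδ : 0 < δ)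
    (h : ∀ r ≤ δ, ψ r = c) {ζ : ℝ → ℝ} (hd : ∀ r, HasDerivAt ψ (ζ r) r) (a x : ℂ) :
    HasFDerivAt (fun y : ℂ => ψ (dist y a))
      ((ζ (dist x a) / dist x a) • innerSL ℝ (x - a)) x := by
  rcases eq_or_ne x a with rfl | hx
  · have h1 : (fun y : ℂ => ψ (dist y x)) =ᶠ[𝓝 x] fun _ => c := by
      filter_upwards [ball_mem_nhds x hδ] with y hy
      exact h _ (le_of_lt hy)
    rw [dist_self, div_zero, zero_smul]
    exact (hasFDerivAt_const c x).congr_of_eventuallyEq h1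
  · have h1 := (hd (dist x a)).hasFDerivAt.comp x (rad_hasFDerivAt_dist hx)
    refine h1.congr_fderiv ?_
    ext v
    simp [div_eq_mul_inv]
    try ring

end Pool.Agent.MP099f24
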