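import Mathlib
import Pool.Agent.Lib.MP_099f24_an.SD.Defs
import Pool.Agent.Lib.MP_099f24_an.SD.JRep
import Pool.Agent.Lib.MP_099f24_an.SD.Radial
import Pool.Agent.Lib.MP_099f24_an.SD.Pieces
import Pool.Agent.Lib.MP_099f24_an.SD.Polar
import Pool.Agent.Lib.MP_099f24_an.SD.Meas
import Pool.Agent.Lib.MP_099f24_an.SD.Meass
import Pool.Agent.Lib.MP_099f24_an.SD.Fvar

/-!
# MP_099f24_an, sharp densities, module FORCE: force balance on circles with one jump point
-/

namespace Pool.Agent.MP099f24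

open MeasureTheory Filter Topology Set Metric
open scoped ENNReal NNReal ContDiff

/-- The function `⟨x̂, τ⟩ ⟨e, τ⟩`, `τ` the tangent of the jump set. -/
noncomputable def forceC (j : ℂ → ℂ) (a e x : ℂ) : ℝ :=
  inner ℝ (x - a) (Complex.I * j x) * inner ℝ e (Complex.I * j x) / (dist x a * ‖j x‖ ^ 2)

theorem forceC_le {j : ℂ → ℂ} {a e : ℂ} (he : ‖e‖ = 1) (x : ℂ) : |forceC j a e x| ≤ 1 := by
  rw [forceC, abs_div, abs_mul]
  have h1 : |inner ℝ (x - a) (Complex.I * j x)| ≤ dist x a * ‖j x‖ := by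
    have := abs_real_inner_le_norm (x - a) (Complex.I * j x)
    rwa [norm_mul, Complex.norm_I, one_mul, ← dist_eq_norm] at this
  have h2 : |inner ℝ e (Complex.I * j x)| ≤ ‖j x‖ := by
    have := abs_real_inner_le_norm e (Complex.I * j x)
    rwa [norm_mul, Complex.norm_I, one_mul, he, one_mul] at this
  have h3 : 0 ≤ dist x a * ‖j x‖ ^ 2 := by positivity
  rw [abs_of_nonneg h3]
  refine div_le_one_of_le₀ ?_ h3
  calc |inner ℝ (x - a) (Complex.I * j x)| * |inner ℝ e (Complex.I * j x)|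
      ≤ (dist x a * ‖j x‖) * ‖j x‖ := mul_le_mul h1 h2 (abs_nonneg _) (by positivity)
    _ = dist x a * ‖j x‖ ^ 2 := by ring

theorem forceC_measurable {j : ℂ → ℂ} (hj : Measurable j) (a e : ℂ) :
    Measurable (forceC j a e) := by
  unfold forceC
  have h1 : Measurable fun x => Complex.I * j x := hj.const_mul _
  exact (((measurable_id.sub_const a).inner h1).mul (measurable_const.inner h1)).div
    ((measurable_id.dist measurable_const).mul (hj.norm.pow_const 2))

theorem force_reflect (z g e : ℂ) :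
    ‖g‖ ^ 2 * inner ℝ z e - 2 * (inner ℝ z g * inner ℝ e g) =
      (-(g ^ 2) * (starRingEnd ℂ) z * (starRingEnd ℂ) e).re := by
  rw [Complex.sq_norm, Complex.normSq_apply]
  simp only [Complex.inner, Complex.mul_re, Complex.mul_im, Complex.conj_re, Complex.conj_im,
    Complex.neg_re, Complex.neg_im, pow_two]
  ring

/-- FORCE, step 1: the variation with a radial cut-off of a translation. -/
theorem force_var {Ω : Set ℂ} {u : ℂ → ℝ} {g j : ℂ → ℂ} (h : MSMin Ω u g j) {a : ℂ} {R' : ℝ}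
    (hR0 : 0 < R') (hR : closedBall a R' ⊆ Ω) {C : Set ℂ} {j' : ℂ → ℂ}
    (hC : C ⊆ jumpSet Ω u ∩ closedBall a R') (hCm : MeasurableSet C)
    (hCn : (μH[1] : Measure ℂ) ((jumpSet Ω u ∩ closedBall a R') \ C) = 0)
    (hj' : Measurable j') (hjj : ∀ x ∈ C, j' x = j x) {e : ℂ} (he : ‖e‖ = 1) {ζ : ℝ → ℝ}
    (hζ : ContDiff ℝ ∞ ζ) (hc : HasCompactSupport ζ) (hs : tsupport ζ ⊆ Ioo 0 R')
    (hpos : ∀ t, 0 ≤ ζ t) :
    ∫ x in C, ζ (dist x a) ∂(μH[1] : Measure ℂ) ≤
      (∫ s in Ioo 0 R', ζ s * (Tq g a s + Vq g a s)) +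
      (∫ x in C, ζ (dist x a) * (1 + forceC j' a e x) ∂(μH[1] : Measure ℂ)) +
      ∫ x in (discSet Ω u ∩ closedBall a R') \ C, ζ (dist x a) ∂(μH[1] : Measure ℂ) := by
  have hK : IsCompact (closedBall a R') := isCompact_closedBall _ _
  obtain ⟨δ, R'', hδ, hδR, hR'', hsupp⟩ := rad_support hc hR0 hs
  -- the vector field
  set ψ := radPsi ζ R' with hψ
  have hψl : ∀ r ≤ δ, ψ r = - ∫ t in (0 : ℝ)..R', ζ t := fun r hr =>
    radPsi_left hδ.le (fun t ht => (hsupp t ht).1) hr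
  have hψr : ∀ r, R'' ≤ r → ψ r = 0 := fun r hr =>
    radPsi_right hζ.continuous hR''.le (fun t ht => (hsupp t ht).2) hr
  set X : ℂ → ℂ := fun x => (ψ (dist x a)) • e with hX
  have hXs : ContDiff ℝ ∞ X :=
    (rad_contDiff (radPsi_contDiff hζ R') hδ hψl a).smul contDiff_const
  have hXf : ∀ x, HasFDerivAt X (((ζ (dist x a) / dist x a) • innerSL ℝ (x - a)).smulRight e) x :=
    fun x => (rad_hasFDerivAt hδ hψl (radPsi_hasDerivAt hζ.continuous R') a x).smul_const e
  have hXd : ∀ x v, fderiv ℝ X x v = (ζ (dist x a) / dist x a * inner ℝ (x - a) v) • e := by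
    intro x v
    rw [(hXf x).fderiv, ContinuousLinearMap.smulRight_apply]
    rfl
  have htsupp : tsupport X ⊆ closedBall a R'' := by
    refine closure_minimal ?_ isClosed_closedBall
    intro x hx
    by_contra hx'
    rw [mem_closedBall, not_le] at hx'
    apply hx
    simp only [hX]
    rw [hψr _ hx'.le, zero_smul]
  have htK : tsupport X ⊆ closedBall a R' := htsupp.trans (closedBall_subset_closedBall hR''.le)
  have hXc : HasCompactSupport X := HasCompactSupport.of_support_subset_isCompact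
    (isCompact_closedBall a R'') ((subset_tsupport _).trans htsupp)
  have hζ0 : ∀ x, x ∉ tsupport X → ζ (dist x a) = 0 := by
    intro x hx
    by_contra hne
    have hxa : x ≠ a := by
      rintro rfl
      rw [dist_self] at hne
      linarith [(hsupp 0 hne).1]
    have h1 : fderiv ℝ X x = 0 := by
      have := (tsupport_fderiv_subset ℝ (f := X)).trans le_rfl
      by_contra h2
      exact hx (this (subset_tsupport _ h2))
    have h2 := hXd x (x - a)
    rw [h1, real_inner_self_eq_norm_sq, ← dist_eq_norm] at h2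
    have h3 : dist x a ≠ 0 := dist_ne_zero.mpr hxa
    have h4 : e ≠ 0 := by
      intro h0
      rw [h0, norm_zero] at he
      exact zero_ne_one he
    have h5 := (smul_eq_zero.mp h2.symm).resolve_right h4
    have h6 : ζ (dist x a) * dist x a = 0 := by
      rw [← h5]
      field_simp
    rcases mul_eq_zero.mp h6 with h7 | h7
    · exact hne h7
    · exact h3 h7
  -- the first variation
  have hlamc : Continuous fun x : ℂ => ζ (dist x a) :=
    hζ.continuous.comp (continuous_id.dist continuous_const)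
  have hfv := first_variation h hXs hXc (htK.trans hR) (lam := fun x => ζ (dist x a)) hlamc (by
    intro x v
    rw [hXd, inner_smul_left]
    simp only [RCLike.conj_to_real]
    have h1 : |inner ℝ (x - a) v| ≤ dist x a * ‖v‖ := by
      rw [dist_eq_norm]
      exact abs_real_inner_le_norm _ _
    have h2 : |inner ℝ e v| ≤ ‖v‖ := by
      have := abs_real_inner_le_norm e v
      rwa [he, one_mul] at this
    have h3 : ζ (dist x a) / dist x a * inner ℝ (x - a) v * inner ℝ e v ≤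
        |ζ (dist x a) / dist x a * inner ℝ (x - a) v * inner ℝ e v| := le_abs_self _
    refine h3.trans ?_
    rw [abs_mul, abs_mul, abs_div, abs_of_nonneg (hpos _), abs_of_nonneg dist_nonneg]
    rcases eq_or_ne (dist x a) 0 with h4 | h4
    · rw [h4]
      simp
      have := hpos 0
      positivity
    · have h5 : 0 < dist x a := lt_of_le_of_ne dist_nonneg (Ne.symm h4)
      calc ζ (dist x a) / dist x a * |inner ℝ (x - a) v| * |inner ℝ e v|
          ≤ ζ (dist x a) / dist x a * (dist x a * ‖v‖) * ‖v‖ := by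
            have := hpos (dist x a)
            gcongr
        _ = ζ (dist x a) * ‖v‖ ^ 2 := by field_simp)
  -- the volume term
  have hI1 : ∫ x in tsupport X, (‖g x‖ ^ 2 * dv X x - 2 * inner ℝ (fderiv ℝ X x (g x)) (g x)) ≤
      ∫ s in Ioo 0 R', ζ s * (Tq g a s + Vq g a s) := by
    have hball : ∀ s < R', IntegrableOn (fun x => ‖g x‖ ^ 2) (ball a s) := fun s hs' =>
      (h.fin_g _ hK hR).mono_set (ball_subset_closedBall.trans
        (closedBall_subset_closedBall hs'.le))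
    rw [← (radial_weight h.meas_g hball hζ.continuous hc hs).1]
    have h1 : ∫ x, ζ (dist x a) * ‖g x‖ ^ 2 = ∫ x in tsupport X, ζ (dist x a) * ‖g x‖ ^ 2 := by
      rw [← setIntegral_univ]
      refine (setIntegral_eq_of_subset_of_forall_sdiff_eq_zero MeasurableSet.univ
        (subset_univ _) fun x hx => ?_)
      rw [hζ0 x hx.2, zero_mul]
    rw [h1]
    have h2 : (fun x => ‖g x‖ ^ 2 * dv X x - 2 * inner ℝ (fderiv ℝ X x (g x)) (g x)) =
        fun x => ζ (dist x a) / dist x a *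
          (-(g x ^ 2) * (starRingEnd ℂ) (x - a) * (starRingEnd ℂ) e).re := by
      funext x
      rw [← force_reflect, dv, hXd, hXd, hXd, inner_smul_left]
      simp only [RCLike.conj_to_real, Complex.real_smul, Complex.mul_re, Complex.mul_im,
        Complex.ofReal_re, Complex.ofReal_im, zero_mul, sub_zero, add_zero]
      have h3 : inner ℝ (x - a) e = inner ℝ (x - a) 1 * e.re + inner ℝ (x - a) Complex.I * e.im := by
        simp only [Complex.inner, Complex.mul_re, Complex.conj_re, Complex.conj_im, Complex.one_re,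
          Complex.one_im, Complex.I_re, Complex.I_im]
        ring
      rw [h3]
      ring
    rw [h2]
    have h3 : IntegrableOn (fun x => ζ (dist x a) * ‖g x‖ ^ 2) (tsupport X) := by
      obtain ⟨M, hM⟩ := hc.exists_bound_of_continuous hζ.continuous
      have h4 := (h.fin_g _ hXc (htK.trans hR)).const_mul M
      refine Integrable.mono' h4 ?_ ?_
      · exact (hlamc.measurable.mul (h.meas_g.norm.pow_const 2)).aestronglyMeasurable
      · refine Eventually.of_forall fun x => ?_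
        rw [norm_mul, norm_pow, norm_norm]
        exact mul_le_mul_of_nonneg_right (hM _) (by positivity)
    have h5 : ∀ x, |ζ (dist x a) / dist x a *
          (-(g x ^ 2) * (starRingEnd ℂ) (x - a) * (starRingEnd ℂ) e).re| ≤
        ζ (dist x a) * ‖g x‖ ^ 2 := by
      intro x
      rw [abs_mul, abs_div, abs_of_nonneg (hpos _), abs_of_nonneg dist_nonneg]
      have h6 : |(-(g x ^ 2) * (starRingEnd ℂ) (x - a) * (starRingEnd ℂ) e).re| ≤
          ‖g x‖ ^ 2 * dist x a := by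
        refine (Complex.abs_re_le_norm _).trans (le_of_eq ?_)
        rw [norm_mul, norm_mul, norm_neg, norm_pow, Complex.norm_conj, Complex.norm_conj, he,
          mul_one, dist_eq_norm]
      rcases eq_or_ne (dist x a) 0 with h7 | h7
      · rw [h7]
        simp
        have := hpos 0
        positivity
      · calc ζ (dist x a) / dist x a *
            |(-(g x ^ 2) * (starRingEnd ℂ) (x - a) * (starRingEnd ℂ) e).re|
            ≤ ζ (dist x a) / dist x a * (‖g x‖ ^ 2 * dist x a) := by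
              have := hpos (dist x a)
              gcongr
          _ = ζ (dist x a) * ‖g x‖ ^ 2 := by field_simp
    have h6 : IntegrableOn (fun x => ζ (dist x a) / dist x a *
          (-(g x ^ 2) * (starRingEnd ℂ) (x - a) * (starRingEnd ℂ) e).re) (tsupport X) := by
      refine Integrable.mono' h3 ?_ (Eventually.of_forall h5)
      have h7 : Measurable fun x : ℂ => (-(g x ^ 2) * (starRingEnd ℂ) (x - a) *
          (starRingEnd ℂ) e).re := by
        refine Complex.measurable_re.comp ?_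
        exact (((h.meas_g.pow_const 2).neg).mul
          (Complex.continuous_conj.measurable.comp (measurable_id.sub_const a))).mul_const _
      exact ((hlamc.measurable.div (measurable_id.dist measurable_const)).mul
        h7).aestronglyMeasurable
    exact integral_mono h6 h3 fun x => (le_abs_self _).trans (h5 x)
  -- the term on the jump set
  have hI2 : ∫ x in tsupport X, tdiv X j x ∂(μH[1] : Measure ℂ) =
      ∫ x in C, ζ (dist x a) * forceC j' a e x ∂(μH[1] : Measure ℂ) := by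
    have h1 : tdiv X j = fun x => ζ (dist x a) * forceC j a e x := by
      funext x
      rw [tdiv, hXd, inner_smul_left, forceC]
      simp only [RCLike.conj_to_real]
      rcases eq_or_ne (dist x a) 0 with h2 | h2
      · rw [h2]
        simp
      rcases eq_or_ne (‖j x‖) 0 with h3 | h3
      · rw [h3]
        simp
      field_simp
    rw [h1]
    have h2 : ∫ x in tsupport X, ζ (dist x a) * forceC j a e x ∂(μH[1] : Measure ℂ) =
        ∫ x in closedBall a R', ζ (dist x a) * forceC j a e x ∂(μH[1] : Measure ℂ) := by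
      symm
      refine setIntegral_eq_of_subset_of_forall_sdiff_eq_zero hK.measurableSet htK fun x hx => ?_
      rw [hζ0 x hx.2, zero_mul]
    have h3 : ∫ x in closedBall a R', ζ (dist x a) * forceC j a e x ∂(μH[1] : Measure ℂ) =
        ∫ x in C, ζ (dist x a) * forceC j a e x ∂(μH[1] : Measure ℂ) := by
      refine setIntegral_eq_of_subset_of_ae_sdiff_eq_zero hK.measurableSet.nullMeasurableSet
        (fun x hx => (hC hx).2) ?_
      rw [ae_iff]
      refine measure_mono_null ?_ hCn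
      intro x hx
      simp only [mem_ofPred_eq, Classical.not_imp] at hx
      refine ⟨⟨?_, hx.1.1⟩, hx.1.2⟩
      by_contra hxJ
      apply hx.2
      have h4 : j x = 0 := by
        by_contra h5
        exact hxJ ((jrep_mem_jump_iff h.jf (hR hx.1.1)).mpr h5)
      rw [forceC, h4]
      simp
    rw [h2, h3]
    refine setIntegral_congr_fun hCm fun x hx => ?_
    simp only [forceC, hjj x hx]
  -- the term on the rest of the discontinuity set
  have hfinK : (μH[1] : Measure ℂ) (discSet Ω u ∩ closedBall a R') < ⊤ := h.fin_S _ hK hR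
  obtain ⟨M, hM⟩ := hc.exists_bound_of_continuous hζ.continuous
  have hint : ∀ (A : Set ℂ) (f : ℂ → ℝ), A ⊆ discSet Ω u ∩ closedBall a R' → Measurable f →
      (∀ x, |f x| ≤ 2) → IntegrableOn (fun x => ζ (dist x a) * f x) A (μH[1] : Measure ℂ) := by
    intro A f hA hf hf2
    refine Measure.integrableOn_of_bounded (M := M * 2)
      (lt_of_le_of_lt (measure_mono hA) hfinK).ne (hlamc.measurable.mul hf).aestronglyMeasurable
      (Eventually.of_forall fun x => ?_)
    rw [norm_mul]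
    exact mul_le_mul (hM _) (hf2 x) (norm_nonneg _) ((norm_nonneg _).trans (hM 0))
  have hI3 : ∫ x in (discSet Ω u \ jumpSet Ω u) ∩ tsupport X, ζ (dist x a)
        ∂(μH[1] : Measure ℂ) ≤
      ∫ x in (discSet Ω u ∩ closedBall a R') \ C, ζ (dist x a) ∂(μH[1] : Measure ℂ) := by
    refine setIntegral_mono_set ?_ (Eventually.of_forall fun x => hpos _) (LE.le.eventuallyLE ?_)
    · have := hint _ (fun _ => 1) (sdiff_subset (s := discSet Ω u ∩ closedBall a R') (t := C))
        measurable_const (fun x => by norm_num)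
      simpa using this
    · rintro x ⟨⟨hx1, hx2⟩, hx3⟩
      exact ⟨⟨hx1, htK hx3⟩, fun hxC => hx2 (hC hxC).1⟩
  have hCS : C ⊆ discSet Ω u ∩ closedBall a R' := fun x hx =>
    ⟨jrep_jump_subset h.isOpen h.intu (hC hx).1, (hC hx).2⟩
  have hsum : ∫ x in C, ζ (dist x a) * (1 + forceC j' a e x) ∂(μH[1] : Measure ℂ) =
      ∫ x in C, ζ (dist x a) ∂(μH[1] : Measure ℂ) +
      ∫ x in C, ζ (dist x a) * forceC j' a e x ∂(μH[1] : Measure ℂ) := by
    rw [← integral_add]
    · refine integral_congr_ae (Eventually.of_forall fun x => ?_)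
      simp only
      ring
    · have := hint C (fun _ => 1) hCS measurable_const (fun x => by norm_num)
      simp only [mul_one] at this
      exact this
    · exact hint C _ hCS (forceC_measurable hj' a e) fun x =>
        (forceC_le he x).trans (by norm_num)
  rw [hsum]
  linarith [hfv, hI1, hI2, hI3]

theorem force_measurable_T {g : ℂ → ℂ} (hg : Measurable g) (a : ℂ) :
    Measurable fun s => Tq g a s + Vq g a s := by
  have hpc : Measurable fun p : ℝ × ℝ => pc a p.1 p.2 := by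
    unfold pc er
    fun_prop
  have her : Measurable fun p : ℝ × ℝ => er p.2 := by
    unfold er
    fun_prop
  have het : Measurable fun p : ℝ × ℝ => et p.2 := by
    unfold et
    fun_prop
  have h1 : Measurable fun p : ℝ × ℝ => (inner ℝ (g (pc a p.1 p.2)) (et p.2)) ^ 2 :=
    ((hg.comp hpc).inner het).pow_const 2
  have h2 : Measurable fun p : ℝ × ℝ => (inner ℝ (g (pc a p.1 p.2)) (er p.2)) ^ 2 :=
    ((hg.comp hpc).inner her).pow_const 2
  have h3 := (h1.stronglyMeasurable.integral_prod_right'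
    (ν := volume.restrict (Ioo (-Real.pi) Real.pi))).measurable
  have h4 := (h2.stronglyMeasurable.integral_prod_right'
    (ν := volume.restrict (Ioo (-Real.pi) Real.pi))).measurable
  exact (measurable_id.mul h3).add (measurable_id.mul h4)

theorem force_nonneg_T (g : ℂ → ℂ) (a : ℂ) {s : ℝ} (hs : 0 ≤ s) : 0 ≤ Tq g a s + Vq g a s := by
  unfold Tq Vq
  have h1 : 0 ≤ ∫ θ in Ioo (-Real.pi) Real.pi, (inner ℝ (g (pc a s θ)) (et θ)) ^ 2 :=
    integral_nonneg fun θ => sq_nonneg _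
  have h2 : 0 ≤ ∫ θ in Ioo (-Real.pi) Real.pi, (inner ℝ (g (pc a s θ)) (er θ)) ^ 2 :=
    integral_nonneg fun θ => sq_nonneg _
  positivity

theorem force_norm_er (θ : ℝ) : ‖er θ‖ = 1 := by
  rw [er, Complex.norm_exp_ofReal_mul_I]

theorem force_norm_et (θ : ℝ) : ‖et θ‖ = 1 := by
  rw [et, norm_mul, Complex.norm_I, one_mul, Complex.norm_exp_ofReal_mul_I]

theorem force_integrable_T {g : ℂ → ℂ} (hg : Measurable g) {a : ℂ} {R' : ℝ}
    (hfin : IntegrableOn (fun x => ‖g x‖ ^ 2) (closedBall a R')) :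
    IntegrableOn (fun s => Tq g a s + Vq g a s) (Ioo 0 R') := by
  have h1 : IntegrableOn (fun x => ‖g x‖ ^ 2) {x | dist x a ∈ Ioo 0 R'} :=
    hfin.mono_set fun x hx => le_of_lt hx.2
  rw [polar_integrable a measurableSet_Ioo (fun s hs => hs.1)] at h1
  rw [IntegrableOn, Measure.volume_eq_prod, ← Measure.prod_restrict] at h1
  have h2 := h1.integral_prod_left
  have h3 := h1.prod_right_ae
  have h4 : Integrable (fun s => 2 * ∫ θ in Ioo (-Real.pi) Real.pi, s • ‖g (pc a s θ)‖ ^ 2)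
      (volume.restrict (Ioo 0 R')) := h2.const_mul 2
  refine Integrable.mono' h4 (force_measurable_T hg a).aestronglyMeasurable ?_
  have h5 : ∀ᵐ s ∂volume.restrict (Ioo 0 R'), s ∈ Ioo 0 R' := ae_restrict_mem measurableSet_Ioo
  filter_upwards [h3, h5] with s hs hs0
  rw [Real.norm_of_nonneg (force_nonneg_T g a hs0.1.le)]
  have key : ∀ v : ℝ → ℂ, (∀ θ, ‖v θ‖ = 1) →
      s * ∫ θ in Ioo (-Real.pi) Real.pi, (inner ℝ (g (pc a s θ)) (v θ)) ^ 2 ≤
      ∫ θ in Ioo (-Real.pi) Real.pi, s • ‖g (pc a s θ)‖ ^ 2 := by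
    intro v hv
    rw [← integral_const_mul]
    refine integral_mono_of_nonneg (Eventually.of_forall fun θ => ?_) hs
      (Eventually.of_forall fun θ => ?_)
    · exact mul_nonneg hs0.1.le (sq_nonneg _)
    · simp only [smul_eq_mul]
      refine mul_le_mul_of_nonneg_left ?_ hs0.1.le
      have h6 := abs_real_inner_le_norm (g (pc a s θ)) (v θ)
      rw [hv, mul_one] at h6
      rw [← sq_abs]
      exact pow_le_pow_left₀ (abs_nonneg _) h6 2
  have h6 := key et force_norm_et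
  have h7 := key er force_norm_er
  unfold Tq Vq
  linarith

/-- FORCE, step 2: the inequality for Borel sets of radii. -/
theorem force_measure {Ω : Set ℂ} {u : ℂ → ℝ} {g j : ℂ → ℂ} (h : MSMin Ω u g j) {a : ℂ} {R' : ℝ}
    (hR0 : 0 < R') (hR : closedBall a R' ⊆ Ω) {C : Set ℂ} {j' : ℂ → ℂ}
    (hC : C ⊆ jumpSet Ω u ∩ closedBall a R') (hCm : MeasurableSet C)
    (hCn : (μH[1] : Measure ℂ) ((jumpSet Ω u ∩ closedBall a R') \ C) = 0)
    (hj' : Measurable j') (hjj : ∀ x ∈ C, j' x = j x) {e : ℂ} (he : ‖e‖ = 1) {P : Set ℝ}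
    (hP : MeasurableSet P) (hPR : P ⊆ Ioo 0 R') :
    (μH[1] : Measure ℂ) (C ∩ (fun x => dist x a) ⁻¹' P) ≤
      (∫⁻ s in P, ENNReal.ofReal (Tq g a s + Vq g a s)) +
      (∫⁻ x in C ∩ (fun x => dist x a) ⁻¹' P, ENNReal.ofReal (1 + forceC j' a e x)
        ∂(μH[1] : Measure ℂ)) +
      (μH[1] : Measure ℂ) (((discSet Ω u ∩ closedBall a R') \ C) ∩ (fun x => dist x a) ⁻¹' P) := by
  have hK : IsCompact (closedBall a R') := isCompact_closedBall _ _
  have hfinK : (μH[1] : Measure ℂ) (discSet Ω u ∩ closedBall a R') < ⊤ := h.fin_S _ hK hR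
  have hCS : C ⊆ discSet Ω u ∩ closedBall a R' := fun x hx =>
    ⟨jrep_jump_subset h.isOpen h.intu (hC hx).1, (hC hx).2⟩
  set f : ℝ → ℝ := fun s => Tq g a s + Vq g a s with hf
  have hfm : Measurable f := force_measurable_T h.meas_g a
  have hfi : IntegrableOn f (Ioo 0 R') := force_integrable_T h.meas_g (h.fin_g _ hK hR)
  have hρ : Measurable fun x : ℂ => dist x a := measurable_id.dist measurable_const
  have hcm : Measurable fun x => 1 + forceC j' a e x := (forceC_measurable hj' a e).const_add 1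
  have hc0 : ∀ x, 0 ≤ 1 + forceC j' a e x := fun x => by
    have := (abs_le.mp (forceC_le (j := j') (a := a) he x)).1
    linarith
  have hc2 : ∀ x, 1 + forceC j' a e x ≤ 2 := fun x => by
    have := (abs_le.mp (forceC_le (j := j') (a := a) he x)).2
    linarith
  set μC := (μH[1] : Measure ℂ).restrict C with hμC
  set μS := (μH[1] : Measure ℂ).restrict ((discSet Ω u ∩ closedBall a R') \ C) with hμS
  have hμCf : IsFiniteMeasure μC := ⟨by
    rw [hμC, Measure.restrict_apply_univ]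
    exact lt_of_le_of_lt (measure_mono hCS) hfinK⟩
  have hμSf : IsFiniteMeasure μS := ⟨by
    rw [hμS, Measure.restrict_apply_univ]
    exact lt_of_le_of_lt (measure_mono sdiff_subset) hfinK⟩
  set m1 := (volume.restrict (Ioo 0 R')).withDensity (fun s => ENNReal.ofReal (f s)) with hm1
  set m2 := μC.withDensity (fun x => ENNReal.ofReal (1 + forceC j' a e x)) with hm2
  have hm1f : IsFiniteMeasure m1 := isFiniteMeasure_withDensity_ofReal hfi.2
  have hm2f : IsFiniteMeasure m2 := by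
    refine isFiniteMeasure_withDensity ?_
    refine (lt_of_le_of_lt (lintegral_mono (g := fun _ => (2 : ℝ≥0∞)) fun x => ?_) ?_).ne
    · rw [show (2 : ℝ≥0∞) = ENNReal.ofReal 2 by norm_num]
      exact ENNReal.ofReal_le_ofReal (hc2 x)
    · rw [lintegral_const]
      exact ENNReal.mul_lt_top (by norm_num) (measure_lt_top _ _)
  have hmain : (μC.map fun x => dist x a) P ≤
      (m1 + (m2.map fun x => dist x a) + (μS.map fun x => dist x a)) P := by
    refine measure_le_of_smooth (a := 0) (b := R') ?_ hP hPR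
    intro ζ hζ hc hs hpos
    have hζi : ∀ (m : Measure ℝ) [IsFiniteMeasure m], Integrable ζ m := fun m _ =>
      hζ.continuous.integrable_of_hasCompactSupport hc
    rw [integral_add_measure ((hζi _).add_measure (hζi _)) (hζi _),
      integral_add_measure (hζi _) (hζi _)]
    rw [integral_map hρ.aemeasurable hζ.continuous.aestronglyMeasurable,
      integral_map hρ.aemeasurable hζ.continuous.aestronglyMeasurable,
      integral_map hρ.aemeasurable hζ.continuous.aestronglyMeasurable]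
    have h1 : ∫ s, ζ s ∂m1 = ∫ s in Ioo 0 R', ζ s * (Tq g a s + Vq g a s) := by
      rw [hm1, integral_withDensity_eq_integral_toReal_smul hfm.ennreal_ofReal
        (Eventually.of_forall fun _ => ENNReal.ofReal_lt_top)]
      refine setIntegral_congr_fun measurableSet_Ioo fun s hs' => ?_
      simp only [hf]
      rw [ENNReal.toReal_ofReal (force_nonneg_T g a hs'.1.le), smul_eq_mul, mul_comm]
    have h2 : ∫ x, ζ (dist x a) ∂m2 =
        ∫ x in C, ζ (dist x a) * (1 + forceC j' a e x) ∂(μH[1] : Measure ℂ) := by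
      rw [hm2, integral_withDensity_eq_integral_toReal_smul hcm.ennreal_ofReal
        (Eventually.of_forall fun _ => ENNReal.ofReal_lt_top)]
      refine integral_congr_ae (Eventually.of_forall fun x => ?_)
      simp only
      rw [ENNReal.toReal_ofReal (hc0 x), smul_eq_mul, mul_comm]
    rw [h1, h2]
    exact force_var h hR0 hR hC hCm hCn hj' hjj he hζ hc hs hpos
  rw [Measure.add_apply, Measure.add_apply, Measure.map_apply hρ hP, Measure.map_apply hρ hP,
    Measure.map_apply hρ hP, hm1, hm2, withDensity_apply _ hP, withDensity_apply _ (hρ hP),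
    hμC, hμS, Measure.restrict_apply (hρ hP), Measure.restrict_apply (hρ hP),
    Measure.restrict_restrict hP, Measure.restrict_restrict (hρ hP),
    inter_eq_left.mpr hPR, inter_comm _ C, inter_comm _ ((discSet Ω u ∩ closedBall a R') \ C)]
    at hmain
  exact hmain

/-! ### Geometry of a flat piece -/

theorem force_unit {z w : ℂ} {δ : ℝ} (hδ : 0 < δ) (hz : δ ≤ ‖z‖) (hw : δ ≤ ‖w‖) :
    ‖(‖z‖⁻¹ : ℝ) • z - (‖w‖⁻¹ : ℝ) • w‖ ≤ 2 * ‖z - w‖ / δ := by
  have hz0 : 0 < ‖z‖ := hδ.trans_le hz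
  have hw0 : 0 < ‖w‖ := hδ.trans_le hw
  have h1 : (‖z‖⁻¹ : ℝ) • z - (‖w‖⁻¹ : ℝ) • w =
      (‖w‖⁻¹ : ℝ) • (z - w) + (‖z‖⁻¹ - ‖w‖⁻¹ : ℝ) • z := by
    rw [smul_sub, sub_smul]
    abel
  rw [h1]
  refine (norm_add_le _ _).trans ?_
  rw [norm_smul, norm_smul, norm_inv, norm_norm, Real.norm_eq_abs]
  have h2 : |‖z‖⁻¹ - ‖w‖⁻¹| * ‖z‖ ≤ ‖w‖⁻¹ * ‖z - w‖ := by
    have h3 : ‖z‖⁻¹ - ‖w‖⁻¹ = (‖w‖ - ‖z‖) * (‖z‖⁻¹ * ‖w‖⁻¹) := by field_simp
    rw [h3, abs_mul, abs_of_pos (show 0 < ‖z‖⁻¹ * ‖w‖⁻¹ by positivity)]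
    have h4 : |‖w‖ - ‖z‖| ≤ ‖z - w‖ := by
      rw [norm_sub_rev]
      exact abs_norm_sub_norm_le _ _
    calc |‖w‖ - ‖z‖| * (‖z‖⁻¹ * ‖w‖⁻¹) * ‖z‖ = ‖w‖⁻¹ * |‖w‖ - ‖z‖| := by field_simp
      _ ≤ ‖w‖⁻¹ * ‖z - w‖ := by gcongr
  have h3 : ‖w‖⁻¹ ≤ δ⁻¹ := inv_anti₀ hδ hw
  calc ‖w‖⁻¹ * ‖z - w‖ + |‖z‖⁻¹ - ‖w‖⁻¹| * ‖z‖ ≤ ‖w‖⁻¹ * ‖z - w‖ + ‖w‖⁻¹ * ‖z - w‖ := by gcongr
    _ ≤ δ⁻¹ * ‖z - w‖ + δ⁻¹ * ‖z - w‖ := by gcongr
    _ = 2 * ‖z - w‖ / δ := by field_simp; norm_num

theorem force_lip {n p q r : ℂ} (hn : ‖n‖ = 1) {δ ε : ℝ} (hδ : 0 < δ) (hp : δ ≤ ‖p‖)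
    (hq : δ ≤ ‖q‖) (hr : δ ≤ ‖r‖) (hpr : ‖p - r‖ ≤ ε) (hqr : ‖q - r‖ ≤ ε)
    (hflat : |inner ℝ (q - p) n| ≤ ε * ‖q - p‖) :
    |‖q‖ - ‖p‖| ≤ (|inner ℝ ((‖r‖⁻¹ : ℝ) • r) (Complex.I * n)| + ε + 2 * ε / δ) * ‖q - p‖ := by
  have hp0 : 0 < ‖p‖ := hδ.trans_le hp
  have hq0 : 0 < ‖q‖ := hδ.trans_le hq
  have hr0 : 0 < ‖r‖ := hδ.trans_le hr
  have hε : 0 ≤ ε := (norm_nonneg _).trans hpr
  obtain ⟨r', hr'⟩ : ∃ r', r' = (‖r‖⁻¹ : ℝ) • r := ⟨_, rfl⟩
  rw [← hr']
  have hr'1 : ‖r'‖ = 1 := by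
    rw [hr', norm_smul, norm_inv, norm_norm, inv_mul_cancel₀ hr0.ne']
  obtain ⟨v, hv⟩ : ∃ v, v = ((‖q‖ + ‖p‖)⁻¹ : ℝ) • (q + p) := ⟨_, rfl⟩
  have h1 : ‖q‖ - ‖p‖ = inner ℝ (q - p) v := by
    rw [hv, inner_smul_right, inner_sub_left, inner_add_right, inner_add_right,
      real_inner_self_eq_norm_sq, real_inner_self_eq_norm_sq, real_inner_comm q p]
    field_simp
    ring
  have h2 : ‖v - r'‖ ≤ 2 * ε / δ := by
    have h3 : v - r' = (‖q‖ / (‖q‖ + ‖p‖) : ℝ) • ((‖q‖⁻¹ : ℝ) • q - r') +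
        (‖p‖ / (‖q‖ + ‖p‖) : ℝ) • ((‖p‖⁻¹ : ℝ) • p - r') := by
      rw [hv, smul_sub, smul_sub, smul_smul, smul_smul, smul_add]
      have h4 : ‖q‖ / (‖q‖ + ‖p‖) * ‖q‖⁻¹ = (‖q‖ + ‖p‖)⁻¹ := by field_simp
      have h5 : ‖p‖ / (‖q‖ + ‖p‖) * ‖p‖⁻¹ = (‖q‖ + ‖p‖)⁻¹ := by field_simp
      have h6 : r' = (‖q‖ / (‖q‖ + ‖p‖) : ℝ) • r' + (‖p‖ / (‖q‖ + ‖p‖) : ℝ) • r' := by
        rw [← add_smul, ← add_div, div_self (by positivity), one_smul]
      rw [h4, h5]
      conv_lhs => rw [h6]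
      abel
    have h4 := force_unit hδ hq hr
    have h5 := force_unit hδ hp hr
    rw [← hr'] at h4 h5
    have h6 : ‖(‖q‖⁻¹ : ℝ) • q - r'‖ ≤ 2 * ε / δ := h4.trans (by gcongr)
    have h7 : ‖(‖p‖⁻¹ : ℝ) • p - r'‖ ≤ 2 * ε / δ := h5.trans (by gcongr)
    rw [h3]
    refine (norm_add_le _ _).trans ?_
    rw [norm_smul, norm_smul, Real.norm_of_nonneg (by positivity),
      Real.norm_of_nonneg (by positivity)]
    calc ‖q‖ / (‖q‖ + ‖p‖) * ‖(‖q‖⁻¹ : ℝ) • q - r'‖ + ‖p‖ / (‖q‖ + ‖p‖) * ‖(‖p‖⁻¹ : ℝ) • p - r'‖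
        ≤ ‖q‖ / (‖q‖ + ‖p‖) * (2 * ε / δ) + ‖p‖ / (‖q‖ + ‖p‖) * (2 * ε / δ) := by gcongr
      _ = 2 * ε / δ := by
        rw [← add_mul, ← add_div, div_self (by positivity), one_mul]
  have h3 : inner ℝ (q - p) v = inner ℝ (q - p) r' + inner ℝ (q - p) (v - r') := by
    rw [← inner_add_right]
    congr 1
    abel
  have h4 : |inner ℝ (q - p) r'| ≤ (|inner ℝ r' (Complex.I * n)| + ε) * ‖q - p‖ := by
    have hdec : inner ℝ (q - p) r' = inner ℝ (q - p) n * inner ℝ n r' +
        inner ℝ (q - p) (Complex.I * n) * inner ℝ (Complex.I * n) r' := by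
      have hnn : n.re ^ 2 + n.im ^ 2 = 1 := by
        have h1 := Complex.sq_norm n
        rw [hn, Complex.normSq_apply] at h1
        nlinarith [h1]
      simp only [Complex.inner, Complex.mul_re, Complex.mul_im, Complex.conj_re, Complex.conj_im,
        Complex.I_re, Complex.I_im]
      linear_combination (-(((q - p).re) * r'.re + ((q - p).im) * r'.im)) * hnn
    have h5 : |inner ℝ n r'| ≤ 1 := by
      have := abs_real_inner_le_norm n r'
      rwa [hn, hr'1, mul_one] at this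
    have h6 : |inner ℝ (q - p) (Complex.I * n)| ≤ ‖q - p‖ := by
      have := abs_real_inner_le_norm (q - p) (Complex.I * n)
      rwa [norm_mul, Complex.norm_I, hn, one_mul, mul_one] at this
    rw [hdec]
    refine (abs_add_le _ _).trans ?_
    rw [abs_mul, abs_mul, real_inner_comm r' (Complex.I * n)]
    calc |inner ℝ (q - p) n| * |inner ℝ n r'| +
          |inner ℝ (q - p) (Complex.I * n)| * |inner ℝ r' (Complex.I * n)|
        ≤ (ε * ‖q - p‖) * 1 + ‖q - p‖ * |inner ℝ r' (Complex.I * n)| := by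
          gcongr
      _ = _ := by ring
  have h5 : |inner ℝ (q - p) (v - r')| ≤ 2 * ε / δ * ‖q - p‖ := by
    refine (abs_real_inner_le_norm _ _).trans ?_
    rw [mul_comm]
    gcongr
  rw [h1, h3]
  refine (abs_add_le _ _).trans ?_
  calc |inner ℝ (q - p) r'| + |inner ℝ (q - p) (v - r')|
      ≤ (|inner ℝ r' (Complex.I * n)| + ε) * ‖q - p‖ + 2 * ε / δ * ‖q - p‖ := add_le_add h4 h5
    _ = _ := by ring

theorem force_dir {j : ℂ → ℂ} {a n x₀ : ℂ} (hn : ‖n‖ = 1) {δ ε : ℝ} (hδ : 0 < δ)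
    (hx₀ : δ ≤ ‖x₀ - a‖) :
    ∃ e : ℂ, ‖e‖ = 1 ∧ ∀ x, δ ≤ ‖x - a‖ → ‖x - x₀‖ ≤ ε → j x ≠ 0 →
      (‖(‖j x‖⁻¹ : ℝ) • j x - n‖ ≤ ε ∨ ‖(‖j x‖⁻¹ : ℝ) • j x + n‖ ≤ ε) →
      forceC j a e x ≤ -|inner ℝ ((‖x₀ - a‖⁻¹ : ℝ) • (x₀ - a)) (Complex.I * n)| +
        (2 * ε / δ + 2 * ε) := by
  obtain ⟨r, hr⟩ : ∃ r, r = (‖x₀ - a‖⁻¹ : ℝ) • (x₀ - a) := ⟨_, rfl⟩
  rw [← hr]
  have hr0 : 0 < ‖x₀ - a‖ := hδ.trans_le hx₀
  have hr1 : ‖r‖ = 1 := by
    rw [hr, norm_smul, norm_inv, norm_norm, inv_mul_cancel₀ hr0.ne']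
  have hI : ‖Complex.I * n‖ = 1 := by rw [norm_mul, Complex.norm_I, one_mul, hn]
  -- the direction
  obtain ⟨σ, hσ1, hσ⟩ : ∃ σ : ℝ, |σ| = 1 ∧
      σ * inner ℝ r (Complex.I * n) = -|inner ℝ r (Complex.I * n)| := by
    rcases le_or_gt 0 (inner ℝ r (Complex.I * n)) with h | h
    · exact ⟨-1, by norm_num, by rw [abs_of_nonneg h]; ring⟩
    · exact ⟨1, by norm_num, by rw [abs_of_neg h]; ring⟩
  obtain ⟨e, he⟩ : ∃ e, e = σ • (Complex.I * n) := ⟨_, rfl⟩
  have he1 : ‖e‖ = 1 := by rw [he, norm_smul, hI, mul_one, Real.norm_eq_abs, hσ1]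
  refine ⟨e, he1, ?_⟩
  have heI : inner ℝ e (Complex.I * n) = σ := by
    rw [he, inner_smul_left, real_inner_self_eq_norm_sq, hI]
    simp
  intro x hx hxx hjx hw
  have hx0 : 0 < ‖x - a‖ := hδ.trans_le hx
  have hj0 : 0 < ‖j x‖ := norm_pos_iff.mpr hjx
  have hε : 0 ≤ ε := (norm_nonneg _).trans hxx
  obtain ⟨x', hx'⟩ : ∃ x', x' = (‖x - a‖⁻¹ : ℝ) • (x - a) := ⟨_, rfl⟩
  have hx'1 : ‖x'‖ = 1 := by
    rw [hx', norm_smul, norm_inv, norm_norm, inv_mul_cancel₀ hx0.ne']
  obtain ⟨w, hwdef⟩ : ∃ w, w = (‖j x‖⁻¹ : ℝ) • j x := ⟨_, rfl⟩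
  rw [← hwdef] at hw
  have hw1 : ‖w‖ = 1 := by
    rw [hwdef, norm_smul, norm_inv, norm_norm, inv_mul_cancel₀ hj0.ne']
  have hform : forceC j a e x = inner ℝ x' (Complex.I * w) * inner ℝ e (Complex.I * w) := by
    rw [forceC, hx', hwdef, mul_smul_comm, inner_smul_left, inner_smul_right, inner_smul_right,
      dist_eq_norm]
    simp only [RCLike.conj_to_real]
    field_simp
  have hxr : ‖x' - r‖ ≤ 2 * ε / δ := by
    rw [hx', hr]
    refine (force_unit hδ hx hx₀).trans ?_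
    have : x - a - (x₀ - a) = x - x₀ := by ring
    rw [this]
    gcongr
  -- the estimate for a normal close to `n'`
  have key : ∀ n' : ℂ, ‖n'‖ = 1 → ‖w - n'‖ ≤ ε →
      inner ℝ r (Complex.I * n') * inner ℝ e (Complex.I * n') =
        -|inner ℝ r (Complex.I * n)| →
      inner ℝ x' (Complex.I * w) * inner ℝ e (Complex.I * w) ≤
        -|inner ℝ r (Complex.I * n)| + (2 * ε / δ + 2 * ε) := by
    intro n' hn' hwn hval
    have hI' : ‖Complex.I * n'‖ = 1 := by rw [norm_mul, Complex.norm_I, one_mul, hn']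
    have hIw : ‖Complex.I * w‖ = 1 := by rw [norm_mul, Complex.norm_I, one_mul, hw1]
    have h1 : inner ℝ x' (Complex.I * w) * inner ℝ e (Complex.I * w) -
        inner ℝ r (Complex.I * n') * inner ℝ e (Complex.I * n') =
        (inner ℝ (x' - r) (Complex.I * w) + inner ℝ r (Complex.I * (w - n'))) *
          inner ℝ e (Complex.I * w) +
        inner ℝ r (Complex.I * n') * inner ℝ e (Complex.I * (w - n')) := by
      rw [mul_sub, inner_sub_left, inner_sub_right, inner_sub_right]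
      ring
    have hwn' : ‖Complex.I * (w - n')‖ ≤ ε := by rwa [norm_mul, Complex.norm_I, one_mul]
    have b1 : |inner ℝ (x' - r) (Complex.I * w)| ≤ 2 * ε / δ := by
      have := abs_real_inner_le_norm (x' - r) (Complex.I * w)
      rw [hIw, mul_one] at this
      exact this.trans hxr
    have b2 : |inner ℝ r (Complex.I * (w - n'))| ≤ ε := by
      have := abs_real_inner_le_norm r (Complex.I * (w - n'))
      rw [hr1, one_mul] at this
      exact this.trans hwn'
    have b3 : |inner ℝ e (Complex.I * w)| ≤ 1 := by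
      have := abs_real_inner_le_norm e (Complex.I * w)
      rwa [he1, hIw, mul_one] at this
    have b4 : |inner ℝ r (Complex.I * n')| ≤ 1 := by
      have := abs_real_inner_le_norm r (Complex.I * n')
      rwa [hr1, hI', mul_one] at this
    have b5 : |inner ℝ e (Complex.I * (w - n'))| ≤ ε := by
      have := abs_real_inner_le_norm e (Complex.I * (w - n'))
      rw [he1, one_mul] at this
      exact this.trans hwn'
    have h2 : |(inner ℝ (x' - r) (Complex.I * w) + inner ℝ r (Complex.I * (w - n'))) *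
          inner ℝ e (Complex.I * w) +
        inner ℝ r (Complex.I * n') * inner ℝ e (Complex.I * (w - n'))| ≤
        2 * ε / δ + 2 * ε := by
      refine (abs_add_le _ _).trans ?_
      rw [abs_mul, abs_mul]
      have c1 : |inner ℝ (x' - r) (Complex.I * w) + inner ℝ r (Complex.I * (w - n'))| ≤
          2 * ε / δ + ε := (abs_add_le _ _).trans (add_le_add b1 b2)
      have c0 : 0 ≤ 2 * ε / δ + ε := by positivity
      calc |inner ℝ (x' - r) (Complex.I * w) + inner ℝ r (Complex.I * (w - n'))| *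
            |inner ℝ e (Complex.I * w)| +
            |inner ℝ r (Complex.I * n')| * |inner ℝ e (Complex.I * (w - n'))|
          ≤ (2 * ε / δ + ε) * 1 + 1 * ε := by gcongr
        _ = _ := by ring
    have h3 := (abs_le.mp h2).2
    rw [← h1] at h3
    linarith
  rw [hform]
  rcases hw with hw | hw
  · refine key n hn hw ?_
    rw [heI, mul_comm, hσ]
  · refine key (-n) (by rw [norm_neg, hn]) (by rwa [sub_neg_eq_add]) ?_
    rw [mul_neg, inner_neg_right, inner_neg_right, neg_mul_neg, heI, mul_comm, hσ]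

/-! ### The estimate on Borel sets of good radii -/

theorem force_lim {a b c : ℝ≥0∞} (hc : c ≠ ⊤) (h : ∀ η : ℝ, 0 < η → a ≤ b + ENNReal.ofReal η * c) :
    a ≤ b := by
  have h1 : Tendsto (fun η : ℝ => b + ENNReal.ofReal η * c) (𝓝[>] 0)
      (𝓝 (b + ENNReal.ofReal 0 * c)) := by
    refine Tendsto.const_add b ?_
    refine ENNReal.Tendsto.mul_const ?_ (Or.inr hc)
    exact (ENNReal.continuous_ofReal.tendsto 0).mono_left nhdsWithin_le_nhds
  rw [ENNReal.ofReal_zero, zero_mul, add_zero] at h1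
  exact ge_of_tendsto h1 (eventually_mem_nhdsWithin.mono fun η hη => h η hη)

/-- The arithmetic of FORCE: `H ≤ F + (1 - l + κ) H` implies `l H ≤ F + κ H`. -/
theorem force_arith {H F : ℝ≥0∞} (hH : H ≠ ⊤) {l κ : ℝ} (hl0 : 0 ≤ l) (hl1 : l ≤ 1) (hκ : 0 ≤ κ)
    (h : H ≤ F + ENNReal.ofReal (1 - l + κ) * H) :
    ENNReal.ofReal l * H ≤ F + ENNReal.ofReal κ * H := by
  have h1 : H + ENNReal.ofReal l * H ≤ F + ENNReal.ofReal κ * H + H := by
    calc H + ENNReal.ofReal l * H ≤ F + ENNReal.ofReal (1 - l + κ) * H + ENNReal.ofReal l * H :=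
          add_le_add h le_rfl
      _ = F + ENNReal.ofReal (1 + κ) * H := by
          rw [add_assoc, ← add_mul, ← ENNReal.ofReal_add (by linarith) hl0]
          congr 3
          ring
      _ = F + ENNReal.ofReal κ * H + H := by
          rw [ENNReal.ofReal_add zero_le_one hκ, ENNReal.ofReal_one, add_mul, one_mul,
            add_comm H, add_assoc]
  rw [add_comm H] at h1
  exact (ENNReal.add_le_add_iff_right hH).mp h1

/-- FORCE, step 3: the estimate for a Borel set `P` of radii such that the circles of radius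
`s ∈ P` meet the jump set in one point and the rest of the discontinuity set in no point. -/
theorem force_le {Ω : Set ℂ} {u : ℂ → ℝ} {g j : ℂ → ℂ} (h : MSMin Ω u g j) {a : ℂ} {R' : ℝ}
    (hR0 : 0 < R') (hR : closedBall a R' ⊆ Ω) {C : Set ℂ} {j' : ℂ → ℂ}
    (hC : C ⊆ jumpSet Ω u ∩ closedBall a R') (hCm : MeasurableSet C)
    (hCn : (μH[1] : Measure ℂ) ((jumpSet Ω u ∩ closedBall a R') \ C) = 0)
    (hj' : Measurable j') (hjj : ∀ x ∈ C, j' x = j x) {δ : ℝ} (hδ : 0 < δ) {P : Set ℝ}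
    (hP : MeasurableSet P) (hPR : P ⊆ Ioo δ R')
    (hPi : InjOn (fun x => dist x a) (C ∩ (fun x => dist x a) ⁻¹' P))
    (hPs : P ⊆ (fun x => dist x a) '' C)
    (hPS : (μH[1] : Measure ℂ) (((discSet Ω u ∩ closedBall a R') \ C) ∩
      (fun x => dist x a) ⁻¹' P) = 0) :
    volume P ≤ ∫⁻ s in P, ENNReal.ofReal (Tq g a s + Vq g a s) := by
  have hK : IsCompact (closedBall a R') := isCompact_closedBall _ _
  have hfinK : (μH[1] : Measure ℂ) (discSet Ω u ∩ closedBall a R') < ⊤ := h.fin_S _ hK hR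
  have hCS : C ⊆ discSet Ω u ∩ closedBall a R' := fun x hx =>
    ⟨jrep_jump_subset h.isOpen h.intu (hC hx).1, (hC hx).2⟩
  have hCf : (μH[1] : Measure ℂ) C ≠ ⊤ := (lt_of_le_of_lt (measure_mono hCS) hfinK).ne
  set ρ : ℂ → ℝ := fun x => dist x a with hρ
  have hρc : Continuous ρ := continuous_id.dist continuous_const
  have hρm : Measurable ρ := hρc.measurable
  refine force_lim hCf fun η hη => ?_
  set ε := η / (3 + 4 / δ) with hε
  have hε0 : 0 < ε := by positivity
  have hεη : 3 * ε + 4 * ε / δ = η := by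
    rw [hε]
    field_simp
  obtain ⟨E, n, hEm, hEd, hEC, hn, hflat, hdir⟩ :=
    jump_pieces h.toSBVData hCm (fun x hx => (hC hx).1) hj' hjj hε0
  have hEC' : ∀ i, E i ⊆ C := fun i => hEC ▸ subset_iUnion E i
  set Q : ℕ → Set ℂ := fun i => E i ∩ ρ ⁻¹' P with hQ
  have hQm : ∀ i, MeasurableSet (Q i) := fun i => (hEm i).inter (hρm hP)
  have hQC : ∀ i, Q i ⊆ C ∩ ρ ⁻¹' P := fun i x hx => ⟨hEC' i hx.1, hx.2⟩
  have hPQm : ∀ i, MeasurableSet (ρ '' Q i) := fun i =>
    (hQm i).image_of_continuousOn_injOn hρc.continuousOn (hPi.mono (hQC i))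
  have hPQ : ⋃ i, ρ '' Q i = P := by
    apply Subset.antisymm
    · refine iUnion_subset fun i => ?_
      rintro _ ⟨x, hx, rfl⟩
      exact hx.2
    · intro s hs
      obtain ⟨x, hx, rfl⟩ := hPs hs
      have hx' := hx
      rw [← hEC, mem_iUnion] at hx'
      obtain ⟨i, hi⟩ := hx'
      exact mem_iUnion.mpr ⟨i, x, ⟨hi, hs⟩, rfl⟩
  have hPQd : Pairwise (Function.onFun Disjoint fun i => ρ '' Q i) := by
    intro i k hik
    simp only [Function.onFun]
    rw [Set.disjoint_left]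
    rintro _ ⟨x, hx, rfl⟩ ⟨y, hy, hxy⟩
    have hxy' : y = x := hPi (hQC k hy) (hQC i hx) hxy
    rw [hxy'] at hy
    exact Set.disjoint_left.mp (hEd hik) hx.1 hy.1
  -- one piece
  have hone : ∀ i, volume (ρ '' Q i) ≤
      (∫⁻ s in ρ '' Q i, ENNReal.ofReal (Tq g a s + Vq g a s)) +
        ENNReal.ofReal η * (μH[1] : Measure ℂ) (Q i) := by
    intro i
    rcases (Q i).eq_empty_or_nonempty with h0 | ⟨x₀, hx₀⟩
    · rw [h0]
      simp
    have hδx : ∀ x ∈ Q i, δ ≤ ‖x - a‖ := by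
      intro x hx
      rw [← dist_eq_norm]
      exact (hPR hx.2).1.le
    have hQf : (μH[1] : Measure ℂ) (Q i) ≠ ⊤ :=
      (lt_of_le_of_lt (measure_mono fun x hx => hCS (hQC i hx).1) hfinK).ne
    set l := |inner ℝ ((‖x₀ - a‖⁻¹ : ℝ) • (x₀ - a)) (Complex.I * n i)| with hl
    have hl0 : 0 ≤ l := abs_nonneg _
    have hl1 : l ≤ 1 := by
      have h1 := abs_real_inner_le_norm ((‖x₀ - a‖⁻¹ : ℝ) • (x₀ - a)) (Complex.I * n i)
      rw [norm_smul, norm_inv, norm_norm, inv_mul_cancel₀ (hδ.trans_le (hδx x₀ hx₀)).ne',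
        norm_mul, Complex.norm_I, hn, one_mul, one_mul] at h1
      exact h1
    -- the Lipschitz bound
    have h1 : volume (ρ '' Q i) ≤ ENNReal.ofReal (l + ε + 2 * ε / δ) * (μH[1] : Measure ℂ) (Q i) := by
      have hc0 : 0 ≤ l + ε + 2 * ε / δ := by positivity
      have hlip : LipschitzOnWith (Real.toNNReal (l + ε + 2 * ε / δ)) ρ (Q i) := by
        refine LipschitzOnWith.of_dist_le_mul fun x hx y hy => ?_
        rw [Real.coe_toNNReal _ hc0, Real.dist_eq]
        simp only [hρ, dist_eq_norm]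
        have h2 := force_lip (n := n i) (p := y - a) (q := x - a) (r := x₀ - a) (ε := ε) (hn i) hδ
          (hδx y hy) (hδx x hx) (hδx x₀ hx₀) (by
            rw [sub_sub_sub_cancel_right]
            exact (hflat i x₀ hx₀.1 y hy.1).2) (by
            rw [sub_sub_sub_cancel_right]
            exact (hflat i x₀ hx₀.1 x hx.1).2) (by
            rw [sub_sub_sub_cancel_right]
            exact (hflat i y hy.1 x hx.1).1)
        rw [sub_sub_sub_cancel_right] at h2
        exact h2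
      have h3 := hlip.hausdorffMeasure_image_le (d := 1) zero_le_one
      rw [ENNReal.rpow_one, hausdorffMeasure_real] at h3
      exact h3
    -- the force inequality
    obtain ⟨e, he1, he⟩ := force_dir (j := j') (a := a) (n := n i) (x₀ := x₀) (ε := ε) (hn i) hδ
      (hδx x₀ hx₀)
    have h2 := force_measure h hR0 hR hC hCm hCn hj' hjj he1 (hPQm i) (by
      rintro _ ⟨x, hx, rfl⟩
      exact ⟨hδ.trans (hPR hx.2).1, (hPR hx.2).2⟩)
    have h3 : C ∩ (fun x => dist x a) ⁻¹' (ρ '' Q i) = Q i := by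
      apply Subset.antisymm
      · rintro x ⟨hxC, y, hy, hxy⟩
        have hx' : ρ x ∈ P := by
          have : ρ x = ρ y := hxy.symm
          rw [this]
          exact hy.2
        have : y = x := hPi (hQC i hy) ⟨hxC, hx'⟩ hxy
        rwa [← this]
      · intro x hx
        exact ⟨(hQC i hx).1, x, hx, rfl⟩
    have h4 : (μH[1] : Measure ℂ) (((discSet Ω u ∩ closedBall a R') \ C) ∩
        (fun x => dist x a) ⁻¹' (ρ '' Q i)) = 0 := by
      refine measure_mono_null (inter_subset_inter_right _ ?_) hPS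
      rintro x ⟨y, hy, hxy⟩
      show ρ x ∈ P
      have : ρ x = ρ y := hxy.symm
      rw [this]
      exact hy.2
    rw [h3, h4, add_zero] at h2
    have h5 : ∫⁻ x in Q i, ENNReal.ofReal (1 + forceC j' a e x) ∂(μH[1] : Measure ℂ) ≤
        ENNReal.ofReal (1 - l + (2 * ε / δ + 2 * ε)) * (μH[1] : Measure ℂ) (Q i) := by
      rw [← setLIntegral_const]
      refine setLIntegral_mono' (hQm i) fun x hx => ENNReal.ofReal_le_ofReal ?_
      have h6 := he x (hδx x hx) (by exact (hflat i x₀ hx₀.1 x hx.1).2) (hdir i x hx.1).1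
        (hdir i x hx.1).2
      linarith
    have h6 := force_arith hQf hl0 hl1 (show 0 ≤ 2 * ε / δ + 2 * ε by positivity)
      (h2.trans (add_le_add le_rfl h5))
    calc volume (ρ '' Q i) ≤ ENNReal.ofReal (l + ε + 2 * ε / δ) * (μH[1] : Measure ℂ) (Q i) := h1
      _ = ENNReal.ofReal l * (μH[1] : Measure ℂ) (Q i) +
          ENNReal.ofReal (ε + 2 * ε / δ) * (μH[1] : Measure ℂ) (Q i) := by
          rw [← add_mul, ← ENNReal.ofReal_add hl0 (by positivity), add_assoc]
      _ ≤ ((∫⁻ s in ρ '' Q i, ENNReal.ofReal (Tq g a s + Vq g a s)) +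
          ENNReal.ofReal (2 * ε / δ + 2 * ε) * (μH[1] : Measure ℂ) (Q i)) +
          ENNReal.ofReal (ε + 2 * ε / δ) * (μH[1] : Measure ℂ) (Q i) := by gcongr
      _ = (∫⁻ s in ρ '' Q i, ENNReal.ofReal (Tq g a s + Vq g a s)) +
          ENNReal.ofReal η * (μH[1] : Measure ℂ) (Q i) := by
          rw [add_assoc, ← add_mul, ← ENNReal.ofReal_add (by positivity) (by positivity), ← hεη]
          congr 3
          ring
  -- summation
  have hv : volume P = ∑' i, volume (ρ '' Q i) := by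
    conv_lhs => rw [← hPQ]
    exact measure_iUnion hPQd hPQm
  have hint : ∫⁻ s in P, ENNReal.ofReal (Tq g a s + Vq g a s) =
      ∑' i, ∫⁻ s in ρ '' Q i, ENNReal.ofReal (Tq g a s + Vq g a s) := by
    conv_lhs => rw [← hPQ]
    exact lintegral_iUnion hPQm hPQd _
  have hH : ∑' i, (μH[1] : Measure ℂ) (Q i) ≤ (μH[1] : Measure ℂ) C := by
    rw [← measure_iUnion (fun i k hik => (hEd hik).mono inter_subset_left inter_subset_left) hQm]
    exact measure_mono (iUnion_subset fun i x hx => (hQC i hx).1)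
  calc volume P = ∑' i, volume (ρ '' Q i) := hv
    _ ≤ ∑' i, ((∫⁻ s in ρ '' Q i, ENNReal.ofReal (Tq g a s + Vq g a s)) +
        ENNReal.ofReal η * (μH[1] : Measure ℂ) (Q i)) := ENNReal.tsum_le_tsum hone
    _ = (∫⁻ s in P, ENNReal.ofReal (Tq g a s + Vq g a s)) +
        ENNReal.ofReal η * ∑' i, (μH[1] : Measure ℂ) (Q i) := by
        rw [ENNReal.tsum_add, ENNReal.tsum_mul_left, hint]
    _ ≤ _ := by gcongr

/-! ### Conclusion -/

theorem force_inner {B : Set ℂ} (hBm : MeasurableSet B) (hfin : (μH[1] : Measure ℂ) B < ⊤) :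
    ∃ κ : ℕ → Set ℂ, (∀ n, IsCompact (κ n)) ∧ (∀ n, κ n ⊆ B) ∧
      (μH[1] : Measure ℂ) (B \ ⋃ n, κ n) = 0 := by
  set m := (μH[1] : Measure ℂ).restrict B with hm
  have hmf : IsFiniteMeasure m := ⟨by rwa [hm, Measure.restrict_apply_univ]⟩
  have hex : ∀ n : ℕ, ∃ C ⊆ B, IsCompact C ∧ m (B \ C) < ((n : ℝ≥0∞) + 1)⁻¹ := by
    intro n
    refine hBm.exists_isCompact_sdiff_lt (measure_ne_top _ _) ?_
    simp
  choose C hCB hCc hCm using hex
  refine ⟨C, hCc, hCB, ?_⟩
  have h4 : ∀ n : ℕ, (μH[1] : Measure ℂ) (B \ ⋃ n, C n) ≤ ((n : ℝ≥0∞) + 1)⁻¹ := by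
    intro n
    have h5 : (μH[1] : Measure ℂ) (B \ C n) = m (B \ C n) := by
      rw [hm, Measure.restrict_apply (hBm.diff (hCc n).measurableSet)]
      congr 1
      exact (inter_eq_left.mpr sdiff_subset).symm
    calc (μH[1] : Measure ℂ) (B \ ⋃ n, C n) ≤ (μH[1] : Measure ℂ) (B \ C n) :=
          measure_mono (sdiff_subset_sdiff_right (subset_iUnion _ n))
      _ = m (B \ C n) := h5
      _ ≤ _ := (hCm n).le
  refine le_antisymm ?_ zero_le
  have h6 : Tendsto (fun n : ℕ => ((n : ℝ≥0∞) + 1)⁻¹) atTop (𝓝 0) := by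
    have h7 := ENNReal.tendsto_inv_nat_nhds_zero.comp (tendsto_add_atTop_nat 1)
    refine h7.congr fun n => ?_
    simp
  exact ge_of_tendsto' h6 h4

theorem force_local {Ω : Set ℂ} {u : ℂ → ℝ} {g j : ℂ → ℂ} (h : MSMin Ω u g j) {a : ℂ}
    {δ R' : ℝ} (hδ : 0 < δ) (hR0 : 0 < R') (hR : closedBall a R' ⊆ Ω) :
    ∀ᵐ s, s ∈ Ioo δ R' → (∃ x ∈ jumpSet Ω u, discSet Ω u ∩ sphere a s = {x}) →
      1 ≤ Tq g a s + Vq g a s := by
  have hK : IsCompact (closedBall a R') := isCompact_closedBall _ _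
  have hfinK : (μH[1] : Measure ℂ) (discSet Ω u ∩ closedBall a R') < ⊤ := h.fin_S _ hK hR
  obtain ⟨C, j', hCσ, hC, hCn, hj', hjj⟩ := jump_rep h.toSBVData hK hR
  obtain ⟨κ, hκ, hκC⟩ := hCσ
  have hCm : MeasurableSet C := by
    rw [← hκC]
    exact MeasurableSet.iUnion fun i => (hκ i).measurableSet
  have hSm : MeasurableSet (discSet Ω u) := measurableSet_discSet h.isOpen h.intu
  obtain ⟨κ', hκ', hκ'B, hκ'n⟩ := force_inner (B := (discSet Ω u ∩ closedBall a R') \ C)
    ((hSm.inter hK.measurableSet).diff hCm) (lt_of_le_of_lt (measure_mono sdiff_subset) hfinK)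
  set ρ : ℂ → ℝ := fun x => dist x a with hρ
  have hρc : Continuous ρ := continuous_id.dist continuous_const
  set A₂ : Set ℝ := ⋃ m : ℕ, ⋃ n : ℕ, ⋃ l : ℕ, (fun p : ℂ × ℂ => ρ p.1) ''
    ((κ m ×ˢ κ n) ∩ {p | ρ p.1 = ρ p.2 ∧ ((l : ℝ) + 1)⁻¹ ≤ dist p.1 p.2}) with hA₂
  have hA₂m : MeasurableSet A₂ := by
    refine MeasurableSet.iUnion fun m => MeasurableSet.iUnion fun n => MeasurableSet.iUnion
      fun l => ?_
    refine IsCompact.measurableSet ?_
    refine IsCompact.image ?_ (hρc.comp continuous_fst)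
    refine ((hκ m).prod (hκ n)).inter_right ?_
    exact (isClosed_eq (hρc.comp continuous_fst) (hρc.comp continuous_snd)).inter
      (isClosed_le continuous_const (continuous_fst.dist continuous_snd))
  have hA₂i : ∀ x ∈ C, ∀ y ∈ C, x ≠ y → ρ x = ρ y → ρ x ∈ A₂ := by
    intro x hx y hy hxy hρxy
    rw [← hκC, mem_iUnion] at hx hy
    obtain ⟨m, hm⟩ := hx
    obtain ⟨n, hn⟩ := hy
    obtain ⟨l, hl⟩ := exists_nat_one_div_lt (dist_pos.mpr hxy)
    refine mem_iUnion.mpr ⟨m, mem_iUnion.mpr ⟨n, mem_iUnion.mpr ⟨l, (x, y), ⟨⟨hm, hn⟩, hρxy, ?_⟩,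
      rfl⟩⟩⟩
    rw [one_div] at hl
    exact hl.le
  have hA₂e : ∀ s ∈ A₂, ∃ x ∈ C, ∃ y ∈ C, x ≠ y ∧ ρ x = s ∧ ρ y = s := by
    intro s hs
    simp only [hA₂, mem_iUnion] at hs
    obtain ⟨m, n, l, ⟨x, y⟩, ⟨⟨hx, hy⟩, hxy, hl⟩, hs⟩ := hs
    simp only at hx hy hxy hl hs
    refine ⟨x, ?_, y, ?_, ?_, hs, hxy ▸ hs⟩
    · rw [← hκC]
      exact mem_iUnion.mpr ⟨m, hx⟩
    · rw [← hκC]
      exact mem_iUnion.mpr ⟨n, hy⟩
    · intro h0
      rw [h0, dist_self] at hl
      have : (0 : ℝ) < ((l : ℝ) + 1)⁻¹ := by positivity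
      linarith
  have hρCm : MeasurableSet (ρ '' C) := by
    rw [← hκC, image_iUnion]
    exact MeasurableSet.iUnion fun i => ((hκ i).image hρc).measurableSet
  have hρC'm : MeasurableSet (ρ '' ⋃ n, κ' n) := by
    rw [image_iUnion]
    exact MeasurableSet.iUnion fun i => ((hκ' i).image hρc).measurableSet
  set N₁ := (Ioo δ R' ∩ ρ '' C) \ (A₂ ∪ ρ '' ⋃ n, κ' n) with hN₁
  have hN₁m : MeasurableSet N₁ := (measurableSet_Ioo.inter hρCm).diff (hA₂m.union hρC'm)
  have hle : ∀ P : Set ℝ, MeasurableSet P → P ⊆ N₁ →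
      volume P ≤ ∫⁻ s in P, ENNReal.ofReal (Tq g a s + Vq g a s) := by
    intro P hP hPN
    refine force_le h hR0 hR hC hCm hCn hj' hjj hδ hP (fun s hs => (hPN hs).1.1) ?_
      (fun s hs => (hPN hs).1.2) ?_
    · intro x hx y hy hxy
      by_contra hne
      exact (hPN hx.2).2 (Or.inl (hA₂i x hx.1 y hy.1 hne hxy))
    · refine measure_mono_null ?_ hκ'n
      rintro x ⟨hx, hxP⟩
      refine ⟨hx, fun hx' => ?_⟩
      exact (hPN hxP).2 (Or.inr ⟨x, hx', rfl⟩)
  have hae1 : (fun _ => (1 : ℝ≥0∞)) ≤ᵐ[volume.restrict N₁]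
      fun s => ENNReal.ofReal (Tq g a s + Vq g a s) := by
    refine ae_le_of_forall_setLIntegral_le_of_sigmaFinite measurable_const ?_
    intro s hs _
    rw [Measure.restrict_restrict hs, setLIntegral_one]
    exact hle _ (hs.inter hN₁m) inter_subset_right
  have hZ : volume (ρ '' ((jumpSet Ω u ∩ closedBall a R') \ C)) = 0 := by
    have hl : LipschitzWith 1 ρ := LipschitzWith.dist_left a
    have h1 := hl.hausdorffMeasure_image_le (d := 1) zero_le_one
      ((jumpSet Ω u ∩ closedBall a R') \ C)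
    rw [hausdorffMeasure_real, hCn, mul_zero] at h1
    exact le_antisymm h1 zero_le
  have hae2 : ∀ᵐ s, s ∈ N₁ → (1 : ℝ≥0∞) ≤ ENNReal.ofReal (Tq g a s + Vq g a s) :=
    (ae_restrict_iff' hN₁m).mp hae1
  have hae3 : ∀ᵐ s, s ∉ ρ '' ((jumpSet Ω u ∩ closedBall a R') \ C) :=
    compl_mem_ae_iff.mpr hZ
  filter_upwards [hae2, hae3] with s h2 h3 hs hx
  obtain ⟨x, hxJ, hxS⟩ := hx
  have hxs : x ∈ discSet Ω u ∩ sphere a s := by
    rw [hxS]
    exact mem_singleton x
  have hxρ : ρ x = s := hxs.2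
  have hxK : x ∈ closedBall a R' := by
    rw [mem_closedBall]
    have : dist x a = s := hxρ
    rw [this]
    exact hs.2.le
  have hxC : x ∈ C := by
    by_contra hxC
    exact h3 ⟨x, ⟨⟨hxJ, hxK⟩, hxC⟩, hxρ⟩
  have huniq : ∀ y ∈ discSet Ω u, ρ y = s → y = x := by
    intro y hy hys
    have : y ∈ discSet Ω u ∩ sphere a s := ⟨hy, hys⟩
    rw [hxS] at this
    exact this
  have hsN : s ∈ N₁ := by
    refine ⟨⟨hs, x, hxC, hxρ⟩, ?_⟩
    rintro (hsA | ⟨y, hy, hys⟩)
    · obtain ⟨y, hy, z, hz, hyz, hys, hzs⟩ := hA₂e s hsA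
      apply hyz
      rw [huniq y (jrep_jump_subset h.isOpen h.intu (hC hy).1) hys,
        huniq z (jrep_jump_subset h.isOpen h.intu (hC hz).1) hzs]
    · obtain ⟨n, hn⟩ := mem_iUnion.mp hy
      have hyB := hκ'B n hn
      have := huniq y hyB.1.1 hys
      rw [this] at hyB
      exact hyB.2 hxC
  exact ENNReal.one_le_ofReal.mp (h2 hsN)

theorem force_balance {Ω : Set ℂ} {u : ℂ → ℝ} {g j : ℂ → ℂ} (h : MSMin Ω u g j) {a : ℂ} {R : ℝ}
    (hR : ball a R ⊆ Ω) :
    ∀ᵐ s ∂(volume.restrict (Ioo 0 R)), (∃ x ∈ jumpSet Ω u, discSet Ω u ∩ sphere a s = {x}) →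
      1 ≤ Tq g a s + Vq g a s := by
  rw [ae_restrict_iff' measurableSet_Ioo]
  have hall : ∀ n : ℕ, ∀ᵐ s : ℝ, s ∈ Ioo ((n : ℝ) + 1)⁻¹ (R - ((n : ℝ) + 1)⁻¹) →
      (∃ x ∈ jumpSet Ω u, discSet Ω u ∩ sphere a s = {x}) → 1 ≤ Tq g a s + Vq g a s := by
    intro n
    have hn : (0 : ℝ) < ((n : ℝ) + 1)⁻¹ := by positivity
    rcases le_or_gt (R - ((n : ℝ) + 1)⁻¹) 0 with h0 | h0
    · refine Eventually.of_forall fun s hs => ?_
      exact absurd (hn.trans (hs.1.trans hs.2)) (not_lt.mpr h0)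
    · exact force_local h hn h0 ((closedBall_subset_ball (by linarith)).trans hR)
  filter_upwards [ae_all_iff.mpr hall] with s hs hs0
  obtain ⟨n, hn⟩ := exists_nat_one_div_lt (lt_min hs0.1 (sub_pos.mpr hs0.2))
  rw [one_div] at hn
  refine hs n ⟨hn.trans_le (min_le_left _ _), ?_⟩
  have := hn.trans_le (min_le_right _ _)
  linarith

end Pool.Agent.MP099f24
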