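import Mathlib
import Pool.Agent.Lib.MP_099f24_an.SD.Defs
import Pool.Agent.Lib.MP_099f24_an.JumpBasic
import Pool.Agent.Lib.MP_099f24_an.SD.JRep
import Pool.Agent.Lib.MP_099f24_an.SD.Flat

/-!
# MP_099f24_an, sharp densities, module GENERIC: density of the jump set at generic points
-/

namespace Pool.Agent.MP099f24

open MeasureTheory Filter Topology Set Metric
open scoped ENNReal NNReal ContDiff

/-- On a flat set the tangential projection almost preserves distances. -/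
theorem generic_proj {n z : ℂ} (hn : ‖n‖ = 1) {ε : ℝ} (hz : |inner ℝ z n| ≤ ε * ‖z‖) :
    (1 - ε) * ‖z‖ ≤ |inner ℝ z (Complex.I * n)| ∧ |inner ℝ z (Complex.I * n)| ≤ ‖z‖ := by
  have hI : ‖Complex.I * n‖ = 1 := by rw [norm_mul, Complex.norm_I, one_mul, hn]
  have h : n.re ^ 2 + n.im ^ 2 = 1 := by
    have h1 := Complex.sq_norm n
    rw [hn, Complex.normSq_apply] at h1
    nlinarith [h1]
  have hdec : z = (inner ℝ z n : ℝ) • n + (inner ℝ z (Complex.I * n) : ℝ) • (Complex.I * n) := by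
    apply Complex.ext
    · simp only [Complex.inner, Complex.add_re, Complex.real_smul, Complex.mul_re,
        Complex.ofReal_re, Complex.ofReal_im, Complex.conj_re, Complex.conj_im, Complex.I_re,
        Complex.I_im, Complex.mul_im]
      linear_combination (-z.re) * h
    · simp only [Complex.inner, Complex.add_im, Complex.real_smul, Complex.mul_re,
        Complex.ofReal_re, Complex.ofReal_im, Complex.conj_re, Complex.conj_im, Complex.I_re,
        Complex.I_im, Complex.mul_im]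
      linear_combination (-z.im) * h
  constructor
  · have h1 : ‖z‖ ≤ |inner ℝ z n| + |inner ℝ z (Complex.I * n)| := by
      conv_lhs => rw [hdec]
      refine (norm_add_le _ _).trans ?_
      rw [norm_smul, norm_smul, hn, hI, mul_one, mul_one, Real.norm_eq_abs, Real.norm_eq_abs]
    linarith
  · have := abs_real_inner_le_norm z (Complex.I * n)
    rwa [hI, mul_one] at this

/-- The density of a flat `σ`-compact set. -/
theorem generic_piece {E : Set ℂ} (hE : IsSigmaCompact E) {n : ℂ} (hn : ‖n‖ = 1) {ε : ℝ}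
    (hε0 : 0 < ε) (hε : ε < 1 / 4)
    (hflat : ∀ x ∈ E, ∀ y ∈ E, |inner ℝ (y - x) n| ≤ ε * ‖y - x‖) :
    (μH[1] : Measure ℂ) {x ∈ E | ¬ ∀ᶠ r in 𝓝[>] (0 : ℝ),
      ENNReal.ofReal ((2 - 6 * ε) * r) ≤ (μH[1] : Measure ℂ) (E ∩ ball x r)} = 0 := by
  set p : ℂ → ℝ := fun x => inner ℝ x (Complex.I * n) with hp
  have hI : ‖Complex.I * n‖ = 1 := by rw [norm_mul, Complex.norm_I, one_mul, hn]
  have hpc : Continuous p := continuous_id.inner continuous_const
  have hpsub : ∀ x y, p y - p x = inner ℝ (y - x) (Complex.I * n) := by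
    intro x y
    rw [hp, inner_sub_left]
  have hpl : LipschitzWith 1 p := by
    refine LipschitzWith.of_dist_le_mul fun x y => ?_
    rw [dist_eq_norm, dist_eq_norm, Real.norm_eq_abs, hpsub, NNReal.coe_one, one_mul]
    have := abs_real_inner_le_norm (x - y) (Complex.I * n)
    rwa [hI, mul_one] at this
  have hlow : ∀ x ∈ E, ∀ y ∈ E, (1 - ε) * ‖y - x‖ ≤ |p y - p x| := by
    intro x hx y hy
    rw [hpsub]
    exact (generic_proj hn (hflat x hx y hy)).1
  have hinj : InjOn p E := by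
    intro x hx y hy hxy
    have h1 := hlow x hx y hy
    rw [hxy, sub_self, abs_zero] at h1
    have h2 : ‖y - x‖ ≤ 0 := by
      by_contra h3
      rw [not_le] at h3
      nlinarith
    have h3 := norm_le_zero_iff.mp h2
    exact (sub_eq_zero.mp h3).symm
  -- the image
  set T := p '' E with hT
  have hTm : MeasurableSet T := by
    obtain ⟨κ, hκ, hκE⟩ := hE
    rw [hT, ← hκE, image_iUnion]
    exact MeasurableSet.iUnion fun i => ((hκ i).image hpc).measurableSet
  set Tb := {t ∈ T | ¬ Tendsto (fun r => volume (T ∩ closedBall t r) / volume (closedBall t r))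
    (𝓝[>] 0) (𝓝 1)} with hTb
  have hTb0 : volume Tb = 0 := by
    have h1 := Besicovitch.ae_tendsto_measure_inter_div (volume : Measure ℝ) T
    rw [ae_restrict_iff' hTm, ae_iff] at h1
    convert h1 using 2
    ext t
    simp only [hTb, mem_ofPred_eq, Classical.not_imp]
  -- the exceptional set
  have hsub : {x ∈ E | ¬ ∀ᶠ r in 𝓝[>] (0 : ℝ),
      ENNReal.ofReal ((2 - 6 * ε) * r) ≤ (μH[1] : Measure ℂ) (E ∩ ball x r)} ⊆ E ∩ p ⁻¹' Tb := by
    rintro x ⟨hx, hbad⟩
    refine ⟨hx, ⟨x, hx, rfl⟩, fun hlim => hbad ?_⟩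
    have h1 : Tendsto (fun r : ℝ => (1 - 2 * ε) * r) (𝓝[>] 0) (𝓝[>] 0) := by
      rw [tendsto_nhdsWithin_iff]
      constructor
      · have : Tendsto (fun r : ℝ => (1 - 2 * ε) * r) (𝓝 0) (𝓝 ((1 - 2 * ε) * 0)) :=
          (continuous_const.mul continuous_id).tendsto 0
        rw [mul_zero] at this
        exact this.mono_left nhdsWithin_le_nhds
      · filter_upwards [self_mem_nhdsWithin] with r hr
        have h9 : (0 : ℝ) < 1 - 2 * ε := by linarith
        exact mul_pos h9 hr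
    have h2 := hlim.comp h1
    have h3 : ENNReal.ofReal (1 - ε) < 1 := by
      rw [ENNReal.ofReal_lt_one]
      linarith
    filter_upwards [h2.eventually (lt_mem_nhds h3), self_mem_nhdsWithin] with r hr hr0
    have hr0' : (0 : ℝ) < r := hr0
    have hρ : 0 < (1 - 2 * ε) * r := mul_pos (by linarith) hr0'
    simp only [Function.comp_apply] at hr
    rw [Real.volume_closedBall] at hr
    have h4 : ENNReal.ofReal (1 - ε) * ENNReal.ofReal (2 * ((1 - 2 * ε) * r)) ≤
        volume (T ∩ closedBall (p x) ((1 - 2 * ε) * r)) := by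
      have h5 := hr.le
      rw [ENNReal.le_div_iff_mul_le (Or.inl (by
        rw [Ne, ENNReal.ofReal_eq_zero, not_le]; positivity)) (Or.inl ENNReal.ofReal_ne_top)] at h5
      exact h5
    have h5 : T ∩ closedBall (p x) ((1 - 2 * ε) * r) ⊆ p '' (E ∩ ball x r) := by
      rintro t ⟨⟨y, hy, rfl⟩, hty⟩
      refine ⟨y, ⟨hy, ?_⟩, rfl⟩
      rw [mem_closedBall, Real.dist_eq] at hty
      rw [mem_ball, dist_eq_norm]
      have h6 := hlow x hx y hy
      have h7 : (1 - ε) * ‖y - x‖ < (1 - ε) * r := by nlinarith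
      exact lt_of_mul_lt_mul_left h7 (by linarith)
    have h6 : volume (p '' (E ∩ ball x r)) ≤ (μH[1] : Measure ℂ) (E ∩ ball x r) := by
      have h7 := hpl.hausdorffMeasure_image_le (d := 1) zero_le_one (E ∩ ball x r)
      rwa [hausdorffMeasure_real, ENNReal.coe_one, ENNReal.one_rpow, one_mul] at h7
    refine le_trans ?_ (h4.trans ((measure_mono h5).trans h6))
    rw [← ENNReal.ofReal_mul (by linarith)]
    apply ENNReal.ofReal_le_ofReal
    nlinarith [mul_pos hε0 hr0', mul_pos (mul_pos hε0 hε0) hr0']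
  refine measure_mono_null hsub ?_
  -- the set over the points which are not density points
  set q := Function.invFunOn p E with hq
  have hqp : ∀ x ∈ E, q (p x) = x := fun x hx => hinj.leftInvOn_invFunOn hx
  have hql : LipschitzOnWith (Real.toNNReal (1 - ε)⁻¹) q (p '' (E ∩ p ⁻¹' Tb)) := by
    refine LipschitzOnWith.of_dist_le_mul ?_
    rintro _ ⟨x, hx, rfl⟩ _ ⟨y, hy, rfl⟩
    have h1 : 0 < 1 - ε := by linarith
    rw [Real.coe_toNNReal _ (inv_nonneg.mpr h1.le), hqp x hx.1, hqp y hy.1, dist_eq_norm,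
      Real.dist_eq, inv_mul_eq_div, le_div_iff₀ h1, mul_comm]
    exact hlow y hy.1 x hx.1
  have h1 := hql.hausdorffMeasure_image_le (d := 1) zero_le_one
  have h2 : q '' (p '' (E ∩ p ⁻¹' Tb)) = E ∩ p ⁻¹' Tb := by
    rw [image_image]
    ext x
    constructor
    · rintro ⟨y, hy, rfl⟩
      show q (p y) ∈ _
      rw [hqp y hy.1]
      exact hy
    · intro hx
      exact ⟨x, hx, hqp x hx.1⟩
  have h3 : (μH[1] : Measure ℝ) (p '' (E ∩ p ⁻¹' Tb)) = 0 := by
    rw [hausdorffMeasure_real]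
    refine measure_mono_null ?_ hTb0
    rintro _ ⟨x, hx, rfl⟩
    exact hx.2
  rw [h2, h3, mul_zero] at h1
  exact le_antisymm h1 zero_le

theorem generic_compact {Ω : Set ℂ} {u : ℂ → ℝ} {g j : ℂ → ℂ} (h : SBVData Ω u g j) {K : Set ℂ}
    (hK : IsCompact K) (hKΩ : K ⊆ Ω) {ε : ℝ} (hε : 0 < ε) :
    (μH[1] : Measure ℂ) {x ∈ jumpSet Ω u ∩ K | ¬ ∀ᶠ r in 𝓝[>] (0 : ℝ),
      (2 - ε) * r ≤ Lq Ω u x r} = 0 := by
  obtain ⟨C, j', hC, hCJ, hCn, -, -⟩ := jump_rep h hK hKΩ
  set δ := min (ε / 6) (1 / 8) with hδ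
  have hδ0 : 0 < δ := by positivity
  have hδ1 : δ < 1 / 4 := lt_of_le_of_lt (min_le_right _ _) (by norm_num)
  have hδε : 6 * δ ≤ ε := by
    have : δ ≤ ε / 6 := min_le_left _ _
    linarith
  obtain ⟨F, n, hF, hcov⟩ := flat_cover h.isOpen h.intu hδ0
  refine measure_mono_null (t := ((jumpSet Ω u ∩ K) \ C) ∪ ⋃ i, {x ∈ C ∩ F i |
    ¬ ∀ᶠ r in 𝓝[>] (0 : ℝ), ENNReal.ofReal ((2 - 6 * δ) * r) ≤
      (μH[1] : Measure ℂ) ((C ∩ F i) ∩ ball x r)}) ?_ ?_
  · rintro x ⟨hx, hbad⟩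
    by_cases hxC : x ∈ C
    · right
      obtain ⟨hxΩ, a, b, ν, hj⟩ := hx.1
      obtain ⟨i, hi, -⟩ := hcov x hxΩ a b ν hj
      rw [mem_iUnion]
      refine ⟨i, ⟨hxC, hi⟩, fun hgood => hbad ?_⟩
      obtain ⟨ρ, hρ, hρΩ⟩ := Metric.isOpen_iff.mp h.isOpen x hxΩ
      filter_upwards [hgood, Ioo_mem_nhdsGT (show (0 : ℝ) < ρ / 2 by positivity)] with r hr hr'
      have h1 : (μH[1] : Measure ℂ) (discSet Ω u ∩ ball x r) < ⊤ := by
        refine lt_of_le_of_lt (measure_mono (inter_subset_inter_right _ ball_subset_closedBall))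
          (h.fin_S (closedBall x r) (isCompact_closedBall _ _) ?_)
        refine (closedBall_subset_ball ?_).trans hρΩ
        linarith [hr'.2, hr'.1]
      have h2 : ENNReal.ofReal ((2 - 6 * δ) * r) ≤
          (μH[1] : Measure ℂ) (discSet Ω u ∩ ball x r) := by
        refine hr.trans (measure_mono ?_)
        rintro y ⟨hy, hyr⟩
        exact ⟨jrep_jump_subset h.isOpen h.intu (hCJ hy.1).1, hyr⟩
      have h3 := ENNReal.toReal_mono h1.ne h2
      rw [ENNReal.toReal_ofReal (mul_nonneg (by linarith) hr'.1.le)] at h3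
      refine le_trans ?_ h3
      exact mul_le_mul_of_nonneg_right (by linarith) hr'.1.le
    · exact Or.inl ⟨hx, hxC⟩
  · refine measure_union_null hCn (measure_iUnion_null fun i => ?_)
    refine generic_piece ?_ (hF i).2.1 hδ0 hδ1 (fun x hx y hy => ((hF i).2.2 x hx.2 y hy.2).1)
    obtain ⟨κ, hκ, hκC⟩ := hC
    refine ⟨fun m => κ m ∩ F i, fun m => (hκ m).inter (hF i).1, ?_⟩
    rw [← hκC, iUnion_inter]

theorem generic_density {Ω : Set ℂ} {u : ℂ → ℝ} {g j : ℂ → ℂ} (h : SBVData Ω u g j) :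
    (μH[1] : Measure ℂ) {x ∈ jumpSet Ω u | ¬ ∀ ε > 0, ∀ᶠ r in 𝓝[>] (0 : ℝ),
      (2 - ε) * r ≤ Lq Ω u x r} = 0 := by
  obtain ⟨K, hK, hKΩ⟩ : ∃ K : ℕ → Set ℂ, (∀ m, IsCompact (K m)) ∧ ⋃ m, K m = Ω :=
    by
      have := h.isOpen.locallyCompactSpace
      exact isSigmaCompact_iff_sigmaCompactSpace.mpr inferInstance
  refine measure_mono_null (t := ⋃ m : ℕ, ⋃ l : ℕ, {x ∈ jumpSet Ω u ∩ K m |
    ¬ ∀ᶠ r in 𝓝[>] (0 : ℝ), (2 - ((l : ℝ) + 1)⁻¹) * r ≤ Lq Ω u x r}) ?_
    (measure_iUnion_null fun m => measure_iUnion_null fun l =>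
      generic_compact h (hK m) (hKΩ ▸ subset_iUnion K m) (by positivity))
  rintro x ⟨hxJ, hbad⟩
  simp only [not_forall] at hbad
  obtain ⟨ε, hε, hbad⟩ := hbad
  have hxΩ := hxJ.1
  rw [← hKΩ, mem_iUnion] at hxΩ
  obtain ⟨m, hm⟩ := hxΩ
  obtain ⟨l, hl⟩ := exists_nat_one_div_lt hε
  rw [mem_iUnion]
  refine ⟨m, mem_iUnion.mpr ⟨l, ⟨hxJ, hm⟩, fun hgood => hbad ?_⟩⟩
  filter_upwards [hgood, self_mem_nhdsWithin] with r hr hr0
  refine le_trans ?_ hr
  rw [one_div] at hl
  exact mul_le_mul_of_nonneg_right (by linarith) (le_of_lt hr0)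

end Pool.Agent.MP099f24
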