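import Pool.Agent.Lib.MP_099f24_an.Calibration
import Pool.Agent.Lib.MP_099f24_an.JumpBasic
import Pool.Agent.Lib.MP_099f24_an.SD.Vf
import Pool.Agent.Lib.MP_099f24_an.SD.Outer
import Pool.Agent.Lib.MP_099f24_an.SD.Weyl

/-!
# MP_099f24_an SD, module REMOV: where there is no jump set there is no discontinuity set
-/

namespace Pool.Agent.MP099f24

open MeasureTheory Filter Topology Set Metric
open scoped ENNReal ContDiff

/-- the gradient field of `φ`, as a complex valued map -/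
noncomputable def remov_grad (φ : ℂ → ℝ) (x : ℂ) : ℂ :=
  (fderiv ℝ φ x 1 : ℂ) + (fderiv ℝ φ x Complex.I : ℂ) * Complex.I

theorem remov_fd_smooth {φ : ℂ → ℝ} (hφ : ContDiff ℝ ∞ φ) (v : ℂ) :
    ContDiff ℝ ∞ (fun x => fderiv ℝ φ x v) :=
  (hφ.fderiv_right (m := ∞) (by simp)).clm_apply contDiff_const

theorem remov_grad_smooth {φ : ℂ → ℝ} (hφ : ContDiff ℝ ∞ φ) : ContDiff ℝ ∞ (remov_grad φ) := by
  have h1 : ContDiff ℝ ∞ (fun x => (fderiv ℝ φ x 1 : ℂ)) :=
    Complex.ofRealCLM.contDiff.comp (remov_fd_smooth hφ 1)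
  have h2 : ContDiff ℝ ∞ (fun x => (fderiv ℝ φ x Complex.I : ℂ)) :=
    Complex.ofRealCLM.contDiff.comp (remov_fd_smooth hφ Complex.I)
  exact h1.add (h2.mul contDiff_const)

theorem remov_grad_tsupport {φ : ℂ → ℝ} : tsupport (remov_grad φ) ⊆ tsupport φ := by
  refine closure_minimal (fun x hx => ?_) (isClosed_tsupport _)
  by_contra hcon
  apply hx
  have h1 : fderiv ℝ φ x = 0 := by
    have h2 : φ =ᶠ[𝓝 x] fun _ => 0 := notMem_tsupport_iff_eventuallyEq.1 hcon
    rw [h2.fderiv_eq]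
    simp
  simp [remov_grad, h1]

theorem remov_dv {φ : ℂ → ℝ} (hφ : ContDiff ℝ ∞ φ) (x : ℂ) :
    dv (remov_grad φ) x = fderiv ℝ (fun y => fderiv ℝ φ y 1) x 1 +
        fderiv ℝ (fun y => fderiv ℝ φ y Complex.I) x Complex.I := by
  have d1 : HasFDerivAt (fun y => fderiv ℝ φ y 1) (fderiv ℝ (fun y => fderiv ℝ φ y 1) x) x :=
    ((remov_fd_smooth hφ 1).differentiable (by simp) x).hasFDerivAt
  have d2 : HasFDerivAt (fun y => fderiv ℝ φ y Complex.I)
      (fderiv ℝ (fun y => fderiv ℝ φ y Complex.I) x) x :=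
    ((remov_fd_smooth hφ Complex.I).differentiable (by simp) x).hasFDerivAt
  have d3 := Complex.ofRealCLM.hasFDerivAt.comp x d1
  have d4 := (Complex.ofRealCLM.hasFDerivAt.comp x d2).mul_const' Complex.I
  have d5 : HasFDerivAt (remov_grad φ) _ x := d3.add d4
  rw [dv, d5.fderiv]
  simp

theorem remov_inner {φ : ℂ → ℝ} (x z : ℂ) :
    inner ℝ z (remov_grad φ x) = fderiv ℝ φ x z := by
  have h1 : z = z.re • (1 : ℂ) + z.im • Complex.I := by
    apply Complex.ext <;> simp
  conv_rhs => rw [h1, map_add, map_smul, map_smul]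
  simp [Complex.inner, remov_grad]
  ring

theorem removable {Ω : Set ℂ} {u : ℂ → ℝ} {g j : ℂ → ℂ} (h : MSMin Ω u g j) {x : ℂ}
    (hx : x ∈ Ω) (hcl : x ∈ closure (discSet Ω u)) {δ : ℝ} (hδ : 0 < δ) :
    0 < (μH[1] : Measure ℂ) (jumpSet Ω u ∩ ball x δ) := by
  rw [pos_iff_ne_zero]
  intro h0
  obtain ⟨ε, hε, hεΩ⟩ := Metric.isOpen_iff.1 h.isOpen x hx
  set U : Set ℂ := ball x (min δ ε) with hUdef
  have hUo : IsOpen U := isOpen_ball
  have hUΩ : U ⊆ Ω := (ball_subset_ball (min_le_right _ _)).trans hεΩ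
  have hxU : x ∈ U := mem_ball_self (lt_min hδ hε)
  have hJ0 : (μH[1] : Measure ℂ) (jumpSet Ω u ∩ U) = 0 :=
    measure_mono_null (inter_subset_inter_right _ (ball_subset_ball (min_le_left _ _))) h0
  have hweak : ∀ φ : ℂ → ℝ, ContDiff ℝ ∞ φ → HasCompactSupport φ → tsupport φ ⊆ U →
      ∫ x in U, u x * (fderiv ℝ (fun y => fderiv ℝ φ y 1) x 1 +
        fderiv ℝ (fun y => fderiv ℝ φ y Complex.I) x Complex.I) = 0 := by
    intro φ hφ hφc hφs
    have hYs : tsupport (remov_grad φ) ⊆ U := remov_grad_tsupport.trans hφs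
    have hYc : HasCompactSupport (remov_grad φ) :=
      IsCompact.of_isClosed_subset hφc (isClosed_tsupport _) remov_grad_tsupport
    have h1 := vf_form h.toSBVData (remov_grad_smooth hφ) hYc (hYs.trans hUΩ)
    -- the volume term vanishes
    have h2 : ∫ x in Ω, inner ℝ (g x) (remov_grad φ x) = 0 := by
      have h3 := outer_variation h hφ hφc (hφs.trans hUΩ) (κ := fun _ => 1) contDiff_const
        (M := 1) (fun t => by simp)
      rw [← h3]
      refine integral_congr_ae (Eventually.of_forall fun y => ?_)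
      simp only
      rw [remov_inner]
      simp
    -- the jump term vanishes
    have h4 : ∫ x in Ω, inner ℝ (j x) (remov_grad φ x) ∂(μH[1] : Measure ℂ) = 0 := by
      apply integral_eq_zero_of_ae
      have h5 : ∀ᵐ y ∂(μH[1] : Measure ℂ), y ∉ jumpSet Ω u ∩ U := by
        rw [ae_iff]
        simpa using hJ0
      filter_upwards [ae_restrict_of_ae h5, ae_restrict_mem h.isOpen.measurableSet] with y hy hyΩ
      by_cases hyU : y ∈ U
      · have h6 : j y = 0 := by
          rcases h.jf y hyΩ with ⟨a, b, ν, h7, _⟩ | h7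
          · exact absurd ⟨⟨hyΩ, a, b, ν, h7⟩, hyU⟩ hy
          · exact h7.2
        simp [h6]
      · have h6 : remov_grad φ y = 0 :=
          image_eq_zero_of_notMem_tsupport fun h' => hyU (hYs h')
        simp [h6]
    rw [h2, h4] at h1
    have h5 : ∫ x in Ω, u x * dv (remov_grad φ) x = ∫ x in U, u x * dv (remov_grad φ) x := by
      apply setIntegral_eq_of_subset_of_forall_sdiff_eq_zero h.isOpen.measurableSet hUΩ
      intro y hy
      have h6 : fderiv ℝ (remov_grad φ) y = 0 := by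
        have h7 : remov_grad φ =ᶠ[𝓝 y] fun _ => 0 :=
          notMem_tsupport_iff_eventuallyEq.1 fun h' => hy.2 (hYs h')
        rw [h7.fderiv_eq]
        simp
      simp [dv, h6]
    rw [h5] at h1
    simp only [remov_dv hφ] at h1
    rw [h1]
    simp
  obtain ⟨u', hu', hae⟩ := weyl hUo (h.intu.mono_set hUΩ) hweak
  obtain ⟨y, hyU, hyS⟩ := mem_closure_iff.1 hcl U hUo hxU
  have hy1 : IsApproxLim u' y (u' y) :=
    isApproxLim_of_continuousAt (hu'.continuousAt (hUo.mem_nhds hyU))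
  exact hyS.2 ⟨u' y, (cal_isApproxLim_iff (hUo.mem_nhds hyU) hae).2 hy1⟩

end Pool.Agent.MP099f24
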