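import Pool.Agent.Lib.MP_099f24_an.SD.Defs
import Pool.Agent.Lib.MP_099f24_an.Calibration
import Pool.Agent.Lib.MP_099f24_an.Unique

/-!
# MP_099f24_an SD module REP: from a local minimizer to normalised data
-/

namespace Pool.Agent.MP099f24

open MeasureTheory Filter Topology Set Metric
open scoped ENNReal ContDiff

/-- The jump fields of two functions that agree near a point agree at this point. -/
theorem rep_jf_eq {Ω : Set ℂ} (hΩ : IsOpen Ω) {u w : ℂ → ℝ} {j l : ℂ → ℂ}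
    (hu : LocallyIntegrableOn u Ω) (hj : IsJumpField Ω u j) (hl : IsJumpField Ω w l)
    {x : ℂ} (hx : x ∈ Ω) {U : Set ℂ} (hU : U ∈ 𝓝 x)
    (h : ∀ᵐ y ∂volume.restrict U, w y = u y) : j x = l x := by
  rcases hj x hx with ⟨a, b, ν, h1, h2⟩ | ⟨h1, h2⟩
  · rcases hl x hx with ⟨a', b', ν', h3, h4⟩ | ⟨h3, h4⟩
    · obtain ⟨V, hV, huV⟩ := hu x hx
      rw [hΩ.nhdsWithin_eq hx] at hV
      have h3' : IsJump u x a' b' ν' := (cal_isJump_iff hU h).1 h3
      rcases isJump_unique hV huV h1 h3' with ⟨e1, e2, e3⟩ | ⟨e1, e2, e3⟩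
      · rw [h2, h4, e1, e2, e3]
      · rw [h2, h4, e1, e2, e3, smul_neg, ← neg_smul, neg_sub]
    · exact absurd ⟨a, b, ν, (cal_isJump_iff hU h).2 h1⟩ h3
  · rcases hl x hx with ⟨a', b', ν', h3, h4⟩ | ⟨h3, h4⟩
    · exact absurd ⟨a', b', ν', (cal_isJump_iff hU h).1 h3⟩ h1
    · rw [h2, h4]

/-- The gradients of two functions that agree on an open set agree on this set. -/
theorem rep_grad_ae {Ω V : Set ℂ} (hΩ : IsOpen Ω) (hVo : IsOpen V) (hVΩ : V ⊆ Ω)
    {u w : ℂ → ℝ} {g h : ℂ → ℂ} (hu : LocallyIntegrableOn u Ω)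
    (hg : IsSBVGrad Ω u g) (hh : IsSBVGrad Ω w h)
    (heq : ∀ᵐ x ∂volume.restrict Ω, x ∈ V → w x = u x) :
    ∀ᵐ x ∂(volume : Measure ℂ), x ∈ V → g x = h x := by
  obtain ⟨hgi, j, hj, hji, hjf⟩ := hg
  obtain ⟨hhi, l, hl, hli, hlf⟩ := hh
  have heqV : ∀ᵐ x ∂volume.restrict V, w x = u x := by
    have h1 := ae_restrict_of_ae_restrict_of_subset hVΩ heq
    filter_upwards [h1, ae_restrict_mem hVo.measurableSet] with x hx hxV using hx hxV
  have hjl : ∀ x ∈ V, j x = l x := fun x hx =>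
    rep_jf_eq hΩ hu hj hl (hVΩ hx) (hVo.mem_nhds hx) heqV
  have key : ∀ᵐ x ∂(volume : Measure ℂ), x ∈ V → g x - h x = 0 := by
    refine hVo.ae_eq_zero_of_integral_contDiff_smul_eq_zero
      ((hgi.mono_set hVΩ).sub (hhi.mono_set hVΩ)) ?_
    intro φ hφ hφc hφV
    have hφΩ : tsupport φ ⊆ Ω := hφV.trans hVΩ
    have hφ0 : ∀ x, x ∉ V → φ x = 0 := fun x hx =>
      image_eq_zero_of_notMem_tsupport fun h' => hx (hφV h')
    -- integrability
    have hci : ∀ {f : ℂ → ℂ}, LocallyIntegrableOn f Ω → IntegrableOn (fun x => φ x • f x) Ω := by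
      intro f hf
      have h1 : IntegrableOn f (tsupport φ) := hf.integrableOn_compact_subset hφΩ hφc
      obtain ⟨C, hC⟩ := hφc.exists_bound_of_continuous hφ.continuous
      have h2 : IntegrableOn (fun x => φ x • f x) (tsupport φ) := by
        exact Integrable.bdd_smul h1 C hφ.continuous.aestronglyMeasurable
          (Eventually.of_forall hC)
      have h3 : Integrable (fun x => φ x • f x) := by
        rw [← integrableOn_iff_integrable_of_support_subset (s := tsupport φ)]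
        · exact h2
        · intro x hx
          by_contra h'
          exact hx (by simp [image_eq_zero_of_notMem_tsupport h'])
      exact h3.integrableOn
    have hgφ := hci hgi
    have hhφ := hci hhi
    have hmain : ∀ v : ℂ, ∫ x in Ω, φ x * inner ℝ (g x) v = ∫ x in Ω, φ x * inner ℝ (h x) v := by
      intro v
      have e1 := hjf φ hφ hφc hφΩ v
      have e2 := hlf φ hφ hφc hφΩ v
      have z1 : ∫ x in Ω, φ x * inner ℝ (j x) v ∂(μH[1] : Measure ℂ) =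
          ∫ x in Ω, φ x * inner ℝ (l x) v ∂(μH[1] : Measure ℂ) := by
        refine integral_congr_ae (Eventually.of_forall fun x => ?_)
        by_cases hx : x ∈ V
        · simp only [hjl x hx]
        · simp only [hφ0 x hx, zero_mul]
      have e3 : ∫ x in Ω, w x * fderiv ℝ φ x v = ∫ x in Ω, u x * fderiv ℝ φ x v := by
        refine integral_congr_ae ?_
        filter_upwards [heq] with x hx
        by_cases hxK : x ∈ V
        · rw [hx hxK]
        · have hxV : x ∉ tsupport φ := fun h' => hxK (hφV h')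
          have : fderiv ℝ φ x = 0 := by
            have h1 : x ∉ tsupport (fderiv ℝ φ) := fun h' => hxV (tsupport_fderiv_subset ℝ h')
            exact image_eq_zero_of_notMem_tsupport h1
          simp [this]
      rw [z1] at e1
      rw [e3] at e2
      linarith
    have hΩint : ∫ x, φ x • (g x - h x) = ∫ x in Ω, φ x • (g x - h x) := by
      refine (setIntegral_eq_integral_of_forall_compl_eq_zero ?_).symm
      intro x hx
      rw [hφ0 x (fun h' => hx (hVΩ h')), zero_smul]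
    rw [hΩint]
    have hsub : ∫ x in Ω, φ x • (g x - h x) = (∫ x in Ω, φ x • g x) - ∫ x in Ω, φ x • h x := by
      rw [← integral_sub hgφ hhφ]
      refine integral_congr_ae (Eventually.of_forall fun x => ?_)
      simp only [smul_sub]
    rw [hsub, sub_eq_zero]
    refine ext_inner_left ℝ fun v => ?_
    rw [← integral_inner hgφ v, ← integral_inner hhφ v]
    have c1 : ∀ f : ℂ → ℂ, (fun x => inner ℝ v (φ x • f x)) = fun x => φ x * inner ℝ (f x) v := by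
      intro f
      funext x
      rw [real_inner_smul_right, real_inner_comm]
    rw [c1, c1]
    exact hmain v
  filter_upwards [key] with x hx hxV using sub_eq_zero.1 (hx hxV)

/-- Locality of the discontinuity set. -/
theorem rep_discSet_iff {Ω V : Set ℂ} (hVo : IsOpen V) {u w : ℂ → ℝ}
    (heq : ∀ᵐ x ∂volume.restrict V, w x = u x) {x : ℂ} (hx : x ∈ V) :
    x ∈ discSet Ω w ↔ x ∈ discSet Ω u := by
  refine and_congr Iff.rfl (not_congr ?_)
  exact exists_congr fun z => cal_isApproxLim_iff (hVo.mem_nhds hx) heq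

theorem rep_discSet_eq {Ω : Set ℂ} (hΩ : IsOpen Ω) {u w : ℂ → ℝ}
    (heq : ∀ᵐ x ∂volume.restrict Ω, w x = u x) : discSet Ω w = discSet Ω u := by
  ext x
  constructor
  · intro h
    exact (rep_discSet_iff hΩ heq h.1).1 h
  · intro h
    exact (rep_discSet_iff hΩ heq h.1).2 h

theorem rep_locInt_congr {E : Type*} [NormedAddCommGroup E] {Ω : Set ℂ}
    (hΩ : MeasurableSet Ω) {f f' : ℂ → E}
    (hf : LocallyIntegrableOn f Ω) (heq : ∀ᵐ x ∂volume.restrict Ω, f' x = f x) :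
    LocallyIntegrableOn f' Ω := by
  intro x hx
  obtain ⟨U, hU, hfU⟩ := hf x hx
  refine ⟨U ∩ Ω, inter_mem hU self_mem_nhdsWithin, ?_⟩
  have h1 : IntegrableOn f (U ∩ Ω) := hfU.mono_set inter_subset_left
  refine Integrable.congr h1 ?_
  have h2 := ae_restrict_of_ae_restrict_of_subset (inter_subset_right : U ∩ Ω ⊆ Ω) heq
  filter_upwards [h2] with y hy using hy.symm

/-- The energy in terms of a gradient. -/
theorem rep_energy {Ω : Set ℂ} (hΩ : IsOpen Ω) {u : ℂ → ℝ} {g₀ g : ℂ → ℂ}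
    (hu : LocallyIntegrableOn u Ω) (hg₀ : IsSBVGrad Ω u g₀)
    (hg : ∀ᵐ x ∂volume.restrict Ω, g x = g₀ x) {A : Set ℂ} (hAΩ : A ⊆ Ω) :
    energy Ω u A = (∫⁻ x in A, ‖g x‖ₑ ^ 2) + (μH[1] : Measure ℂ) (discSet Ω u ∩ A) := by
  unfold energy
  congr 1
  have hgA : ∀ᵐ x ∂volume.restrict A, g x = g₀ x :=
    ae_restrict_of_ae_restrict_of_subset hAΩ hg
  refine le_antisymm ?_ ?_
  · refine (iInf₂_le g₀ hg₀).trans (le_of_eq ?_)
    refine lintegral_congr_ae ?_
    filter_upwards [hgA] with x hx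
    rw [hx]
  · refine le_iInf₂ fun g₁ hg₁ => le_of_eq ?_
    have h1 := rep_grad_ae hΩ hΩ Subset.rfl hu hg₀ hg₁ (Eventually.of_forall fun x _ => rfl)
    have h2 : ∀ᵐ x ∂volume.restrict Ω, g₀ x = g₁ x :=
      (ae_restrict_iff' hΩ.measurableSet).2 h1
    have h3 : ∀ᵐ x ∂volume.restrict A, g₀ x = g₁ x :=
      ae_restrict_of_ae_restrict_of_subset hAΩ h2
    refine lintegral_congr_ae ?_
    filter_upwards [hgA, h3] with x hx hx'
    rw [hx, hx']

theorem exists_MSMin {Ω : Set ℂ} {u : ℂ → ℝ} (hΩ : IsOpen Ω) (hu : IsLocalMinimizer Ω u) :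
    ∃ (u' : ℂ → ℝ) (g j : ℂ → ℂ), MSMin Ω u' g j ∧ (∀ᵐ x ∂volume.restrict Ω, u' x = u x) ∧
      discSet Ω u' = discSet Ω u ∧
      ∀ A : Set ℂ, MeasurableSet A → A ⊆ Ω →
        energy Ω u A = (∫⁻ x in A, ‖g x‖ₑ ^ 2) + (μH[1] : Measure ℂ) (discSet Ω u ∩ A) := by
  obtain ⟨⟨hui, g₀, hg₀⟩, hfin, hmin⟩ := hu
  obtain ⟨hgi, j, hj, hji, hjf⟩ := id hg₀
  have hum : AEStronglyMeasurable u (volume.restrict Ω) := hui.aestronglyMeasurable
  have hgm : AEStronglyMeasurable g₀ (volume.restrict Ω) := hgi.aestronglyMeasurable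
  set u' : ℂ → ℝ := hum.mk u with hu'
  set g : ℂ → ℂ := hgm.mk g₀ with hg'
  have hu'm : Measurable u' := hum.stronglyMeasurable_mk.measurable
  have hg'm : Measurable g := hgm.stronglyMeasurable_mk.measurable
  have hu'e : ∀ᵐ x ∂volume.restrict Ω, u' x = u x := by
    filter_upwards [hum.ae_eq_mk] with x hx using hx.symm
  have hg'e : ∀ᵐ x ∂volume.restrict Ω, g x = g₀ x := by
    filter_upwards [hgm.ae_eq_mk] with x hx using hx.symm
  have hdisc : discSet Ω u' = discSet Ω u := rep_discSet_eq hΩ hu'e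
  have hen : ∀ A : Set ℂ, A ⊆ Ω →
      energy Ω u A = (∫⁻ x in A, ‖g x‖ₑ ^ 2) + (μH[1] : Measure ℂ) (discSet Ω u ∩ A) :=
    fun A hA => rep_energy hΩ hui hg₀ hg'e hA
  -- compact sets are contained in open sets of finite energy
  have hcpt : ∀ K, IsCompact K → K ⊆ Ω → ∃ A, IsOpen A ∧ K ⊆ A ∧ CompactlyIn A Ω ∧ A ⊆ Ω := by
    intro K hK hKΩ
    obtain ⟨A, hA, hKA, hAΩ, hAc⟩ := exists_open_between_and_isCompact_closure hK hΩ hKΩ
    exact ⟨A, hA, hKA, ⟨hAc, hAΩ⟩, subset_closure.trans hAΩ⟩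
  have hu'i : LocallyIntegrableOn u' Ω := rep_locInt_congr hΩ.measurableSet hui hu'e
  have hg'i : LocallyIntegrableOn g Ω := rep_locInt_congr hΩ.measurableSet hgi hg'e
  have hjf' : IsJumpField Ω u' j := by
    intro x hx
    have hiff : ∀ a b ν, IsJump u' x a b ν ↔ IsJump u x a b ν := fun a b ν =>
      cal_isJump_iff (hΩ.mem_nhds hx) hu'e
    rcases hj x hx with ⟨a, b, ν, h1, h2⟩ | ⟨h1, h2⟩
    · exact Or.inl ⟨a, b, ν, (hiff a b ν).2 h1, h2⟩
    · exact Or.inr ⟨fun ⟨a, b, ν, h3⟩ => h1 ⟨a, b, ν, (hiff a b ν).1 h3⟩, h2⟩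
  have hform : ∀ φ : ℂ → ℝ, ContDiff ℝ ∞ φ → HasCompactSupport φ → tsupport φ ⊆ Ω → ∀ v : ℂ,
      ∫ x in Ω, u' x * fderiv ℝ φ x v =
        - (∫ x in Ω, φ x * inner ℝ (g x) v) -
          ∫ x in Ω, φ x * inner ℝ (j x) v ∂(μH[1] : Measure ℂ) := by
    intro φ h1 h2 h3 v
    have e1 : ∫ x in Ω, u' x * fderiv ℝ φ x v = ∫ x in Ω, u x * fderiv ℝ φ x v := by
      refine integral_congr_ae ?_
      filter_upwards [hu'e] with x hx
      rw [hx]
    have e2 : ∫ x in Ω, φ x * inner ℝ (g x) v = ∫ x in Ω, φ x * inner ℝ (g₀ x) v := by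
      refine integral_congr_ae ?_
      filter_upwards [hg'e] with x hx
      rw [hx]
    rw [e1, e2]
    exact hjf φ h1 h2 h3 v
  have hg'' : IsSBVGrad Ω u' g := ⟨hg'i, j, hjf', hji, hform⟩
  have hfinA : ∀ A, IsOpen A → CompactlyIn A Ω → A ⊆ Ω →
      (∫⁻ x in A, ‖g x‖ₑ ^ 2) < ⊤ ∧ (μH[1] : Measure ℂ) (discSet Ω u ∩ A) < ⊤ := by
    intro A hA hAc hAΩ
    have h1 := hfin A hA hAc
    rw [hen A hAΩ] at h1
    exact ENNReal.add_lt_top.1 h1
  refine ⟨u', g, j, ⟨⟨hΩ, hu'm, hg'm, hu'i, hg'i, hjf', hji, hform, ?_, ?_⟩, ?_⟩, hu'e, hdisc,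
    fun A _ hA => hen A hA⟩
  · -- fin_g
    intro K hK hKΩ
    obtain ⟨A, hA, hKA, hAc, hAΩ⟩ := hcpt K hK hKΩ
    have h1 := (hfinA A hA hAc hAΩ).1
    have h2 : (∫⁻ x in K, ‖g x‖ₑ ^ 2) < ⊤ := (lintegral_mono_set hKA).trans_lt h1
    refine ⟨(hg'm.norm.pow_const 2).aestronglyMeasurable, ?_⟩
    rw [HasFiniteIntegral]
    refine lt_of_le_of_lt (lintegral_mono fun x => ?_) h2
    rw [enorm_pow, enorm_norm]
  · -- fin_S
    intro K hK hKΩ
    obtain ⟨A, hA, hKA, hAc, hAΩ⟩ := hcpt K hK hKΩ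
    rw [hdisc]
    exact (measure_mono (inter_subset_inter_right _ hKA)).trans_lt (hfinA A hA hAc hAΩ).2
  · -- minimality
    intro w h K hw hh hK hKΩ heq
    obtain ⟨A, hA, hKA, hAc, hAΩ⟩ := hcpt K hK hKΩ
    have heq' : ∀ᵐ x ∂volume.restrict Ω, x ∉ K → w x = u x := by
      filter_upwards [hu'e, ae_restrict_mem hΩ.measurableSet] with x hx hxΩ hxK
      rw [heq x hxΩ hxK, hx]
    have h1 := hmin w A ⟨hw, h, hh⟩ hA hAc ⟨K, hK, hKA, heq'⟩
    have h2 : energy Ω w A ≤ (∫⁻ x in A, ‖h x‖ₑ ^ 2) + (μH[1] : Measure ℂ) (discSet Ω w ∩ A) := by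
      unfold energy
      gcongr
      exact iInf₂_le h hh
    rw [hen A hAΩ] at h1
    have h3 := h1.trans h2
    -- locality
    have hVo : IsOpen (Ω \ K) := hΩ.sdiff hK.isClosed
    have hgh : ∀ᵐ x ∂(volume : Measure ℂ), x ∈ Ω \ K → g x = h x := by
      refine rep_grad_ae hΩ hVo sdiff_subset hu'i hg'' hh ?_
      filter_upwards [ae_restrict_mem hΩ.measurableSet] with x hxΩ hxV
      exact heq x hxΩ hxV.2
    have hwV : ∀ᵐ x ∂volume.restrict (Ω \ K), w x = u x := by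
      have h4 := ae_restrict_of_ae_restrict_of_subset (sdiff_subset : Ω \ K ⊆ Ω) heq'
      filter_upwards [h4, ae_restrict_mem hVo.measurableSet] with x hx hxV using hx hxV.2
    have hSS : (discSet Ω w ∩ A) \ K = (discSet Ω u ∩ A) \ K := by
      ext x
      constructor
      · rintro ⟨⟨hx1, hx2⟩, hx3⟩
        exact ⟨⟨(rep_discSet_iff hVo hwV ⟨hx1.1, hx3⟩).1 hx1, hx2⟩, hx3⟩
      · rintro ⟨⟨hx1, hx2⟩, hx3⟩
        exact ⟨⟨(rep_discSet_iff hVo hwV ⟨hx1.1, hx3⟩).2 hx1, hx2⟩, hx3⟩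
    have hKm : MeasurableSet K := hK.isClosed.measurableSet
    have sp1 : ∀ f : ℂ → ℂ, ∫⁻ x in A, ‖f x‖ₑ ^ 2 =
        (∫⁻ x in K, ‖f x‖ₑ ^ 2) + ∫⁻ x in A \ K, ‖f x‖ₑ ^ 2 := by
      intro f
      have h5 := lintegral_inter_add_sdiff (μ := (volume : Measure ℂ))
        (fun x => ‖f x‖ₑ ^ 2) A hKm
      rw [inter_eq_self_of_subset_right hKA] at h5
      exact h5.symm
    have sp2 : ∀ S : Set ℂ, (μH[1] : Measure ℂ) (S ∩ A) =
        (μH[1] : Measure ℂ) (S ∩ K) + (μH[1] : Measure ℂ) ((S ∩ A) \ K) := by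
      intro S
      have h5 := measure_inter_add_diff (μ := (μH[1] : Measure ℂ)) (S ∩ A) hKm
      rw [inter_assoc, inter_eq_self_of_subset_right hKA] at h5
      exact h5.symm
    have hgh' : ∫⁻ x in A \ K, ‖g x‖ₑ ^ 2 = ∫⁻ x in A \ K, ‖h x‖ₑ ^ 2 := by
      refine setLIntegral_congr_fun_ae (hA.measurableSet.diff hKm) ?_
      filter_upwards [hgh] with x hx hxA
      rw [hx ⟨hAΩ hxA.1, hxA.2⟩]
    rw [sp1, sp2, sp1 h, sp2 (discSet Ω w), hSS, ← hgh'] at h3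
    obtain ⟨f1, f2⟩ := hfinA A hA hAc hAΩ
    have f1' : ∫⁻ x in A \ K, ‖g x‖ₑ ^ 2 ≠ ⊤ :=
      ((lintegral_mono_set sdiff_subset).trans_lt f1).ne
    have f2' : (μH[1] : Measure ℂ) ((discSet Ω u ∩ A) \ K) ≠ ⊤ :=
      ((measure_mono sdiff_subset).trans_lt f2).ne
    rw [hdisc]
    have f3 : (∫⁻ x in A \ K, ‖g x‖ₑ ^ 2) + (μH[1] : Measure ℂ) ((discSet Ω u ∩ A) \ K) ≠ ⊤ :=
      ENNReal.add_ne_top.2 ⟨f1', f2'⟩
    refine (ENNReal.add_le_add_iff_right f3).1 ?_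
    calc _ = _ := by ring
      _ ≤ _ := h3
      _ = _ := by ring

end Pool.Agent.MP099f24
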