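import Mathlib
import Pool.Agent.Lib.MP_099f24_an.JumpBasic
import Pool.Agent.Lib.MP_099f24_an.SD.Ode
import Pool.Agent.Lib.MP_099f24_an.SD.Rep
import Pool.Agent.Lib.MP_099f24_an.SD.Count
import Pool.Agent.Lib.MP_099f24_an.SD.Polar
import Pool.Agent.Lib.MP_099f24_an.SD.Comp0
import Pool.Agent.Lib.MP_099f24_an.SD.Compb
import Pool.Agent.Lib.MP_099f24_an.SD.Flux
import Pool.Agent.Lib.MP_099f24_an.SD.Force
import Pool.Agent.Lib.MP_099f24_an.SD.Dil
import Pool.Agent.Lib.MP_099f24_an.SD.Outer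
import Pool.Agent.Lib.MP_099f24_an.SD.Remov
import Pool.Agent.Lib.MP_099f24_an.SD.Generic
import Pool.Agent.Lib.MP_099f24_an.SD.JRep

namespace Pool.Agent.MP099f24

open MeasureTheory Filter Topology Set Metric
open scoped ENNReal ContDiff

section Basic

variable {Ω : Set ℂ} {u : ℂ → ℝ} {g j : ℂ → ℂ} {a : ℂ} {R : ℝ}

theorem asm_closedBall_subset (hR : ball a R ⊆ Ω) {s : ℝ} (hs : s < R) : closedBall a s ⊆ Ω :=
  (closedBall_subset_ball hs).trans hR

theorem asm_S_lt_top (h : SBVData Ω u g j) (hR : ball a R ⊆ Ω) {s : ℝ} (hs : s < R) :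
    (μH[1] : Measure ℂ) (discSet Ω u ∩ ball a s) < ⊤ :=
  (measure_mono (inter_subset_inter_right _ ball_subset_closedBall)).trans_lt
    (h.fin_S _ (isCompact_closedBall a s) (asm_closedBall_subset hR hs))

theorem asm_g_int (h : SBVData Ω u g j) (hR : ball a R ⊆ Ω) {s : ℝ} (hs : s < R) :
    IntegrableOn (fun x => ‖g x‖ ^ 2) (ball a s) :=
  (h.fin_g _ (isCompact_closedBall a s) (asm_closedBall_subset hR hs)).mono_set
    ball_subset_closedBall

theorem asm_Lq_mono (h : SBVData Ω u g j) (hR : ball a R ⊆ Ω) :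
    MonotoneOn (Lq Ω u a) (Ioo 0 R) := by
  intro s _ t ht hst
  exact ENNReal.toReal_mono (asm_S_lt_top h hR ht.2).ne
    (measure_mono (inter_subset_inter_right _ (ball_subset_ball hst)))

theorem asm_Dq_mono (h : SBVData Ω u g j) (hR : ball a R ⊆ Ω) :
    MonotoneOn (Dq g a) (Ioo 0 R) :=
  (Dq_deriv h.meas_g fun _ hs => asm_g_int h hR hs).2.1

theorem asm_Lq_nonneg (s : ℝ) : 0 ≤ Lq Ω u a s := ENNReal.toReal_nonneg

theorem asm_Dq_nonneg (s : ℝ) : 0 ≤ Dq g a s := integral_nonneg fun _ => by positivity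

theorem asm_Tq_nonneg {s : ℝ} (hs : 0 ≤ s) : 0 ≤ Tq g a s :=
  mul_nonneg hs (integral_nonneg fun _ => by positivity)

theorem asm_Vq_nonneg {s : ℝ} (hs : 0 ≤ s) : 0 ≤ Vq g a s :=
  mul_nonneg hs (integral_nonneg fun _ => by positivity)

/-- A monotone function is differentiable almost everywhere. -/
theorem asm_ae_diff {F : ℝ → ℝ} (hF : MonotoneOn F (Ioo 0 R)) :
    ∀ᵐ s ∂(volume.restrict (Ioo 0 R)), DifferentiableAt ℝ F s := by
  have h1 := hF.ae_differentiableWithinAt_of_mem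
  rw [ae_restrict_iff' measurableSet_Ioo]
  filter_upwards [h1] with s hs hsm
  exact (hs hsm).differentiableAt (isOpen_Ioo.mem_nhds hsm)

theorem asm_deriv_nonneg {F : ℝ → ℝ} (hF : MonotoneOn F (Ioo 0 R)) {s : ℝ} (hs : s ∈ Ioo 0 R) :
    0 ≤ deriv F s := by
  have : Ioo 0 R ∈ 𝓝 s := isOpen_Ioo.mem_nhds hs
  rw [← derivWithin_of_mem_nhds this]
  exact hF.derivWithin_nonneg

theorem asm_count (h : SBVData Ω u g j) (hR : ball a R ⊆ Ω) :
    ∀ᵐ s ∂(volume.restrict (Ioo 0 R)), ∀ n : ℕ, (n : ℕ∞) ≤ (discSet Ω u ∩ sphere a s).encard →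
      (n : ℝ) ≤ deriv (Lq Ω u a) s :=
  count_deriv fun _ hs => asm_S_lt_top h hR hs

theorem asm_jump_sub (h : SBVData Ω u g j) : jumpSet Ω u ⊆ discSet Ω u := by
  rintro x ⟨hx, a, b, ν, hj⟩
  refine ⟨hx, ?_⟩
  rintro ⟨z, hz⟩
  obtain ⟨U, hU, hUi⟩ := h.intu x hx
  rw [h.isOpen.nhdsWithin_eq hx] at hU
  exact not_isApproxLim_of_isJump hU hUi hj z hz

/-- The three kinds of radii. -/
theorem asm_classes (h : MSMin Ω u g j) (hR : ball a R ⊆ Ω) :
    ∀ᵐ s ∂(volume.restrict (Ioo 0 R)), HasDerivAt (Dq g a) (Tq g a s + Vq g a s) s ∧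
      DifferentiableAt ℝ (Lq Ω u a) s ∧
      ((jumpSet Ω u ∩ sphere a s = ∅ ∧ Dq g a s + Lq Ω u a s ≤ s * Tq g a s) ∨
        (1 ≤ deriv (Lq Ω u a) s ∧ 1 ≤ Tq g a s + Vq g a s ∧
          Dq g a s ≤ s * (Tq g a s + Vq g a s)) ∨
        2 ≤ deriv (Lq Ω u a) s) := by
  filter_upwards [(Dq_deriv h.meas_g fun _ hs => asm_g_int h.toSBVData hR hs).1,
    asm_ae_diff (asm_Lq_mono h.toSBVData hR), asm_count h.toSBVData hR, comp_homog h hR,
    force_balance h hR, flux_bound h hR] with s h1 h2 h3 h4 h5 h6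
  refine ⟨h1.1, h2, ?_⟩
  by_cases hJ : jumpSet Ω u ∩ sphere a s = ∅
  · exact Or.inl ⟨hJ, h4 hJ⟩
  right
  by_cases hn : (2 : ℕ∞) ≤ (discSet Ω u ∩ sphere a s).encard
  · right
    have := h3 2 (by exact_mod_cast hn)
    exact_mod_cast this
  left
  obtain ⟨x, hxJ, hxs⟩ := nonempty_iff_ne_empty.2 hJ
  have hxS := asm_jump_sub h.toSBVData hxJ
  have hone : (discSet Ω u ∩ sphere a s).encard ≤ 1 := by
    have : (discSet Ω u ∩ sphere a s).encard < 1 + 1 := by
      have := not_le.1 hn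
      rwa [one_add_one_eq_two]
    exact ENat.lt_add_one_iff (by simp) |>.1 this
  have hsing : discSet Ω u ∩ sphere a s = {x} := by
    rw [encard_le_one_iff] at hone
    ext y
    constructor
    · intro hy
      exact hone y x hy ⟨hxS, hxs⟩
    · rintro rfl
      exact ⟨hxS, hxs⟩
  refine ⟨?_, h5 ⟨x, hxJ, hsing⟩, ?_⟩
  · have := h3 1 (by rw [hsing]; simp)
    exact_mod_cast this
  · refine h6 ?_
    have hsub : jumpSet Ω u ∩ sphere a s ⊆ {x} := by
      rw [← hsing]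
      exact inter_subset_inter_left _ (asm_jump_sub h.toSBVData)
    exact subsingleton_singleton.anti hsub

/-- The truncated monotonicity formula. -/
theorem asm_mono (h : MSMin Ω u g j) (hR : ball a R ⊆ Ω) {s t : ℝ} (hs : 0 < s) (hst : s ≤ t)
    (ht : t < R) :
    min 2 ((Dq g a s + Lq Ω u a s) / s) ≤ min 2 ((Dq g a t + Lq Ω u a t) / t) := by
  refine ode_trunc (E := fun s => Dq g a s + Lq Ω u a s) (R := R)
    ((asm_Dq_mono h.toSBVData hR).add (asm_Lq_mono h.toSBVData hR))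
    (fun s _ => add_nonneg (asm_Dq_nonneg s) (asm_Lq_nonneg s)) ?_ hs hst ht
  filter_upwards [asm_classes h hR, ae_restrict_mem measurableSet_Ioo] with s h1 hsm
  obtain ⟨hD, hL, hc⟩ := h1
  have hder : deriv (fun s => Dq g a s + Lq Ω u a s) s =
      (Tq g a s + Vq g a s) + deriv (Lq Ω u a) s :=
    (hD.add hL.hasDerivAt).deriv
  rw [hder]
  have hT := asm_Tq_nonneg (g := g) (a := a) hsm.1.le
  have hV := asm_Vq_nonneg (g := g) (a := a) hsm.1.le
  have hL0 := asm_deriv_nonneg (asm_Lq_mono h.toSBVData hR) hsm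
  rcases hc with ⟨_, hc⟩ | ⟨hc1, hc2, _⟩ | hc
  · refine (min_le_right _ _).trans ?_
    rw [div_le_iff₀ hsm.1]
    nlinarith [hsm.1]
  · refine (min_le_left _ _).trans ?_
    linarith
  · refine (min_le_left _ _).trans ?_
    linarith

/-- the set of generic jump points -/
def genSet (Ω : Set ℂ) (u : ℂ → ℝ) : Set ℂ :=
  {x ∈ jumpSet Ω u | ∀ ε > 0, ∀ᶠ r in 𝓝[>] (0 : ℝ), (2 - ε) * r ≤ Lq Ω u x r}

/-- generic jump points are dense in the closure of the discontinuity set -/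
theorem asm_gen_dense (h : MSMin Ω u g j) {x : ℂ} (hx : x ∈ Ω) (hcl : x ∈ closure (discSet Ω u))
    {δ : ℝ} (hδ : 0 < δ) : ∃ y ∈ genSet Ω u, dist y x < δ := by
  by_contra hcon
  push Not at hcon
  have h1 := removable h hx hcl hδ
  have h2 := generic_density h.toSBVData
  have h3 : jumpSet Ω u ∩ ball x δ ⊆ {x ∈ jumpSet Ω u | ¬ ∀ ε > 0, ∀ᶠ r in 𝓝[>] (0 : ℝ),
      (2 - ε) * r ≤ Lq Ω u x r} := by
    intro y hy
    refine ⟨hy.1, fun hgen => ?_⟩
    exact absurd hy.2 (not_lt.2 (hcon y ⟨hy.1, hgen⟩))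
  exact absurd (measure_mono_null h3 h2) h1.ne'

/-- The density at generic jump points. -/
theorem asm_gen_lower (h : MSMin Ω u g j) (hR : ball a R ⊆ Ω) (ha : a ∈ genSet Ω u) {s : ℝ}
    (hs : s ∈ Ioo 0 R) : 2 * s ≤ Dq g a s + Lq Ω u a s := by
  refine le_of_forall_pos_le_add fun ε hε => ?_
  have hε' : 0 < ε / s := div_pos hε hs.1
  have h1 := ha.2 (ε / s) hε'
  obtain ⟨r, hr1, hr2⟩ := (h1.and (Ioo_mem_nhdsGT hs.1)).exists
  have h2 := asm_mono h hR hr2.1 hr2.2.le hs.2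
  have h3 : 2 - ε / s ≤ min 2 ((Dq g a r + Lq Ω u a r) / r) := by
    refine le_min (by linarith) ?_
    rw [le_div_iff₀ hr2.1]
    have := asm_Dq_nonneg (g := g) (a := a) r
    linarith
  have h4 := (h3.trans h2).trans (min_le_right _ _)
  rw [le_div_iff₀ hs.1] at h4
  have : (2 - ε / s) * s = 2 * s - ε := by
    field_simp [hs.1.ne']
  linarith

theorem asm_Lq_le (h : SBVData Ω u g j) (hR : ball a R ⊆ Ω) {b : ℂ} {s t : ℝ} (ht : t < R)
    (hst : s + dist b a ≤ t) : Lq Ω u b s ≤ Lq Ω u a t :=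
  ENNReal.toReal_mono (asm_S_lt_top h hR ht).ne
    (measure_mono (inter_subset_inter_right _ (ball_subset_ball' hst)))

theorem asm_Dq_le (h : SBVData Ω u g j) (hR : ball a R ⊆ Ω) {b : ℂ} {s t : ℝ} (ht : t < R)
    (hst : s + dist b a ≤ t) : Dq g b s ≤ Dq g a t :=
  setIntegral_mono_set (asm_g_int h hR ht) (ae_of_all _ fun _ => by positivity)
    (ball_subset_ball' hst).eventuallyLE

/-- The lower bound `E(B_s(a)) ≥ 2 s`. -/
theorem asm_lower (h : MSMin Ω u g j) (hR : ball a R ⊆ Ω) (ha : a ∈ Ω)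
    (hcl : a ∈ closure (discSet Ω u)) {s : ℝ} (hs : s ∈ Ioo 0 R) :
    2 * s ≤ Dq g a s + Lq Ω u a s := by
  refine le_of_forall_pos_le_add fun ε hε => ?_
  obtain ⟨y, hy, hya⟩ := asm_gen_dense h ha hcl (δ := min (ε / 2) (s / 2))
    (lt_min (by positivity) (by have := hs.1; positivity))
  have hy1 : dist y a < ε / 2 := hya.trans_le (min_le_left _ _)
  have hy2 : dist y a < s / 2 := hya.trans_le (min_le_right _ _)
  have hball : ball y (R - dist y a) ⊆ Ω :=
    (ball_subset_ball' (by linarith)).trans hR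
  have hmem : s - dist y a ∈ Ioo 0 (R - dist y a) := ⟨by linarith [hs.1], by linarith [hs.2]⟩
  have h1 := asm_gen_lower h hball hy hmem
  have h2 := asm_Lq_le h.toSBVData hR (b := y) (s := s - dist y a) hs.2 (by linarith)
  have h3 := asm_Dq_le h.toSBVData hR (b := y) (s := s - dist y a) hs.2 (by linarith)
  linarith

/-- The sharp lower bound for annuli. -/
theorem asm_annulus (h : MSMin Ω u g j) (hR : ball a R ⊆ Ω) (ha : a ∈ Ω)
    (hcl : a ∈ closure (discSet Ω u)) {s t : ℝ} (hs : 0 < s) (hst : s ≤ t) (ht : t < R) :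
    2 * (t - s) ≤ (Dq g a t + Lq Ω u a t) - (Dq g a s + Lq Ω u a s) := by
  set E : ℝ → ℝ := fun s => Dq g a s + Lq Ω u a s with hE
  have hmono : MonotoneOn E (Ioo 0 R) :=
    (asm_Dq_mono h.toSBVData hR).add (asm_Lq_mono h.toSBVData hR)
  have hsub : uIcc s t ⊆ Ioo 0 R := by
    rw [uIcc_of_le hst]
    exact fun x hx => ⟨hs.trans_le hx.1, hx.2.trans_lt ht⟩
  have hm := hmono.mono hsub
  have h1 := hm.intervalIntegral_deriv_mem_uIcc
  have h2 : ∫ x in s..t, deriv E x ≤ E t - E s := by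
    have h3 : E s ≤ E t := hm (by simp) (by simp) hst
    rw [uIcc_of_le (by linarith)] at h1
    exact h1.2
  have h4 : ∫ x in s..t, (2 : ℝ) ≤ ∫ x in s..t, deriv E x := by
    refine intervalIntegral.integral_mono_ae_restrict hst intervalIntegrable_const
      hm.intervalIntegrable_deriv ?_
    have hsub' : Icc s t ⊆ Ioo 0 R := by rwa [uIcc_of_le hst] at hsub
    filter_upwards [ae_restrict_of_ae_restrict_of_subset hsub' (asm_classes h hR),
      ae_restrict_mem measurableSet_Icc] with x hx hxm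
    obtain ⟨hD, hL, hc⟩ := hx
    have hxI := hsub' hxm
    have hder : deriv E x = (Tq g a x + Vq g a x) + deriv (Lq Ω u a) x :=
      (hD.add hL.hasDerivAt).deriv
    rw [hder]
    have hT := asm_Tq_nonneg (g := g) (a := a) hxI.1.le
    have hV := asm_Vq_nonneg (g := g) (a := a) hxI.1.le
    have hL0 := asm_deriv_nonneg (asm_Lq_mono h.toSBVData hR) hxI
    have hlow := asm_lower h hR ha hcl hxI
    rcases hc with ⟨_, hc⟩ | ⟨hc1, hc2, _⟩ | hc
    · have : 2 ≤ Tq g a x := by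
        have h5 : x * 2 ≤ x * Tq g a x := by linarith
        exact le_of_mul_le_mul_left h5 hxI.1
      linarith
    · linarith
    · linarith
  rw [intervalIntegral.integral_const, smul_eq_mul] at h4
  linarith

/-- The inequality for the length. -/
theorem asm_length (h : MSMin Ω u g j) (hR : ball a R ⊆ Ω) (ha : a ∈ Ω)
    (hcl : a ∈ closure (discSet Ω u)) {t : ℝ} (ht : t ∈ Ioo 0 R) (hLt : Lq Ω u a t < t) :
    3 * t ^ 2 ≤ 2 * Dq g a t * Lq Ω u a t + Lq Ω u a t ^ 2 := by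
  -- generic centres
  have key : ∀ y ∈ genSet Ω u, ∀ R', ball y R' ⊆ Ω → ∀ r ∈ Ioo 0 R', Lq Ω u y r < r →
      3 * r ^ 2 ≤ 2 * Dq g y r * Lq Ω u y r + Lq Ω u y r ^ 2 := by
    intro y hy R' hR' r hr hLr
    refine ode_length (asm_Dq_mono h.toSBVData hR') (asm_Lq_mono h.toSBVData hR')
      (fun s _ => asm_Dq_nonneg s) (fun s _ => asm_Lq_nonneg s)
      (fun s hs => asm_gen_lower h hR' hy hs) ?_ ?_ hr hLr
    · filter_upwards [asm_classes h hR', dilation h hR', ae_restrict_mem measurableSet_Ioo]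
        with s h1 h2 hsm
      obtain ⟨hD, hL, hc⟩ := h1
      refine ⟨hD.differentiableAt, hL, ?_⟩
      rw [hD.deriv]
      rcases hc with ⟨_, hc⟩ | ⟨hc1, _, hc3⟩ | hc
      · left
        rw [div_le_iff₀ hsm.1]
        nlinarith
      · right; left
        refine ⟨hc1, ?_⟩
        rw [div_le_iff₀ hsm.1]
        linarith
      · right; right
        exact hc
    · intro δ hδ
      obtain ⟨s, hs1, hs2⟩ := ((hy.2 1 one_pos).and (Ioo_mem_nhdsGT hδ)).exists
      exact ⟨s, hs2, by linarith⟩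
  -- approximation
  have happ : ∀ ε > 0, ε < t - Lq Ω u a t → ε < t →
      3 * (t - ε) ^ 2 ≤ 2 * Dq g a t * Lq Ω u a t + Lq Ω u a t ^ 2 := by
    intro ε hε hε1 hε2
    obtain ⟨y, hy, hya⟩ := asm_gen_dense h ha hcl hε
    have hball : ball y (R - dist y a) ⊆ Ω := (ball_subset_ball' (by linarith)).trans hR
    have h2 := asm_Lq_le h.toSBVData hR (b := y) (s := t - ε) ht.2 (by linarith)
    have h3 := asm_Dq_le h.toSBVData hR (b := y) (s := t - ε) ht.2 (by linarith)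
    have h4 := key y hy _ hball (t - ε) ⟨by linarith, by linarith [ht.2]⟩ (by linarith)
    refine h4.trans ?_
    have h5 := asm_Dq_nonneg (g := g) (a := y) (t - ε)
    have h6 := asm_Lq_nonneg (Ω := Ω) (u := u) (a := y) (t - ε)
    have h7 : Dq g y (t - ε) * Lq Ω u y (t - ε) ≤ Dq g a t * Lq Ω u a t :=
      mul_le_mul h3 h2 h6 (h5.trans h3)
    have h8 : Lq Ω u y (t - ε) ^ 2 ≤ Lq Ω u a t ^ 2 := by gcongr
    nlinarith
  have hlim : Tendsto (fun ε : ℝ => 3 * (t - ε) ^ 2) (𝓝[>] 0) (𝓝 (3 * (t - 0) ^ 2)) := by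
    refine Tendsto.mono_left ?_ nhdsWithin_le_nhds
    exact Continuous.tendsto (by fun_prop) 0
  rw [sub_zero] at hlim
  refine le_of_tendsto hlim ?_
  have hpos : 0 < min (t - Lq Ω u a t) t := lt_min (by linarith) ht.1
  filter_upwards [Ioo_mem_nhdsGT hpos] with ε hε
  exact happ ε hε.1 (hε.2.trans_le (min_le_left _ _)) (hε.2.trans_le (min_le_right _ _))

end Basic

end Pool.Agent.MP099f24
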