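import Mathlib
import Pool.Agent.Lib.MP_099f24_an.SD.Defs
import Pool.Agent.Lib.MP_099f24_an.SD.JRep
import Pool.Agent.Lib.MP_099f24_an.SD.Pieces
import Pool.Agent.Lib.MP_099f24_an.SD.Area

/-!
# Weighted coarea inequality on circles (module COAREAW)
-/

namespace Pool.Agent.MP099f24

open MeasureTheory Filter Topology Set Metric TopologicalSpace
open scoped ENNReal NNReal ContDiff

theorem coareaw_incr {C : Set ℂ} {Φ w : ℂ → ℝ} {a : ℂ}
    (hΦ0 : ∀ x, 0 ≤ Φ x)
    (key : ∀ A, MeasurableSet A → A ⊆ C → volume ((fun x => dist x a) '' A) ≤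
      ∫⁻ x in A, ENNReal.ofReal (w x) ∂(μH[1] : Measure ℂ))
    {ι : Type*} (F : Finset ι) (A : ι → Set ℂ) (q : ι → ℝ)
    (hA : ∀ i ∈ F, MeasurableSet (A i)) (hAC : ∀ i ∈ F, A i ⊆ C)
    (hdisj : (F : Set ι).PairwiseDisjoint A) (hq : ∀ i ∈ F, ∀ x ∈ A i, q i ≤ Φ x) (s t : ℝ) :
    ∑ i ∈ F, ENNReal.ofReal (q i) * volume ((fun x => dist x a) '' (A i) ∩ Ico s t) ≤
      (((μH[1] : Measure ℂ).restrict C).withDensity (fun x => ENNReal.ofReal (Φ x * w x)))
        (ball a t \ ball a s) := by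
  have hsh : MeasurableSet (ball a t \ ball a s) := measurableSet_ball.diff measurableSet_ball
  have h1 : ∀ i ∈ F, ENNReal.ofReal (q i) * volume ((fun x => dist x a) '' (A i) ∩ Ico s t) ≤
      (((μH[1] : Measure ℂ).restrict C).withDensity (fun x => ENNReal.ofReal (Φ x * w x)))
        (A i ∩ (ball a t \ ball a s)) := by
    intro i hi
    have hm : MeasurableSet (A i ∩ (ball a t \ ball a s)) := (hA i hi).inter hsh
    rw [withDensity_apply _ hm, Measure.restrict_restrict hm,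
      inter_eq_left.mpr (inter_subset_left.trans (hAC i hi))]
    have h2 : volume ((fun x => dist x a) '' (A i) ∩ Ico s t) ≤
        ∫⁻ x in A i ∩ (ball a t \ ball a s), ENNReal.ofReal (w x) ∂(μH[1] : Measure ℂ) := by
      refine le_trans (measure_mono ?_) (key _ hm (inter_subset_left.trans (hAC i hi)))
      rintro r ⟨⟨x, hx, rfl⟩, hr⟩
      refine ⟨x, ⟨hx, ?_, ?_⟩, rfl⟩
      · rw [mem_ball]
        exact hr.2
      · rw [mem_ball, not_lt]
        exact hr.1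
    calc ENNReal.ofReal (q i) * volume ((fun x => dist x a) '' (A i) ∩ Ico s t)
        ≤ ENNReal.ofReal (q i) *
          ∫⁻ x in A i ∩ (ball a t \ ball a s), ENNReal.ofReal (w x) ∂(μH[1] : Measure ℂ) :=
          mul_le_mul' le_rfl h2
      _ = ∫⁻ x in A i ∩ (ball a t \ ball a s), ENNReal.ofReal (q i) * ENNReal.ofReal (w x)
            ∂(μH[1] : Measure ℂ) :=
          (lintegral_const_mul' _ _ ENNReal.ofReal_ne_top).symm
      _ ≤ _ := by
          refine setLIntegral_mono' hm fun x hx => ?_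
          rw [ENNReal.ofReal_mul (hΦ0 x)]
          exact mul_le_mul' (ENNReal.ofReal_le_ofReal (hq i hi x hx.1)) le_rfl
  refine (Finset.sum_le_sum h1).trans ?_
  rw [← measure_biUnion_finset]
  · refine measure_mono ?_
    simp only [iUnion_subset_iff]
    exact fun i _ => inter_subset_right
  · intro i hi j hj hij
    exact (hdisj hi hj hij).mono inter_subset_left inter_subset_left
  · exact fun i hi => (hA i hi).inter hsh

theorem coareaw_deriv {C : Set ℂ} {Φ w : ℂ → ℝ} {a : ℂ} {R : ℝ} (hCm : MeasurableSet C)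
    (hΦ : Measurable Φ) (hΦ0 : ∀ x, 0 ≤ Φ x)
    (key : ∀ A, MeasurableSet A → A ⊆ C → volume ((fun x => dist x a) '' A) ≤
      ∫⁻ x in A, ENNReal.ofReal (w x) ∂(μH[1] : Measure ℂ)) {ν : Measure ℂ}
    (hν : ν = ((μH[1] : Measure ℂ).restrict C).withDensity (fun x => ENNReal.ofReal (Φ x * w x)))
    (hfin : ∀ t < R, ν (ball a t) < ⊤) :
    ∀ᵐ s ∂(volume.restrict (Ioo 0 R)), ∀ T : Finset ℂ, (T : Set ℂ) ⊆ C ∩ sphere a s →
      ∑ p ∈ T, Φ p ≤ deriv (fun t => (ν (ball a t)).toReal) s := by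
  set lam : ℝ → ℝ := fun t => (ν (ball a t)).toReal with hlam
  have hmono : MonotoneOn lam (Iio R) := by
    intro s _ t ht hst
    exact ENNReal.toReal_mono (hfin t ht).ne (measure_mono (ball_subset_ball hst))
  -- the pieces
  set B : ℕ → ℕ → Set ℂ := fun m i => ball (denseSeq ℂ i) (1 / ((m : ℝ) + 1)) with hB
  set Y : ℕ → ℕ → ℚ → Set ℂ := fun m i q => C ∩ B m i ∩ {x | (q : ℝ) ≤ Φ x} with hY
  have hYm : ∀ m i q, MeasurableSet (Y m i q) := fun m i q =>
    (hCm.inter measurableSet_ball).inter (measurableSet_le measurable_const hΦ)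
  set Z : ℕ → ℕ → ℚ → Set ℝ := fun m i q => (fun x => dist x a) '' (Y m i q) with hZ
  have hdiff : ∀ᵐ s : ℝ, s ∈ Iio R → DifferentiableWithinAt ℝ lam (Iio R) s :=
    hmono.ae_differentiableWithinAt_of_mem
  have hdens : ∀ (m i : ℕ) (q : ℚ), ∀ᵐ s : ℝ, s ∈ Z m i q →
      Tendsto (fun δ : ℝ => volume (Z m i q ∩ closedBall (s + δ) δ) /
        volume (closedBall (s + δ) δ)) (𝓝[>] 0) (𝓝 1) := by
    intro m i q
    have h1 := IsUnifLocDoublingMeasure.ae_tendsto_measure_inter_div (volume : Measure ℝ)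
      (Z m i q) 1
    have h2 := ae_imp_of_ae_restrict h1
    filter_upwards [h2] with s hs hsZ
    refine hs hsZ (fun δ => s + δ) (fun δ => δ) tendsto_id ?_
    filter_upwards [self_mem_nhdsWithin] with δ hδ
    rw [mem_closedBall, Real.dist_eq]
    have : s - (s + δ) = -δ := by ring
    rw [this, abs_neg, abs_of_pos hδ, one_mul]
  have hdens' : ∀ᵐ s : ℝ, ∀ (m i : ℕ) (q : ℚ), s ∈ Z m i q →
      Tendsto (fun δ : ℝ => volume (Z m i q ∩ closedBall (s + δ) δ) /
        volume (closedBall (s + δ) δ)) (𝓝[>] 0) (𝓝 1) :=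
    ae_all_iff.2 fun m => ae_all_iff.2 fun i => ae_all_iff.2 fun q => hdens m i q
  rw [ae_restrict_iff' measurableSet_Ioo]
  filter_upwards [hdiff, hdens'] with s hs1 hs2 hs T hTS
  obtain ⟨hs0, hsR⟩ := hs
  have hd : HasDerivAt lam (deriv lam s) s :=
    ((hs1 hsR).differentiableAt (Iio_mem_nhds hsR)).hasDerivAt
  -- separation
  obtain ⟨m, hm⟩ : ∃ m : ℕ, ∀ p ∈ T, ∀ q ∈ T, p ≠ q → 4 * (1 / ((m : ℝ) + 1)) ≤ dist p q := by
    have h1 : ∀ᶠ m : ℕ in atTop, ∀ pq ∈ (T ×ˢ T), pq.1 ≠ pq.2 →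
        4 * (1 / ((m : ℝ) + 1)) ≤ dist pq.1 pq.2 := by
      rw [Finset.eventually_all]
      rintro ⟨p, q⟩ _
      by_cases hpq : p = q
      · exact Eventually.of_forall fun m h => absurd hpq h
      · have h2 : Tendsto (fun m : ℕ => 4 * (1 / ((m : ℝ) + 1))) atTop (𝓝 (4 * 0)) :=
          tendsto_one_div_add_atTop_nhds_zero_nat.const_mul 4
        rw [mul_zero] at h2
        have h3 := h2.eventually_lt_const (dist_pos.2 hpq)
        filter_upwards [h3] with m hm _ using hm.le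
    obtain ⟨m, hm⟩ := h1.exists
    exact ⟨m, fun p hp q hq hpq => hm (p, q) (Finset.mem_product.mpr ⟨hp, hq⟩) hpq⟩
  have hr : (0 : ℝ) < 1 / ((m : ℝ) + 1) := by positivity
  have hchoice : ∀ p : ℂ, ∃ i : ℕ, dist p (denseSeq ℂ i) < 1 / ((m : ℝ) + 1) := by
    intro p
    obtain ⟨i, hi⟩ := (denseRange_denseSeq ℂ).exists_dist_lt p hr
    exact ⟨i, hi⟩
  choose c hc using hchoice
  refine le_of_forall_pos_lt_add fun η hη => ?_
  -- rational lower bounds
  have hrat : ∀ p : ℂ, ∃ q : ℚ, Φ p - η / (T.card + 1) < (q : ℝ) ∧ (q : ℝ) < Φ p := by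
    intro p
    have h1 : Φ p - η / (T.card + 1) < Φ p := by
      have : 0 < η / ((T.card : ℝ) + 1) := by positivity
      linarith
    obtain ⟨q, hq1, hq2⟩ := exists_rat_btwn h1
    exact ⟨q, hq1, hq2⟩
  choose Q hQ1 hQ2 using hrat
  have hYd : (T : Set ℂ).PairwiseDisjoint (fun p => Y m (c p) (Q p)) := by
    intro p hp q hq hpq
    have h1 := hm p hp q hq hpq
    change Disjoint (Y m (c p) (Q p)) (Y m (c q) (Q q))
    rw [Set.disjoint_left]
    intro x hx hx'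
    have hx1 : dist x (denseSeq ℂ (c p)) < 1 / ((m : ℝ) + 1) := mem_ball.1 hx.1.2
    have hx2 : dist x (denseSeq ℂ (c q)) < 1 / ((m : ℝ) + 1) := mem_ball.1 hx'.1.2
    have h2 := hc p
    have h3 := hc q
    have h4 := dist_triangle4 p (denseSeq ℂ (c p)) x (denseSeq ℂ (c q))
    have h5 := dist_triangle_right p q (denseSeq ℂ (c q))
    rw [dist_comm x] at hx1
    linarith
  have hTZ : ∀ p ∈ T, s ∈ Z m (c p) (Q p) := by
    intro p hp
    have hpT := hTS (Finset.mem_coe.mpr hp)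
    exact ⟨p, ⟨⟨hpT.1, mem_ball.2 (hc p)⟩, (hQ2 p).le⟩, mem_sphere.1 hpT.2⟩
  -- the inequality of increments
  have hinc : ∀ δ : ℝ, 0 < δ → s + 2 * δ < R →
      ∑ p ∈ T, (ENNReal.ofReal (Q p)).toReal * (volume (Z m (c p) (Q p) ∩ closedBall (s + δ) δ) /
        volume (closedBall (s + δ) δ)).toReal ≤
        (2 * δ)⁻¹ • (lam (s + 2 * δ) - lam s) := by
    intro δ hδ hδR
    have h1 : closedBall (s + δ) δ = Icc s (s + 2 * δ) := by
      rw [Real.closedBall_eq_Icc]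
      congr 1 <;> ring
    have h2 : ∀ p, volume (Z m (c p) (Q p) ∩ closedBall (s + δ) δ) =
        volume (Z m (c p) (Q p) ∩ Ico s (s + 2 * δ)) := by
      intro p
      rw [h1]
      refine measure_congr ?_
      exact (ae_eq_refl _).inter Ico_ae_eq_Icc.symm
    have h3 := coareaw_incr hΦ0 key T (fun p => Y m (c p) (Q p)) (fun p => (Q p : ℝ))
      (fun p _ => hYm _ _ _) (fun p _ => inter_subset_left.trans inter_subset_left) hYd
      (fun p _ x hx => hx.2) s (s + 2 * δ)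
    rw [← hν] at h3
    have hsub : ball a s ⊆ ball a (s + 2 * δ) := ball_subset_ball (by linarith)
    have hfs : ν (ball a s) ≠ ⊤ := (hfin s hsR).ne
    have hft : ν (ball a (s + 2 * δ)) ≠ ⊤ := (hfin _ hδR).ne
    have h4 : lam (s + 2 * δ) - lam s = (ν (ball a (s + 2 * δ) \ ball a s)).toReal := by
      rw [measure_sdiff hsub measurableSet_ball.nullMeasurableSet hfs,
        ENNReal.toReal_sub_of_le (measure_mono hsub) hft]
    have hfd : ν (ball a (s + 2 * δ) \ ball a s) ≠ ⊤ :=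
      ne_top_of_le_ne_top hft (measure_mono sdiff_subset)
    have hvol : volume (closedBall (s + δ) δ) = ENNReal.ofReal (2 * δ) := by
      rw [Real.volume_closedBall]
    have h5 : ∑ p ∈ T, (ENNReal.ofReal (Q p)).toReal *
        (volume (Z m (c p) (Q p) ∩ closedBall (s + δ) δ) /
        volume (closedBall (s + δ) δ)).toReal =
        (2 * δ)⁻¹ * (∑ p ∈ T, ENNReal.ofReal (Q p) *
          volume (Z m (c p) (Q p) ∩ Ico s (s + 2 * δ))).toReal := by
      rw [ENNReal.toReal_sum, Finset.mul_sum]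
      · refine Finset.sum_congr rfl fun p _ => ?_
        rw [h2 p, hvol, ENNReal.toReal_div,
          ENNReal.toReal_ofReal (show (0 : ℝ) ≤ 2 * δ by positivity), ENNReal.toReal_mul]
        rw [div_eq_inv_mul]
        ring
      · intro p _
        refine ENNReal.mul_ne_top ENNReal.ofReal_ne_top ?_
        refine ne_top_of_le_ne_top ?_ (measure_mono inter_subset_right)
        rw [Real.volume_Ico]
        exact ENNReal.ofReal_ne_top
    rw [h5, h4, smul_eq_mul]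
    refine mul_le_mul_of_nonneg_left ?_ (by positivity)
    exact ENNReal.toReal_mono hfd h3
  -- passage to the limit
  have hlim1 : Tendsto (fun δ : ℝ => ∑ p ∈ T, (ENNReal.ofReal (Q p)).toReal *
      (volume (Z m (c p) (Q p) ∩ closedBall (s + δ) δ) /
      volume (closedBall (s + δ) δ)).toReal) (𝓝[>] 0)
      (𝓝 (∑ p ∈ T, (ENNReal.ofReal (Q p)).toReal * 1)) := by
    refine tendsto_finsetSum _ fun p hp => ?_
    have h2 := hs2 m (c p) (Q p) (hTZ p hp)
    have h3 := (ENNReal.tendsto_toReal ENNReal.one_ne_top).comp h2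
    rw [ENNReal.toReal_one] at h3
    exact h3.const_mul _
  have hlim2 : Tendsto (fun δ : ℝ => (2 * δ)⁻¹ • (lam (s + 2 * δ) - lam s)) (𝓝[>] 0)
      (𝓝 (deriv lam s)) := by
    have h1 := hasDerivAt_iff_tendsto_slope_zero.1 hd
    refine h1.comp ?_
    refine tendsto_nhdsWithin_iff.2 ⟨?_, ?_⟩
    · have h2 : Tendsto (fun δ : ℝ => 2 * δ) (𝓝 0) (𝓝 (2 * 0)) := tendsto_id.const_mul 2
      rw [mul_zero] at h2
      exact h2.mono_left nhdsWithin_le_nhds
    · filter_upwards [self_mem_nhdsWithin] with δ hδ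
      have : (0 : ℝ) < δ := hδ
      simp only [mem_compl_iff, mem_singleton_iff]
      positivity
  have h6 : ∀ᶠ δ : ℝ in 𝓝[>] 0, s + 2 * δ < R := by
    have h7 : Tendsto (fun δ : ℝ => s + 2 * δ) (𝓝 0) (𝓝 (s + 2 * 0)) :=
      (tendsto_id.const_mul 2).const_add s
    rw [mul_zero, add_zero] at h7
    exact (h7.mono_left nhdsWithin_le_nhds).eventually_lt_const hsR
  have h8 : ∑ p ∈ T, (ENNReal.ofReal (Q p)).toReal * 1 ≤ deriv lam s := by
    refine le_of_tendsto_of_tendsto hlim1 hlim2 ?_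
    filter_upwards [self_mem_nhdsWithin, h6] with δ hδ hδR
    exact hinc δ hδ hδR
  have h9 : ∑ p ∈ T, Φ p ≤ ∑ p ∈ T, ((ENNReal.ofReal (Q p)).toReal * 1 + η / (T.card + 1)) := by
    refine Finset.sum_le_sum fun p _ => ?_
    have h10 : (Q p : ℝ) ≤ (ENNReal.ofReal (Q p)).toReal := by
      rw [ENNReal.toReal_ofReal']
      exact le_max_left _ _
    have := hQ1 p
    linarith
  rw [Finset.sum_add_distrib, Finset.sum_const, nsmul_eq_mul] at h9
  have h11 : (T.card : ℝ) * (η / (T.card + 1)) < η := by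
    rw [mul_div_assoc', div_lt_iff₀ (by positivity)]
    nlinarith
  linarith

/-! ### Geometry -/

theorem coareaw_norm_add_sub (z v : ℂ) (hz : z ≠ 0) :
    |‖z + v‖ - ‖z‖| ≤ |inner ℝ z v| / ‖z‖ + ‖v‖ ^ 2 / (2 * ‖z‖) := by
  have hz0 : 0 < ‖z‖ := norm_pos_iff.mpr hz
  have h1 : ‖z + v‖ ^ 2 = ‖z‖ ^ 2 + 2 * inner ℝ z v + ‖v‖ ^ 2 := norm_add_sq_real z v
  have h2 := neg_abs_le (inner ℝ z v : ℝ)
  have h3 := le_abs_self (inner ℝ z v : ℝ)
  obtain ⟨b, hb⟩ : ∃ b, b = |(inner ℝ z v : ℝ)| := ⟨_, rfl⟩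
  have hb0 : 0 ≤ b := by rw [hb]; exact abs_nonneg _
  obtain ⟨t, ht⟩ : ∃ t, t = b / ‖z‖ + ‖v‖ ^ 2 / (2 * ‖z‖) := ⟨_, rfl⟩
  rw [← hb] at h2 h3 ⊢
  rw [← ht]
  have ht0 : 0 ≤ t := by rw [ht]; positivity
  have ht1 : 2 * ‖z‖ * t = 2 * b + ‖v‖ ^ 2 := by rw [ht]; field_simp
  have hbn : b ≤ ‖z‖ * ‖v‖ := by rw [hb]; exact abs_real_inner_le_norm z v
  rw [abs_le]
  constructor
  · -- lower bound
    have h4 : inner ℝ z (z + v) ≤ ‖z‖ * ‖z + v‖ := real_inner_le_norm z (z + v)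
    rw [inner_add_right, real_inner_self_eq_norm_sq] at h4
    have h5 : ‖z‖ * (‖z + v‖ - ‖z‖ + t) ≥ 0 := by nlinarith [sq_nonneg ‖v‖]
    have h6 := nonneg_of_mul_nonneg_right h5 hz0
    linarith
  · have h4 : ‖z + v‖ ^ 2 ≤ (‖z‖ + t) ^ 2 := by nlinarith
    have h5 := abs_le_of_sq_le_sq h4 (by positivity)
    have h6 := le_abs_self ‖z + v‖
    have h7 := abs_le_of_sq_le_sq' h4 (by positivity)
    linarith [h7.2]

/-- The distance function on a nearly flat set. -/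
theorem coareaw_dist {a x y n : ℂ} {ε δ : ℝ} (hn : ‖n‖ = 1) (hδ : 0 < δ) (hx : δ ≤ ‖x - a‖)
    (hxy : |inner ℝ (y - x) n| ≤ ε * ‖y - x‖) (hd : ‖y - x‖ ≤ ε) :
    |dist y a - dist x a| ≤
      (|inner ℝ (x - a) (Complex.I * n)| / ‖x - a‖ + ε + ε / (2 * δ)) * ‖y - x‖ := by
  have hx0 : 0 < ‖x - a‖ := lt_of_lt_of_le hδ hx
  have h1 := coareaw_norm_add_sub (x - a) (y - x) (norm_pos_iff.mp hx0)
  have e1 : x - a + (y - x) = y - a := by ring
  rw [e1] at h1
  rw [dist_eq_norm, dist_eq_norm]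
  refine h1.trans ?_
  have hIn : ‖Complex.I * n‖ = 1 := by rw [area_norm_I_mul, hn]
  have h2 : |inner ℝ (x - a) (y - x)| ≤ ‖x - a‖ * (ε * ‖y - x‖) +
      |inner ℝ (x - a) (Complex.I * n)| * ‖y - x‖ := by
    conv_lhs => rw [area_decomp hn (y - x)]
    rw [inner_add_right, inner_smul_right, inner_smul_right]
    refine (abs_add_le _ _).trans (add_le_add ?_ ?_)
    · rw [abs_mul, mul_comm]
      refine mul_le_mul ?_ hxy (abs_nonneg _) (norm_nonneg _)
      have := abs_real_inner_le_norm (x - a) n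
      rwa [hn, mul_one] at this
    · rw [abs_mul, mul_comm]
      refine mul_le_mul_of_nonneg_left ?_ (abs_nonneg _)
      have := abs_real_inner_le_norm (y - x) (Complex.I * n)
      rwa [hIn, mul_one] at this
  have h3 : |inner ℝ (x - a) (y - x)| / ‖x - a‖ ≤
      (|inner ℝ (x - a) (Complex.I * n)| / ‖x - a‖ + ε) * ‖y - x‖ := by
    rw [div_le_iff₀ hx0]
    refine h2.trans (le_of_eq ?_)
    field_simp
    ring
  have h4 : ‖y - x‖ ^ 2 / (2 * ‖x - a‖) ≤ ε / (2 * δ) * ‖y - x‖ := by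
    rw [sq, div_mul_eq_mul_div]
    have hε : 0 ≤ ε := (norm_nonneg _).trans hd
    gcongr
  linarith

/-- Comparison of the radial cosine at two points. -/
theorem coareaw_cos {z z' m : ℂ} {δ : ℝ} (hm : ‖m‖ ≤ 1) (hδ : 0 < δ) (hz : δ ≤ ‖z‖)
    (hz' : δ ≤ ‖z'‖) :
    |inner ℝ z m| / ‖z‖ ≤ |inner ℝ z' m| / ‖z'‖ + 2 / δ * ‖z - z'‖ := by
  have h0 : 0 < ‖z‖ := lt_of_lt_of_le hδ hz
  have h0' : 0 < ‖z'‖ := lt_of_lt_of_le hδ hz'
  have h1 : |inner ℝ z m| ≤ |inner ℝ z' m| + ‖z - z'‖ := by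
    have e1 : (inner ℝ z m : ℝ) = inner ℝ z' m + inner ℝ (z - z') m := by
      rw [← inner_add_left]
      congr 1
      ring
    rw [e1]
    refine (abs_add_le _ _).trans ?_
    have h2 := abs_real_inner_le_norm (z - z') m
    have h3 : ‖z - z'‖ * ‖m‖ ≤ ‖z - z'‖ * 1 := by gcongr
    linarith
  have h2 : ‖z'‖ ≤ ‖z‖ + ‖z - z'‖ := by
    have := norm_sub_norm_le z' z
    rw [norm_sub_rev z' z] at this
    linarith
  have h3 : |inner ℝ z' m| ≤ ‖z'‖ := by
    have h4 := abs_real_inner_le_norm z' m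
    have h5 : ‖z'‖ * ‖m‖ ≤ ‖z'‖ * 1 := by gcongr
    linarith
  have h4 : 2 / ‖z‖ * ‖z - z'‖ ≤ 2 / δ * ‖z - z'‖ := by gcongr
  refine le_trans ?_ (add_le_add_right h4 _)
  rw [div_le_iff₀ h0]
  have e2 : (|inner ℝ z' m| / ‖z'‖ + 2 / ‖z‖ * ‖z - z'‖) * ‖z‖ =
      |inner ℝ z' m| / ‖z'‖ * ‖z‖ + 2 * ‖z - z'‖ := by
    field_simp
  rw [e2]
  have h5 : |inner ℝ z' m| ≤ |inner ℝ z' m| / ‖z'‖ * ‖z‖ + ‖z - z'‖ := by
    have h6 : |inner ℝ z' m| / ‖z'‖ ≤ 1 := by rwa [div_le_one h0']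
    have h7 : |inner ℝ z' m| / ‖z'‖ * ‖z'‖ = |inner ℝ z' m| := by field_simp
    have h8 : 0 ≤ |inner ℝ z' m| / ‖z'‖ := by positivity
    have h9 : |inner ℝ z' m| / ‖z'‖ * (‖z'‖ - ‖z‖) ≤ 1 * ‖z - z'‖ := by
      rcases le_or_gt ‖z'‖ ‖z‖ with h | h
      · have : |inner ℝ z' m| / ‖z'‖ * (‖z'‖ - ‖z‖) ≤ 0 :=
          mul_nonpos_of_nonneg_of_nonpos h8 (by linarith)
        have := norm_nonneg (z - z')
        linarith
      · exact mul_le_mul h6 (by linarith) (by linarith) zero_le_one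
    linarith
  linarith

theorem coareaw_cosf {j' : ℂ → ℂ} {a x n : ℂ} {ε : ℝ} (hx : x ≠ a) (hj : j' x ≠ 0)
    (hn : ‖(‖j' x‖⁻¹ : ℝ) • j' x - n‖ ≤ ε ∨ ‖(‖j' x‖⁻¹ : ℝ) • j' x + n‖ ≤ ε) :
    |inner ℝ (x - a) (Complex.I * n)| / ‖x - a‖ ≤ cosf j' a x + ε := by
  have h0 : 0 < ‖x - a‖ := norm_pos_iff.mpr (sub_ne_zero.mpr hx)
  have hj0 : 0 < ‖j' x‖ := norm_pos_iff.mpr hj
  obtain ⟨v, hv⟩ : ∃ v, v = (‖j' x‖⁻¹ : ℝ) • j' x := ⟨_, rfl⟩
  rw [← hv] at hn
  have h1 : cosf j' a x = |inner ℝ (x - a) (Complex.I * v)| / ‖x - a‖ := by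
    unfold cosf
    have e1 : Complex.I * v = (‖j' x‖⁻¹ : ℝ) • (Complex.I * j' x) := by
      rw [hv, mul_smul_comm]
    rw [e1, inner_smul_right, abs_mul, abs_of_pos (inv_pos.mpr hj0)]
    field_simp
  rw [h1, div_add' _ _ _ h0.ne']
  gcongr
  rcases hn with hn | hn
  · have e2 : Complex.I * n = Complex.I * v - Complex.I * (v - n) := by ring
    rw [e2, inner_sub_right]
    refine (abs_sub _ _).trans ?_
    have h2 := abs_real_inner_le_norm (x - a) (Complex.I * (v - n))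
    rw [area_norm_I_mul] at h2
    have h3 : ‖x - a‖ * ‖v - n‖ ≤ ‖x - a‖ * ε := by gcongr
    linarith
  · have e2 : Complex.I * n = Complex.I * (v + n) - Complex.I * v := by ring
    rw [e2, inner_sub_right]
    refine (abs_sub _ _).trans ?_
    have h2 := abs_real_inner_le_norm (x - a) (Complex.I * (v + n))
    rw [area_norm_I_mul] at h2
    have h3 : ‖x - a‖ * ‖v + n‖ ≤ ‖x - a‖ * ε := by gcongr
    linarith

theorem coareaw_key1 {Ω : Set ℂ} {u : ℂ → ℝ} {g j : ℂ → ℂ} (h : SBVData Ω u g j) {C : Set ℂ}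
    {j' : ℂ → ℂ} (hCm : MeasurableSet C) (hCJ : C ⊆ jumpSet Ω u) (hj' : Measurable j')
    (hjj : ∀ x ∈ C, j' x = j x) (hfin : (μH[1] : Measure ℂ) C < ⊤) {a : ℂ} {δ : ℝ} (hδ : 0 < δ)
    (hCδ : ∀ x ∈ C, δ ≤ ‖x - a‖) :
    volume ((fun x => dist x a) '' C) ≤
      ∫⁻ x in C, ENNReal.ofReal (cosf j' a x) ∂(μH[1] : Measure ℂ) := by
  have hKc : ENNReal.ofReal (2 + 5 / δ) * (μH[1] : Measure ℂ) C ≠ ⊤ :=
    ENNReal.mul_ne_top ENNReal.ofReal_ne_top hfin.ne
  refine area_lim hKc fun ε hε => ?_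
  obtain ⟨E, n, hEm, hEd, hEC, hn, hE1, hE2⟩ := jump_pieces h hCm hCJ hj' hjj hε
  have hEsub : ∀ i, E i ⊆ C := fun i => by rw [← hEC]; exact subset_iUnion E i
  have hcm : Measurable fun x => ENNReal.ofReal (cosf j' a x) := by
    unfold cosf
    have h1 : Measurable fun x => Complex.I * j' x := hj'.const_mul _
    have h2 : Measurable fun x : ℂ => x - a := measurable_id.sub_const a
    have h3 : Measurable fun x => |(inner ℝ (x - a) (Complex.I * j' x) : ℝ)| :=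
      (Measurable.inner (𝕜 := ℝ) h2 h1).abs
    exact (h3.div (h2.norm.mul hj'.norm)).ennreal_ofReal
  have hpiece : ∀ i, volume ((fun x => dist x a) '' (E i)) ≤
      ∫⁻ x in E i, (ENNReal.ofReal (cosf j' a x) + ENNReal.ofReal (ε * (2 + 5 / δ)))
        ∂(μH[1] : Measure ℂ) := by
    intro i
    rcases (E i).eq_empty_or_nonempty with he | ⟨x₀, hx₀⟩
    · rw [he]
      simp
    obtain ⟨L, hL⟩ : ∃ L, L = |inner ℝ (x₀ - a) (Complex.I * n i)| / ‖x₀ - a‖ + ε +
      ε / (2 * δ) + 2 / δ * ε := ⟨_, rfl⟩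
    have hL0 : 0 ≤ L := by rw [hL]; positivity
    have hIn : ‖Complex.I * n i‖ ≤ 1 := by rw [area_norm_I_mul, hn i]
    have hlip : LipschitzOnWith (Real.toNNReal L) (fun x : ℂ => dist x a) (E i) := by
      refine LipschitzOnWith.of_dist_le_mul fun x hx y hy => ?_
      rw [Real.coe_toNNReal _ hL0, dist_comm x y, dist_eq_norm y x, dist_comm, Real.dist_eq]
      refine (coareaw_dist (hn i) hδ (hCδ x (hEsub i hx)) (hE1 i x hx y hy).1
        (hE1 i x hx y hy).2).trans ?_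
      gcongr
      have h1 := coareaw_cos (z := x - a) (z' := x₀ - a) hIn hδ (hCδ x (hEsub i hx))
        (hCδ x₀ (hEsub i hx₀))
      have h2 : ‖x - a - (x₀ - a)‖ ≤ ε := by
        have e1 : x - a - (x₀ - a) = x - x₀ := by ring
        rw [e1]
        exact (hE1 i x₀ hx₀ x hx).2
      have h3 : 2 / δ * ‖x - a - (x₀ - a)‖ ≤ 2 / δ * ε := by gcongr
      rw [hL]
      linarith
    have h1 := hlip.hausdorffMeasure_image_le (d := 1) zero_le_one
    rw [hausdorffMeasure_real, ENNReal.rpow_one] at h1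
    refine h1.trans ?_
    have h2 : ((Real.toNNReal L : ℝ≥0) : ℝ≥0∞) * (μH[1] : Measure ℂ) (E i) =
        ∫⁻ x in E i, ENNReal.ofReal L ∂(μH[1] : Measure ℂ) := by
      rw [setLIntegral_const]
      rfl
    rw [h2]
    refine setLIntegral_mono' (hEm i) fun x hx => ?_
    have hne : x ≠ a := by
      intro hxa
      have := hCδ x (hEsub i hx)
      rw [hxa, sub_self, norm_zero] at this
      linarith
    have h3 := coareaw_cosf (j' := j') (a := a) hne (hE2 i x hx).1 (hE2 i x hx).2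
    have h4 := coareaw_cos (z := x₀ - a) (z' := x - a) hIn hδ (hCδ x₀ (hEsub i hx₀))
        (hCδ x (hEsub i hx))
    have h5 : ‖x₀ - a - (x - a)‖ ≤ ε := by
      have e1 : x₀ - a - (x - a) = x₀ - x := by ring
      rw [e1]
      exact (hE1 i x hx x₀ hx₀).2
    have h6 : 2 / δ * ‖x₀ - a - (x - a)‖ ≤ 2 / δ * ε := by gcongr
    have hc0 : 0 ≤ cosf j' a x := by unfold cosf; positivity
    rw [← ENNReal.ofReal_add hc0 (by positivity)]
    apply ENNReal.ofReal_le_ofReal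
    have h7 : ε / (2 * δ) = ε * (1 / 2) / δ := by field_simp
    have h8 : 2 / δ * ε = ε * 2 / δ := by field_simp
    have h9 : ε * (2 + 5 / δ) = ε + ε + ε * (1 / 2) / δ + ε * 2 / δ + ε * 2 / δ +
        ε * (1 / 2) / δ := by
      field_simp
      ring
    have h10 : 0 ≤ ε * (1 / 2) / δ := by positivity
    rw [hL, h9, h7, h8]
    rw [h8] at h6
    linarith
  have himg : (fun x => dist x a) '' C = ⋃ i, (fun x => dist x a) '' (E i) := by
    rw [← hEC, image_iUnion]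
  rw [himg]
  refine (measure_iUnion_le _).trans ?_
  refine (ENNReal.tsum_le_tsum hpiece).trans ?_
  rw [← lintegral_iUnion hEm hEd, hEC, lintegral_add_left hcm, setLIntegral_const,
    ENNReal.ofReal_mul hε.le, mul_assoc]

theorem coareaw_key {Ω : Set ℂ} {u : ℂ → ℝ} {g j : ℂ → ℂ} (h : SBVData Ω u g j) {C : Set ℂ}
    {j' : ℂ → ℂ} (hCm : MeasurableSet C) (hCJ : C ⊆ jumpSet Ω u) (hj' : Measurable j')
    (hjj : ∀ x ∈ C, j' x = j x) (hfin : (μH[1] : Measure ℂ) C < ⊤) (a : ℂ) :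
    volume ((fun x => dist x a) '' C) ≤
      ∫⁻ x in C, ENNReal.ofReal (cosf j' a x) ∂(μH[1] : Measure ℂ) := by
  refine ENNReal.le_of_forall_pos_le_add fun δ hδ _ => ?_
  have hδ' : (0 : ℝ) < δ := hδ
  have hm : MeasurableSet (C ∩ {x | (δ : ℝ) ≤ ‖x - a‖}) :=
    hCm.inter (measurableSet_le measurable_const (measurable_id.sub_const a).norm)
  have h1 := coareaw_key1 h hm (inter_subset_left.trans hCJ) hj' (fun x hx => hjj x hx.1)
    (lt_of_le_of_lt (measure_mono inter_subset_left) hfin) hδ' (fun x hx => hx.2) (a := a)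
  have h2 : (fun x => dist x a) '' C ⊆
      ((fun x => dist x a) '' (C ∩ {x | (δ : ℝ) ≤ ‖x - a‖})) ∪ Ico 0 (δ : ℝ) := by
    rintro r ⟨x, hx, rfl⟩
    by_cases hxδ : (δ : ℝ) ≤ ‖x - a‖
    · exact Or.inl ⟨x, ⟨hx, hxδ⟩, rfl⟩
    · refine Or.inr ⟨dist_nonneg, ?_⟩
      change dist x a < δ
      rw [dist_eq_norm]
      exact lt_of_not_ge hxδ
  refine (measure_mono h2).trans ((measure_union_le _ _).trans (add_le_add ?_ ?_))
  · exact h1.trans (lintegral_mono_set inter_subset_left)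
  · rw [Real.volume_Ico, sub_zero, ENNReal.ofReal_coe_nnreal]

/-! ### Assembly -/

theorem coareaw_rep {Ω : Set ℂ} {u : ℂ → ℝ} {g j : ℂ → ℂ} (h : SBVData Ω u g j) {a : ℂ} {R' : ℝ}
    (hR : closedBall a R' ⊆ Ω) {Ψ : ℂ × ℂ → ℝ} (hΨ : Measurable Ψ) (hΨ0 : ∀ p, 0 ≤ Ψ p) {M : ℝ}
    (hΨM : ∀ p, Ψ p ≤ M) :
    ∃ (C : Set ℂ) (j' : ℂ → ℂ) (ν : Measure ℂ), MeasurableSet C ∧ C ⊆ jumpSet Ω u ∧
      (μH[1] : Measure ℂ) ((jumpSet Ω u ∩ closedBall a R') \ C) = 0 ∧ Measurable j' ∧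
      (∀ x ∈ C, j' x = j x) ∧ (μH[1] : Measure ℂ) C < ⊤ ∧
      ν = ((μH[1] : Measure ℂ).restrict C).withDensity
        (fun x => ENNReal.ofReal (Ψ (x, j' x) * cosf j' a x)) ∧ (∀ t, ν (ball a t) < ⊤) ∧
      ∀ t ≤ R', IntegrableOn (fun x => Ψ (x, j x) * cosf j a x) (ball a t)
        (μH[1] : Measure ℂ) ∧
        ∫ x in ball a t, Ψ (x, j x) * cosf j a x ∂(μH[1] : Measure ℂ) =
        (ν (ball a t)).toReal := by
  obtain ⟨C, j', hCs, hCJ, hCn, hj', hjj⟩ := jump_rep h (isCompact_closedBall a R') hR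
  have hCm : MeasurableSet C := by
    obtain ⟨Kn, hKn, hKC⟩ := hCs
    rw [← hKC]
    exact MeasurableSet.iUnion fun n => (hKn n).measurableSet
  have hM : 0 ≤ M := (hΨ0 0).trans (hΨM 0)
  have hCfin : (μH[1] : Measure ℂ) C < ⊤ := by
    refine lt_of_le_of_lt (measure_mono ?_) (h.fin_S _ (isCompact_closedBall a R') hR)
    exact hCJ.trans (inter_subset_inter_left _ (jrep_jump_subset h.isOpen h.intu))
  have hcm : Measurable fun x => cosf j' a x := by
    unfold cosf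
    have h1 : Measurable fun x => Complex.I * j' x := hj'.const_mul _
    have h2 : Measurable fun x : ℂ => x - a := measurable_id.sub_const a
    have h3 : Measurable fun x => |(inner ℝ (x - a) (Complex.I * j' x) : ℝ)| :=
      (Measurable.inner (𝕜 := ℝ) h2 h1).abs
    exact h3.div (h2.norm.mul hj'.norm)
  have hc0 : ∀ x, 0 ≤ cosf j' a x := fun x => by unfold cosf; positivity
  have hc1 : ∀ x, cosf j' a x ≤ 1 := by
    intro x
    unfold cosf
    refine div_le_one_of_le₀ ?_ (by positivity)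
    have := abs_real_inner_le_norm (x - a) (Complex.I * j' x)
    rwa [area_norm_I_mul] at this
  have hΦm : Measurable fun x => Ψ (x, j' x) := hΨ.comp (measurable_id.prodMk hj')
  refine ⟨C, j', _, hCm, fun x hx => (hCJ hx).1, hCn, hj', hjj, hCfin, rfl, fun t => ?_,
    fun t ht => ?_⟩
  · rw [withDensity_apply _ measurableSet_ball]
    calc ∫⁻ x in ball a t, ENNReal.ofReal (Ψ (x, j' x) * cosf j' a x)
          ∂((μH[1] : Measure ℂ).restrict C)
        ≤ ∫⁻ x in ball a t, ENNReal.ofReal M ∂((μH[1] : Measure ℂ).restrict C) := by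
          refine lintegral_mono fun x => ENNReal.ofReal_le_ofReal ?_
          calc Ψ (x, j' x) * cosf j' a x ≤ M * 1 :=
                mul_le_mul (hΨM _) (hc1 x) (hc0 x) hM
            _ = M := mul_one M
      _ ≤ ENNReal.ofReal M * ((μH[1] : Measure ℂ).restrict C) univ := by
          rw [setLIntegral_const]
          gcongr
          exact subset_univ _
      _ < ⊤ := by
          rw [Measure.restrict_apply_univ]
          exact ENNReal.mul_lt_top ENNReal.ofReal_lt_top hCfin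
  · have h1 : (fun x => Ψ (x, j x) * cosf j a x) =ᵐ[(μH[1] : Measure ℂ).restrict (ball a t)]
        fun x => C.indicator (fun x => Ψ (x, j' x) * cosf j' a x) x := by
      have h2 : ∀ᵐ x ∂((μH[1] : Measure ℂ).restrict (ball a t)),
          x ∉ (jumpSet Ω u ∩ closedBall a R') \ C := by
        exact ae_restrict_of_ae (measure_eq_zero_iff_ae_notMem.mp hCn)
      filter_upwards [h2, ae_restrict_mem measurableSet_ball] with x hx hxt
      have hxK : x ∈ closedBall a R' := ball_subset_closedBall (ball_subset_ball ht hxt)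
      by_cases hxC : x ∈ C
      · rw [indicator_of_mem hxC]
        unfold cosf
        rw [hjj x hxC]
      · rw [indicator_of_notMem hxC]
        have h3 : x ∉ jumpSet Ω u := fun h4 => hx ⟨⟨h4, hxK⟩, hxC⟩
        have h4 : j x = 0 := by
          by_contra hne
          exact h3 ((jrep_mem_jump_iff h.jf (hR hxK)).mpr hne)
        unfold cosf
        rw [h4]
        simp
    have h5 : IntegrableOn (C.indicator (fun x => Ψ (x, j' x) * cosf j' a x)) (ball a t)
        (μH[1] : Measure ℂ) := by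
      refine Integrable.integrableOn ?_
      rw [integrable_indicator_iff hCm]
      refine Measure.integrableOn_of_bounded (M := M) hCfin.ne
        (hΦm.mul hcm).aestronglyMeasurable (Eventually.of_forall fun x => ?_)
      rw [Real.norm_eq_abs, abs_of_nonneg (mul_nonneg (hΨ0 _) (hc0 x))]
      calc Ψ (x, j' x) * cosf j' a x ≤ M * 1 := mul_le_mul (hΨM _) (hc1 x) (hc0 x) hM
        _ = M := mul_one M
    refine ⟨h5.congr_fun_ae h1.symm, ?_⟩
    rw [integral_congr_ae h1, setIntegral_indicator hCm, withDensity_apply _ measurableSet_ball,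
      Measure.restrict_restrict measurableSet_ball,
      integral_eq_lintegral_of_nonneg_ae
        (Eventually.of_forall fun x => mul_nonneg (hΨ0 _) (hc0 x))
        (hΦm.mul hcm).aestronglyMeasurable]

theorem coarea_weight {Ω : Set ℂ} {u : ℂ → ℝ} {g j : ℂ → ℂ} (h : SBVData Ω u g j) {a : ℂ} {R : ℝ}
    (hR : ball a R ⊆ Ω) {Ψ : ℂ × ℂ → ℝ} (hΨ : Measurable Ψ) (hΨ0 : ∀ p, 0 ≤ Ψ p) {M : ℝ}
    (hΨM : ∀ p, Ψ p ≤ M) :
    MonotoneOn (fun t => ∫ x in ball a t, Ψ (x, j x) * cosf j a x ∂(μH[1] : Measure ℂ))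
      (Ioo 0 R) ∧
    ∀ᵐ s ∂(volume.restrict (Ioo 0 R)), ∑ᶠ x ∈ jumpSet Ω u ∩ sphere a s, Ψ (x, j x) ≤
      deriv (fun t => ∫ x in ball a t, Ψ (x, j x) * cosf j a x ∂(μH[1] : Measure ℂ)) s := by
  have hsub : ∀ R', R' < R → closedBall a R' ⊆ Ω := fun R' hR' =>
    (closedBall_subset_ball hR').trans hR
  constructor
  · intro s hs t ht hst
    obtain ⟨C, j', ν, -, -, -, -, -, -, -, hνf, hν⟩ := coareaw_rep h (hsub t ht.2) hΨ hΨ0 hΨM
    change ∫ x in ball a s, Ψ (x, j x) * cosf j a x ∂(μH[1] : Measure ℂ) ≤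
      ∫ x in ball a t, Ψ (x, j x) * cosf j a x ∂(μH[1] : Measure ℂ)
    rw [(hν s hst).2, (hν t le_rfl).2]
    exact ENNReal.toReal_mono (hνf t).ne (measure_mono (ball_subset_ball hst))
  · have hmain : ∀ R' < R, ∀ᵐ s ∂(volume : Measure ℝ), s ∈ Ioo 0 R' →
        ∑ᶠ x ∈ jumpSet Ω u ∩ sphere a s, Ψ (x, j x) ≤
        deriv (fun t => ∫ x in ball a t, Ψ (x, j x) * cosf j a x ∂(μH[1] : Measure ℂ)) s := by
      intro R' hR'
      obtain ⟨C, j', ν, hCm, hCJ, hCn, hj', hjj, hCfin, hνe, hνf, hν⟩ :=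
        coareaw_rep h (hsub R' hR') hΨ hΨ0 hΨM
      have hΦm : Measurable fun x => Ψ (x, j' x) := hΨ.comp (measurable_id.prodMk hj')
      have h1 := coareaw_deriv (R := R') hCm hΦm (fun x => hΨ0 _) (w := fun x => cosf j' a x)
        (a := a) (fun A hA hAC => coareaw_key h hA (hAC.trans hCJ) hj'
          (fun x hx => hjj x (hAC hx)) (lt_of_le_of_lt (measure_mono hAC) hCfin) a) hνe
        (fun t _ => hνf t)
      rw [ae_restrict_iff' measurableSet_Ioo] at h1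
      have h2 : ∀ᵐ s : ℝ, s ∉ (fun x => dist x a) '' ((jumpSet Ω u ∩ closedBall a R') \ C) := by
        have h3 : volume ((fun x => dist x a) '' ((jumpSet Ω u ∩ closedBall a R') \ C)) = 0 := by
          have h4 : LipschitzWith 1 (fun x : ℂ => dist x a) := LipschitzWith.dist_left a
          have h5 := h4.hausdorffMeasure_image_le (d := 1) zero_le_one
            ((jumpSet Ω u ∩ closedBall a R') \ C)
          rw [hausdorffMeasure_real, hCn, mul_zero] at h5
          exact le_antisymm h5 bot_le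
        exact measure_eq_zero_iff_ae_notMem.mp h3
      filter_upwards [h1, h2] with s hs1 hs2 hs
      have hs3 := hs1 hs
      have hsC : jumpSet Ω u ∩ sphere a s ⊆ C := by
        intro x hx
        by_contra hxC
        refine hs2 ⟨x, ⟨⟨hx.1, ?_⟩, hxC⟩, mem_sphere.mp hx.2⟩
        rw [mem_closedBall, mem_sphere.mp hx.2]
        exact hs.2.le
      have hder : deriv (fun t => ∫ x in ball a t, Ψ (x, j x) * cosf j a x
          ∂(μH[1] : Measure ℂ)) s = deriv (fun t => (ν (ball a t)).toReal) s := by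
        apply Filter.EventuallyEq.deriv_eq
        filter_upwards [Iio_mem_nhds hs.2] with t ht
        exact (hν t (le_of_lt ht)).2
      rw [hder]
      by_cases hf : ((jumpSet Ω u ∩ sphere a s) ∩ Function.support fun x => Ψ (x, j x)).Finite
      · rw [show ∑ᶠ x ∈ jumpSet Ω u ∩ sphere a s, Ψ (x, j x) = ∑ x ∈ hf.toFinset, Ψ (x, j x) from
          (finsum_mem_inter_support (fun x => Ψ (x, j x)) (jumpSet Ω u ∩ sphere a s)).symm.trans
            (finsum_mem_eq_finite_toFinset_sum (fun x => Ψ (x, j x)) hf)]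
        have h4 : ((hf.toFinset : Finset ℂ) : Set ℂ) ⊆ C ∩ sphere a s := by
          intro x hx
          rw [Finite.coe_toFinset] at hx
          exact ⟨hsC hx.1, hx.1.2⟩
        refine le_trans (le_of_eq ?_) (hs3 hf.toFinset h4)
        refine Finset.sum_congr rfl fun x hx => ?_
        rw [hjj x (h4 (Finset.mem_coe.mpr hx)).1]
      · rw [show ∑ᶠ x ∈ jumpSet Ω u ∩ sphere a s, Ψ (x, j x) = 0 from
          finsum_mem_eq_zero_of_infinite (f := fun x => Ψ (x, j x)) hf]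
        have h4 := hs3 ∅ (by simp)
        simpa using h4
    obtain ⟨r, -, hrR, hrt⟩ := exists_seq_strictMono_tendsto R
    have h1 : ∀ᵐ s ∂(volume : Measure ℝ), ∀ m : ℕ, s ∈ Ioo 0 (r m) →
        ∑ᶠ x ∈ jumpSet Ω u ∩ sphere a s, Ψ (x, j x) ≤
        deriv (fun t => ∫ x in ball a t, Ψ (x, j x) * cosf j a x ∂(μH[1] : Measure ℂ)) s :=
      ae_all_iff.2 fun m => hmain (r m) (hrR m)
    rw [ae_restrict_iff' measurableSet_Ioo]
    filter_upwards [h1] with s hs hsR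
    obtain ⟨m, hm⟩ := (hrt.eventually_const_lt hsR.2).exists
    exact hs m ⟨hsR.1, hm⟩

theorem coarea_weight_int {Ω : Set ℂ} {u : ℂ → ℝ} {g j : ℂ → ℂ} (h : SBVData Ω u g j) {a : ℂ}
    {R : ℝ} (hR : ball a R ⊆ Ω) {Ψ : ℂ × ℂ → ℝ} (hΨ : Measurable Ψ) (hΨ0 : ∀ p, 0 ≤ Ψ p) {M : ℝ}
    (hΨM : ∀ p, Ψ p ≤ M) :
    ∀ t < R, IntegrableOn (fun x => Ψ (x, j x) * cosf j a x) (ball a t)
      (μH[1] : Measure ℂ) := by
  intro t ht
  obtain ⟨C, j', ν, -, -, -, -, -, -, -, -, hν⟩ :=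
    coareaw_rep h ((closedBall_subset_ball ht).trans hR) hΨ hΨ0 hΨM
  exact (hν t le_rfl).1

end Pool.Agent.MP099f24
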