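import Mathlib
import Pool.Agent.Lib.MP_099f24_an.SD.Defs
import Pool.Agent.Lib.MP_099f24_an.SD.JRep
import Pool.Agent.Lib.MP_099f24_an.SD.Count
import Pool.Agent.Lib.MP_099f24_an.SD.Area
import Pool.Agent.Lib.MP_099f24_an.SD.Coareaw

/-!
# MP_099f24_an, sharp densities, module COAREA: coarea inequality for the distance function on
the jump set
-/

namespace Pool.Agent.MP099f24

open MeasureTheory Filter Topology Set Metric
open scoped ENNReal NNReal ContDiff

theorem coarea_Lam_eq (j : ℂ → ℂ) (a : ℂ) :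
    (fun t => ∫ x in ball a t, (fun _ : ℂ × ℂ => (1 : ℝ)) (x, j x) * cosf j a x
      ∂(μH[1] : Measure ℂ)) = Lam j a := by
  funext t
  unfold Lam cosf
  simp only [one_mul]

/-- Pythagoras in the plane. -/
theorem coarea_pyth (v w : ℂ) :
    (inner ℝ v w : ℝ) ^ 2 + (inner ℝ v (Complex.I * w) : ℝ) ^ 2 = ‖v‖ ^ 2 * ‖w‖ ^ 2 := by
  rw [Complex.inner, Complex.inner, ← Complex.normSq_eq_norm_sq, ← Complex.normSq_eq_norm_sq,
    Complex.normSq_apply, Complex.normSq_apply]
  simp only [Complex.mul_re, Complex.mul_im, Complex.conj_re, Complex.conj_im, Complex.I_re,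
    Complex.I_im]
  ring

theorem coarea {Ω : Set ℂ} {u : ℂ → ℝ} {g j : ℂ → ℂ} (h : SBVData Ω u g j) {a : ℂ} {R : ℝ}
    (hR : ball a R ⊆ Ω) :
    (∀ᵐ s ∂(volume.restrict (Ioo 0 R)), ∀ n : ℕ, (n : ℕ∞) ≤ (jumpSet Ω u ∩ sphere a s).encard →
      (n : ℝ) ≤ deriv (Lam j a) s) ∧
    MonotoneOn (Lam j a) (Ioo 0 R) ∧
    (∀ s ∈ Ioo 0 R, Lam j a s ≤ ((μH[1] : Measure ℂ) (jumpSet Ω u ∩ ball a s)).toReal) ∧
    ∀ s ∈ Ioo 0 R, Lam j a s = ((μH[1] : Measure ℂ) (jumpSet Ω u ∩ ball a s)).toReal →
      (μH[1] : Measure ℂ) {x ∈ ball a s | inner ℝ (x - a) (j x) ≠ 0} = 0 := by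
  have hsub : ∀ R', R' < R → closedBall a R' ⊆ Ω := fun R' hR' =>
    (closedBall_subset_ball hR').trans hR
  have hJfin : ∀ s < R, (μH[1] : Measure ℂ) (jumpSet Ω u ∩ ball a s) < ⊤ := by
    intro s hs
    refine lt_of_le_of_lt (measure_mono ?_)
      (h.fin_S _ (isCompact_closedBall a s) (hsub s hs))
    exact inter_subset_inter (jrep_jump_subset h.isOpen h.intu) ball_subset_closedBall
  obtain ⟨hmono, hder⟩ := coarea_weight (a := a) (R := R) h hR
    (Ψ := fun _ => (1 : ℝ)) measurable_const (fun _ => zero_le_one) (M := 1) (fun _ => le_rfl)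
  rw [coarea_Lam_eq] at hmono hder
  have hcount := count_deriv (S := jumpSet Ω u) (a := a) (R := R) hJfin
  refine ⟨?_, hmono, ?_, ?_⟩
  · filter_upwards [hder, hcount] with s hs1 hs2 n hn
    have hfin : (jumpSet Ω u ∩ sphere a s).Finite := by
      rw [← encard_lt_top_iff]
      by_contra htop
      rw [not_lt, top_le_iff] at htop
      obtain ⟨m, hm⟩ := exists_nat_gt
        (deriv (fun t => ((μH[1] : Measure ℂ) (jumpSet Ω u ∩ ball a t)).toReal) s)
      have := hs2 m (by rw [htop]; exact le_top)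
      linarith
    refine le_trans ?_ hs1
    rw [finsum_mem_eq_finite_toFinset_sum _ hfin, Finset.sum_const, nsmul_eq_mul, mul_one]
    rw [hfin.encard_eq_coe_toFinset_card] at hn
    exact_mod_cast hn
  · intro s hs
    obtain ⟨C, j', ν, hCm, hCJ, hCn, hj', hjj, hCfin, hνe, hνf, hν⟩ :=
      coareaw_rep (a := a) h (hsub s hs.2) (Ψ := fun _ => (1 : ℝ)) measurable_const
        (fun _ => zero_le_one) (M := 1) (fun _ => le_rfl)
    have h1 : Lam j a s = (ν (ball a s)).toReal := by
      rw [← (hν s le_rfl).2, ← coarea_Lam_eq]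
    rw [h1]
    refine ENNReal.toReal_mono (hJfin s hs.2).ne ?_
    rw [hνe, withDensity_apply _ measurableSet_ball, Measure.restrict_restrict measurableSet_ball]
    calc ∫⁻ x in ball a s ∩ C, ENNReal.ofReal (1 * cosf j' a x) ∂(μH[1] : Measure ℂ)
        ≤ ∫⁻ x in ball a s ∩ C, 1 ∂(μH[1] : Measure ℂ) := by
          refine lintegral_mono fun x => ?_
          rw [one_mul]
          refine ENNReal.ofReal_le_one.mpr ?_
          unfold cosf
          refine div_le_one_of_le₀ ?_ (by positivity)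
          have := abs_real_inner_le_norm (x - a) (Complex.I * j' x)
          rwa [area_norm_I_mul] at this
      _ = (μH[1] : Measure ℂ) (ball a s ∩ C) := setLIntegral_one _
      _ ≤ (μH[1] : Measure ℂ) (jumpSet Ω u ∩ ball a s) :=
        measure_mono fun x hx => ⟨hCJ hx.2, hx.1⟩
  · intro s hs heq
    obtain ⟨C, j', ν, hCm, hCJ, hCn, hj', hjj, hCfin, hνe, hνf, hν⟩ :=
      coareaw_rep (a := a) h (hsub s hs.2) (Ψ := fun _ => (1 : ℝ)) measurable_const
        (fun _ => zero_le_one) (M := 1) (fun _ => le_rfl)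
    have h1 : Lam j a s = (ν (ball a s)).toReal := by
      rw [← (hν s le_rfl).2, ← coarea_Lam_eq]
    have hcm : Measurable fun x => cosf j' a x := by
      unfold cosf
      have h1 : Measurable fun x => Complex.I * j' x := hj'.const_mul _
      have h2 : Measurable fun x : ℂ => x - a := measurable_id.sub_const a
      have h3 : Measurable fun x => |(inner ℝ (x - a) (Complex.I * j' x) : ℝ)| :=
        (Measurable.inner (𝕜 := ℝ) h2 h1).abs
      exact h3.div (h2.norm.mul hj'.norm)
    have hc0 : ∀ x, 0 ≤ cosf j' a x := fun x => by unfold cosf; positivity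
    have hc1 : ∀ x, cosf j' a x ≤ 1 := by
      intro x
      unfold cosf
      refine div_le_one_of_le₀ ?_ (by positivity)
      have := abs_real_inner_le_norm (x - a) (Complex.I * j' x)
      rwa [area_norm_I_mul] at this
    have hν1 : ν (ball a s) =
        ∫⁻ x in ball a s ∩ C, ENNReal.ofReal (cosf j' a x) ∂(μH[1] : Measure ℂ) := by
      rw [hνe, withDensity_apply _ measurableSet_ball,
        Measure.restrict_restrict measurableSet_ball]
      simp only [one_mul]
    have hle : (μH[1] : Measure ℂ) (ball a s ∩ C) ≤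
        ∫⁻ x in ball a s ∩ C, ENNReal.ofReal (cosf j' a x) ∂(μH[1] : Measure ℂ) := by
      rw [← hν1]
      have h2 : ν (ball a s) = (μH[1] : Measure ℂ) (jumpSet Ω u ∩ ball a s) := by
        rw [← ENNReal.toReal_eq_toReal_iff' (hνf s).ne (hJfin s hs.2).ne, ← h1, heq]
      rw [h2]
      exact measure_mono fun x hx => ⟨hCJ hx.2, hx.1⟩
    have hfin' : (μH[1] : Measure ℂ) (ball a s ∩ C) < ⊤ :=
      lt_of_le_of_lt (measure_mono inter_subset_right) hCfin
    have hzero : ∫⁻ x in ball a s ∩ C, (1 - ENNReal.ofReal (cosf j' a x))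
        ∂(μH[1] : Measure ℂ) = 0 := by
      rw [lintegral_sub hcm.ennreal_ofReal]
      · rw [lintegral_one, Measure.restrict_apply_univ]
        exact tsub_eq_zero_of_le hle
      · rw [← hν1]
        exact (hνf s).ne
      · exact Eventually.of_forall fun x => ENNReal.ofReal_le_one.mpr (hc1 x)
    have hm1 : Measurable fun x => (1 : ℝ≥0∞) - ENNReal.ofReal (cosf j' a x) :=
      measurable_const.sub hcm.ennreal_ofReal
    rw [lintegral_eq_zero_iff hm1] at hzero
    have hzero' : (μH[1] : Measure ℂ) {x ∈ ball a s ∩ C | cosf j' a x ≠ 1} = 0 := by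
      have h3 := (ae_restrict_iff' (measurableSet_ball.inter hCm)).mp hzero
      refine measure_mono_null ?_ h3
      intro x hx
      simp only [mem_ofPred_eq, mem_compl_iff, Pi.zero_apply, not_forall] at hx ⊢
      refine ⟨hx.1, fun h4 => hx.2 (le_antisymm (hc1 x) ?_)⟩
      rw [tsub_eq_zero_iff_le, ← ENNReal.ofReal_one] at h4
      exact (ENNReal.ofReal_le_ofReal_iff (hc0 x)).mp h4
    refine measure_mono_null ?_ (measure_union_null hzero' hCn)
    intro x hx
    have hxb : x ∈ ball a s := hx.1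
    have hxc : x ∈ closedBall a s := ball_subset_closedBall hxb
    have hj0 : j x ≠ 0 := by
      intro h0
      apply hx.2
      rw [h0, inner_zero_right]
    have hxJ : x ∈ jumpSet Ω u := (jrep_mem_jump_iff h.jf (hsub s hs.2 hxc)).mpr hj0
    by_cases hxC : x ∈ C
    · refine Or.inl ⟨⟨hxb, hxC⟩, fun h4 => hx.2 ?_⟩
      unfold cosf at h4
      rw [hjj x hxC] at h4
      have hxa : x - a ≠ 0 := by
        intro h0
        apply hx.2
        rw [h0, inner_zero_left]
      have hp : ‖x - a‖ * ‖j x‖ ≠ 0 :=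
        mul_ne_zero (norm_ne_zero_iff.mpr hxa) (norm_ne_zero_iff.mpr hj0)
      rw [div_eq_one_iff_eq hp] at h4
      have h5 := coarea_pyth (x - a) (j x)
      rw [← sq_abs (inner ℝ (x - a) (Complex.I * j x) : ℝ), h4] at h5
      have h6 : (inner ℝ (x - a) (j x) : ℝ) ^ 2 = 0 := by nlinarith [h5]
      exact pow_eq_zero_iff (two_ne_zero) |>.mp h6
    · exact Or.inr ⟨⟨hxJ, hxc⟩, hxC⟩

end Pool.Agent.MP099f24
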