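import Pool.Agent.Lib.MP_099f24_an.SD.Polar
import Pool.Agent.Lib.MP_099f24_an.SD.Pf

/-!
# MP_099f24_an SD, module EVOL: radial evolution of angular averages
-/

namespace Pool.Agent.MP099f24

open MeasureTheory Filter Topology Set Metric
open scoped ENNReal ContDiff

/-- Fubini form of integration by parts against the primitive of an integrable function. -/
theorem evol_fub {a b : ℝ} (hab : a ≤ b) {φ φ' : ℝ → ℝ} (hφ : ∀ x, HasDerivAt φ (φ' x) x)
    (hc : Continuous φ') {G : ℝ → ℝ} (hG : IntegrableOn G (Ioc a b)) :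
    ∫ x in a..b, φ' x * (∫ t in a..x, G t) = ∫ t in a..b, (φ b - φ t) * G t := by
  set μ : Measure ℝ := volume.restrict (Ioc a b) with hμ
  have hφ'i : Integrable φ' μ := (hc.integrableOn_Icc (a := a) (b := b)).mono_set Ioc_subset_Icc_self
  have hprod : Integrable (Set.indicator {p : ℝ × ℝ | p.2 ≤ p.1} fun p : ℝ × ℝ => φ' p.1 * G p.2)
      (μ.prod μ) :=
    (hφ'i.mul_prod hG).indicator (measurableSet_le measurable_snd measurable_fst)
  have hsw := integral_integral_swap (f := fun x t => Set.indicator {p : ℝ × ℝ | p.2 ≤ p.1}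
    (fun p : ℝ × ℝ => φ' p.1 * G p.2) (x, t)) hprod
  rw [intervalIntegral.integral_of_le hab, intervalIntegral.integral_of_le hab]
  have h1 : ∀ x ∈ Ioc a b, φ' x * (∫ t in a..x, G t) =
      ∫ t, Set.indicator {p : ℝ × ℝ | p.2 ≤ p.1} (fun p : ℝ × ℝ => φ' p.1 * G p.2) (x, t) ∂μ := by
    intro x hx
    rw [intervalIntegral.integral_of_le hx.1.le, ← integral_const_mul, hμ]
    have e : ∀ t, Set.indicator {p : ℝ × ℝ | p.2 ≤ p.1} (fun p : ℝ × ℝ => φ' p.1 * G p.2) (x, t)
        = Set.indicator (Iic x) (fun t => φ' x * G t) t := by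
      intro t
      simp only [Set.indicator, mem_ofPred_eq, mem_Iic]
    simp_rw [e]
    rw [setIntegral_indicator measurableSet_Iic]
    congr 2
    ext t
    simp only [mem_inter_iff, mem_Ioc, mem_Iic]
    constructor
    · rintro ⟨h1, h2⟩; exact ⟨⟨h1, h2.trans hx.2⟩, h2⟩
    · rintro ⟨⟨h1, _⟩, h2⟩; exact ⟨h1, h2⟩
  have h2 : ∀ t ∈ Ioc a b, (φ b - φ t) * G t =
      ∫ x, Set.indicator {p : ℝ × ℝ | p.2 ≤ p.1} (fun p : ℝ × ℝ => φ' p.1 * G p.2) (x, t) ∂μ := by
    intro t ht
    have e : ∀ x, Set.indicator {p : ℝ × ℝ | p.2 ≤ p.1} (fun p : ℝ × ℝ => φ' p.1 * G p.2) (x, t)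
        = Set.indicator (Ici t) (fun x => φ' x * G t) x := by
      intro x
      simp only [Set.indicator, mem_ofPred_eq, mem_Ici]
    simp_rw [e]
    rw [hμ, setIntegral_indicator measurableSet_Ici]
    have e2 : Ioc a b ∩ Ici t = Icc t b := by
      ext x
      simp only [mem_inter_iff, mem_Ioc, mem_Ici, mem_Icc]
      constructor
      · rintro ⟨⟨_, h2⟩, h3⟩; exact ⟨h3, h2⟩
      · rintro ⟨h1, h2⟩; exact ⟨⟨ht.1.trans_le h1, h2⟩, h1⟩
    rw [e2, integral_Icc_eq_integral_Ioc, integral_mul_const,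
      ← intervalIntegral.integral_of_le ht.2,
      intervalIntegral.integral_eq_sub_of_hasDerivAt (fun x _ => hφ x) (hc.intervalIntegrable _ _)]
  rw [setIntegral_congr_fun measurableSet_Ioc h1, setIntegral_congr_fun measurableSet_Ioc h2]
  exact hsw

theorem evol_supp {K : Set ℝ} {R : ℝ} (hR : 0 < R) (hK : IsCompact K) (hs : K ⊆ Ioo 0 R) :
    ∃ α β, 0 < α ∧ α < β ∧ β < R ∧ K ⊆ Ioo α β := by
  rcases K.eq_empty_or_nonempty with he | hne
  · exact ⟨R / 4, R / 2, by linarith, by linarith, by linarith, by rw [he]; exact empty_subset _⟩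
  · obtain ⟨x, hx, hx'⟩ := hK.exists_isMinOn hne continuousOn_id
    obtain ⟨y, hy, hy'⟩ := hK.exists_isMaxOn hne continuousOn_id
    have hxy : x ≤ y := hx' hy
    refine ⟨x / 2, (y + R) / 2, ?_, ?_, ?_, fun z hz => ⟨?_, ?_⟩⟩
    · linarith [(hs hx).1]
    · linarith [(hs hx).1, (hs hy).2]
    · linarith [(hs hy).2]
    · have : x ≤ z := hx' hz
      linarith [(hs hx).1]
    · have : z ≤ y := hy' hz
      linarith [(hs hy).2]

/-- a smooth compactly supported function with mean zero is the derivative of such a function -/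
theorem evol_prim {ψ : ℝ → ℝ} {R : ℝ} (hR : 0 < R) (hψ : ContDiff ℝ ∞ ψ)
    (hc : HasCompactSupport ψ) (hs : tsupport ψ ⊆ Ioo 0 R) (h0 : ∫ x, ψ x = 0) :
    ∃ χ : ℝ → ℝ, ContDiff ℝ ∞ χ ∧ HasCompactSupport χ ∧ tsupport χ ⊆ Ioo 0 R ∧
      deriv χ = ψ := by
  obtain ⟨α, β, hα, hαβ, hβ, hsub⟩ := evol_supp hR hc.isCompact hs
  have hψ0 : ∀ x, x ∉ Ioo α β → ψ x = 0 := fun x hx =>
    image_eq_zero_of_notMem_tsupport fun h => hx (hsub h)
  have hd : ∀ x, HasDerivAt (fun x => ∫ t in α..x, ψ t) (ψ x) x := fun x =>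
    intervalIntegral.integral_hasDerivAt_right (hψ.continuous.intervalIntegrable _ _)
      (hψ.continuous.stronglyMeasurableAtFilter _ _) hψ.continuous.continuousAt
  have hder : deriv (fun x => ∫ t in α..x, ψ t) = ψ := funext fun x => (hd x).deriv
  have hz : ∀ x, x ∉ Icc α β → ∫ t in α..x, ψ t = 0 := by
    intro x hx
    rcases lt_or_ge x α with h1 | h1
    · have e : ∀ t ∈ uIcc α x, ψ t = 0 := by
        intro t ht
        rw [uIcc_of_ge h1.le] at ht
        exact hψ0 t fun h => by linarith [h.1, ht.2]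
      rw [intervalIntegral.integral_congr (g := fun _ => (0 : ℝ)) e]
      simp
    · have h2 : β < x := by
        by_contra h
        exact hx ⟨h1, not_lt.1 h⟩
      rw [intervalIntegral.integral_of_le h1, ← h0]
      apply setIntegral_eq_integral_of_forall_compl_eq_zero
      intro t ht
      exact hψ0 t fun h => ht ⟨h.1, by linarith [h.2]⟩
  have hts : tsupport (fun x => ∫ t in α..x, ψ t) ⊆ Icc α β := by
    apply closure_minimal _ isClosed_Icc
    intro x hx
    by_contra h
    exact hx (hz x h)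
  refine ⟨fun x => ∫ t in α..x, ψ t, ?_, ?_, ?_, hder⟩
  · rw [contDiff_infty_iff_deriv]
    exact ⟨fun x => (hd x).differentiableAt, by rw [hder]; exact hψ⟩
  · exact HasCompactSupport.intro isCompact_Icc hz
  · exact hts.trans fun x hx => ⟨by linarith [hx.1], by linarith [hx.2]⟩

/-- du Bois-Reymond: a locally integrable function whose distributional derivative is the
locally integrable function `b` is a primitive of `b` -/
theorem evol_dbr {M b : ℝ → ℝ} {R : ℝ} (hR : 0 < R)
    (hM : ∀ s t, 0 < s → t < R → IntegrableOn M (Icc s t))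
    (hb : ∀ s t, 0 < s → t < R → IntegrableOn b (Icc s t))
    (h : ∀ χ : ℝ → ℝ, ContDiff ℝ ∞ χ → HasCompactSupport χ → tsupport χ ⊆ Ioo 0 R →
      ∫ r in Ioo 0 R, deriv χ r * M r = - ∫ r in Ioo 0 R, χ r * b r) :
    ∃ m : ℝ → ℝ, (∀ s ∈ Ioo 0 R, ∀ t ∈ Ioo 0 R, m t - m s = ∫ r in s..t, b r) ∧
      ∀ᵐ r ∂(volume.restrict (Ioo 0 R)), m r = M r := by
  have hbI : ∀ s ∈ Ioo 0 R, ∀ t ∈ Ioo 0 R, IntervalIntegrable b volume s t := by
    intro s hs t ht
    rw [intervalIntegrable_iff]
    apply (hb (min s t) (max s t) (lt_min hs.1 ht.1) (max_lt hs.2 ht.2)).mono_set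
    exact Ioc_subset_Icc_self
  have hc0 : R / 2 ∈ Ioo 0 R := ⟨by linarith, by linarith⟩
  set B : ℝ → ℝ := fun r => ∫ t in (R / 2)..r, b t with hB
  have hBd : ∀ s ∈ Ioo 0 R, ∀ t ∈ Ioo 0 R, B t - B s = ∫ r in s..t, b r := by
    intro s hs t ht
    exact intervalIntegral.integral_interval_sub_left (hbI _ hc0 _ ht) (hbI _ hc0 _ hs)
  have hBc : ContinuousOn B (Ioo 0 R) := by
    intro x hx
    obtain ⟨α, β, hα, hαβ, hβ, hsub⟩ := evol_supp hR (isCompact_singleton (x := x))
      (singleton_subset_iff.2 hx)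
    have hx' : x ∈ Ioo α β := hsub rfl
    have hαm : α ∈ Ioo 0 R := ⟨hα, hαβ.trans hβ⟩
    have hβm : β ∈ Ioo 0 R := ⟨hα.trans hαβ, hβ⟩
    have h1 : ContinuousOn (fun r => ∫ t in α..r, b t) (uIcc α β) :=
      intervalIntegral.continuousOn_primitive_interval' (hbI _ hαm _ hβm) left_mem_uIcc
    have h2 : ContinuousAt (fun r => ∫ t in α..r, b t) x := by
      apply h1.continuousAt
      rw [uIcc_of_le hαβ.le]
      exact Icc_mem_nhds hx'.1 hx'.2
    have h3 : ContinuousAt B x := by
      have h4 : ContinuousAt (fun r => B α + ∫ t in α..r, b t) x := h2.const_add _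
      refine h4.congr ?_
      filter_upwards [Ioo_mem_nhds hx.1 hx.2] with r hr
      have := hBd α hαm r hr
      linarith
    exact h3.continuousWithinAt
  -- key identity for B
  have hkey : ∀ χ : ℝ → ℝ, ContDiff ℝ ∞ χ → HasCompactSupport χ → tsupport χ ⊆ Ioo 0 R →
      ∫ r in Ioo 0 R, deriv χ r * B r = - ∫ r in Ioo 0 R, χ r * b r := by
    intro χ hχ hχc hχs
    obtain ⟨α, β, hα, hαβ, hβ, hsub⟩ := evol_supp hR hχc.isCompact hχs
    have hαm : α ∈ Ioo 0 R := ⟨hα, hαβ.trans hβ⟩
    have hβm : β ∈ Ioo 0 R := ⟨hα.trans hαβ, hβ⟩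
    have hχ0 : ∀ x, x ∉ Ioo α β → χ x = 0 := fun x hx =>
      image_eq_zero_of_notMem_tsupport fun h => hx (hsub h)
    have hχd0 : ∀ x, x ∉ Ioo α β → deriv χ x = 0 := fun x hx =>
      image_eq_zero_of_notMem_tsupport fun h => hx (hsub (tsupport_deriv_subset h))
    have hcut : ∀ F : ℝ → ℝ, (∀ x, x ∉ Ioo α β → F x = 0) →
        ∫ r in Ioo 0 R, F r = ∫ r in α..β, F r := by
      intro F hF
      rw [intervalIntegral.integral_of_le hαβ.le, integral_Ioc_eq_integral_Ioo]
      have e1 := setIntegral_eq_integral_of_forall_compl_eq_zero (μ := volume) (s := Ioo α β)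
        (f := F) hF
      rw [e1]
      apply setIntegral_eq_integral_of_forall_compl_eq_zero
      intro x hx
      exact hF x fun h => hx ⟨hα.trans h.1, h.2.trans hβ⟩
    rw [hcut _ fun x hx => by rw [hχd0 x hx, zero_mul],
      hcut _ fun x hx => by rw [hχ0 x hx, zero_mul]]
    have hdχ : ∀ x, HasDerivAt χ (deriv χ x) x := fun x =>
      ((hχ.differentiable (by simp)) x).hasDerivAt
    have hdc : Continuous (deriv χ) := hχ.continuous_deriv (by simp)
    have hbi : IntegrableOn b (Ioc α β) := (hb α β hα hβ).mono_set Ioc_subset_Icc_self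
    have h1 := evol_fub hαβ.le hdχ hdc hbi
    have h2 : ∫ r in α..β, deriv χ r * B r =
        ∫ r in α..β, (deriv χ r * B α + deriv χ r * ∫ t in α..r, b t) := by
      apply intervalIntegral.integral_congr
      intro r hr
      rw [uIcc_of_le hαβ.le] at hr
      have := hBd α hαm r ⟨hα.trans_le hr.1, hr.2.trans_lt hβ⟩
      simp only
      rw [← this]
      ring
    have hi1 : IntervalIntegrable (fun r => deriv χ r * B α) volume α β :=
      (hdc.mul continuous_const).intervalIntegrable _ _
    have h3 : ContinuousOn (fun r => ∫ t in α..r, b t) (uIcc α β) :=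
      intervalIntegral.continuousOn_primitive_interval' (hbI _ hαm _ hβm) left_mem_uIcc
    have hi2 : IntervalIntegrable (fun r => deriv χ r * ∫ t in α..r, b t) volume α β :=
      (hdc.continuousOn.mul h3).intervalIntegrable
    rw [h2, intervalIntegral.integral_add hi1 hi2,
      intervalIntegral.integral_mul_const,
      intervalIntegral.integral_eq_sub_of_hasDerivAt (fun x _ => hdχ x)
        (hdc.intervalIntegrable _ _),
      h1, hχ0 α fun h => lt_irrefl _ h.1, hχ0 β fun h => lt_irrefl _ h.2]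
    simp only [sub_zero, zero_mul, zero_add, zero_sub, neg_mul, intervalIntegral.integral_neg]
  -- local integrability
  have hBi : ∀ s t, 0 < s → t < R → IntegrableOn B (Icc s t) := by
    intro s t hs ht
    exact (hBc.mono fun x hx => ⟨hs.trans_le hx.1, hx.2.trans_lt ht⟩).integrableOn_Icc
  set N : ℝ → ℝ := fun r => M r - B r with hN
  have hNi : ∀ s t, 0 < s → t < R → IntegrableOn N (Icc s t) := fun s t hs ht =>
    (hM s t hs ht).sub (hBi s t hs ht)
  -- integrals against test functions are fine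
  have htest : ∀ F : ℝ → ℝ, (∀ s t, 0 < s → t < R → IntegrableOn F (Icc s t)) →
      ∀ ψ : ℝ → ℝ, Continuous ψ → HasCompactSupport ψ → tsupport ψ ⊆ Ioo 0 R →
        IntegrableOn (fun r => ψ r * F r) (Ioo 0 R) := by
    intro F hF ψ hψ hψc hψs
    obtain ⟨α, β, hα, hαβ, hβ, hsub⟩ := evol_supp hR hψc.isCompact hψs
    obtain ⟨C, hC⟩ := hψ.bounded_above_of_compact_support hψc
    have h1 : IntegrableOn (fun r => ψ r * F r) (Icc α β) :=
      (hF α β hα hβ).bdd_mul hψ.aestronglyMeasurable (Eventually.of_forall fun x => hC _)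
    have h2 : Integrable (fun r => ψ r * F r) := by
      rw [← integrableOn_iff_integrable_of_support_subset (s := Icc α β)]
      · exact h1
      · intro x hx
        by_contra hcon
        apply hx
        simp only
        rw [image_eq_zero_of_notMem_tsupport fun h' => hcon (Ioo_subset_Icc_self (hsub h')),
          zero_mul]
    exact h2.integrableOn
  have hker : ∀ χ : ℝ → ℝ, ContDiff ℝ ∞ χ → HasCompactSupport χ → tsupport χ ⊆ Ioo 0 R →
      ∫ r in Ioo 0 R, deriv χ r * N r = 0 := by
    intro χ hχ hχc hχs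
    have hd1 : Continuous (deriv χ) := hχ.continuous_deriv (by simp)
    have hd2 : HasCompactSupport (deriv χ) := hχc.deriv
    have hd3 : tsupport (deriv χ) ⊆ Ioo 0 R := tsupport_deriv_subset.trans hχs
    have e : (fun r => deriv χ r * N r) = fun r => deriv χ r * M r - deriv χ r * B r := by
      funext r
      simp only [hN]
      ring
    rw [e, integral_sub (htest M hM _ hd1 hd2 hd3) (htest B hBi _ hd1 hd2 hd3),
      h χ hχ hχc hχs, hkey χ hχ hχc hχs]
    ring
  -- the bump
  let f : ContDiffBump (R / 2) := ⟨R / 8, R / 4, by linarith, by linarith⟩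
  set ρ : ℝ → ℝ := f.normed volume with hρ
  have hρ1 : ContDiff ℝ ∞ ρ := f.contDiff_normed
  have hρ2 : HasCompactSupport ρ := f.hasCompactSupport_normed
  have hρ3 : tsupport ρ ⊆ Ioo 0 R := by
    rw [hρ, f.tsupport_normed_eq]
    intro x hx
    rw [mem_closedBall, Real.dist_eq] at hx
    have h1 : |x - R / 2| ≤ R / 4 := hx
    rw [abs_le] at h1
    exact ⟨by linarith [h1.1], by linarith [h1.2]⟩
  have hρ4 : ∫ x, ρ x = 1 := f.integral_normed
  set κ : ℝ := ∫ r in Ioo 0 R, ρ r * N r with hκ
  have hmain : ∀ᵐ x ∂(volume : Measure ℝ), x ∈ Ioo 0 R → N x - κ = 0 := by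
    apply isOpen_Ioo.ae_eq_zero_of_integral_contDiff_smul_eq_zero
    · have h1 : LocallyIntegrableOn (fun x => N x - κ) (Ioo 0 R) := by
        rw [locallyIntegrableOn_iff isOpen_Ioo.isLocallyClosed]
        intro K hK hKc
        obtain ⟨α, β, hα, hαβ, hβ, hsub⟩ := evol_supp hR hKc hK
        have h2 : IntegrableOn (fun x => N x - κ) (Icc α β) :=
          (hNi α β hα hβ).sub (integrableOn_const (by simp) (by simp))
        exact h2.mono_set (hsub.trans Ioo_subset_Icc_self)
      exact h1
    · intro φ hφ hφc hφs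
      set I : ℝ := ∫ x, φ x with hI
      have hφi : Integrable φ := hφ.continuous.integrable_of_hasCompactSupport hφc
      have hρi : Integrable ρ := hρ1.continuous.integrable_of_hasCompactSupport hρ2
      have hψ1 : ContDiff ℝ ∞ (fun x => φ x - I * ρ x) := hφ.sub (contDiff_const.mul hρ1)
      have hψ2 : HasCompactSupport (fun x => φ x - I * ρ x) := hφc.sub hρ2.mul_left
      have hψ3 : tsupport (fun x => φ x - I * ρ x) ⊆ Ioo 0 R := by
        refine (closure_mono (s := Function.support fun x => φ x - I * ρ x)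
          (t := Function.support φ ∪ Function.support ρ) ?_).trans ?_
        · intro x hx
          by_contra hcon
          rw [mem_union, not_or, Function.notMem_support, Function.notMem_support] at hcon
          apply hx
          simp only
          rw [hcon.1, hcon.2]
          ring
        · rw [closure_union]
          exact union_subset hφs hρ3
      have hψ4 : ∫ x, (φ x - I * ρ x) = 0 := by
        rw [integral_sub hφi (hρi.const_mul _), integral_const_mul, hρ4]
        ring
      obtain ⟨χ, hχ1, hχ2, hχ3, hχ4⟩ := evol_prim hR hψ1 hψ2 hψ3 hψ4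
      have h5 := hker χ hχ1 hχ2 hχ3
      rw [hχ4] at h5
      have h6 : ∫ r in Ioo 0 R, φ r * N r = I * κ := by
        have e : (fun r => (φ r - I * ρ r) * N r) = fun r => φ r * N r - I * (ρ r * N r) := by
          funext r
          ring
        rw [e, integral_sub (htest N hNi φ hφ.continuous hφc hφs)
          ((htest N hNi ρ hρ1.continuous hρ2 hρ3).const_mul I), integral_const_mul] at h5
        linarith
      have h7 : ∫ x, φ x • (N x - κ) = ∫ x in Ioo 0 R, φ x * (N x - κ) := by
        symm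
        apply setIntegral_eq_integral_of_forall_compl_eq_zero
        intro x hx
        rw [image_eq_zero_of_notMem_tsupport fun h => hx (hφs h), zero_mul]
      have h8 : ∫ r in Ioo 0 R, φ r = I := by
        apply setIntegral_eq_integral_of_forall_compl_eq_zero
        intro x hx
        rw [image_eq_zero_of_notMem_tsupport fun h => hx (hφs h)]
      have e : (fun r => φ r * (N r - κ)) = fun r => φ r * N r - φ r * κ := by
        funext r
        ring
      rw [h7, e, integral_sub (htest N hNi φ hφ.continuous hφc hφs)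
        (hφi.integrableOn.mul_const κ), h6, integral_mul_const, h8]
      ring
  refine ⟨fun r => B r + κ, fun s hs t ht => ?_, ?_⟩
  · rw [← hBd s hs t ht]
    ring
  · rw [ae_restrict_iff' measurableSet_Ioo]
    filter_upwards [hmain] with r hr hr'
    have h1 := hr hr'
    simp only [hN] at h1
    linarith

theorem evol_int {w : ℂ → ℝ} {a : ℂ} {R : ℝ} (hw : ∀ s < R, IntegrableOn w (closedBall a s))
    {ψ : ℝ → ℝ} (hψ : Measurable ψ) {C : ℝ} (hC : ∀ x, |ψ x| ≤ C) {s t : ℝ} (hs : 0 < s)
    (ht : t < R) :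
    IntegrableOn (fun r => ∫ θ in Ioo (-Real.pi) Real.pi, w (pc a r θ) * ψ θ) (Icc s t) := by
  have hC0 : 0 ≤ C := (abs_nonneg _).trans (hC 0)
  have hargm : Measurable (fun x : ℂ => (x - a).arg) :=
    Complex.measurable_arg.comp (measurable_id.sub measurable_const)
  have hdm : Measurable (fun x : ℂ => dist x a) := measurable_id.dist measurable_const
  have hPm : MeasurableSet {x : ℂ | dist x a ∈ Icc s t} := hdm measurableSet_Icc
  have hwP : IntegrableOn w {x : ℂ | dist x a ∈ Icc s t} :=
    (hw t ht).mono_set fun x hx => mem_closedBall.2 hx.2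
  have hi : IntegrableOn (fun x => (ψ (x - a).arg / dist x a) * w x)
      {x : ℂ | dist x a ∈ Icc s t} := by
    refine hwP.bdd_mul (c := C / s) ((hψ.comp hargm).div hdm).aestronglyMeasurable ?_
    rw [ae_restrict_iff' hPm]
    refine Eventually.of_forall fun x hx => ?_
    rw [Real.norm_eq_abs, abs_div, abs_of_pos (hs.trans_le hx.1)]
    exact div_le_div₀ hC0 (hC _) hs hx.1
  have h1 := (polar_iter a measurableSet_Icc (fun r hr => hs.trans_le hr.1) hi).2.1
  refine (integrableOn_congr_fun ?_ measurableSet_Icc).1 h1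
  intro r hr
  have hr0 : 0 < r := hs.trans_le hr.1
  simp only
  rw [← integral_const_mul]
  apply setIntegral_congr_fun measurableSet_Ioo
  intro θ hθ
  simp only
  rw [polar_arg_pc a hr0 hθ, polar_dist a hr0]
  field_simp

theorem radial_evol {Ω : Set ℂ} {u : ℂ → ℝ} {g j : ℂ → ℂ} (h : SBVData Ω u g j) {a : ℂ} {R : ℝ}
    (hR : ball a R ⊆ Ω)
    (hrad : (μH[1] : Measure ℂ) {x ∈ ball a R | inner ℝ (x - a) (j x) ≠ 0} = 0) {η : ℝ → ℝ}
    (hη : ContDiff ℝ ∞ η) (hper : ∀ t, η (t + 2 * Real.pi) = η t) :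
    ∃ m : ℝ → ℝ, (∀ s ∈ Ioo 0 R, ∀ t ∈ Ioo 0 R, m t - m s =
        ∫ r in s..t, ∫ θ in Ioo (-Real.pi) Real.pi, inner ℝ (g (pc a r θ)) (er θ) * η θ) ∧
      ∀ᵐ r ∂(volume.restrict (Ioo 0 R)),
        m r = ∫ θ in Ioo (-Real.pi) Real.pi, u (pc a r θ) * η θ := by
  rcases le_or_gt R 0 with hR0 | hR0
  · refine ⟨fun _ => 0, fun s hs => absurd (hs.1.trans hs.2) (not_lt.2 hR0), ?_⟩
    rw [Ioo_eq_empty (not_lt.2 hR0)]
    simp
  -- boundedness of η
  obtain ⟨C, hC⟩ : ∃ C : ℝ, ∀ x, |η x| ≤ C := by
    obtain ⟨C, hC⟩ := (isCompact_Icc (a := (0 : ℝ)) (b := 0 + 2 * Real.pi)).exists_bound_of_continuousOn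
      hη.continuous.continuousOn
    refine ⟨C, fun x => ?_⟩
    obtain ⟨y, hy, hxy⟩ := (show Function.Periodic η (2 * Real.pi) from hper).exists_mem_Ico
      Real.two_pi_pos x 0
    rw [hxy]
    exact hC y (Ico_subset_Icc_self hy)
  have hcb : ∀ s < R, IsCompact (closedBall a s) ∧ closedBall a s ⊆ Ω := fun s hs =>
    ⟨isCompact_closedBall a s, (closedBall_subset_ball hs).trans hR⟩
  have hui : ∀ s < R, IntegrableOn u (closedBall a s) := fun s hs =>
    h.intu.integrableOn_compact_subset (hcb s hs).2 (hcb s hs).1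
  have hgi : ∀ s < R, IntegrableOn g (closedBall a s) := fun s hs =>
    h.intg.integrableOn_compact_subset (hcb s hs).2 (hcb s hs).1
  have hargm : Measurable (fun x : ℂ => (x - a).arg) :=
    Complex.measurable_arg.comp (measurable_id.sub measurable_const)
  have hgri : ∀ s < R, IntegrableOn (fun x => inner ℝ (g x) (er (x - a).arg)) (closedBall a s) := by
    intro s hs
    refine Integrable.mono' (hgi s hs).norm
      (h.meas_g.inner (polar_er_cont.measurable.comp hargm)).aestronglyMeasurable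
      (Eventually.of_forall fun x => ?_)
    refine (norm_inner_le_norm _ _).trans ?_
    have h1 : ‖er (x - a).arg‖ = 1 := by rw [er, Complex.norm_exp_ofReal_mul_I]
    rw [h1, mul_one]
  apply evol_dbr hR0
  · intro s t hs ht
    exact evol_int hui hη.continuous.measurable hC hs ht
  · intro s t hs ht
    refine (integrableOn_congr_fun ?_ measurableSet_Icc).1
      (evol_int hgri hη.continuous.measurable hC hs ht)
    intro r hr
    apply setIntegral_congr_fun measurableSet_Ioo
    intro θ hθ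
    simp only
    rw [polar_arg_pc a (hs.trans_le hr.1) hθ]
  · intro χ hχ hχc hχs
    rw [polar_form_r h hR hχ hχc hχs hη hper]
    have h1 : ∫ x in ball a R, χ (dist x a) / dist x a * η (x - a).arg *
          inner ℝ (j x) (er (x - a).arg) ∂(μH[1] : Measure ℂ) = 0 := by
      apply integral_eq_zero_of_ae
      rw [EventuallyEq, ae_restrict_iff' measurableSet_ball, ae_iff]
      refine measure_mono_null ?_ hrad
      intro x hx
      rw [mem_ofPred_eq, Classical.not_imp] at hx
      refine ⟨hx.1, fun h0 => hx.2 ?_⟩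
      rw [Pi.zero_apply]
      rcases eq_or_ne (dist x a) 0 with h2 | h2
      · rw [h2, div_zero, zero_mul, zero_mul]
      · have h3 : dist x a * inner ℝ (j x) (er (x - a).arg) = 0 := by
          rw [polar_sub_eq x a, real_inner_comm] at h0
          have h4 : ((dist x a : ℂ) * er (x - a).arg) = (dist x a) • er (x - a).arg := by
            rw [Complex.real_smul]
          rw [h4, inner_smul_right] at h0
          exact h0
        rw [(mul_eq_zero.1 h3).resolve_left h2, mul_zero]
    rw [h1, sub_zero]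

end Pool.Agent.MP099f24
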