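import Mathlib

/-!
# MP_099f24_an, SD module FUNIQ: uniqueness of Fourier coefficients, real form
-/

set_option autoImplicit false

open MeasureTheory Set

namespace Pool.Agent.MP099f24

theorem funiq_coeff {f : ℝ → ℝ} (hf : MemLp f 2 (volume.restrict (Ioo (-Real.pi) Real.pi)))
    (h : ∀ k : ℕ, ∫ θ in Ioo (-Real.pi) Real.pi, f θ * Real.cos (k * θ) = 0 ∧
      ∫ θ in Ioo (-Real.pi) Real.pi, f θ * Real.sin (k * θ) = 0)
    (hab : -Real.pi < Real.pi) (n : ℤ) :
    fourierCoeffOn hab (fun θ => (f θ : ℂ)) n = 0 := by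
  have hfi : Integrable f (volume.restrict (Ioo (-Real.pi) Real.pi)) :=
    hf.integrable (by norm_num)
  have hc : ∀ c : ℝ, Integrable (fun θ => f θ * Real.cos (c * θ))
      (volume.restrict (Ioo (-Real.pi) Real.pi)) := by
    intro c
    refine hfi.mul_bdd (c := 1) (by fun_prop) ?_
    filter_upwards with θ
    simpa using Real.abs_cos_le_one _
  have hs : ∀ c : ℝ, Integrable (fun θ => f θ * Real.sin (c * θ))
      (volume.restrict (Ioo (-Real.pi) Real.pi)) := by
    intro c
    refine hfi.mul_bdd (c := 1) (by fun_prop) ?_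
    filter_upwards with θ
    simpa using Real.abs_sin_le_one _
  have hcz : ∀ m : ℤ, ∫ θ in Ioo (-Real.pi) Real.pi, f θ * Real.cos (m * θ) = 0 := by
    intro m
    obtain ⟨k, rfl | rfl⟩ := m.eq_nat_or_neg
    · exact_mod_cast (h k).1
    · have := (h k).1
      push_cast
      simp only [neg_mul, Real.cos_neg]
      exact this
  have hsz : ∀ m : ℤ, ∫ θ in Ioo (-Real.pi) Real.pi, f θ * Real.sin (m * θ) = 0 := by
    intro m
    obtain ⟨k, rfl | rfl⟩ := m.eq_nat_or_neg
    · exact_mod_cast (h k).2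
    · have := (h k).2
      push_cast
      simp only [neg_mul, Real.sin_neg, mul_neg]
      rw [integral_neg, this, neg_zero]
  rw [fourierCoeffOn_eq_integral, intervalIntegral.integral_of_le hab.le,
    integral_Ioc_eq_integral_Ioo]
  have key : ∀ θ : ℝ, (fourier (-n) (θ : AddCircle (Real.pi - -Real.pi))) • ((f θ : ℝ) : ℂ) =
      ((f θ * Real.cos ((n : ℝ) * θ) : ℝ) : ℂ) - Complex.I * ((f θ * Real.sin ((n : ℝ) * θ) : ℝ) : ℂ) := by
    intro θ
    rw [fourier_coe_apply]
    have e1 : 2 * (Real.pi : ℂ) * Complex.I * ((-n : ℤ) : ℂ) * (θ : ℂ) / ((Real.pi - -Real.pi : ℝ) : ℂ)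
        = -(((n : ℝ) * θ : ℝ) : ℂ) * Complex.I := by
      have hpi : (Real.pi : ℂ) ≠ 0 := by exact_mod_cast Real.pi_ne_zero
      push_cast
      field_simp
      ring
    rw [e1, neg_mul, ← neg_mul, Complex.exp_mul_I, Complex.cos_neg, Complex.sin_neg, ← Complex.ofReal_cos,
      ← Complex.ofReal_sin, smul_eq_mul]
    push_cast
    ring
  simp_rw [key]
  rw [integral_sub, integral_const_mul, integral_complex_ofReal, integral_complex_ofReal,
    hcz, hsz]
  · simp
  · exact (hc _).ofReal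
  · exact ((hs _).ofReal).const_mul _

theorem fourier_unique {f : ℝ → ℝ} (hf : MemLp f 2 (volume.restrict (Ioo (-Real.pi) Real.pi)))
    (h : ∀ k : ℕ, ∫ θ in Ioo (-Real.pi) Real.pi, f θ * Real.cos (k * θ) = 0 ∧
      ∫ θ in Ioo (-Real.pi) Real.pi, f θ * Real.sin (k * θ) = 0) :
    ∀ᵐ θ ∂(volume.restrict (Ioo (-Real.pi) Real.pi)), f θ = 0 := by
  have hab : -Real.pi < Real.pi := by linarith [Real.pi_pos]
  have hL2 : MemLp (fun θ => (f θ : ℂ)) 2 (volume.restrict (Ioc (-Real.pi) Real.pi)) := by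
    rw [← restrict_Ioo_eq_restrict_Ioc]
    exact hf.ofReal
  have h1 := tsum_sq_fourierCoeffOn hab hL2
  simp only [funiq_coeff hf h hab, norm_zero, ne_eq, OfNat.ofNat_ne_zero, not_false_eq_true,
    zero_pow, tsum_zero] at h1
  have h2 : ∫ x in Ioo (-Real.pi) Real.pi, ‖((f x : ℝ) : ℂ)‖ ^ 2 = 0 := by
    have h3 : (Real.pi - -Real.pi)⁻¹ ≠ 0 := by
      have h30 : (0 : ℝ) < Real.pi - -Real.pi := by linarith [Real.pi_pos]
      exact inv_ne_zero h30.ne'
    have h4 := (smul_eq_zero.1 h1.symm).resolve_left h3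
    rwa [intervalIntegral.integral_of_le hab.le, integral_Ioc_eq_integral_Ioo] at h4
  have h5 : Integrable (fun x => ‖((f x : ℝ) : ℂ)‖ ^ 2) (volume.restrict (Ioo (-Real.pi) Real.pi)) := by
    have := hf.integrable_sq
    refine this.congr ?_
    filter_upwards with x
    simp
  have h6 := (integral_eq_zero_iff_of_nonneg (fun x => by positivity) h5).1 h2
  filter_upwards [h6] with x hx
  simpa using hx

end Pool.Agent.MP099f24
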