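import Pool.Agent.Lib.MP_099f24_an.SD.Wirt
import Pool.Agent.Lib.MP_099f24_an.SD.Funiq

/-!
# MP_099f24_an, SD module WIRTEQ: Neumann Wirtinger inequality with equality case
-/

set_option autoImplicit false

open MeasureTheory Filter Topology Set Metric

namespace Pool.Agent.MP099f24

/-- Real form of `wirt_fub`. -/
theorem wirteq_fub {a b : ℝ} (hab : a ≤ b) {φ φ' : ℝ → ℝ} (hφ : ∀ x, HasDerivAt φ (φ' x) x)
    (hc : Continuous φ') {G : ℝ → ℝ} (hG : IntegrableOn G (Ioc a b)) :
    ∫ x in a..b, φ' x * (∫ t in a..x, G t) = ∫ t in a..b, (φ b - φ t) * G t := by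
  have h := wirt_fub hab (φ := fun x => (φ x : ℂ)) (φ' := fun x => (φ' x : ℂ))
    (fun x => (hφ x).ofReal_comp) (Complex.continuous_ofReal.comp hc) (G := fun x => (G x : ℂ))
    hG.ofReal
  have e1 : ∀ x : ℝ, ((φ' x : ℝ) : ℂ) * (∫ t in a..x, ((G t : ℝ) : ℂ)) =
      ((φ' x * (∫ t in a..x, G t) : ℝ) : ℂ) := by
    intro x
    rw [intervalIntegral.integral_ofReal]
    push_cast
    ring
  have e2 : ∀ t : ℝ, (((φ b : ℝ) : ℂ) - ((φ t : ℝ) : ℂ)) * ((G t : ℝ) : ℂ) =
      (((φ b - φ t) * G t : ℝ) : ℂ) := by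
    intro t; push_cast; ring
  simp_rw [e1, e2] at h
  rw [intervalIntegral.integral_ofReal, intervalIntegral.integral_ofReal] at h
  exact_mod_cast h

section
variable {G : ℝ → ℝ} {p m : ℝ}

theorem wirteq_int (hG : MemLp G 2 (volume.restrict (Ioo p (p + 2 * Real.pi)))) :
    IntegrableOn G (Ioc p (p + 2 * Real.pi)) := by
  have := hG.integrable (by norm_num)
  rwa [restrict_Ioo_eq_restrict_Ioc] at this

theorem wirteq_cont (hG : MemLp G 2 (volume.restrict (Ioo p (p + 2 * Real.pi)))) :
    ContinuousOn (fun θ => ∫ t in p..θ, G t) (Icc p (p + 2 * Real.pi)) := by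
  have hpi := Real.pi_pos
  have hle : p ≤ p + 2 * Real.pi := by linarith
  have hGii : IntervalIntegrable G volume p (p + 2 * Real.pi) :=
    (intervalIntegrable_iff_integrableOn_Ioc_of_le hle).2 (wirteq_int hG)
  have h := intervalIntegral.continuousOn_primitive_interval' (μ := volume) (f := G) hGii
    (left_mem_uIcc)
  rwa [uIcc_of_le hle] at h

/-- The inequality for the mean value. -/
theorem wirteq_ineq (hG : MemLp G 2 (volume.restrict (Ioo p (p + 2 * Real.pi))))
    (hm : ∫ θ in p..(p + 2 * Real.pi), ((∫ t in p..θ, G t) - m) = 0) :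
    ∫ θ in p..(p + 2 * Real.pi), ((∫ t in p..θ, G t) - m) ^ 2 ≤
      4 * ∫ θ in p..(p + 2 * Real.pi), G θ ^ 2 := by
  have hpi := Real.pi_pos
  have hle : p ≤ p + 2 * Real.pi := by linarith
  obtain ⟨m', hm'⟩ := wirtinger_neumann hG
  refine le_trans ?_ hm'
  have hc := wirteq_cont hG
  have i1 : IntervalIntegrable (fun θ => (∫ t in p..θ, G t) - m) volume p (p + 2 * Real.pi) := by
    apply ContinuousOn.intervalIntegrable
    rw [uIcc_of_le hle]
    exact hc.sub continuousOn_const
  have i2 : IntervalIntegrable (fun θ => ((∫ t in p..θ, G t) - m) ^ 2) volume p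
      (p + 2 * Real.pi) := by
    apply ContinuousOn.intervalIntegrable
    rw [uIcc_of_le hle]
    exact (hc.sub continuousOn_const).pow 2
  have e : ∀ θ, ((∫ t in p..θ, G t) - m') ^ 2 = ((∫ t in p..θ, G t) - m) ^ 2 +
      (2 * (m - m') * ((∫ t in p..θ, G t) - m) + (m - m') ^ 2) := by
    intro θ; ring
  simp_rw [e]
  rw [intervalIntegral.integral_add i2 ((i1.const_mul _).add (by simp)),
    intervalIntegral.integral_add (i1.const_mul _) (by simp),
    intervalIntegral.integral_const_mul, hm]
  simp only [mul_zero, intervalIntegral.integral_const, smul_eq_mul, zero_add]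
  have : 0 ≤ (p + 2 * Real.pi - p) * (m - m') ^ 2 := by
    apply mul_nonneg
    · linarith
    · positivity
  linarith

/-- Coefficients of higher order vanish in the equality case. -/
theorem wirteq_coeff (hG : MemLp G 2 (volume.restrict (Ioo p (p + 2 * Real.pi))))
    (hm : ∫ θ in p..(p + 2 * Real.pi), ((∫ t in p..θ, G t) - m) = 0)
    (heq : ∫ θ in p..(p + 2 * Real.pi), ((∫ t in p..θ, G t) - m) ^ 2 =
      4 * ∫ θ in p..(p + 2 * Real.pi), G θ ^ 2) {k : ℕ} (hk : 2 ≤ k) :
    ∫ θ in p..(p + 2 * Real.pi), ((∫ t in p..θ, G t) - m) * Real.cos (k * ((θ - p) / 2)) = 0 := by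
  have hpi := Real.pi_pos
  set c : ℝ := p + 2 * Real.pi with hcdef
  have hle : p ≤ c := by rw [hcdef]; linarith
  have hk0 : (0 : ℝ) < k := by exact_mod_cast (by omega : 0 < k)
  have hk2 : (2 : ℝ) ≤ k := by exact_mod_cast hk
  have hGi := wirteq_int hG
  rw [← hcdef] at hGi
  have hGii : IntervalIntegrable G volume p c :=
    (intervalIntegrable_iff_integrableOn_Ioc_of_le hle).2 hGi
  have hc := wirteq_cont hG
  rw [← hcdef] at hc
  set F : ℝ → ℝ := fun θ => ∫ t in p..θ, G t with hF
  set η : ℝ → ℝ := fun θ => Real.cos (k * ((θ - p) / 2)) with hη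
  set σ : ℝ → ℝ := fun θ => Real.sin (k * ((θ - p) / 2)) with hσ
  have hηc : Continuous η := by rw [hη]; fun_prop
  have hσc : Continuous σ := by rw [hσ]; fun_prop
  have dlin : ∀ x, HasDerivAt (fun θ : ℝ => (k : ℝ) * ((θ - p) / 2)) (k / 2) x := by
    intro x
    have := (((hasDerivAt_id x).sub_const p).div_const 2).const_mul (k : ℝ)
    exact this.congr_deriv (by ring)
  have dη : ∀ x, HasDerivAt η (-(k / 2) * σ x) x := by
    intro x
    exact (dlin x).cos.congr_deriv (by rw [hσ]; ring)
  have dσ : ∀ x, HasDerivAt (fun x => 2 / k * σ x) (η x) x := by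
    intro x
    exact (((dlin x).sin).const_mul (2 / (k : ℝ))).congr_deriv (by rw [hη]; field_simp)
  have σc0 : σ c = 0 := by
    rw [hσ, hcdef]
    simp only
    have : (k : ℝ) * ((p + 2 * Real.pi - p) / 2) = k * Real.pi := by ring
    rw [this]
    exact Real.sin_nat_mul_pi k
  have σp0 : σ p = 0 := by rw [hσ]; simp
  have ηp1 : η p = 1 := by rw [hη]; simp
  -- mean of `η`
  have hη0 : ∫ θ in p..c, η θ = 0 := by
    rw [intervalIntegral.integral_eq_sub_of_hasDerivAt (fun x _ => dσ x)
      (hηc.intervalIntegrable _ _), σc0, σp0]; simp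
  set β : ℝ := ∫ θ in p..c, G θ * σ θ with hβ
  -- (1) Fubini
  have w1 : ∫ θ in p..c, (F θ - m) * η θ = -(2 / k) * β := by
    have h1 := wirteq_fub hle dσ hηc hGi
    have h2 : ∀ t, (2 / (k : ℝ) * σ c - 2 / k * σ t) * G t = -(2 / k) * (G t * σ t) := by
      intro t; rw [σc0]; ring
    simp_rw [h2] at h1
    rw [intervalIntegral.integral_const_mul] at h1
    have h3 : ∀ θ, (F θ - m) * η θ = η θ * F θ - m * η θ := by intro θ; ring
    simp_rw [h3]
    rw [intervalIntegral.integral_sub, intervalIntegral.integral_const_mul, hη0, mul_zero,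
      sub_zero]
    · exact h1
    · apply ContinuousOn.intervalIntegrable
      rw [uIcc_of_le hle]
      exact hηc.continuousOn.mul hc
    · exact (hηc.intervalIntegrable _ _).const_mul _
  -- (2) first variation
  have key : ∀ t : ℝ, 2 * t * (∫ θ in p..c, (F θ - m) * η θ) + t ^ 2 * (∫ θ in p..c, η θ ^ 2) ≤
      4 * (2 * t * (-(k / 2) * β) + t ^ 2 * ∫ θ in p..c, (-(k / 2) * σ θ) ^ 2) := by
    intro t
    have hη' : Continuous fun θ => -((k : ℝ) / 2) * σ θ := hσc.const_mul _
    have hGt : MemLp (fun θ => G θ + t * (-(k / 2) * σ θ)) 2 (volume.restrict (Ioo p c)) := by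
      refine hG.add ?_
      have hb : ∀ θ, |t * (-((k : ℝ) / 2) * σ θ)| ≤ |t| * (k / 2) := by
        intro θ
        rw [abs_mul, abs_mul, abs_neg, abs_of_pos (by positivity : (0 : ℝ) < k / 2)]
        have : |σ θ| ≤ 1 := Real.abs_sin_le_one _
        have h5 : 0 ≤ |t| := abs_nonneg t
        have h6 : (k : ℝ) / 2 * |σ θ| ≤ k / 2 * 1 := by gcongr
        nlinarith
      exact MemLp.of_bound (by fun_prop) (|t| * (k / 2))
        (Eventually.of_forall fun θ => by rw [Real.norm_eq_abs]; exact hb θ)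
    have hFt : ∀ θ ∈ Icc p c, ∫ s in p..θ, (G s + t * (-(k / 2) * σ s)) = F θ + t * (η θ - 1) := by
      intro θ hθ
      rw [intervalIntegral.integral_add (hGii.mono_set (by
          rw [uIcc_of_le hθ.1, uIcc_of_le hle]; exact Icc_subset_Icc_right hθ.2))
        ((hη'.intervalIntegrable _ _).const_mul _), intervalIntegral.integral_const_mul,
        intervalIntegral.integral_eq_sub_of_hasDerivAt (fun x _ => dη x)
          (hη'.intervalIntegrable _ _), ηp1]
    have hFi : IntervalIntegrable (fun θ => F θ - m) volume p c := by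
      apply ContinuousOn.intervalIntegrable
      rw [uIcc_of_le hle]
      exact hc.sub continuousOn_const
    have hmt : ∫ θ in p..c, ((∫ s in p..θ, (G s + t * (-(k / 2) * σ s))) - (m - t)) = 0 := by
      have e1 : ∫ θ in p..c, ((∫ s in p..θ, (G s + t * (-(k / 2) * σ s))) - (m - t)) =
          ∫ θ in p..c, ((F θ - m) + t * η θ) := by
        refine intervalIntegral.integral_congr fun θ hθ => ?_
        rw [uIcc_of_le hle] at hθ
        rw [hFt θ hθ]; ring
      rw [e1, intervalIntegral.integral_add hFi ((hηc.intervalIntegrable _ _).const_mul _),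
        intervalIntegral.integral_const_mul, hη0, mul_zero, add_zero]
      exact hm
    have h1 := wirteq_ineq hGt hmt
    rw [← hcdef] at h1
    have e2 : ∫ θ in p..c, ((∫ s in p..θ, (G s + t * (-(k / 2) * σ s))) - (m - t)) ^ 2 =
        (∫ θ in p..c, (F θ - m) ^ 2) + (2 * t * (∫ θ in p..c, (F θ - m) * η θ) +
          t ^ 2 * (∫ θ in p..c, η θ ^ 2)) := by
      have e1 : ∫ θ in p..c, ((∫ s in p..θ, (G s + t * (-(k / 2) * σ s))) - (m - t)) ^ 2 =
          ∫ θ in p..c, ((F θ - m) ^ 2 + (2 * t * ((F θ - m) * η θ) + t ^ 2 * η θ ^ 2)) := by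
        refine intervalIntegral.integral_congr fun θ hθ => ?_
        rw [uIcc_of_le hle] at hθ
        rw [hFt θ hθ]; ring
      have j1 : IntervalIntegrable (fun θ => (F θ - m) ^ 2) volume p c := by
        apply ContinuousOn.intervalIntegrable
        rw [uIcc_of_le hle]
        exact (hc.sub continuousOn_const).pow 2
      have j2 : IntervalIntegrable (fun θ => (F θ - m) * η θ) volume p c := by
        apply ContinuousOn.intervalIntegrable
        rw [uIcc_of_le hle]
        exact (hc.sub continuousOn_const).mul hηc.continuousOn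
      have j3 : IntervalIntegrable (fun θ => η θ ^ 2) volume p c :=
        (hηc.pow 2).intervalIntegrable _ _
      rw [e1, intervalIntegral.integral_add j1 ((j2.const_mul _).add (j3.const_mul _)),
        intervalIntegral.integral_add (j2.const_mul _) (j3.const_mul _),
        intervalIntegral.integral_const_mul, intervalIntegral.integral_const_mul]
    have e3 : ∫ θ in p..c, (G θ + t * (-(k / 2) * σ θ)) ^ 2 =
        (∫ θ in p..c, G θ ^ 2) + (2 * t * (-(k / 2) * β) +
          t ^ 2 * ∫ θ in p..c, (-(k / 2) * σ θ) ^ 2) := by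
      have e1 : ∀ θ, (G θ + t * (-(k / 2) * σ θ)) ^ 2 =
          G θ ^ 2 + (2 * t * (-(k / 2)) * (G θ * σ θ) + t ^ 2 * (-(k / 2) * σ θ) ^ 2) := by
        intro θ; ring
      simp_rw [e1]
      have j1 : IntervalIntegrable (fun θ => G θ ^ 2) volume p c := by
        rw [intervalIntegrable_iff_integrableOn_Ioc_of_le hle, IntegrableOn,
          ← restrict_Ioo_eq_restrict_Ioc]
        exact hG.integrable_sq
      have j2 : IntervalIntegrable (fun θ => G θ * σ θ) volume p c :=
        hGii.mul_continuousOn hσc.continuousOn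
      have j3 : IntervalIntegrable (fun θ => (-((k : ℝ) / 2) * σ θ) ^ 2) volume p c :=
        (hη'.pow 2).intervalIntegrable _ _
      rw [intervalIntegral.integral_add j1 ((j2.const_mul _).add (j3.const_mul _)),
        intervalIntegral.integral_add (j2.const_mul _) (j3.const_mul _),
        intervalIntegral.integral_const_mul, intervalIntegral.integral_const_mul]
      ring
    rw [e2, e3] at h1
    have heq' : ∫ θ in p..c, (F θ - m) ^ 2 = 4 * ∫ θ in p..c, G θ ^ 2 := heq
    rw [heq'] at h1
    linarith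
  -- (3) the linear coefficient vanishes
  set A : ℝ := ∫ θ in p..c, (F θ - m) * η θ with hA
  set B : ℝ := ∫ θ in p..c, η θ ^ 2 with hB
  set C : ℝ := ∫ θ in p..c, (-(k / 2) * σ θ) ^ 2 with hC
  have hlin : A = 4 * (-(k / 2) * β) := by
    have h1 : ∀ t : ℝ, t * (2 * (A - 4 * (-(k / 2) * β))) ≤ t ^ 2 * (4 * C - B) := by
      intro t
      have := key t
      nlinarith
    by_contra hne
    have hd : A - 4 * (-(k / 2) * β) ≠ 0 := sub_ne_zero.2 hne
    set D := A - 4 * (-(k / 2) * β) with hD
    set E := 4 * C - B with hE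
    have h2 := h1 (D / (1 + |E|))
    have hpos : 0 < 1 + |E| := by positivity
    have hDD : 0 < D ^ 2 := by positivity
    have h3 : D / (1 + |E|) * (2 * D) = 2 * D ^ 2 / (1 + |E|) := by ring
    have h4 : (D / (1 + |E|)) ^ 2 * E ≤ D ^ 2 / (1 + |E|) := by
      have h5 : E ≤ 1 + |E| := by linarith [le_abs_self E]
      calc (D / (1 + |E|)) ^ 2 * E ≤ (D / (1 + |E|)) ^ 2 * (1 + |E|) := by gcongr
        _ = D ^ 2 / (1 + |E|) := by field_simp
    rw [h3] at h2
    have h6 : 2 * D ^ 2 / (1 + |E|) ≤ D ^ 2 / (1 + |E|) := h2.trans h4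
    have h7 : 2 * D ^ 2 ≤ D ^ 2 := by
      rwa [div_le_div_iff_of_pos_right hpos] at h6
    linarith
  rw [w1] at hlin
  have hβ0 : β = 0 := by
    have h1 : (2 * k - 2 / k) * β = 0 := by linarith
    have h2 : (2 : ℝ) * k - 2 / k ≠ 0 := by
      have : (2 : ℝ) / k ≤ 1 := by rw [div_le_one hk0]; exact hk2
      intro h; linarith
    exact (mul_eq_zero.1 h1).resolve_left h2
  change A = 0
  rw [w1, hβ0, mul_zero]

end

/-- Integral of an even function. -/
theorem wirteq_even {g : ℝ → ℝ} (hg : ContinuousOn g (Icc (-Real.pi) Real.pi))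
    (he : ∀ x, g (-x) = g x) :
    ∫ s in (-Real.pi)..Real.pi, g s = 2 * ∫ s in (0 : ℝ)..Real.pi, g s := by
  have hpi := Real.pi_pos
  have i1 : IntervalIntegrable g volume (-Real.pi) 0 := by
    apply ContinuousOn.intervalIntegrable
    rw [uIcc_of_le (by linarith)]
    exact hg.mono (Icc_subset_Icc_right hpi.le)
  have i2 : IntervalIntegrable g volume 0 Real.pi := by
    apply ContinuousOn.intervalIntegrable
    rw [uIcc_of_le hpi.le]
    exact hg.mono (Icc_subset_Icc_left (by linarith))
  rw [← intervalIntegral.integral_add_adjacent_intervals i1 i2]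
  have h := intervalIntegral.integral_comp_neg (f := g) (a := 0) (b := Real.pi)
  simp_rw [he] at h
  rw [neg_zero] at h
  rw [← h]; ring

/-- Integral of an odd function. -/
theorem wirteq_odd {g : ℝ → ℝ} (he : ∀ x, g (-x) = -g x) :
    ∫ s in (-Real.pi)..Real.pi, g s = 0 := by
  have h := intervalIntegral.integral_comp_neg (f := g) (a := -Real.pi) (b := Real.pi)
  simp_rw [he] at h
  rw [neg_neg, intervalIntegral.integral_neg] at h
  linarith

/-- Orthogonality of the cosines. -/
theorem wirteq_orth {k : ℕ} (hk : k ≠ 1) :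
    ∫ s in (-Real.pi)..Real.pi, Real.cos s * Real.cos (k * s) = 0 := by
  have h1 : (k : ℝ) + 1 ≠ 0 := by positivity
  have h2 : (k : ℝ) - 1 ≠ 0 := by
    rw [sub_ne_zero]
    exact_mod_cast hk
  have d : ∀ x, HasDerivAt (fun s => (Real.sin (((k : ℝ) + 1) * s) / (k + 1) +
      Real.sin (((k : ℝ) - 1) * s) / (k - 1)) / 2) (Real.cos x * Real.cos (k * x)) x := by
    intro x
    have a1 : HasDerivAt (fun s : ℝ => ((k : ℝ) + 1) * s) (k + 1) x := by
      simpa using (hasDerivAt_id x).const_mul ((k : ℝ) + 1)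
    have a2 : HasDerivAt (fun s : ℝ => ((k : ℝ) - 1) * s) (k - 1) x := by
      simpa using (hasDerivAt_id x).const_mul ((k : ℝ) - 1)
    refine (((a1.sin.div_const _).add (a2.sin.div_const _)).div_const 2).congr_deriv ?_
    rw [mul_div_assoc, div_self h1, mul_div_assoc, div_self h2]
    have e1 : ((k : ℝ) + 1) * x = k * x + x := by ring
    have e2 : ((k : ℝ) - 1) * x = k * x - x := by ring
    rw [e1, e2, Real.cos_add, Real.cos_sub]
    ring
  rw [intervalIntegral.integral_eq_sub_of_hasDerivAt (fun x _ => d x)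
    ((by fun_prop : Continuous fun s : ℝ => Real.cos s * Real.cos (k * s)).intervalIntegrable _ _)]
  have s1 : Real.sin (((k : ℝ) + 1) * Real.pi) = 0 := by
    have := Real.sin_nat_mul_pi (k + 1)
    push_cast at this
    exact this
  have s2 : Real.sin (((k : ℝ) - 1) * Real.pi) = 0 := by
    have := Real.sin_int_mul_pi ((k : ℤ) - 1)
    push_cast at this
    exact this
  simp [s1, s2, mul_neg, Real.sin_neg]

theorem wirtinger_neumann_mean {G : ℝ → ℝ} {p m : ℝ}
    (hG : MemLp G 2 (volume.restrict (Ioo p (p + 2 * Real.pi))))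
    (hm : ∫ θ in p..(p + 2 * Real.pi), ((∫ t in p..θ, G t) - m) = 0) :
    ∫ θ in p..(p + 2 * Real.pi), ((∫ t in p..θ, G t) - m) ^ 2 ≤
      4 * ∫ θ in p..(p + 2 * Real.pi), G θ ^ 2 ∧
    (∫ θ in p..(p + 2 * Real.pi), ((∫ t in p..θ, G t) - m) ^ 2 =
      4 * ∫ θ in p..(p + 2 * Real.pi), G θ ^ 2 →
      ∃ A : ℝ, ∀ θ ∈ Icc p (p + 2 * Real.pi), ∫ t in p..θ, G t = m + A * Real.cos ((θ - p) / 2)) := by
  refine ⟨wirteq_ineq hG hm, fun heq => ?_⟩
  have hpi := Real.pi_pos
  have hcF := wirteq_cont hG
  set F : ℝ → ℝ := fun θ => ∫ t in p..θ, G t with hF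
  set W : ℝ → ℝ := fun s => F (p + 2 * |s|) - m with hW
  have hWc : ContinuousOn W (Icc (-Real.pi) Real.pi) := by
    refine ContinuousOn.sub ?_ continuousOn_const
    refine hcF.comp (by fun_prop) ?_
    intro s hs
    have h1 : |s| ≤ Real.pi := abs_le.2 ⟨hs.1, hs.2⟩
    have h2 := abs_nonneg s
    exact ⟨by linarith, by linarith⟩
  have hWe : ∀ s, W (-s) = W s := by intro s; rw [hW]; simp
  have hIk : ∀ k : ℕ, ∫ s in (-Real.pi)..Real.pi, W s * Real.cos (k * s) =
      ∫ θ in p..(p + 2 * Real.pi), (F θ - m) * Real.cos (k * ((θ - p) / 2)) := by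
    intro k
    have h0 := wirteq_even (g := fun s => W s * Real.cos (k * s)) (hWc.mul (by fun_prop))
      (by intro x; simp only [hWe, mul_neg, Real.cos_neg])
    rw [h0]
    have h1 := intervalIntegral.integral_comp_add_mul
      (f := fun θ => (F θ - m) * Real.cos (k * ((θ - p) / 2))) (a := 0) (b := Real.pi)
      (c := 2) two_ne_zero p
    have h2 : ∫ s in (0 : ℝ)..Real.pi, W s * Real.cos (k * s) =
        ∫ s in (0 : ℝ)..Real.pi, (F (p + 2 * s) - m) * Real.cos (k * ((p + 2 * s - p) / 2)) := by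
      refine intervalIntegral.integral_congr fun s hs => ?_
      rw [uIcc_of_le hpi.le] at hs
      have e : (p + 2 * s - p) / 2 = s := by ring
      simp only [hW, abs_of_nonneg hs.1, e]
    rw [h2, h1, smul_eq_mul, mul_zero, add_zero]
    ring
  set a : ℝ := (∫ s in (-Real.pi)..Real.pi, W s * Real.cos s) / Real.pi with ha
  set f : ℝ → ℝ := fun s => W s - a * Real.cos s with hf
  have hfc : ContinuousOn f (Icc (-Real.pi) Real.pi) := hWc.sub (by fun_prop)
  have hfe : ∀ s, f (-s) = f s := by
    intro s; rw [hf]; simp only [hWe, Real.cos_neg]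
  have hle : -Real.pi ≤ Real.pi := by linarith
  have hfL : MemLp f 2 (volume.restrict (Ioo (-Real.pi) Real.pi)) := by
    obtain ⟨C, hC⟩ := isCompact_Icc.exists_bound_of_continuousOn hfc
    refine MemLp.of_bound ((hfc.mono Ioo_subset_Icc_self).aestronglyMeasurable measurableSet_Ioo)
      C ?_
    exact (ae_restrict_iff' measurableSet_Ioo).2
      (Eventually.of_forall fun x hx => hC x (Ioo_subset_Icc_self hx))
  have hconv : ∀ g : ℝ → ℝ, ∫ θ in Ioo (-Real.pi) Real.pi, g θ = ∫ θ in (-Real.pi)..Real.pi, g θ := by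
    intro g
    rw [intervalIntegral.integral_of_le hle, integral_Ioc_eq_integral_Ioo]
  have hzero : ∀ᵐ θ ∂(volume.restrict (Ioo (-Real.pi) Real.pi)), f θ = 0 := by
    refine fourier_unique hfL fun k => ⟨?_, ?_⟩
    · rw [hconv]
      have e1 : ∀ s, f s * Real.cos (k * s) = W s * Real.cos (k * s) -
          a * (Real.cos s * Real.cos (k * s)) := by
        intro s; rw [hf]; ring
      have i1 : IntervalIntegrable (fun s => W s * Real.cos (k * s)) volume (-Real.pi) Real.pi := by
        apply ContinuousOn.intervalIntegrable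
        rw [uIcc_of_le hle]
        exact hWc.mul (by fun_prop)
      have i2 : IntervalIntegrable (fun s => a * (Real.cos s * Real.cos (k * s))) volume
          (-Real.pi) Real.pi :=
        (by fun_prop : Continuous fun s : ℝ => a * (Real.cos s * Real.cos (k * s))).intervalIntegrable
          _ _
      simp_rw [e1]
      rw [intervalIntegral.integral_sub i1 i2, intervalIntegral.integral_const_mul]
      rcases Nat.lt_or_ge k 2 with hk | hk
      · have hk' : k = 0 ∨ k = 1 := by omega
        rcases hk' with rfl | rfl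
        · rw [hIk, wirteq_orth (by norm_num)]
          simp only [Nat.cast_zero, zero_mul, Real.cos_zero, mul_one, mul_zero, sub_zero]
          exact hm
        · have h1 : ∫ s in (-Real.pi)..Real.pi, Real.cos s * Real.cos ((1 : ℕ) * s) = Real.pi := by
            have e2 : ∀ s : ℝ, Real.cos s * Real.cos ((1 : ℕ) * s) = Real.cos s ^ 2 := by
              intro s; push_cast; rw [one_mul]; ring
            simp_rw [e2]
            rw [integral_cos_sq]
            simp
          rw [h1]
          have e3 : ∀ s : ℝ, W s * Real.cos ((1 : ℕ) * s) = W s * Real.cos s := by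
            intro s; push_cast; rw [one_mul]
          simp_rw [e3]
          rw [ha, div_mul_cancel₀ _ hpi.ne', sub_self]
      · rw [hIk, wirteq_coeff hG hm heq hk, wirteq_orth (by omega), mul_zero, sub_zero]
    · rw [hconv]
      exact wirteq_odd (by intro x; rw [hfe, mul_neg, Real.sin_neg, mul_neg])
  have hae : f =ᵐ[volume.restrict (Icc (-Real.pi) Real.pi)] fun _ => (0 : ℝ) := by
    rw [← restrict_Ioo_eq_restrict_Icc]
    exact hzero
  have hEq := MeasureTheory.Measure.eqOn_Icc_of_ae_eq volume (by linarith : -Real.pi ≠ Real.pi) hae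
    hfc continuousOn_const
  refine ⟨a, fun θ hθ => ?_⟩
  have hs : (θ - p) / 2 ∈ Icc (-Real.pi) Real.pi := by
    constructor
    · have := hθ.1; linarith
    · have := hθ.2; linarith
  have h1 := hEq hs
  have h2 : |(θ - p) / 2| = (θ - p) / 2 := abs_of_nonneg (by have := hθ.1; linarith)
  have h3 : p + 2 * ((θ - p) / 2) = θ := by ring
  simp only [hf, hW, h2, h3] at h1
  change F θ = _
  linarith

end Pool.Agent.MP099f24
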