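import Pool.Agent.Lib.MP_099f24_an.SD.Polar
import Pool.Agent.Lib.MP_099f24_an.SD.Slice
import Pool.Agent.Lib.MP_099f24_an.SD.Flux
import Pool.Agent.Lib.MP_099f24_an.SD.Wirteq

/-!
# MP_099f24_an SD, module FLUXEQ: equality case of the flux inequality
-/

namespace Pool.Agent.MP099f24

open MeasureTheory Filter Topology Set Metric
open scoped ENNReal ContDiff

/-- A periodic property which holds a.e. on one period holds a.e. -/
theorem fluxeq_ae_periodic {P : ℝ → Prop} (hP : ∀ θ, P (θ + 2 * Real.pi) ↔ P θ) {p : ℝ}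
    (h : ∀ᵐ θ ∂(volume.restrict (Ioo p (p + 2 * Real.pi))), P θ) : ∀ᵐ θ, P θ := by
  have hPn : ∀ (n : ℤ) (θ : ℝ), P (θ + n * (2 * Real.pi)) ↔ P θ := by
    intro n
    induction n using Int.induction_on with
    | zero => intro θ; simp
    | succ n ih =>
      intro θ
      rw [← ih θ, ← hP (θ + ((n : ℤ) : ℝ) * (2 * Real.pi))]
      push_cast
      ring_nf
    | pred n ih =>
      intro θ
      rw [← ih θ, ← hP (θ + ((-(n : ℤ) - 1 : ℤ) : ℝ) * (2 * Real.pi))]
      push_cast
      ring_nf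
  have h1 : volume ({θ | ¬ P θ} ∩ Ioo p (p + 2 * Real.pi)) = 0 := by
    rw [ae_restrict_iff' measurableSet_Ioo, ae_iff] at h
    refine measure_mono_null ?_ h
    rintro θ ⟨h2, h3⟩
    simp only [Set.mem_ofPred_eq, Classical.not_imp]
    exact ⟨h3, h2⟩
  have h2 : volume ({θ | ¬ P θ} ∩ Ico p (p + 2 * Real.pi)) = 0 := by
    refine measure_mono_null (t := ({θ | ¬ P θ} ∩ Ioo p (p + 2 * Real.pi)) ∪ {p}) ?_ ?_
    · rintro θ ⟨h3, h4⟩
      rcases h4.1.eq_or_lt with h5 | h5
      · right; exact h5.symm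
      · left; exact ⟨h3, h5, h4.2⟩
    · rw [measure_union_null_iff]
      exact ⟨h1, by simp⟩
  rw [ae_iff]
  have h3 : {θ | ¬ P θ} ⊆ ⋃ n : ℤ, (fun θ : ℝ => θ + n * (2 * Real.pi)) ⁻¹'
      ({θ | ¬ P θ} ∩ Ico p (p + 2 * Real.pi)) := by
    intro θ hθ
    have hpos : (0 : ℝ) < 2 * Real.pi := by positivity
    obtain ⟨n, hn, -⟩ := existsUnique_add_zsmul_mem_Ico hpos θ p
    rw [mem_iUnion]
    refine ⟨n, ?_, ?_⟩
    · show ¬ P (θ + n * (2 * Real.pi))
      rw [hPn]
      exact hθ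
    · simpa [zsmul_eq_mul] using hn
  refine measure_mono_null h3 ?_
  rw [measure_iUnion_null_iff]
  intro n
  rw [measure_preimage_add_right]
  exact h2

theorem fluxeq_cos (p A : ℝ) :
    ∫ θ in p..(p + 2 * Real.pi), (A * Real.cos ((θ - p) / 2)) ^ 2 = A ^ 2 * Real.pi := by
  have h1 : ∀ θ : ℝ, HasDerivAt (fun θ => A ^ 2 * (θ / 2 + Real.sin (θ - p) / 2))
      ((A * Real.cos ((θ - p) / 2)) ^ 2) θ := by
    intro θ
    have h2 : HasDerivAt (fun θ : ℝ => Real.sin (θ - p)) (Real.cos (θ - p) * 1) θ :=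
      ((hasDerivAt_id' θ).sub_const p).sin
    have h3 := (((hasDerivAt_id' θ).div_const 2).add (h2.div_const 2)).const_mul (A ^ 2)
    refine h3.congr_deriv ?_
    have h4 : Real.cos (θ - p) = 2 * Real.cos ((θ - p) / 2) ^ 2 - 1 := by
      rw [← Real.cos_two_mul]
      congr 1
      ring
    rw [h4]
    ring
  rw [intervalIntegral.integral_eq_sub_of_hasDerivAt (fun θ _ => h1 θ)
    (Continuous.intervalIntegrable (by fun_prop) _ _)]
  have h5 : p + 2 * Real.pi - p = 2 * Real.pi := by ring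
  rw [h5, sub_self, Real.sin_two_pi, Real.sin_zero]
  ring

theorem flux_equality {Ω : Set ℂ} {u : ℂ → ℝ} {g j : ℂ → ℂ} (h : MSMin Ω u g j) {a : ℂ} {R : ℝ}
    (hR : ball a R ⊆ Ω) :
    ∀ᵐ s ∂(volume.restrict (Ioo 0 R)), ∀ p : ℝ, jumpSet Ω u ∩ sphere a s ⊆ {pc a s p} →
      Dq g a s = s → Tq g a s + Vq g a s = 1 →
      ∃ m A : ℝ, A ^ 2 = 2 * s / Real.pi ∧
        (∀ᵐ θ ∂(volume.restrict (Ioo p (p + 2 * Real.pi))),
          u (pc a s θ) = m + A * Real.cos ((θ - p) / 2)) ∧
        ∀ᵐ θ ∂(volume.restrict (Ioo p (p + 2 * Real.pi))),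
          inner ℝ (g (pc a s θ)) (er θ) = (u (pc a s θ) - m) / (2 * s) := by
  have hfin : ∀ s < R, IntegrableOn (fun x => ‖g x‖ ^ 2) (ball a s) := fun s hs =>
    (h.fin_g (closedBall a s) (isCompact_closedBall a s)
      ((closedBall_subset_ball hs).trans hR)).mono_set ball_subset_closedBall
  filter_upwards [flux_bdd h hR, slice_arc h.toSBVData hR, (Dq_deriv h.meas_g hfin).1,
    ae_restrict_mem measurableSet_Ioo] with s hbdd harc hder hs p hp hD hTV
  have hs0 : 0 < s := hs.1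
  have hpi : 0 < Real.pi := Real.pi_pos
  have h2pi : (0 : ℝ) < 2 * Real.pi := by positivity
  -- periodicity
  have her : ∀ θ, er (θ + 2 * Real.pi) = er θ := fun θ => by
    have := slice_er_periodic θ 1
    simpa using this
  have hpcp : ∀ θ, pc a s (θ + 2 * Real.pi) = pc a s θ := fun θ => by rw [pc, pc, her]
  have hGp : ∀ θ, Gq g a s (θ + 2 * Real.pi) = Gq g a s θ := fun θ => by
    have := slice_Gq_periodic g a s θ 1
    simpa using this
  set N : ℝ → ℝ := fun θ => inner ℝ (g (pc a s θ)) (er θ) with hN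
  set G : ℝ → ℝ := fun θ => Gq g a s θ with hG
  have hNp : ∀ θ, N (θ + 2 * Real.pi) = N θ := fun θ => by
    simp only [hN]
    rw [hpcp, her]
  have hswap : ∀ F : ℝ → ℝ, (∀ θ, F (θ + 2 * Real.pi) = F θ) →
      ∫ θ in Ioo (-Real.pi) Real.pi, F θ = ∫ θ in p..(p + 2 * Real.pi), F θ := by
    intro F hF
    rw [← (show Function.Periodic F (2 * Real.pi) from hF).intervalIntegral_add_eq (-Real.pi) p,
      show -Real.pi + 2 * Real.pi = Real.pi by ring,
      intervalIntegral.integral_of_le (by linarith), integral_Ioc_eq_integral_Ioo]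
  -- no jump point on the arc
  have hno : ∀ θ ∈ Ioo p (p + 2 * Real.pi), pc a s θ ∉ jumpSet Ω u := by
    intro θ hθ hJ
    have h1 : pc a s θ ∈ sphere a s := by
      rw [mem_sphere, polar_dist a hs0]
    have h2 : pc a s θ = pc a s p := hp ⟨hJ, h1⟩
    rw [pc, pc, add_right_inj, mul_right_inj' (by exact_mod_cast hs0.ne'), er, er,
      Complex.exp_eq_exp_iff_exists_int] at h2
    obtain ⟨n, hn⟩ := h2
    have h3 : (θ : ℂ) = p + n * (2 * Real.pi) := by
      have := congrArg (fun z => z * (-Complex.I)) hn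
      have hI : Complex.I * Complex.I = -1 := Complex.I_mul_I
      linear_combination this + ((θ : ℂ) - p - n * (2 * Real.pi)) * hI
    have h4 : θ = p + n * (2 * Real.pi) := by exact_mod_cast h3
    have h5 : 0 < (n : ℝ) * (2 * Real.pi) := by linarith [hθ.1]
    have h6 : (n : ℝ) * (2 * Real.pi) < 1 * (2 * Real.pi) := by linarith [hθ.2]
    have h7 : (0 : ℝ) < n := by
      by_contra hc
      exact absurd h5 (not_lt.2 (mul_nonpos_of_nonpos_of_nonneg (not_lt.1 hc) h2pi.le))
    have h8 : (n : ℝ) < 1 := lt_of_mul_lt_mul_right h6 h2pi.le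
    have h9 : 0 < n := by exact_mod_cast h7
    have h10 : n < 1 := by exact_mod_cast h8
    omega
  obtain ⟨c, hc⟩ := harc p (p + 2 * Real.pi) (by linarith) hno
  -- integrability
  have hsq : IntervalIntegrable (fun θ => ‖g (pc a s θ)‖ ^ 2) volume p (p + 2 * Real.pi) := by
    have h1 : IntervalIntegrable (fun θ => ‖g (pc a s θ)‖ ^ 2) volume (-Real.pi)
        (-Real.pi + 2 * Real.pi) := by
      rw [show -Real.pi + 2 * Real.pi = Real.pi by ring,
        intervalIntegrable_iff_integrableOn_Ioo_of_le (by linarith)]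
      exact hder.2
    exact Function.Periodic.intervalIntegrable (f := fun θ => ‖g (pc a s θ)‖ ^ 2)
      (fun θ => by beta_reduce; rw [hpcp]) h2pi.ne' h1 _ _
  have hsq' : IntegrableOn (fun θ => ‖g (pc a s θ)‖ ^ 2) (Ioo p (p + 2 * Real.pi)) :=
    (intervalIntegrable_iff_integrableOn_Ioo_of_le (by linarith)).1 hsq
  have hgm : Measurable (fun θ => g (pc a s θ)) := h.meas_g.comp
    ((polar_pc_cont a).comp (continuous_const.prodMk continuous_id)).measurable
  have hNm : Measurable N := hgm.inner polar_er_cont.measurable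
  have hGm : Measurable G := by
    simp only [hG]
    unfold Gq
    exact (hgm.inner polar_et_cont.measurable).const_mul s
  set J : Set ℝ := Ioo p (p + 2 * Real.pi) with hJ
  have hNL : MemLp N 2 (volume.restrict J) := by
    rw [memLp_two_iff_integrable_sq hNm.aestronglyMeasurable]
    refine Integrable.mono' hsq' (hNm.pow_const 2).aestronglyMeasurable
      (Eventually.of_forall fun θ => ?_)
    rw [Real.norm_eq_abs, abs_of_nonneg (sq_nonneg _), ← polar_pyth (g (pc a s θ)) θ]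
    simp only [hN]
    linarith [sq_nonneg (inner ℝ (g (pc a s θ)) (et θ))]
  have hGL : MemLp G 2 (volume.restrict J) := by
    rw [memLp_two_iff_integrable_sq hGm.aestronglyMeasurable]
    refine Integrable.mono' (hsq'.const_mul (s ^ 2)) (hGm.pow_const 2).aestronglyMeasurable
      (Eventually.of_forall fun θ => ?_)
    rw [Real.norm_eq_abs, abs_of_nonneg (sq_nonneg _), ← polar_pyth (g (pc a s θ)) θ]
    simp only [hG, Gq]
    nlinarith [sq_nonneg (inner ℝ (g (pc a s θ)) (er θ)), sq_nonneg s,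
      mul_nonneg (sq_nonneg s) (sq_nonneg (inner ℝ (g (pc a s θ)) (er θ)))]
  have hGi : IntegrableOn G J := hGL.integrable (by norm_num)
  have hGii : IntervalIntegrable G volume p (p + 2 * Real.pi) :=
    (intervalIntegrable_iff_integrableOn_Ioo_of_le (by linarith)).2 hGi
  set F : ℝ → ℝ := fun θ => ∫ t in p..θ, G t with hF
  have hFc : ContinuousOn F (Icc p (p + 2 * Real.pi)) := by
    have h1 := intervalIntegral.continuousOn_primitive_interval' (μ := volume) (f := G) hGii
      (left_mem_uIcc)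
    rwa [uIcc_of_le (by linarith)] at h1
  have hJI : J ⊆ Icc p (p + 2 * Real.pi) := Ioo_subset_Icc_self
  have hFi : IntegrableOn F J := (hFc.integrableOn_Icc).mono_set hJI
  have htoJ : ∀ f : ℝ → ℝ, ∫ θ in p..(p + 2 * Real.pi), f θ = ∫ θ in J, f θ := fun f => by
    rw [intervalIntegral.integral_of_le (by linarith), integral_Ioc_eq_integral_Ioo]
  have hvolJ : (volume.restrict J).real univ = 2 * Real.pi := by
    rw [measureReal_def, Measure.restrict_apply_univ, hJ, Real.volume_Ioo,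
      ENNReal.toReal_ofReal (by linarith)]
    ring
  -- the mean
  set m₀ : ℝ := (∫ θ in J, F θ) / (2 * Real.pi) with hm₀
  set w : ℝ → ℝ := fun θ => F θ - m₀ with hw
  have hcst : ∀ x : ℝ, IntegrableOn (fun _ : ℝ => x) J := fun x =>
    integrableOn_const (by rw [hJ, Real.volume_Ioo]; exact ENNReal.ofReal_ne_top) (by simp)
  have hwi : IntegrableOn w J := hFi.sub (hcst m₀)
  have hw0 : ∫ θ in J, w θ = 0 := by
    simp only [hw]
    rw [integral_sub hFi (hcst m₀), setIntegral_const, measureReal_def,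
      ← Measure.restrict_apply_univ J, ← measureReal_def, hvolJ, smul_eq_mul, hm₀]
    field_simp
    ring
  have hwc : ContinuousOn w (Icc p (p + 2 * Real.pi)) := hFc.sub continuousOn_const
  obtain ⟨W, hW⟩ := isCompact_Icc.exists_bound_of_continuousOn hwc
  have hwL : MemLp w 2 (volume.restrict J) := by
    rw [memLp_two_iff_integrable_sq hwi.aestronglyMeasurable]
    exact ((hwc.pow 2).integrableOn_Icc).mono_set hJI
  have hwir := wirtinger_neumann_mean (G := G) (p := p) (m := m₀) hGL (by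
    rw [htoJ]
    exact hw0)
  rw [htoJ, htoJ] at hwir
  change (∫ θ in J, w θ ^ 2 ≤ 4 * ∫ θ in J, G θ ^ 2) ∧
    (∫ θ in J, w θ ^ 2 = 4 * ∫ θ in J, G θ ^ 2 → ∃ A : ℝ, ∀ θ ∈ Icc p (p + 2 * Real.pi),
      F θ = m₀ + A * Real.cos ((θ - p) / 2)) at hwir
  -- T and V
  have hT : ∫ θ in J, G θ ^ 2 = s * Tq g a s := by
    rw [← htoJ, ← hswap (fun θ => G θ ^ 2) (fun θ => by simp only [hG]; rw [hGp]), Tq,
      ← mul_assoc, ← integral_const_mul]
    apply integral_congr_ae
    refine Eventually.of_forall fun θ => ?_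
    simp only [hG, Gq]
    ring
  have hV : s * ∫ θ in J, N θ ^ 2 = Vq g a s := by
    rw [← htoJ, ← hswap (fun θ => N θ ^ 2) (fun θ => by rw [hNp]), Vq]
  -- the representation of u and its bound
  have hub : ∀ᵐ θ, |u (pc a s θ)| ≤ |c| + |m₀| + W := by
    refine fluxeq_ae_periodic (P := fun θ => |u (pc a s θ)| ≤ |c| + |m₀| + W)
      (fun θ => by rw [hpcp]) (p := p) ?_
    filter_upwards [hc, ae_restrict_mem measurableSet_Ioo] with θ hθ hθ'
    rw [hθ]
    have h1 : |w θ| ≤ W := hW θ (hJI hθ')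
    have h2 : c + ∫ t in p..θ, Gq g a s t = c + m₀ + w θ := by
      simp only [hw, hF, hG]
      ring
    rw [h2]
    exact (abs_add_le _ _).trans (add_le_add (abs_add_le _ _) h1)
  have hDf := hbdd.2 _ (ae_restrict_of_ae hub)
  have hN0 : ∫ θ in J, N θ = 0 := by
    rw [← htoJ, ← hswap N hNp]
    exact hbdd.1
  have hNi : IntegrableOn N J := hNL.integrable (by norm_num)
  have hwN : IntegrableOn (fun θ => w θ * N θ) J := hwL.integrable_mul hNL
  have h1 : ∫ θ in J, w θ * N θ = 1 := by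
    have e1 : ∫ θ in Ioo (-Real.pi) Real.pi, u (pc a s θ) * inner ℝ (g (pc a s θ)) (er θ) =
        ∫ θ in J, u (pc a s θ) * N θ := by
      rw [← htoJ, ← hswap (fun θ => u (pc a s θ) * N θ) (fun θ => by rw [hNp, hpcp])]
    have e2 : ∫ θ in J, u (pc a s θ) * N θ = ∫ θ in J, ((c + m₀) * N θ + w θ * N θ) := by
      apply integral_congr_ae
      filter_upwards [hc] with θ hθ
      rw [hθ]
      simp only [hw, hF, hG]
      ring
    rw [hD, e1, e2, integral_add (hNi.const_mul _) hwN, integral_const_mul, hN0, mul_zero,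
      zero_add] at hDf
    have h2 : s * 1 = s * ∫ θ in J, w θ * N θ := by rw [mul_one]; exact hDf
    exact (mul_left_cancel₀ hs0.ne' h2).symm
  -- the square
  have hw2 : IntegrableOn (fun θ => w θ ^ 2) J :=
    (memLp_two_iff_integrable_sq hwi.aestronglyMeasurable).1 hwL
  have hN2 : IntegrableOn (fun θ => N θ ^ 2) J :=
    (memLp_two_iff_integrable_sq hNm.aestronglyMeasurable).1 hNL
  have hsqi : IntegrableOn (fun θ => (N θ - w θ / (2 * s)) ^ 2) J := by
    have e : (fun θ => (N θ - w θ / (2 * s)) ^ 2) =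
        fun θ => N θ ^ 2 - (1 / s) * (w θ * N θ) + (1 / (4 * s ^ 2)) * w θ ^ 2 := by
      funext θ
      field_simp
      ring
    rw [e]
    exact (hN2.sub (hwN.const_mul _)).add (hw2.const_mul _)
  have hexp : ∫ θ in J, (N θ - w θ / (2 * s)) ^ 2 =
      (∫ θ in J, N θ ^ 2) - 1 / s + (1 / (4 * s ^ 2)) * ∫ θ in J, w θ ^ 2 := by
    have e : (fun θ => (N θ - w θ / (2 * s)) ^ 2) =
        fun θ => (N θ ^ 2 - (1 / s) * (w θ * N θ)) + (1 / (4 * s ^ 2)) * w θ ^ 2 := by
      funext θ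
      field_simp
      ring
    have i1 : IntegrableOn (fun θ => N θ ^ 2 - (1 / s) * (w θ * N θ)) J :=
      hN2.sub (hwN.const_mul _)
    have i2 : IntegrableOn (fun θ => (1 / s) * (w θ * N θ)) J := hwN.const_mul _
    have i3 : IntegrableOn (fun θ => (1 / (4 * s ^ 2)) * w θ ^ 2) J := hw2.const_mul _
    rw [e, integral_add i1 i3, integral_sub hN2 i2, integral_const_mul, integral_const_mul, h1,
      mul_one]
  have hnn : 0 ≤ ∫ θ in J, (N θ - w θ / (2 * s)) ^ 2 :=
    integral_nonneg fun θ => sq_nonneg _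
  have hVe : ∫ θ in J, N θ ^ 2 = Vq g a s / s := by
    rw [← hV]
    field_simp
  have hX1 : ∫ θ in J, w θ ^ 2 ≤ 4 * (s * Tq g a s) := by
    rw [← hT]
    exact hwir.1
  have hX2 : 4 * (s * Tq g a s) ≤ ∫ θ in J, w θ ^ 2 := by
    rw [hexp, hVe] at hnn
    have e1 : Vq g a s / s - 1 / s + 1 / (4 * s ^ 2) * ∫ θ in J, w θ ^ 2 =
        ((∫ θ in J, w θ ^ 2) - 4 * s * (1 - Vq g a s)) / (4 * s ^ 2) := by
      field_simp
      ring
    rw [e1] at hnn
    have h4 : 0 ≤ (∫ θ in J, w θ ^ 2) - 4 * s * (1 - Vq g a s) := by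
      by_contra hcon
      have : ((∫ θ in J, w θ ^ 2) - 4 * s * (1 - Vq g a s)) / (4 * s ^ 2) < 0 :=
        div_neg_of_neg_of_pos (not_le.1 hcon) (by positivity)
      linarith
    have h5 : 1 - Vq g a s = Tq g a s := by linarith
    rw [h5] at h4
    linarith
  have hX : ∫ θ in J, w θ ^ 2 = 4 * (s * Tq g a s) := le_antisymm hX1 hX2
  have hzero : ∫ θ in J, (N θ - w θ / (2 * s)) ^ 2 = 0 := by
    rw [hexp, hVe, hX]
    have h5 : Vq g a s = 1 - Tq g a s := by linarith
    rw [h5]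
    field_simp
    ring
  have hae : ∀ᵐ θ ∂(volume.restrict J), N θ = w θ / (2 * s) := by
    have h2 := (integral_eq_zero_iff_of_nonneg (fun θ => sq_nonneg (N θ - w θ / (2 * s)))
      hsqi).1 hzero
    filter_upwards [h2] with θ hθ
    have h3 : (N θ - w θ / (2 * s)) ^ 2 = 0 := hθ
    exact sub_eq_zero.1 (pow_eq_zero_iff (by norm_num) |>.1 h3)
  obtain ⟨A, hA⟩ := hwir.2 (by rw [hX, hT])
  have hX3 : ∫ θ in J, w θ ^ 2 = 2 * s := by
    have e1 : ∫ θ in J, w θ * N θ = ∫ θ in J, (1 / (2 * s)) * w θ ^ 2 := by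
      apply integral_congr_ae
      filter_upwards [hae] with θ hθ
      rw [hθ]
      ring
    rw [h1, integral_const_mul] at e1
    field_simp at e1
    linarith
  have hA2 : A ^ 2 * Real.pi = 2 * s := by
    rw [← fluxeq_cos p A, htoJ, ← hX3]
    apply setIntegral_congr_fun measurableSet_Ioo
    intro θ hθ
    have h2 := hA θ (hJI hθ)
    simp only [hw]
    rw [h2]
    ring
  refine ⟨c + m₀, A, ?_, ?_, ?_⟩
  · rw [← hA2]
    field_simp
  · filter_upwards [hc, ae_restrict_mem measurableSet_Ioo] with θ hθ hθ'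
    have h2 : ∫ t in p..θ, Gq g a s t = m₀ + A * Real.cos ((θ - p) / 2) := hA θ (hJI hθ')
    rw [hθ, h2]
    ring
  · filter_upwards [hc, hae] with θ hθ hθ2
    have h2 : inner ℝ (g (pc a s θ)) (er θ) = w θ / (2 * s) := hθ2
    rw [h2, hθ]
    simp only [hw, hF, hG]
    congr 1
    ring

end Pool.Agent.MP099f24
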