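import Pool.Agent.Lib.MP_099f24_an.SD.Defs
import Pool.Agent.Lib.MP_099f24_an.SD.Polar
import Pool.Agent.Lib.MP_099f24_an.SD.JRep
import Pool.Agent.Lib.MP_099f24_an.JumpBasic
import Pool.Agent.Lib.MP_099f24_an.Curve
import Pool.Agent.Lib.MP_099f24_an.SD.Fvar

namespace Pool.Agent.MP099f24

open MeasureTheory Filter Topology Set Metric
open scoped ENNReal ContDiff

/-- open sector -/
def riglineSec (a : ℂ) (R p q : ℝ) : Set ℂ :=
  {x | ∃ r θ : ℝ, 0 < r ∧ r < R ∧ p < θ ∧ θ < q ∧ x = pc a r θ}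

lemma rigline_er_norm (θ : ℝ) : ‖er θ‖ = 1 := by rw [er, Complex.norm_exp_ofReal_mul_I]

lemma rigline_er_add (x y : ℝ) : er (x + y) = er x * er y := by
  rw [er, er, er, ← Complex.exp_add]
  push_cast
  ring_nf

lemma rigline_er_conj (x : ℝ) : (starRingEnd ℂ) (er x) = er (-x) := by
  rw [er, er, ← Complex.exp_conj]
  simp

lemma rigline_er_re (x : ℝ) : (er x).re = Real.cos x := by
  simp [er, Complex.exp_ofReal_mul_I_re]

lemma rigline_er_im (x : ℝ) : (er x).im = Real.sin x := by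
  simp [er, Complex.exp_ofReal_mul_I_im]

lemma rigline_er_eq {x y : ℝ} (h : er x = er y) (hxy : |x - y| < 2 * Real.pi) : x = y := by
  have hpi := Real.pi_pos
  rw [er, er, Complex.exp_eq_exp_iff_exists_int] at h
  obtain ⟨n, hn⟩ := h
  have h1 : x = y + n * (2 * Real.pi) := by
    have h2 := congrArg Complex.im hn
    simpa using h2
  have h3 : |(n : ℝ) * (2 * Real.pi)| < 2 * Real.pi := by
    rw [h1] at hxy
    simpa using hxy
  rw [abs_mul, abs_of_pos (by positivity : 0 < 2 * Real.pi)] at h3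
  have h4 : |(n : ℝ)| < 1 := by
    by_contra hcon
    push Not at hcon
    nlinarith
  have h5 : n = 0 := by
    have : |n| < 1 := by exact_mod_cast h4
    exact Int.abs_lt_one_iff.1 this
  rw [h1, h5]; simp

lemma rigline_pc_eq {a : ℂ} {r r' x y : ℝ} (hr : 0 < r) (hr' : 0 < r') (h : pc a r x = pc a r' y)
    (hxy : |x - y| < 2 * Real.pi) : r = r' ∧ x = y := by
  have h1 : r = r' := by
    rw [← polar_dist a hr x, h, polar_dist a hr' y]
  subst h1
  refine ⟨rfl, rigline_er_eq ?_ hxy⟩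
  rw [pc, pc] at h
  have h2 := add_left_cancel h
  exact mul_left_cancel₀ (by exact_mod_cast hr.ne') h2

lemma rigline_exists (a : ℂ) (p : ℝ) {x : ℂ} :
    ∃ θ ∈ Ico p (p + 2 * Real.pi), x = pc a (dist x a) θ := by
  have hpos : (0 : ℝ) < 2 * Real.pi := by positivity
  refine ⟨toIcoMod hpos p (x - a).arg, toIcoMod_mem_Ico hpos p _, ?_⟩
  have h1 := polar_sub_eq x a
  have h2 : er (toIcoMod hpos p (x - a).arg) = er (x - a).arg := by
    have h3 := toIcoMod_add_toIcoDiv_zsmul hpos p (x - a).arg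
    rw [er, er, Complex.exp_eq_exp_iff_exists_int]
    refine ⟨-(toIcoDiv hpos p (x - a).arg), ?_⟩
    have h4 : toIcoMod hpos p (x - a).arg = (x - a).arg -
        (toIcoDiv hpos p (x - a).arg : ℝ) * (2 * Real.pi) := by
      have h5 : toIcoMod hpos p (x - a).arg +
        (toIcoDiv hpos p (x - a).arg : ℝ) * (2 * Real.pi) = (x - a).arg := by
        simp
      linarith
    rw [h4]
    push_cast
    ring
  rw [pc, h2, ← h1]
  ring

lemma rigline_sec_open (a : ℂ) {R p q : ℝ} (hpq : q ≤ p + 2 * Real.pi) :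
    IsOpen (riglineSec a R p q) := by
  have hpi := Real.pi_pos
  set m := (p + q) / 2 with hm
  set t := (q - p) / 2 with ht
  have htpi : t ≤ Real.pi := by rw [ht]; linarith
  have h1 : riglineSec a R p q = ball a R ∩ (fun x => (x - a) * (starRingEnd ℂ) (er m)) ⁻¹'
      (Complex.slitPlane ∩ Complex.arg ⁻¹' (Ioo (-t) t)) := by
    ext x
    constructor
    · rintro ⟨r, θ, hr0, hrR, hpθ, hθq, rfl⟩
      refine ⟨by rw [mem_ball, polar_dist a hr0]; exact hrR, ?_⟩
      have hθm : θ - m ∈ Ioo (-t) t := ⟨by rw [hm, ht]; linarith, by rw [hm, ht]; linarith⟩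
      have h2 : (pc a r θ - a) * (starRingEnd ℂ) (er m) = pc a r (θ - m) - a := by
        rw [pc, pc, add_sub_cancel_left, add_sub_cancel_left, rigline_er_conj, mul_assoc,
          ← rigline_er_add]
        rfl
      have h3 : (pc a r (θ - m) - a).arg = θ - m :=
        polar_arg_pc a hr0 ⟨by linarith [hθm.1], by linarith [hθm.2]⟩
      simp only [mem_preimage, mem_inter_iff]
      rw [h2]
      refine ⟨?_, by rw [h3]; exact hθm⟩
      rw [Complex.mem_slitPlane_iff_arg, h3]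
      refine ⟨by linarith [hθm.2], ?_⟩
      intro h0
      have h4 := polar_dist a hr0 (θ - m)
      rw [Complex.dist_eq, h0, norm_zero] at h4
      linarith
    · rintro ⟨hxb, hx1, hx2⟩
      simp only [mem_preimage] at hx2
      set z := (x - a) * (starRingEnd ℂ) (er m) with hz
      have hzn : ‖z‖ = ‖x - a‖ := by rw [hz, norm_mul, Complex.norm_conj, rigline_er_norm, mul_one]
      have hz0 : z ≠ 0 := Complex.slitPlane_ne_zero hx1
      have hpos : 0 < ‖x - a‖ := by rw [← hzn]; exact norm_pos_iff.2 hz0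
      refine ⟨‖x - a‖, z.arg + m, hpos, ?_, ?_, ?_, ?_⟩
      · rw [← Complex.dist_eq]; exact hxb
      · have := hx2.1; rw [hm]; rw [ht] at this; linarith
      · have := hx2.2; rw [hm]; rw [ht] at this; linarith
      · have h5 : (‖z‖ : ℂ) * er z.arg = z := by
          rw [er]; exact Complex.norm_mul_exp_arg_mul_I z
        have h6 : er m * (starRingEnd ℂ) (er m) = 1 := by
          rw [rigline_er_conj, ← rigline_er_add, add_neg_cancel]
          simp [er]
        have h7 : x - a = z * er m := by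
          rw [hz, mul_assoc, mul_comm ((starRingEnd ℂ) (er m)), h6, mul_one]
        rw [pc, rigline_er_add, ← mul_assoc, ← hzn, h5, ← h7]
        ring
  rw [h1]
  refine isOpen_ball.inter (IsOpen.preimage (by fun_prop) ?_)
  refine ContinuousOn.isOpen_inter_preimage ?_ Complex.isOpen_slitPlane isOpen_Ioo
  intro z hz
  exact (Complex.continuousAt_arg hz).continuousWithinAt

/-- constancy on a neighbourhood gives an approximate limit -/
lemma rigline_approx {u : ℂ → ℝ} {x : ℂ} {U : Set ℂ} (hU : U ∈ 𝓝 x) {c : ℝ}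
    (h : ∀ᵐ y ∂volume.restrict U, u y = c) : IsApproxLim u x c := by
  obtain ⟨δ, hδ, hball⟩ := Metric.mem_nhds_iff.1 hU
  refine tendsto_const_nhds.congr' ?_
  filter_upwards [Ioo_mem_nhdsGT hδ] with r hr
  symm
  have h1 : ∀ᵐ y ∂volume.restrict (ball x r), u y = c :=
    ae_mono (Measure.restrict_mono ((ball_subset_ball hr.2.le).trans hball) le_rfl) h
  rw [average_congr (g := fun _ => (0 : ℝ))]
  · rw [average_eq]; simp
  · filter_upwards [h1] with y hy
    rw [hy]; simp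

/-- A periodic property which holds a.e. on one period holds a.e. -/
theorem rigline_ae_periodic {P : ℝ → Prop} (hP : ∀ θ, P (θ + 2 * Real.pi) ↔ P θ) {p : ℝ}
    (h : ∀ᵐ θ ∂(volume.restrict (Ioo p (p + 2 * Real.pi))), P θ) : ∀ᵐ θ, P θ := by
  have hPn : ∀ (n : ℤ) (θ : ℝ), P (θ + n * (2 * Real.pi)) ↔ P θ := by
    intro n
    induction n using Int.induction_on with
    | zero => intro θ; simp
    | succ n ih =>
      intro θ
      rw [← ih θ, ← hP (θ + ((n : ℤ) : ℝ) * (2 * Real.pi))]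
      push_cast
      ring_nf
    | pred n ih =>
      intro θ
      rw [← ih θ, ← hP (θ + ((-(n : ℤ) - 1 : ℤ) : ℝ) * (2 * Real.pi))]
      push_cast
      ring_nf
  have h1 : volume ({θ | ¬ P θ} ∩ Ioo p (p + 2 * Real.pi)) = 0 := by
    rw [ae_restrict_iff' measurableSet_Ioo, ae_iff] at h
    refine measure_mono_null ?_ h
    rintro θ ⟨h2, h3⟩
    simp only [Set.mem_ofPred_eq, Classical.not_imp]
    exact ⟨h3, h2⟩
  have h2 : volume ({θ | ¬ P θ} ∩ Ico p (p + 2 * Real.pi)) = 0 := by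
    refine measure_mono_null (t := ({θ | ¬ P θ} ∩ Ioo p (p + 2 * Real.pi)) ∪ {p}) ?_ ?_
    · rintro θ ⟨h3, h4⟩
      rcases h4.1.eq_or_lt with h5 | h5
      · right; exact h5.symm
      · left; exact ⟨h3, h5, h4.2⟩
    · rw [measure_union_null_iff]
      exact ⟨h1, by simp⟩
  rw [ae_iff]
  have h3 : {θ | ¬ P θ} ⊆ ⋃ n : ℤ, (fun θ : ℝ => θ + n * (2 * Real.pi)) ⁻¹'
      ({θ | ¬ P θ} ∩ Ico p (p + 2 * Real.pi)) := by
    intro θ hθ
    have hpos : (0 : ℝ) < 2 * Real.pi := by positivity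
    obtain ⟨n, hn, -⟩ := existsUnique_add_zsmul_mem_Ico hpos θ p
    rw [mem_iUnion]
    refine ⟨n, ?_, ?_⟩
    · show ¬ P (θ + n * (2 * Real.pi))
      rw [hPn]
      exact hθ
    · simpa using hn
  refine measure_mono_null h3 ?_
  rw [measure_iUnion_null_iff]
  intro n
  rw [measure_preimage_add_right]
  exact h2

lemma rigline_pc_periodic (a : ℂ) (s θ : ℝ) : pc a s (θ + 2 * Real.pi) = pc a s θ := by
  have e1 : er (θ + 2 * Real.pi) = er θ := by
    rw [er, er]
    push_cast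
    rw [add_mul, Complex.exp_add, Complex.exp_two_pi_mul_I, mul_one]
  rw [pc, pc, e1]

lemma rigline_er_periodic (θ : ℝ) : er (θ + 2 * Real.pi) = er θ := by
  rw [er, er]
  push_cast
  rw [add_mul, Complex.exp_add, Complex.exp_two_pi_mul_I, mul_one]

lemma rigline_int_periodic {f : ℝ → ℝ} (hf : ∀ θ, f (θ + 2 * Real.pi) = f θ) (p : ℝ) :
    ∫ θ in Ioo (-Real.pi) Real.pi, f θ = ∫ θ in Ioo p (p + 2 * Real.pi), f θ := by
  have hper : Function.Periodic f (2 * Real.pi) := hf
  have h1 := hper.intervalIntegral_add_eq (-Real.pi) p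
  have hpi := Real.pi_pos
  rw [intervalIntegral.integral_of_le (by linarith), intervalIntegral.integral_of_le (by linarith),
    integral_Ioc_eq_integral_Ioo, integral_Ioc_eq_integral_Ioo] at h1
  have h2 : -Real.pi + 2 * Real.pi = Real.pi := by ring
  rw [h2] at h1
  exact h1

lemma rigline_polar_conv {a : ℂ} {R : ℝ} {T : ℂ → Prop} (hT : MeasurableSet {x | T x})
    (h : ∀ᵐ s ∂(volume.restrict (Ioo 0 R)), ∀ᵐ θ ∂(volume.restrict (Ioo (-Real.pi) Real.pi)),
      T (pc a s θ)) : ∀ᵐ x ∂volume.restrict (ball a R), T x := by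
  rcases le_or_gt R 0 with hR | hR
  · rw [ball_eq_empty.2 hR]
    simp
  have h1 := polar_lintegral a (P := Ioo 0 R) measurableSet_Ioo (fun x hx => hx.1)
    ({x | ¬ T x}.indicator (fun _ => (1 : ℝ≥0∞)))
  have hTc : MeasurableSet {x | ¬ T x} := hT.compl
  have hprod : ∀ᵐ z ∂((volume.restrict (Ioo 0 R)).prod
      (volume.restrict (Ioo (-Real.pi) Real.pi))), T (pc a z.1 z.2) := by
    rw [Measure.ae_prod_iff_ae_ae]
    · exact h
    · exact (polar_pc_cont a).measurable hT
  have h2 : ∫⁻ p in Ioo 0 R ×ˢ Ioo (-Real.pi) Real.pi, ENNReal.ofReal p.1 *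
      ({x | ¬ T x}.indicator (fun _ => (1 : ℝ≥0∞))) (pc a p.1 p.2) = 0 := by
    rw [Measure.volume_eq_prod, ← Measure.prod_restrict]
    rw [lintegral_eq_zero_iff']
    · filter_upwards [hprod] with z hz
      have : pc a z.1 z.2 ∉ {x | ¬ T x} := fun hcon => hcon hz
      simp [Set.indicator_of_notMem this]
    · refine Measurable.aemeasurable ?_
      refine (ENNReal.measurable_ofReal.comp measurable_fst).mul ?_
      exact (measurable_const.indicator hTc).comp (polar_pc_cont a).measurable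
  rw [h2, lintegral_indicator hTc, setLIntegral_one, Measure.restrict_apply hTc] at h1
  have h3 : volume ({x | ¬ T x} ∩ ball a R) = 0 := by
    have h4 := (polar_ball_ae a hR)
    rw [measure_congr ((ae_eq_refl {x | ¬ T x}).inter h4)]
    exact h1
  rw [ae_restrict_iff' measurableSet_ball, ae_iff]
  refine measure_mono_null ?_ h3
  intro x hx
  simp only [mem_ofPred_eq, Classical.not_imp] at hx
  exact ⟨hx.2, hx.1⟩


lemma rigline_ae_sec {u : ℂ → ℝ} (hu : Measurable u) {a : ℂ} {R p q c : ℝ}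
    (hpq : q ≤ p + 2 * Real.pi)
    (h : ∀ᵐ r ∂(volume.restrict (Ioo 0 R)), ∀ᵐ θ ∂(volume.restrict (Ioo p q)),
      u (pc a r θ) = c) :
    ∀ᵐ x ∂volume.restrict (riglineSec a R p q), u x = c := by
  have hopen := rigline_sec_open a (R := R) hpq
  have hTm : MeasurableSet {x | x ∈ riglineSec a R p q → u x = c} := by
    have h1 : {x | x ∈ riglineSec a R p q → u x = c} = (riglineSec a R p q)ᶜ ∪ {x | u x = c} := by
      ext x
      simp only [mem_ofPred_eq, mem_union, mem_compl_iff]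
      tauto
    rw [h1]
    exact hopen.measurableSet.compl.union (measurableSet_eq_fun hu measurable_const)
  have h2 : ∀ᵐ x ∂volume.restrict (ball a R), x ∈ riglineSec a R p q → u x = c := by
    refine rigline_polar_conv hTm ?_
    filter_upwards [h, ae_restrict_mem measurableSet_Ioo] with r hr hrm
    refine ae_restrict_of_ae (rigline_ae_periodic (P := fun θ => pc a r θ ∈ riglineSec a R p q →
      u (pc a r θ) = c) (fun θ => by rw [rigline_pc_periodic]) (p := p) ?_)
    rw [ae_restrict_iff' measurableSet_Ioo] at hr ⊢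
    filter_upwards [hr] with θ hθ hθm hsec
    apply hθ
    refine ⟨hθm.1, ?_⟩
    obtain ⟨r', θ', hr'0, -, hθ'1, hθ'2, heq⟩ := hsec
    have h3 := rigline_pc_eq hrm.1 hr'0 heq (by
      rw [abs_lt]
      constructor
      · linarith [hθm.1]
      · linarith [hθm.2])
    rw [h3.2]
    exact hθ'2
  have hsub : riglineSec a R p q ⊆ ball a R := by
    rintro _ ⟨r, θ, hr0, hrR, -, -, rfl⟩
    rw [mem_ball, polar_dist a hr0]
    exact hrR
  have h3 := ae_mono (Measure.restrict_mono hsub le_rfl) h2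
  filter_upwards [h3, ae_restrict_mem hopen.measurableSet] with x hx hxm
  exact hx hxm

lemma rigline_not_jump {Ω : Set ℂ} {u : ℂ → ℝ} {g j : ℂ → ℂ} (h : SBVData Ω u g j) {U : Set ℂ}
    (hU : IsOpen U) {c : ℝ} (hc : ∀ᵐ y ∂volume.restrict U, u y = c) {x : ℂ} (hx : x ∈ U) :
    x ∉ jumpSet Ω u := by
  rintro ⟨hxΩ, a, b, ν, hj⟩
  obtain ⟨V, hV, hVi⟩ := h.intu x hxΩ
  rw [h.isOpen.nhdsWithin_eq hxΩ] at hV
  exact not_isApproxLim_of_isJump hV hVi hj c (rigline_approx (hU.mem_nhds hx) hc)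

/-- the ray -/
def riglineRay (a : ℂ) (p s : ℝ) : Set ℂ := (fun r => pc a r p) '' Ico 0 s

lemma rigline_isometry (a : ℂ) (p : ℝ) : Isometry (fun r : ℝ => pc a r p) := by
  refine Isometry.of_dist_eq fun x y => ?_
  rw [Complex.dist_eq, pc, pc, add_sub_add_left_eq_sub, ← sub_mul, norm_mul, rigline_er_norm,
    mul_one, ← Complex.ofReal_sub, Complex.norm_real, Real.dist_eq, Real.norm_eq_abs]

lemma rigline_ray_meas (a : ℂ) (p s : ℝ) : MeasurableSet (riglineRay a p s) :=
  (rigline_isometry a p).isClosedEmbedding.measurableEmbedding.measurableSet_image.2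
    measurableSet_Ico

lemma rigline_ray_measure (a : ℂ) (p s : ℝ) :
    (μH[1] : Measure ℂ) (riglineRay a p s) = ENNReal.ofReal s := by
  rw [riglineRay, (rigline_isometry a p).hausdorffMeasure_image (Or.inl zero_le_one),
    hausdorffMeasure_real, Real.volume_Ico, sub_zero]

lemma rigline_jump_sub {Ω : Set ℂ} {u : ℂ → ℝ} {g j : ℂ → ℂ} (h : SBVData Ω u g j) {a : ℂ} {R : ℝ}
    {p₁ p₂ c₁ c₂ : ℝ} (hp : p₁ < p₂) (hp' : p₂ < p₁ + 2 * Real.pi)
    (h1 : ∀ᵐ x ∂volume.restrict (riglineSec a R p₁ p₂), u x = c₁)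
    (h2 : ∀ᵐ x ∂volume.restrict (riglineSec a R p₂ (p₁ + 2 * Real.pi)), u x = c₂) {s : ℝ}
    (hs : s ≤ R) :
    jumpSet Ω u ∩ ball a s ⊆ riglineRay a p₁ s ∪ riglineRay a p₂ s := by
  rintro x ⟨hxJ, hxs⟩
  by_cases hxa : x = a
  · left
    refine ⟨0, ⟨le_rfl, ?_⟩, ?_⟩
    · rw [hxa, mem_ball, dist_self] at hxs; exact hxs
    · simp [pc, hxa]
  · obtain ⟨θ, hθ, hxθ⟩ := rigline_exists a p₁ (x := x)
    have hd0 : 0 < dist x a := dist_pos.2 hxa
    rcases lt_trichotomy θ p₂ with h3 | h3 | h3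
    · rcases hθ.1.eq_or_lt with h4 | h4
      · left
        exact ⟨dist x a, ⟨hd0.le, hxs⟩, by simp only [h4]; exact hxθ.symm⟩
      · exfalso
        exact rigline_not_jump h (rigline_sec_open a (R := R) hp'.le) h1
          ⟨dist x a, θ, hd0, lt_of_lt_of_le hxs hs, h4, h3, hxθ⟩ hxJ
    · right
      exact ⟨dist x a, ⟨hd0.le, hxs⟩, by simp only [← h3]; exact hxθ.symm⟩
    · exfalso
      exact rigline_not_jump h (rigline_sec_open a (R := R) (by linarith)) h2
        ⟨dist x a, θ, hd0, lt_of_lt_of_le hxs hs, h3, hθ.2, hxθ⟩ hxJ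

lemma rigline_null {Ω : Set ℂ} {u : ℂ → ℝ} {g j : ℂ → ℂ} (h : SBVData Ω u g j) {a : ℂ} {R : ℝ}
    (hR : ball a R ⊆ Ω) {p₁ p₂ s : ℝ} (hs : s ∈ Ioo 0 R) (hL : Lq Ω u a s = 2 * s)
    (hJ : ((μH[1] : Measure ℂ) (jumpSet Ω u ∩ ball a s)).toReal = Lq Ω u a s)
    (hsub : jumpSet Ω u ∩ ball a s ⊆ riglineRay a p₁ s ∪ riglineRay a p₂ s) :
    (μH[1] : Measure ℂ) ((riglineRay a p₁ s ∪ riglineRay a p₂ s) \ jumpSet Ω u) = 0 ∧
    (μH[1] : Measure ℂ) ((discSet Ω u \ jumpSet Ω u) ∩ ball a s) = 0 := by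
  have hKΩ : closedBall a s ⊆ Ω := (closedBall_subset_ball hs.2).trans hR
  have hKc : IsCompact (closedBall a s) := isCompact_closedBall a s
  obtain ⟨C, j', hCσ, hCJ, hCnull, -, -⟩ := jump_rep h hKc hKΩ
  have hCm : MeasurableSet C := by
    obtain ⟨K', hK', hKU⟩ := hCσ
    rw [← hKU]
    exact MeasurableSet.iUnion fun n => (hK' n).measurableSet
  have hJS : jumpSet Ω u ⊆ discSet Ω u := by
    rintro x ⟨hxΩ, a, b, ν, hj⟩
    refine ⟨hxΩ, ?_⟩
    obtain ⟨U, hU, hUi⟩ := h.intu x hxΩ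
    rw [h.isOpen.nhdsWithin_eq hxΩ] at hU
    rintro ⟨z, hz⟩
    exact not_isApproxLim_of_isJump hU hUi hj z hz
  -- measurability of `J ∩ ball`
  have hae : (jumpSet Ω u ∩ ball a s : Set ℂ) =ᵐ[(μH[1] : Measure ℂ)] (C ∩ ball a s : Set ℂ) := by
    have h1 : C ∩ ball a s ⊆ jumpSet Ω u ∩ ball a s := fun x hx => ⟨(hCJ hx.1).1, hx.2⟩
    refine EventuallyLE.antisymm ?_ (LE.le.eventuallyLE h1)
    rw [ae_le_set]
    refine measure_mono_null ?_ hCnull
    rintro x ⟨⟨hxJ, hxs⟩, hx2⟩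
    exact ⟨⟨hxJ, ball_subset_closedBall hxs⟩, fun hxC => hx2 ⟨hxC, hxs⟩⟩
  have hnm : NullMeasurableSet (jumpSet Ω u ∩ ball a s) (μH[1] : Measure ℂ) :=
    (hCm.inter measurableSet_ball).nullMeasurableSet.congr hae.symm
  have hSfin : (μH[1] : Measure ℂ) (discSet Ω u ∩ ball a s) < ⊤ :=
    (measure_mono (inter_subset_inter_right _ ball_subset_closedBall)).trans_lt
      (h.fin_S _ hKc hKΩ)
  have hJfin : (μH[1] : Measure ℂ) (jumpSet Ω u ∩ ball a s) < ⊤ :=
    (measure_mono (inter_subset_inter_left _ hJS)).trans_lt hSfin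
  have hJval : (μH[1] : Measure ℂ) (jumpSet Ω u ∩ ball a s) = ENNReal.ofReal (2 * s) := by
    rw [← ENNReal.ofReal_toReal hJfin.ne, hJ, hL]
  constructor
  · have h1 : (μH[1] : Measure ℂ) (riglineRay a p₁ s ∪ riglineRay a p₂ s) ≤
        ENNReal.ofReal (2 * s) := by
      refine (measure_union_le _ _).trans ?_
      rw [rigline_ray_measure, rigline_ray_measure, ← ENNReal.ofReal_add hs.1.le hs.1.le]
      apply ENNReal.ofReal_le_ofReal
      linarith
    have h2 := measure_sdiff hsub hnm hJfin.ne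
    have h3 : (μH[1] : Measure ℂ) ((riglineRay a p₁ s ∪ riglineRay a p₂ s) \
        (jumpSet Ω u ∩ ball a s)) = 0 := by
      rw [h2, hJval]
      exact tsub_eq_zero_of_le h1
    refine measure_mono_null ?_ h3
    rintro x ⟨hx, hxJ⟩
    exact ⟨hx, fun hcon => hxJ hcon.1⟩
  · have hsub2 : jumpSet Ω u ∩ ball a s ⊆ discSet Ω u ∩ ball a s :=
      inter_subset_inter_left _ hJS
    have h2 := measure_sdiff hsub2 hnm hJfin.ne
    have h3 : (μH[1] : Measure ℂ) ((discSet Ω u ∩ ball a s) \ (jumpSet Ω u ∩ ball a s)) = 0 := by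
      rw [h2, hJval]
      have h4 : (μH[1] : Measure ℂ) (discSet Ω u ∩ ball a s) = ENNReal.ofReal (2 * s) := by
        rw [← ENNReal.ofReal_toReal hSfin.ne]
        congr 1
      rw [h4, tsub_self]
    refine measure_mono_null ?_ h3
    rintro x ⟨⟨hxS, hxJ⟩, hxs⟩
    exact ⟨⟨hxS, hxs⟩, fun hcon => hxJ hcon.1⟩

/-! ## the test field -/

section test
variable (a e : ℂ) {ψ : ℝ → ℝ}

/-- the test field -/
noncomputable def riglineX (a e : ℂ) (ψ : ℝ → ℝ) (x : ℂ) : ℂ := ψ (‖x - a‖ ^ 2) • e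

/-- the radial factor -/
noncomputable def riglineF (a : ℂ) (ψ : ℝ → ℝ) (x : ℂ) : ℝ := 2 * deriv ψ (‖x - a‖ ^ 2)

lemma rigline_nsq (x : ℂ) : HasFDerivAt (fun y : ℂ => ‖y - a‖ ^ 2)
    ((2 : ℝ) • innerSL ℝ (x - a)) x := by
  have h1 := (hasStrictFDerivAt_norm_sq (x - a)).hasFDerivAt
  have h2 : HasFDerivAt (fun y : ℂ => y - a) (ContinuousLinearMap.id ℝ ℂ) x :=
    (hasFDerivAt_id x).sub_const a
  have h3 := h1.comp x h2
  refine h3.congr_fderiv ?_
  ext v <;> simp

lemma rigline_fderiv (hψ : ContDiff ℝ ∞ ψ) (x v : ℂ) :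
    fderiv ℝ (riglineX a e ψ) x v = (riglineF a ψ x * inner ℝ (x - a) v) • e := by
  have h1 := rigline_nsq a x
  have h2 : HasDerivAt ψ (deriv ψ (‖x - a‖ ^ 2)) (‖x - a‖ ^ 2) :=
    (hψ.differentiable (by simp) _).hasDerivAt
  have h3 := (h2.comp_hasFDerivAt x h1).smul_const e
  have h4 : fderiv ℝ (riglineX a e ψ) x = _ := h3.fderiv
  rw [h4]
  simp only [ContinuousLinearMap.smulRight_apply, _root_.smul_apply, innerSL_apply_apply,
    smul_eq_mul, riglineF]
  congr 1
  ring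

lemma rigline_X_smooth (hψ : ContDiff ℝ ∞ ψ) : ContDiff ℝ ∞ (riglineX a e ψ) := by
  have h1 : ContDiff ℝ ∞ (fun x : ℂ => ‖x - a‖ ^ 2) :=
    (contDiff_norm_sq ℝ).comp (contDiff_id.sub contDiff_const)
  exact (hψ.comp h1).smul contDiff_const

lemma rigline_F_cont (hψ : ContDiff ℝ ∞ ψ) : Continuous (riglineF a ψ) := by
  have h1 : Continuous (deriv ψ) := hψ.continuous_deriv (by simp)
  unfold riglineF
  fun_prop

lemma rigline_planar (w z e : ℂ) (h : inner ℝ w z = 0) :
    inner ℝ w (Complex.I * z) * inner ℝ e (Complex.I * z) = inner ℝ w e * ‖z‖ ^ 2 := by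
  rw [← Complex.normSq_eq_norm_sq, Complex.normSq_apply]
  simp only [Complex.inner, Complex.mul_re, Complex.mul_im, Complex.conj_re, Complex.conj_im,
    Complex.I_re, Complex.I_im] at h ⊢
  linear_combination (-(e.re * z.re + e.im * z.im)) * h

lemma rigline_tdiv (hψ : ContDiff ℝ ∞ ψ) {j : ℂ → ℂ} {x : ℂ} (hj : j x ≠ 0)
    (h : inner ℝ (x - a) (j x) = 0) :
    tdiv (riglineX a e ψ) j x = riglineF a ψ x * inner ℝ (x - a) e := by
  unfold tdiv
  rw [rigline_fderiv a e hψ, real_inner_smul_left, mul_assoc, rigline_planar _ _ _ h]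
  have : ‖j x‖ ≠ 0 := norm_ne_zero_iff.2 hj
  field_simp

lemma rigline_ray_integral (hψ : ContDiff ℝ ∞ ψ) (p : ℝ) {s : ℝ} (hs : 0 ≤ s) :
    ∫ x in riglineRay a p s, riglineF a ψ x * inner ℝ (x - a) e ∂(μH[1] : Measure ℂ) =
      (ψ (s ^ 2) - ψ 0) * inner ℝ (er p) e := by
  have hsm : ContDiff ℝ 1 (fun r : ℝ => pc a r p) := by
    unfold pc
    exact contDiff_const.add ((Complex.ofRealCLM.contDiff).mul contDiff_const)
  have hd : ∀ t : ℝ, HasDerivAt (fun r : ℝ => pc a r p) (er p) t := by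
    intro t
    unfold pc
    have h1 : HasDerivAt (fun r : ℝ => (r : ℂ)) 1 t := Complex.ofRealCLM.hasDerivAt
    have h2 := (h1.mul_const (er p)).const_add a
    simpa using h2
  have hne : ∀ t, deriv (fun r : ℝ => pc a r p) t ≠ 0 := by
    intro t
    rw [(hd t).deriv, ← norm_pos_iff, rigline_er_norm]
    exact one_pos
  rw [riglineRay, integral_curve hs hsm hne (rigline_isometry a p).injective.injOn]
  have h1 : ∀ t : ℝ, ‖deriv (fun r : ℝ => pc a r p) t‖ •
      (riglineF a ψ (pc a t p) * inner ℝ (pc a t p - a) e) =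
      (2 * t * deriv ψ (t ^ 2)) * inner ℝ (er p) e := by
    intro t
    rw [(hd t).deriv, rigline_er_norm, one_smul, riglineF]
    have h2 : pc a t p - a = (t : ℝ) • er p := by
      rw [pc, add_sub_cancel_left, Complex.real_smul]
    rw [h2, norm_smul, rigline_er_norm, mul_one, real_inner_smul_left, Real.norm_eq_abs, sq_abs]
    ring
  simp_rw [h1]
  rw [intervalIntegral.integral_mul_const]
  congr 1
  rw [intervalIntegral.integral_eq_sub_of_hasDerivAt (f := fun t => ψ (t ^ 2))]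
  · norm_num
  · intro t _
    have h2 : HasDerivAt ψ (deriv ψ (t ^ 2)) (t ^ 2) :=
      (hψ.differentiable (by simp) _).hasDerivAt
    have h3 : HasDerivAt (fun t => ψ (t ^ 2)) (deriv ψ (t ^ 2) * (((2 : ℕ) : ℝ) * t ^ (2 - 1))) t :=
      HasDerivAt.comp (h₂ := ψ) (h := fun t : ℝ => t ^ 2) t h2 (hasDerivAt_pow 2 t)
    have h4 : deriv ψ (t ^ 2) * (((2 : ℕ) : ℝ) * t ^ (2 - 1)) = 2 * t * deriv ψ (t ^ 2) := by
      push_cast
      ring
    rw [h4] at h3
    exact h3
  · refine Continuous.intervalIntegrable ?_ _ _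
    have h5 : Continuous (deriv ψ) := hψ.continuous_deriv (by simp)
    fun_prop

end test

/-- the consequence of the first variation -/
lemma rigline_balance {Ω : Set ℂ} {u : ℂ → ℝ} {g j : ℂ → ℂ} (h : MSMin Ω u g j) {a : ℂ} {R : ℝ}
    (hR : ball a R ⊆ Ω) {p₁ p₂ s : ℝ} (hs : s ∈ Ioo 0 R) (hp : p₁ < p₂)
    (hp' : p₂ < p₁ + 2 * Real.pi) (hD : Dq g a s = 0)
    (hsub : jumpSet Ω u ∩ ball a s ⊆ riglineRay a p₁ s ∪ riglineRay a p₂ s)
    (hrad : (μH[1] : Measure ℂ) {x ∈ ball a R | inner ℝ (x - a) (j x) ≠ 0} = 0)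
    (hn1 : (μH[1] : Measure ℂ) ((riglineRay a p₁ s ∪ riglineRay a p₂ s) \ jumpSet Ω u) = 0)
    (hn2 : (μH[1] : Measure ℂ) ((discSet Ω u \ jumpSet Ω u) ∩ ball a s) = 0) (e : ℂ) :
    inner ℝ (er p₁ + er p₂) e ≤ 0 := by
  -- the bump function
  have hs0 := hs.1
  let ψb : ContDiffBump (0 : ℝ) := ⟨s ^ 2 / 4, s ^ 2 / 2, by positivity, by nlinarith⟩
  set ψ : ℝ → ℝ := fun t => ψb t with hψdef
  have hψ : ContDiff ℝ ∞ ψ := ψb.contDiff
  have hψ0 : ψ 0 = 1 := ψb.one_of_mem_closedBall (by simp [ψb]; positivity)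
  have hψz : ∀ t, s ^ 2 / 2 ≤ t → ψ t = 0 := by
    intro t ht
    refine ψb.zero_of_le_dist ?_
    rw [Real.dist_eq, sub_zero]
    exact ht.trans (le_abs_self t)
  set X := riglineX a e ψ with hX
  have hXsm : ContDiff ℝ ∞ X := rigline_X_smooth a e hψ
  have hXz : ∀ x, x ∉ closedBall a (s * (3 / 4)) → X x = 0 := by
    intro x hx
    rw [mem_closedBall, not_le, Complex.dist_eq] at hx
    rw [hX, riglineX, hψz, zero_smul]
    nlinarith
  have hXc : HasCompactSupport X :=
    HasCompactSupport.intro (isCompact_closedBall a (s * (3 / 4))) fun {x} hx => hXz x hx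
  have hXs : tsupport X ⊆ closedBall a (s * (3 / 4)) := by
    refine closure_minimal ?_ isClosed_closedBall
    intro x hx
    by_contra hcon
    exact hx (hXz x hcon)
  have hXs2 : tsupport X ⊆ ball a s := by
    intro x hx
    have h1 := hXs hx
    rw [mem_closedBall] at h1
    rw [mem_ball]
    linarith
  have hballΩ : ball a s ⊆ Ω := (ball_subset_ball hs.2.le).trans hR
  set lam : ℂ → ℝ := fun x => |riglineF a ψ x| * ‖x - a‖ * ‖e‖ with hlam
  have hFc := rigline_F_cont a hψ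
  have hlc : Continuous lam := by fun_prop
  have hb : ∀ x v, inner ℝ (fderiv ℝ X x v) v ≤ lam x * ‖v‖ ^ 2 := by
    intro x v
    rw [hX, rigline_fderiv a e hψ, real_inner_smul_left]
    have h1 : |inner ℝ (x - a) v| ≤ ‖x - a‖ * ‖v‖ := abs_real_inner_le_norm _ _
    have h2 : |inner ℝ e v| ≤ ‖e‖ * ‖v‖ := abs_real_inner_le_norm _ _
    calc _ ≤ |riglineF a ψ x * inner ℝ (x - a) v * inner ℝ e v| := le_abs_self _
      _ = |riglineF a ψ x| * |inner ℝ (x - a) v| * |inner ℝ e v| := by rw [abs_mul, abs_mul]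
      _ ≤ |riglineF a ψ x| * (‖x - a‖ * ‖v‖) * (‖e‖ * ‖v‖) := by gcongr
      _ = _ := by rw [hlam]; ring
  have hfv := first_variation h hXsm hXc (hXs2.trans hballΩ) hlc hb
  -- first integral
  have hg0 : ∀ᵐ x ∂volume.restrict (ball a s), g x = 0 := by
    have hint : IntegrableOn (fun x => ‖g x‖ ^ 2) (ball a s) :=
      (h.fin_g _ (isCompact_closedBall a s) ((closedBall_subset_ball hs.2).trans hR)).mono_set
        ball_subset_closedBall
    have h1 := (integral_eq_zero_iff_of_nonneg_ae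
      (Eventually.of_forall fun x => by positivity) hint).1 hD
    filter_upwards [h1] with x hx
    simpa using hx
  have hI1 : ∫ x in tsupport X,
      (‖g x‖ ^ 2 * dv X x - 2 * inner ℝ (fderiv ℝ X x (g x)) (g x)) = 0 := by
    rw [integral_eq_zero_of_ae]
    have h1 := ae_mono (Measure.restrict_mono hXs2 le_rfl) hg0
    filter_upwards [h1] with x hx
    simp [hx]
  have hI3 : ∫ x in (discSet Ω u \ jumpSet Ω u) ∩ tsupport X, lam x ∂(μH[1] : Measure ℂ) = 0 := by
    apply setIntegral_measure_zero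
    exact measure_mono_null (inter_subset_inter_right _ hXs2) hn2
  -- second integral
  set Rays := riglineRay a p₁ s ∪ riglineRay a p₂ s with hRays
  have hRm : MeasurableSet Rays := (rigline_ray_meas a p₁ s).union (rigline_ray_meas a p₂ s)
  set G : ℂ → ℝ := fun x => riglineF a ψ x * inner ℝ (x - a) e with hG
  have hGc : Continuous G := by fun_prop
  have hI2a : ∫ x in tsupport X, tdiv X j x ∂(μH[1] : Measure ℂ) =
      ∫ x in tsupport X, Rays.indicator G x ∂(μH[1] : Measure ℂ) := by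
    refine setIntegral_congr_ae (isClosed_tsupport X).measurableSet ?_
    rw [ae_iff]
    refine measure_mono_null (t := (Rays \ jumpSet Ω u) ∪
      {x ∈ ball a R | inner ℝ (x - a) (j x) ≠ 0}) ?_ ?_
    · intro x hx
      simp only [mem_ofPred_eq, Classical.not_imp] at hx
      obtain ⟨hxX, hne⟩ := hx
      have hxs := hXs2 hxX
      by_cases hxJ : x ∈ jumpSet Ω u
      · right
        refine ⟨ball_subset_ball hs.2.le hxs, ?_⟩
        intro h0
        apply hne
        have hxR : x ∈ Rays := hsub ⟨hxJ, hxs⟩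
        have hj0 : j x ≠ 0 := by
          obtain ⟨hxΩ, hjump⟩ := hxJ
          rcases h.jf x hxΩ with ⟨a, b, ν, hj, hjx⟩ | ⟨hno, -⟩
          · rw [hjx]
            refine smul_ne_zero (sub_ne_zero.2 hj.2.1) ?_
            rw [← norm_pos_iff, hj.1]
            exact one_pos
          · exact absurd hjump hno
        rw [indicator_of_mem hxR]
        exact rigline_tdiv a e hψ hj0 h0
      · left
        refine ⟨?_, hxJ⟩
        by_contra hxR
        apply hne
        rw [indicator_of_notMem hxR]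
        have hj0 : j x = 0 := by
          rcases h.jf x (hballΩ hxs) with ⟨a, b, ν, hj, -⟩ | ⟨-, hj0⟩
          · exact absurd ⟨hballΩ hxs, a, b, ν, hj⟩ hxJ
          · exact hj0
        simp [tdiv, hj0]
    · exact (measure_union_null_iff.2 ⟨hn1, hrad⟩)
  have hI2b : ∫ x in tsupport X, Rays.indicator G x ∂(μH[1] : Measure ℂ) =
      ∫ x in Rays, G x ∂(μH[1] : Measure ℂ) := by
    rw [setIntegral_indicator hRm]
    symm
    refine setIntegral_eq_of_subset_of_forall_sdiff_eq_zero hRm inter_subset_right ?_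
    rintro x ⟨hxR, hx2⟩
    have hxX : x ∉ tsupport X := fun hcon => hx2 ⟨hcon, hxR⟩
    have h1 : fderiv ℝ X x = 0 := by
      have h2 : X =ᶠ[𝓝 x] fun _ => 0 := notMem_tsupport_iff_eventuallyEq.1 hxX
      rw [h2.fderiv_eq]
      simp
    have h3 := rigline_fderiv a e hψ x e
    rw [← hX, h1] at h3
    have h4 : (riglineF a ψ x * inner ℝ (x - a) e) • e = 0 := h3.symm
    rcases smul_eq_zero.1 h4 with h5 | h5
    · exact h5
    · simp [hG, h5]
  have hae : AEDisjoint (μH[1] : Measure ℂ) (riglineRay a p₁ s) (riglineRay a p₂ s) := by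
    have := Measure.nullSingletonClass_hausdorff ℂ (d := 1) one_pos
    refine measure_mono_null (t := {a}) ?_ (measure_singleton a)
    rintro x ⟨⟨r, hr, hxr⟩, ⟨r', hr', hxr'⟩⟩
    rcases hr.1.eq_or_lt with h1 | h1
    · rw [mem_singleton_iff, ← hxr, ← h1]
      simp [pc]
    · rcases hr'.1.eq_or_lt with h2 | h2
      · rw [mem_singleton_iff, ← hxr', ← h2]
        simp [pc]
      · exfalso
        have h3 := rigline_pc_eq h1 h2 (hxr.trans hxr'.symm) (by
          rw [abs_lt]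
          constructor <;> linarith)
        linarith [h3.2]
  have hGint : ∀ p, IntegrableOn G (riglineRay a p s) (μH[1] : Measure ℂ) := by
    intro p
    obtain ⟨B, hB⟩ := (isCompact_closedBall a s).exists_bound_of_continuousOn hGc.continuousOn
    refine Integrable.mono' (g := fun _ => B) (integrableOn_const (by
      rw [rigline_ray_measure]; exact ENNReal.ofReal_ne_top)) hGc.aestronglyMeasurable ?_
    filter_upwards [ae_restrict_mem (rigline_ray_meas a p s)] with x hx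
    apply hB
    obtain ⟨r, hr, rfl⟩ := hx
    rw [mem_closedBall, Complex.dist_eq]
    simp only [pc, add_sub_cancel_left, norm_mul, rigline_er_norm, mul_one, Complex.norm_real,
      Real.norm_eq_abs, abs_of_nonneg hr.1]
    exact hr.2.le
  have hI2c : ∫ x in Rays, G x ∂(μH[1] : Measure ℂ) = -(inner ℝ (er p₁ + er p₂) e) := by
    rw [hRays, integral_union_ae hae (rigline_ray_meas a p₂ s).nullMeasurableSet (hGint p₁)
      (hGint p₂), rigline_ray_integral a e hψ p₁ hs0.le, rigline_ray_integral a e hψ p₂ hs0.le,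
      hψ0, hψz (s ^ 2) (by nlinarith), inner_add_left]
    ring
  rw [hI1, hI3, hI2a, hI2b, hI2c] at hfv
  linarith

theorem rig_line {Ω : Set ℂ} {u : ℂ → ℝ} {g j : ℂ → ℂ} (h : MSMin Ω u g j) {a : ℂ} {R : ℝ}
    (hR : ball a R ⊆ Ω) (hR0 : 0 < R) (hE : ∀ s ∈ Ioo 0 R, Dq g a s + Lq Ω u a s = 2 * s)
    (hD : ∀ s ∈ Ioo 0 R, Dq g a s = 0)
    (hJ : ∀ s ∈ Ioo 0 R, ((μH[1] : Measure ℂ) (jumpSet Ω u ∩ ball a s)).toReal = Lq Ω u a s)
    (hrad : (μH[1] : Measure ℂ) {x ∈ ball a R | inner ℝ (x - a) (j x) ≠ 0} = 0)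
    {p₁ p₂ c₁ c₂ : ℝ} (hp : p₁ < p₂) (hp' : p₂ < p₁ + 2 * Real.pi) (hc : c₁ ≠ c₂)
    (hu : ∀ᵐ r ∂(volume.restrict (Ioo 0 R)),
        (∀ᵐ θ ∂(volume.restrict (Ioo p₁ p₂)), u (pc a r θ) = c₁) ∧
        ∀ᵐ θ ∂(volume.restrict (Ioo p₂ (p₁ + 2 * Real.pi))), u (pc a r θ) = c₂) :
    ∃ ν : ℂ, ‖ν‖ = 1 ∧ (∀ᵐ x ∂(volume.restrict (halfBall a ν R)), u x = c₁) ∧
      ∀ᵐ x ∂(volume.restrict (halfBall a (-ν) R)), u x = c₂ := by
  have hpi := Real.pi_pos
  have hsec1 := rigline_ae_sec h.meas_u (a := a) (R := R) (p := p₁) (q := p₂) (c := c₁) hp'.le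
    (by filter_upwards [hu] with r hr using hr.1)
  have hsec2 := rigline_ae_sec h.meas_u (a := a) (R := R) (p := p₂) (q := p₁ + 2 * Real.pi)
    (c := c₂) (by linarith) (by filter_upwards [hu] with r hr using hr.2)
  have hs : R / 2 ∈ Ioo 0 R := ⟨by linarith, by linarith⟩
  have hsub := rigline_jump_sub h.toSBVData hp hp' hsec1 hsec2 hs.2.le
  have hL : Lq Ω u a (R / 2) = 2 * (R / 2) := by
    have := hE _ hs
    rw [hD _ hs, zero_add] at this
    exact this
  obtain ⟨hn1, hn2⟩ := rigline_null h.toSBVData hR hs hL (hJ _ hs) hsub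
  have hbal : ∀ e : ℂ, inner ℝ (er p₁ + er p₂) e ≤ 0 := fun e =>
    rigline_balance h hR hs hp hp' (hD _ hs) hsub hrad hn1 hn2 e
  have hsum : er p₁ + er p₂ = 0 := by
    have h1 := hbal (er p₁ + er p₂)
    rw [real_inner_self_eq_norm_sq] at h1
    have h2 : ‖er p₁ + er p₂‖ = 0 := by nlinarith [norm_nonneg (er p₁ + er p₂)]
    exact norm_eq_zero.1 h2
  have hp2 : p₂ = p₁ + Real.pi := by
    refine rigline_er_eq ?_ ?_
    · rw [rigline_er_add]
      have : er Real.pi = -1 := by rw [er]; exact Complex.exp_pi_mul_I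
      rw [this, mul_neg_one]
      exact eq_neg_of_add_eq_zero_right hsum
    · rw [abs_lt]
      constructor <;> linarith
  refine ⟨er (p₁ + Real.pi / 2), rigline_er_norm _, ?_, ?_⟩
  · refine ae_mono (Measure.restrict_mono ?_ le_rfl) hsec1
    rintro x ⟨hxb, hx⟩
    obtain ⟨θ, hθ, hxθ⟩ := rigline_exists a p₁ (x := x)
    have hxa : x ≠ a := by
      rintro rfl
      simp at hx
    have hd0 : 0 < dist x a := dist_pos.2 hxa
    have hin : inner ℝ (x - a) (er (p₁ + Real.pi / 2)) = dist x a * Real.sin (θ - p₁) := by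
      conv_lhs => rw [hxθ]
      rw [pc, add_sub_cancel_left]
      simp only [Complex.inner, Complex.mul_re, Complex.mul_im, Complex.conj_re, Complex.conj_im,
        Complex.ofReal_re, Complex.ofReal_im, rigline_er_re, rigline_er_im]
      rw [Real.cos_add_pi_div_two, Real.sin_add_pi_div_two, Real.sin_sub]
      ring
    simp only [mem_ofPred_eq] at hx
    rw [hin] at hx
    have hsin : 0 < Real.sin (θ - p₁) := pos_of_mul_pos_right hx hd0.le
    refine ⟨dist x a, θ, hd0, hxb, ?_, ?_, hxθ⟩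
    · rcases hθ.1.eq_or_lt with h1 | h1
      · rw [← h1, sub_self, Real.sin_zero] at hsin
        exact absurd hsin (lt_irrefl _)
      · exact h1
    · by_contra hcon
      push Not at hcon
      have h2 : Real.sin (θ - p₁) ≤ 0 := by
        have h3 : Real.sin (θ - p₁) = -Real.sin (θ - p₁ - Real.pi) := by
          rw [Real.sin_sub_pi]; ring
        rw [h3, neg_nonpos]
        exact Real.sin_nonneg_of_nonneg_of_le_pi (by linarith) (by linarith [hθ.2])
      linarith
  · refine ae_mono (Measure.restrict_mono ?_ le_rfl) hsec2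
    rintro x ⟨hxb, hx⟩
    obtain ⟨θ, hθ, hxθ⟩ := rigline_exists a p₁ (x := x)
    have hxa : x ≠ a := by
      rintro rfl
      simp at hx
    have hd0 : 0 < dist x a := dist_pos.2 hxa
    have hin : inner ℝ (x - a) (-er (p₁ + Real.pi / 2)) = -(dist x a * Real.sin (θ - p₁)) := by
      rw [inner_neg_right]
      congr 1
      conv_lhs => rw [hxθ]
      rw [pc, add_sub_cancel_left]
      simp only [Complex.inner, Complex.mul_re, Complex.mul_im, Complex.conj_re, Complex.conj_im,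
        Complex.ofReal_re, Complex.ofReal_im, rigline_er_re, rigline_er_im]
      rw [Real.cos_add_pi_div_two, Real.sin_add_pi_div_two, Real.sin_sub]
      ring
    simp only [mem_ofPred_eq] at hx
    rw [hin] at hx
    have hsin : Real.sin (θ - p₁) < 0 := by
      by_contra hcon
      push Not at hcon
      nlinarith
    refine ⟨dist x a, θ, hd0, hxb, ?_, hθ.2, hxθ⟩
    by_contra hcon
    push Not at hcon
    have h2 : 0 ≤ Real.sin (θ - p₁) :=
      Real.sin_nonneg_of_nonneg_of_le_pi (by linarith [hθ.1]) (by linarith)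
    linarith

end Pool.Agent.MP099f24
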