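import Pool.Agent.Lib.MP_099f24_an.SD.Evol
import Pool.Agent.Lib.MP_099f24_an.SD.Slice
import Pool.Agent.Lib.MP_099f24_an.SD.Flux

/-!
# MP_099f24_an, module RIGMIX: the mixed case does not occur
-/

set_option autoImplicit false

namespace Pool.Agent.MP099f24

open MeasureTheory Filter Topology Set Metric
open scoped ENNReal ContDiff

/-! ### the test function -/

/-- an odd periodic bump at `p` -/
noncomputable def rigmix_e (p δ t : ℝ) : ℝ :=
  Real.smoothTransition (Real.cos (t - p) - Real.cos δ) * Real.sin (t - p)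

theorem rigmix_e_smooth (p δ : ℝ) : ContDiff ℝ ∞ (rigmix_e p δ) := by
  unfold rigmix_e
  have h1 : ContDiff ℝ ∞ (fun t : ℝ => t - p) := contDiff_id.sub contDiff_const
  have h2 : ContDiff ℝ ∞ (fun t : ℝ => Real.cos (t - p) - Real.cos δ) :=
    (Real.contDiff_cos.comp h1).sub contDiff_const
  have h3 : ContDiff ℝ ∞ (fun t : ℝ => Real.smoothTransition (Real.cos (t - p) - Real.cos δ)) :=
    Real.smoothTransition.contDiff.comp h2
  exact h3.mul (Real.contDiff_sin.comp h1)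

theorem rigmix_e_cont (p δ : ℝ) : Continuous (rigmix_e p δ) := (rigmix_e_smooth p δ).continuous

theorem rigmix_e_per (p δ t : ℝ) : rigmix_e p δ (t + 2 * Real.pi) = rigmix_e p δ t := by
  unfold rigmix_e
  rw [show t + 2 * Real.pi - p = (t - p) + 2 * Real.pi by ring, Real.cos_add_two_pi,
    Real.sin_add_two_pi]

theorem rigmix_e_odd (p δ t : ℝ) : rigmix_e p δ (p - t) = - rigmix_e p δ (p + t) := by
  unfold rigmix_e
  rw [show p - t - p = -t by ring, show p + t - p = t by ring, Real.cos_neg, Real.sin_neg]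
  ring

theorem rigmix_e_zero {p δ t : ℝ} (hδ : 0 < δ) (h1 : δ ≤ t - p)
    (h2 : t - p ≤ 2 * Real.pi - δ) : rigmix_e p δ t = 0 := by
  unfold rigmix_e
  have h3 : Real.cos (t - p) ≤ Real.cos δ := by
    rcases le_or_gt (t - p) Real.pi with h4 | h4
    · exact Real.cos_le_cos_of_nonneg_of_le_pi hδ.le h4 h1
    · have h5 : Real.cos (t - p) = Real.cos (2 * Real.pi - (t - p)) := by
        rw [Real.cos_two_pi_sub]
      rw [h5]
      exact Real.cos_le_cos_of_nonneg_of_le_pi hδ.le (by linarith) (by linarith)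
  rw [Real.smoothTransition.zero_of_nonpos (by linarith), zero_mul]

theorem rigmix_e_zero' {p δ t : ℝ} (hδ : 0 < δ)
    (h : t ∈ Ioc (p - Real.pi) (p + Real.pi)) (h' : t ∉ Ioo (p - δ) (p + δ)) :
    rigmix_e p δ t = 0 := by
  rcases le_or_gt (p + δ) t with h1 | h1
  · exact rigmix_e_zero hδ (by linarith) (by linarith [h.2])
  · have h2 : t ≤ p - δ := by
      by_contra hc
      exact h' ⟨not_le.1 hc, h1⟩
    rw [← rigmix_e_per]
    exact rigmix_e_zero hδ (by linarith [h.1]) (by linarith)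

theorem rigmix_e_pos {p δ t : ℝ} (hδ' : δ < Real.pi) (h1 : p < t) (h2 : t < p + δ) :
    0 < rigmix_e p δ t := by
  unfold rigmix_e
  have h3 : 0 < Real.sin (t - p) := Real.sin_pos_of_pos_of_lt_pi (by linarith) (by linarith)
  have h4 : Real.cos δ < Real.cos (t - p) :=
    Real.cos_lt_cos_of_nonneg_of_le_pi (by linarith) hδ'.le (by linarith)
  exact mul_pos (Real.smoothTransition.pos_of_pos (by linarith)) h3

/-- half of the mass of the bump -/
noncomputable def rigmix_k (δ : ℝ) : ℝ := ∫ t in (0:ℝ)..δ, rigmix_e 0 δ t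

theorem rigmix_k_pos {δ : ℝ} (hδ : 0 < δ) (hδ' : δ < Real.pi) : 0 < rigmix_k δ := by
  unfold rigmix_k
  refine intervalIntegral.intervalIntegral_pos_of_pos_on
    ((rigmix_e_cont 0 δ).intervalIntegrable _ _) (fun t ht => ?_) hδ
  exact rigmix_e_pos hδ' ht.1 (by linarith [ht.2])

theorem rigmix_right (p δ : ℝ) : ∫ t in p..(p + δ), rigmix_e p δ t = rigmix_k δ := by
  unfold rigmix_k
  have h1 : ∀ t, rigmix_e p δ (t + p) = rigmix_e 0 δ t := fun t => by
    unfold rigmix_e; rw [add_sub_cancel_right, sub_zero]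
  have h2 := intervalIntegral.integral_comp_add_right (a := 0) (b := δ) (rigmix_e p δ) p
  simp_rw [h1] at h2
  rw [h2, zero_add, add_comm]

theorem rigmix_left (p δ : ℝ) : ∫ t in (p - δ)..p, rigmix_e p δ t = - rigmix_k δ := by
  have h1 := intervalIntegral.integral_comp_sub_left (a := 0) (b := δ) (rigmix_e p δ) p
  rw [sub_zero] at h1
  rw [← h1, ← rigmix_right p δ]
  simp_rw [rigmix_e_odd]
  rw [intervalIntegral.integral_neg]
  have h2 := intervalIntegral.integral_comp_add_left (a := 0) (b := δ) (rigmix_e p δ) p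
  rw [add_zero] at h2
  rw [h2]

theorem rigmix_period {f : ℝ → ℝ} (hf : ∀ t, f (t + 2 * Real.pi) = f t) {p δ : ℝ} (hδ : 0 < δ)
    (hδ' : δ < Real.pi) :
    ∫ θ in Ioo (-Real.pi) Real.pi, f θ * rigmix_e p δ θ =
      ∫ θ in (p - δ)..(p + δ), f θ * rigmix_e p δ θ := by
  have hpi := Real.pi_pos
  have h1 : Function.Periodic (fun θ => f θ * rigmix_e p δ θ) (2 * Real.pi) := fun θ => by
    simp only [hf, rigmix_e_per]
  have h2 := h1.intervalIntegral_add_eq (-Real.pi) (p - Real.pi)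
  rw [show -Real.pi + 2 * Real.pi = Real.pi by ring,
    show p - Real.pi + 2 * Real.pi = p + Real.pi by ring] at h2
  rw [← integral_Ioc_eq_integral_Ioo, ← intervalIntegral.integral_of_le (by linarith), h2,
    intervalIntegral.integral_of_le (by linarith), intervalIntegral.integral_of_le (by linarith),
    integral_Ioc_eq_integral_Ioo (x := p - δ)]
  refine setIntegral_eq_of_subset_of_forall_sdiff_eq_zero measurableSet_Ioc
    (fun t ht => ⟨by linarith [ht.1], by linarith [ht.2]⟩) (fun t ht => ?_)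
  rw [rigmix_e_zero' hδ ht.1 ht.2, mul_zero]

theorem rigmix_jump {f : ℝ → ℝ} (hf : ∀ t, f (t + 2 * Real.pi) = f t) {p δ cL cR : ℝ}
    (hδ : 0 < δ) (hδ' : δ < Real.pi)
    (hL : ∀ᵐ θ ∂(volume.restrict (Ioo (p - δ) p)), f θ = cL)
    (hR : ∀ᵐ θ ∂(volume.restrict (Ioo p (p + δ))), f θ = cR) :
    ∫ θ in Ioo (-Real.pi) Real.pi, f θ * rigmix_e p δ θ = rigmix_k δ * (cR - cL) := by
  rw [rigmix_period hf hδ hδ']
  have hc := rigmix_e_cont p δ
  have e1 : ∀ {x y c : ℝ}, x ≤ y → (∀ᵐ θ ∂(volume.restrict (Ioo x y)), f θ = c) →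
      (fun θ => c * rigmix_e p δ θ) =ᵐ[volume.restrict (Ioo x y)]
        fun θ => f θ * rigmix_e p δ θ := by
    intro x y c _ h
    filter_upwards [h] with θ hθ
    rw [hθ]
  have e2 : ∀ {x y c : ℝ}, x ≤ y → (∀ᵐ θ ∂(volume.restrict (Ioo x y)), f θ = c) →
      IntervalIntegrable (fun θ => f θ * rigmix_e p δ θ) volume x y := by
    intro x y c hxy h
    rw [intervalIntegrable_iff_integrableOn_Ioo_of_le hxy]
    have h1 : IntegrableOn (fun θ => c * rigmix_e p δ θ) (Ioo x y) :=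
      ((hc.const_mul c).integrableOn_Icc (a := x) (b := y)).mono_set Ioo_subset_Icc_self
    exact h1.congr (e1 hxy h)
  have e3 : ∀ {x y c : ℝ}, x ≤ y → (∀ᵐ θ ∂(volume.restrict (Ioo x y)), f θ = c) →
      ∫ θ in x..y, f θ * rigmix_e p δ θ = c * ∫ θ in x..y, rigmix_e p δ θ := by
    intro x y c hxy h
    rw [← intervalIntegral.integral_const_mul, intervalIntegral.integral_of_le hxy,
      intervalIntegral.integral_of_le hxy, integral_Ioc_eq_integral_Ioo,
      integral_Ioc_eq_integral_Ioo]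
    exact (integral_congr_ae (e1 hxy h)).symm
  have hle1 : p - δ ≤ p := by linarith
  have hle2 : p ≤ p + δ := by linarith
  rw [← intervalIntegral.integral_add_adjacent_intervals (e2 hle1 hL) (e2 hle2 hR), e3 hle1 hL,
    e3 hle2 hR, rigmix_left, rigmix_right]
  ring

theorem rigmix_small {f : ℝ → ℝ} (hf : ∀ t, f (t + 2 * Real.pi) = f t) (hm : Measurable f)
    {p δ c ε : ℝ} (hδ : 0 < δ) (hδ' : δ < Real.pi)
    (h : ∀ᵐ θ ∂(volume.restrict (Ioo (p - δ) (p + δ))), |f θ - c| ≤ ε) :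
    |∫ θ in Ioo (-Real.pi) Real.pi, f θ * rigmix_e p δ θ| ≤ 2 * ε * rigmix_k δ := by
  rw [rigmix_period hf hδ hδ']
  have hc := rigmix_e_cont p δ
  have hle : p - δ ≤ p + δ := by linarith
  have hle1 : p - δ ≤ p := by linarith
  have hle2 : p ≤ p + δ := by linarith
  have hci : ∀ x y, IntervalIntegrable (rigmix_e p δ) volume x y := fun x y =>
    hc.intervalIntegrable _ _
  have hz : ∫ θ in (p - δ)..(p + δ), rigmix_e p δ θ = 0 := by
    rw [← intervalIntegral.integral_add_adjacent_intervals (hci (p - δ) p) (hci p (p + δ)),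
      rigmix_left, rigmix_right]
    ring
  -- absolute value of the bump
  have habs : ∫ θ in (p - δ)..(p + δ), |rigmix_e p δ θ| = 2 * rigmix_k δ := by
    have hcai : ∀ x y, IntervalIntegrable (fun θ => |rigmix_e p δ θ|) volume x y := fun x y =>
      hc.abs.intervalIntegrable _ _
    have h1 : ∫ θ in p..(p + δ), |rigmix_e p δ θ| = rigmix_k δ := by
      rw [← rigmix_right p δ, intervalIntegral.integral_of_le hle2,
        intervalIntegral.integral_of_le hle2, integral_Ioc_eq_integral_Ioo,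
        integral_Ioc_eq_integral_Ioo]
      refine setIntegral_congr_fun measurableSet_Ioo fun θ hθ => ?_
      exact abs_of_pos (rigmix_e_pos hδ' hθ.1 hθ.2)
    have h2 : ∫ θ in (p - δ)..p, |rigmix_e p δ θ| = rigmix_k δ := by
      have h3 := intervalIntegral.integral_comp_sub_left (a := 0) (b := δ)
        (fun θ => |rigmix_e p δ θ|) p
      rw [sub_zero] at h3
      rw [← h3, ← h1]
      simp_rw [rigmix_e_odd, abs_neg]
      have h4 := intervalIntegral.integral_comp_add_left (a := 0) (b := δ)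
        (fun θ => |rigmix_e p δ θ|) p
      rw [add_zero] at h4
      rw [h4]
    rw [← intervalIntegral.integral_add_adjacent_intervals (hcai (p - δ) p) (hcai p (p + δ)),
      h1, h2]
    ring
  have hbound : ∀ᵐ θ ∂(volume.restrict (Ioo (p - δ) (p + δ))),
      ‖(f θ - c) * rigmix_e p δ θ‖ ≤ ε * |rigmix_e p δ θ| := by
    filter_upwards [h] with θ hθ
    rw [norm_mul, Real.norm_eq_abs, Real.norm_eq_abs]
    exact mul_le_mul_of_nonneg_right hθ (abs_nonneg _)
  have hgi : IntegrableOn (fun θ => ε * |rigmix_e p δ θ|) (Ioo (p - δ) (p + δ)) :=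
    ((hc.abs.const_mul ε).integrableOn_Icc (a := p - δ) (b := p + δ)).mono_set Ioo_subset_Icc_self
  have hfi : IntegrableOn (fun θ => (f θ - c) * rigmix_e p δ θ) (Ioo (p - δ) (p + δ)) :=
    Integrable.mono' hgi ((hm.sub_const c).mul hc.measurable).aestronglyMeasurable hbound
  have hci' : IntegrableOn (fun θ => c * rigmix_e p δ θ) (Ioo (p - δ) (p + δ)) :=
    ((hc.const_mul c).integrableOn_Icc (a := p - δ) (b := p + δ)).mono_set Ioo_subset_Icc_self
  have e1 : ∫ θ in (p - δ)..(p + δ), f θ * rigmix_e p δ θ =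
      ∫ θ in Ioo (p - δ) (p + δ), (f θ - c) * rigmix_e p δ θ := by
    rw [intervalIntegral.integral_of_le hle, integral_Ioc_eq_integral_Ioo]
    have h1 : (fun θ => f θ * rigmix_e p δ θ) =
        fun θ => (f θ - c) * rigmix_e p δ θ + c * rigmix_e p δ θ := by
      funext θ; ring
    rw [h1, integral_add hfi hci', integral_const_mul]
    rw [intervalIntegral.integral_of_le hle, integral_Ioc_eq_integral_Ioo] at hz
    rw [hz, mul_zero, add_zero]
  rw [e1, ← Real.norm_eq_abs]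
  refine (norm_integral_le_of_norm_le hgi hbound).trans (le_of_eq ?_)
  rw [integral_const_mul, ← integral_Ioc_eq_integral_Ioo, ← intervalIntegral.integral_of_le hle,
    habs]
  ring

/-- continuity of the integrals against a test function -/
theorem rigmix_evol {Ω : Set ℂ} {u : ℂ → ℝ} {g j : ℂ → ℂ} (h : SBVData Ω u g j) {a : ℂ} {R : ℝ}
    (hR : ball a R ⊆ Ω)
    (hrad : (μH[1] : Measure ℂ) {x ∈ ball a R | inner ℝ (x - a) (j x) ≠ 0} = 0) {η : ℝ → ℝ}
    (hη : ContDiff ℝ ∞ η) (hper : ∀ t, η (t + 2 * Real.pi) = η t) :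
    ∃ m : ℝ → ℝ, (∀ r ∈ Ioo 0 R, ContinuousAt m r) ∧
      ∀ᵐ r ∂(volume.restrict (Ioo 0 R)),
        m r = ∫ θ in Ioo (-Real.pi) Real.pi, u (pc a r θ) * η θ := by
  obtain ⟨m, hm, hmu⟩ := radial_evol h hR hrad hη hper
  refine ⟨m, fun r₀ hr₀ => ?_, hmu⟩
  obtain ⟨C, hC⟩ : ∃ C : ℝ, ∀ x, |η x| ≤ C := by
    obtain ⟨C, hC⟩ := (isCompact_Icc (a := (0 : ℝ)) (b := 0 + 2 * Real.pi)).exists_bound_of_continuousOn
      hη.continuous.continuousOn
    refine ⟨C, fun x => ?_⟩
    obtain ⟨y, hy, hxy⟩ := (show Function.Periodic η (2 * Real.pi) from hper).exists_mem_Ico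
      Real.two_pi_pos x 0
    rw [hxy]
    exact hC y (Ico_subset_Icc_self hy)
  have hcb : ∀ s < R, IsCompact (closedBall a s) ∧ closedBall a s ⊆ Ω := fun s hs =>
    ⟨isCompact_closedBall a s, (closedBall_subset_ball hs).trans hR⟩
  have hgi : ∀ s < R, IntegrableOn g (closedBall a s) := fun s hs =>
    h.intg.integrableOn_compact_subset (hcb s hs).2 (hcb s hs).1
  have hargm : Measurable (fun x : ℂ => (x - a).arg) :=
    Complex.measurable_arg.comp (measurable_id.sub measurable_const)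
  have hgri : ∀ s < R, IntegrableOn (fun x => inner ℝ (g x) (er (x - a).arg)) (closedBall a s) := by
    intro s hs
    refine Integrable.mono' (hgi s hs).norm
      (h.meas_g.inner (polar_er_cont.measurable.comp hargm)).aestronglyMeasurable
      (Eventually.of_forall fun x => ?_)
    refine (norm_inner_le_norm _ _).trans ?_
    have h1 : ‖er (x - a).arg‖ = 1 := by rw [er, Complex.norm_exp_ofReal_mul_I]
    rw [h1, mul_one]
  have hb : ∀ s t, 0 < s → t < R → IntegrableOn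
      (fun r => ∫ θ in Ioo (-Real.pi) Real.pi, inner ℝ (g (pc a r θ)) (er θ) * η θ)
      (Icc s t) := by
    intro s t hs ht
    refine (integrableOn_congr_fun ?_ measurableSet_Icc).1
      (evol_int hgri hη.continuous.measurable hC hs ht)
    intro r hr
    apply setIntegral_congr_fun measurableSet_Ioo
    intro θ hθ
    simp only
    rw [polar_arg_pc a (hs.trans_le hr.1) hθ]
  obtain ⟨s, hs0, hsr⟩ := exists_between hr₀.1
  obtain ⟨t, hrt, htR⟩ := exists_between hr₀.2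
  have hst : s < t := hsr.trans hrt
  have h1 := intervalIntegral.continuousOn_primitive_interval
    (f := fun r => ∫ θ in Ioo (-Real.pi) Real.pi, inner ℝ (g (pc a r θ)) (er θ) * η θ)
    (μ := volume) (a := s) (b := t) (by rw [uIcc_of_le hst.le]; exact hb s t hs0 htR)
  rw [uIcc_of_le hst.le] at h1
  have h2 : ContinuousOn m (Icc s t) := by
    refine (continuousOn_const.add h1 : ContinuousOn (fun x => m s + ∫ r in s..x,
      ∫ θ in Ioo (-Real.pi) Real.pi, inner ℝ (g (pc a r θ)) (er θ) * η θ) (Icc s t)).congr ?_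
    intro x hx
    have h3 := hm s ⟨hs0, hst.trans htR⟩ x ⟨hs0.trans_le hx.1, hx.2.trans_lt htR⟩
    change m x = m s + ∫ r in s..x,
      ∫ θ in Ioo (-Real.pi) Real.pi, inner ℝ (g (pc a r θ)) (er θ) * η θ
    rw [← h3]; ring
  exact h2.continuousAt (Icc_mem_nhds hsr hrt)

theorem rigmix_inj {a : ℂ} {r θ θ' : ℝ} (hr : 0 < r) (h : pc a r θ = pc a r θ') (h1 : θ < θ')
    (h2 : θ' < θ + 2 * Real.pi) : False := by
  have h9 : er θ' = er θ := by
    unfold pc at h
    have h11 : (r:ℂ) * er θ = r * er θ' := by simpa using h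
    exact (mul_left_cancel₀ (by exact_mod_cast hr.ne') h11).symm
  unfold er at h9
  rw [Complex.exp_eq_exp_iff_exists_int] at h9
  obtain ⟨n, hn⟩ := h9
  have h12 : θ' = θ + n * (2 * Real.pi) := by
    have := congrArg Complex.im hn
    simpa using this
  have hpi := Real.pi_pos
  have h13 : (0:ℝ) < n := by
    by_contra hc
    have : (n:ℝ) * (2 * Real.pi) ≤ 0 := mul_nonpos_of_nonpos_of_nonneg (not_lt.1 hc)
      (by positivity)
    linarith
  have h14 : (n:ℝ) < 1 := by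
    by_contra hc
    have : 1 * (2 * Real.pi) ≤ (n:ℝ) * (2 * Real.pi) :=
      mul_le_mul_of_nonneg_right (not_lt.1 hc) (by positivity)
    linarith
  have h15 : (0:ℤ) < n := by exact_mod_cast h13
  have h16 : n < (1:ℤ) := by exact_mod_cast h14
  omega

theorem rigmix_arc {Ω : Set ℂ} {u : ℂ → ℝ} {g : ℂ → ℂ} (hu : Measurable u) (hg : Measurable g)
    {a : ℂ} {s R p δ : ℝ} (hs : 0 < s) (hsR : s < R) (hδ : 0 < δ) (hδ' : δ < Real.pi)
    (hsl : ∀ p q : ℝ, p < q → (∀ θ ∈ Ioo p q, pc a s θ ∉ jumpSet Ω u) →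
      ∃ c : ℝ, ∀ᵐ θ ∂(volume.restrict (Ioo p q)), u (pc a s θ) = c + ∫ t in p..θ, Gq g a s t)
    (hi : IntegrableOn (fun θ => ‖g (pc a s θ)‖ ^ 2) (Ioo (-Real.pi) Real.pi))
    (hT : Tq g a s ≤ 1) (hJ : ∀ θ ∈ Ioo (p - δ) (p + δ), pc a s θ ∉ jumpSet Ω u) :
    |∫ θ in Ioo (-Real.pi) Real.pi, u (pc a s θ) * rigmix_e p δ θ| ≤
      2 * Real.sqrt (2 * δ * R) * rigmix_k δ := by
  have hpi := Real.pi_pos
  obtain ⟨c, hc⟩ := hsl (p - δ) (p + δ) (by linarith) hJ
  have hum : Measurable (fun θ => u (pc a s θ)) := hu.comp (flux_cont_pc a s).measurable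
  refine rigmix_small (f := fun θ => u (pc a s θ)) (fun t => by simp only [flux_pc_per]) hum
    (c := c) hδ hδ' ?_
  have hGm : Measurable (fun θ => Gq g a s θ) := by
    unfold Gq
    exact ((hg.comp (flux_cont_pc a s).measurable).inner flux_cont_et.measurable).const_mul s
  have hGper : Function.Periodic (fun θ => Gq g a s θ ^ 2) (2 * Real.pi) := fun θ => by
    simp only [Gq, flux_pc_per, flux_et_per]
  have hle : ∀ θ, Gq g a s θ ^ 2 ≤ s ^ 2 * ‖g (pc a s θ)‖ ^ 2 := fun θ => by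
    have h1 := abs_real_inner_le_norm (g (pc a s θ)) (et θ)
    rw [flux_norm_et, mul_one] at h1
    unfold Gq
    rw [mul_pow, ← sq_abs (inner ℝ (g (pc a s θ)) (et θ))]
    exact mul_le_mul_of_nonneg_left (pow_le_pow_left₀ (abs_nonneg _) h1 2) (sq_nonneg s)
  have hGi0 : IntegrableOn (fun θ => Gq g a s θ ^ 2) (Ioo (-Real.pi) Real.pi) :=
    (hi.const_mul (s ^ 2)).mono' (hGm.pow_const 2).aestronglyMeasurable
      (Eventually.of_forall fun θ => by
        rw [Real.norm_of_nonneg (sq_nonneg _)]; exact hle θ)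
  have hGi : IntegrableOn (fun θ => Gq g a s θ ^ 2) (Ioo (p - δ) (p - δ + 2 * Real.pi)) := by
    have h6 : IntervalIntegrable (fun θ => Gq g a s θ ^ 2) volume (-Real.pi)
        (-Real.pi + 2 * Real.pi) := by
      rw [show -Real.pi + 2 * Real.pi = Real.pi by ring,
        intervalIntegrable_iff_integrableOn_Ioo_of_le (by linarith)]
      exact hGi0
    have h7 := hGper.intervalIntegrable (by positivity) h6 (p - δ) (p - δ + 2 * Real.pi)
    rwa [intervalIntegrable_iff_integrableOn_Ioo_of_le (by linarith)] at h7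
  have hGint : ∫ θ in Ioo (p - δ) (p - δ + 2 * Real.pi), Gq g a s θ ^ 2 ≤ R := by
    have h6 := hGper.intervalIntegral_add_eq (-Real.pi) (p - δ)
    rw [show -Real.pi + 2 * Real.pi = Real.pi by ring,
      intervalIntegral.integral_of_le (by linarith),
      intervalIntegral.integral_of_le (by linarith), integral_Ioc_eq_integral_Ioo,
      integral_Ioc_eq_integral_Ioo] at h6
    rw [← h6]
    have h7 : ∫ θ in Ioo (-Real.pi) Real.pi, Gq g a s θ ^ 2 = s * Tq g a s := by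
      unfold Tq Gq
      rw [← integral_const_mul, ← integral_const_mul]
      refine integral_congr_ae (Eventually.of_forall fun θ => ?_)
      simp only
      ring
    rw [h7]
    nlinarith
  filter_upwards [hc, ae_restrict_mem measurableSet_Ioo] with θ hθ hθI
  have h1 : u (pc a s θ) - c = ∫ t in Ioo (p - δ) θ, Gq g a s t := by
    rw [hθ, add_sub_cancel_left, intervalIntegral.integral_of_le hθI.1.le,
      integral_Ioc_eq_integral_Ioo]
  rw [h1]
  have hsub : Ioo (p - δ) θ ⊆ Ioo (p - δ) (p - δ + 2 * Real.pi) := by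
    refine Ioo_subset_Ioo_right ?_
    linarith [hθI.2]
  have hfin : IsFiniteMeasure (volume.restrict (Ioo (p - δ) θ)) :=
    ⟨by rw [Measure.restrict_apply_univ]; exact measure_Ioo_lt_top⟩
  have hG2 : Integrable (fun t => Gq g a s t ^ 2) (volume.restrict (Ioo (p - δ) θ)) :=
    hGi.mono_set hsub
  have hG1 : Integrable (fun t => Gq g a s t) (volume.restrict (Ioo (p - δ) θ)) := by
    have h6 : MemLp (fun t => Gq g a s t) 2 (volume.restrict (Ioo (p - δ) θ)) :=
      (memLp_two_iff_integrable_sq hGm.aestronglyMeasurable).2 hG2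
    exact h6.integrable (by norm_num)
  have hcs := flux_cs (μ := volume.restrict (Ioo (p - δ) θ)) (f := fun t => Gq g a s t)
    (k := fun _ => (1:ℝ)) hG2 (by simp) (by simpa using hG1)
  simp only [mul_one, one_pow, integral_const, smul_eq_mul, MeasurableSet.univ,
    measureReal_restrict_apply, univ_inter, Real.volume_real_Ioo_of_le hθI.1.le] at hcs
  have hm0 : ∫ t in Ioo (p - δ) θ, Gq g a s t ^ 2 ≤ R :=
    (setIntegral_mono_set hGi (Eventually.of_forall fun _ => sq_nonneg _)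
      (Eventually.of_forall hsub)).trans hGint
  refine Real.abs_le_sqrt (hcs.trans ?_)
  have hR0 : 0 ≤ R := (hs.trans hsR).le
  have h8 : 0 ≤ θ - (p - δ) := by linarith [hθI.1]
  calc (∫ t in Ioo (p - δ) θ, Gq g a s t ^ 2) * (θ - (p - δ)) ≤ R * (θ - (p - δ)) :=
        mul_le_mul_of_nonneg_right hm0 h8
    _ ≤ R * (2 * δ) := mul_le_mul_of_nonneg_left (by linarith [hθI.2]) hR0
    _ = 2 * δ * R := by ring

theorem rigmix_freq_left {P : ℝ → Prop} {l s : ℝ} (hl : l < s)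
    (h : ∀ᵐ r ∂(volume.restrict (Ioo l s)), P r) {U : Set ℝ} (hU : U ∈ 𝓝 s) :
    ∃ r ∈ U, (l < r ∧ r < s) ∧ P r := by
  obtain ⟨x, y, ⟨hx, hy⟩, hsub⟩ := mem_nhds_iff_exists_Ioo_subset.1 hU
  by_contra hc
  push Not at hc
  rw [ae_restrict_iff' measurableSet_Ioo, ae_iff] at h
  have h1 : Ioo (max l x) s ⊆ {r | ¬ (r ∈ Ioo l s → P r)} := by
    intro r hr
    have h2 := max_lt_iff.1 hr.1
    rw [mem_ofPred_eq, Classical.not_imp]
    exact ⟨⟨h2.1, hr.2⟩, hc r (hsub ⟨h2.2, hr.2.trans hy⟩) ⟨h2.1, hr.2⟩⟩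
  have h3 := measure_mono_null h1 h
  rw [Real.volume_Ioo, ENNReal.ofReal_eq_zero] at h3
  have := max_lt hl hx
  linarith

theorem rigmix_freq_right {P : ℝ → Prop} {s t : ℝ} (hl : s < t)
    (h : ∀ᵐ r ∂(volume.restrict (Ioo s t)), P r) {U : Set ℝ} (hU : U ∈ 𝓝 s) :
    ∃ r ∈ U, (s < r ∧ r < t) ∧ P r := by
  obtain ⟨x, y, ⟨hx, hy⟩, hsub⟩ := mem_nhds_iff_exists_Ioo_subset.1 hU
  by_contra hc
  push Not at hc
  rw [ae_restrict_iff' measurableSet_Ioo, ae_iff] at h
  have h1 : Ioo s (min t y) ⊆ {r | ¬ (r ∈ Ioo s t → P r)} := by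
    intro r hr
    have h2 := lt_min_iff.1 hr.2
    rw [mem_ofPred_eq, Classical.not_imp]
    exact ⟨⟨hr.1, h2.1⟩, hc r (hsub ⟨hx.trans hr.1, h2.2⟩) ⟨hr.1, h2.1⟩⟩
  have h3 := measure_mono_null h1 h
  rw [Real.volume_Ioo, ENNReal.ofReal_eq_zero] at h3
  have := lt_min hl hy
  linarith

theorem rigmix_shift {P : ℝ → Prop} (hP : ∀ θ, P (θ + 2 * Real.pi) ↔ P θ) {x y : ℝ}
    (h : ∀ᵐ θ ∂(volume.restrict (Ioo (x + 2 * Real.pi) (y + 2 * Real.pi))), P θ) :
    ∀ᵐ θ ∂(volume.restrict (Ioo x y)), P θ := by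
  rw [ae_restrict_iff' measurableSet_Ioo] at h ⊢
  have h1 := (measurePreserving_add_right volume (2 * Real.pi)).quasiMeasurePreserving.ae h
  filter_upwards [h1] with θ hθ hθI
  exact (hP θ).1 (hθ ⟨by linarith [hθI.1], by linarith [hθI.2]⟩)

theorem rig_mix {Ω : Set ℂ} {u : ℂ → ℝ} {g j : ℂ → ℂ} (h : MSMin Ω u g j) {a : ℂ} {R s₀ : ℝ}
    (hR : ball a R ⊆ Ω) (hs₀ : s₀ ∈ Ioo 0 R)
    (hT : ∀ᵐ s ∂(volume.restrict (Ioo s₀ R)), Tq g a s + Vq g a s = 1 ∧
        (jumpSet Ω u ∩ sphere a s).encard = 1)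
    (hrad : (μH[1] : Measure ℂ) {x ∈ ball a R | inner ℝ (x - a) (j x) ≠ 0} = 0)
    {p₁ p₂ c₁ c₂ : ℝ} (hp : p₁ < p₂) (hp' : p₂ < p₁ + 2 * Real.pi) (hc : c₁ ≠ c₂)
    (hu : ∀ᵐ r ∂(volume.restrict (Ioo 0 s₀)),
        (∀ᵐ θ ∂(volume.restrict (Ioo p₁ p₂)), u (pc a r θ) = c₁) ∧
        ∀ᵐ θ ∂(volume.restrict (Ioo p₂ (p₁ + 2 * Real.pi))), u (pc a r θ) = c₂) : False := by
  have hpi := Real.pi_pos
  have hR0 : 0 < R := hs₀.1.trans hs₀.2
  set D := |c₁ - c₂| with hD
  have hD0 : 0 < D := abs_pos.2 (sub_ne_zero.2 hc)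
  set δ := min ((p₂ - p₁) / 2) (min ((2 * Real.pi - (p₂ - p₁)) / 2) (D ^ 2 / (16 * R))) with hδd
  have hδ : 0 < δ := by
    refine lt_min (by linarith) (lt_min (by linarith) (by positivity))
  have hδ1 : δ ≤ (p₂ - p₁) / 2 := min_le_left _ _
  have hδ2 : δ ≤ (2 * Real.pi - (p₂ - p₁)) / 2 := (min_le_right _ _).trans (min_le_left _ _)
  have hδ3 : δ ≤ D ^ 2 / (16 * R) := (min_le_right _ _).trans (min_le_right _ _)
  have hδπ : δ < Real.pi := by linarith
  have hκ := rigmix_k_pos hδ hδπ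
  obtain ⟨m₁, hm₁, hm₁u⟩ := rigmix_evol h.toSBVData hR hrad (rigmix_e_smooth p₁ δ)
    (rigmix_e_per p₁ δ)
  obtain ⟨m₂, hm₂, hm₂u⟩ := rigmix_evol h.toSBVData hR hrad (rigmix_e_smooth p₂ δ)
    (rigmix_e_per p₂ δ)
  have hsub1 : Ioo 0 s₀ ⊆ Ioo 0 R := Ioo_subset_Ioo_right hs₀.2.le
  have hsub2 : Ioo s₀ R ⊆ Ioo 0 R := Ioo_subset_Ioo_left hs₀.1.le
  -- the values at `s₀`
  have hval : ∀ᵐ r ∂(volume.restrict (Ioo 0 s₀)), m₁ r = rigmix_k δ * (c₁ - c₂) ∧
      m₂ r = rigmix_k δ * (c₂ - c₁) := by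
    filter_upwards [hu, ae_restrict_of_ae_restrict_of_subset hsub1 hm₁u,
      ae_restrict_of_ae_restrict_of_subset hsub1 hm₂u] with r hr h1 h2
    obtain ⟨g1, g2⟩ := hr
    have hper : ∀ t, u (pc a r (t + 2 * Real.pi)) = u (pc a r t) := fun t => by
      rw [flux_pc_per]
    rw [h1, h2]
    constructor
    · refine rigmix_jump (f := fun θ => u (pc a r θ)) hper hδ hδπ ?_ ?_
      · refine rigmix_shift (P := fun θ => u (pc a r θ) = c₂) (fun θ => by simp only [hper]) ?_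
        refine ae_restrict_of_ae_restrict_of_subset ?_ g2
        exact Ioo_subset_Ioo (by linarith) (by linarith)
      · refine ae_restrict_of_ae_restrict_of_subset ?_ g1
        exact Ioo_subset_Ioo le_rfl (by linarith)
    · refine rigmix_jump (f := fun θ => u (pc a r θ)) hper hδ hδπ ?_ ?_
      · refine ae_restrict_of_ae_restrict_of_subset ?_ g1
        exact Ioo_subset_Ioo (by linarith) le_rfl
      · refine ae_restrict_of_ae_restrict_of_subset ?_ g2
        exact Ioo_subset_Ioo le_rfl (by linarith)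
  have hv1 : m₁ s₀ = rigmix_k δ * (c₁ - c₂) := by
    by_contra hne
    obtain ⟨r, hrU, -, hr⟩ := rigmix_freq_left hs₀.1 hval ((hm₁ s₀ hs₀).eventually_ne hne)
    exact hrU hr.1
  have hv2 : m₂ s₀ = rigmix_k δ * (c₂ - c₁) := by
    by_contra hne
    obtain ⟨r, hrU, -, hr⟩ := rigmix_freq_left hs₀.1 hval ((hm₂ s₀ hs₀).eventually_ne hne)
    exact hrU hr.2
  -- the bound
  set B := 2 * Real.sqrt (2 * δ * R) * rigmix_k δ with hB
  have hsq : 2 * Real.sqrt (2 * δ * R) < D := by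
    have h1 : (2 * Real.sqrt (2 * δ * R)) ^ 2 < D ^ 2 := by
      rw [mul_pow, Real.sq_sqrt (by positivity)]
      have h2 : δ * (16 * R) ≤ D ^ 2 := by
        rwa [le_div_iff₀ (by positivity)] at hδ3
      nlinarith [sq_pos_of_pos hD0]
    exact lt_of_pow_lt_pow_left₀ 2 hD0.le h1
  have hBD : B < rigmix_k δ * D := by
    rw [hB, mul_comm (rigmix_k δ) D]
    exact mul_lt_mul_of_pos_right hsq hκ
  have ha1 : B < |m₁ s₀| := by
    rw [hv1, abs_mul, abs_of_pos hκ]; exact hBD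
  have ha2 : B < |m₂ s₀| := by
    rw [hv2, abs_mul, abs_of_pos hκ, abs_sub_comm]; exact hBD
  have hU1 : {r | B < |m₁ r|} ∈ 𝓝 s₀ := (hm₁ s₀ hs₀).abs.eventually (lt_mem_nhds ha1)
  have hU2 : {r | B < |m₂ r|} ∈ 𝓝 s₀ := (hm₂ s₀ hs₀).abs.eventually (lt_mem_nhds ha2)
  -- a good radius
  have hgood : ∀ᵐ r ∂(volume.restrict (Ioo s₀ R)), |m₁ r| ≤ B ∨ |m₂ r| ≤ B := by
    have hDq := (Dq_deriv h.meas_g (a := a) (R := R)
      (fun s hs => (flux_loc h.toSBVData hR hs).1)).1
    filter_upwards [hT, ae_restrict_of_ae_restrict_of_subset hsub2 hm₁u,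
      ae_restrict_of_ae_restrict_of_subset hsub2 hm₂u,
      ae_restrict_of_ae_restrict_of_subset hsub2 hDq,
      ae_restrict_of_ae_restrict_of_subset hsub2 (slice_arc h.toSBVData hR),
      ae_restrict_mem measurableSet_Ioo] with r hr h1 h2 h3 h4 h5
    have hr0 : 0 < r := hs₀.1.trans h5.1
    have hT1 : Tq g a r ≤ 1 := by
      have hV : 0 ≤ Vq g a r := mul_nonneg hr0.le (integral_nonneg fun θ => sq_nonneg _)
      linarith [hr.1]
    obtain ⟨x, hx⟩ := encard_eq_one.1 hr.2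
    have hmem : ∀ θ, pc a r θ ∈ jumpSet Ω u → pc a r θ = x := by
      intro θ hθ
      have h6 : pc a r θ ∈ jumpSet Ω u ∩ sphere a r :=
        ⟨hθ, by rw [mem_sphere, dist_eq_norm, flux_norm_pc a hr0.le]⟩
      rw [hx] at h6
      exact h6
    by_cases hJ1 : ∀ θ ∈ Ioo (p₁ - δ) (p₁ + δ), pc a r θ ∉ jumpSet Ω u
    · left
      rw [h1]
      exact rigmix_arc h.meas_u h.meas_g hr0 h5.2 hδ hδπ h4 h3.2 hT1 hJ1
    · right
      push Not at hJ1
      obtain ⟨θ₁, hθ₁, hJθ₁⟩ := hJ1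
      rw [h2]
      refine rigmix_arc h.meas_u h.meas_g hr0 h5.2 hδ hδπ h4 h3.2 hT1 ?_
      intro θ₂ hθ₂ hJθ₂
      exact rigmix_inj hr0 ((hmem θ₁ hJθ₁).trans (hmem θ₂ hJθ₂).symm)
        (by linarith [hθ₁.2, hθ₂.1]) (by linarith [hθ₁.1, hθ₂.2])
  obtain ⟨r, hrU, -, hr⟩ := rigmix_freq_right hs₀.2 hgood (inter_mem hU1 hU2)
  rcases hr with hr | hr
  · exact absurd hrU.1 (not_lt.2 hr)
  · exact absurd hrU.2 (not_lt.2 hr)

end Pool.Agent.MP099f24
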