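import Pool.Agent.Lib.MP_099f24_an.SD.Defs
import Pool.Agent.Lib.MP_099f24_an.SD.Polar
import Pool.Agent.Lib.MP_099f24_an.SD.Evol
import Pool.Agent.Lib.MP_099f24_an.SD.Fluxeq
import Pool.Agent.Lib.MP_099f24_an.SD.Funiq

namespace Pool.Agent.MP099f24

open MeasureTheory Filter Topology Set Metric
open scoped ENNReal ContDiff

/-- A periodic property which holds a.e. on one period holds a.e. -/
theorem rigtip_ae_periodic {P : ℝ → Prop} (hP : ∀ θ, P (θ + 2 * Real.pi) ↔ P θ) {p : ℝ}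
    (h : ∀ᵐ θ ∂(volume.restrict (Ioo p (p + 2 * Real.pi))), P θ) : ∀ᵐ θ, P θ := by
  have hPn : ∀ (n : ℤ) (θ : ℝ), P (θ + n * (2 * Real.pi)) ↔ P θ := by
    intro n
    induction n using Int.induction_on with
    | zero => intro θ; simp
    | succ n ih =>
      intro θ
      rw [← ih θ, ← hP (θ + ((n : ℤ) : ℝ) * (2 * Real.pi))]
      push_cast
      ring_nf
    | pred n ih =>
      intro θ
      rw [← ih θ, ← hP (θ + ((-(n : ℤ) - 1 : ℤ) : ℝ) * (2 * Real.pi))]
      push_cast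
      ring_nf
  have h1 : volume ({θ | ¬ P θ} ∩ Ioo p (p + 2 * Real.pi)) = 0 := by
    rw [ae_restrict_iff' measurableSet_Ioo, ae_iff] at h
    refine measure_mono_null ?_ h
    rintro θ ⟨h2, h3⟩
    simp only [Set.mem_ofPred_eq, Classical.not_imp]
    exact ⟨h3, h2⟩
  have h2 : volume ({θ | ¬ P θ} ∩ Ico p (p + 2 * Real.pi)) = 0 := by
    refine measure_mono_null (t := ({θ | ¬ P θ} ∩ Ioo p (p + 2 * Real.pi)) ∪ {p}) ?_ ?_
    · rintro θ ⟨h3, h4⟩
      rcases h4.1.eq_or_lt with h5 | h5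
      · right; exact h5.symm
      · left; exact ⟨h3, h5, h4.2⟩
    · rw [measure_union_null_iff]
      exact ⟨h1, by simp⟩
  rw [ae_iff]
  have h3 : {θ | ¬ P θ} ⊆ ⋃ n : ℤ, (fun θ : ℝ => θ + n * (2 * Real.pi)) ⁻¹'
      ({θ | ¬ P θ} ∩ Ico p (p + 2 * Real.pi)) := by
    intro θ hθ
    have hpos : (0 : ℝ) < 2 * Real.pi := by positivity
    obtain ⟨n, hn, -⟩ := existsUnique_add_zsmul_mem_Ico hpos θ p
    rw [mem_iUnion]
    refine ⟨n, ?_, ?_⟩
    · show ¬ P (θ + n * (2 * Real.pi))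
      rw [hPn]
      exact hθ
    · simpa using hn
  refine measure_mono_null h3 ?_
  rw [measure_iUnion_null_iff]
  intro n
  rw [measure_preimage_add_right]
  exact h2

lemma rigtip_pc_periodic (a : ℂ) (s θ : ℝ) : pc a s (θ + 2 * Real.pi) = pc a s θ := by
  have e1 : er (θ + 2 * Real.pi) = er θ := by
    rw [er, er]
    push_cast
    rw [add_mul, Complex.exp_add, Complex.exp_two_pi_mul_I, mul_one]
  rw [pc, pc, e1]

lemma rigtip_er_periodic (θ : ℝ) : er (θ + 2 * Real.pi) = er θ := by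
  rw [er, er]
  push_cast
  rw [add_mul, Complex.exp_add, Complex.exp_two_pi_mul_I, mul_one]

lemma rigtip_int_periodic {f : ℝ → ℝ} (hf : ∀ θ, f (θ + 2 * Real.pi) = f θ) (p : ℝ) :
    ∫ θ in Ioo (-Real.pi) Real.pi, f θ = ∫ θ in Ioo p (p + 2 * Real.pi), f θ := by
  have hper : Function.Periodic f (2 * Real.pi) := hf
  have h1 := hper.intervalIntegral_add_eq (-Real.pi) p
  have hpi := Real.pi_pos
  rw [intervalIntegral.integral_of_le (by linarith), intervalIntegral.integral_of_le (by linarith),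
    integral_Ioc_eq_integral_Ioo, integral_Ioc_eq_integral_Ioo] at h1
  have h2 : -Real.pi + 2 * Real.pi = Real.pi := by ring
  rw [h2] at h1
  exact h1

lemma rigtip_polar_conv {a : ℂ} {R : ℝ} {T : ℂ → Prop} (hT : MeasurableSet {x | T x})
    (h : ∀ᵐ s ∂(volume.restrict (Ioo 0 R)), ∀ᵐ θ ∂(volume.restrict (Ioo (-Real.pi) Real.pi)),
      T (pc a s θ)) : ∀ᵐ x ∂volume.restrict (ball a R), T x := by
  rcases le_or_gt R 0 with hR | hR
  · rw [ball_eq_empty.2 hR]
    simp
  have h1 := polar_lintegral a (P := Ioo 0 R) measurableSet_Ioo (fun x hx => hx.1)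
    ({x | ¬ T x}.indicator (fun _ => (1 : ℝ≥0∞)))
  have hTc : MeasurableSet {x | ¬ T x} := hT.compl
  have hprod : ∀ᵐ z ∂((volume.restrict (Ioo 0 R)).prod
      (volume.restrict (Ioo (-Real.pi) Real.pi))), T (pc a z.1 z.2) := by
    rw [Measure.ae_prod_iff_ae_ae]
    · exact h
    · exact (polar_pc_cont a).measurable hT
  have h2 : ∫⁻ p in Ioo 0 R ×ˢ Ioo (-Real.pi) Real.pi, ENNReal.ofReal p.1 *
      ({x | ¬ T x}.indicator (fun _ => (1 : ℝ≥0∞))) (pc a p.1 p.2) = 0 := by
    rw [Measure.volume_eq_prod, ← Measure.prod_restrict]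
    rw [lintegral_eq_zero_iff']
    · filter_upwards [hprod] with z hz
      have : pc a z.1 z.2 ∉ {x | ¬ T x} := fun hcon => hcon hz
      simp [Set.indicator_of_notMem this]
    · refine Measurable.aemeasurable ?_
      refine (ENNReal.measurable_ofReal.comp measurable_fst).mul ?_
      exact (measurable_const.indicator hTc).comp (polar_pc_cont a).measurable
  rw [h2, lintegral_indicator hTc, setLIntegral_one, Measure.restrict_apply hTc] at h1
  have h3 : volume ({x | ¬ T x} ∩ ball a R) = 0 := by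
    have h4 := (polar_ball_ae a hR)
    rw [measure_congr ((ae_eq_refl {x | ¬ T x}).inter h4)]
    exact h1
  rw [ae_restrict_iff' measurableSet_ball, ae_iff]
  refine measure_mono_null ?_ h3
  intro x hx
  simp only [mem_ofPred_eq, Classical.not_imp] at hx
  exact ⟨hx.2, hx.1⟩

lemma rigtip_ctip (a : ℂ) {r θ p : ℝ} (hr : 0 < r) (hθ : θ ∈ Ioo p (p + 2 * Real.pi)) :
    ctip (-er p) (pc a r θ - a) = -(Real.sqrt (2 * r / Real.pi) * Real.cos ((θ - p) / 2)) := by
  unfold ctip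
  have h1 : ‖pc a r θ - a‖ = r := by
    rw [← Complex.dist_eq]; exact polar_dist a hr θ
  have h2 : (pc a r θ - a) * (starRingEnd ℂ) (-er p) = pc a r (θ - p - Real.pi) - a := by
    rw [pc, pc, er, er, er, add_sub_cancel_left, add_sub_cancel_left, map_neg, ← Complex.exp_conj]
    simp only [map_mul, Complex.conj_ofReal, Complex.conj_I]
    push_cast
    rw [sub_mul, sub_mul, Complex.exp_sub, Complex.exp_sub, Complex.exp_pi_mul_I]
    have e : (p : ℂ) * -Complex.I = -(p * Complex.I) := by ring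
    rw [e, Complex.exp_neg]
    field_simp
  rw [h1, h2, polar_arg_pc a hr ⟨by linarith [hθ.1], by linarith [hθ.2]⟩]
  have h3 : (θ - p - Real.pi) / 2 = (θ - p) / 2 - Real.pi / 2 := by ring
  rw [h3, Real.sin_sub_pi_div_two]
  ring

/-- the ordinary differential equation -/
lemma rigtip_ode {N β : ℝ → ℝ} {R : ℝ}
    (hN : ∀ s ∈ Ioo 0 R, ∀ t ∈ Ioo 0 R, N t - N s = ∫ r in s..t, β r)
    (hβ : ∀ᵐ r ∂(volume.restrict (Ioo 0 R)), β r = N r / (2 * r))
    (hint : ∀ s ∈ Ioo 0 R, ∀ t ∈ Ioo 0 R, IntervalIntegrable β volume s t) :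
    ∀ s ∈ Ioo 0 R, ∀ t ∈ Ioo 0 R, s ≤ t → N t / Real.sqrt t = N s / Real.sqrt s := by
  have hcont : ContinuousOn N (Ioo 0 R) := by
    intro t₀ ht₀
    set c := t₀ / 2
    set d := (t₀ + R) / 2
    have hc : c ∈ Ioo 0 R := ⟨by simp only [c]; linarith [ht₀.1], by simp only [c]; linarith [ht₀.1, ht₀.2]⟩
    have hd : d ∈ Ioo 0 R := ⟨by simp only [d]; linarith [ht₀.1, ht₀.2], by simp only [d]; linarith [ht₀.2]⟩
    have hcd : c < t₀ ∧ t₀ < d := ⟨by simp only [c]; linarith [ht₀.1], by simp only [d]; linarith [ht₀.2]⟩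
    have h1 := intervalIntegral.continuousOn_primitive_interval' (hint c hc d hd)
      (left_mem_uIcc)
    have h2 : ContinuousAt (fun b => ∫ x in c..b, β x) t₀ := by
      apply h1.continuousAt
      rw [uIcc_of_le (by linarith [hcd.1, hcd.2])]
      exact Icc_mem_nhds hcd.1 hcd.2
    have h3 : ContinuousAt (fun b => N c + ∫ x in c..b, β x) t₀ := continuousAt_const.add h2
    have h4 : (fun b => N c + ∫ x in c..b, β x) =ᶠ[𝓝 t₀] N := by
      filter_upwards [isOpen_Ioo.mem_nhds ht₀] with b hb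
      have := hN c hc b hb
      linarith
    exact (h3.congr h4).continuousWithinAt
  have hderiv : ∀ t ∈ Ioo 0 R, HasDerivAt N (N t / (2 * t)) t := by
    intro t ht
    have h1 : ∀ s ∈ Ioo 0 R, N s = N t + ∫ r in t..s, N r / (2 * r) := by
      intro s hs
      have h2 := hN t ht s hs
      have h3 : ∫ r in t..s, β r = ∫ r in t..s, N r / (2 * r) := by
        apply intervalIntegral.integral_congr_ae
        rw [ae_restrict_iff' measurableSet_Ioo] at hβ
        filter_upwards [hβ] with r hr hrm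
        apply hr
        rcases le_total t s with hts | hts
        · rw [uIoc_of_le hts] at hrm
          exact ⟨ht.1.trans hrm.1, hrm.2.trans_lt hs.2⟩
        · rw [uIoc_of_ge hts] at hrm
          exact ⟨hs.1.trans hrm.1, hrm.2.trans_lt ht.2⟩
      linarith
    have hct : ContinuousAt (fun r => N r / (2 * r)) t := by
      have h5 : ContinuousAt N t := hcont.continuousAt (isOpen_Ioo.mem_nhds ht)
      exact h5.div (by fun_prop) (by have := ht.1; positivity)
    have hsm : StronglyMeasurableAtFilter (fun r => N r / (2 * r)) (𝓝 t) := by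
      have h6 : ContinuousOn (fun r => N r / (2 * r)) (Ioo 0 R) :=
        hcont.div (by fun_prop) (fun x hx => by have := hx.1; positivity)
      exact h6.stronglyMeasurableAtFilter isOpen_Ioo t ht
    have h4 : HasDerivAt (fun s => N t + ∫ r in t..s, N r / (2 * r)) (N t / (2 * t)) t := by
      have := intervalIntegral.integral_hasDerivAt_right
        (f := fun r => N r / (2 * r)) (a := t) (b := t) (by simp) hsm hct
      exact this.const_add _
    refine h4.congr_of_eventuallyEq ?_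
    filter_upwards [isOpen_Ioo.mem_nhds ht] with s hs
    exact h1 s hs
  intro s hs t ht hst
  have hquot : ∀ x ∈ Icc s t, HasDerivAt (fun x => N x / Real.sqrt x) 0 x := by
    intro x hx
    have hxR : x ∈ Ioo 0 R := ⟨hs.1.trans_le hx.1, hx.2.trans_lt ht.2⟩
    have hx0 : x ≠ 0 := hxR.1.ne'
    have h1 := (hderiv x hxR).div (Real.hasDerivAt_sqrt hx0) (Real.sqrt_ne_zero'.2 hxR.1)
    have hsq : Real.sqrt x ^ 2 = x := Real.sq_sqrt hxR.1.le
    have hsx : Real.sqrt x ≠ 0 := Real.sqrt_ne_zero'.2 hxR.1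
    have h2 : (N x / (2 * x) * Real.sqrt x - N x * (1 / (2 * Real.sqrt x))) / Real.sqrt x ^ 2 =
        0 := by
      have h3 : N x / (2 * x) * Real.sqrt x = N x * (1 / (2 * Real.sqrt x)) := by
        rw [← hsq]
        have : Real.sqrt (Real.sqrt x ^ 2) = Real.sqrt x := by rw [hsq]
        rw [this]
        field_simp
      rw [h3, sub_self, zero_div]
    rw [h2] at h1
    exact h1
  have h1 := constant_of_has_deriv_right_zero (f := fun x => N x / Real.sqrt x) (a := s) (b := t)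
    (fun x hx => (hquot x hx).continuousAt.continuousWithinAt)
    (fun x hx => (hquot x ⟨hx.1, hx.2.le⟩).hasDerivWithinAt) t ⟨hst, le_rfl⟩
  exact h1

/-- the structure of the slice of radius `s` -/
def RigtipGood (u : ℂ → ℝ) (g : ℂ → ℂ) (a : ℂ) (s m : ℝ) : Prop :=
  ∃ p A : ℝ, A ^ 2 = 2 * s / Real.pi ∧
    (∀ᵐ θ ∂(volume.restrict (Ioo p (p + 2 * Real.pi))),
      u (pc a s θ) = m + A * Real.cos ((θ - p) / 2)) ∧
    (∀ᵐ θ, inner ℝ (g (pc a s θ)) (er θ) = (u (pc a s θ) - m) / (2 * s)) ∧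
    (∀ᵐ θ, |u (pc a s θ) - m| ≤ Real.sqrt (2 * s / Real.pi)) ∧
    ∫ θ in Ioo (-Real.pi) Real.pi, (u (pc a s θ) - m) = 0

lemma rigtip_cos_int (p : ℝ) :
    ∫ θ in Ioo p (p + 2 * Real.pi), Real.cos ((θ - p) / 2) = 0 := by
  have hpi := Real.pi_pos
  rw [← integral_Ioc_eq_integral_Ioo, ← intervalIntegral.integral_of_le (by linarith)]
  rw [intervalIntegral.integral_eq_sub_of_hasDerivAt (f := fun θ => 2 * Real.sin ((θ - p) / 2))]
  · have h1 : (p + 2 * Real.pi - p) / 2 = Real.pi := by ring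
    rw [h1]
    simp
  · intro x _
    have h1 : HasDerivAt (fun θ : ℝ => (θ - p) / 2) (1 / 2) x :=
      ((hasDerivAt_id x).sub_const p).div_const 2
    have h2 := (h1.sin).const_mul 2
    have h3 : 2 * (Real.cos ((x - p) / 2) * (1 / 2)) = Real.cos ((x - p) / 2) := by ring
    rw [h3] at h2
    exact h2
  · exact (Continuous.intervalIntegrable (by fun_prop) _ _)

lemma rigtip_meas_slice {u : ℂ → ℝ} (hu : Measurable u) (a : ℂ) (s : ℝ) :
    Measurable (fun θ => u (pc a s θ)) :=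
  hu.comp ((polar_pc_cont a).comp (continuous_const.prodMk continuous_id)).measurable

lemma rigtip_int_mul {u : ℂ → ℝ} (hu : Measurable u) {a : ℂ} {s m B : ℝ}
    (hb : ∀ᵐ θ, |u (pc a s θ) - m| ≤ B) {η : ℝ → ℝ} (hη : Continuous η) (hη1 : ∀ θ, |η θ| ≤ 1) :
    IntegrableOn (fun θ => (u (pc a s θ) - m) * η θ) (Ioo (-Real.pi) Real.pi) := by
  refine Integrable.mono' (g := fun _ => B) (integrableOn_const (by simp)) ?_ ?_
  · exact (((rigtip_meas_slice hu a s).sub_const m).mul hη.measurable).aestronglyMeasurable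
  · filter_upwards [ae_restrict_of_ae hb] with θ hθ
    rw [Real.norm_eq_abs, abs_mul]
    have h1 := hη1 θ
    have h2 := abs_nonneg (u (pc a s θ) - m)
    nlinarith [abs_nonneg (η θ)]

lemma rigtip_good {Ω : Set ℂ} {u : ℂ → ℝ} {g j : ℂ → ℂ} (h : MSMin Ω u g j) {a : ℂ} {R : ℝ}
    (hR : ball a R ⊆ Ω) (hD : ∀ s ∈ Ioo 0 R, Dq g a s = s)
    (hT : ∀ᵐ s ∂(volume.restrict (Ioo 0 R)), Tq g a s + Vq g a s = 1 ∧
        (jumpSet Ω u ∩ sphere a s).encard = 1) :
    ∀ᵐ s ∂(volume.restrict (Ioo 0 R)), ∃ m, RigtipGood u g a s m := by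
  filter_upwards [flux_equality h hR, hT, ae_restrict_mem measurableSet_Ioo] with s hs1 hs2 hs
  obtain ⟨hTV, hcard⟩ := hs2
  obtain ⟨x, hx⟩ := Set.encard_eq_one.1 hcard
  have hxs : x ∈ sphere a s := by
    have : x ∈ jumpSet Ω u ∩ sphere a s := by rw [hx]; rfl
    exact this.2
  have hxp : x = pc a s (x - a).arg := by
    have h1 := polar_sub_eq x a
    rw [mem_sphere.1 hxs] at h1
    rw [pc, ← h1]
    ring
  obtain ⟨m, A, hA, h1, h2⟩ := hs1 (x - a).arg (by rw [hx]; intro y hy; rw [← hxp]; exact hy)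
    (hD s hs) hTV
  set p := (x - a).arg
  have hbound : ∀ᵐ θ, |u (pc a s θ) - m| ≤ Real.sqrt (2 * s / Real.pi) := by
    refine rigtip_ae_periodic (P := fun θ => |u (pc a s θ) - m| ≤ Real.sqrt (2 * s / Real.pi))
      (fun θ => by rw [rigtip_pc_periodic]) (p := p) ?_
    filter_upwards [h1] with θ hθ
    rw [hθ, add_sub_cancel_left, abs_mul, ← hA, Real.sqrt_sq_eq_abs]
    have := Real.abs_cos_le_one ((θ - p) / 2)
    nlinarith [abs_nonneg A]
  refine ⟨m, p, A, hA, h1, ?_, hbound, ?_⟩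
  · refine rigtip_ae_periodic (P := fun θ => inner ℝ (g (pc a s θ)) (er θ) =
      (u (pc a s θ) - m) / (2 * s)) (fun θ => by
        rw [rigtip_pc_periodic, rigtip_er_periodic]) h2
  · rw [rigtip_int_periodic (f := fun θ => u (pc a s θ) - m)
      (fun θ => by rw [rigtip_pc_periodic]) p]
    have h3 : ∫ θ in Ioo p (p + 2 * Real.pi), (u (pc a s θ) - m) =
        ∫ θ in Ioo p (p + 2 * Real.pi), A * Real.cos ((θ - p) / 2) := by
      refine integral_congr_ae ?_
      filter_upwards [h1] with θ hθ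
      rw [hθ]; ring
    rw [h3, integral_const_mul, rigtip_cos_int, mul_zero]

lemma rigtip_mean {Ω : Set ℂ} {u : ℂ → ℝ} {g j : ℂ → ℂ} (h : MSMin Ω u g j) {a : ℂ} {R : ℝ}
    (hR : ball a R ⊆ Ω) (hR0 : 0 < R)
    (hrad : (μH[1] : Measure ℂ) {x ∈ ball a R | inner ℝ (x - a) (j x) ≠ 0} = 0)
    (hgood : ∀ᵐ s ∂(volume.restrict (Ioo 0 R)), ∃ m, RigtipGood u g a s m) :
    ∃ m, ∀ᵐ s ∂(volume.restrict (Ioo 0 R)), RigtipGood u g a s m := by
  have hpi := Real.pi_pos
  obtain ⟨M, hM1, hM2⟩ := radial_evol h.toSBVData hR hrad (η := fun _ => 1) contDiff_const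
    (fun _ => rfl)
  have hβ : ∀ᵐ r ∂(volume.restrict (Ioo 0 R)), ∫ θ in Ioo (-Real.pi) Real.pi,
      inner ℝ (g (pc a r θ)) (er θ) * (1 : ℝ) = 0 := by
    filter_upwards [hgood] with s hs
    obtain ⟨m, p, A, -, -, h2, -, h4⟩ := hs
    have h5 : ∫ θ in Ioo (-Real.pi) Real.pi, inner ℝ (g (pc a s θ)) (er θ) * (1 : ℝ) =
        ∫ θ in Ioo (-Real.pi) Real.pi, (u (pc a s θ) - m) / (2 * s) := by
      refine integral_congr_ae ?_
      filter_upwards [ae_restrict_of_ae h2] with θ hθ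
      rw [mul_one, hθ]
    rw [h5, integral_div, h4, zero_div]
  have hMc : ∀ s ∈ Ioo 0 R, ∀ t ∈ Ioo 0 R, M t = M s := by
    intro s hs t ht
    have h1 := hM1 s hs t ht
    have h2 : ∫ r in s..t, ∫ θ in Ioo (-Real.pi) Real.pi,
        inner ℝ (g (pc a r θ)) (er θ) * (1 : ℝ) = ∫ r in s..t, (0 : ℝ) := by
      apply intervalIntegral.integral_congr_ae
      rw [ae_restrict_iff' measurableSet_Ioo] at hβ
      filter_upwards [hβ] with r hr hrm
      apply hr
      rcases le_total s t with hts | hts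
      · rw [uIoc_of_le hts] at hrm
        exact ⟨hs.1.trans hrm.1, hrm.2.trans_lt ht.2⟩
      · rw [uIoc_of_ge hts] at hrm
        exact ⟨ht.1.trans hrm.1, hrm.2.trans_lt hs.2⟩
    rw [h2, intervalIntegral.integral_zero] at h1
    linarith
  have hmid : R / 2 ∈ Ioo 0 R := ⟨by linarith, by linarith⟩
  refine ⟨M (R / 2) / (2 * Real.pi), ?_⟩
  filter_upwards [hgood, hM2, ae_restrict_mem measurableSet_Ioo] with s hs hMs hsm
  obtain ⟨m, hm⟩ := hs
  have hmm : m = M (R / 2) / (2 * Real.pi) := by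
    obtain ⟨p, A, -, -, -, h3, h4⟩ := hm
    have h5 := rigtip_int_mul h.meas_u h3 (η := fun _ => 1) continuous_const (by simp)
    have h6 : ∫ θ in Ioo (-Real.pi) Real.pi, u (pc a s θ) * (1 : ℝ) =
        ∫ θ in Ioo (-Real.pi) Real.pi, ((u (pc a s θ) - m) * (1 : ℝ) + m) :=
      integral_congr_ae (Eventually.of_forall fun θ => by simp)
    rw [integral_add h5 (integrableOn_const (by simp))] at h6
    simp only [mul_one] at h6
    rw [h4] at h6
    simp only [mul_one] at hMs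
    rw [h6, hMc _ hmid s hsm] at hMs
    rw [setIntegral_const] at hMs
    simp only [measureReal_def, Real.volume_Ioo, smul_eq_mul, zero_add] at hMs
    rw [ENNReal.toReal_ofReal (by linarith)] at hMs
    rw [hMs]
    field_simp
    ring
  rw [← hmm]
  exact hm

lemma rigtip_eta {Ω : Set ℂ} {u : ℂ → ℝ} {g j : ℂ → ℂ} (h : MSMin Ω u g j) {a : ℂ} {R : ℝ}
    (hR : ball a R ⊆ Ω)
    (hrad : (μH[1] : Measure ℂ) {x ∈ ball a R | inner ℝ (x - a) (j x) ≠ 0} = 0) {m : ℝ}
    (hgood : ∀ᵐ s ∂(volume.restrict (Ioo 0 R)), RigtipGood u g a s m) {η : ℝ → ℝ}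
    (hη : ContDiff ℝ ∞ η) (hper : ∀ t, η (t + 2 * Real.pi) = η t) (hη1 : ∀ θ, |η θ| ≤ 1) :
    ∃ N : ℝ → ℝ, (∀ s ∈ Ioo 0 R, ∀ t ∈ Ioo 0 R, N t / Real.sqrt t = N s / Real.sqrt s) ∧
      ∀ᵐ r ∂(volume.restrict (Ioo 0 R)),
        N r = ∫ θ in Ioo (-Real.pi) Real.pi, (u (pc a r θ) - m) * η θ := by
  have hpi := Real.pi_pos
  obtain ⟨M, hM1, hM2⟩ := radial_evol h.toSBVData hR hrad hη hper
  set c := ∫ θ in Ioo (-Real.pi) Real.pi, η θ with hc
  set β : ℝ → ℝ := fun r => ∫ θ in Ioo (-Real.pi) Real.pi,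
    inner ℝ (g (pc a r θ)) (er θ) * η θ with hβdef
  have hηc := hη.continuous
  have hηint : IntegrableOn η (Ioo (-Real.pi) Real.pi) :=
    (hηc.integrableOn_Icc (a := -Real.pi) (b := Real.pi)).mono_set Ioo_subset_Icc_self
  have hN2 : ∀ᵐ r ∂(volume.restrict (Ioo 0 R)),
      M r - m * c = ∫ θ in Ioo (-Real.pi) Real.pi, (u (pc a r θ) - m) * η θ := by
    filter_upwards [hgood, hM2] with s hs hMs
    obtain ⟨p, A, -, -, -, h3, -⟩ := hs
    have h5 := rigtip_int_mul h.meas_u h3 hηc hη1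
    have h6 : ∫ θ in Ioo (-Real.pi) Real.pi, u (pc a s θ) * η θ =
        ∫ θ in Ioo (-Real.pi) Real.pi, ((u (pc a s θ) - m) * η θ + m * η θ) :=
      integral_congr_ae (Eventually.of_forall fun θ => by ring)
    rw [integral_add h5 (hηint.const_mul m), integral_const_mul] at h6
    rw [hMs, h6]
    ring
  have hβ : ∀ᵐ r ∂(volume.restrict (Ioo 0 R)), β r = (M r - m * c) / (2 * r) := by
    filter_upwards [hgood, hN2] with s hs hNs
    obtain ⟨p, A, -, -, h2, -, -⟩ := hs
    rw [hNs, ← integral_div]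
    refine integral_congr_ae ?_
    filter_upwards [ae_restrict_of_ae h2] with θ hθ
    rw [hθ]; ring
  have hβm : StronglyMeasurable β := by
    have h1 : Measurable (fun z : ℝ × ℝ => inner ℝ (g (pc a z.1 z.2)) (er z.2) * η z.2) := by
      have h2 : Measurable (fun z : ℝ × ℝ => g (pc a z.1 z.2)) :=
        h.meas_g.comp (polar_pc_cont a).measurable
      have h3 : Measurable (fun z : ℝ × ℝ => er z.2) :=
        (polar_er_cont.comp continuous_snd).measurable
      exact (h2.inner h3).mul (hηc.measurable.comp measurable_snd)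
    exact h1.stronglyMeasurable.integral_prod_right'
  have hbd : ∀ᵐ r ∂(volume.restrict (Ioo 0 R)),
      |β r| ≤ Real.sqrt (2 * R / Real.pi) * (2 * Real.pi) / (2 * r) := by
    filter_upwards [hgood, hβ, hN2, ae_restrict_mem measurableSet_Ioo] with s hs hβs hNs hsm
    obtain ⟨p, A, -, -, -, h3, -⟩ := hs
    rw [hβs, hNs, abs_div, abs_of_pos (by have := hsm.1; positivity : 0 < 2 * s)]
    have hs0 := hsm.1
    gcongr
    have h6 : ‖∫ θ in Ioo (-Real.pi) Real.pi, (u (pc a s θ) - m) * η θ‖ ≤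
        Real.sqrt (2 * R / Real.pi) * (volume (Ioo (-Real.pi) Real.pi)).toReal := by
      refine norm_setIntegral_le_of_norm_le_const_ae (by simp) ?_
      have : ∀ᵐ θ : ℝ, θ ∈ Ioo (-Real.pi) Real.pi → ‖(u (pc a s θ) - m) * η θ‖ ≤
          Real.sqrt (2 * R / Real.pi) := by
        filter_upwards [h3] with θ hθ _
        rw [Real.norm_eq_abs, abs_mul]
        have h7 := hη1 θ
        have h8 := abs_nonneg (u (pc a s θ) - m)
        have h9 : Real.sqrt (2 * s / Real.pi) ≤ Real.sqrt (2 * R / Real.pi) := by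
          apply Real.sqrt_le_sqrt
          have := hsm.2
          gcongr
        nlinarith [abs_nonneg (η θ)]
      first
        | exact this
        | exact (ae_restrict_iff' measurableSet_Ioo).2 this
    rw [Real.norm_eq_abs, Real.volume_Ioo, ENNReal.toReal_ofReal (by linarith)] at h6
    calc _ ≤ _ := h6
      _ = _ := by ring
  have hint : ∀ s ∈ Ioo 0 R, ∀ t ∈ Ioo 0 R, IntervalIntegrable β volume s t := by
    intro s hs t ht
    rw [intervalIntegrable_iff]
    set b := min s t with hb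
    have hb0 : 0 < b := lt_min hs.1 ht.1
    refine Integrable.mono' (g := fun _ => Real.sqrt (2 * R / Real.pi) * (2 * Real.pi) / (2 * b))
      (integrableOn_const (by simp [uIoc])) hβm.aestronglyMeasurable ?_
    rw [ae_restrict_iff' measurableSet_uIoc]
    rw [ae_restrict_iff' measurableSet_Ioo] at hbd
    filter_upwards [hbd] with r hr hrm
    have hrm' : b < r ∧ r ≤ max s t := hrm
    have hrR : r < R := hrm'.2.trans_lt (max_lt hs.2 ht.2)
    have h1 := hr ⟨hb0.trans hrm'.1, hrR⟩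
    rw [Real.norm_eq_abs]
    refine h1.trans ?_
    have := hrm'.1
    gcongr
  have hode := rigtip_ode (N := fun r => M r - m * c) (β := β) (R := R)
    (fun s hs t ht => by
      have := hM1 s hs t ht
      change (M t - m * c) - (M s - m * c) = _
      linarith) hβ hint
  refine ⟨fun r => M r - m * c, ?_, hN2⟩
  intro s hs t ht
  rcases le_total s t with hst | hst
  · exact hode s hs t ht hst
  · exact (hode t ht s hs hst).symm

theorem rig_tip {Ω : Set ℂ} {u : ℂ → ℝ} {g j : ℂ → ℂ} (h : MSMin Ω u g j) {a : ℂ} {R : ℝ}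
    (hR : ball a R ⊆ Ω) (hR0 : 0 < R) (hD : ∀ s ∈ Ioo 0 R, Dq g a s = s)
    (hT : ∀ᵐ s ∂(volume.restrict (Ioo 0 R)), Tq g a s + Vq g a s = 1 ∧
        (jumpSet Ω u ∩ sphere a s).encard = 1)
    (hrad : (μH[1] : Measure ℂ) {x ∈ ball a R | inner ℝ (x - a) (j x) ≠ 0} = 0) :
    ∃ (c : ℝ) (e : ℂ), ‖e‖ = 1 ∧ ((∀ᵐ x ∂(volume.restrict (ball a R)), u x = c + ctip e (x - a)) ∨
      ∀ᵐ x ∂(volume.restrict (ball a R)), u x = c - ctip e (x - a)) := by
  have hpi := Real.pi_pos
  obtain ⟨m, hgood⟩ := rigtip_mean h hR hR0 hrad (rigtip_good h hR hD hT)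
  have hcos : ∀ k : ℕ, ∃ N : ℝ → ℝ, (∀ s ∈ Ioo 0 R, ∀ t ∈ Ioo 0 R,
      N t / Real.sqrt t = N s / Real.sqrt s) ∧ ∀ᵐ r ∂(volume.restrict (Ioo 0 R)),
        N r = ∫ θ in Ioo (-Real.pi) Real.pi, (u (pc a r θ) - m) * Real.cos (k * θ) := by
    intro k
    refine rigtip_eta h hR hrad hgood (η := fun θ => Real.cos (k * θ)) ?_ ?_
      (fun θ => Real.abs_cos_le_one _)
    · fun_prop
    · intro t
      have : (k : ℝ) * (t + 2 * Real.pi) = k * t + k * (2 * Real.pi) := by ring
      simp only [this, Real.cos_add_nat_mul_two_pi]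
  have hsin : ∀ k : ℕ, ∃ N : ℝ → ℝ, (∀ s ∈ Ioo 0 R, ∀ t ∈ Ioo 0 R,
      N t / Real.sqrt t = N s / Real.sqrt s) ∧ ∀ᵐ r ∂(volume.restrict (Ioo 0 R)),
        N r = ∫ θ in Ioo (-Real.pi) Real.pi, (u (pc a r θ) - m) * Real.sin (k * θ) := by
    intro k
    refine rigtip_eta h hR hrad hgood (η := fun θ => Real.sin (k * θ)) ?_ ?_
      (fun θ => Real.abs_sin_le_one _)
    · fun_prop
    · intro t
      have : (k : ℝ) * (t + 2 * Real.pi) = k * t + k * (2 * Real.pi) := by ring
      simp only [this, Real.sin_add_nat_mul_two_pi]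
  choose Nc hNc1 hNc2 using hcos
  choose Ns hNs1 hNs2 using hsin
  have hall : ∀ᵐ r ∂(volume.restrict (Ioo 0 R)), r ∈ Ioo 0 R ∧ RigtipGood u g a r m ∧
      (∀ k : ℕ, Nc k r = ∫ θ in Ioo (-Real.pi) Real.pi, (u (pc a r θ) - m) * Real.cos (k * θ)) ∧
      ∀ k : ℕ, Ns k r = ∫ θ in Ioo (-Real.pi) Real.pi, (u (pc a r θ) - m) * Real.sin (k * θ) := by
    filter_upwards [ae_restrict_mem measurableSet_Ioo, hgood, ae_all_iff.2 hNc2,
      ae_all_iff.2 hNs2] with r h1 h2 h3 h4
    exact ⟨h1, h2, h3, h4⟩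
  have hne : (ae (volume.restrict (Ioo (0 : ℝ) R))).NeBot := by
    rw [ae_neBot]
    intro h0
    have h1 := congrArg (fun μ : Measure ℝ => μ univ) h0
    simp only [Measure.restrict_apply_univ, Real.volume_Ioo, Measure.coe_zero,
      Pi.zero_apply, ENNReal.ofReal_eq_zero] at h1
    linarith
  obtain ⟨s₁, hs₁, hg₁, hc₁, hsn₁⟩ := hall.exists
  obtain ⟨p, A, hA, hf₁, -, hb₁, -⟩ := hg₁
  have hsq₁ : 0 < Real.sqrt s₁ := Real.sqrt_pos.2 hs₁.1
  -- all slices are proportional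
  have hprop : ∀ᵐ s ∂(volume.restrict (Ioo 0 R)), s ∈ Ioo 0 R ∧
      ∀ᵐ θ, u (pc a s θ) = m + Real.sqrt s / Real.sqrt s₁ * (u (pc a s₁ θ) - m) := by
    filter_upwards [hall] with s hs
    obtain ⟨hsm, ⟨-, -, -, -, -, hb, -⟩, hc, hsn⟩ := hs
    refine ⟨hsm, ?_⟩
    have hsq : 0 < Real.sqrt s := Real.sqrt_pos.2 hsm.1
    set f : ℝ → ℝ := fun θ => (u (pc a s θ) - m) / Real.sqrt s -
      (u (pc a s₁ θ) - m) / Real.sqrt s₁ with hf
    have hfm : Measurable f :=
      (((rigtip_meas_slice h.meas_u a s).sub_const m).div_const _).sub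
        (((rigtip_meas_slice h.meas_u a s₁).sub_const m).div_const _)
    have hmem : MemLp f 2 (volume.restrict (Ioo (-Real.pi) Real.pi)) := by
      refine MemLp.of_bound hfm.aestronglyMeasurable (Real.sqrt (2 * s / Real.pi) / Real.sqrt s +
        Real.sqrt (2 * s₁ / Real.pi) / Real.sqrt s₁) ?_
      filter_upwards [ae_restrict_of_ae hb, ae_restrict_of_ae hb₁] with θ h1 h2
      rw [Real.norm_eq_abs]
      calc |f θ| ≤ |(u (pc a s θ) - m) / Real.sqrt s| + |(u (pc a s₁ θ) - m) / Real.sqrt s₁| :=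
            abs_sub _ _
        _ = |u (pc a s θ) - m| / Real.sqrt s + |u (pc a s₁ θ) - m| / Real.sqrt s₁ := by
            rw [abs_div, abs_div, abs_of_pos hsq, abs_of_pos hsq₁]
        _ ≤ _ := by gcongr
    have hzero : ∀ η : ℝ → ℝ, Continuous η → (∀ θ, |η θ| ≤ 1) →
        (∫ θ in Ioo (-Real.pi) Real.pi, (u (pc a s θ) - m) * η θ) / Real.sqrt s =
        (∫ θ in Ioo (-Real.pi) Real.pi, (u (pc a s₁ θ) - m) * η θ) / Real.sqrt s₁ →
        ∫ θ in Ioo (-Real.pi) Real.pi, f θ * η θ = 0 := by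
      intro η hη hη1 heq
      have h1 := rigtip_int_mul h.meas_u hb hη hη1
      have h2 := rigtip_int_mul h.meas_u hb₁ hη hη1
      have h3 : ∫ θ in Ioo (-Real.pi) Real.pi, f θ * η θ = ∫ θ in Ioo (-Real.pi) Real.pi,
          ((u (pc a s θ) - m) * η θ / Real.sqrt s - (u (pc a s₁ θ) - m) * η θ / Real.sqrt s₁) := by
        refine integral_congr_ae (Eventually.of_forall fun θ => ?_)
        simp only [hf]
        ring
      rw [h3, integral_sub (h1.div_const _) (h2.div_const _), integral_div, integral_div, heq,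
        sub_self]
    have hf0 := fourier_unique hmem (fun k => ⟨hzero _ (by fun_prop)
        (fun θ => Real.abs_cos_le_one _) (by rw [← hc, ← hc₁]; exact hNc1 k s₁ hs₁ s hsm),
      hzero _ (by fun_prop) (fun θ => Real.abs_sin_le_one _)
        (by rw [← hsn, ← hsn₁]; exact hNs1 k s₁ hs₁ s hsm)⟩)
    refine rigtip_ae_periodic (P := fun θ => u (pc a s θ) =
      m + Real.sqrt s / Real.sqrt s₁ * (u (pc a s₁ θ) - m))
      (fun θ => by rw [rigtip_pc_periodic, rigtip_pc_periodic]) (p := -Real.pi) ?_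
    have e1 : -Real.pi + 2 * Real.pi = Real.pi := by ring
    rw [e1]
    filter_upwards [hf0] with θ hθ
    simp only [hf] at hθ
    have h5 : (u (pc a s θ) - m) / Real.sqrt s = (u (pc a s₁ θ) - m) / Real.sqrt s₁ := by
      linarith
    rw [div_eq_iff hsq.ne'] at h5
    have h6 : u (pc a s θ) = m + (u (pc a s₁ θ) - m) / Real.sqrt s₁ * Real.sqrt s := by
      linarith
    rw [h6]; ring
  -- the sign
  have hfinal : ∀ τ : ℝ, A = -τ * Real.sqrt (2 * s₁ / Real.pi) →
      ∀ᵐ x ∂(volume.restrict (ball a R)), u x = m + τ * ctip (-er p) (x - a) := by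
    intro τ hAτ
    have hTm : MeasurableSet {x | u x = m + τ * ctip (-er p) (x - a)} := by
      refine measurableSet_eq_fun h.meas_u ?_
      have h1 : Measurable (fun x : ℂ => ctip (-er p) (x - a)) := by
        unfold ctip
        have h2 : Measurable (fun x : ℂ => (x - a) * (starRingEnd ℂ) (-er p)) :=
          (measurable_id.sub_const a).mul_const _
        have h3 : Measurable (fun x : ℂ => ((x - a) * (starRingEnd ℂ) (-er p)).arg) :=
          Complex.measurable_arg.comp h2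
        have h4 : Measurable (fun x : ℂ => ‖x - a‖) := (measurable_id.sub_const a).norm
        fun_prop
      exact (h1.const_mul τ).const_add m
    refine rigtip_polar_conv hTm ?_
    filter_upwards [hprop] with s hs
    obtain ⟨hsm, hs⟩ := hs
    refine ae_restrict_of_ae (rigtip_ae_periodic (P := fun θ =>
      u (pc a s θ) = m + τ * ctip (-er p) (pc a s θ - a))
      (fun θ => by rw [rigtip_pc_periodic]) (p := p) ?_)
    filter_upwards [ae_restrict_of_ae hs, hf₁, ae_restrict_mem measurableSet_Ioo] with θ h1 h2 h3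
    rw [h1, h2, rigtip_ctip a hsm.1 h3, hAτ]
    have h4 : Real.sqrt s / Real.sqrt s₁ * Real.sqrt (2 * s₁ / Real.pi) =
        Real.sqrt (2 * s / Real.pi) := by
      have e1 : 2 * s₁ / Real.pi = s₁ * (2 / Real.pi) := by ring
      have e2 : 2 * s / Real.pi = s * (2 / Real.pi) := by ring
      rw [e1, e2, Real.sqrt_mul hs₁.1.le, Real.sqrt_mul hsm.1.le]
      field_simp
    rw [← h4]
    ring
  have hAabs : |A| = Real.sqrt (2 * s₁ / Real.pi) := by rw [← hA, Real.sqrt_sq_eq_abs]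
  have hern : ‖-er p‖ = 1 := by rw [norm_neg, er, Complex.norm_exp_ofReal_mul_I]
  rcases abs_choice A with hch | hch
  · refine ⟨m, -er p, hern, Or.inr ?_⟩
    filter_upwards [hfinal (-1) (by rw [← hAabs, hch]; ring)] with x hx
    rw [hx]; ring
  · refine ⟨m, -er p, hern, Or.inl ?_⟩
    filter_upwards [hfinal 1 (by rw [← hAabs, hch]; ring)] with x hx
    rw [hx]; ring

end Pool.Agent.MP099f24
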