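import Pool.Agent.Lib.MP_099f24_an.SD.Polar
import Pool.Agent.Lib.MP_099f24_an.SD.Funiq
import Pool.Agent.Lib.MP_099f24_an.SD.Evol
import Pool.Agent.Lib.MP_099f24_an.SD.Slice
import Pool.Agent.Lib.MP_099f24_an.SD.Comp0

/-!
# Rigidity: two-valued slices (MP_099f24_an, module RIGTWO)
-/

set_option autoImplicit false

namespace Pool.Agent.MP099f24

open MeasureTheory Filter Topology Set Metric
open scoped ENNReal ContDiff

theorem rigtwo_pc_mem (a : ℂ) {s : ℝ} (hs : 0 ≤ s) (θ : ℝ) : pc a s θ ∈ sphere a s := by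
  have : ‖er θ‖ = 1 := by
    rw [er, Complex.norm_exp]
    simp
  rw [mem_sphere, dist_eq_norm, pc, add_sub_cancel_left, norm_mul, this, mul_one,
    Complex.norm_real, Real.norm_eq_abs, abs_of_nonneg hs]

theorem rigtwo_exists_angle {a x : ℂ} {s : ℝ} (hs : 0 < s) (hx : x ∈ sphere a s) :
    ∃ p, x = pc a s p := by
  refine ⟨(x - a).arg, ?_⟩
  have h1 : ‖x - a‖ = s := by rwa [mem_sphere, dist_eq_norm] at hx
  have h2 := Complex.norm_mul_exp_arg_mul_I (x - a)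
  rw [h1] at h2
  rw [pc, er, h2]
  ring

theorem rigtwo_er_per (θ : ℝ) (n : ℤ) : er (θ + n * (2 * Real.pi)) = er θ := by
  rw [er, er, Complex.exp_eq_exp_iff_exists_int]
  refine ⟨n, ?_⟩
  push_cast
  ring

theorem rigtwo_er_per1 (θ : ℝ) : er (θ + 2 * Real.pi) = er θ := by
  have := rigtwo_er_per θ 1
  simpa using this

theorem rigtwo_pc_per (a : ℂ) (s θ : ℝ) : pc a s (θ + 2 * Real.pi) = pc a s θ := by
  rw [pc, pc, rigtwo_er_per1]

theorem rigtwo_G_per (g : ℂ → ℂ) (a : ℂ) (s θ : ℝ) :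
    Gq g a s (θ + 2 * Real.pi) = Gq g a s θ := by
  have : et (θ + 2 * Real.pi) = et θ := by
    have h1 : et (θ + 2 * Real.pi) = Complex.I * er (θ + 2 * Real.pi) := rfl
    have h2 : et θ = Complex.I * er θ := rfl
    rw [h1, h2, rigtwo_er_per1]
  rw [Gq, Gq, rigtwo_pc_per, this]

theorem rigtwo_pc_inj {a : ℂ} {s p θ : ℝ} (hs : 0 < s) (hθ : θ ∈ Ioo p (p + 2 * Real.pi)) :
    pc a s θ ≠ pc a s p := by
  intro h
  rw [pc, pc] at h
  have h1 : (s : ℂ) * er θ = s * er p := add_left_cancel h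
  have h2 : er θ = er p := mul_left_cancel₀ (by exact_mod_cast hs.ne') h1
  rw [er, er, Complex.exp_eq_exp_iff_exists_int] at h2
  obtain ⟨n, hn⟩ := h2
  have h3 : (θ : ℂ) = p + n * (2 * Real.pi) := by
    have hI : (Complex.I : ℂ) ≠ 0 := Complex.I_ne_zero
    apply mul_right_cancel₀ hI
    rw [hn]
    ring
  have h4 : θ = p + n * (2 * Real.pi) := by exact_mod_cast h3
  have hpi := Real.pi_pos
  have h5 : 0 < (n : ℝ) * (2 * Real.pi) := by linarith [hθ.1]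
  have h6 : (n : ℝ) * (2 * Real.pi) < 1 * (2 * Real.pi) := by linarith [hθ.2]
  have h7 : (0 : ℝ) < n := by
    by_contra hcon
    push Not at hcon
    nlinarith
  have h8 : (n : ℝ) < 1 := lt_of_mul_lt_mul_right h6 (by positivity)
  have h9 : (0 : ℤ) < n := by exact_mod_cast h7
  have h10 : n < (1 : ℤ) := by exact_mod_cast h8
  omega

/-- A periodic property which holds a.e. on one period holds a.e. -/
theorem rigtwo_ae_periodic {P : ℝ → Prop} (hP : ∀ θ, P (θ + 2 * Real.pi) ↔ P θ) {p : ℝ}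
    (h : ∀ᵐ θ ∂(volume.restrict (Ioo p (p + 2 * Real.pi))), P θ) : ∀ᵐ θ, P θ := by
  have hPn : ∀ (n : ℤ) (θ : ℝ), P (θ + n * (2 * Real.pi)) ↔ P θ := by
    intro n
    induction n using Int.induction_on with
    | zero => intro θ; simp
    | succ n ih =>
      intro θ
      rw [← ih θ, ← hP (θ + ((n : ℤ) : ℝ) * (2 * Real.pi))]
      push_cast
      ring_nf
    | pred n ih =>
      intro θ
      rw [← ih θ, ← hP (θ + ((-(n : ℤ) - 1 : ℤ) : ℝ) * (2 * Real.pi))]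
      push_cast
      ring_nf
  have h1 : volume ({θ | ¬ P θ} ∩ Ioo p (p + 2 * Real.pi)) = 0 := by
    rw [ae_restrict_iff' measurableSet_Ioo, ae_iff] at h
    refine measure_mono_null ?_ h
    rintro θ ⟨h2, h3⟩
    simp only [Set.mem_ofPred_eq, Classical.not_imp]
    exact ⟨h3, h2⟩
  have h2 : volume ({θ | ¬ P θ} ∩ Ico p (p + 2 * Real.pi)) = 0 := by
    refine measure_mono_null (t := ({θ | ¬ P θ} ∩ Ioo p (p + 2 * Real.pi)) ∪ {p}) ?_ ?_
    · rintro θ ⟨h3, h4⟩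
      rcases h4.1.eq_or_lt with h5 | h5
      · right; exact h5.symm
      · left; exact ⟨h3, h5, h4.2⟩
    · rw [measure_union_null_iff]
      exact ⟨h1, by simp⟩
  rw [ae_iff]
  have h3 : {θ | ¬ P θ} ⊆ ⋃ n : ℤ, (fun θ : ℝ => θ + n * (2 * Real.pi)) ⁻¹'
      ({θ | ¬ P θ} ∩ Ico p (p + 2 * Real.pi)) := by
    intro θ hθ
    have hpos : (0 : ℝ) < 2 * Real.pi := by positivity
    obtain ⟨n, hn, -⟩ := existsUnique_add_zsmul_mem_Ico hpos θ p
    rw [mem_iUnion]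
    refine ⟨n, ?_, ?_⟩
    · show ¬ P (θ + n * (2 * Real.pi))
      rw [hPn]
      exact hθ
    · simpa [zsmul_eq_mul] using hn
  refine measure_mono_null h3 ?_
  rw [measure_iUnion_null_iff]
  intro n
  rw [measure_preimage_add_right]
  exact h2

/-- Two points of a circle cut it into two arcs. -/
theorem rigtwo_arcs {J : Set ℂ} {a : ℂ} {s : ℝ} (hs : 0 < s)
    (hJ : (J ∩ sphere a s).encard = 2) : ∃ q₁ q₂ : ℝ, q₁ < q₂ ∧ q₂ < q₁ + 2 * Real.pi ∧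
      (∀ θ ∈ Ioo q₁ q₂, pc a s θ ∉ J) ∧ ∀ θ ∈ Ioo q₂ (q₁ + 2 * Real.pi), pc a s θ ∉ J := by
  obtain ⟨x, y, hxy, hJ⟩ := encard_eq_two.1 hJ
  have hx : x ∈ J ∩ sphere a s := by rw [hJ]; exact mem_insert _ _
  have hy : y ∈ J ∩ sphere a s := by rw [hJ]; exact mem_insert_of_mem _ rfl
  obtain ⟨p, hp⟩ := rigtwo_exists_angle hs hx.2
  obtain ⟨q0, hq0⟩ := rigtwo_exists_angle hs hy.2
  have hpos : (0 : ℝ) < 2 * Real.pi := by positivity
  obtain ⟨n, hn, -⟩ := existsUnique_add_zsmul_mem_Ico hpos q0 p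
  set q := q0 + n • (2 * Real.pi) with hqd
  have hq : y = pc a s q := by
    rw [hq0, hqd, pc, pc, zsmul_eq_mul, rigtwo_er_per]
  have hpq : p < q := by
    rcases hn.1.eq_or_lt with h | h
    · exfalso
      apply hxy
      rw [hp, hq, ← h]
    · exact h
  refine ⟨p, q, hpq, hn.2, fun θ hθ hc => ?_, fun θ hθ hc => ?_⟩
  · have h1 : pc a s θ ∈ J ∩ sphere a s := ⟨hc, rigtwo_pc_mem a hs.le θ⟩
    rw [hJ] at h1
    rcases h1 with h1 | h1
    · rw [hp] at h1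
      exact rigtwo_pc_inj hs ⟨hθ.1, hθ.2.trans hn.2⟩ h1
    · rw [mem_singleton_iff, hq] at h1
      exact rigtwo_pc_inj hs ⟨hθ.2, by linarith [hθ.1, hn.2]⟩ h1.symm
  · have h1 : pc a s θ ∈ J ∩ sphere a s := ⟨hc, rigtwo_pc_mem a hs.le θ⟩
    rw [hJ] at h1
    rcases h1 with h1 | h1
    · rw [hp] at h1
      exact rigtwo_pc_inj hs ⟨hpq.trans hθ.1, hθ.2⟩ h1
    · rw [mem_singleton_iff, hq] at h1
      exact rigtwo_pc_inj hs ⟨hθ.1, by linarith [hθ.2, hpq]⟩ h1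

/-- Almost everywhere on the union of two adjacent arcs. -/
theorem rigtwo_join {P : ℝ → Prop} {q₁ q₂ q₃ : ℝ}
    (h1 : ∀ᵐ θ ∂(volume.restrict (Ioo q₁ q₂)), P θ)
    (h2 : ∀ᵐ θ ∂(volume.restrict (Ioo q₂ q₃)), P θ) :
    ∀ᵐ θ ∂(volume.restrict (Ioo q₁ q₃)), P θ := by
  rw [ae_restrict_iff' measurableSet_Ioo] at *
  have h3 : ∀ᵐ θ : ℝ, θ ≠ q₂ := by
    have h0 : (volume : Measure ℝ) {q₂} = 0 := measure_singleton _
    filter_upwards [compl_mem_ae_iff.2 h0] with θ hθ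
    exact hθ
  filter_upwards [h1, h2, h3] with θ h1 h2 h3 hθ
  rcases lt_or_gt_of_ne h3 with h | h
  · exact h1 ⟨hθ.1, h⟩
  · exact h2 ⟨h, hθ.2⟩

theorem rigtwo_int {g : ℂ → ℂ} (hg : Measurable g) {a : ℂ} {s : ℝ} {e : ℝ → ℂ}
    (he : Continuous e) (he1 : ∀ θ, ‖e θ‖ = 1)
    (hi : IntegrableOn (fun θ => ‖g (pc a s θ)‖ ^ 2) (Ioo (-Real.pi) Real.pi))
    (h0 : ∫ θ in Ioo (-Real.pi) Real.pi, (inner ℝ (g (pc a s θ)) (e θ)) ^ 2 = 0) :
    ∀ᵐ θ ∂(volume.restrict (Ioo (-Real.pi) Real.pi)), inner ℝ (g (pc a s θ)) (e θ) = 0 := by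
  have hpc : Measurable (fun θ => g (pc a s θ)) := hg.comp
    ((polar_pc_cont a).comp (continuous_const.prodMk continuous_id)).measurable
  have hint : IntegrableOn (fun θ => (inner ℝ (g (pc a s θ)) (e θ)) ^ 2)
      (Ioo (-Real.pi) Real.pi) := by
    refine Integrable.mono' hi ((hpc.inner he.measurable).pow_const 2).aestronglyMeasurable
      (Eventually.of_forall fun θ => ?_)
    rw [Real.norm_eq_abs, abs_of_nonneg (sq_nonneg _)]
    have h13 := abs_real_inner_le_norm (g (pc a s θ)) (e θ)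
    rw [he1, mul_one] at h13
    calc (inner ℝ (g (pc a s θ)) (e θ)) ^ 2 = |inner ℝ (g (pc a s θ)) (e θ)| ^ 2 := by
          rw [sq_abs]
      _ ≤ ‖g (pc a s θ)‖ ^ 2 := by gcongr
  rw [integral_eq_zero_iff_of_nonneg (fun θ => sq_nonneg _) hint] at h0
  filter_upwards [h0] with θ hθ
  exact pow_eq_zero_iff (two_ne_zero) |>.1 hθ

theorem rigtwo_norm_er (θ : ℝ) : ‖er θ‖ = 1 := by
  rw [er, Complex.norm_exp]
  simp

theorem rigtwo_norm_et (θ : ℝ) : ‖et θ‖ = 1 := by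
  rw [et, norm_mul, Complex.norm_exp]
  simp

/-- Almost every slice is two-valued. -/
theorem rigtwo_slices {Ω : Set ℂ} {u : ℂ → ℝ} {g j : ℂ → ℂ} (h : MSMin Ω u g j) {a : ℂ} {R : ℝ}
    (hR : ball a R ⊆ Ω) (hE : ∀ s ∈ Ioo 0 R, Dq g a s + Lq Ω u a s = 2 * s)
    (hT : ∀ᵐ s ∂(volume.restrict (Ioo 0 R)), Tq g a s = 0 ∧ Vq g a s = 0 ∧
        (jumpSet Ω u ∩ sphere a s).encard = 2) :
    ∀ᵐ s ∂(volume.restrict (Ioo 0 R)), ∃ q₁ q₂ d₁ d₂ : ℝ, q₁ < q₂ ∧ q₂ < q₁ + 2 * Real.pi ∧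
      d₁ ≠ d₂ ∧ (∀ᵐ θ ∂(volume.restrict (Ioo q₁ q₂)), u (pc a s θ) = d₁) ∧
      ∀ᵐ θ ∂(volume.restrict (Ioo q₂ (q₁ + 2 * Real.pi))), u (pc a s θ) = d₂ := by
  have hgi : ∀ s < R, IntegrableOn (fun x => ‖g x‖ ^ 2) (ball a s) := fun s hs =>
    (h.fin_g _ (isCompact_closedBall a s) ((closedBall_subset_ball hs).trans hR)).mono_set
      ball_subset_closedBall
  filter_upwards [hT, slice_arc h.toSBVData hR, comp_homog_gen h hR, (Dq_deriv h.meas_g hgi).1,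
    ae_restrict_mem measurableSet_Ioo] with s hT hS hC hD hs
  obtain ⟨hT0, hV0, h2⟩ := hT
  obtain ⟨q₁, q₂, h12, h21, ha1, ha2⟩ := rigtwo_arcs hs.1 h2
  -- the tangential derivative vanishes
  have hG1 : ∀ᵐ θ ∂(volume.restrict (Ioo (-Real.pi) Real.pi)), Gq g a s θ = 0 := by
    have h1 : ∫ θ in Ioo (-Real.pi) Real.pi, (inner ℝ (g (pc a s θ)) (et θ)) ^ 2 = 0 := by
      rw [Tq] at hT0
      exact (mul_eq_zero.1 hT0).resolve_left hs.1.ne'
    filter_upwards [rigtwo_int h.meas_g polar_et_cont rigtwo_norm_et hD.2 h1] with θ hθ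
    rw [Gq, hθ, mul_zero]
  have hG : ∀ᵐ θ, Gq g a s θ = 0 := by
    apply rigtwo_ae_periodic (p := -Real.pi) (fun θ => by rw [rigtwo_G_per])
    rw [show -Real.pi + 2 * Real.pi = Real.pi by ring]
    exact hG1
  have hGi : ∀ p q : ℝ, ∫ t in p..q, Gq g a s t = 0 := by
    intro p q
    apply intervalIntegral.integral_zero_ae
    filter_upwards [hG] with t ht _
    exact ht
  obtain ⟨c₁, hc₁⟩ := hS q₁ q₂ h12 ha1
  obtain ⟨c₂, hc₂⟩ := hS q₂ (q₁ + 2 * Real.pi) h21 ha2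
  have e1 : ∀ᵐ θ ∂(volume.restrict (Ioo q₁ q₂)), u (pc a s θ) = c₁ := by
    filter_upwards [hc₁] with θ hθ
    rw [hθ, hGi, add_zero]
  have e2 : ∀ᵐ θ ∂(volume.restrict (Ioo q₂ (q₁ + 2 * Real.pi))), u (pc a s θ) = c₂ := by
    filter_upwards [hc₂] with θ hθ
    rw [hθ, hGi, add_zero]
  refine ⟨q₁, q₂, c₁, c₂, h12, h21, ?_, e1, e2⟩
  rintro rfl
  have e3 : ∀ᵐ θ, u (pc a s θ) = c₁ :=
    rigtwo_ae_periodic (fun θ => by rw [rigtwo_pc_per]) (rigtwo_join e1 e2)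
  have := hC ⟨c₁, by
    filter_upwards [ae_restrict_of_ae e3] with θ hθ
    rw [hθ, hGi, add_zero]⟩ (hGi _ _)
  rw [hT0, mul_zero, hE s hs] at this
  linarith [hs.1]

/-- The angular integrals do not depend on the radius. -/
theorem rigtwo_const {Ω : Set ℂ} {u : ℂ → ℝ} {g j : ℂ → ℂ} (h : MSMin Ω u g j) {a : ℂ} {R : ℝ}
    (hR : ball a R ⊆ Ω)
    (hT : ∀ᵐ s ∂(volume.restrict (Ioo 0 R)), Tq g a s = 0 ∧ Vq g a s = 0 ∧
        (jumpSet Ω u ∩ sphere a s).encard = 2)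
    (hrad : (μH[1] : Measure ℂ) {x ∈ ball a R | inner ℝ (x - a) (j x) ≠ 0} = 0) {η : ℝ → ℝ}
    (hη : ContDiff ℝ ∞ η) (hper : ∀ t, η (t + 2 * Real.pi) = η t) :
    ∃ κ : ℝ, ∀ᵐ r ∂(volume.restrict (Ioo 0 R)),
      ∫ θ in Ioo (-Real.pi) Real.pi, u (pc a r θ) * η θ = κ := by
  obtain ⟨m, hm, hm'⟩ := radial_evol h.toSBVData hR hrad hη hper
  have hgi : ∀ s < R, IntegrableOn (fun x => ‖g x‖ ^ 2) (ball a s) := fun s hs =>
    (h.fin_g _ (isCompact_closedBall a s) ((closedBall_subset_ball hs).trans hR)).mono_set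
      ball_subset_closedBall
  have hb : ∀ᵐ r ∂(volume.restrict (Ioo 0 R)),
      ∫ θ in Ioo (-Real.pi) Real.pi, inner ℝ (g (pc a r θ)) (er θ) * η θ = 0 := by
    filter_upwards [hT, (Dq_deriv h.meas_g hgi).1, ae_restrict_mem measurableSet_Ioo]
      with s hT hD hs
    have h1 : ∫ θ in Ioo (-Real.pi) Real.pi, (inner ℝ (g (pc a s θ)) (er θ)) ^ 2 = 0 := by
      have := hT.2.1
      rw [Vq] at this
      exact (mul_eq_zero.1 this).resolve_left hs.1.ne'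
    rw [← integral_zero ℝ ℝ (μ := volume.restrict (Ioo (-Real.pi) Real.pi))]
    apply integral_congr_ae
    filter_upwards [rigtwo_int h.meas_g polar_er_cont rigtwo_norm_er hD.2 h1] with θ hθ
    show inner ℝ (g (pc a s θ)) (er θ) * η θ = 0
    rw [hθ, zero_mul]
  refine ⟨m (R / 2), ?_⟩
  filter_upwards [hm', ae_restrict_mem measurableSet_Ioo] with r hr hrm
  rw [← hr]
  have hR0 : 0 < R := hrm.1.trans hrm.2
  have h1 := hm (R / 2) ⟨by linarith, by linarith⟩ r hrm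
  have h2 : ∫ r in (R / 2)..r, ∫ θ in Ioo (-Real.pi) Real.pi,
      inner ℝ (g (pc a r θ)) (er θ) * η θ = 0 := by
    apply intervalIntegral.integral_zero_ae
    rw [ae_restrict_iff' measurableSet_Ioo] at hb
    filter_upwards [hb] with t ht htm
    apply ht
    have h3 := uIoc_subset_uIcc htm
    have h4 : uIcc (R / 2) r ⊆ Ioo 0 R := by
      intro x hx
      rcases le_total (R / 2) r with h5 | h5
      · rw [uIcc_of_le h5] at hx
        exact ⟨by linarith [hx.1], hx.2.trans_lt hrm.2⟩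
      · rw [uIcc_of_ge h5] at hx
        exact ⟨hrm.1.trans_le hx.1, by linarith [hx.2]⟩
    exact h4 h3
  linarith

theorem rig_two {Ω : Set ℂ} {u : ℂ → ℝ} {g j : ℂ → ℂ} (h : MSMin Ω u g j) {a : ℂ} {R : ℝ}
    (hR : ball a R ⊆ Ω) (hR0 : 0 < R) (hE : ∀ s ∈ Ioo 0 R, Dq g a s + Lq Ω u a s = 2 * s)
    (hD : ∀ s ∈ Ioo 0 R, Dq g a s = 0)
    (hT : ∀ᵐ s ∂(volume.restrict (Ioo 0 R)), Tq g a s = 0 ∧ Vq g a s = 0 ∧
        (jumpSet Ω u ∩ sphere a s).encard = 2)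
    (hrad : (μH[1] : Measure ℂ) {x ∈ ball a R | inner ℝ (x - a) (j x) ≠ 0} = 0) :
    ∃ p₁ p₂ c₁ c₂ : ℝ, p₁ < p₂ ∧ p₂ < p₁ + 2 * Real.pi ∧ c₁ ≠ c₂ ∧
      ∀ᵐ r ∂(volume.restrict (Ioo 0 R)),
        (∀ᵐ θ ∂(volume.restrict (Ioo p₁ p₂)), u (pc a r θ) = c₁) ∧
        ∀ᵐ θ ∂(volume.restrict (Ioo p₂ (p₁ + 2 * Real.pi))), u (pc a r θ) = c₂ := by
  have hcos : ∀ k : ℕ, ∃ κ : ℝ, ∀ᵐ r ∂(volume.restrict (Ioo 0 R)),
      ∫ θ in Ioo (-Real.pi) Real.pi, u (pc a r θ) * Real.cos (k * θ) = κ := fun k =>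
    rigtwo_const h hR hT hrad (by fun_prop) (fun t => by
      rw [show (k : ℝ) * (t + 2 * Real.pi) = k * t + k * (2 * Real.pi) by ring,
        Real.cos_add_nat_mul_two_pi])
  have hsin : ∀ k : ℕ, ∃ κ : ℝ, ∀ᵐ r ∂(volume.restrict (Ioo 0 R)),
      ∫ θ in Ioo (-Real.pi) Real.pi, u (pc a r θ) * Real.sin (k * θ) = κ := fun k =>
    rigtwo_const h hR hT hrad (by fun_prop) (fun t => by
      rw [show (k : ℝ) * (t + 2 * Real.pi) = k * t + k * (2 * Real.pi) by ring,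
        Real.sin_add_nat_mul_two_pi])
  choose κc hκc using hcos
  choose κs hκs using hsin
  have hall := (((ae_all_iff.2 hκc).and (ae_all_iff.2 hκs)).and (rigtwo_slices h hR hE hT))
  have : NeBot (ae (volume.restrict (Ioo 0 R))) := by
    rw [ae_neBot]
    intro h0
    have h1 : (volume.restrict (Ioo 0 R)) univ = 0 := by rw [h0]; rfl
    rw [Measure.restrict_apply_univ, Real.volume_Ioo, ENNReal.ofReal_eq_zero] at h1
    linarith
  -- bounded slices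
  have hbd : ∀ s : ℝ, (∃ q₁ q₂ d₁ d₂ : ℝ, q₁ < q₂ ∧ q₂ < q₁ + 2 * Real.pi ∧
      d₁ ≠ d₂ ∧ (∀ᵐ θ ∂(volume.restrict (Ioo q₁ q₂)), u (pc a s θ) = d₁) ∧
      ∀ᵐ θ ∂(volume.restrict (Ioo q₂ (q₁ + 2 * Real.pi))), u (pc a s θ) = d₂) →
      ∃ C : ℝ, ∀ᵐ θ : ℝ, ‖u (pc a s θ)‖ ≤ C := by
    rintro s ⟨q₁, q₂, d₁, d₂, -, -, -, h1, h2⟩
    refine ⟨max |d₁| |d₂|, rigtwo_ae_periodic (p := q₁) (fun θ => by rw [rigtwo_pc_per]) ?_⟩
    apply rigtwo_join (q₂ := q₂)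
    · filter_upwards [h1] with θ hθ
      rw [hθ]
      exact le_max_left _ _
    · filter_upwards [h2] with θ hθ
      rw [hθ]
      exact le_max_right _ _
  have hmeas : ∀ s, Measurable fun θ : ℝ => u (pc a s θ) := fun s => h.meas_u.comp
    ((polar_pc_cont a).comp (continuous_const.prodMk continuous_id)).measurable
  obtain ⟨s, ⟨hs1, hs2⟩, hs3⟩ := hall.exists
  obtain ⟨C, hC⟩ := hbd s hs3
  obtain ⟨p₁, p₂, c₁, c₂, h12, h21, hc, hp1, hp2⟩ := hs3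
  refine ⟨p₁, p₂, c₁, c₂, h12, h21, hc, ?_⟩
  filter_upwards [hall] with r hr
  obtain ⟨⟨hr1, hr2⟩, hr3⟩ := hr
  obtain ⟨C', hC'⟩ := hbd r hr3
  have hI : ∀ (t D : ℝ), (∀ᵐ θ : ℝ, ‖u (pc a t θ)‖ ≤ D) → ∀ e : ℝ → ℝ, Continuous e →
      IntegrableOn (fun θ => u (pc a t θ) * e θ) (Ioo (-Real.pi) Real.pi) := by
    intro t D hD' e he
    have h1 : IntegrableOn e (Ioo (-Real.pi) Real.pi) :=
      (he.integrableOn_Icc).mono_set Ioo_subset_Icc_self
    exact h1.bdd_mul (hmeas t).aestronglyMeasurable (ae_restrict_of_ae hD')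
  have hzero := fourier_unique (f := fun θ => u (pc a r θ) - u (pc a s θ)) (by
    refine MemLp.of_bound ((hmeas r).sub (hmeas s)).aestronglyMeasurable (C' + C) ?_
    filter_upwards [ae_restrict_of_ae hC, ae_restrict_of_ae hC'] with θ h1 h2
    exact (norm_sub_le _ _).trans (add_le_add h2 h1)) (by
    intro k
    have e1 : ∀ e : ℝ → ℝ, (fun θ => (u (pc a r θ) - u (pc a s θ)) * e θ) =
        fun θ => u (pc a r θ) * e θ - u (pc a s θ) * e θ := by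
      intro e; funext θ; ring
    constructor
    · have := e1 (fun θ => Real.cos (k * θ))
      rw [this, integral_sub (hI r C' hC' _ (by fun_prop)) (hI s C hC _ (by fun_prop)), hr1 k,
        hs1 k, sub_self]
    · have := e1 (fun θ => Real.sin (k * θ))
      rw [this, integral_sub (hI r C' hC' _ (by fun_prop)) (hI s C hC _ (by fun_prop)), hr2 k,
        hs2 k, sub_self])
  have hae : ∀ᵐ θ : ℝ, u (pc a r θ) - u (pc a s θ) = 0 := by
    apply rigtwo_ae_periodic (p := -Real.pi) (fun θ => by rw [rigtwo_pc_per, rigtwo_pc_per])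
    rw [show -Real.pi + 2 * Real.pi = Real.pi by ring]
    exact hzero
  constructor
  · filter_upwards [hp1, ae_restrict_of_ae hae] with θ h1 h2
    linarith
  · filter_upwards [hp2, ae_restrict_of_ae hae] with θ h1 h2
    linarith

end Pool.Agent.MP099f24
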