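import Mathlib
import Pool.Agent.Lib.MP_099f24_an.SD.Coarea
import Pool.Agent.Lib.MP_099f24_an.SD.Evol
import Pool.Agent.Lib.MP_099f24_an.SD.Wirteq
import Pool.Agent.Lib.MP_099f24_an.SD.Fluxeq
import Pool.Agent.Lib.MP_099f24_an.SD.Funiq
import Pool.Agent.Lib.MP_099f24_an.SD.Rigtwo
import Pool.Agent.Lib.MP_099f24_an.SD.Rigline
import Pool.Agent.Lib.MP_099f24_an.SD.Rigmix
import Pool.Agent.Lib.MP_099f24_an.SD.Rigtip
import Pool.Agent.Lib.MP_099f24_an.SD.Asm

namespace Pool.Agent.MP099f24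

open MeasureTheory Filter Topology Set Metric
open scoped ENNReal ContDiff

section Rig

variable {Ω : Set ℂ} {u : ℂ → ℝ} {g j : ℂ → ℂ} {a : ℂ} {R : ℝ}

theorem rig_pc_mem (a : ℂ) {s : ℝ} (hs : 0 ≤ s) (θ : ℝ) : pc a s θ ∈ sphere a s := by
  have : ‖er θ‖ = 1 := by
    rw [er, Complex.norm_exp]
    simp
  rw [mem_sphere, dist_eq_norm, pc, add_sub_cancel_left, norm_mul, this, mul_one,
    Complex.norm_real, Real.norm_eq_abs, abs_of_nonneg hs]

theorem rig_exists_angle {x : ℂ} {s : ℝ} (hs : 0 < s) (hx : x ∈ sphere a s) : ∃ p, x = pc a s p := by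
  refine ⟨(x - a).arg, ?_⟩
  have h1 : ‖x - a‖ = s := by rwa [mem_sphere, dist_eq_norm] at hx
  have h2 := Complex.norm_mul_exp_arg_mul_I (x - a)
  rw [h1] at h2
  rw [pc, er, h2]
  ring

theorem rig_pc_inj {s p θ : ℝ} (hs : 0 < s) (hθ : θ ∈ Ioo p (p + 2 * Real.pi)) :
    pc a s θ ≠ pc a s p := by
  intro h
  rw [pc, pc] at h
  have h1 : (s : ℂ) * er θ = s * er p := add_left_cancel h
  have h2 : er θ = er p := mul_left_cancel₀ (by exact_mod_cast hs.ne') h1
  rw [er, er, Complex.exp_eq_exp_iff_exists_int] at h2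
  obtain ⟨n, hn⟩ := h2
  have h3 : (θ : ℂ) = p + n * (2 * Real.pi) := by
    have hI : (Complex.I : ℂ) ≠ 0 := Complex.I_ne_zero
    apply mul_right_cancel₀ hI
    rw [hn]
    ring
  have h4 : θ = p + n * (2 * Real.pi) := by exact_mod_cast h3
  have hpi := Real.pi_pos
  have h5 : 0 < (n : ℝ) * (2 * Real.pi) := by linarith [hθ.1]
  have h6 : (n : ℝ) * (2 * Real.pi) < 1 * (2 * Real.pi) := by linarith [hθ.2]
  have h7 : (0 : ℝ) < n := by
    by_contra hcon
    push Not at hcon
    nlinarith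
  have h8 : (n : ℝ) < 1 := lt_of_mul_lt_mul_right h6 (by positivity)
  have h9 : (0 : ℤ) < n := by exact_mod_cast h7
  have h10 : n < (1 : ℤ) := by exact_mod_cast h8
  omega

/-- A periodic property which holds a.e. on one period holds a.e. -/
theorem rig_ae_periodic {P : ℝ → Prop} (hP : ∀ θ, P (θ + 2 * Real.pi) ↔ P θ) {p : ℝ}
    (h : ∀ᵐ θ ∂(volume.restrict (Ioo p (p + 2 * Real.pi))), P θ) : ∀ᵐ θ, P θ := by
  have hPn : ∀ (n : ℤ) (θ : ℝ), P (θ + n * (2 * Real.pi)) ↔ P θ := by
    intro n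
    induction n using Int.induction_on with
    | zero => intro θ; simp
    | succ n ih =>
      intro θ
      rw [← ih θ, ← hP (θ + ((n : ℤ) : ℝ) * (2 * Real.pi))]
      push_cast
      ring_nf
    | pred n ih =>
      intro θ
      rw [← ih θ, ← hP (θ + ((-(n : ℤ) - 1 : ℤ) : ℝ) * (2 * Real.pi))]
      push_cast
      ring_nf
  have h1 : volume ({θ | ¬ P θ} ∩ Ioo p (p + 2 * Real.pi)) = 0 := by
    rw [ae_restrict_iff' measurableSet_Ioo, ae_iff] at h
    refine measure_mono_null ?_ h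
    rintro θ ⟨h2, h3⟩
    simp only [Set.mem_ofPred_eq, Classical.not_imp]
    exact ⟨h3, h2⟩
  have h2 : volume ({θ | ¬ P θ} ∩ Ico p (p + 2 * Real.pi)) = 0 := by
    refine measure_mono_null (t := ({θ | ¬ P θ} ∩ Ioo p (p + 2 * Real.pi)) ∪ {p}) ?_ ?_
    · rintro θ ⟨h3, h4⟩
      rcases h4.1.eq_or_lt with h5 | h5
      · right; exact h5.symm
      · left; exact ⟨h3, h5, h4.2⟩
    · rw [measure_union_null_iff]
      exact ⟨h1, by simp⟩
  rw [ae_iff]
  have h3 : {θ | ¬ P θ} ⊆ ⋃ n : ℤ, (fun θ : ℝ => θ + n * (2 * Real.pi)) ⁻¹'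
      ({θ | ¬ P θ} ∩ Ico p (p + 2 * Real.pi)) := by
    intro θ hθ
    have hpos : (0 : ℝ) < 2 * Real.pi := by positivity
    obtain ⟨n, hn, -⟩ := existsUnique_add_zsmul_mem_Ico hpos θ p
    rw [mem_iUnion]
    refine ⟨n, ?_, ?_⟩
    · show ¬ P (θ + n * (2 * Real.pi))
      rw [hPn]
      exact hθ
    · simpa [zsmul_eq_mul] using hn
  refine measure_mono_null h3 ?_
  rw [measure_iUnion_null_iff]
  intro n
  rw [measure_preimage_add_right]
  exact h2

/-- The classification of radii in the equality case. -/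
theorem rig_classes (h : MSMin Ω u g j) (hR : ball a R ⊆ Ω)
    (heq : ∀ s ∈ Ioo 0 R, Dq g a s + Lq Ω u a s = 2 * s) :
    ∀ᵐ s ∂(volume.restrict (Ioo 0 R)), HasDerivAt (Dq g a) (Tq g a s + Vq g a s) s ∧
      HasDerivAt (Lq Ω u a) (2 - (Tq g a s + Vq g a s)) s ∧
      ((Tq g a s + Vq g a s = 2 ∧ Dq g a s = 0) ∨
        (Tq g a s + Vq g a s = 1 ∧ (jumpSet Ω u ∩ sphere a s).encard = 1) ∨
        (Tq g a s = 0 ∧ Vq g a s = 0 ∧ (jumpSet Ω u ∩ sphere a s).encard = 2 ∧
          Dq g a s = 0)) := by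
  filter_upwards [asm_classes h hR, asm_count h.toSBVData hR, force_balance h hR,
    flux_zero h hR, comp_homog h hR, comp_homog_gen h hR, slice_arc h.toSBVData hR,
    (Dq_deriv h.meas_g fun _ hs => asm_g_int h.toSBVData hR hs).1,
    ae_restrict_mem measurableSet_Ioo] with s h1 h3 h4 h5 h6 h7 h8 h9 hs
  obtain ⟨hD, hL, -⟩ := h1
  have hder : HasDerivAt (Lq Ω u a) (2 - (Tq g a s + Vq g a s)) s := by
    have e1 : HasDerivAt (fun t : ℝ => 2 * t - Dq g a t) (2 * 1 - (Tq g a s + Vq g a s)) s :=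
      ((hasDerivAt_id s).const_mul 2).sub hD
    rw [mul_one] at e1
    refine e1.congr_of_eventuallyEq ?_
    filter_upwards [isOpen_Ioo.mem_nhds hs] with t ht
    have := heq t ht
    linarith
  refine ⟨hD, hder, ?_⟩
  have hL0 := asm_deriv_nonneg (asm_Lq_mono h.toSBVData hR) hs
  rw [hder.deriv] at hL0
  have hT := asm_Tq_nonneg (g := g) (a := a) hs.1.le
  have hV := asm_Vq_nonneg (g := g) (a := a) hs.1.le
  have hE := heq s hs
  by_cases hJ : jumpSet Ω u ∩ sphere a s = ∅
  · left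
    have h10 := h6 hJ
    have h11 : 2 ≤ Tq g a s := by
      have : s * 2 ≤ s * Tq g a s := by linarith
      exact le_of_mul_le_mul_left this hs.1
    have hV0 : Vq g a s = 0 := by linarith
    exact ⟨by linarith, h5 hV0⟩
  right
  obtain ⟨x, hxJ, hxs⟩ := nonempty_iff_ne_empty.2 hJ
  have hJS := asm_jump_sub h.toSBVData
  have hxS := hJS hxJ
  by_cases hn : (2 : ℕ∞) ≤ (discSet Ω u ∩ sphere a s).encard
  · right
    have h10 : ((2 : ℕ) : ℝ) ≤ deriv (Lq Ω u a) s := h3 2 (by exact_mod_cast hn)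
    rw [hder.deriv] at h10
    push_cast at h10
    have hT0 : Tq g a s = 0 := by linarith
    have hV0 : Vq g a s = 0 := by linarith
    have h3' : (discSet Ω u ∩ sphere a s).encard ≤ 2 := by
      by_contra hcon
      push Not at hcon
      have h11 : ((3 : ℕ) : ℕ∞) ≤ (discSet Ω u ∩ sphere a s).encard := by
        have : (2 : ℕ∞) + 1 ≤ (discSet Ω u ∩ sphere a s).encard :=
          (ENat.add_one_le_iff (by simp)).2 hcon
        exact_mod_cast this
      have h12 := h3 3 h11
      rw [hder.deriv] at h12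
      push_cast at h12
      linarith
    -- the slice would be constant if there were at most one jump point
    have hJ2 : (2 : ℕ∞) ≤ (jumpSet Ω u ∩ sphere a s).encard := by
      by_contra hcon
      push Not at hcon
      have hone : (jumpSet Ω u ∩ sphere a s).encard ≤ 1 := by
        have : (jumpSet Ω u ∩ sphere a s).encard < 1 + 1 := by rwa [one_add_one_eq_two]
        exact ENat.lt_add_one_iff (by simp) |>.1 this
      rw [encard_le_one_iff] at hone
      obtain ⟨p, hp⟩ := rig_exists_angle hs.1 hxs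
      obtain ⟨c, hc⟩ := h8 p (p + 2 * Real.pi) (by have := Real.pi_pos; linarith) (by
        intro θ hθ hJθ
        have := hone _ _ ⟨hJθ, rig_pc_mem a hs.1.le θ⟩ ⟨hxJ, hxs⟩
        rw [hp] at this
        exact rig_pc_inj hs.1 hθ this)
      -- `G_s = 0`
      have hG0 : ∀ᵐ t ∂(volume.restrict (Ioo (-Real.pi) Real.pi)), Gq g a s t = 0 := by
        have hint : IntegrableOn (fun θ => (inner ℝ (g (pc a s θ)) (et θ)) ^ 2)
            (Ioo (-Real.pi) Real.pi) := by
          refine h9.2.mono' ?_ (ae_of_all _ fun θ => ?_)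
          · have hpcm : Measurable fun θ : ℝ => pc a s θ := by
              unfold pc er; fun_prop
            have hetm : Measurable fun θ : ℝ => et θ := by
              unfold et; fun_prop
            exact (((h.meas_g.comp hpcm).inner hetm).pow_const 2).aestronglyMeasurable
          · rw [Real.norm_eq_abs, abs_of_nonneg (sq_nonneg _)]
            have h13 := abs_real_inner_le_norm (g (pc a s θ)) (et θ)
            have h14 : ‖et θ‖ = 1 := by
              rw [et, norm_mul, Complex.norm_exp]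
              simp
            rw [h14, mul_one] at h13
            calc (inner ℝ (g (pc a s θ)) (et θ)) ^ 2 = |inner ℝ (g (pc a s θ)) (et θ)| ^ 2 := by
                  rw [sq_abs]
              _ ≤ ‖g (pc a s θ)‖ ^ 2 := by gcongr
        have h15 : ∫ θ in Ioo (-Real.pi) Real.pi, (inner ℝ (g (pc a s θ)) (et θ)) ^ 2 = 0 := by
          rw [Tq] at hT0
          rcases mul_eq_zero.1 hT0 with h16 | h16
          · exact absurd h16 hs.1.ne'
          · exact h16
        rw [integral_eq_zero_iff_of_nonneg (fun θ => sq_nonneg _) hint] at h15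
        filter_upwards [h15] with t ht
        have : inner ℝ (g (pc a s t)) (et t) = 0 := by
          simpa using ht
        rw [Gq, this, mul_zero]
      have hGper : ∀ t, Gq g a s (t + 2 * Real.pi) = Gq g a s t := by
        intro t
        have e1 : er (t + 2 * Real.pi) = er t := by
          rw [er, er]
          push_cast
          rw [add_mul, Complex.exp_add, Complex.exp_two_pi_mul_I, mul_one]
        have e2 : et (t + 2 * Real.pi) = et t := by
          have : ∀ t, et t = Complex.I * er t := fun t => rfl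
          rw [this, this, e1]
        rw [Gq, Gq, pc, pc, e1, e2]
      have hG0' : ∀ᵐ t, Gq g a s t = 0 := by
        refine rig_ae_periodic (P := fun t => Gq g a s t = 0) (fun t => by rw [hGper])
          (p := -Real.pi) ?_
        have : -Real.pi + 2 * Real.pi = Real.pi := by ring
        rw [this]
        exact hG0
      have hGint : ∀ x y : ℝ, ∫ t in x..y, Gq g a s t = 0 := by
        intro x y
        rw [intervalIntegral.integral_congr_ae (g := fun _ => (0 : ℝ))
          (by filter_upwards [hG0'] with t ht _ using ht)]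
        simp
      have hconst : ∀ᵐ θ, u (pc a s θ) = c := by
        refine rig_ae_periodic (P := fun t => u (pc a s t) = c) (fun t => ?_) (p := p) ?_
        · have e1 : er (t + 2 * Real.pi) = er t := by
            rw [er, er]
            push_cast
            rw [add_mul, Complex.exp_add, Complex.exp_two_pi_mul_I, mul_one]
          rw [pc, pc, e1]
        · filter_upwards [hc] with t ht
          rw [ht, hGint, add_zero]
      have h20 := h7 ⟨c, by
        filter_upwards [ae_restrict_of_ae hconst] with t ht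
        rw [ht, hGint, add_zero]⟩ (hGint _ _)
      rw [hT0, mul_zero, hE] at h20
      linarith [hs.1]
    refine ⟨hT0, hV0, ?_, h5 hV0⟩
    refine le_antisymm ((encard_le_encard (inter_subset_inter_left _ hJS)).trans h3') hJ2
  · left
    have hone : (discSet Ω u ∩ sphere a s).encard ≤ 1 := by
      have : (discSet Ω u ∩ sphere a s).encard < 1 + 1 := by
        have := not_le.1 hn
        rwa [one_add_one_eq_two]
      exact ENat.lt_add_one_iff (by simp) |>.1 this
    have hsing : discSet Ω u ∩ sphere a s = {x} := by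
      rw [encard_le_one_iff] at hone
      ext y
      constructor
      · intro hy
        exact hone y x hy ⟨hxS, hxs⟩
      · rintro rfl
        exact ⟨hxS, hxs⟩
    have h10 := h4 ⟨x, hxJ, hsing⟩
    have h11 : ((1 : ℕ) : ℝ) ≤ deriv (Lq Ω u a) s := h3 1 (by rw [hsing]; simp)
    rw [hder.deriv] at h11
    push_cast at h11
    refine ⟨by linarith, ?_⟩
    have hsing' : jumpSet Ω u ∩ sphere a s = {x} := by
      refine Subset.antisymm ?_ (singleton_subset_iff.2 ⟨hxJ, hxs⟩)
      rw [← hsing]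
      exact inter_subset_inter_left _ hJS
    rw [hsing', encard_singleton]

theorem rig_Lam_nonneg (s : ℝ) : 0 ≤ Lam j a s := integral_nonneg fun _ => by positivity

theorem rig_integral_deriv_le {F : ℝ → ℝ} (hF : MonotoneOn F (Ioo 0 R)) {s t : ℝ} (hs : 0 < s)
    (hst : s ≤ t) (ht : t < R) {f : ℝ → ℝ} (hf : IntervalIntegrable f volume s t)
    (hle : ∀ᵐ x ∂(volume.restrict (Ioo 0 R)), f x ≤ deriv F x) :
    ∫ x in s..t, f x ≤ F t - F s := by
  have hsub : uIcc s t ⊆ Ioo 0 R := by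
    rw [uIcc_of_le hst]
    exact fun x hx => ⟨hs.trans_le hx.1, hx.2.trans_lt ht⟩
  have hm := hF.mono hsub
  have h1 := hm.intervalIntegral_deriv_mem_uIcc
  have h2 : ∫ x in s..t, deriv F x ≤ F t - F s := by
    have h3 : F s ≤ F t := hm (by simp) (by simp) hst
    rw [uIcc_of_le (by linarith)] at h1
    exact h1.2
  refine le_trans ?_ h2
  refine intervalIntegral.integral_mono_ae_restrict hst hf hm.intervalIntegrable_deriv ?_
  have hsub' : Icc s t ⊆ Ioo 0 R := by rwa [uIcc_of_le hst] at hsub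
  exact ae_restrict_of_ae_restrict_of_subset hsub' hle

/-- The equality case: structure of the radii. -/
theorem rig_split (h : MSMin Ω u g j) (hR : ball a R ⊆ Ω) (hR0 : 0 < R)
    (heq : ∀ s ∈ Ioo 0 R, Dq g a s + Lq Ω u a s = 2 * s) :
    ∃ s₀ ∈ Icc 0 R, (∀ s ∈ Ioo 0 s₀, Dq g a s = 0) ∧
      (∀ᵐ s ∂(volume.restrict (Ioo 0 s₀)), Tq g a s = 0 ∧ Vq g a s = 0 ∧
        (jumpSet Ω u ∩ sphere a s).encard = 2) ∧
      (∀ᵐ s ∂(volume.restrict (Ioo s₀ R)), Tq g a s + Vq g a s = 1 ∧
        (jumpSet Ω u ∩ sphere a s).encard = 1) ∧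
      (s₀ = 0 → ∀ s ∈ Ioo 0 R, Dq g a s = s) ∧
      (∀ s ∈ Ioo 0 R, ((μH[1] : Measure ℂ) (jumpSet Ω u ∩ ball a s)).toReal = Lq Ω u a s) ∧
      (μH[1] : Measure ℂ) {x ∈ ball a R | inner ℝ (x - a) (j x) ≠ 0} = 0 := by
  have hDm := asm_Dq_mono h.toSBVData hR
  set A : Set ℝ := {0} ∪ {s ∈ Ioo 0 R | Dq g a s = 0} with hA
  have hbdd : BddAbove A := ⟨R, by
    rintro x (rfl | hx)
    · exact hR0.le
    · exact hx.1.2.le⟩
  have h0A : (0 : ℝ) ∈ A := Or.inl rfl
  set s₀ := sSup A with hs₀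
  have hs0 : 0 ≤ s₀ := le_csSup hbdd h0A
  have hs1 : s₀ ≤ R := csSup_le ⟨0, h0A⟩ (by
    rintro x (rfl | hx)
    · exact hR0.le
    · exact hx.1.2.le)
  have hzero : ∀ s ∈ Ioo 0 s₀, Dq g a s = 0 := by
    intro s hs
    obtain ⟨t, htA, hst⟩ := exists_lt_of_lt_csSup ⟨0, h0A⟩ hs.2
    rcases htA with rfl | ht
    · exact absurd hst (not_lt.2 hs.1.le)
    · have h1 := hDm ⟨hs.1, hs.2.trans_le hs1⟩ ht.1 hst.le
      rw [ht.2] at h1
      exact le_antisymm h1 (asm_Dq_nonneg s)
  have hnz : ∀ s ∈ Ioo s₀ R, Dq g a s ≠ 0 := by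
    intro s hs h1
    exact absurd (le_csSup hbdd (show s ∈ A from Or.inr ⟨⟨hs0.trans_lt hs.1, hs.2⟩, h1⟩))
      (not_le.2 hs.1)
  have hcl := rig_classes h hR heq
  have hlow : ∀ᵐ s ∂(volume.restrict (Ioo 0 s₀)), Tq g a s = 0 ∧ Vq g a s = 0 ∧
      (jumpSet Ω u ∩ sphere a s).encard = 2 := by
    have h1 := ae_restrict_of_ae_restrict_of_subset
      (show Ioo 0 s₀ ⊆ Ioo 0 R from Ioo_subset_Ioo_right hs1) hcl
    filter_upwards [h1, ae_restrict_mem measurableSet_Ioo] with s hs hsm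
    obtain ⟨hD, -, hc⟩ := hs
    have h2 : HasDerivAt (Dq g a) 0 s := by
      refine (hasDerivAt_const s (0 : ℝ)).congr_of_eventuallyEq ?_
      filter_upwards [isOpen_Ioo.mem_nhds hsm] with t ht
      exact hzero t ht
    have h3 := hD.unique h2
    rcases hc with ⟨hc, -⟩ | ⟨hc, -⟩ | ⟨hc1, hc2, hc3, -⟩
    · rw [h3] at hc; norm_num at hc
    · rw [h3] at hc; norm_num at hc
    · exact ⟨hc1, hc2, hc3⟩
  have hhigh : ∀ᵐ s ∂(volume.restrict (Ioo s₀ R)), Tq g a s + Vq g a s = 1 ∧
      (jumpSet Ω u ∩ sphere a s).encard = 1 := by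
    have h1 := ae_restrict_of_ae_restrict_of_subset
      (show Ioo s₀ R ⊆ Ioo 0 R from Ioo_subset_Ioo_left hs0) hcl
    filter_upwards [h1, ae_restrict_mem measurableSet_Ioo] with s hs hsm
    obtain ⟨-, -, hc⟩ := hs
    rcases hc with ⟨-, hc⟩ | hc | ⟨-, -, -, hc⟩
    · exact absurd hc (hnz s hsm)
    · exact hc
    · exact absurd hc (hnz s hsm)
  -- almost every radius is of one of the two kinds
  have hboth : ∀ᵐ s ∂(volume.restrict (Ioo 0 R)),
      (Tq g a s + Vq g a s = 0 ∧ (jumpSet Ω u ∩ sphere a s).encard = 2) ∨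
      (Tq g a s + Vq g a s = 1 ∧ (jumpSet Ω u ∩ sphere a s).encard = 1) := by
    rw [ae_restrict_iff' measurableSet_Ioo] at hlow hhigh ⊢
    have hne : ∀ᵐ s : ℝ, s ≠ s₀ := by simp [ae_iff, measure_singleton]
    filter_upwards [hlow, hhigh, hne] with s h1 h2 h3 hs
    rcases lt_or_gt_of_ne h3 with h4 | h4
    · left
      obtain ⟨e1, e2, e3⟩ := h1 ⟨hs.1, h4⟩
      exact ⟨by rw [e1, e2, add_zero], e3⟩
    · right
      exact h2 ⟨h4, hs.2⟩
  -- comparison of `L` and `Λ`
  obtain ⟨hΛ1, hΛ2, hΛ3, hΛ4⟩ := coarea h.toSBVData hR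
  have hLΛ : ∀ t ∈ Ioo 0 R, Lq Ω u a t ≤ Lam j a t := by
    intro t ht
    refine le_of_forall_pos_le_add fun ε hε => ?_
    set r := min (ε / 2) (t / 2) with hr
    have hr0 : 0 < r := lt_min (by positivity) (by have := ht.1; positivity)
    have hrt : r ≤ t := (min_le_right _ _).trans (by linarith [ht.1])
    have hrε : r ≤ ε / 2 := min_le_left _ _
    have hsub : uIcc r t ⊆ Ioo 0 R := by
      rw [uIcc_of_le hrt]
      exact fun x hx => ⟨hr0.trans_le hx.1, hx.2.trans_lt ht.2⟩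
    have hsub' : Icc r t ⊆ Ioo 0 R := by rwa [uIcc_of_le hrt] at hsub
    have hder : ∀ᵐ s ∂(volume.restrict (Ioo 0 R)), deriv (Dq g a) s = Tq g a s + Vq g a s := by
      filter_upwards [hcl] with s hs using hs.1.deriv
    have hDint : IntervalIntegrable (deriv (Dq g a)) volume r t :=
      (hDm.mono hsub).intervalIntegrable_deriv
    have h1 : ∫ x in r..t, deriv (Dq g a) x ≤ Dq g a t - Dq g a r :=
      rig_integral_deriv_le hDm hr0 hrt ht.2 hDint (ae_of_all _ fun _ => le_rfl)
    have h2 : ∫ x in r..t, (2 - deriv (Dq g a) x) ≤ Lam j a t - Lam j a r := by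
      refine rig_integral_deriv_le hΛ2 hr0 hrt ht.2 (intervalIntegrable_const.sub hDint) ?_
      filter_upwards [hder, hboth, hΛ1] with s e1 e2 e3
      rw [e1]
      rcases e2 with ⟨e4, e5⟩ | ⟨e4, e5⟩
      · have := e3 2 (by rw [e5]; simp)
        push_cast at this
        linarith
      · have := e3 1 (by rw [e5]; simp)
        push_cast at this
        linarith
    rw [intervalIntegral.integral_sub intervalIntegrable_const hDint,
      intervalIntegral.integral_const, smul_eq_mul] at h2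
    have h3 := heq t ht
    have h4 := asm_Dq_nonneg (g := g) (a := a) r
    have h5 := rig_Lam_nonneg (j := j) (a := a) r
    linarith
  have hJL : ∀ s ∈ Ioo 0 R, ((μH[1] : Measure ℂ) (jumpSet Ω u ∩ ball a s)).toReal ≤
      Lq Ω u a s := fun s hs =>
    ENNReal.toReal_mono (asm_S_lt_top h.toSBVData hR hs.2).ne
      (measure_mono (inter_subset_inter_left _ (asm_jump_sub h.toSBVData)))
  refine ⟨s₀, ⟨hs0, hs1⟩, hzero, hlow, hhigh, ?_, ?_, ?_⟩
  · intro hs00 s hs
    rw [hs00] at hhigh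
    refine le_antisymm ?_ ?_
    · -- upper bound by the flux inequality
      have h1 : ∀ᵐ t ∂(volume.restrict (Ioo 0 R)), Dq g a t ≤ t := by
        filter_upwards [hhigh, flux_bound h hR] with t e1 e2
        have e3 := e2 (by
          have : (jumpSet Ω u ∩ sphere a t).encard ≤ 1 := by rw [e1.2]
          rw [encard_le_one_iff] at this
          exact fun x hx y hy => this x y hx hy)
        rwa [e1.1, mul_one] at e3
      refine le_of_forall_pos_le_add fun ε hε => ?_
      have h2 : (Ioo s (min (s + ε) R)).Nonempty := nonempty_Ioo.2 (lt_min (by linarith) hs.2)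
      have h3 : ∃ t ∈ Ioo s (min (s + ε) R), Dq g a t ≤ t := by
        by_contra hcon
        push Not at hcon
        rw [ae_restrict_iff' measurableSet_Ioo, ae_iff] at h1
        have h4 : Ioo s (min (s + ε) R) ⊆ {t | ¬ (t ∈ Ioo 0 R → Dq g a t ≤ t)} := by
          intro t ht
          have h5 := hcon t ht
          have h6 : t ∈ Ioo 0 R := ⟨hs.1.trans ht.1, ht.2.trans_le (min_le_right _ _)⟩
          exact fun h7 => absurd (h7 h6) (not_le.2 h5)
        have h5 := measure_mono_null h4 h1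
        rw [Real.volume_Ioo, ENNReal.ofReal_eq_zero] at h5
        have := nonempty_Ioo.1 h2
        linarith
      obtain ⟨t, ht, ht2⟩ := h3
      have h4 : Dq g a s ≤ Dq g a t :=
        hDm hs ⟨hs.1.trans ht.1, ht.2.trans_le (min_le_right _ _)⟩ ht.1.le
      have h5 : t < s + ε := ht.2.trans_le (min_le_left _ _)
      linarith
    · refine le_of_forall_pos_le_add fun ε hε => ?_
      set r := min ε (s / 2) with hr
      have hr0 : 0 < r := lt_min hε (by have := hs.1; positivity)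
      have hrs : r ≤ s := (min_le_right _ _).trans (by linarith [hs.1])
      have h1 : ∫ x in r..s, (1 : ℝ) ≤ Dq g a s - Dq g a r := by
        refine rig_integral_deriv_le hDm hr0 hrs hs.2 intervalIntegrable_const ?_
        filter_upwards [hhigh, hcl] with t e1 e2
        rw [e2.1.deriv, e1.1]
      rw [intervalIntegral.integral_const, smul_eq_mul] at h1
      have h2 := asm_Dq_nonneg (g := g) (a := a) r
      have h3 : r ≤ ε := min_le_left _ _
      linarith
  · intro s hs
    refine le_antisymm (hJL s hs) ((hLΛ s hs).trans (hΛ3 s hs))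
  · have h1 : ∀ s ∈ Ioo 0 R, (μH[1] : Measure ℂ) {x ∈ ball a s | inner ℝ (x - a) (j x) ≠ 0} = 0 := by
      intro s hs
      exact hΛ4 s hs (le_antisymm (hΛ3 s hs) ((hJL s hs).trans (hLΛ s hs)))
    have h2 : {x ∈ ball a R | inner ℝ (x - a) (j x) ≠ 0} ⊆
        ⋃ n : ℕ, {x ∈ ball a (R - R / (n + 2)) | inner ℝ (x - a) (j x) ≠ 0} := by
      rintro x ⟨hx, hx2⟩
      rw [mem_ball] at hx
      obtain ⟨n, hn⟩ := exists_nat_gt (R / (R - dist x a))
      have h3 : 0 < R - dist x a := by linarith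
      rw [div_lt_iff₀ h3] at hn
      rw [mem_iUnion]
      refine ⟨n, ?_, hx2⟩
      rw [mem_ball]
      have h4 : (0 : ℝ) < n + 2 := by positivity
      have h5 : R / (n + 2) < R - dist x a := by
        rw [div_lt_iff₀ h4]
        nlinarith
      linarith
    refine measure_mono_null h2 ?_
    rw [measure_iUnion_null_iff]
    intro n
    have h4 : (0 : ℝ) < n + 2 := by positivity
    have h5 : R / (n + 2) < R := by
      rw [div_lt_iff₀ h4]
      nlinarith [(Nat.cast_nonneg n : (0 : ℝ) ≤ n)]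
    have h6 : 0 < R / (n + 2) := by positivity
    exact h1 _ ⟨by linarith, by linarith⟩

/-- The equality case. -/
theorem rig_final (h : MSMin Ω u g j) (hR : ball a R ⊆ Ω) (hR0 : 0 < R)
    (heq : ∀ s ∈ Ioo 0 R, Dq g a s + Lq Ω u a s = 2 * s) :
    (∃ (c₁ c₂ : ℝ) (ν : ℂ), c₁ ≠ c₂ ∧ ‖ν‖ = 1 ∧
      (∀ᵐ x ∂(volume.restrict (halfBall a ν R)), u x = c₁) ∧
      ∀ᵐ x ∂(volume.restrict (halfBall a (-ν) R)), u x = c₂) ∨
    ∃ (c : ℝ) (e : ℂ), ‖e‖ = 1 ∧ ((∀ᵐ x ∂(volume.restrict (ball a R)), u x = c + ctip e (x - a)) ∨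
      ∀ᵐ x ∂(volume.restrict (ball a R)), u x = c - ctip e (x - a)) := by
  obtain ⟨s₀, hs₀, h1, h2, h3, h4, h5, h6⟩ := rig_split h hR hR0 heq
  rcases hs₀.1.eq_or_lt with h7 | h7
  · right
    rw [← h7] at h3
    exact rig_tip h hR hR0 (h4 h7.symm) h3 h6
  left
  have hsub : ball a s₀ ⊆ Ω := (ball_subset_ball hs₀.2).trans hR
  have hrad : (μH[1] : Measure ℂ) {x ∈ ball a s₀ | inner ℝ (x - a) (j x) ≠ 0} = 0 := by
    refine measure_mono_null ?_ h6
    rintro x ⟨hx1, hx2⟩
    exact ⟨ball_subset_ball hs₀.2 hx1, hx2⟩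
  obtain ⟨p₁, p₂, c₁, c₂, h8, h9, h10, h11⟩ := rig_two h hsub h7
    (fun s hs => heq s ⟨hs.1, hs.2.trans_le hs₀.2⟩) h1 h2 hrad
  rcases hs₀.2.eq_or_lt with h12 | h12
  · rw [h12] at h1 h11
    obtain ⟨ν, h13, h14, h15⟩ := rig_line h hR hR0 heq h1 h5 h6 h8 h9 h10 h11
    exact ⟨c₁, c₂, ν, h10, h13, h14, h15⟩
  · exact (rig_mix h hR ⟨h7, h12⟩ h3 h6 h8 h9 h10 h11).elim

end Rig

end Pool.Agent.MP099f24
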