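import Mathlib
import Pool.Agent.Lib.MP_099f24_an.SD.Asm
import Pool.Agent.Lib.MP_099f24_an.SD.Asm2

namespace Pool.Agent.MP099f24

open MeasureTheory Filter Topology Set Metric
open scoped ENNReal ContDiff

section Fin

variable {Ω : Set ℂ} {u : ℂ → ℝ} {g j : ℂ → ℂ} {a : ℂ} {R : ℝ}

/-- the energy with the data `g` -/
noncomputable def en (Ω : Set ℂ) (u : ℂ → ℝ) (g : ℂ → ℂ) (A : Set ℂ) : ℝ≥0∞ :=
  (∫⁻ x in A, ‖g x‖ₑ ^ 2) + (μH[1] : Measure ℂ) (discSet Ω u ∩ A)

theorem en_mono {A B : Set ℂ} (h : A ⊆ B) : en Ω u g A ≤ en Ω u g B :=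
  add_le_add (lintegral_mono_set h) (measure_mono (inter_subset_inter_right _ h))

/-- the energy as a measure -/
noncomputable def enM (Ω : Set ℂ) (u : ℂ → ℝ) (g : ℂ → ℂ) : Measure ℂ :=
  (volume : Measure ℂ).withDensity (fun x => ‖g x‖ₑ ^ 2) +
    (μH[1] : Measure ℂ).restrict (discSet Ω u)

theorem en_eq {A : Set ℂ} (hA : MeasurableSet A) : en Ω u g A = enM Ω u g A := by
  rw [enM, Measure.add_apply, withDensity_apply _ hA, Measure.restrict_apply hA, en, inter_comm]

theorem en_lintegral {A : Set ℂ} (hA : IntegrableOn (fun x => ‖g x‖ ^ 2) A) :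
    ∫⁻ x in A, ‖g x‖ₑ ^ 2 = ENNReal.ofReal (∫ x in A, ‖g x‖ ^ 2) := by
  rw [ofReal_integral_eq_lintegral_ofReal hA (ae_of_all _ fun x => by positivity)]
  refine lintegral_congr fun x => ?_
  rw [← ofReal_norm, ENNReal.ofReal_pow (norm_nonneg _)]

theorem en_ball (h : SBVData Ω u g j) (hR : ball a R ⊆ Ω) {s : ℝ} (hs : s < R) :
    en Ω u g (ball a s) = ENNReal.ofReal (Dq g a s + Lq Ω u a s) := by
  rw [en, en_lintegral (asm_g_int h hR hs), ENNReal.ofReal_add (asm_Dq_nonneg s)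
    (asm_Lq_nonneg s), Lq, ENNReal.ofReal_toReal (asm_S_lt_top h hR hs).ne]
  rfl

theorem en_annulus (h : SBVData Ω u g j) (hR : ball a R ⊆ Ω) {s t : ℝ} (hst : s ≤ t)
    (ht : t < R) :
    en Ω u g (ball a t \ ball a s) =
      ENNReal.ofReal ((Dq g a t + Lq Ω u a t) - (Dq g a s + Lq Ω u a s)) := by
  have hi := asm_g_int h hR ht
  have hLs := asm_S_lt_top h hR (hst.trans_lt ht)
  have hLt := asm_S_lt_top h hR ht
  have e1 : ∫ x in ball a t \ ball a s, ‖g x‖ ^ 2 = Dq g a t - Dq g a s := by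
    rw [setIntegral_sdiff measurableSet_ball hi (ball_subset_ball hst)]
    rfl
  have e2 : (μH[1] : Measure ℂ) (discSet Ω u ∩ (ball a t \ ball a s)) =
      ENNReal.ofReal (Lq Ω u a t - Lq Ω u a s) := by
    have e3 : (μH[1] : Measure ℂ) (discSet Ω u ∩ ball a s) +
        (μH[1] : Measure ℂ) (discSet Ω u ∩ (ball a t \ ball a s)) =
        (μH[1] : Measure ℂ) (discSet Ω u ∩ ball a t) := by
      have := measure_inter_add_sdiff (μ := (μH[1] : Measure ℂ)) (discSet Ω u ∩ ball a t)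
        (measurableSet_ball (x := a) (ε := s))
      rw [← this]
      congr 2
      · ext x
        simp only [mem_inter_iff]
        constructor
        · exact fun hx => ⟨⟨hx.1, ball_subset_ball hst hx.2⟩, hx.2⟩
        · exact fun hx => ⟨hx.1.1, hx.2⟩
      · ext x
        simp only [mem_inter_iff, Set.mem_sdiff]
        tauto
    have e4 : (μH[1] : Measure ℂ) (discSet Ω u ∩ (ball a t \ ball a s)) ≠ ⊤ :=
      ne_top_of_le_ne_top hLt.ne (measure_mono (inter_subset_inter_right _ sdiff_subset))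
    rw [Lq, Lq, ← e3, ENNReal.toReal_add hLs.ne e4, add_sub_cancel_left,
      ENNReal.ofReal_toReal e4]
  have hD : Dq g a s ≤ Dq g a t :=
    setIntegral_mono_set hi (ae_of_all _ fun _ => by positivity)
      (ball_subset_ball hst).eventuallyLE
  have hL : Lq Ω u a s ≤ Lq Ω u a t :=
    ENNReal.toReal_mono hLt.ne (measure_mono (inter_subset_inter_right _ (ball_subset_ball hst)))
  rw [en, en_lintegral (hi.mono_set sdiff_subset), e1, e2,
    ← ENNReal.ofReal_add (by linarith) (by linarith)]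
  congr 1
  ring

theorem fin_annulus (h : MSMin Ω u g j) (hR : ball a R ⊆ Ω) (ha : a ∈ Ω)
    (hcl : a ∈ closure (discSet Ω u)) {s t : ℝ} (hs : 0 ≤ s) (hst : s ≤ t) (ht : t ≤ R) :
    ENNReal.ofReal (2 * (t - s)) ≤ en Ω u g (ball a t \ closedBall a s) := by
  rcases hst.eq_or_lt with rfl | hst'
  · simp
  refine le_of_forall_lt fun c hc => ?_
  have hctop : c ≠ ⊤ := (hc.trans_le le_top).ne
  set c' := c.toReal with hc'
  have hcc : c = ENNReal.ofReal c' := (ENNReal.ofReal_toReal hctop).symm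
  rw [hcc] at hc ⊢
  have hc0 : 0 ≤ c' := ENNReal.toReal_nonneg
  rw [ENNReal.ofReal_lt_ofReal_iff_of_nonneg hc0] at hc
  set δ := (2 * (t - s) - c') / 8 with hδ
  have hδ0 : 0 < δ := by rw [hδ]; linarith
  have hts : s + δ ≤ t - δ := by
    rw [hδ]
    linarith
  have h1 := asm_annulus h hR ha hcl (s := s + δ) (t := t - δ) (by linarith) hts (by linarith)
  have h2 := en_annulus h.toSBVData hR hts (by linarith : t - δ < R)
  have h3 : en Ω u g (ball a (t - δ) \ ball a (s + δ)) ≤ en Ω u g (ball a t \ closedBall a s) := by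
    refine en_mono ?_
    rintro x ⟨hx1, hx2⟩
    rw [mem_ball] at hx1
    rw [mem_ball, not_lt] at hx2
    refine ⟨mem_ball.2 (by linarith), ?_⟩
    rw [mem_closedBall, not_le]
    linarith
  refine lt_of_lt_of_le ?_ h3
  rw [h2, ENNReal.ofReal_lt_ofReal_iff_of_nonneg hc0]
  have : c' < 2 * (t - δ - (s + δ)) := by
    rw [hδ]
    linarith
  linarith

theorem fin_eq (h : MSMin Ω u g j) (hR : ball a R ⊆ Ω) (hR0 : 0 < R) (ha : a ∈ Ω)
    (hcl : a ∈ closure (discSet Ω u)) (he : en Ω u g (ball a R) = ENNReal.ofReal (2 * R)) :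
    ∀ s ∈ Ioo 0 R, Dq g a s + Lq Ω u a s = 2 * s := by
  intro s hs
  refine le_antisymm ?_ (asm_lower h hR ha hcl hs)
  have h1 := fin_annulus h hR ha hcl hs.1.le hs.2.le le_rfl
  have h2 : en Ω u g (ball a s) + en Ω u g (ball a R \ closedBall a s) ≤ en Ω u g (ball a R) := by
    have hdis : Disjoint (ball a s) (ball a R \ closedBall a s) := by
      rw [Set.disjoint_left]
      exact fun x hx hx2 => hx2.2 (ball_subset_closedBall hx)
    have hsub : ball a s ∪ (ball a R \ closedBall a s) ⊆ ball a R :=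
      union_subset (ball_subset_ball hs.2.le) sdiff_subset
    have hm : MeasurableSet (ball a R \ closedBall a s) :=
      measurableSet_ball.diff measurableSet_closedBall
    rw [en_eq measurableSet_ball, en_eq hm, en_eq measurableSet_ball, ← measure_union hdis hm]
    exact measure_mono hsub
  rw [he, en_ball h.toSBVData hR hs.2] at h2
  have h3 : ENNReal.ofReal (Dq g a s + Lq Ω u a s) + ENNReal.ofReal (2 * (R - s)) ≤
      ENNReal.ofReal (2 * R) := (add_le_add le_rfl h1).trans h2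
  rw [← ENNReal.ofReal_add (add_nonneg (asm_Dq_nonneg s) (asm_Lq_nonneg s))
    (by linarith [hs.2]), ENNReal.ofReal_le_ofReal_iff (by linarith)] at h3
  linarith

/-- Sharp lower bounds for the energy of local minimizers, with the equality case. -/
theorem sharp_density {Ω : Set ℂ} (hΩ : IsOpen Ω) {u : ℂ → ℝ} (hu : IsLocalMinimizer Ω u) {x : ℂ}
    (hx : x ∈ Ω) (hcl : x ∈ closure (discSet Ω u)) {r : ℝ} (hr : 0 < r) (hb : ball x r ⊆ Ω) :
    (∀ s t : ℝ, 0 ≤ s → s ≤ t → t ≤ r →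
      ENNReal.ofReal (2 * (t - s)) ≤ energy Ω u (ball x t \ closedBall x s)) ∧
    (energy Ω u (ball x r) = ENNReal.ofReal (2 * r) →
      (∃ (c₁ c₂ : ℝ) (ν : ℂ), c₁ ≠ c₂ ∧ ‖ν‖ = 1 ∧
        (∀ᵐ y ∂(volume.restrict (halfBall x ν r)), u y = c₁) ∧
        ∀ᵐ y ∂(volume.restrict (halfBall x (-ν) r)), u y = c₂) ∨
      ∃ (c : ℝ) (e : ℂ), ‖e‖ = 1 ∧
        ((∀ᵐ y ∂(volume.restrict (ball x r)), u y = c + ctip e (y - x)) ∨
          ∀ᵐ y ∂(volume.restrict (ball x r)), u y = c - ctip e (y - x))) := by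
  obtain ⟨u', g, j, h, hae, hdisc, hen⟩ := exists_MSMin hΩ hu
  have hen' : ∀ A, MeasurableSet A → A ⊆ Ω → energy Ω u A = en Ω u' g A := by
    intro A hA hAΩ
    rw [hen A hA hAΩ, en, hdisc]
  rw [← hdisc] at hcl
  refine ⟨fun s t hs hst ht => ?_, fun he => ?_⟩
  · rw [hen' _ (measurableSet_ball.diff measurableSet_closedBall)
      (sdiff_subset.trans ((ball_subset_ball ht).trans hb))]
    exact fin_annulus h hb hx hcl hs hst ht
  · rw [hen' _ measurableSet_ball hb] at he
    have hfin := rig_final h hb hr (fin_eq h hb hr hx hcl he)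
    have hball : ∀ᵐ y ∂(volume.restrict (ball x r)), u' y = u y :=
      ae_restrict_of_ae_restrict_of_subset hb hae
    have hhalf : ∀ ν : ℂ, ∀ᵐ y ∂(volume.restrict (halfBall x ν r)), u' y = u y := fun ν =>
      ae_restrict_of_ae_restrict_of_subset (inter_subset_left.trans hb) hae
    rcases hfin with ⟨c₁, c₂, ν, h1, h2, h3, h4⟩ | ⟨c, e, h1, h2⟩
    · left
      refine ⟨c₁, c₂, ν, h1, h2, ?_, ?_⟩
      · filter_upwards [h3, hhalf ν] with y e1 e2
        rw [← e2, e1]
      · filter_upwards [h4, hhalf (-ν)] with y e1 e2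
        rw [← e2, e1]
    · right
      refine ⟨c, e, h1, ?_⟩
      rcases h2 with h2 | h2
      · left
        filter_upwards [h2, hball] with y e1 e2
        rw [← e2, e1]
      · right
        filter_upwards [h2, hball] with y e1 e2
        rw [← e2, e1]

/-- Truncated monotonicity at every centre. -/
theorem truncated_mono {Ω : Set ℂ} (hΩ : IsOpen Ω) {u : ℂ → ℝ} (hu : IsLocalMinimizer Ω u) {a : ℂ}
    {s t : ℝ} (hs : 0 < s) (hst : s ≤ t) (hb : ball a t ⊆ Ω) :
    min 2 (energy Ω u (ball a s) / ENNReal.ofReal s) ≤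
      min 2 (energy Ω u (ball a t) / ENNReal.ofReal t) := by
  obtain ⟨u', g, j, h, hae, hdisc, hen⟩ := exists_MSMin hΩ hu
  have hen' : ∀ A, MeasurableSet A → A ⊆ Ω → energy Ω u A = en Ω u' g A := by
    intro A hA hAΩ
    rw [hen A hA hAΩ, en, hdisc]
  rw [hen' _ measurableSet_ball ((ball_subset_ball hst).trans hb),
    hen' _ measurableSet_ball hb]
  rcases hst.eq_or_lt with rfl | hst'
  · exact le_rfl
  have ht0 : 0 < t := hs.trans_le hst
  -- intermediate radii
  have key : ∀ r ∈ Ioo s t, min 2 (en Ω u' g (ball a s) / ENNReal.ofReal s) ≤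
      en Ω u' g (ball a t) / ENNReal.ofReal r := by
    intro r hr
    have hr0 : 0 < r := hs.trans hr.1
    have h1 := asm_mono h hb hs hr.1.le hr.2
    have h2 : en Ω u' g (ball a r) ≤ en Ω u' g (ball a t) := en_mono (ball_subset_ball hr.2.le)
    refine le_trans ?_ (ENNReal.div_le_div_right h2 _)
    rw [en_ball h.toSBVData hb hst', en_ball h.toSBVData hb hr.2, ← ENNReal.ofReal_div_of_pos hs,
      ← ENNReal.ofReal_div_of_pos hr0]
    have h3 : (2 : ℝ≥0∞) = ENNReal.ofReal 2 := by simp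
    rw [h3, ← ENNReal.ofReal_min]
    exact ENNReal.ofReal_le_ofReal (h1.trans (min_le_right _ _))
  refine le_min (min_le_left _ _) ?_
  have hlim : Tendsto (fun r : ℝ => en Ω u' g (ball a t) / ENNReal.ofReal r) (𝓝[<] t)
      (𝓝 (en Ω u' g (ball a t) / ENNReal.ofReal t)) := by
    refine ENNReal.Tendsto.div tendsto_const_nhds (Or.inr (by simpa using ht0)) ?_ (Or.inl ?_)
    · exact (ENNReal.continuous_ofReal.tendsto t).mono_left nhdsWithin_le_nhds
    · exact ENNReal.ofReal_ne_top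
  refine ge_of_tendsto hlim ?_
  filter_upwards [Ioo_mem_nhdsLT hst'] with r hr
  exact key r hr

end Fin

end Pool.Agent.MP099f24
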