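import Mathlib
import Pool.Agent.Lib.MP_099f24_an.SD.GlueCore

/-!
# Gluing a function with jumps inside a disc (MP_099f24_an), core statement
-/

namespace Pool.Agent.MP099f24

open MeasureTheory Filter Topology Set Metric
open scoped ENNReal ContDiff

theorem glueg_int_circle (a : ℂ) (s : ℝ) {f : ℝ → ℝ}
    (hf : IntegrableOn f (Ioo (-Real.pi) Real.pi)) {φ : ℂ → ℝ} (hφ : Continuous φ) (v : ℂ) :
    IntegrableOn (fun θ => f θ * φ (pc a s θ) * inner ℝ (er θ) v)
      (Ioo (-Real.pi) Real.pi) := by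
  have hce : Continuous fun θ => φ (pc a s θ) * inner ℝ (er θ) v :=
    (hφ.comp (glue_contDiff_pc a s).continuous).mul
      (glue_continuous_er.inner continuous_const)
  obtain ⟨C, hC⟩ := isCompact_Icc.exists_bound_of_continuousOn
    (s := Icc (-Real.pi) Real.pi) hce.continuousOn
  have h1 : IntegrableOn (fun θ => (φ (pc a s θ) * inner ℝ (er θ) v) * f θ)
      (Ioo (-Real.pi) Real.pi) := by
    refine Integrable.bdd_mul (c := C) hf hce.aestronglyMeasurable ?_
    rw [ae_restrict_iff' measurableSet_Ioo]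
    exact Eventually.of_forall fun θ hθ => hC θ (Ioo_subset_Icc_self hθ)
  refine h1.congr (Eventually.of_forall fun θ => ?_)
  show (φ (pc a s θ) * inner ℝ (er θ) v) * f θ = f θ * φ (pc a s θ) * inner ℝ (er θ) v
  ring

theorem glueg_hausdorff_finite {Z : Set ℂ} (hZ : Z.Finite) : (μH[1] : Measure ℂ) Z = 0 := by
  have : NullSingletonClass (μH[1] : Measure ℂ) :=
    Measure.nullSingletonClass_hausdorff ℂ one_pos
  exact hZ.measure_zero _

theorem glueg_core {Ω : Set ℂ} {u : ℂ → ℝ} {g j : ℂ → ℂ} (h : SBVData Ω u g j) {a : ℂ} {s : ℝ}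
    (hs : 0 < s) (hcB : closedBall a s ⊆ Ω)
    (hL1 : IntegrableOn (fun θ => u (pc a s θ)) (Ioo (-Real.pi) Real.pi))
    (hL2 : ∀ᵐ θ ∂(volume.restrict (Ioo (-Real.pi) Real.pi)),
      IsApproxLim u (pc a s θ) (u (pc a s θ)))
    (hT : ∀ φ : ℂ → ℝ, ContDiff ℝ ∞ φ → HasCompactSupport φ →
      tsupport φ ⊆ Ω → ∀ v : ℂ,
      ∫ x in Ω \ closedBall a s, u x * fderiv ℝ φ x v =
        - (∫ x in Ω \ closedBall a s, φ x * inner ℝ (g x) v)
        - (∫ x in Ω \ closedBall a s, φ x * inner ℝ (j x) v ∂(μH[1] : Measure ℂ))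
        - s * ∫ θ in Ioo (-Real.pi) Real.pi,
            u (pc a s θ) * φ (pc a s θ) * inner ℝ (er θ) v)
    {W : ℂ → ℝ} {k J : ℂ → ℂ} {Z : Set ℂ} (hZc : IsClosed Z)
    (hW : ContinuousOn W (closedBall a s \ Z)) (hWi : IntegrableOn W (closedBall a s))
    (hWs : IntegrableOn (fun θ => W (pc a s θ)) (Ioo (-Real.pi) Real.pi))
    (hk : IntegrableOn k (ball a s)) (hZs : (Z ∩ sphere a s).Finite)
    (hJi : IntegrableOn J (Z ∩ ball a s) (μH[1] : Measure ℂ))
    (hJ : ∀ x ∈ Z ∩ ball a s, x ≠ a → (∃ b c ν, IsJump W x b c ν ∧ J x = (b - c) • ν) ∨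
        ((∃ z, IsApproxLim W x z) ∧ J x = 0))
    (hI : ∀ φ : ℂ → ℝ, ContDiff ℝ ∞ φ → HasCompactSupport φ → ∀ v : ℂ,
        ∫ x in ball a s, W x * fderiv ℝ φ x v = - (∫ x in ball a s, φ x * inner ℝ (k x) v) -
          (∫ x in Z ∩ ball a s, φ x * inner ℝ (J x) v ∂(μH[1] : Measure ℂ)) +
          s * ∫ θ in Ioo (-Real.pi) Real.pi,
            W (pc a s θ) * φ (pc a s θ) * inner ℝ (er θ) v) :
      LocallyIntegrableOn (glued a s W u) Ω ∧ IsSBVGrad Ω (glued a s W u) (glued a s k g) ∧
      discSet Ω (glued a s W u) ∩ ball a s ⊆ Z ∧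
      (μH[1] : Measure ℂ) (discSet Ω (glued a s W u) ∩ sphere a s) ≤
        ENNReal.ofReal s *
          volume {θ ∈ Ioo (-Real.pi) Real.pi | u (pc a s θ) ≠ W (pc a s θ)} := by
  classical
  have hΩ := h.isOpen
  have hpi := Real.pi_pos
  set w : ℂ → ℝ := glued a s W u with hw
  have hwl : LocallyIntegrableOn w Ω := glue_locInt hΩ hWi h.intu
  have hkc : IntegrableOn k (closedBall a s) := hk.congr_set_ae (glue_ball_ae a s)
  have hgl : LocallyIntegrableOn (glued a s k g) Ω := glue_locInt hΩ hkc h.intg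
  have hscB : sphere a s ⊆ closedBall a s := sphere_subset_closedBall
  have hZm := hZc.measurableSet
  have hnull1 : (μH[1] : Measure ℂ) {a} = 0 := glueg_hausdorff_finite (finite_singleton a)
  have hwW : ∀ᵐ y ∂volume.restrict (ball a s), w y = W y := by
    rw [ae_restrict_iff' measurableSet_ball]
    exact Eventually.of_forall fun y hy => glue_in (le_of_lt hy)
  -- continuity inside
  have hcont : ∀ x ∈ ball a s, x ∉ Z → IsApproxLim w x (w x) := by
    intro x hx hxZ
    refine isApproxLim_of_continuousAt ?_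
    have hmem : closedBall a s \ Z ∈ 𝓝 x :=
      inter_mem (mem_of_superset (isOpen_ball.mem_nhds hx) ball_subset_closedBall)
        (hZc.isOpen_compl.mem_nhds hxZ)
    have h1 : ContinuousAt W x := hW.continuousAt hmem
    have h2 : w =ᶠ[𝓝 x] W := by
      filter_upwards [isOpen_ball.mem_nhds hx] with y hy
      exact glue_in (le_of_lt hy)
    exact h1.congr_of_eventuallyEq h2
  -- the jump field
  have hex : ∀ x : ℂ, ∃ z : ℂ, (dist x a < s → x ≠ a → x ∉ Z → z = 0) ∧
      (dist x a < s → x ≠ a → x ∈ Z → z = J x) ∧ (s < dist x a → z = j x) ∧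
      (dist x a = s ∨ x = a → ((∃ a b ν, IsJump w x a b ν ∧ z = (a - b) • ν) ∨
        ((¬ ∃ a b ν, IsJump w x a b ν) ∧ z = 0))) := by
    intro x
    by_cases hc : dist x a = s ∨ x = a
    · have hnl : ¬ (dist x a < s ∧ x ≠ a) := by
        rintro ⟨h1, h2⟩
        rcases hc with h3 | h3
        · exact absurd h1 (by rw [h3]; exact lt_irrefl _)
        · exact h2 h3
      have hng : ¬ s < dist x a := by
        rcases hc with h3 | h3
        · rw [h3]
          exact lt_irrefl _
        · rw [h3, dist_self]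
          exact not_lt.2 hs.le
      by_cases h2 : ∃ a b ν, IsJump w x a b ν
      · obtain ⟨p, q, ν, h3⟩ := h2
        exact ⟨(p - q) • ν, fun h4 h5 => absurd ⟨h4, h5⟩ hnl, fun h4 h5 => absurd ⟨h4, h5⟩ hnl,
          fun h4 => absurd h4 hng, fun _ => Or.inl ⟨p, q, ν, h3, rfl⟩⟩
      · exact ⟨0, fun h4 h5 => absurd ⟨h4, h5⟩ hnl, fun h4 h5 => absurd ⟨h4, h5⟩ hnl,
          fun h4 => absurd h4 hng, fun _ => Or.inr ⟨h2, rfl⟩⟩
    · rcases lt_or_ge s (dist x a) with h1 | h1
      · exact ⟨j x, fun h2 => absurd (h2.trans h1) (lt_irrefl _),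
          fun h2 => absurd (h2.trans h1) (lt_irrefl _), fun _ => rfl, fun h2 => absurd h2 hc⟩
      · by_cases h2 : x ∈ Z
        · exact ⟨J x, fun _ _ h3 => absurd h2 h3, fun _ _ _ => rfl,
            fun h3 => absurd h3 (not_lt.2 h1), fun h3 => absurd h3 hc⟩
        · exact ⟨0, fun _ _ _ => rfl, fun _ _ h3 => absurd h3 h2,
            fun h3 => absurd h3 (not_lt.2 h1), fun h3 => absurd h3 hc⟩
  choose Jw hJ0 hJ1 hJ2 hJ3 using hex
  have hJf : IsJumpField Ω w Jw := by
    intro x hx
    rcases lt_trichotomy (dist x a) s with h1 | h1 | h1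
    · by_cases hxa : x = a
      · exact hJ3 x (Or.inr hxa)
      · obtain ⟨U, hU, hU1, -⟩ := glue_nhds hΩ hx hwl hwl
        by_cases hxZ : x ∈ Z
        · have hUb : ball a s ∈ 𝓝 x := isOpen_ball.mem_nhds h1
          rcases hJ x ⟨hxZ, h1⟩ hxa with ⟨p, q, ν, h2, h3⟩ | ⟨⟨z, h2⟩, h3⟩
          · exact Or.inl ⟨p, q, ν, (cal_isJump_iff hUb hwW).2 h2, (hJ1 x h1 hxa hxZ).trans h3⟩
          · refine Or.inr ⟨?_, (hJ1 x h1 hxa hxZ).trans h3⟩
            rintro ⟨p, q, ν, h4⟩
            exact not_isApproxLim_of_isJump hU hU1 h4 z ((cal_isApproxLim_iff hUb hwW).2 h2)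
        · refine Or.inr ⟨?_, hJ0 x h1 hxa hxZ⟩
          rintro ⟨p, q, ν, h2⟩
          exact not_isApproxLim_of_isJump hU hU1 h2 _ (hcont x h1 hxZ)
    · exact hJ3 x (Or.inl h1)
    · have hU : (closedBall a s)ᶜ ∈ 𝓝 x :=
        isClosed_closedBall.isOpen_compl.mem_nhds (not_le.2 h1)
      have heq : ∀ᵐ y ∂volume.restrict (closedBall a s)ᶜ, w y = u y := by
        rw [ae_restrict_iff' isClosed_closedBall.measurableSet.compl]
        exact Eventually.of_forall fun y hy => glue_out hy
      rcases h.jf x hx with ⟨p, q, ν, h2, h3⟩ | ⟨h2, h3⟩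
      · exact Or.inl ⟨p, q, ν, (cal_isJump_iff hU heq).2 h2, (hJ2 x h1).trans h3⟩
      · refine Or.inr ⟨?_, (hJ2 x h1).trans h3⟩
        rintro ⟨p, q, ν, h4⟩
        exact h2 ⟨p, q, ν, (cal_isJump_iff hU heq).1 h4⟩
  -- the points of Z on the circle
  have hZθ : ∀ᵐ θ ∂(volume.restrict (Ioo (-Real.pi) Real.pi)), pc a s θ ∉ Z := by
    rw [ae_restrict_iff' measurableSet_Ioo, ae_iff]
    have hfin : {θ | ¬ (θ ∈ Ioo (-Real.pi) Real.pi → pc a s θ ∉ Z)}.Finite := by
      refine Finite.of_finite_image (f := fun t : ℝ => pc a s t) ?_ ?_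
      · refine hZs.subset ?_
        rintro _ ⟨θ, hθ, rfl⟩
        have hθ' : ¬ (θ ∈ Ioo (-Real.pi) Real.pi → pc a s θ ∉ Z) := hθ
        rw [Classical.not_imp, not_not] at hθ'
        exact ⟨hθ'.2, glue_dist_pc a hs θ⟩
      · refine (glue_injOn_pc a hs).mono ?_
        intro θ hθ
        have hθ' : ¬ (θ ∈ Ioo (-Real.pi) Real.pi → pc a s θ ∉ Z) := hθ
        rw [Classical.not_imp] at hθ'
        exact ⟨hθ'.1.1.le, hθ'.1.2⟩
    exact hfin.measure_zero _
  have hWw : ∀ x ∈ closedBall a s, x ∉ Z → ContinuousWithinAt W (closedBall a s) x := by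
    intro x hx hxZ
    refine (hW x ⟨hx, hxZ⟩).mono_of_mem_nhdsWithin ?_
    exact inter_mem_nhdsWithin _ (hZc.isOpen_compl.mem_nhds hxZ)
  -- almost every point of the circle
  have hae : ∀ᵐ θ ∂(volume.restrict (Ioo (-Real.pi) Real.pi)),
      Jw (pc a s θ) = (u (pc a s θ) - W (pc a s θ)) • er θ ∧
      (u (pc a s θ) = W (pc a s θ) → pc a s θ ∉ discSet Ω w) := by
    filter_upwards [hL2, hZθ] with θ hθ hθZ
    have hxs : dist (pc a s θ) a = s := glue_dist_pc a hs θ
    have hxc : pc a s θ ∈ closedBall a s := hxs.le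
    obtain ⟨U, hU, hU1, hU2⟩ := glue_nhds hΩ (hcB hxc) h.intu hwl
    by_cases hc : u (pc a s θ) = W (pc a s θ)
    · have h1 : IsApproxLim w (pc a s θ) (W (pc a s θ)) :=
        glue_case_eq hU hU1 hU2 (hWw _ hxc hθZ) (by rw [← hc]; exact hθ)
      refine ⟨?_, fun _ hd => hd.2 ⟨_, h1⟩⟩
      rcases hJ3 _ (Or.inl hxs) with ⟨p, q, ν, h2, -⟩ | ⟨-, h3⟩
      · exact absurd h1 (not_isApproxLim_of_isJump hU hU2 h2 _)
      · rw [h3, hc, sub_self, zero_smul]
    · have h1 : IsJump w (pc a s θ) (u (pc a s θ)) (W (pc a s θ)) (er θ) :=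
        glue_case_ne hs hU hU1 hU2 (hWw _ hxc hθZ) hc hθ
      refine ⟨?_, fun h2 => absurd h2 hc⟩
      rcases hJ3 _ (Or.inl hxs) with ⟨p, q, ν, h2, h3⟩ | ⟨h2, -⟩
      · rw [h3]
        rcases isJump_unique hU hU2 h1 h2 with ⟨e1, e2, e3⟩ | ⟨e1, e2, e3⟩
        · rw [e1, e2, e3]
        · rw [e1, e2, e3, smul_neg, ← neg_smul, neg_sub]
      · exact absurd ⟨_, _, _, h1⟩ h2
  -- integrability of the jump field on the circle
  set Fs : ℂ → ℂ := fun x => (u x - W x) • ((s⁻¹ : ℝ) • (x - a)) with hFs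
  have hFpc : ∀ θ, Fs (pc a s θ) = (u (pc a s θ) - W (pc a s θ)) • er θ := by
    intro θ
    show (u (pc a s θ) - W (pc a s θ)) • ((s⁻¹ : ℝ) • (pc a s θ - a)) = _
    rw [glue_inv_pc a hs]
  have hJF : ∀ᵐ x ∂((μH[1] : Measure ℂ).restrict (sphere a s)), Jw x = Fs x := by
    refine glue_ae_sphere a hs ?_
    filter_upwards [hae] with θ hθ
    rw [hθ.1, hFpc]
  have hdi : IntegrableOn (fun θ => u (pc a s θ) - W (pc a s θ)) (Ioo (-Real.pi) Real.pi) :=
    hL1.sub hWs
  have hFi : IntegrableOn Fs (sphere a s) (μH[1] : Measure ℂ) := by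
    refine glue_integrableOn_sphere a hs ?_ ?_
    · have hWm : AEStronglyMeasurable W ((μH[1] : Measure ℂ).restrict (sphere a s)) := by
        have h0 : (sphere a s \ Z : Set ℂ) =ᵐ[(μH[1] : Measure ℂ)] sphere a s := by
          have h1 : (sphere a s \ Z : Set ℂ) = sphere a s \ (Z ∩ sphere a s) := by
            ext x
            simp only [Set.mem_sdiff, mem_inter_iff]
            tauto
          rw [h1]
          exact sdiff_null_ae_eq_self (glueg_hausdorff_finite hZs)
        rw [← Measure.restrict_congr_set h0]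
        refine ContinuousOn.aestronglyMeasurable (hW.mono ?_)
          (isClosed_sphere.measurableSet.diff hZm)
        intro x hx
        exact ⟨hscB hx.1, hx.2⟩
      have h1 : AEStronglyMeasurable (fun x => u x - W x)
          ((μH[1] : Measure ℂ).restrict (sphere a s)) :=
        h.meas_u.aestronglyMeasurable.sub hWm
      have h2 : AEStronglyMeasurable (fun x : ℂ => (s⁻¹ : ℝ) • (x - a))
          ((μH[1] : Measure ℂ).restrict (sphere a s)) :=
        ((continuous_id.sub continuous_const).const_smul (s⁻¹ : ℝ)).aestronglyMeasurable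
      exact h1.smul h2
    · simp_rw [hFpc]
      refine Integrable.mono hdi
        (hdi.aestronglyMeasurable.smul glue_continuous_er.aestronglyMeasurable) ?_
      refine Eventually.of_forall fun θ => ?_
      rw [norm_smul, glue_norm_er, mul_one]
  have hJsph : IntegrableOn Jw (sphere a s) (μH[1] : Measure ℂ) :=
    Integrable.congr hFi (hJF.mono fun x hx => hx.symm)
  -- the jump field in the ball
  have hJb0 : ∀ᵐ x ∂((μH[1] : Measure ℂ).restrict (ball a s)), Jw x = Z.indicator J x := by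
    rw [ae_restrict_iff' measurableSet_ball]
    have h1 : ∀ᵐ x ∂(μH[1] : Measure ℂ), x ∉ ({a} : Set ℂ) := measure_eq_zero_iff_ae_notMem.1 hnull1
    filter_upwards [h1] with x hxa hx
    by_cases hxZ : x ∈ Z
    · rw [indicator_of_mem hxZ]
      exact hJ1 x hx hxa hxZ
    · rw [indicator_of_notMem hxZ]
      exact hJ0 x hx hxa hxZ
  have hJball : IntegrableOn Jw (ball a s) (μH[1] : Measure ℂ) := by
    have h1 : IntegrableOn (Z.indicator J) (ball a s) (μH[1] : Measure ℂ) := by
      rw [IntegrableOn, integrable_indicator_iff hZm, IntegrableOn, Measure.restrict_restrict hZm]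
      exact hJi
    exact Integrable.congr h1 (hJb0.mono fun x hx => hx.symm)
  have hJl : LocallyIntegrableOn Jw Ω (μH[1] : Measure ℂ) := by
    rw [locallyIntegrableOn_iff hΩ.isLocallyClosed]
    intro K hKΩ hK
    have hKm := hK.isClosed.measurableSet
    have h1 : IntegrableOn Jw (K ∩ ball a s) (μH[1] : Measure ℂ) :=
      hJball.mono_set inter_subset_right
    have h2 : IntegrableOn Jw (K ∩ sphere a s) (μH[1] : Measure ℂ) :=
      hJsph.mono_set inter_subset_right
    have h3 : IntegrableOn Jw (K \ closedBall a s) (μH[1] : Measure ℂ) := by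
      refine ((h.intj.integrableOn_compact_subset hKΩ hK).mono_set sdiff_subset).congr_fun ?_
        (hKm.diff measurableSet_closedBall)
      intro x hx
      exact (hJ2 x (not_le.1 hx.2)).symm
    refine ((h1.union h2).union h3).mono_set ?_
    intro x hx
    rcases lt_trichotomy (dist x a) s with h4 | h4 | h4
    · exact Or.inl (Or.inl ⟨hx, h4⟩)
    · exact Or.inl (Or.inr ⟨hx, h4⟩)
    · exact Or.inr ⟨hx, not_le.2 h4⟩
  refine ⟨hwl, ⟨hgl, Jw, hJf, hJl, ?_⟩, ?_, ?_⟩
  · -- the weak form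
    intro φ hφ hφc hφs v
    have hφcont := hφ.continuous
    have hcap : Ω ∩ closedBall a s = closedBall a s := inter_eq_right.2 hcB
    -- left side
    have hL := integral_inter_add_sdiff (t := closedBall a s) measurableSet_closedBall
      (glue_int_fderiv hwl hφ hφc hφs v)
    rw [hcap, setIntegral_congr_set (glue_ball_ae a s)] at hL
    have hLa : ∫ x in ball a s, w x * fderiv ℝ φ x v = ∫ x in ball a s, W x * fderiv ℝ φ x v := by
      refine setIntegral_congr_fun measurableSet_ball ?_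
      intro x hx
      show w x * fderiv ℝ φ x v = W x * fderiv ℝ φ x v
      rw [hw, glue_in (le_of_lt hx)]
    have hLb : ∫ x in Ω \ closedBall a s, w x * fderiv ℝ φ x v =
        ∫ x in Ω \ closedBall a s, u x * fderiv ℝ φ x v := by
      refine setIntegral_congr_fun (hΩ.measurableSet.diff measurableSet_closedBall) ?_
      intro x hx
      show w x * fderiv ℝ φ x v = u x * fderiv ℝ φ x v
      rw [hw, glue_out hx.2]
    -- gradient
    have hG := integral_inter_add_sdiff (t := closedBall a s) measurableSet_closedBall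
      (glue_int_inner hΩ hgl hφcont hφc hφs v)
    rw [hcap, setIntegral_congr_set (glue_ball_ae a s)] at hG
    have hGa : ∫ x in ball a s, φ x * inner ℝ (glued a s k g x) v =
        ∫ x in ball a s, φ x * inner ℝ (k x) v := by
      refine setIntegral_congr_fun measurableSet_ball ?_
      intro x hx
      show φ x * inner ℝ (glued a s k g x) v = φ x * inner ℝ (k x) v
      rw [glue_in (le_of_lt hx)]
    have hGb : ∫ x in Ω \ closedBall a s, φ x * inner ℝ (glued a s k g x) v =
        ∫ x in Ω \ closedBall a s, φ x * inner ℝ (g x) v := by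
      refine setIntegral_congr_fun (hΩ.measurableSet.diff measurableSet_closedBall) ?_
      intro x hx
      show φ x * inner ℝ (glued a s k g x) v = φ x * inner ℝ (g x) v
      rw [glue_out hx.2]
    -- jump part
    have hJi' := glue_int_inner hΩ hJl hφcont hφc hφs v
    have hJJ := integral_inter_add_sdiff (t := closedBall a s) measurableSet_closedBall hJi'
    rw [hcap] at hJJ
    have hJb : ∫ x in Ω \ closedBall a s, φ x * inner ℝ (Jw x) v ∂(μH[1] : Measure ℂ) =
        ∫ x in Ω \ closedBall a s, φ x * inner ℝ (j x) v ∂(μH[1] : Measure ℂ) := by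
      refine setIntegral_congr_fun (hΩ.measurableSet.diff measurableSet_closedBall) ?_
      intro x hx
      show φ x * inner ℝ (Jw x) v = φ x * inner ℝ (j x) v
      rw [hJ2 x (not_le.1 hx.2)]
    have hJc := integral_inter_add_sdiff (t := ball a s) measurableSet_ball (hJi'.mono_set hcB)
    rw [closedBall_sdiff_ball, inter_eq_right.2 (ball_subset_closedBall (x := a) (ε := s))] at hJc
    have hJd : ∫ x in ball a s, φ x * inner ℝ (Jw x) v ∂(μH[1] : Measure ℂ) =
        ∫ x in Z ∩ ball a s, φ x * inner ℝ (J x) v ∂(μH[1] : Measure ℂ) := by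
      have e1 : ∫ x in ball a s, φ x * inner ℝ (Jw x) v ∂(μH[1] : Measure ℂ) =
          ∫ x in ball a s, Z.indicator (fun x => φ x * inner ℝ (J x) v) x
            ∂(μH[1] : Measure ℂ) := by
        refine integral_congr_ae ?_
        filter_upwards [hJb0] with x hx
        rw [hx]
        by_cases hxZ : x ∈ Z
        · rw [indicator_of_mem hxZ, indicator_of_mem hxZ]
        · rw [indicator_of_notMem hxZ, indicator_of_notMem hxZ, inner_zero_left, mul_zero]
      rw [e1, setIntegral_indicator hZm, inter_comm]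
    have hJe : ∫ x in sphere a s, φ x * inner ℝ (Jw x) v ∂(μH[1] : Measure ℂ) =
        s * ((∫ θ in Ioo (-Real.pi) Real.pi, u (pc a s θ) * φ (pc a s θ) * inner ℝ (er θ) v) -
          ∫ θ in Ioo (-Real.pi) Real.pi, W (pc a s θ) * φ (pc a s θ) * inner ℝ (er θ) v) := by
      have e1 : ∫ x in sphere a s, φ x * inner ℝ (Jw x) v ∂(μH[1] : Measure ℂ) =
          ∫ x in sphere a s, φ x * inner ℝ (Fs x) v ∂(μH[1] : Measure ℂ) := by
        refine integral_congr_ae ?_
        filter_upwards [hJF] with x hx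
        rw [hx]
      rw [e1, glue_integral_sphere a hs, ← integral_sub (glueg_int_circle a s hL1 hφcont v)
        (glueg_int_circle a s hWs hφcont v)]
      congr 1
      refine integral_congr_ae (Eventually.of_forall fun θ => ?_)
      show φ (pc a s θ) * inner ℝ (Fs (pc a s θ)) v =
        u (pc a s θ) * φ (pc a s θ) * inner ℝ (er θ) v -
        W (pc a s θ) * φ (pc a s θ) * inner ℝ (er θ) v
      rw [hFpc, real_inner_smul_left]
      ring
    have hT' := hT φ hφ hφc hφs v
    have hI' := hI φ hφ hφc v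
    rw [← hL, ← hG, ← hJJ, ← hJc, hLa, hLb, hGa, hGb, hJb, hJd, hJe, hT', hI']
    ring
  · -- no discontinuity inside off Z
    rintro x ⟨hx1, hx2⟩
    by_contra hxZ
    exact hx1.2 ⟨_, hcont x hx2 hxZ⟩
  · -- the measure of the discontinuity set on the circle
    set A : Set ℝ := {θ ∈ Ioo (-Real.pi) Real.pi | u (pc a s θ) ≠ W (pc a s θ)} with hA
    have hae' := hae
    rw [ae_restrict_iff' measurableSet_Ioo, ae_iff] at hae'
    set N : Set ℝ := {θ | ¬ (θ ∈ Ioo (-Real.pi) Real.pi →
      Jw (pc a s θ) = (u (pc a s θ) - W (pc a s θ)) • er θ ∧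
      (u (pc a s θ) = W (pc a s θ) → pc a s θ ∉ discSet Ω w))} with hN
    have hsub : discSet Ω w ∩ sphere a s ⊆ (fun t : ℝ => pc a s t) '' (A ∪ (N ∪ {-Real.pi})) := by
      rintro x ⟨hx1, hx2⟩
      obtain ⟨θ, hθ, rfl⟩ := glue_exists_pc a hx2
      refine ⟨θ, ?_, rfl⟩
      rcases eq_or_lt_of_le hθ.1 with h1 | h1
      · exact Or.inr (Or.inr h1.symm)
      · by_cases h2 : u (pc a s θ) = W (pc a s θ)
        · exact Or.inr (Or.inl fun h3 => (h3 ⟨h1, hθ.2⟩).2 h2 hx1)
        · exact Or.inl ⟨⟨h1, hθ.2⟩, h2⟩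
    calc (μH[1] : Measure ℂ) (discSet Ω w ∩ sphere a s)
        ≤ (μH[1] : Measure ℂ) ((fun t : ℝ => pc a s t) '' (A ∪ (N ∪ {-Real.pi}))) :=
          measure_mono hsub
      _ ≤ ENNReal.ofReal s * volume (A ∪ (N ∪ {-Real.pi})) := glue_hausdorff_image a hs _
      _ ≤ ENNReal.ofReal s * volume A := by
          refine mul_le_mul_right ?_ _
          refine (measure_union_le _ _).trans ?_
          have h1 : volume (N ∪ {-Real.pi}) = 0 := by
            rw [measure_union_null_iff]
            exact ⟨hae', Real.volume_singleton⟩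
          rw [h1, add_zero]

end Pool.Agent.MP099f24
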