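import Mathlib
import Pool.Agent.Lib.MP_099f24_an.SD.GluegCore
import Pool.Agent.Lib.MP_099f24_an.SD.Leb
import Pool.Agent.Lib.MP_099f24_an.SD.Trace

/-!
# Gluing inside almost every disc, with jumps inside (MP_099f24_an)
-/

namespace Pool.Agent.MP099f24

open MeasureTheory Filter Topology Set Metric
open scoped ENNReal ContDiff

theorem glue_gen {Ω : Set ℂ} {u : ℂ → ℝ} {g j : ℂ → ℂ} (h : SBVData Ω u g j) {a : ℂ} {R : ℝ}
    (hR : ball a R ⊆ Ω) :
    ∀ᵐ s ∂(volume.restrict (Ioo 0 R)), ∀ (W : ℂ → ℝ) (k J : ℂ → ℂ) (Z : Set ℂ), IsClosed Z →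
      ContinuousOn W (closedBall a s \ Z) → IntegrableOn W (closedBall a s) →
      IntegrableOn (fun θ => W (pc a s θ)) (Ioo (-Real.pi) Real.pi) →
      IntegrableOn k (ball a s) → (Z ∩ sphere a s).Finite →
      IntegrableOn J (Z ∩ ball a s) (μH[1] : Measure ℂ) →
      (∀ x ∈ Z ∩ ball a s, x ≠ a → (∃ b c ν, IsJump W x b c ν ∧ J x = (b - c) • ν) ∨
        ((∃ z, IsApproxLim W x z) ∧ J x = 0)) →
      (∀ φ : ℂ → ℝ, ContDiff ℝ ∞ φ → HasCompactSupport φ → ∀ v : ℂ,
        ∫ x in ball a s, W x * fderiv ℝ φ x v = - (∫ x in ball a s, φ x * inner ℝ (k x) v) -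
          (∫ x in Z ∩ ball a s, φ x * inner ℝ (J x) v ∂(μH[1] : Measure ℂ)) +
          s * ∫ θ in Ioo (-Real.pi) Real.pi,
            W (pc a s θ) * φ (pc a s θ) * inner ℝ (er θ) v) →
      LocallyIntegrableOn (glued a s W u) Ω ∧ IsSBVGrad Ω (glued a s W u) (glued a s k g) ∧
      discSet Ω (glued a s W u) ∩ ball a s ⊆ Z ∧
      (μH[1] : Measure ℂ) (discSet Ω (glued a s W u) ∩ sphere a s) ≤
        ENNReal.ofReal s * volume {θ ∈ Ioo (-Real.pi) Real.pi | u (pc a s θ) ≠ W (pc a s θ)} := by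
  have hi : ∀ s < R, IntegrableOn u (ball a s) := fun s hs =>
    (h.intu.integrableOn_compact_subset ((closedBall_subset_ball hs).trans hR)
      (isCompact_closedBall a s)).mono_set ball_subset_closedBall
  filter_upwards [slice_lebesgue h.meas_u hi, trace_outside h hR,
    ae_restrict_mem measurableSet_Ioo] with s h1 h2 h3
  intro W k J Z hZc hW hWi hWs hk hZs hJi hJ hI
  exact glueg_core h h3.1 ((closedBall_subset_ball h3.2).trans hR) h1.1 h1.2.1 h2 hZc hW hWi hWs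
    hk hZs hJi hJ hI

end Pool.Agent.MP099f24
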