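import Mathlib
import Pool.Agent.Lib.MP_099f24_an.SD.Defs
import Pool.Agent.Lib.MP_099f24_an.SD.Polar
import Pool.Agent.Lib.MP_099f24_an.SD.Comp0Core
import Pool.Agent.Lib.MP_099f24_an.SD.Comp0
import Pool.Agent.Lib.MP_099f24_an.SD.Wirt
import Pool.Agent.Lib.MP_099f24_an.SD.Wirteq
import Pool.Agent.Lib.MP_099f24_an.SD.Slice
import Pool.Agent.Lib.MP_099f24_an.SD.Glueg
import Pool.Agent.Lib.MP_099f24_an.Curve
import Pool.Agent.Lib.MP_099f24_an.JumpBasic

/-!
# MP_099f24_an, sharp densities: module CONE (cone competitor with exponent one half)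
-/

namespace Pool.Agent.MP099f24

open MeasureTheory Filter Topology Set Metric
open scoped ENNReal ContDiff

/-! ### Angles -/

lemma cone_er_norm (θ : ℝ) : ‖er θ‖ = 1 := by rw [er, Complex.norm_exp_ofReal_mul_I]

lemma cone_er_ne (θ : ℝ) : er θ ≠ 0 := by
  rw [← norm_pos_iff, cone_er_norm]; exact one_pos

lemma cone_er_add (x y : ℝ) : er (x + y) = er x * er y := by
  rw [er, er, er, ← Complex.exp_add]
  push_cast
  ring_nf

lemma cone_er_conj (x : ℝ) : (starRingEnd ℂ) (er x) = er (-x) := by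
  rw [er, er, ← Complex.exp_conj]
  simp

lemma cone_er_mul_conj (x : ℝ) : er x * (starRingEnd ℂ) (er x) = 1 := by
  rw [cone_er_conj, ← cone_er_add, add_neg_cancel]
  simp [er]

lemma cone_er_pi : er Real.pi = -1 := by
  rw [er, Complex.exp_pi_mul_I]

lemma cone_pc_eq {a : ℂ} {r r' x y : ℝ} (hr : 0 < r) (hr' : 0 < r') (h : pc a r x = pc a r' y)
    (hxy : |x - y| < 2 * Real.pi) : r = r' ∧ x = y := by
  have h1 : r = r' := by
    rw [← polar_dist a hr x, h, polar_dist a hr' y]
  subst h1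
  refine ⟨rfl, ?_⟩
  rw [pc, pc] at h
  have h2 := mul_left_cancel₀ (by exact_mod_cast hr.ne' : (r : ℂ) ≠ 0) (add_left_cancel h)
  have hpi := Real.pi_pos
  rw [er, er, Complex.exp_eq_exp_iff_exists_int] at h2
  obtain ⟨n, hn⟩ := h2
  have h1 : x = y + n * (2 * Real.pi) := by
    have h2 := congrArg Complex.im hn
    simpa using h2
  have h3 : |(n : ℝ) * (2 * Real.pi)| < 2 * Real.pi := by
    rw [h1] at hxy
    simpa using hxy
  rw [abs_mul, abs_of_pos (by positivity : 0 < 2 * Real.pi)] at h3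
  have h4 : |(n : ℝ)| < 1 := by
    by_contra hcon
    push Not at hcon
    nlinarith
  have h5 : n = 0 := by
    have : |n| < 1 := by exact_mod_cast h4
    exact Int.abs_lt_one_iff.1 this
  rw [h1, h5]; simp

/-- The angle of `x - a` in the interval `(p - π, p + π]`. -/
noncomputable def cone_B (p : ℝ) (a x : ℂ) : ℝ := p + ((x - a) * (starRingEnd ℂ) (er p)).arg

lemma cone_B_mem (p : ℝ) (a x : ℂ) : cone_B p a x ∈ Ioc (p - Real.pi) (p + Real.pi) := by
  have h := Complex.arg_mem_Ioc ((x - a) * (starRingEnd ℂ) (er p))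
  exact ⟨by unfold cone_B; linarith [h.1], by unfold cone_B; linarith [h.2]⟩

lemma cone_B_eq (p : ℝ) (a x : ℂ) : x = pc a (dist x a) (cone_B p a x) := by
  set z := (x - a) * (starRingEnd ℂ) (er p) with hz
  have h5 : (‖z‖ : ℂ) * er z.arg = z := by
    rw [er]; exact Complex.norm_mul_exp_arg_mul_I z
  have hzn : ‖z‖ = dist x a := by
    rw [hz, norm_mul, Complex.norm_conj, cone_er_norm, mul_one, dist_eq_norm]
  have h7 : x - a = z * er p := by
    rw [hz, mul_assoc, mul_comm ((starRingEnd ℂ) (er p)), cone_er_mul_conj, mul_one]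
  rw [pc, cone_B, ← hz, cone_er_add, ← hzn, mul_comm (er p), ← mul_assoc, h5, ← h7]
  ring

lemma cone_B_cont (p : ℝ) {a : ℂ} {r : ℝ} (hr : 0 < r) : ContinuousAt (cone_B p a) (pc a r p) := by
  unfold cone_B
  refine ContinuousAt.add continuousAt_const ?_
  have h1 : (pc a r p - a) * (starRingEnd ℂ) (er p) = (r : ℂ) := by
    rw [pc, add_sub_cancel_left, mul_assoc, cone_er_mul_conj, mul_one]
  refine ContinuousAt.comp (f := fun x : ℂ => (x - a) * (starRingEnd ℂ) (er p))
    (g := Complex.arg) ?_ (by fun_prop)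
  rw [h1]
  exact Complex.continuousAt_arg (Complex.ofReal_mem_slitPlane.2 hr)

lemma cone_B_self (p : ℝ) {a : ℂ} {r : ℝ} (hr : 0 < r) : cone_B p a (pc a r p) = p := by
  have h1 : (pc a r p - a) * (starRingEnd ℂ) (er p) = (r : ℂ) := by
    rw [pc, add_sub_cancel_left, mul_assoc, cone_er_mul_conj, mul_one]
  rw [cone_B, h1, Complex.arg_ofReal_of_nonneg hr.le, add_zero]

/-- The angle of `x - a` in the interval `(p, p + 2π]`. -/
noncomputable def cone_A (p : ℝ) (a x : ℂ) : ℝ := cone_B (p + Real.pi) a x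

lemma cone_A_mem (p : ℝ) (a x : ℂ) : cone_A p a x ∈ Ioc p (p + 2 * Real.pi) := by
  have h := cone_B_mem (p + Real.pi) a x
  exact ⟨by unfold cone_A; linarith [h.1], by unfold cone_A; linarith [h.2]⟩

lemma cone_A_eq (p : ℝ) (a x : ℂ) : x = pc a (dist x a) (cone_A p a x) := cone_B_eq _ a x

lemma cone_A_pc (p : ℝ) (a : ℂ) {r θ : ℝ} (hr : 0 < r) (hθ : θ ∈ Ioc p (p + 2 * Real.pi)) :
    cone_A p a (pc a r θ) = θ := by
  have h1 := cone_A_eq p a (pc a r θ)
  rw [polar_dist a hr] at h1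
  have h2 := cone_A_mem p a (pc a r θ)
  refine ((cone_pc_eq hr hr h1 ?_).2).symm
  rw [abs_lt]
  constructor <;> linarith [h2.1, h2.2, hθ.1, hθ.2]

lemma cone_A_meas (p : ℝ) (a : ℂ) : Measurable (cone_A p a) := by
  unfold cone_A cone_B
  exact (Complex.measurable_arg.comp ((measurable_id.sub_const a).mul_const _)).const_add _

lemma cone_A_cont {p : ℝ} {a x : ℂ} (hx : x ≠ a) (hA : cone_A p a x ≠ p + 2 * Real.pi) :
    ContinuousAt (cone_A p a) x := by
  unfold cone_A cone_B at *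
  refine ContinuousAt.add continuousAt_const ?_
  refine ContinuousAt.comp (f := fun x : ℂ => (x - a) * (starRingEnd ℂ) (er (p + Real.pi)))
    (g := Complex.arg) ?_ (by fun_prop)
  apply Complex.continuousAt_arg
  rw [Complex.mem_slitPlane_iff_arg]
  refine ⟨fun h => hA (by rw [h]; ring), ?_⟩
  refine mul_ne_zero (sub_ne_zero.2 hx) ?_
  rw [map_ne_zero]
  exact cone_er_ne _

/-! ### Polar coordinates with a shifted interval of angles -/

noncomputable def cone_rot (a : ℂ) (α : ℝ) : ℂ ≃ᵐ ℂ :=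
  ((MeasurableEquiv.addRight (-a)).trans
    (rotation (Circle.exp α)).toHomeomorph.toMeasurableEquiv).trans (MeasurableEquiv.addLeft a)

lemma cone_rot_apply (a : ℂ) (α : ℝ) (x : ℂ) : cone_rot a α x = a + er α * (x - a) := by
  change a + rotation (Circle.exp α) (x + -a) = _
  rw [rotation_apply, Circle.coe_exp, er, sub_eq_add_neg]

lemma cone_rot_mp (a : ℂ) (α : ℝ) : MeasurePreserving (cone_rot a α) volume volume :=
  (measurePreserving_add_left volume a).comp
    (((rotation (Circle.exp α)).measurePreserving).comp (measurePreserving_add_right volume (-a)))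

lemma cone_rot_pc (a : ℂ) (α r θ : ℝ) : cone_rot a α (pc a r θ) = pc a r (θ + α) := by
  rw [cone_rot_apply, pc, pc, add_sub_cancel_left, cone_er_add]
  ring

lemma cone_rot_dist (a : ℂ) (α : ℝ) (x : ℂ) : dist (cone_rot a α x) a = dist x a := by
  rw [cone_rot_apply, dist_eq_norm, add_sub_cancel_left, norm_mul, cone_er_norm, one_mul,
    dist_eq_norm]

noncomputable def cone_tr (α : ℝ) : ℝ × ℝ ≃ᵐ ℝ × ℝ :=
  MeasurableEquiv.prodCongr (MeasurableEquiv.refl ℝ) (MeasurableEquiv.addRight α)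

lemma cone_tr_mp (α : ℝ) : MeasurePreserving (cone_tr α) volume volume :=
  (MeasurePreserving.id volume).prod (measurePreserving_add_right volume α)

lemma cone_tr_pre (α : ℝ) (P : Set ℝ) (x y : ℝ) :
    (cone_tr α) ⁻¹' (P ×ˢ Ioo (x + α) (y + α)) = P ×ˢ Ioo x y := by
  ext p
  change p.1 ∈ P ∧ p.2 + α ∈ Ioo (x + α) (y + α) ↔ p.1 ∈ P ∧ p.2 ∈ Ioo x y
  simp only [mem_Ioo, add_lt_add_iff_right]

theorem cone_polar_lint (a : ℂ) {P : Set ℝ} (hP : MeasurableSet P) (hP0 : P ⊆ Ioi 0)
    (h : ℂ → ℝ≥0∞) (p : ℝ) :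
    ∫⁻ x in {x | dist x a ∈ P}, h x =
      ∫⁻ z in P ×ˢ Ioo p (p + 2 * Real.pi), ENNReal.ofReal z.1 * h (pc a z.1 z.2) := by
  set α := p + Real.pi with hα
  have h1 := (cone_rot_mp a α).setLIntegral_comp_preimage_emb (cone_rot a α).measurableEmbedding h
    {x | dist x a ∈ P}
  have h2 : (cone_rot a α) ⁻¹' {x | dist x a ∈ P} = {x | dist x a ∈ P} := by
    ext x
    simp only [mem_preimage, mem_ofPred_eq, cone_rot_dist]
  rw [h2] at h1
  rw [← h1, polar_lintegral a hP hP0]
  have h3 := (cone_tr_mp α).setLIntegral_comp_preimage_emb (cone_tr α).measurableEmbedding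
    (fun z => ENNReal.ofReal z.1 * h (pc a z.1 z.2)) (P ×ˢ Ioo p (p + 2 * Real.pi))
  have h4 : (cone_tr α) ⁻¹' (P ×ˢ Ioo p (p + 2 * Real.pi)) = P ×ˢ Ioo (-Real.pi) Real.pi := by
    have := cone_tr_pre α P (-Real.pi) Real.pi
    rw [hα] at this ⊢
    rw [← this]
    congr 2 <;> ring_nf
  rw [h4] at h3
  rw [← h3]
  refine lintegral_congr fun z => ?_
  rw [cone_rot_pc]
  rfl

theorem cone_polar_int {E : Type*} [NormedAddCommGroup E] [NormedSpace ℝ E] (a : ℂ) {P : Set ℝ}
    (hP : MeasurableSet P) (hP0 : P ⊆ Ioi 0) (h : ℂ → E) (p : ℝ) :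
    ∫ x in {x | dist x a ∈ P}, h x =
      ∫ z in P ×ˢ Ioo p (p + 2 * Real.pi), z.1 • h (pc a z.1 z.2) := by
  set α := p + Real.pi with hα
  have h1 := (cone_rot_mp a α).setIntegral_preimage_emb (cone_rot a α).measurableEmbedding h
    {x | dist x a ∈ P}
  have h2 : (cone_rot a α) ⁻¹' {x | dist x a ∈ P} = {x | dist x a ∈ P} := by
    ext x
    simp only [mem_preimage, mem_ofPred_eq, cone_rot_dist]
  rw [h2] at h1
  rw [← h1, polar_integral a hP hP0]
  have h3 := (cone_tr_mp α).setIntegral_preimage_emb (cone_tr α).measurableEmbedding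
    (fun z => z.1 • h (pc a z.1 z.2)) (P ×ˢ Ioo p (p + 2 * Real.pi))
  have h4 : (cone_tr α) ⁻¹' (P ×ˢ Ioo p (p + 2 * Real.pi)) = P ×ˢ Ioo (-Real.pi) Real.pi := by
    have := cone_tr_pre α P (-Real.pi) Real.pi
    rw [hα] at this ⊢
    rw [← this]
    congr 2 <;> ring_nf
  rw [h4] at h3
  rw [← h3]
  refine integral_congr_ae (Eventually.of_forall fun z => ?_)
  simp only
  rw [cone_rot_pc]
  rfl

theorem cone_polar_intble {E : Type*} [NormedAddCommGroup E] [NormedSpace ℝ E] (a : ℂ) {P : Set ℝ}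
    (hP : MeasurableSet P) (hP0 : P ⊆ Ioi 0) (h : ℂ → E) (p : ℝ) :
    IntegrableOn h {x | dist x a ∈ P} ↔
      IntegrableOn (fun z : ℝ × ℝ => z.1 • h (pc a z.1 z.2)) (P ×ˢ Ioo p (p + 2 * Real.pi)) := by
  set α := p + Real.pi with hα
  have h1 := (cone_rot_mp a α).integrableOn_comp_preimage (cone_rot a α).measurableEmbedding
    (f := h) (s := {x | dist x a ∈ P})
  have h2 : (cone_rot a α) ⁻¹' {x | dist x a ∈ P} = {x | dist x a ∈ P} := by
    ext x
    simp only [mem_preimage, mem_ofPred_eq, cone_rot_dist]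
  rw [h2] at h1
  rw [← h1, polar_integrable a hP hP0]
  have h3 := (cone_tr_mp α).integrableOn_comp_preimage (cone_tr α).measurableEmbedding
    (f := fun z => z.1 • h (pc a z.1 z.2)) (s := P ×ˢ Ioo p (p + 2 * Real.pi))
  have h4 : (cone_tr α) ⁻¹' (P ×ˢ Ioo p (p + 2 * Real.pi)) = P ×ˢ Ioo (-Real.pi) Real.pi := by
    have := cone_tr_pre α P (-Real.pi) Real.pi
    rw [hα] at this ⊢
    rw [← this]
    congr 2 <;> ring_nf
  rw [h4] at h3
  rw [← h3]
  refine iff_of_eq (congrArg (fun f => IntegrableOn f _ _) ?_)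
  funext z
  simp only [Function.comp_apply]
  rw [cone_rot_pc]
  rfl

/-! ### The divergence identity on a sector -/

theorem cone_parts {p p' : ℝ} (hp : p ≤ p') {G : ℝ → ℝ} (hG : IntegrableOn G (Ioc p p'))
    {H H' : ℝ → ℝ} (hH : ∀ x, HasDerivAt H (H' x) x) (hc : Continuous H') {c : ℝ} {F : ℝ → ℝ}
    (hF : ∀ θ, F θ = c + ∫ t in p..θ, G t) :
    ∫ θ in p..p', (G θ * H θ + F θ * H' θ) = F p' * H p' - c * H p := by
  have hfub := wirteq_fub hp hH hc hG
  have hHc : Continuous H := continuous_iff_continuousAt.2 fun x => (hH x).continuousAt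
  have hGi : IntervalIntegrable G volume p p' :=
    (intervalIntegrable_iff_integrableOn_Ioc_of_le hp).2 hG
  have hGH : IntervalIntegrable (fun t => G t * H t) volume p p' :=
    hGi.mul_continuousOn hHc.continuousOn
  have hIc : ContinuousOn (fun x => ∫ t in p..x, G t) (uIcc p p') :=
    intervalIntegral.continuousOn_primitive_interval' (μ := volume) hGi left_mem_uIcc
  have hIH : IntervalIntegrable (fun θ => H' θ * ∫ t in p..θ, G t) volume p p' :=
    (hc.continuousOn.mul hIc).intervalIntegrable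
  have hHi : IntervalIntegrable H' volume p p' := hc.intervalIntegrable _ _
  have e0 : ∀ θ, G θ * H θ + F θ * H' θ = G θ * H θ + (c * H' θ + H' θ * ∫ t in p..θ, G t) := by
    intro θ; rw [hF]; ring
  simp_rw [e0]
  rw [intervalIntegral.integral_add hGH ((hHi.const_mul c).add hIH),
    intervalIntegral.integral_add (hHi.const_mul c) hIH, hfub,
    intervalIntegral.integral_const_mul]
  have e1 : ∫ t in p..p', (H p' - H t) * G t = H p' * (∫ t in p..p', G t) -
      ∫ t in p..p', G t * H t := by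
    have : ∀ t, (H p' - H t) * G t = H p' * G t - G t * H t := fun t => by ring
    simp_rw [this]
    rw [intervalIntegral.integral_sub (hGi.const_mul _) hGH, intervalIntegral.integral_const_mul]
  have e2 : ∫ θ in p..p', H' θ = H p' - H p :=
    intervalIntegral.integral_eq_sub_of_hasDerivAt (fun x _ => hH x) hHi
  rw [e1, e2, hF p']
  ring

theorem cone_theta {G : ℝ → ℝ} {p p' : ℝ} (hp : p ≤ p') (hG : IntegrableOn G (Ioc p p'))
    (c m α : ℝ) {φ : ℂ → ℝ} (hφ : ContDiff ℝ ∞ φ) (a v : ℂ) (r : ℝ) {F : ℝ → ℝ}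
    (hF : ∀ θ, F θ = c + ∫ t in p..θ, G t) :
    ∫ θ in p..p', (r * ((m + α * (F θ - m)) * fderiv ℝ φ (pc a r θ) v) +
        α * (φ (pc a r θ) * (1 / 2 * (F θ - m) * inner ℝ (er θ) v + G θ * inner ℝ (et θ) v))) =
      (∫ θ in p..p', ((m + 3 / 2 * α * (F θ - m)) * (inner ℝ (er θ) v * φ (pc a r θ)) +
        r * (m + α * (F θ - m)) * (inner ℝ (er θ) v * fderiv ℝ φ (pc a r θ) (er θ)))) +
      ((m + α * (F p' - m)) * (inner ℝ (et p') v * φ (pc a r p')) -
        (m + α * (c - m)) * (inner ℝ (et p) v * φ (pc a r p))) := by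
  have hφd : Differentiable ℝ φ := hφ.differentiable (by simp)
  have hφc : Continuous φ := hφ.continuous
  have hφf : Continuous (fderiv ℝ φ) := hφ.continuous_fderiv (by simp)
  have hGi : IntervalIntegrable G volume p p' :=
    (intervalIntegrable_iff_integrableOn_Ioc_of_le hp).2 hG
  have hFc : ContinuousOn F (uIcc p p') := by
    have h1 := intervalIntegral.continuousOn_primitive_interval' (μ := volume) hGi left_mem_uIcc
    have h2 : F = fun θ => c + (∫ t in p..θ, G t) := funext hF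
    rw [h2]
    exact continuousOn_const.add h1
  have hpc : Continuous fun θ => pc a r θ :=
    (comp0_continuous_pc a).comp (Continuous.prodMk continuous_const continuous_id)
  have hec : Continuous fun θ => (inner ℝ (er θ) v : ℝ) :=
    continuous_iff_continuousAt.2 fun x => (comp0_hasDerivAt_inner_er v x).continuousAt
  have hetc : Continuous fun θ => (inner ℝ (et θ) v : ℝ) :=
    continuous_iff_continuousAt.2 fun x => (comp0_hasDerivAt_inner_et v x).continuousAt
  have hDt : Continuous fun θ => fderiv ℝ φ (pc a r θ) (et θ) :=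
    (hφf.comp hpc).clm_apply comp0_continuous_et
  have hDr : Continuous fun θ => fderiv ℝ φ (pc a r θ) (er θ) :=
    (hφf.comp hpc).clm_apply comp0_continuous_er
  set H : ℝ → ℝ := fun θ => inner ℝ (et θ) v * φ (pc a r θ) with hHdef
  set H' : ℝ → ℝ := fun θ => (- inner ℝ (er θ) v) * φ (pc a r θ) +
    inner ℝ (et θ) v * (r * fderiv ℝ φ (pc a r θ) (et θ)) with hH'def
  have hH : ∀ x, HasDerivAt H (H' x) x := fun x =>
    (comp0_hasDerivAt_inner_et v x).mul (comp0_hasDerivAt_t hφd a r x)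
  have hH'c : Continuous H' := by
    have := hφc.comp hpc
    exact (hec.neg.mul this).add (hetc.mul (continuous_const.mul hDt))
  have hparts := cone_parts hp hG hH hH'c hF
  have hH0 : ∫ θ in p..p', H' θ = H p' - H p :=
    intervalIntegral.integral_eq_sub_of_hasDerivAt (fun x _ => hH x) (hH'c.intervalIntegrable _ _)
  have hkey : ∀ θ, r * ((m + α * (F θ - m)) * fderiv ℝ φ (pc a r θ) v) +
        α * (φ (pc a r θ) * (1 / 2 * (F θ - m) * inner ℝ (er θ) v + G θ * inner ℝ (et θ) v)) =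
      ((m + 3 / 2 * α * (F θ - m)) * (inner ℝ (er θ) v * φ (pc a r θ)) +
        r * (m + α * (F θ - m)) * (inner ℝ (er θ) v * fderiv ℝ φ (pc a r θ) (er θ))) +
      ((m - α * m) * H' θ + α * (G θ * H θ + F θ * H' θ)) := by
    intro θ
    have e1 : fderiv ℝ φ (pc a r θ) v = inner ℝ (er θ) v * fderiv ℝ φ (pc a r θ) (er θ) +
        inner ℝ (et θ) v * fderiv ℝ φ (pc a r θ) (et θ) := by
      conv_lhs => rw [comp0_decomp v θ]
      rw [map_add, map_smul, map_smul, smul_eq_mul, smul_eq_mul]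
    rw [e1]
    simp only [hHdef, hH'def]
    ring
  simp_rw [hkey]
  have i1 : IntervalIntegrable (fun θ => G θ * H θ) volume p p' :=
    hGi.mul_continuousOn (continuous_iff_continuousAt.2 fun x => (hH x).continuousAt).continuousOn
  have i2 : IntervalIntegrable (fun θ => F θ * H' θ) volume p p' :=
    (hFc.mul hH'c.continuousOn).intervalIntegrable
  have hFm : ContinuousOn (fun θ => F θ - m) (uIcc p p') := hFc.sub continuousOn_const
  have i3 : IntervalIntegrable (fun θ => (m + 3 / 2 * α * (F θ - m)) *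
      (inner ℝ (er θ) v * φ (pc a r θ)) +
        r * (m + α * (F θ - m)) * (inner ℝ (er θ) v * fderiv ℝ φ (pc a r θ) (er θ)))
      volume p p' := by
    refine ContinuousOn.intervalIntegrable ?_
    refine ((continuousOn_const.add (continuousOn_const.mul hFm)).mul
      (hec.mul (hφc.comp hpc)).continuousOn).add ((continuousOn_const.mul (continuousOn_const.add
      (continuousOn_const.mul hFm))).mul (hec.mul hDr).continuousOn)
  rw [intervalIntegral.integral_add i3 (((hH'c.intervalIntegrable _ _).const_mul _).add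
    ((i1.add i2).const_mul α)), intervalIntegral.integral_add
    ((hH'c.intervalIntegrable _ _).const_mul _) ((i1.add i2).const_mul α),
    intervalIntegral.integral_const_mul, intervalIntegral.integral_const_mul, hparts, hH0]
  simp only [hHdef]
  ring

lemma cone_sqrt_eq {r s : ℝ} (hr : 0 < r) (hs : 0 < s) :
    r * (√r * √s)⁻¹ = √(r / s) := by
  rw [Real.sqrt_div hr.le]
  have h1 : √r ≠ 0 := (Real.sqrt_pos.2 hr).ne'
  have h2 : √s ≠ 0 := (Real.sqrt_pos.2 hs).ne'
  field_simp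
  rw [Real.sq_sqrt hr.le]

lemma cone_deriv_r {s : ℝ} (hs : 0 < s) (m f : ℝ) {r : ℝ} (hr : 0 < r) :
    HasDerivAt (fun r => r * (m + √(r / s) * f)) (m + 3 / 2 * √(r / s) * f) r := by
  have hrs : 0 < r / s := div_pos hr hs
  have h1 : HasDerivAt (fun r : ℝ => r / s) (1 / s) r := (hasDerivAt_id r).div_const s
  have h2 := h1.sqrt hrs.ne'
  have h3 := (hasDerivAt_id r).mul ((h2.mul_const f).const_add m)
  refine h3.congr_deriv ?_
  simp only [id, one_mul]
  have h4 : √(r / s) ≠ 0 := (Real.sqrt_pos.2 hrs).ne'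
  have h5 : r = s * √(r / s) ^ 2 := by
    rw [Real.sq_sqrt hrs.le]
    field_simp
  have h6 : r * (1 / s / (2 * √(r / s)) * f) = √(r / s) / 2 * f := by
    conv_lhs => rw [h5]
    have h7 : √(s * √(r / s) ^ 2 / s) = √(r / s) := by
      rw [mul_div_cancel_left₀ _ hs.ne', Real.sqrt_sq (Real.sqrt_nonneg _)]
    rw [h7]
    field_simp
  rw [h6]
  ring

theorem cone_sector {G : ℝ → ℝ} {p p' : ℝ} (hp : p ≤ p') (hG : IntegrableOn G (Ioc p p'))
    (c m : ℝ) {s : ℝ} (hs : 0 < s) {φ : ℂ → ℝ} (hφ : ContDiff ℝ ∞ φ) (a v : ℂ) {F : ℝ → ℝ}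
    (hF : ∀ θ, F θ = c + ∫ t in p..θ, G t) :
    IntegrableOn (fun z : ℝ × ℝ => z.1 * ((m + √(z.1 / s) * (F z.2 - m)) *
        fderiv ℝ φ (pc a z.1 z.2) v + φ (pc a z.1 z.2) * ((√z.1 * √s)⁻¹ *
          (1 / 2 * (F z.2 - m) * inner ℝ (er z.2) v + G z.2 * inner ℝ (et z.2) v))))
        (Ioo 0 s ×ˢ Ioo p p') ∧
    ∫ z in Ioo 0 s ×ˢ Ioo p p', (z.1 * ((m + √(z.1 / s) * (F z.2 - m)) *
        fderiv ℝ φ (pc a z.1 z.2) v + φ (pc a z.1 z.2) * ((√z.1 * √s)⁻¹ *
          (1 / 2 * (F z.2 - m) * inner ℝ (er z.2) v + G z.2 * inner ℝ (et z.2) v)))) =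
      s * (∫ θ in Ioo p p', F θ * φ (pc a s θ) * inner ℝ (er θ) v) +
      ∫ r in Ioo 0 s, ((m + √(r / s) * (F p' - m)) * (inner ℝ (et p') v * φ (pc a r p')) -
        (m + √(r / s) * (c - m)) * (inner ℝ (et p) v * φ (pc a r p))) := by
  have hφd : Differentiable ℝ φ := hφ.differentiable (by simp)
  have hφc : Continuous φ := hφ.continuous
  have hφf : Continuous (fderiv ℝ φ) := hφ.continuous_fderiv (by simp)
  have hGi : IntervalIntegrable G volume p p' :=
    (intervalIntegrable_iff_integrableOn_Ioc_of_le hp).2 hG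
  have hFc : ContinuousOn F (Icc p p') := by
    have h1 := intervalIntegral.continuousOn_primitive_interval' (μ := volume) hGi left_mem_uIcc
    have h2 : F = fun θ => c + (∫ t in p..θ, G t) := funext hF
    rw [h2]
    rw [uIcc_of_le hp] at h1
    exact continuousOn_const.add h1
  set K : Set (ℝ × ℝ) := Icc 0 s ×ˢ Icc p p' with hK
  have hKc : IsCompact K := isCompact_Icc.prod isCompact_Icc
  have hsub : Ioo 0 s ×ˢ Ioo p p' ⊆ K := Set.prod_mono Ioo_subset_Icc_self Ioo_subset_Icc_self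
  have hFK : ContinuousOn (fun z : ℝ × ℝ => F z.2 - m) K :=
    (hFc.comp continuousOn_snd fun z hz => hz.2).sub continuousOn_const
  have hpc := comp0_continuous_pc a
  have hec : Continuous fun z : ℝ × ℝ => (inner ℝ (er z.2) v : ℝ) :=
    (comp0_continuous_er.comp continuous_snd).inner continuous_const
  have hetc : Continuous fun z : ℝ × ℝ => (inner ℝ (et z.2) v : ℝ) :=
    (comp0_continuous_et.comp continuous_snd).inner continuous_const
  have hDv : Continuous fun z : ℝ × ℝ => fderiv ℝ φ (pc a z.1 z.2) v :=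
    (hφf.comp hpc).clm_apply continuous_const
  have hDr : Continuous fun z : ℝ × ℝ => fderiv ℝ φ (pc a z.1 z.2) (er z.2) :=
    (hφf.comp hpc).clm_apply (comp0_continuous_er.comp continuous_snd)
  have hΦ : Continuous fun z : ℝ × ℝ => φ (pc a z.1 z.2) := hφc.comp hpc
  have hαc : Continuous fun z : ℝ × ℝ => √(z.1 / s) := (continuous_fst.div_const s).sqrt
  -- integrability
  have hGK : IntegrableOn (fun z : ℝ × ℝ => G z.2) K := by
    have h1 : IntegrableOn G (Icc p p') := by
      rwa [integrableOn_Icc_iff_integrableOn_Ioc]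
    have h2 : IntegrableOn (fun _ : ℝ => (1 : ℝ)) (Icc 0 s) := by
      simp
    have h3 := Integrable.mul_prod (μ := volume.restrict (Icc (0:ℝ) s))
      (ν := volume.restrict (Icc p p')) h2 h1
    rw [Measure.prod_restrict, ← Measure.volume_eq_prod] at h3
    simp only [one_mul] at h3
    exact h3
  set P : ℝ × ℝ → ℝ := fun z => z.1 * ((m + √(z.1 / s) * (F z.2 - m)) *
        fderiv ℝ φ (pc a z.1 z.2) v) + √(z.1 / s) * (φ (pc a z.1 z.2) *
          (1 / 2 * (F z.2 - m) * inner ℝ (er z.2) v + G z.2 * inner ℝ (et z.2) v)) with hP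
  have hPeq : ∀ z ∈ Ioo 0 s ×ˢ Ioo p p', z.1 * ((m + √(z.1 / s) * (F z.2 - m)) *
        fderiv ℝ φ (pc a z.1 z.2) v + φ (pc a z.1 z.2) * ((√z.1 * √s)⁻¹ *
          (1 / 2 * (F z.2 - m) * inner ℝ (er z.2) v + G z.2 * inner ℝ (et z.2) v))) = P z := by
    intro z hz
    have h1 := cone_sqrt_eq hz.1.1 hs
    simp only [hP]
    rw [← h1]
    ring
  have hA : IntegrableOn P (Ioo 0 s ×ˢ Ioo p p') := by
    refine IntegrableOn.mono_set ?_ hsub
    have e : P = fun z : ℝ × ℝ => (z.1 * ((m + √(z.1 / s) * (F z.2 - m)) *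
        fderiv ℝ φ (pc a z.1 z.2) v) + √(z.1 / s) * (φ (pc a z.1 z.2) *
          (1 / 2 * (F z.2 - m) * inner ℝ (er z.2) v))) +
        (√(z.1 / s) * (φ (pc a z.1 z.2) * inner ℝ (et z.2) v)) * G z.2 := by
      funext z; simp only [hP]; ring
    rw [e]
    refine Integrable.add ?_ ?_
    · refine ContinuousOn.integrableOn_compact hKc ?_
      exact (continuousOn_fst.mul ((continuousOn_const.add (hαc.continuousOn.mul hFK)).mul
        hDv.continuousOn)).add (hαc.continuousOn.mul (hΦ.continuousOn.mul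
        ((continuousOn_const.mul hFK).mul hec.continuousOn)))
    · refine IntegrableOn.continuousOn_mul ?_ hGK hKc
      exact (hαc.mul (hΦ.mul hetc)).continuousOn
  have hms : MeasurableSet (Ioo 0 s ×ˢ Ioo p p') := measurableSet_Ioo.prod measurableSet_Ioo
  refine ⟨hA.congr_fun (fun z hz => (hPeq z hz).symm) hms, ?_⟩
  rw [setIntegral_congr_fun hms hPeq]
  have hB : IntegrableOn (fun z : ℝ × ℝ => (m + 3 / 2 * √(z.1 / s) * (F z.2 - m)) *
      (inner ℝ (er z.2) v * φ (pc a z.1 z.2)) + z.1 * (m + √(z.1 / s) * (F z.2 - m)) *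
      (inner ℝ (er z.2) v * fderiv ℝ φ (pc a z.1 z.2) (er z.2)))
        (Ioo 0 s ×ˢ Ioo p p') := by
    refine IntegrableOn.mono_set ?_ hsub
    refine ContinuousOn.integrableOn_compact hKc ?_
    exact ((continuousOn_const.add ((continuousOn_const.mul hαc.continuousOn).mul hFK)).mul
      (hec.mul hΦ).continuousOn).add ((continuousOn_fst.mul (continuousOn_const.add
      (hαc.continuousOn.mul hFK))).mul (hec.mul hDr).continuousOn)
  have hA' := hA
  have hB' := hB
  rw [Measure.volume_eq_prod] at hA' hB' ⊢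
  rw [setIntegral_prod _ hA']
  have h3 : ∀ r : ℝ, ∫ θ in Ioo p p', P (r, θ) =
      (∫ θ in Ioo p p', ((m + 3 / 2 * √(r / s) * (F θ - m)) *
        (inner ℝ (er θ) v * φ (pc a r θ)) +
        r * (m + √(r / s) * (F θ - m)) * (inner ℝ (er θ) v * fderiv ℝ φ (pc a r θ) (er θ)))) +
      ((m + √(r / s) * (F p' - m)) * (inner ℝ (et p') v * φ (pc a r p')) -
        (m + √(r / s) * (c - m)) * (inner ℝ (et p) v * φ (pc a r p))) := by
    intro r
    have h := cone_theta hp hG c m (√(r / s)) hφ a v r hF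
    rw [intervalIntegral.integral_of_le hp, intervalIntegral.integral_of_le hp,
      integral_Ioc_eq_integral_Ioo, integral_Ioc_eq_integral_Ioo] at h
    exact h
  simp_rw [h3]
  have hbdc : Continuous fun r : ℝ =>
      ((m + √(r / s) * (F p' - m)) * (inner ℝ (et p') v * φ (pc a r p')) -
        (m + √(r / s) * (c - m)) * (inner ℝ (et p) v * φ (pc a r p))) := by
    have c1 : ∀ q, Continuous fun r : ℝ => φ (pc a r q) := fun q =>
      hφc.comp (hpc.comp (Continuous.prodMk continuous_id continuous_const))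
    have c2 := c1 p
    have c3 := c1 p'
    fun_prop
  rw [integral_add]
  rotate_left
  · rw [IntegrableOn, ← Measure.prod_restrict] at hB'
    exact hB'.integral_prod_left
  · exact (hbdc.integrableOn_Icc (a := 0) (b := s)).mono_set Ioo_subset_Icc_self
  congr 1
  have hsw := integral_integral_swap (μ := volume.restrict (Ioo (0:ℝ) s))
    (ν := volume.restrict (Ioo p p')) (f := fun r θ =>
      ((m + 3 / 2 * √(r / s) * (F θ - m)) *
        (inner ℝ (er θ) v * φ (pc a r θ)) +
        r * (m + √(r / s) * (F θ - m)) * (inner ℝ (er θ) v * fderiv ℝ φ (pc a r θ) (er θ)))) (by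
      rw [Measure.prod_restrict, ← Measure.volume_eq_prod]
      exact hB)
  rw [hsw, ← integral_const_mul]
  refine integral_congr_ae (Eventually.of_forall fun θ => ?_)
  have hd : ∀ r ∈ Ioo 0 s, HasDerivAt (fun r => (r * (m + √(r / s) * (F θ - m))) *
      (inner ℝ (er θ) v * φ (pc a r θ)))
      ((m + 3 / 2 * √(r / s) * (F θ - m)) *
        (inner ℝ (er θ) v * φ (pc a r θ)) +
        r * (m + √(r / s) * (F θ - m)) *
        (inner ℝ (er θ) v * fderiv ℝ φ (pc a r θ) (er θ))) r := by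
    intro r hr
    exact (cone_deriv_r hs m (F θ - m) hr.1).mul ((comp0_hasDerivAt_r hφd a r θ).const_mul _)
  have hp1 : Continuous fun r : ℝ => (r, θ) := Continuous.prodMk continuous_id continuous_const
  have c1 : Continuous fun r : ℝ => φ (pc a r θ) := hΦ.comp hp1
  have c2 : Continuous fun r : ℝ => fderiv ℝ φ (pc a r θ) (er θ) := hDr.comp hp1
  have hcB : Continuous fun r : ℝ => ((m + 3 / 2 * √(r / s) * (F θ - m)) *
        (inner ℝ (er θ) v * φ (pc a r θ)) +
        r * (m + √(r / s) * (F θ - m)) *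
        (inner ℝ (er θ) v * fderiv ℝ φ (pc a r θ) (er θ))) := by
    fun_prop
  have hcA : Continuous fun r : ℝ => (r * (m + √(r / s) * (F θ - m))) *
      (inner ℝ (er θ) v * φ (pc a r θ)) := by
    fun_prop
  have h4 := intervalIntegral.integral_eq_sub_of_hasDerivAt_of_le hs.le hcA.continuousOn hd
    (hcB.intervalIntegrable _ _)
  rw [intervalIntegral.integral_of_le hs.le, integral_Ioc_eq_integral_Ioo] at h4
  simp only at h4 ⊢
  rw [h4, div_self hs.ne', Real.sqrt_one]
  ring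

/-! ### Piecewise functions of the angle -/

noncomputable def cone_pw (N : ℕ) (q : ℕ → ℝ) (f : ℕ → ℝ → ℝ) (θ : ℝ) : ℝ :=
  ∑ k ∈ Finset.range N, (Ioc (q k) (q (k + 1))).indicator (f k) θ

lemma cone_pw_eq {N : ℕ} {q : ℕ → ℝ} (hq : StrictMono q) {f : ℕ → ℝ → ℝ} {k : ℕ} (hk : k < N)
    {θ : ℝ} (hθ : θ ∈ Ioc (q k) (q (k + 1))) : cone_pw N q f θ = f k θ := by
  unfold cone_pw
  rw [Finset.sum_eq_single k]
  · exact indicator_of_mem hθ _
  · intro b _ hb
    apply indicator_of_notMem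
    rintro ⟨h1, h2⟩
    rcases lt_or_gt_of_ne hb with h | h
    · have := hq.monotone (Nat.succ_le_of_lt h)
      have h3 : q (b + 1) ≤ q k := this
      linarith [hθ.1]
    · have := hq.monotone (Nat.succ_le_of_lt h)
      have h3 : q (k + 1) ≤ q b := this
      linarith [hθ.2]
  · intro h
    exact absurd (Finset.mem_range.2 hk) h

lemma cone_pw_meas {N : ℕ} {q : ℕ → ℝ} {f : ℕ → ℝ → ℝ} (hf : ∀ k, Measurable (f k)) :
    Measurable (cone_pw N q f) := by
  unfold cone_pw
  exact Finset.measurable_fun_sum _ fun k _ => (hf k).indicator measurableSet_Ioc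

lemma cone_exists {q : ℕ → ℝ} (N : ℕ) {θ : ℝ} (h : θ ∈ Ioc (q 0) (q N)) :
    ∃ k < N, θ ∈ Ioc (q k) (q (k + 1)) := by
  induction N with
  | zero => exact absurd h.1 (not_lt.2 h.2)
  | succ n ih =>
    by_cases hθ : θ ≤ q n
    · obtain ⟨k, hk, h2⟩ := ih ⟨h.1, hθ⟩
      exact ⟨k, hk.trans (Nat.lt_succ_self n), h2⟩
    · exact ⟨n, Nat.lt_succ_self n, not_le.1 hθ, h.2⟩

/-- The data of the competitor. -/
structure ConeHyp (N : ℕ) (q c m : ℕ → ℝ) (G : ℝ → ℝ) : Prop where
  mono : StrictMono q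
  pos : 0 < N
  qN : q N = q 0 + 2 * Real.pi
  qN1 : q (N + 1) = q 1 + 2 * Real.pi
  cN : c N = c 0
  mN : m N = m 0
  Gm : Measurable G
  Gper : ∀ θ, G (θ + 2 * Real.pi) = G θ
  Gi : ∀ x y, IntervalIntegrable G volume x y

noncomputable def cone_Fk (q c : ℕ → ℝ) (G : ℝ → ℝ) (k : ℕ) (θ : ℝ) : ℝ :=
  c k + ∫ t in q k..θ, G t

noncomputable def cone_F (N : ℕ) (q c : ℕ → ℝ) (G : ℝ → ℝ) : ℝ → ℝ :=
  cone_pw N q (cone_Fk q c G)

noncomputable def cone_M (N : ℕ) (q m : ℕ → ℝ) : ℝ → ℝ := cone_pw N q fun k _ => m k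

noncomputable def cone_W (a : ℂ) (s : ℝ) (N : ℕ) (q c m : ℕ → ℝ) (G : ℝ → ℝ) (x : ℂ) : ℝ :=
  cone_M N q m (cone_A (q 0) a x) + √(dist x a / s) *
    (cone_F N q c G (cone_A (q 0) a x) - cone_M N q m (cone_A (q 0) a x))

noncomputable def cone_K (a : ℂ) (s : ℝ) (N : ℕ) (q c m : ℕ → ℝ) (G : ℝ → ℝ) (x : ℂ) : ℂ :=
  (√(dist x a) * √s)⁻¹ • ((1 / 2 * (cone_F N q c G (cone_A (q 0) a x) -
    cone_M N q m (cone_A (q 0) a x))) • er (cone_A (q 0) a x) +
    G (cone_A (q 0) a x) • et (cone_A (q 0) a x))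

noncomputable def cone_J (a : ℂ) (s : ℝ) (N : ℕ) (q c m : ℕ → ℝ) (G : ℝ → ℝ) (x : ℂ) : ℂ :=
  (cone_M N q (fun k => m (k + 1)) (cone_A (q 0) a x) + √(dist x a / s) *
    (cone_M N q (fun k => c (k + 1)) (cone_A (q 0) a x) -
      cone_M N q (fun k => m (k + 1)) (cone_A (q 0) a x)) - cone_W a s N q c m G x) •
    et (cone_A (q 0) a x)

def cone_Z (a : ℂ) (s : ℝ) (N : ℕ) (q : ℕ → ℝ) : Set ℂ :=
  ⋃ k ∈ Finset.range N, (fun r => pc a r (q (k + 1))) '' Icc 0 s

lemma cone_pc_periodic (a : ℂ) (r θ : ℝ) : pc a r (θ + 2 * Real.pi) = pc a r θ :=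
  comp0_pc_periodic a r θ

section
variable {N : ℕ} {q c m : ℕ → ℝ} {G : ℝ → ℝ} (h : ConeHyp N q c m G)
include h

lemma ConeHyp.Ioc_sub {k : ℕ} (hk : k < N) :
    Ioc (q k) (q (k + 1)) ⊆ Ioc (q 0) (q 0 + 2 * Real.pi) := by
  rw [← h.qN]
  exact Ioc_subset_Ioc (h.mono.monotone (Nat.zero_le _)) (h.mono.monotone (Nat.succ_le_of_lt hk))

lemma ConeHyp.A_pc (a : ℂ) {k : ℕ} (hk : k < N) {θ : ℝ} (hθ : θ ∈ Ioc (q k) (q (k + 1))) {r : ℝ}
    (hr : 0 < r) : cone_A (q 0) a (pc a r θ) = θ :=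
  cone_A_pc (q 0) a hr (h.Ioc_sub hk hθ)

lemma ConeHyp.Fk_cont (k : ℕ) : Continuous (cone_Fk q c G k) :=
  continuous_const.add (intervalIntegral.continuous_primitive h.Gi (q k))

lemma ConeHyp.F_meas : Measurable (cone_F N q c G) :=
  cone_pw_meas fun k => (h.Fk_cont k).measurable

omit h in
lemma cone_M_meas (N : ℕ) (q m : ℕ → ℝ) : Measurable (cone_M N q m) :=
  cone_pw_meas fun _ => measurable_const

lemma ConeHyp.W_meas (a : ℂ) (s : ℝ) : Measurable (cone_W a s N q c m G) := by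
  have hA := cone_A_meas (q 0) a
  have hd : Measurable (fun x : ℂ => √(dist x a / s)) :=
    ((measurable_id.dist measurable_const).div_const s).sqrt
  unfold cone_W
  exact ((cone_M_meas N q m).comp hA).add
    (hd.mul ((h.F_meas.comp hA).sub ((cone_M_meas N q m).comp hA)))

/-- values of the competitor -/
lemma ConeHyp.W_pc (a : ℂ) (s : ℝ) {k : ℕ} (hk : k ≤ N) {θ : ℝ} (hθ : θ ∈ Ioc (q k) (q (k + 1)))
    {r : ℝ} (hr : 0 < r) :
    cone_W a s N q c m G (pc a r θ) = m k + √(r / s) * (cone_Fk q c G k θ - m k) := by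
  rcases hk.lt_or_eq with hk | hk
  · unfold cone_W
    rw [h.A_pc a hk hθ hr, polar_dist a hr, cone_F, cone_M, cone_pw_eq h.mono hk hθ,
      cone_pw_eq h.mono hk hθ]
  · subst hk
    have hθ' : θ - 2 * Real.pi ∈ Ioc (q 0) (q (0 + 1)) := by
      rw [h.qN, h.qN1] at hθ
      exact ⟨by linarith [hθ.1], by rw [zero_add]; linarith [hθ.2]⟩
    have h1 : pc a r θ = pc a r (θ - 2 * Real.pi) := by
      rw [← cone_pc_periodic a r (θ - 2 * Real.pi)]
      congr 1
      ring
    rw [h1]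
    unfold cone_W
    rw [h.A_pc a h.pos hθ' hr, polar_dist a hr, cone_F, cone_M, cone_pw_eq h.mono h.pos hθ',
      cone_pw_eq h.mono h.pos hθ', h.mN]
    congr 3
    unfold cone_Fk
    rw [h.cN, h.qN]
    congr 1
    have h2 := intervalIntegral.integral_comp_add_right (a := q 0) (b := θ - 2 * Real.pi) G
      (2 * Real.pi)
    simp_rw [h.Gper] at h2
    rw [h2]
    congr 1
    ring

lemma ConeHyp.W_cont (a : ℂ) (s : ℝ) {x : ℂ} (hx : x ≠ a)
    (hA : ∀ k < N, cone_A (q 0) a x ≠ q (k + 1)) : ContinuousAt (cone_W a s N q c m G) x := by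
  have hmem := cone_A_mem (q 0) a x
  rw [← h.qN] at hmem
  obtain ⟨k, hk, hkm⟩ := cone_exists N hmem
  have hlt : cone_A (q 0) a x < q (k + 1) := lt_of_le_of_ne hkm.2 (hA k hk)
  have hne : cone_A (q 0) a x ≠ q 0 + 2 * Real.pi := by
    rw [← h.qN]
    have h1 := hA (N - 1) (by have := h.pos; omega)
    rwa [Nat.sub_add_cancel h.pos] at h1
  have hcA := cone_A_cont hx hne
  have hev : (fun y => m k + √(dist y a / s) * (cone_Fk q c G k (cone_A (q 0) a y) - m k)) =ᶠ[𝓝 x]
      cone_W a s N q c m G := by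
    filter_upwards [hcA.preimage_mem_nhds (Ioo_mem_nhds hkm.1 hlt)] with y hy
    have hy' : cone_A (q 0) a y ∈ Ioc (q k) (q (k + 1)) := ⟨hy.1, hy.2.le⟩
    unfold cone_W
    rw [cone_F, cone_M, cone_pw_eq h.mono hk hy', cone_pw_eq h.mono hk hy']
  refine ContinuousAt.congr ?_ hev
  have h1 : ContinuousAt (fun y => cone_Fk q c G k (cone_A (q 0) a y)) x :=
    ((h.Fk_cont k).continuousAt).comp hcA
  have h2 : ContinuousAt (fun y : ℂ => √(dist y a / s)) x := by fun_prop
  exact continuousAt_const.add (h2.mul (h1.sub continuousAt_const))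

omit h in
lemma cone_inner_er_et (θ p : ℝ) : (inner ℝ (er θ) (et p) : ℝ) = Real.sin (θ - p) := by
  rw [comp0_inner, comp0_er_re, comp0_er_im, comp0_et_re, comp0_et_im, Real.sin_sub]
  ring

omit h in
lemma cone_side {a : ℂ} {r p : ℝ} {y : ℂ} (hy : y ≠ a)
    (hB : |cone_B p a y - p| < Real.pi) :
    0 < inner ℝ (y - pc a r p) (et p) ↔ p < cone_B p a y := by
  have h1 : (inner ℝ (y - pc a r p) (et p) : ℝ) = dist y a * Real.sin (cone_B p a y - p) := by
    have e1 : y - pc a r p = (dist y a : ℝ) • er (cone_B p a y) - (r : ℝ) • er p := by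
      conv_lhs => rw [cone_B_eq p a y]
      rw [pc, pc, Complex.real_smul, Complex.real_smul]
      ring
    rw [e1, inner_sub_left, real_inner_smul_left, real_inner_smul_left, cone_inner_er_et,
      cone_inner_er_et, sub_self, Real.sin_zero, mul_zero, sub_zero]
  have hd : 0 < dist y a := dist_pos.2 hy
  rw [h1, mul_pos_iff_of_pos_left hd]
  rw [abs_lt] at hB
  constructor
  · intro h2
    by_contra hcon
    push Not at hcon
    have h3 : Real.sin (cone_B p a y - p) ≤ 0 :=
      Real.sin_nonpos_of_nonpos_of_neg_pi_le (by linarith) hB.1.le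
    linarith
  · intro h2
    exact Real.sin_pos_of_pos_of_lt_pi (by linarith) hB.2

/-- one-sided limits at the rays -/
lemma ConeHyp.W_side (a : ℂ) (s : ℝ) {k : ℕ} (hk : k < N) {r : ℝ} (hr : 0 < r) :
    Tendsto (cone_W a s N q c m G)
      (𝓝[{y | 0 < inner ℝ (y - pc a r (q (k + 1))) (et (q (k + 1)))}] (pc a r (q (k + 1))))
      (𝓝 (m (k + 1) + √(r / s) * (c (k + 1) - m (k + 1)))) ∧
    Tendsto (cone_W a s N q c m G)
      (𝓝[{y | ¬ 0 < inner ℝ (y - pc a r (q (k + 1))) (et (q (k + 1)))}] (pc a r (q (k + 1))))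
      (𝓝 (m k + √(r / s) * (cone_Fk q c G k (q (k + 1)) - m k))) := by
  set p := q (k + 1) with hp
  set x₀ := pc a r p with hx₀
  have hx₀a : x₀ ≠ a := by
    rw [← dist_pos, hx₀, polar_dist a hr]
    exact hr
  have hBc : ContinuousAt (cone_B p a) x₀ := cone_B_cont p hr
  have hB0 : cone_B p a x₀ = p := cone_B_self p hr
  have hpi := Real.pi_pos
  have hlt1 : q k < p := h.mono (Nat.lt_succ_self k)
  have hlt2 : p < q (k + 1 + 1) := h.mono (Nat.lt_succ_self (k + 1))
  have hnear : ∀ᶠ y in 𝓝 x₀, y ≠ a ∧ cone_B p a y ∈ Ioo (q k) (q (k + 1 + 1)) ∧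
      |cone_B p a y - p| < Real.pi := by
    have e1 : ∀ᶠ y in 𝓝 x₀, y ≠ a := isOpen_ne.mem_nhds hx₀a
    have e2 : ∀ᶠ y in 𝓝 x₀, cone_B p a y ∈ Ioo (q k) (q (k + 1 + 1)) :=
      hBc.preimage_mem_nhds (by rw [hB0]; exact Ioo_mem_nhds hlt1 hlt2)
    have e3 : ∀ᶠ y in 𝓝 x₀, cone_B p a y ∈ Ioo (p - Real.pi) (p + Real.pi) :=
      hBc.preimage_mem_nhds (by rw [hB0]; exact Ioo_mem_nhds (by linarith) (by linarith))
    filter_upwards [e1, e2, e3] with y h1 h2 h3
    refine ⟨h1, h2, ?_⟩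
    rw [abs_lt]
    exact ⟨by linarith [h3.1], by linarith [h3.2]⟩
  have hdist : dist x₀ a = r := polar_dist a hr p
  have hlim : ∀ i : ℕ, Tendsto (fun y => m i + √(dist y a / s) *
      (cone_Fk q c G i (cone_B p a y) - m i)) (𝓝 x₀)
      (𝓝 (m i + √(r / s) * (cone_Fk q c G i p - m i))) := by
    intro i
    have h1 : ContinuousAt (fun y => cone_Fk q c G i (cone_B p a y)) x₀ :=
      ((h.Fk_cont i).continuousAt).comp hBc
    have h2 : ContinuousAt (fun y : ℂ => √(dist y a / s)) x₀ := by fun_prop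
    have h4 : Tendsto (fun y => m i + √(dist y a / s) *
        (cone_Fk q c G i (cone_B p a y) - m i)) (𝓝 x₀)
        (𝓝 (m i + √(dist x₀ a / s) * (cone_Fk q c G i (cone_B p a x₀) - m i))) :=
      (continuousAt_const.add (h2.mul (h1.sub continuousAt_const))).tendsto
    rw [hdist, hB0] at h4
    exact h4
  have hFp : cone_Fk q c G (k + 1) p = c (k + 1) := by
    unfold cone_Fk
    rw [← hp, intervalIntegral.integral_same, add_zero]
  constructor
  · have h1 := hlim (k + 1)
    rw [hFp] at h1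
    refine (h1.mono_left nhdsWithin_le_nhds).congr' ?_
    have e2 := hnear.filter_mono (nhdsWithin_le_nhds
      (s := {y | 0 < inner ℝ (y - x₀) (et p)}))
    filter_upwards [e2, self_mem_nhdsWithin] with y hy hy2
    have h3 := (cone_side (r := r) hy.1 hy.2.2).1 hy2
    have h4 := h.W_pc a s (k := k + 1) (Nat.succ_le_of_lt hk) (θ := cone_B p a y)
      ⟨h3, hy.2.1.2.le⟩ (dist_pos.2 hy.1)
    rw [← cone_B_eq p a y] at h4
    exact h4.symm
  · refine ((hlim k).mono_left nhdsWithin_le_nhds).congr' ?_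
    have e2 := hnear.filter_mono (nhdsWithin_le_nhds
      (s := {y | ¬ 0 < inner ℝ (y - x₀) (et p)}))
    filter_upwards [e2, self_mem_nhdsWithin] with y hy hy2
    have h3 : cone_B p a y ≤ p := by
      by_contra hcon
      exact hy2 ((cone_side (r := r) hy.1 hy.2.2).2 (not_le.1 hcon))
    have h4 := h.W_pc a s (k := k) hk.le (θ := cone_B p a y)
      ⟨hy.2.1.1, h3⟩ (dist_pos.2 hy.1)
    rw [← cone_B_eq p a y] at h4
    exact h4.symm

end

/-- classical one-sided limits are approximate one-sided limits -/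
lemma cone_half {W : ℂ → ℝ} {x ν : ℂ} (hν : ‖ν‖ = 1) {b : ℝ}
    (h : Tendsto W (𝓝[{y | 0 < inner ℝ (y - x) ν}] x) (𝓝 b)) :
    Tendsto (fun r : ℝ => ⨍ y in halfBall x ν r, |W y - b|) (𝓝[>] 0) (𝓝 0) := by
  rw [Metric.tendsto_nhds]
  intro η hη
  rw [Metric.tendsto_nhdsWithin_nhds] at h
  obtain ⟨δ, hδ, hδw⟩ := h (η / 2) (half_pos hη)
  filter_upwards [Ioo_mem_nhdsGT hδ] with r hr
  have hpos : (0 : ℝ) < (volume : Measure ℂ).real (halfBall x ν r) := by
    have h1 := jb_volume_halfBall x hν hr.1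
    have h2 : 0 < Real.pi * r ^ 2 / 4 := by
      have := hr.1
      positivity
    linarith
  have hb : ‖∫ y in halfBall x ν r, |W y - b|‖ ≤
      η / 2 * (volume : Measure ℂ).real (halfBall x ν r) := by
    refine norm_setIntegral_le_of_norm_le_const (lt_top_iff_ne_top.2 (jb_halfBall_finite x ν r)) ?_
    intro y hy
    have := hδw hy.2 (lt_trans (mem_ball.1 hy.1) hr.2)
    rw [Real.dist_eq] at this
    rw [Real.norm_eq_abs, abs_abs]
    exact this.le
  rw [Real.dist_eq, sub_zero, setAverage_eq, smul_eq_mul, abs_mul, abs_of_pos (inv_pos.2 hpos)]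
  rw [Real.norm_eq_abs] at hb
  calc _ ≤ ((volume : Measure ℂ).real (halfBall x ν r))⁻¹ *
          (η / 2 * (volume : Measure ℂ).real (halfBall x ν r)) :=
        mul_le_mul_of_nonneg_left hb (inv_nonneg.2 hpos.le)
    _ = η / 2 := by
        field_simp
    _ < η := half_lt_self hη

lemma cone_et_norm (θ : ℝ) : ‖et θ‖ = 1 := by
  rw [comp0_et_eq, norm_mul, Complex.norm_I, one_mul, cone_er_norm]

/-- condition on the rays -/
lemma ConeHyp.jump {N : ℕ} {q c m : ℕ → ℝ} {G : ℝ → ℝ} (h : ConeHyp N q c m G) (a : ℂ) (s : ℝ)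
    {k : ℕ} (hk : k < N) {r : ℝ} (hr : 0 < r) :
    (∃ b b' ν, IsJump (cone_W a s N q c m G) (pc a r (q (k + 1))) b b' ν ∧
      cone_J a s N q c m G (pc a r (q (k + 1))) = (b - b') • ν) ∨
    ((∃ z, IsApproxLim (cone_W a s N q c m G) (pc a r (q (k + 1))) z) ∧
      cone_J a s N q c m G (pc a r (q (k + 1))) = 0) := by
  obtain ⟨h1, h2⟩ := h.W_side a s hk hr
  set p := q (k + 1) with hp
  set x₀ := pc a r p with hx₀
  set W := cone_W a s N q c m G with hW
  set b := m (k + 1) + √(r / s) * (c (k + 1) - m (k + 1)) with hb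
  set b' := m k + √(r / s) * (cone_Fk q c G k p - m k) with hb'
  have hlt1 : q k < p := h.mono (Nat.lt_succ_self k)
  have hpm : p ∈ Ioc (q k) (q (k + 1)) := ⟨hlt1, le_rfl⟩
  have hWx : W x₀ = b' := h.W_pc a s hk.le hpm hr
  have hA : cone_A (q 0) a x₀ = p := h.A_pc a hk hpm hr
  have hJ : cone_J a s N q c m G x₀ = (b - b') • et p := by
    unfold cone_J
    rw [← hW, hWx, hA, hx₀, polar_dist a hr, cone_M, cone_M, cone_pw_eq h.mono hk hpm,
      cone_pw_eq h.mono hk hpm]
  have hneg : {y : ℂ | 0 < inner ℝ (y - x₀) (-et p)} ⊆ {y | ¬ 0 < inner ℝ (y - x₀) (et p)} := by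
    intro y hy
    simp only [mem_ofPred_eq, inner_neg_right] at hy ⊢
    linarith
  by_cases hbb : b = b'
  · right
    refine ⟨⟨b', ?_⟩, by rw [hJ, hbb, sub_self, zero_smul]⟩
    rw [← hWx]
    apply isApproxLim_of_continuousAt
    rw [ContinuousAt, hWx, ← nhdsWithin_univ]
    have hu : (univ : Set ℂ) = {y | 0 < inner ℝ (y - x₀) (et p)} ∪
        {y | ¬ 0 < inner ℝ (y - x₀) (et p)} := by
      ext y
      simp only [mem_univ, mem_union, mem_ofPred_eq, true_iff]
      exact em _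
    rw [hu, nhdsWithin_union]
    rw [hbb] at h1
    exact h1.sup h2
  · left
    refine ⟨b, b', et p, ⟨cone_et_norm p, hbb, cone_half (cone_et_norm p) h1,
      cone_half (by rw [norm_neg]; exact cone_et_norm p) (h2.mono_left (nhdsWithin_mono _ hneg))⟩,
      hJ⟩

lemma cone_restr (A : Set ℝ) (x y : ℝ) :
    (volume : Measure (ℝ × ℝ)).restrict (A ×ˢ Ioo x y) = volume.restrict (A ×ˢ Ioc x y) := by
  rw [Measure.volume_eq_prod, ← Measure.prod_restrict, ← Measure.prod_restrict,
    restrict_Ioo_eq_restrict_Ioc]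

lemma cone_sum_int {A : Set ℝ} (hA : MeasurableSet A) {q : ℕ → ℝ} (hq : StrictMono q)
    {f : ℝ × ℝ → ℝ} (n : ℕ) (hi : ∀ k < n, IntegrableOn f (A ×ˢ Ioo (q k) (q (k + 1)))) :
    IntegrableOn f (A ×ˢ Ioo (q 0) (q n)) ∧
    ∫ z in A ×ˢ Ioo (q 0) (q n), f z =
      ∑ k ∈ Finset.range n, ∫ z in A ×ˢ Ioo (q k) (q (k + 1)), f z := by
  simp_rw [IntegrableOn, cone_restr] at hi ⊢
  induction n with
  | zero => simp
  | succ n ih =>
    obtain ⟨h1, h2⟩ := ih fun k hk => hi k (hk.trans (Nat.lt_succ_self n))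
    have h3 := hi n (Nat.lt_succ_self n)
    have hu : A ×ˢ Ioc (q 0) (q (n + 1)) = A ×ˢ Ioc (q 0) (q n) ∪ A ×ˢ Ioc (q n) (q (n + 1)) := by
      rw [← Set.prod_union, Ioc_union_Ioc_eq_Ioc (hq.monotone (Nat.zero_le _))
        (hq.monotone (Nat.le_succ _))]
    have hd : Disjoint (A ×ˢ Ioc (q 0) (q n)) (A ×ˢ Ioc (q n) (q (n + 1))) := by
      rw [Set.disjoint_prod]
      right
      rw [Set.disjoint_left]
      intro x hx hx'
      exact absurd hx'.1 (not_lt.2 hx.2)
    rw [Finset.sum_range_succ, ← h2, hu]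
    refine ⟨IntegrableOn.union h1 h3, setIntegral_union hd (hA.prod measurableSet_Ioc) h1 h3⟩

lemma cone_ray_isometry (a : ℂ) (p : ℝ) : Isometry (fun r : ℝ => pc a r p) := by
  refine Isometry.of_dist_eq fun x y => ?_
  rw [Complex.dist_eq, pc, pc, add_sub_add_left_eq_sub, ← sub_mul, norm_mul, cone_er_norm,
    mul_one, ← Complex.ofReal_sub, Complex.norm_real, Real.dist_eq, Real.norm_eq_abs]

lemma cone_null_pt (a : ℂ) : (μH[1] : Measure ℂ) {a} = 0 := by
  have := Measure.nullSingletonClass_hausdorff ℂ (d := 1) one_pos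
  exact measure_singleton a

/-- the open radius -/
def cone_ray (a : ℂ) (s p : ℝ) : Set ℂ := (fun r : ℝ => pc a r p) '' Ioo 0 s

lemma cone_ray_meas (a : ℂ) (s p : ℝ) : MeasurableSet (cone_ray a s p) :=
  (cone_ray_isometry a p).isClosedEmbedding.measurableEmbedding.measurableSet_image.2
    measurableSet_Ioo

lemma cone_ray_measure (a : ℂ) (s p : ℝ) :
    (μH[1] : Measure ℂ) (cone_ray a s p) = ENNReal.ofReal s := by
  rw [cone_ray, (cone_ray_isometry a p).hausdorffMeasure_image (Or.inl zero_le_one),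
    hausdorffMeasure_real, Real.volume_Ioo, sub_zero]

lemma cone_ray_integral (a : ℂ) {s : ℝ} (hs : 0 < s) (p : ℝ) (f : ℂ → ℝ) :
    ∫ x in cone_ray a s p, f x ∂(μH[1] : Measure ℂ) = ∫ r in Ioo 0 s, f (pc a r p) := by
  have hsm : ContDiff ℝ 1 (fun r : ℝ => pc a r p) := by
    unfold pc
    exact contDiff_const.add ((Complex.ofRealCLM.contDiff).mul contDiff_const)
  have hd : ∀ t : ℝ, HasDerivAt (fun r : ℝ => pc a r p) (er p) t := by
    intro t
    unfold pc
    have h1 : HasDerivAt (fun r : ℝ => (r : ℂ)) 1 t := Complex.ofRealCLM.hasDerivAt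
    have h2 := (h1.mul_const (er p)).const_add a
    simpa using h2
  have hne : ∀ t, deriv (fun r : ℝ => pc a r p) t ≠ 0 := by
    intro t
    rw [(hd t).deriv]
    exact cone_er_ne p
  have h1 := integral_curve hs.le hsm hne ((cone_ray_isometry a p).injective.injOn) f
  have h2 : cone_ray a s p =ᵐ[(μH[1] : Measure ℂ)] (fun r : ℝ => pc a r p) '' Ico 0 s := by
    refine (LE.le.eventuallyLE (image_mono Ioo_subset_Ico_self)).antisymm ?_
    rw [ae_le_set]
    refine measure_mono_null ?_ (cone_null_pt a)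
    rintro _ ⟨⟨r, hr, rfl⟩, hx⟩
    rcases hr.1.eq_or_lt with h0 | h0
    · rw [← h0]
      simp [pc]
    · exact absurd ⟨r, ⟨h0, hr.2⟩, rfl⟩ hx
  rw [Measure.restrict_congr_set h2, h1, intervalIntegral.integral_of_le hs.le,
    integral_Ioc_eq_integral_Ioo]
  refine integral_congr_ae (Eventually.of_forall fun t => ?_)
  simp only
  rw [(hd t).deriv, cone_er_norm, one_smul]

section
variable {N : ℕ} {q c m : ℕ → ℝ} {G : ℝ → ℝ} (h : ConeHyp N q c m G)
include h

lemma ConeHyp.ray_disj (a : ℂ) (s : ℝ) {k l : ℕ} (hk : k < N) (hl : l < N) (hkl : k ≠ l) :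
    Disjoint (cone_ray a s (q (k + 1))) (cone_ray a s (q (l + 1))) := by
  rw [Set.disjoint_left]
  rintro _ ⟨r, hr, rfl⟩ ⟨r', hr', heq⟩
  have h1 := h.A_pc a hk (θ := q (k + 1)) ⟨h.mono (Nat.lt_succ_self k), le_rfl⟩ hr.1
  have h2 := h.A_pc a hl (θ := q (l + 1)) ⟨h.mono (Nat.lt_succ_self l), le_rfl⟩ hr'.1
  simp only at heq
  rw [heq, h1] at h2
  have h3 := h.mono.injective h2
  omega

lemma ConeHyp.Z_ball (a : ℂ) {s : ℝ} (hs : 0 < s) :
    (cone_Z a s N q ∩ ball a s : Set ℂ) =ᵐ[(μH[1] : Measure ℂ)]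
      ⋃ k ∈ Finset.range N, cone_ray a s (q (k + 1)) := by
  have h1 : (⋃ k ∈ Finset.range N, cone_ray a s (q (k + 1))) ⊆ cone_Z a s N q ∩ ball a s := by
    intro x hx
    simp only [mem_iUnion, exists_prop] at hx
    obtain ⟨k, hk, r, hr, rfl⟩ := hx
    refine ⟨?_, ?_⟩
    · simp only [cone_Z, mem_iUnion, exists_prop]
      exact ⟨k, hk, r, Ioo_subset_Icc_self hr, rfl⟩
    · rw [mem_ball]
      simp only
      rw [polar_dist a hr.1]
      exact hr.2
  refine Filter.EventuallyLE.antisymm ?_ (LE.le.eventuallyLE h1)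
  rw [ae_le_set]
  refine measure_mono_null ?_ (cone_null_pt a)
  rintro x ⟨⟨hx, hxb⟩, hx2⟩
  simp only [cone_Z, mem_iUnion, exists_prop] at hx
  obtain ⟨k, hk, r, hr, rfl⟩ := hx
  rcases hr.1.eq_or_lt with h0 | h0
  · rw [← h0]
    simp [pc]
  · exfalso
    apply hx2
    simp only [mem_iUnion, exists_prop]
    refine ⟨k, hk, r, ⟨h0, ?_⟩, rfl⟩
    rw [mem_ball] at hxb
    simp only at hxb
    rwa [polar_dist a h0] at hxb

lemma ConeHyp.Z_measure (a : ℂ) {s : ℝ} (hs : 0 < s) :
    (μH[1] : Measure ℂ) (cone_Z a s N q ∩ ball a s) ≤ N * ENNReal.ofReal s := by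
  rw [measure_congr (h.Z_ball a hs)]
  refine (measure_biUnion_finset_le _ _).trans ?_
  simp only [cone_ray_measure, Finset.sum_const, Finset.card_range, nsmul_eq_mul]
  exact le_rfl

omit h in
lemma cone_Z_closed (a : ℂ) (s : ℝ) (N : ℕ) (q : ℕ → ℝ) : IsClosed (cone_Z a s N q) := by
  unfold cone_Z
  refine IsCompact.isClosed (Finset.isCompact_biUnion _ fun k _ => ?_)
  exact isCompact_Icc.image (cone_ray_isometry a _).continuous

omit h in
lemma cone_Z_sphere (a : ℂ) {s : ℝ} (hs : 0 < s) (N : ℕ) (q : ℕ → ℝ) :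
    (cone_Z a s N q ∩ sphere a s).Finite := by
  refine ((Finset.range N).finite_toSet.image fun k => pc a s (q (k + 1))).subset ?_
  rintro x ⟨hx, hxs⟩
  simp only [cone_Z, mem_iUnion, exists_prop] at hx
  obtain ⟨k, hk, r, hr, rfl⟩ := hx
  refine ⟨k, hk, ?_⟩
  rcases hr.1.eq_or_lt with h0 | h0
  · rw [mem_sphere, ← h0] at hxs
    simp only [pc, Complex.ofReal_zero, zero_mul, add_zero, dist_self] at hxs
    exact absurd hxs hs.ne
  · rw [mem_sphere] at hxs
    simp only at hxs
    rw [polar_dist a h0] at hxs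
    rw [hxs]

/-- bounds -/
lemma ConeHyp.bound : ∃ B : ℝ, 0 ≤ B ∧ ∀ θ ∈ Ioc (q 0) (q N), |cone_F N q c G θ| ≤ B ∧
    |cone_M N q m θ| ≤ B ∧ |cone_M N q (fun k => m (k + 1)) θ| ≤ B ∧
    |cone_M N q (fun k => c (k + 1)) θ| ≤ B := by
  have h1 : ∀ k, ∃ B, ∀ θ ∈ Icc (q k) (q (k + 1)), ‖cone_Fk q c G k θ‖ ≤ B := fun k =>
    isCompact_Icc.exists_bound_of_continuousOn (h.Fk_cont k).continuousOn
  choose B hB using h1
  have hB0 : ∀ k, 0 ≤ B k := fun k => (norm_nonneg _).trans (hB k (q k)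
    ⟨le_rfl, (h.mono (Nat.lt_succ_self k)).le⟩)
  refine ⟨∑ k ∈ Finset.range N, (B k + |m k| + |m (k + 1)| + |c (k + 1)|),
    Finset.sum_nonneg fun k _ => by have := hB0 k; positivity, ?_⟩
  intro θ hθ
  obtain ⟨k, hk, hkm⟩ := cone_exists N hθ
  have h2 : B k + |m k| + |m (k + 1)| + |c (k + 1)| ≤
      ∑ k ∈ Finset.range N, (B k + |m k| + |m (k + 1)| + |c (k + 1)|) :=
    Finset.single_le_sum (f := fun k => B k + |m k| + |m (k + 1)| + |c (k + 1)|)
      (fun k _ => by have := hB0 k; positivity) (Finset.mem_range.2 hk)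
  have h3 := hB k θ ⟨hkm.1.le, hkm.2⟩
  rw [Real.norm_eq_abs] at h3
  have h4 := hB0 k
  rw [cone_F, cone_M, cone_M, cone_M, cone_pw_eq h.mono hk hkm, cone_pw_eq h.mono hk hkm,
    cone_pw_eq h.mono hk hkm, cone_pw_eq h.mono hk hkm]
  have h5 := abs_nonneg (m k)
  have h6 := abs_nonneg (m (k + 1))
  have h7 := abs_nonneg (c (k + 1))
  refine ⟨by linarith, by linarith, by linarith, by linarith⟩

lemma ConeHyp.W_bound (a : ℂ) {s : ℝ} (hs : 0 < s) :
    ∃ B : ℝ, 0 ≤ B ∧ (∀ x ∈ closedBall a s, |cone_W a s N q c m G x| ≤ B) ∧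
      ∀ x ∈ closedBall a s, ‖cone_J a s N q c m G x‖ ≤ B := by
  obtain ⟨B, hB0, hB⟩ := h.bound
  have hα : ∀ x ∈ closedBall a s, |√(dist x a / s)| ≤ 1 := by
    intro x hx
    rw [abs_of_nonneg (Real.sqrt_nonneg _), Real.sqrt_le_one]
    exact (div_le_one hs).2 hx
  have hAm : ∀ x, cone_A (q 0) a x ∈ Ioc (q 0) (q N) := by
    intro x
    rw [h.qN]
    exact cone_A_mem (q 0) a x
  have hW : ∀ x ∈ closedBall a s, |cone_W a s N q c m G x| ≤ 3 * B := by
    intro x hx
    obtain ⟨b1, b2, -, -⟩ := hB _ (hAm x)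
    have b0 := hα x hx
    unfold cone_W
    refine (abs_add_le _ _).trans ?_
    rw [abs_mul]
    have b4 : |cone_F N q c G (cone_A (q 0) a x) - cone_M N q m (cone_A (q 0) a x)| ≤ B + B :=
      (abs_sub _ _).trans (add_le_add b1 b2)
    have b5 := mul_le_mul b0 b4 (abs_nonneg _) zero_le_one
    linarith
  refine ⟨6 * B, by positivity, fun x hx => (hW x hx).trans (by linarith), fun x hx => ?_⟩
  obtain ⟨-, -, b3, b4⟩ := hB _ (hAm x)
  have b0 := hα x hx
  unfold cone_J
  rw [norm_smul, cone_et_norm, mul_one, Real.norm_eq_abs]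
  refine (abs_sub _ _).trans ?_
  have b5 : |cone_M N q (fun k => c (k + 1)) (cone_A (q 0) a x) -
      cone_M N q (fun k => m (k + 1)) (cone_A (q 0) a x)| ≤ B + B :=
    (abs_sub _ _).trans (add_le_add b4 b3)
  have b6 := mul_le_mul b0 b5 (abs_nonneg _) zero_le_one
  have b7 := abs_add_le (cone_M N q (fun k => m (k + 1)) (cone_A (q 0) a x))
    (√(dist x a / s) * (cone_M N q (fun k => c (k + 1)) (cone_A (q 0) a x) -
      cone_M N q (fun k => m (k + 1)) (cone_A (q 0) a x)))
  rw [abs_mul] at b7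
  have b8 := hW x hx
  linarith

lemma ConeHyp.J_meas (a : ℂ) (s : ℝ) : Measurable (cone_J a s N q c m G) := by
  have hA := cone_A_meas (q 0) a
  have hd : Measurable (fun x : ℂ => √(dist x a / s)) :=
    ((measurable_id.dist measurable_const).div_const s).sqrt
  unfold cone_J
  exact ((((cone_M_meas N q _).comp hA).add
    (hd.mul (((cone_M_meas N q _).comp hA).sub ((cone_M_meas N q _).comp hA)))).sub
    (h.W_meas a s)).smul (comp0_continuous_et.measurable.comp hA)

lemma ConeHyp.K_meas (a : ℂ) (s : ℝ) : Measurable (cone_K a s N q c m G) := by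
  have hA := cone_A_meas (q 0) a
  have hd : Measurable (fun x : ℂ => (√(dist x a) * √s)⁻¹) :=
    (((measurable_id.dist measurable_const).sqrt).mul_const _).inv
  unfold cone_K
  exact hd.smul ((((((h.F_meas.comp hA).sub ((cone_M_meas N q _).comp hA))).const_mul _).smul
    (comp0_continuous_er.measurable.comp hA)).add
    ((h.Gm.comp hA).smul (comp0_continuous_et.measurable.comp hA)))

lemma ConeHyp.J_int (a : ℂ) {s : ℝ} (hs : 0 < s) :
    IntegrableOn (cone_J a s N q c m G) (cone_Z a s N q ∩ ball a s) (μH[1] : Measure ℂ) := by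
  obtain ⟨B, hB0, -, hB⟩ := h.W_bound a hs
  have hfin : (μH[1] : Measure ℂ) (cone_Z a s N q ∩ ball a s) ≠ ⊤ := by
    refine ne_top_of_le_ne_top ?_ (h.Z_measure a hs)
    exact ENNReal.mul_ne_top (ENNReal.natCast_ne_top N) ENNReal.ofReal_ne_top
  refine Integrable.mono' (integrableOn_const hfin : IntegrableOn (fun _ => B) _ _)
    (h.J_meas a s).aestronglyMeasurable ?_
  filter_upwards [ae_restrict_mem ((cone_Z_closed a s N q).measurableSet.inter
    measurableSet_ball)] with x hx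
  exact hB x (ball_subset_closedBall hx.2)

end

section
variable {N : ℕ} {q c m : ℕ → ℝ} {G : ℝ → ℝ} (h : ConeHyp N q c m G)
include h

/-- the integral of `φ J · v` over the rays -/
lemma ConeHyp.J_integral (a : ℂ) {s : ℝ} (hs : 0 < s) {φ : ℂ → ℝ} (hφ : Continuous φ)
    (hφc : HasCompactSupport φ) (v : ℂ) :
    ∫ x in cone_Z a s N q ∩ ball a s, φ x * inner ℝ (cone_J a s N q c m G x) v
        ∂(μH[1] : Measure ℂ) =
      ∑ k ∈ Finset.range N, ∫ r in Ioo 0 s, ((m (k + 1) + √(r / s) * (c (k + 1) - m (k + 1))) -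
        (m k + √(r / s) * (cone_Fk q c G k (q (k + 1)) - m k))) *
        (inner ℝ (et (q (k + 1))) v * φ (pc a r (q (k + 1)))) := by
  obtain ⟨C, hC⟩ := hφ.bounded_above_of_compact_support hφc
  have hi : IntegrableOn (fun x => φ x * inner ℝ (cone_J a s N q c m G x) v)
      (cone_Z a s N q ∩ ball a s) (μH[1] : Measure ℂ) :=
    Integrable.bdd_mul (c := C) ((h.J_int a hs).inner_const v) hφ.aestronglyMeasurable
      (Eventually.of_forall hC)
  have hZ := h.Z_ball a hs
  rw [setIntegral_congr_set hZ, integral_biUnion_finset]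
  rotate_left
  · exact fun k _ => cone_ray_meas a s _
  · intro k hk l hl hkl
    exact h.ray_disj a s (Finset.mem_range.1 hk) (Finset.mem_range.1 hl) hkl
  · intro k hk
    refine (hi.congr_set_ae hZ.symm).mono_set ?_
    exact Finset.subset_set_biUnion_of_mem (f := fun k => cone_ray a s (q (k + 1))) hk
  refine Finset.sum_congr rfl fun k hk => ?_
  rw [cone_ray_integral a hs]
  refine setIntegral_congr_fun measurableSet_Ioo fun r hr => ?_
  have hk' := Finset.mem_range.1 hk
  have hpm : q (k + 1) ∈ Ioc (q k) (q (k + 1)) := ⟨h.mono (Nat.lt_succ_self k), le_rfl⟩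
  unfold cone_J
  rw [h.W_pc a s hk'.le hpm hr.1, h.A_pc a hk' hpm hr.1, polar_dist a hr.1, cone_M, cone_M,
    cone_pw_eq h.mono hk' hpm, cone_pw_eq h.mono hk' hpm, real_inner_smul_left]
  ring

/-- the divergence identity -/
theorem ConeHyp.div (a : ℂ) {s : ℝ} (hs : 0 < s) {φ : ℂ → ℝ} (hφ : ContDiff ℝ ∞ φ)
    (hφc : HasCompactSupport φ) (v : ℂ) :
    ∫ x in ball a s, (cone_W a s N q c m G x * fderiv ℝ φ x v +
        φ x * inner ℝ (cone_K a s N q c m G x) v) =
      - (∫ x in cone_Z a s N q ∩ ball a s, φ x * inner ℝ (cone_J a s N q c m G x) v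
        ∂(μH[1] : Measure ℂ)) +
      s * ∫ θ in Ioo (-Real.pi) Real.pi,
        cone_W a s N q c m G (pc a s θ) * φ (pc a s θ) * inner ℝ (er θ) v := by
  rw [← setIntegral_congr_set (comp0_ball_ae a s),
    cone_polar_int a measurableSet_Ioo (fun r hr => hr.1) _ (q 0), ← h.qN]
  have hG : ∀ k, IntegrableOn G (Ioc (q k) (q (k + 1))) := fun k => by
    rw [← intervalIntegrable_iff_integrableOn_Ioc_of_le (h.mono (Nat.lt_succ_self k)).le]
    exact h.Gi _ _
  have hsec := fun k => cone_sector (h.mono (Nat.lt_succ_self k)).le (hG k) (c k) (m k) hs hφ a v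
    (F := cone_Fk q c G k) (fun θ => rfl)
  have hpt : ∀ k < N, ∀ z ∈ Ioo 0 s ×ˢ Ioo (q k) (q (k + 1)),
      z.1 • (cone_W a s N q c m G (pc a z.1 z.2) * fderiv ℝ φ (pc a z.1 z.2) v +
        φ (pc a z.1 z.2) * inner ℝ (cone_K a s N q c m G (pc a z.1 z.2)) v) =
      z.1 * ((m k + √(z.1 / s) * (cone_Fk q c G k z.2 - m k)) *
        fderiv ℝ φ (pc a z.1 z.2) v + φ (pc a z.1 z.2) * ((√z.1 * √s)⁻¹ *
          (1 / 2 * (cone_Fk q c G k z.2 - m k) * inner ℝ (er z.2) v +
          G z.2 * inner ℝ (et z.2) v))) := by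
    intro k hk z hz
    have hz2 : z.2 ∈ Ioc (q k) (q (k + 1)) := ⟨hz.2.1, hz.2.2.le⟩
    unfold cone_K
    rw [h.W_pc a s hk.le hz2 hz.1.1, h.A_pc a hk hz2 hz.1.1, polar_dist a hz.1.1, cone_F, cone_M,
      cone_pw_eq h.mono hk hz2, cone_pw_eq h.mono hk hz2, real_inner_smul_left, inner_add_left,
      real_inner_smul_left, real_inner_smul_left, smul_eq_mul]
  have hms : ∀ k, MeasurableSet (Ioo 0 s ×ˢ Ioo (q k) (q (k + 1))) := fun k =>
    measurableSet_Ioo.prod measurableSet_Ioo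
  have hsum := cone_sum_int (A := Ioo 0 s) measurableSet_Ioo h.mono N
    (f := fun z => z.1 • (cone_W a s N q c m G (pc a z.1 z.2) * fderiv ℝ φ (pc a z.1 z.2) v +
        φ (pc a z.1 z.2) * inner ℝ (cone_K a s N q c m G (pc a z.1 z.2)) v))
    (fun k hk => (hsec k).1.congr_fun (fun z hz => (hpt k hk z hz).symm) (hms k))
  rw [hsum.2]
  have hterm : ∀ k ∈ Finset.range N, ∫ z in Ioo 0 s ×ˢ Ioo (q k) (q (k + 1)),
      z.1 • (cone_W a s N q c m G (pc a z.1 z.2) * fderiv ℝ φ (pc a z.1 z.2) v +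
        φ (pc a z.1 z.2) * inner ℝ (cone_K a s N q c m G (pc a z.1 z.2)) v) =
      s * (∫ θ in q k..q (k + 1), cone_W a s N q c m G (pc a s θ) * φ (pc a s θ) *
        inner ℝ (er θ) v) +
      ((∫ r in Ioo 0 s, (m k + √(r / s) * (cone_Fk q c G k (q (k + 1)) - m k)) *
        (inner ℝ (et (q (k + 1))) v * φ (pc a r (q (k + 1))))) -
       ∫ r in Ioo 0 s, (m k + √(r / s) * (c k - m k)) *
        (inner ℝ (et (q k)) v * φ (pc a r (q k)))) := by
    intro k hk
    have hk' := Finset.mem_range.1 hk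
    rw [setIntegral_congr_fun (hms k) (hpt k hk'), (hsec k).2]
    congr 1
    · congr 1
      rw [intervalIntegral.integral_of_le (h.mono (Nat.lt_succ_self k)).le,
        integral_Ioc_eq_integral_Ioo]
      refine setIntegral_congr_fun measurableSet_Ioo fun θ hθ => ?_
      rw [h.W_pc a s hk'.le ⟨hθ.1, hθ.2.le⟩ hs, div_self hs.ne', Real.sqrt_one]
      ring
    · have hc1 : ∀ (A B p : ℝ), IntegrableOn (fun r : ℝ => (A + √(r / s) * B) *
          (inner ℝ (et p) v * φ (pc a r p))) (Ioo 0 s) := by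
        intro A B p
        have c1 : Continuous fun r : ℝ => φ (pc a r p) :=
          hφ.continuous.comp ((comp0_continuous_pc a).comp
            (Continuous.prodMk continuous_id continuous_const))
        have c2 : Continuous fun r : ℝ => (A + √(r / s) * B) *
          (inner ℝ (et p) v * φ (pc a r p)) :=
          (continuous_const.add (((continuous_id.div_const s).sqrt).mul continuous_const)).mul
            (continuous_const.mul c1)
        exact (c2.integrableOn_Icc (a := 0) (b := s)).mono_set Ioo_subset_Icc_self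
      exact integral_sub (hc1 _ _ _) (hc1 _ _ _)
  rw [Finset.sum_congr rfl hterm, Finset.sum_add_distrib, ← Finset.mul_sum]
  -- the circle term
  have hcirc : ∑ k ∈ Finset.range N, (∫ θ in q k..q (k + 1), cone_W a s N q c m G (pc a s θ) *
      φ (pc a s θ) * inner ℝ (er θ) v) = ∫ θ in Ioo (-Real.pi) Real.pi,
        cone_W a s N q c m G (pc a s θ) * φ (pc a s θ) * inner ℝ (er θ) v := by
    have hcφ : Continuous fun θ => φ (pc a s θ) * inner ℝ (er θ) v := by
      have c1 : Continuous fun θ : ℝ => φ (pc a s θ) :=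
        hφ.continuous.comp ((comp0_continuous_pc a).comp
          (Continuous.prodMk continuous_const continuous_id))
      exact c1.mul (comp0_continuous_er.inner continuous_const)
    rw [intervalIntegral.sum_integral_adjacent_intervals]
    · have hper : Function.Periodic (fun θ => cone_W a s N q c m G (pc a s θ) * φ (pc a s θ) *
          inner ℝ (er θ) v) (2 * Real.pi) := by
        intro θ
        simp only
        have : er (θ + 2 * Real.pi) = er θ := by
          rw [cone_er_add]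
          simp [er]
        rw [cone_pc_periodic, this]
      have h1 := hper.intervalIntegral_add_eq (-Real.pi) (q 0)
      have hpi := Real.pi_pos
      rw [← h.qN] at h1
      rw [← h1, intervalIntegral.integral_of_le (by linarith), integral_Ioc_eq_integral_Ioo]
      have h2 : -Real.pi + 2 * Real.pi = Real.pi := by ring
      rw [h2]
    · intro k hk
      rw [intervalIntegrable_iff_integrableOn_Ioo_of_le (h.mono (Nat.lt_succ_self k)).le]
      have hc1 : Continuous fun θ => cone_Fk q c G k θ * (φ (pc a s θ) * inner ℝ (er θ) v) :=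
        (h.Fk_cont k).mul hcφ
      have hc2 : IntegrableOn (fun θ => cone_Fk q c G k θ * (φ (pc a s θ) * inner ℝ (er θ) v))
          (Ioo (q k) (q (k + 1))) :=
        (hc1.integrableOn_Icc (a := q k) (b := q (k + 1))).mono_set Ioo_subset_Icc_self
      refine hc2.congr_fun (fun θ hθ => ?_) measurableSet_Ioo
      simp only
      rw [h.W_pc a s hk.le ⟨hθ.1, hθ.2.le⟩ hs, div_self hs.ne', Real.sqrt_one]
      ring
  rw [hcirc, h.J_integral a hs hφ.continuous hφc v]
  -- the ray terms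
  set X : ℕ → ℝ := fun k => ∫ r in Ioo 0 s, (m k + √(r / s) * (c k - m k)) *
        (inner ℝ (et (q k)) v * φ (pc a r (q k))) with hX
  set Y : ℕ → ℝ := fun k => ∫ r in Ioo 0 s, (m k + √(r / s) *
        (cone_Fk q c G k (q (k + 1)) - m k)) *
        (inner ℝ (et (q (k + 1))) v * φ (pc a r (q (k + 1)))) with hY
  have hXN : X N = X 0 := by
    simp only [hX]
    rw [h.cN, h.mN, h.qN, comp0_et_periodic]
    simp_rw [cone_pc_periodic]
  have hray : ∀ k ∈ Finset.range N, ∫ r in Ioo 0 s,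
      ((m (k + 1) + √(r / s) * (c (k + 1) - m (k + 1))) -
        (m k + √(r / s) * (cone_Fk q c G k (q (k + 1)) - m k))) *
        (inner ℝ (et (q (k + 1))) v * φ (pc a r (q (k + 1)))) = X (k + 1) - Y k := by
    intro k _
    have hc1 : ∀ (A B p : ℝ), IntegrableOn (fun r : ℝ => (A + √(r / s) * B) *
        (inner ℝ (et p) v * φ (pc a r p))) (Ioo 0 s) := by
      intro A B p
      have c1 : Continuous fun r : ℝ => φ (pc a r p) :=
        hφ.continuous.comp ((comp0_continuous_pc a).comp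
          (Continuous.prodMk continuous_id continuous_const))
      have c2 : Continuous fun r : ℝ => (A + √(r / s) * B) *
        (inner ℝ (et p) v * φ (pc a r p)) :=
          (continuous_const.add (((continuous_id.div_const s).sqrt).mul continuous_const)).mul
            (continuous_const.mul c1)
      exact (c2.integrableOn_Icc (a := 0) (b := s)).mono_set Ioo_subset_Icc_self
    simp only [hX, hY]
    rw [← integral_sub (hc1 _ _ _) (hc1 _ _ _)]
    congr 1
    funext r
    ring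
  rw [Finset.sum_congr rfl hray]
  have htel : ∑ k ∈ Finset.range N, (X (k + 1) - X k) = X N - X 0 := Finset.sum_range_sub X N
  have e1 : ∑ k ∈ Finset.range N, (Y k - X k) = - ∑ k ∈ Finset.range N, (X (k + 1) - Y k) +
      ∑ k ∈ Finset.range N, (X (k + 1) - X k) := by
    rw [← Finset.sum_neg_distrib, ← Finset.sum_add_distrib]
    refine Finset.sum_congr rfl fun k _ => ?_
    ring
  rw [e1, htel, hXN]
  ring

/-- the energy of the competitor -/
theorem ConeHyp.energy (a : ℂ) {s : ℝ} (hs : 0 < s)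
    (hG2 : ∀ x y, IntervalIntegrable (fun θ => G θ ^ 2) volume x y)
    (hW : ∀ k < N, ∫ θ in q k..q (k + 1), (cone_Fk q c G k θ - m k) ^ 2 ≤
      4 * ∫ θ in q k..q (k + 1), G θ ^ 2) :
    ∫⁻ x in ball a s, ‖cone_K a s N q c m G x‖ₑ ^ 2 ≤
      ENNReal.ofReal (2 * ∫ θ in Ioo (-Real.pi) Real.pi, G θ ^ 2) := by
  set e : ℝ → ℝ := fun θ => 1 / 4 * (cone_F N q c G θ - cone_M N q m θ) ^ 2 + G θ ^ 2 with he
  have he0 : ∀ θ, 0 ≤ e θ := fun θ => by simp only [he]; positivity
  have hem : Measurable e :=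
    (((h.F_meas.sub (cone_M_meas N q m)).pow_const 2).const_mul _).add (h.Gm.pow_const 2)
  rw [← setLIntegral_congr (comp0_ball_ae a s),
    cone_polar_lint a measurableSet_Ioo (fun r hr => hr.1) _ (q 0), ← h.qN]
  have h1 : ∀ z ∈ Ioo 0 s ×ˢ Ioo (q 0) (q N),
      ENNReal.ofReal z.1 * ‖cone_K a s N q c m G (pc a z.1 z.2)‖ₑ ^ 2 =
      ENNReal.ofReal (s⁻¹) * ENNReal.ofReal (e z.2) := by
    intro z hz
    have hz2 : z.2 ∈ Ioc (q 0) (q 0 + 2 * Real.pi) := by
      rw [← h.qN]
      exact ⟨hz.2.1, hz.2.2.le⟩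
    have hr : 0 < z.1 := hz.1.1
    unfold cone_K
    rw [cone_A_pc (q 0) a hr hz2, polar_dist a hr, ← ofReal_norm,
      ← ENNReal.ofReal_pow (norm_nonneg _), norm_smul, mul_pow, comp0_normsq,
      ← ENNReal.ofReal_mul hr.le, ← ENNReal.ofReal_mul (inv_nonneg.2 hs.le)]
    congr 1
    rw [Real.norm_eq_abs, sq_abs, inv_pow, mul_pow, Real.sq_sqrt hr.le, Real.sq_sqrt hs.le]
    simp only [he]
    field_simp
    ring
  rw [setLIntegral_congr_fun (measurableSet_Ioo.prod measurableSet_Ioo) h1,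
    Measure.volume_eq_prod, ← Measure.prod_restrict, lintegral_prod_mul aemeasurable_const
      hem.ennreal_ofReal.aemeasurable]
  rw [setLIntegral_const, Real.volume_Ioo, sub_zero, ← ENNReal.ofReal_mul (inv_nonneg.2 hs.le),
    inv_mul_cancel₀ hs.ne', ENNReal.ofReal_one, one_mul]
  -- integrability of `e`
  have hek : ∀ k < N, ∀ θ ∈ Ioc (q k) (q (k + 1)),
      e θ = 1 / 4 * (cone_Fk q c G k θ - m k) ^ 2 + G θ ^ 2 := by
    intro k hk θ hθ
    simp only [he]
    rw [cone_F, cone_M, cone_pw_eq h.mono hk hθ, cone_pw_eq h.mono hk hθ]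
  have hFi : ∀ k, IntervalIntegrable (fun θ => 1 / 4 * (cone_Fk q c G k θ - m k) ^ 2) volume
      (q k) (q (k + 1)) := fun k =>
    (continuous_const.mul (((h.Fk_cont k).sub continuous_const).pow 2)).intervalIntegrable _ _
  have hei : ∀ k < N, IntervalIntegrable e volume (q k) (q (k + 1)) := by
    intro k hk
    refine ((hFi k).add (hG2 _ _)).congr ?_
    rw [uIoc_of_le (h.mono (Nat.lt_succ_self k)).le]
    exact fun θ hθ => (hek k hk θ hθ).symm
  have heI : IntervalIntegrable e volume (q 0) (q N) :=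
    IntervalIntegrable.trans_iterate hei
  have hle0 : q 0 ≤ q N := h.mono.monotone (Nat.zero_le _)
  have heI' : IntegrableOn e (Ioo (q 0) (q N)) :=
    (intervalIntegrable_iff_integrableOn_Ioo_of_le hle0).1 heI
  rw [← ofReal_integral_eq_lintegral_ofReal heI' (Eventually.of_forall he0)]
  refine ENNReal.ofReal_le_ofReal ?_
  rw [← integral_Ioc_eq_integral_Ioo, ← intervalIntegral.integral_of_le hle0,
    ← intervalIntegral.sum_integral_adjacent_intervals hei]
  have hper : Function.Periodic (fun θ => G θ ^ 2) (2 * Real.pi) := fun θ => by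
    simp only [h.Gper]
  have h2 := hper.intervalIntegral_add_eq (-Real.pi) (q 0)
  have hpi := Real.pi_pos
  rw [← h.qN, intervalIntegral.integral_of_le (by linarith), integral_Ioc_eq_integral_Ioo] at h2
  have h3 : -Real.pi + 2 * Real.pi = Real.pi := by ring
  rw [h3] at h2
  rw [h2, ← intervalIntegral.sum_integral_adjacent_intervals fun k _ => hG2 _ _, Finset.mul_sum]
  refine Finset.sum_le_sum fun k hk => ?_
  have hk' := Finset.mem_range.1 hk
  have h4 : ∫ θ in q k..q (k + 1), e θ = ∫ θ in q k..q (k + 1),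
      (1 / 4 * (cone_Fk q c G k θ - m k) ^ 2 + G θ ^ 2) := by
    refine intervalIntegral.integral_congr_ae (Eventually.of_forall fun θ hθ => ?_)
    rw [uIoc_of_le (h.mono (Nat.lt_succ_self k)).le] at hθ
    exact hek k hk' θ hθ
  rw [h4, intervalIntegral.integral_add (hFi k) (hG2 _ _), intervalIntegral.integral_const_mul]
  have h5 := hW k hk'
  linarith

end

/-- the energy inequality, from the gluing property at the radius `s` -/
theorem cone_main {Ω : Set ℂ} {u : ℂ → ℝ} {g j : ℂ → ℂ} (h : MSMin Ω u g j) {a : ℂ} {s : ℝ}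
    (hs : 0 < s) (hsR : closedBall a s ⊆ Ω)
    (hglue : ∀ (W : ℂ → ℝ) (k J : ℂ → ℂ) (Z : Set ℂ), IsClosed Z →
      ContinuousOn W (closedBall a s \ Z) → IntegrableOn W (closedBall a s) →
      IntegrableOn (fun θ => W (pc a s θ)) (Ioo (-Real.pi) Real.pi) →
      IntegrableOn k (ball a s) → (Z ∩ sphere a s).Finite →
      IntegrableOn J (Z ∩ ball a s) (μH[1] : Measure ℂ) →
      (∀ x ∈ Z ∩ ball a s, x ≠ a → (∃ b c ν, IsJump W x b c ν ∧ J x = (b - c) • ν) ∨
        ((∃ z, IsApproxLim W x z) ∧ J x = 0)) →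
      (∀ φ : ℂ → ℝ, ContDiff ℝ ∞ φ → HasCompactSupport φ → ∀ v : ℂ,
        ∫ x in ball a s, W x * fderiv ℝ φ x v = - (∫ x in ball a s, φ x * inner ℝ (k x) v) -
          (∫ x in Z ∩ ball a s, φ x * inner ℝ (J x) v ∂(μH[1] : Measure ℂ)) +
          s * ∫ θ in Ioo (-Real.pi) Real.pi,
            W (pc a s θ) * φ (pc a s θ) * inner ℝ (er θ) v) →
      LocallyIntegrableOn (glued a s W u) Ω ∧ IsSBVGrad Ω (glued a s W u) (glued a s k g) ∧
      discSet Ω (glued a s W u) ∩ ball a s ⊆ Z ∧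
      (μH[1] : Measure ℂ) (discSet Ω (glued a s W u) ∩ sphere a s) ≤
        ENNReal.ofReal s * volume {θ ∈ Ioo (-Real.pi) Real.pi | u (pc a s θ) ≠ W (pc a s θ)})
    {N : ℕ} {q c m : ℕ → ℝ} (hc : ConeHyp N q c m (Gq g a s))
    (hG2 : ∀ x y, IntervalIntegrable (fun θ => Gq g a s θ ^ 2) volume x y)
    (hWi : ∀ k < N, ∫ θ in q k..q (k + 1), (cone_Fk q c (Gq g a s) k θ - m k) ^ 2 ≤
      4 * ∫ θ in q k..q (k + 1), Gq g a s θ ^ 2)
    (hu : ∀ᵐ θ ∂(volume.restrict (Ioo (-Real.pi) Real.pi)),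
      u (pc a s θ) = cone_W a s N q c m (Gq g a s) (pc a s θ)) :
    Dq g a s + Lq Ω u a s ≤ s * N + 2 * s * Tq g a s := by
  set G : ℝ → ℝ := Gq g a s with hGdef
  set W := cone_W a s N q c m G with hW
  set K := cone_K a s N q c m G with hK
  set J := cone_J a s N q c m G with hJ
  set Z := cone_Z a s N q with hZ
  have hπ : -Real.pi ≤ Real.pi := by linarith [Real.pi_pos]
  obtain ⟨B, hB0, hBW, hBJ⟩ := hc.W_bound a hs
  have hWm : Measurable W := hc.W_meas a s
  have hWint : IntegrableOn W (closedBall a s) := by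
    refine Integrable.mono' (integrableOn_const (C := B) measure_closedBall_lt_top.ne)
      hWm.aestronglyMeasurable ?_
    filter_upwards [ae_restrict_mem measurableSet_closedBall] with x hx
    exact hBW x hx
  have hpcc : Continuous fun θ => pc a s θ :=
    (comp0_continuous_pc a).comp (Continuous.prodMk continuous_const continuous_id)
  have hWs : IntegrableOn (fun θ => W (pc a s θ)) (Ioo (-Real.pi) Real.pi) := by
    refine Integrable.mono' (integrableOn_const (C := B) (by simp))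
      (hWm.comp hpcc.measurable).aestronglyMeasurable ?_
    refine Eventually.of_forall fun θ => ?_
    refine hBW _ ?_
    rw [mem_closedBall, polar_dist a hs]
  have hlint := hc.energy a hs hG2 hWi
  have hkm : Measurable K := hc.K_meas a s
  have hk2 : MemLp K 2 (volume.restrict (ball a s)) := by
    rw [memLp_two_iff_integrable_sq_norm hkm.aestronglyMeasurable]
    refine ⟨(hkm.norm.pow_const 2).aestronglyMeasurable, ?_⟩
    unfold HasFiniteIntegral
    have e : ∀ x, ‖‖K x‖ ^ 2‖ₑ = ‖K x‖ₑ ^ 2 := by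
      intro x
      rw [enorm_pow, enorm_norm]
    simp_rw [e]
    exact hlint.trans_lt ENNReal.ofReal_lt_top
  have hki : IntegrableOn K (ball a s) := by
    have : IsFiniteMeasure (volume.restrict (ball a s)) :=
      ⟨by rw [Measure.restrict_apply_univ]; exact measure_ball_lt_top⟩
    exact hk2.integrable (by norm_num)
  have haZ : a ∈ Z := by
    simp only [hZ, cone_Z, mem_iUnion, exists_prop]
    exact ⟨0, Finset.mem_range.2 hc.pos, 0, ⟨le_rfl, hs.le⟩, by simp [pc]⟩
  have hWc : ContinuousOn W (closedBall a s \ Z) := by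
    intro x hx
    have hxa : x ≠ a := fun h0 => hx.2 (by rw [h0]; exact haZ)
    refine (hc.W_cont a s hxa fun k hk hA => hx.2 ?_).continuousWithinAt
    simp only [hZ, cone_Z, mem_iUnion, exists_prop]
    refine ⟨k, Finset.mem_range.2 hk, dist x a, ⟨dist_nonneg, hx.1⟩, ?_⟩
    simp only
    rw [← hA]
    exact (cone_A_eq (q 0) a x).symm
  have hjump : ∀ x ∈ Z ∩ ball a s, x ≠ a → (∃ b c ν, IsJump W x b c ν ∧ J x = (b - c) • ν) ∨
        ((∃ z, IsApproxLim W x z) ∧ J x = 0) := by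
    rintro x ⟨hx, hxb⟩ hxa
    simp only [hZ, cone_Z, mem_iUnion, exists_prop] at hx
    obtain ⟨k, hk, r, hr, rfl⟩ := hx
    rcases hr.1.eq_or_lt with h0 | h0
    · exfalso
      apply hxa
      rw [← h0]
      simp [pc]
    · exact hc.jump a s (Finset.mem_range.1 hk) h0
  have hdiv : ∀ φ : ℂ → ℝ, ContDiff ℝ ∞ φ → HasCompactSupport φ → ∀ v : ℂ,
        ∫ x in ball a s, W x * fderiv ℝ φ x v = - (∫ x in ball a s, φ x * inner ℝ (K x) v) -
          (∫ x in Z ∩ ball a s, φ x * inner ℝ (J x) v ∂(μH[1] : Measure ℂ)) +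
          s * ∫ θ in Ioo (-Real.pi) Real.pi,
            W (pc a s θ) * φ (pc a s θ) * inner ℝ (er θ) v := by
    intro φ hφ hφc v
    have h1 := hc.div a hs hφ hφc v
    have i1 : IntegrableOn (fun x => W x * fderiv ℝ φ x v) (ball a s) := by
      have hcf : Continuous fun x => fderiv ℝ φ x v :=
        (hφ.continuous_fderiv (by simp)).clm_apply continuous_const
      obtain ⟨M, hM⟩ := (isCompact_closedBall a s).exists_bound_of_continuousOn hcf.continuousOn
      have i0 : IntegrableOn (fun x => fderiv ℝ φ x v * W x) (ball a s) := by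
        refine Integrable.bdd_mul (c := M) (hWint.mono_set ball_subset_closedBall)
          hcf.aestronglyMeasurable ?_
        filter_upwards [ae_restrict_mem measurableSet_ball] with x hx
        exact hM x (ball_subset_closedBall hx)
      refine i0.congr (Eventually.of_forall fun x => ?_)
      simp only
      ring
    have i2 : IntegrableOn (fun x => φ x * inner ℝ (K x) v) (ball a s) := by
      obtain ⟨M, hM⟩ := hφ.continuous.bounded_above_of_compact_support hφc
      exact Integrable.bdd_mul (c := M) (hki.inner_const v) hφ.continuous.aestronglyMeasurable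
        (Eventually.of_forall hM)
    rw [integral_add i1 i2] at h1
    linarith
  obtain ⟨hloc, hgrad, hball, hsph⟩ := hglue W K J Z (cone_Z_closed a s N q) hWc hWint hWs hki
    (cone_Z_sphere a hs N q) (hc.J_int a hs) hjump hdiv
  have hzero : volume {θ ∈ Ioo (-Real.pi) Real.pi | u (pc a s θ) ≠ W (pc a s θ)} = 0 := by
    rw [ae_restrict_iff' measurableSet_Ioo, ae_iff] at hu
    refine measure_mono_null ?_ hu
    rintro θ ⟨hθ, hne⟩ hcon
    exact hne (hcon hθ)
  rw [hzero, mul_zero] at hsph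
  have hmin := h.min (glued a s W u) (glued a s K g) (closedBall a s) hloc hgrad
    (isCompact_closedBall a s) hsR (fun x _ hx => by
      have : ¬ dist x a ≤ s := hx
      unfold glued
      rw [if_neg this])
  -- right-hand side
  have hr1 : (μH[1] : Measure ℂ) (discSet Ω (glued a s W u) ∩ closedBall a s) ≤
      ENNReal.ofReal (s * N) := by
    rw [← ball_union_sphere, inter_union_distrib_left]
    refine (measure_union_le _ _).trans ?_
    have h1 : (μH[1] : Measure ℂ) (discSet Ω (glued a s W u) ∩ ball a s) ≤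
        N * ENNReal.ofReal s :=
      (measure_mono (fun x hx => ⟨hball hx, hx.2⟩ :
        discSet Ω (glued a s W u) ∩ ball a s ⊆ cone_Z a s N q ∩ ball a s)).trans
        (hc.Z_measure a hs)
    have h2 : (N : ℝ≥0∞) * ENNReal.ofReal s = ENNReal.ofReal (s * N) := by
      rw [mul_comm, ENNReal.ofReal_mul hs.le, ENNReal.ofReal_natCast]
    rw [h2] at h1
    calc _ ≤ ENNReal.ofReal (s * N) + 0 := add_le_add h1 hsph
      _ = _ := add_zero _
  have hr2 : ∫⁻ x in closedBall a s, ‖glued a s K g x‖ₑ ^ 2 = ∫⁻ x in ball a s, ‖K x‖ₑ ^ 2 := by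
    rw [setLIntegral_congr (comp0_closedBall_ae a hs)]
    refine setLIntegral_congr_fun measurableSet_ball fun x hx => ?_
    have : dist x a ≤ s := le_of_lt hx
    simp only [glued]
    rw [if_pos this]
  rw [hr2] at hmin
  have hI0 : 0 ≤ ∫ θ in Ioo (-Real.pi) Real.pi, G θ ^ 2 := integral_nonneg fun x => sq_nonneg _
  have hmin2 : (∫⁻ x in closedBall a s, ‖g x‖ₑ ^ 2) +
      (μH[1] : Measure ℂ) (discSet Ω u ∩ closedBall a s) ≤
      ENNReal.ofReal (2 * (∫ θ in Ioo (-Real.pi) Real.pi, G θ ^ 2) + s * N) := by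
    rw [ENNReal.ofReal_add (by positivity) (by positivity)]
    exact hmin.trans (add_le_add hlint hr1)
  -- left-hand side
  have hgI : IntegrableOn (fun x => ‖g x‖ ^ 2) (ball a s) :=
    (h.fin_g _ (isCompact_closedBall a s) hsR).mono_set ball_subset_closedBall
  have hD : ENNReal.ofReal (Dq g a s) = ∫⁻ x in ball a s, ‖g x‖ₑ ^ 2 := by
    unfold Dq
    rw [ofReal_integral_eq_lintegral_ofReal hgI (Eventually.of_forall fun x => sq_nonneg _)]
    refine lintegral_congr fun x => ?_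
    rw [ENNReal.ofReal_pow (norm_nonneg _), ofReal_norm]
  have hfinS : (μH[1] : Measure ℂ) (discSet Ω u ∩ ball a s) ≠ ⊤ :=
    ne_top_of_le_ne_top (h.fin_S _ (isCompact_closedBall a s) hsR).ne
      (measure_mono (inter_subset_inter_right _ ball_subset_closedBall))
  have hL : ENNReal.ofReal (Lq Ω u a s) = (μH[1] : Measure ℂ) (discSet Ω u ∩ ball a s) := by
    unfold Lq
    rw [ENNReal.ofReal_toReal hfinS]
  have hD0 : 0 ≤ Dq g a s := integral_nonneg fun x => sq_nonneg _
  have hL0 : 0 ≤ Lq Ω u a s := ENNReal.toReal_nonneg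
  have hle : ENNReal.ofReal (Dq g a s + Lq Ω u a s) ≤
      ENNReal.ofReal (2 * (∫ θ in Ioo (-Real.pi) Real.pi, G θ ^ 2) + s * N) := by
    rw [ENNReal.ofReal_add hD0 hL0, hD, hL]
    refine le_trans (add_le_add (lintegral_mono_set ball_subset_closedBall) (measure_mono
      (inter_subset_inter_right _ ball_subset_closedBall))) hmin2
  have hle' := (ENNReal.ofReal_le_ofReal_iff (by positivity)).1 hle
  have hT : ∫ θ in Ioo (-Real.pi) Real.pi, G θ ^ 2 = s * Tq g a s := by
    unfold Tq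
    rw [← mul_assoc, ← integral_const_mul]
    refine integral_congr_ae (Eventually.of_forall fun θ => ?_)
    simp only [hGdef, Gq]
    ring
  rw [hT] at hle'
  linarith

/-- Wirtinger inequality on an arc -/
lemma cone_wirt {G : ℝ → ℝ} {p p' : ℝ} (hp : p < p') (hp2 : p' ≤ p + 2 * Real.pi)
    (hGi : IntervalIntegrable G volume p p') (hGm : Measurable G)
    (hG2 : IntervalIntegrable (fun θ => G θ ^ 2) volume p p') (c : ℝ) :
    ∃ m : ℝ, ∫ θ in p..p', ((c + ∫ t in p..θ, G t) - m) ^ 2 ≤ 4 * ∫ θ in p..p', G θ ^ 2 := by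
  set G' : ℝ → ℝ := (Ioc p p').indicator G with hG'
  have hG'm : Measurable G' := hGm.indicator measurableSet_Ioc
  have hsq : (fun θ => G' θ ^ 2) = (Ioc p p').indicator fun θ => G θ ^ 2 := by
    funext θ
    by_cases hθ : θ ∈ Ioc p p'
    · simp [hG', hθ]
    · simp [hG', hθ]
  have hG2' : IntegrableOn (fun θ => G θ ^ 2) (Ioc p p') :=
    (intervalIntegrable_iff_integrableOn_Ioc_of_le hp.le).1 hG2
  have hi2 : Integrable (fun θ => G' θ ^ 2) := by
    rw [hsq]
    exact (integrable_indicator_iff measurableSet_Ioc).2 hG2'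
  have hLp : MemLp G' 2 (volume.restrict (Ioo p (p + 2 * Real.pi))) :=
    (memLp_two_iff_integrable_sq hG'm.aestronglyMeasurable).2 hi2.integrableOn
  obtain ⟨m, hm⟩ := wirtinger_neumann hLp
  refine ⟨c + m, ?_⟩
  have hG'i : Integrable G' :=
    (integrable_indicator_iff measurableSet_Ioc).2
      ((intervalIntegrable_iff_integrableOn_Ioc_of_le hp.le).1 hGi)
  have e1 : ∫ θ in p..(p + 2 * Real.pi), G' θ ^ 2 = ∫ θ in p..p', G θ ^ 2 := by
    rw [intervalIntegral.integral_of_le (by linarith), intervalIntegral.integral_of_le hp.le,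
      hsq, setIntegral_indicator measurableSet_Ioc]
    congr 2
    exact inter_eq_right.2 (Ioc_subset_Ioc_right hp2)
  have e2 : ∀ θ ∈ Icc p p', ∫ t in p..θ, G' t = ∫ t in p..θ, G t := by
    intro θ hθ
    rw [intervalIntegral.integral_of_le hθ.1, intervalIntegral.integral_of_le hθ.1,
      setIntegral_indicator measurableSet_Ioc]
    congr 2
    exact inter_eq_left.2 (Ioc_subset_Ioc_right hθ.2)
  have hcont : Continuous fun θ => ((∫ t in p..θ, G' t) - m) ^ 2 :=
    ((intervalIntegral.continuous_primitive (fun _ _ => hG'i.intervalIntegrable) p).sub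
      continuous_const).pow 2
  have e3 : ∫ θ in p..p', ((c + ∫ t in p..θ, G t) - (c + m)) ^ 2 =
      ∫ θ in p..p', ((∫ t in p..θ, G' t) - m) ^ 2 := by
    refine intervalIntegral.integral_congr fun θ hθ => ?_
    rw [uIcc_of_le hp.le] at hθ
    rw [e2 θ hθ]
    ring
  rw [e3, ← e1]
  refine le_trans ?_ hm
  have e4 := intervalIntegral.integral_add_adjacent_intervals (μ := volume)
    (hcont.intervalIntegrable p p') (hcont.intervalIntegrable p' (p + 2 * Real.pi))
  have e5 : 0 ≤ ∫ θ in p'..(p + 2 * Real.pi), ((∫ t in p..θ, G' t) - m) ^ 2 :=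
    intervalIntegral.integral_nonneg hp2 fun θ _ => sq_nonneg _
  linarith

/-- A periodic property which holds a.e. on one period holds a.e. -/
theorem cone_ae_periodic {P : ℝ → Prop} (hP : ∀ θ, P (θ + 2 * Real.pi) ↔ P θ) {p : ℝ}
    (h : ∀ᵐ θ ∂(volume.restrict (Ioo p (p + 2 * Real.pi))), P θ) : ∀ᵐ θ, P θ := by
  have hPn : ∀ (n : ℤ) (θ : ℝ), P (θ + n * (2 * Real.pi)) ↔ P θ := by
    intro n
    induction n using Int.induction_on with
    | zero => intro θ; simp
    | succ n ih =>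
      intro θ
      rw [← ih θ, ← hP (θ + ((n : ℤ) : ℝ) * (2 * Real.pi))]
      push_cast
      ring_nf
    | pred n ih =>
      intro θ
      rw [← ih θ, ← hP (θ + ((-(n : ℤ) - 1 : ℤ) : ℝ) * (2 * Real.pi))]
      push_cast
      ring_nf
  have h1 : volume ({θ | ¬ P θ} ∩ Ioo p (p + 2 * Real.pi)) = 0 := by
    rw [ae_restrict_iff' measurableSet_Ioo, ae_iff] at h
    refine measure_mono_null ?_ h
    rintro θ ⟨h2, h3⟩
    simp only [Set.mem_ofPred_eq, Classical.not_imp]
    exact ⟨h3, h2⟩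
  have h2 : volume ({θ | ¬ P θ} ∩ Ico p (p + 2 * Real.pi)) = 0 := by
    refine measure_mono_null (t := ({θ | ¬ P θ} ∩ Ioo p (p + 2 * Real.pi)) ∪ {p}) ?_ ?_
    · rintro θ ⟨h3, h4⟩
      rcases h4.1.eq_or_lt with h5 | h5
      · right; exact h5.symm
      · left; exact ⟨h3, h5, h4.2⟩
    · rw [measure_union_null_iff]
      exact ⟨h1, by simp⟩
  rw [ae_iff]
  have h3 : {θ | ¬ P θ} ⊆ ⋃ n : ℤ, (fun θ : ℝ => θ + n * (2 * Real.pi)) ⁻¹'
      ({θ | ¬ P θ} ∩ Ico p (p + 2 * Real.pi)) := by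
    intro θ hθ
    have hpos : (0 : ℝ) < 2 * Real.pi := by positivity
    obtain ⟨n, hn, -⟩ := existsUnique_add_zsmul_mem_Ico hpos θ p
    rw [mem_iUnion]
    refine ⟨n, ?_, ?_⟩
    · show ¬ P (θ + n * (2 * Real.pi))
      rw [hPn]
      exact hθ
    · simpa using hn
  refine measure_mono_null h3 ?_
  rw [measure_iUnion_null_iff]
  intro n
  rw [measure_preimage_add_right]
  exact h2

/-- the sorted angles of the jump points on a circle -/
lemma cone_angles {J : Set ℂ} {a : ℂ} {s : ℝ} (hs : 0 < s) (hfin : (J ∩ sphere a s).Finite)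
    (hne : (J ∩ sphere a s).Nonempty) :
    ∃ q : ℕ → ℝ, StrictMono q ∧ 0 < (J ∩ sphere a s).ncard ∧
      q (J ∩ sphere a s).ncard = q 0 + 2 * Real.pi ∧
      q ((J ∩ sphere a s).ncard + 1) = q 1 + 2 * Real.pi ∧
      ∀ k < (J ∩ sphere a s).ncard, ∀ θ ∈ Ioo (q k) (q (k + 1)), pc a s θ ∉ J := by
  classical
  have hpi := Real.pi_pos
  obtain ⟨x₁, hx₁⟩ := hne
  set p₀ := cone_B 0 a x₁ with hp₀
  have hx₁e : x₁ = pc a s p₀ := by
    conv_lhs => rw [cone_B_eq 0 a x₁]
    rw [mem_sphere.1 hx₁.2]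
  set E : Set ℝ := Ico p₀ (p₀ + 2 * Real.pi) ∩ (fun θ => pc a s θ) ⁻¹' (J ∩ sphere a s) with hE
  have hinj : InjOn (fun θ => pc a s θ) (Ico p₀ (p₀ + 2 * Real.pi)) := by
    intro x hx y hy hxy
    refine (cone_pc_eq hs hs hxy ?_).2
    rw [abs_lt]
    constructor <;> linarith [hx.1, hx.2, hy.1, hy.2]
  have hEfin : E.Finite := by
    refine Set.Finite.of_finite_image (f := fun θ => pc a s θ) ?_ (hinj.mono inter_subset_left)
    refine hfin.subset ?_
    rintro _ ⟨θ, hθ, rfl⟩
    exact hθ.2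
  have himg : (fun θ => pc a s θ) '' E = J ∩ sphere a s := by
    apply Subset.antisymm
    · rintro _ ⟨θ, hθ, rfl⟩
      exact hθ.2
    · intro x hx
      have h1 := cone_B_mem (p₀ + Real.pi) a x
      have h2 := cone_B_eq (p₀ + Real.pi) a x
      rw [mem_sphere.1 hx.2] at h2
      rcases h1.2.lt_or_eq with h3 | h3
      · exact ⟨_, ⟨⟨by linarith [h1.1], by linarith⟩, by rw [mem_preimage, ← h2]; exact hx⟩,
          h2.symm⟩
      · refine ⟨p₀, ⟨⟨le_rfl, by linarith⟩, ?_⟩, ?_⟩
        · rw [mem_preimage, ← hx₁e]; exact hx₁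
        · rw [h2, h3]
          simp only
          rw [← cone_pc_periodic a s p₀]
          congr 1
          ring
  set N := (J ∩ sphere a s).ncard with hN
  have hEN : E.ncard = N := by
    rw [hN, ← himg, Set.InjOn.ncard_image (hinj.mono inter_subset_left)]
  have hcard : hEfin.toFinset.card = N := by
    rw [← hEN, Set.ncard_eq_toFinset_card E hEfin]
  have hp₀E : p₀ ∈ E := ⟨⟨le_rfl, by linarith⟩, by rw [mem_preimage, ← hx₁e]; exact hx₁⟩
  have hNpos : 0 < N := by
    rw [← hEN, Set.ncard_pos hEfin]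
    exact ⟨p₀, hp₀E⟩
  set e := hEfin.toFinset.orderEmbOfFin hcard with he
  have heE : ∀ i, e i ∈ E := fun i => by
    have := Finset.orderEmbOfFin_mem hEfin.toFinset hcard i
    rwa [Set.Finite.mem_toFinset] at this
  have he0 : e ⟨0, hNpos⟩ = p₀ := by
    rw [he, Finset.orderEmbOfFin_zero hcard hNpos]
    apply le_antisymm
    · exact Finset.min'_le _ _ ((Set.Finite.mem_toFinset hEfin).2 hp₀E)
    · refine Finset.le_min' _ _ _ fun y hy => ?_
      exact ((Set.Finite.mem_toFinset hEfin).1 hy).1.1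
  have hsurj : ∀ θ ∈ E, ∃ i, e i = θ := by
    intro θ hθ
    have h1 : θ ∈ Set.range e := by
      rw [he, Finset.range_orderEmbOfFin]
      exact (Set.Finite.mem_toFinset hEfin).2 hθ
    exact h1
  set q : ℕ → ℝ := fun k => e ⟨k % N, Nat.mod_lt k hNpos⟩ + (k / N : ℕ) * (2 * Real.pi) with hq
  have hlt : ∀ i, e i < p₀ + 2 * Real.pi := fun i => (heE i).1.2
  have hge : ∀ i, p₀ ≤ e i := fun i => (heE i).1.1
  have hmod : ∀ k, (k % N + 1 < N ∧ (k + 1) % N = k % N + 1 ∧ (k + 1) / N = k / N) ∨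
      (k % N + 1 = N ∧ (k + 1) % N = 0 ∧ (k + 1) / N = k / N + 1) := by
    intro k
    have h1 := Nat.mod_lt k hNpos
    have h2 := Nat.div_add_mod k N
    rcases Nat.lt_or_ge (k % N + 1) N with h3 | h3
    · left
      have h4 : k + 1 = k % N + 1 + N * (k / N) := by omega
      refine ⟨h3, ?_, ?_⟩
      · rw [h4, Nat.add_mul_mod_self_left, Nat.mod_eq_of_lt h3]
      · conv_lhs => rw [h4, Nat.add_mul_div_left _ _ hNpos, Nat.div_eq_of_lt h3, zero_add]
    · right
      have h5 : k % N + 1 = N := by omega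
      have h4 : k + 1 = N * (k / N + 1) := by
        rw [Nat.mul_add, mul_one]; omega
      refine ⟨h5, ?_, ?_⟩
      · rw [h4, Nat.mul_mod_right]
      · rw [h4, Nat.mul_div_cancel_left _ hNpos]
  have hmono : StrictMono q := by
    refine strictMono_nat_of_lt_succ fun k => ?_
    simp only [hq]
    rcases hmod k with ⟨h1, h2, h3⟩ | ⟨h1, h2, h3⟩
    · rw [h3]
      have h4 : e ⟨k % N, Nat.mod_lt k hNpos⟩ < e ⟨(k + 1) % N, Nat.mod_lt _ hNpos⟩ := by
        rw [e.lt_iff_lt, Fin.lt_def]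
        simp only
        omega
      linarith
    · rw [h3]
      have h4 : e ⟨(k + 1) % N, Nat.mod_lt _ hNpos⟩ = p₀ := by
        rw [← he0]
        congr 1
        exact Fin.ext h2
      rw [h4]
      have h5 := hlt ⟨k % N, Nat.mod_lt k hNpos⟩
      push_cast
      linarith
  refine ⟨q, hmono, hNpos, ?_, ?_, ?_⟩
  · simp only [hq]
    have h1 : (⟨N % N, Nat.mod_lt N hNpos⟩ : Fin N) = ⟨0 % N, Nat.mod_lt 0 hNpos⟩ := by
      apply Fin.ext
      simp
    rw [h1, Nat.div_self hNpos, Nat.zero_div]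
    push_cast
    ring
  · simp only [hq]
    have h1 : (⟨(N + 1) % N, Nat.mod_lt (N + 1) hNpos⟩ : Fin N) = ⟨1 % N, Nat.mod_lt 1 hNpos⟩ := by
      apply Fin.ext
      simp
    rw [h1, Nat.add_div_left _ hNpos]
    push_cast
    ring
  · intro k hk θ hθ hJ
    have hq0 : q 0 = p₀ := by
      simp only [hq, Nat.zero_div, Nat.cast_zero, zero_mul, add_zero]
      rw [← he0]
      congr 1
    have hqN : q N = p₀ + 2 * Real.pi := by
      simp only [hq]
      have h1 : (⟨N % N, Nat.mod_lt N hNpos⟩ : Fin N) = ⟨0, hNpos⟩ := by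
        apply Fin.ext
        simp
      rw [h1, he0, Nat.div_self hNpos]
      push_cast
      ring
    have h1 : q 0 ≤ q k := hmono.monotone (Nat.zero_le _)
    have h2 : q (k + 1) ≤ q N := hmono.monotone (Nat.succ_le_of_lt hk)
    have hθE : θ ∈ E := by
      refine ⟨⟨by linarith [hθ.1], by linarith [hθ.2]⟩, hJ, ?_⟩
      simp only [mem_sphere]
      exact polar_dist a hs θ
    obtain ⟨i, hi⟩ := hsurj θ hθE
    have hqi : q i = θ := by
      simp only [hq]
      rw [Nat.div_eq_of_lt i.2, Nat.cast_zero, zero_mul, add_zero, ← hi]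
      congr 1
      exact Fin.ext (Nat.mod_eq_of_lt i.2)
    rw [← hqi] at hθ
    have h3 := hmono.lt_iff_lt.1 hθ.1
    have h4 := hmono.lt_iff_lt.1 hθ.2
    omega

theorem comp_cone {Ω : Set ℂ} {u : ℂ → ℝ} {g j : ℂ → ℂ} (h : MSMin Ω u g j) {a : ℂ} {R : ℝ}
    (hR : ball a R ⊆ Ω) :
    ∀ᵐ s ∂(volume.restrict (Ioo 0 R)), (jumpSet Ω u ∩ sphere a s).Finite →
      Dq g a s + Lq Ω u a s ≤ s * (jumpSet Ω u ∩ sphere a s).ncard + 2 * s * Tq g a s := by
  have hfin : ∀ s < R, IntegrableOn (fun x => ‖g x‖ ^ 2) (ball a s) := fun s hs =>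
    (h.fin_g _ (isCompact_closedBall a s) ((closedBall_subset_ball hs).trans hR)).mono_set
      ball_subset_closedBall
  filter_upwards [comp_homog h hR, glue_gen h.toSBVData hR, slice_arc h.toSBVData hR,
    (Dq_deriv h.meas_g hfin).1, ae_restrict_mem measurableSet_Ioo] with s hhom hglue hslice hder hs
  intro hJfin
  have hpi := Real.pi_pos
  have hT0 : 0 ≤ Tq g a s := by
    unfold Tq
    exact mul_nonneg hs.1.le (integral_nonneg fun θ => sq_nonneg _)
  rcases (jumpSet Ω u ∩ sphere a s).eq_empty_or_nonempty with hemp | hne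
  · have h1 := hhom hemp
    rw [hemp, Set.ncard_empty]
    have h2 : 0 ≤ s * Tq g a s := mul_nonneg hs.1.le hT0
    push_cast
    linarith
  obtain ⟨q, hq, hN, hqN, hqN1, hqJ⟩ := cone_angles hs.1 hJfin hne
  set N := (jumpSet Ω u ∩ sphere a s).ncard with hNdef
  set G := Gq g a s with hG
  -- properties of `G`
  have hpc : Continuous fun θ => pc a s θ :=
    (comp0_continuous_pc a).comp (Continuous.prodMk continuous_const continuous_id)
  have hGm : Measurable G := by
    have h1 : Measurable fun θ => (inner ℝ (g (pc a s θ)) (et θ) : ℝ) :=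
      (h.meas_g.comp hpc.measurable).inner comp0_continuous_et.measurable
    exact h1.const_mul s
  have hper : Function.Periodic G (2 * Real.pi) := comp0_Gq_periodic g a s
  have hper2 : Function.Periodic (fun θ => G θ ^ 2) (2 * Real.pi) := fun θ => by
    simp only
    rw [hper θ]
  have e0 : -Real.pi + 2 * Real.pi = Real.pi := by ring
  have hGle : ∀ θ, (G θ) ^ 2 ≤ s ^ 2 * ‖g (pc a s θ)‖ ^ 2 := by
    intro θ
    have h2 := comp0_inner_le (g (pc a s θ)) θ
    have e : G θ ^ 2 = s ^ 2 * (inner ℝ (g (pc a s θ)) (et θ)) ^ 2 := by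
      rw [hG]; unfold Gq; ring
    rw [e]
    exact mul_le_mul_of_nonneg_left h2 (sq_nonneg _)
  have hGi : IntervalIntegrable G volume (-Real.pi) (-Real.pi + 2 * Real.pi) := by
    rw [e0, intervalIntegrable_iff_integrableOn_Ioo_of_le (by linarith)]
    have h1 : IntegrableOn (fun θ => s ^ 2 * ‖g (pc a s θ)‖ ^ 2 + 1) (Ioo (-Real.pi) Real.pi) := by
      refine (hder.2.const_mul _).add ?_
      simp
    refine Integrable.mono' h1 hGm.aestronglyMeasurable (Eventually.of_forall fun θ => ?_)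
    have h3 := hGle θ
    rw [Real.norm_eq_abs]
    nlinarith [sq_abs (G θ), abs_nonneg (G θ)]
  have hGi2 : IntervalIntegrable (fun θ => G θ ^ 2) volume (-Real.pi) (-Real.pi + 2 * Real.pi) := by
    rw [e0, intervalIntegrable_iff_integrableOn_Ioo_of_le (by linarith)]
    refine Integrable.mono' (hder.2.const_mul (s ^ 2)) (hGm.pow_const 2).aestronglyMeasurable
      (Eventually.of_forall fun θ => ?_)
    rw [Real.norm_of_nonneg (sq_nonneg _)]
    exact hGle θ
  have hGall : ∀ x y, IntervalIntegrable G volume x y := fun x y =>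
    hper.intervalIntegrable (by linarith) hGi x y
  have hG2all : ∀ x y, IntervalIntegrable (fun θ => G θ ^ 2) volume x y := fun x y =>
    hper2.intervalIntegrable (by linarith) hGi2 x y
  -- constants on the arcs
  have hex : ∀ k, ∃ c m : ℝ, k < N → (∀ᵐ θ ∂(volume.restrict (Ioo (q k) (q (k + 1)))),
      u (pc a s θ) = c + ∫ t in q k..θ, G t) ∧
      ∫ θ in q k..q (k + 1), ((c + ∫ t in q k..θ, G t) - m) ^ 2 ≤
        4 * ∫ θ in q k..q (k + 1), G θ ^ 2 := by
    intro k
    by_cases hk : k < N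
    · have hlt : q k < q (k + 1) := hq (Nat.lt_succ_self k)
      obtain ⟨c, hc⟩ := hslice (q k) (q (k + 1)) hlt (hqJ k hk)
      have hle : q (k + 1) ≤ q k + 2 * Real.pi := by
        have h1 : q (k + 1) ≤ q N := hq.monotone (Nat.succ_le_of_lt hk)
        have h2 : q 0 ≤ q k := hq.monotone (Nat.zero_le _)
        linarith
      obtain ⟨m, hm⟩ := cone_wirt hlt hle (hGall _ _) hGm (hG2all _ _) c
      exact ⟨c, m, fun _ => ⟨hc, hm⟩⟩
    · exact ⟨0, 0, fun h' => absurd h' hk⟩
  choose c m hcm using hex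
  set c' : ℕ → ℝ := fun k => c (k % N) with hc'
  set m' : ℕ → ℝ := fun k => m (k % N) with hm'
  have hcc : ∀ k < N, c' k = c k := fun k hk => by simp only [hc', Nat.mod_eq_of_lt hk]
  have hmm : ∀ k < N, m' k = m k := fun k hk => by simp only [hm', Nat.mod_eq_of_lt hk]
  have hyp : ConeHyp N q c' m' G :=
    { mono := hq
      pos := hN
      qN := hqN
      qN1 := hqN1
      cN := by simp only [hc', Nat.mod_self, Nat.zero_mod]
      mN := by simp only [hm', Nat.mod_self, Nat.zero_mod]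
      Gm := hGm
      Gper := hper
      Gi := hGall }
  refine cone_main h hs.1 ((closedBall_subset_ball hs.2).trans hR) hglue hyp hG2all ?_ ?_
  · intro k hk
    have h1 := (hcm k hk).2
    unfold cone_Fk
    rw [hcc k hk, hmm k hk]
    exact h1
  · refine ae_restrict_of_ae (cone_ae_periodic (P := fun θ => u (pc a s θ) =
      cone_W a s N q c' m' G (pc a s θ)) (fun θ => by rw [cone_pc_periodic]) (p := q 0) ?_)
    rw [← hqN]
    have hall : ∀ k < N, ∀ᵐ θ, θ ∈ Ioo (q k) (q (k + 1)) → u (pc a s θ) =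
        cone_W a s N q c' m' G (pc a s θ) := by
      intro k hk
      have h1 := (hcm k hk).1
      rw [ae_restrict_iff' measurableSet_Ioo] at h1
      filter_upwards [h1] with θ hθ hθm
      rw [hθ hθm, hyp.W_pc a s hk.le ⟨hθm.1, hθm.2.le⟩ hs.1, div_self hs.1.ne', Real.sqrt_one]
      unfold cone_Fk
      rw [hcc k hk]
      ring
    have hall2 : ∀ᵐ θ, ∀ k < N, θ ∈ Ioo (q k) (q (k + 1)) → u (pc a s θ) =
        cone_W a s N q c' m' G (pc a s θ) := by
      rw [ae_all_iff]
      intro k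
      by_cases hk : k < N
      · filter_upwards [hall k hk] with θ hθ _
        exact hθ
      · exact Eventually.of_forall fun θ h' => absurd h' hk
    have hne2 : ∀ᵐ θ : ℝ, ∀ k, θ ≠ q k := by
      rw [ae_all_iff]
      intro k
      rw [ae_iff]
      simp
    rw [ae_restrict_iff' measurableSet_Ioo]
    filter_upwards [hall2, hne2] with θ h1 h2 h3
    obtain ⟨k, hk, hkm⟩ := cone_exists N ⟨h3.1, h3.2.le⟩
    exact h1 k hk ⟨hkm.1, lt_of_le_of_ne hkm.2 (h2 (k + 1))⟩

end Pool.Agent.MP099f24
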