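import Pool.Agent.Lib.MP_099f24_an.SD.Defs
import Pool.Agent.Lib.MP_099f24_an.SD.Radial
import Pool.Agent.Lib.MP_099f24_an.SD.Polar
import Pool.Agent.Lib.MP_099f24_an.SD.Meas
import Pool.Agent.Lib.MP_099f24_an.SD.Meass
import Pool.Agent.Lib.MP_099f24_an.SD.JRep
import Pool.Agent.Lib.MP_099f24_an.SD.Fvar
import Pool.Agent.Lib.MP_099f24_an.SD.Coareaw

/-!
# MP_099f24_an, sharp densities: module DILJ (dilation inequality with the jump term)
-/

namespace Pool.Agent.MP099f24

open MeasureTheory Filter Topology Set Metric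
open scoped ENNReal ContDiff

/-- The radial field `X = ψ(ρ)(x - a)`, `ψ(ρ) = ∫_ρ^b ζ`. -/
noncomputable def dilj_X (ζ : ℝ → ℝ) (b : ℝ) (a x : ℂ) : ℂ := (-radPsi ζ b (dist x a)) • (x - a)

theorem dilj_X_contDiff {ζ : ℝ → ℝ} (hζ : ContDiff ℝ ∞ ζ) {b δ : ℝ} (hδ : 0 < δ)
    (h : ∀ t, ζ t ≠ 0 → δ < t) (a : ℂ) : ContDiff ℝ ∞ (dilj_X ζ b a) := by
  have h1 := rad_contDiff (radPsi_contDiff hζ b) hδ (fun r hr => radPsi_left hδ.le h hr) a
  exact h1.neg.smul (contDiff_id.sub contDiff_const)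

theorem dilj_X_fderiv {ζ : ℝ → ℝ} (hζ : ContDiff ℝ ∞ ζ) {b δ : ℝ} (hδ : 0 < δ)
    (h : ∀ t, ζ t ≠ 0 → δ < t) (a x v : ℂ) :
    fderiv ℝ (dilj_X ζ b a) x v = (-radPsi ζ b (dist x a)) • v +
      (-(ζ (dist x a) / dist x a * inner ℝ (x - a) v)) • (x - a) := by
  have h1 := rad_hasFDerivAt hδ (fun r hr => radPsi_left hδ.le h hr)
    (fun r => radPsi_hasDerivAt hζ.continuous b r) a x
  have h2 : HasFDerivAt (fun y : ℂ => y - a) (ContinuousLinearMap.id ℝ ℂ) x :=
    (hasFDerivAt_id x).sub_const a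
  have h3 := h1.neg.smul h2
  have h4 : HasFDerivAt (dilj_X ζ b a) _ x := h3
  rw [h4.fderiv]
  rfl

lemma dilj_inner (z w : ℂ) : inner ℝ z w = z.re * w.re + z.im * w.im := by
  rw [Complex.inner]; simp; ring

lemma dilj_normSq (z : ℂ) : ‖z‖ ^ 2 = z.re ^ 2 + z.im ^ 2 := by
  rw [← Complex.normSq_eq_norm_sq, Complex.normSq_apply]; ring

theorem dilj_X_inner {ζ : ℝ → ℝ} (hζ : ContDiff ℝ ∞ ζ) {b δ : ℝ} (hδ : 0 < δ)
    (h : ∀ t, ζ t ≠ 0 → δ < t) (a x v : ℂ) :
    inner ℝ (fderiv ℝ (dilj_X ζ b a) x v) v = (-radPsi ζ b (dist x a)) * ‖v‖ ^ 2 -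
      ζ (dist x a) / dist x a * inner ℝ (x - a) v ^ 2 := by
  rw [dilj_X_fderiv hζ hδ h, inner_add_left, real_inner_smul_left, real_inner_smul_left,
    real_inner_self_eq_norm_sq]
  ring

theorem dilj_X_dv {ζ : ℝ → ℝ} (hζ : ContDiff ℝ ∞ ζ) {b δ : ℝ} (hδ : 0 < δ)
    (h : ∀ t, ζ t ≠ 0 → δ < t) (a x : ℂ) :
    dv (dilj_X ζ b a) x = 2 * (-radPsi ζ b (dist x a)) - ζ (dist x a) * dist x a := by
  rw [dv, dilj_X_fderiv hζ hδ h, dilj_X_fderiv hζ hδ h, dilj_inner, dilj_inner]
  have h1 : dist x a ^ 2 = (x - a).re ^ 2 + (x - a).im ^ 2 := by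
    rw [dist_eq_norm, dilj_normSq]
  have h2 : ζ (dist x a) * dist x a = ζ (dist x a) / dist x a * dist x a ^ 2 := by
    rcases eq_or_ne (dist x a) 0 with h0 | h0
    · rw [h0]; simp
    · field_simp
  rw [h2, h1]
  simp
  ring

lemma dilj_int {f : ℂ → ℝ} {a : ℂ} {b : ℝ} (hf : IntegrableOn f (closedBall a b)) {η : ℝ → ℝ}
    (hη : Continuous η) (hηc : HasCompactSupport η) (hs : ∀ t, η t ≠ 0 → t < b) :
    Integrable (fun x => η (dist x a) * f x) := by
  have h1 : IntegrableOn (fun x => η (dist x a) * f x) (closedBall a b) := by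
    obtain ⟨B, hB⟩ := hη.bounded_above_of_compact_support hηc
    exact hf.bdd_mul (c := B) (hη.comp (continuous_id.dist continuous_const)).aestronglyMeasurable
      (Eventually.of_forall fun x => hB _)
  rw [integrableOn_iff_integrable_of_support_subset] at h1
  · exact h1
  · intro x hx
    rw [mem_closedBall]
    by_contra hcon
    apply hx
    by_cases h2 : η (dist x a) = 0
    · simp [h2]
    · exact absurd (hs _ h2) (by linarith)

/-- The volume term of the first variation. -/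
theorem dilj_volume {Ω : Set ℂ} {u : ℂ → ℝ} {g j : ℂ → ℂ} (h : SBVData Ω u g j) {a : ℂ} {b : ℝ}
    (hb : 0 < b) (hK : closedBall a b ⊆ Ω) {ζ : ℝ → ℝ}
    (hζ : ContDiff ℝ ∞ ζ) (hc : HasCompactSupport ζ) (hs : tsupport ζ ⊆ Ioo 0 b) :
    ∫ x in tsupport (dilj_X ζ b a), (‖g x‖ ^ 2 * dv (dilj_X ζ b a) x -
      2 * inner ℝ (fderiv ℝ (dilj_X ζ b a) x (g x)) (g x)) =
      - ∫ s in Ioo 0 b, ζ s * (s * (Tq g a s - Vq g a s)) := by
  obtain ⟨δ, R'', hδ, hδR, hRb, hζs⟩ := rad_support hc hb hs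
  have hfin : IntegrableOn (fun x => ‖g x‖ ^ 2) (closedBall a b) :=
    h.fin_g _ (isCompact_closedBall a b) hK
  have hfin' : ∀ s < b, IntegrableOn (fun x => ‖g x‖ ^ 2) (ball a s) := fun s hs =>
    hfin.mono_set (ball_subset_closedBall.trans (closedBall_subset_closedBall hs.le))
  have hfin2 : IntegrableOn (fun x => inner ℝ (g x) (x - a) ^ 2) (closedBall a b) := by
    refine Integrable.mono' (hfin.const_mul (b ^ 2)) ?_ ?_
    · exact ((h.meas_g.inner (measurable_id.sub measurable_const)).pow_const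
        2).aestronglyMeasurable
    · filter_upwards [ae_restrict_mem measurableSet_closedBall] with x hx
      rw [Real.norm_eq_abs, abs_of_nonneg (sq_nonneg _), ← sq_abs]
      have h1 : |inner ℝ (g x) (x - a)| ≤ ‖g x‖ * b := by
        refine (abs_real_inner_le_norm _ _).trans ?_
        gcongr
        rw [← dist_eq_norm]
        exact hx
      calc _ ≤ (‖g x‖ * b) ^ 2 := by gcongr
        _ = _ := by ring
  rw [setIntegral_eq_integral_of_forall_compl_eq_zero]
  swap
  · intro x hx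
    have h1 : fderiv ℝ (dilj_X ζ b a) x = 0 := fderiv_of_notMem_tsupport ℝ hx
    rw [dv, h1]
    simp
  set ζ₁ : ℝ → ℝ := fun t => ζ t * t with hζ₁
  set ζ₂ : ℝ → ℝ := fun t => ζ t / max t δ with hζ₂
  have hζ₂eq : ∀ t, ζ₂ t = ζ t / t := by
    intro t
    rw [hζ₂]
    by_cases h1 : ζ t = 0
    · simp [h1]
    · simp only [max_eq_left (hζs t h1).1.le]
  have hc1 : Continuous ζ₁ := hζ.continuous.mul continuous_id
  have hc2 : Continuous ζ₂ := hζ.continuous.div (continuous_id.max continuous_const)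
    fun t => (lt_of_lt_of_le hδ (le_max_right _ _)).ne'
  have hcc1 : HasCompactSupport ζ₁ := hc.mul_right
  have hcc2 : HasCompactSupport ζ₂ := by
    have : ζ₂ = fun t => ζ t * (max t δ)⁻¹ := by funext t; rw [hζ₂]; simp only [div_eq_mul_inv]
    rw [this]
    exact hc.mul_right
  have hts : ∀ η : ℝ → ℝ, (∀ t, η t ≠ 0 → ζ t ≠ 0) → tsupport η ⊆ Ioo 0 b := fun η hη =>
    (closure_mono fun t ht => hη t ht).trans hs
  have hts1 := hts ζ₁ fun t ht => left_ne_zero_of_mul ht
  have hts2 := hts ζ₂ fun t ht h1 => ht (by rw [hζ₂eq, h1, zero_div])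
  obtain ⟨r1, -, i1, i2⟩ := radial_weight h.meas_g hfin' hc1 hcc1 hts1
  obtain ⟨-, r2, -, -⟩ := radial_weight h.meas_g hfin' hc2 hcc2 hts2
  have hpt : ∀ x, ‖g x‖ ^ 2 * dv (dilj_X ζ b a) x -
      2 * inner ℝ (fderiv ℝ (dilj_X ζ b a) x (g x)) (g x) =
      -(ζ₁ (dist x a) * ‖g x‖ ^ 2) + 2 * (ζ₂ (dist x a) * inner ℝ (g x) (x - a) ^ 2) := by
    intro x
    rw [dilj_X_dv hζ hδ (fun t ht => (hζs t ht).1), dilj_X_inner hζ hδ (fun t ht => (hζs t ht).1),
      hζ₂eq, real_inner_comm (g x) (x - a)]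
    simp only [hζ₁]
    ring
  simp_rw [hpt]
  rw [integral_add, integral_neg, integral_const_mul, r1, r2]
  rotate_left
  · exact (dilj_int hfin hc1 hcc1 fun t ht => (hts1 (subset_tsupport _ ht)).2).neg
  · exact (dilj_int hfin2 hc2 hcc2 fun t ht => (hts2 (subset_tsupport _ ht)).2).const_mul 2
  have e1 : ∫ s in Ioo 0 b, ζ₁ s * (Tq g a s + Vq g a s) =
      (∫ s in Ioo 0 b, ζ₁ s * Tq g a s) + ∫ s in Ioo 0 b, ζ₁ s * Vq g a s := by
    rw [← integral_add i1 i2]
    congr 1
    funext s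
    ring
  have e2 : ∫ s in Ioo 0 b, ζ₂ s * (s ^ 2 * Vq g a s) = ∫ s in Ioo 0 b, ζ₁ s * Vq g a s := by
    refine setIntegral_congr_fun measurableSet_Ioo fun s hs => ?_
    simp only [hζ₂eq, hζ₁]
    have : s ≠ 0 := hs.1.ne'
    field_simp
  have e3 : ∫ s in Ioo 0 b, ζ s * (s * (Tq g a s - Vq g a s)) =
      (∫ s in Ioo 0 b, ζ₁ s * Tq g a s) - ∫ s in Ioo 0 b, ζ₁ s * Vq g a s := by
    rw [← integral_sub i1 i2]
    congr 1
    funext s
    simp only [hζ₁]
    ring
  rw [e1, e2, e3]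
  ring

lemma dilj_layer {ζ : ℝ → ℝ} (hζ : Continuous ζ) {b r : ℝ} (hr : 0 ≤ r) (hrb : r ≤ b) :
    -radPsi ζ b r = ∫ t in Ioo 0 b, if r < t then ζ t else 0 := by
  have h1 : -radPsi ζ b r = ∫ t in r..b, ζ t := by
    rw [radPsi, intervalIntegral.integral_interval_sub_left (hζ.intervalIntegrable _ _)
      (hζ.intervalIntegrable _ _), intervalIntegral.integral_symm r b, neg_neg]
  rw [h1, intervalIntegral.integral_of_le hrb, integral_Ioc_eq_integral_Ioo]
  have h2 : (fun t => if r < t then ζ t else 0) = (Ioi r).indicator ζ := by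
    funext t
    simp [indicator, mem_Ioi]
  rw [h2, setIntegral_indicator measurableSet_Ioi]
  congr 2
  ext t
  simp only [mem_Ioo, mem_inter_iff, mem_Ioi]
  constructor
  · rintro ⟨h3, h4⟩
    exact ⟨⟨lt_of_le_of_lt hr h3, h4⟩, h3⟩
  · rintro ⟨⟨h3, h4⟩, h5⟩
    exact ⟨h5, h4⟩

/-- Layer cake for the length of the discontinuity set. -/
theorem dilj_fubini {S : Set ℂ} {a : ℂ} {b : ℝ} (hS : MeasurableSet S)
    (hfin : (μH[1] : Measure ℂ) (S ∩ closedBall a b) < ⊤) {ζ : ℝ → ℝ}
    (hζ : Continuous ζ) (hc : HasCompactSupport ζ) :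
    ∫ x in S ∩ closedBall a b, -radPsi ζ b (dist x a) ∂(μH[1] : Measure ℂ) =
      ∫ s in Ioo 0 b, ζ s * ((μH[1] : Measure ℂ) (S ∩ ball a s)).toReal := by
  set H : Measure ℂ := μH[1] with hH
  have hSm : MeasurableSet (S ∩ closedBall a b) := hS.inter measurableSet_closedBall
  have : IsFiniteMeasure (H.restrict (S ∩ closedBall a b)) := ⟨by
    rw [Measure.restrict_apply_univ]; exact hfin⟩
  obtain ⟨B, hB⟩ := hζ.bounded_above_of_compact_support hc
  have h1 : ∫ x in S ∩ closedBall a b, -radPsi ζ b (dist x a) ∂H =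
      ∫ x in S ∩ closedBall a b, (∫ t in Ioo 0 b, if dist x a < t then ζ t else 0) ∂H :=
    setIntegral_congr_fun hSm fun x hx => dilj_layer hζ dist_nonneg hx.2
  rw [h1, integral_integral_swap]
  · refine setIntegral_congr_fun measurableSet_Ioo fun t ht => ?_
    have h2 : (fun x : ℂ => if dist x a < t then ζ t else 0) =
        (ball a t).indicator fun _ => ζ t := by
      funext x
      simp [indicator, mem_ball]
    rw [h2, setIntegral_indicator measurableSet_ball, setIntegral_const, smul_eq_mul, mul_comm]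
    congr 1
    rw [Measure.real, inter_assoc, inter_eq_right.2
      (ball_subset_closedBall.trans (closedBall_subset_closedBall ht.2.le))]
  · refine Integrable.mono' (integrable_const B) ?_ ?_
    · refine Measurable.aestronglyMeasurable ?_
      have h3 : MeasurableSet {p : ℂ × ℝ | dist p.1 a < p.2} :=
        measurableSet_lt (measurable_fst.dist measurable_const) measurable_snd
      exact Measurable.ite h3 (hζ.measurable.comp measurable_snd) measurable_const
    · refine Eventually.of_forall fun p => ?_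
      simp only [Function.uncurry]
      split_ifs
      · exact hB _
      · rw [norm_zero]
        exact (norm_nonneg _).trans (hB 0)

/-- `Λ`-integrand: bounds. -/
lemma dilj_cosf_nonneg (j : ℂ → ℂ) (a x : ℂ) : 0 ≤ cosf j a x := by
  unfold cosf
  positivity

lemma dilj_cosf_le_one (j : ℂ → ℂ) (a x : ℂ) : cosf j a x ≤ 1 := by
  unfold cosf
  have h1 : |inner ℝ (x - a) (Complex.I * j x)| ≤ ‖x - a‖ * ‖j x‖ := by
    refine (abs_real_inner_le_norm _ _).trans ?_
    rw [norm_mul, Complex.norm_I, one_mul]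
  exact div_le_one_of_le₀ h1 (by positivity)

lemma dilj_cosf_measurable {j : ℂ → ℂ} (hj : Measurable j) (a : ℂ) : Measurable (cosf j a) := by
  unfold cosf
  have h1 : Measurable (fun x : ℂ => x - a) := measurable_id.sub measurable_const
  exact ((h1.inner (hj.const_mul _)).abs).div (h1.norm.mul hj.norm)

lemma dilj_tdiv {ζ : ℝ → ℝ} (hζ : ContDiff ℝ ∞ ζ) {b δ : ℝ} (hδ : 0 < δ)
    (h : ∀ t, ζ t ≠ 0 → δ < t) (a : ℂ) (j : ℂ → ℂ) {x : ℂ} (hx : j x ≠ 0) :
    tdiv (dilj_X ζ b a) j x = -radPsi ζ b (dist x a) -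
      ζ (dist x a) * (dist x a * cosf j a x ^ 2) := by
  unfold tdiv cosf
  rw [dilj_X_inner hζ hδ h, norm_mul, Complex.norm_I, one_mul, ← dist_eq_norm, div_pow, sq_abs]
  have hj : ‖j x‖ ≠ 0 := norm_ne_zero_iff.2 hx
  rcases eq_or_ne (dist x a) 0 with h0 | h0
  · rw [h0]
    simp
    field_simp
  · field_simp

/-- The inequality of the first variation for radial fields. -/
theorem dilj_test {Ω : Set ℂ} {u : ℂ → ℝ} {g j : ℂ → ℂ} (h : MSMin Ω u g j) {a : ℂ} {b : ℝ}
    (hb : 0 < b) (hK : closedBall a b ⊆ Ω) {C : Set ℂ} (hCJ : C ⊆ jumpSet Ω u ∩ closedBall a b)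
    (hCm : MeasurableSet C) (hCnull : (μH[1] : Measure ℂ) ((jumpSet Ω u ∩ closedBall a b) \ C) = 0)
    {j' : ℂ → ℂ} (hj'm : Measurable j') (hj' : ∀ x ∈ C, j' x = j x) {ζ : ℝ → ℝ}
    (hζ : ContDiff ℝ ∞ ζ) (hc : HasCompactSupport ζ) (hs : tsupport ζ ⊆ Ioo 0 b)
    (h0 : ∀ t, 0 ≤ ζ t) :
    (∫ s in Ioo 0 b, ζ s * (s * (Tq g a s - Vq g a s))) +
      ∫ x in C, ζ (dist x a) * (dist x a * cosf j a x ^ 2) ∂(μH[1] : Measure ℂ) ≤
      ∫ s in Ioo 0 b, ζ s * Lq Ω u a s := by
  set H : Measure ℂ := μH[1] with hH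
  obtain ⟨δ, R'', hδ, hδR, hRb, hζs⟩ := rad_support hc hb hs
  have hζ1 : ∀ t, ζ t ≠ 0 → δ < t := fun t ht => (hζs t ht).1
  set X := dilj_X ζ b a with hXdef
  have hX : ContDiff ℝ ∞ X := dilj_X_contDiff hζ hδ hζ1 a
  have hXs : tsupport X ⊆ closedBall a R'' := by
    refine closure_minimal ?_ isClosed_closedBall
    intro x hx
    rw [mem_closedBall]
    by_contra hcon
    apply hx
    rw [hXdef, dilj_X, radPsi_right hζ.continuous hRb.le (fun t ht => (hζs t ht).2)
      (not_le.1 hcon).le]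
    simp
  have hXc : HasCompactSupport X :=
    HasCompactSupport.of_support_subset_isCompact (isCompact_closedBall a R'')
      ((subset_tsupport X).trans hXs)
  have hXb : tsupport X ⊆ closedBall a b := hXs.trans (closedBall_subset_closedBall hRb.le)
  set lam : ℂ → ℝ := fun x => -radPsi ζ b (dist x a) with hlam
  have hl : Continuous lam := by
    have h1 := (radPsi_contDiff hζ b).continuous
    exact (h1.comp (continuous_id.dist continuous_const)).neg
  have hbd : ∀ x v, inner ℝ (fderiv ℝ X x v) v ≤ lam x * ‖v‖ ^ 2 := by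
    intro x v
    rw [dilj_X_inner hζ hδ hζ1]
    have h1 : 0 ≤ ζ (dist x a) / dist x a * inner ℝ (x - a) v ^ 2 := by
      have := h0 (dist x a)
      positivity
    linarith
  have hfv := first_variation h hX hXc (hXb.trans hK) hl hbd
  rw [dilj_volume h.toSBVData hb hK hζ hc hs] at hfv
  -- measurability and finiteness
  have hSm := measurableSet_discSet h.isOpen h.intu
  set S := discSet Ω u with hSdef
  have hJS : jumpSet Ω u ⊆ S := jrep_jump_subset h.isOpen h.intu
  have hCS : C ⊆ S ∩ closedBall a b := fun x hx => ⟨hJS (hCJ hx).1, (hCJ hx).2⟩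
  have hfin : H (S ∩ closedBall a b) < ⊤ := h.fin_S _ (isCompact_closedBall a b) hK
  have hCfin : H C < ⊤ := (measure_mono hCS).trans_lt hfin
  have hjne : ∀ x ∈ C, j x ≠ 0 := fun x hx =>
    (jrep_mem_jump_iff h.jf (hK (hCJ hx).2)).1 (hCJ hx).1
  have hlamS : IntegrableOn lam (S ∩ closedBall a b) H := by
    obtain ⟨B, hB⟩ := (isCompact_closedBall a b).exists_bound_of_continuousOn hl.continuousOn
    refine Integrable.mono' (integrableOn_const hfin.ne : IntegrableOn (fun _ => B) _ H)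
      hl.aestronglyMeasurable ?_
    filter_upwards [ae_restrict_mem (hSm.inter measurableSet_closedBall)] with x hx
    exact hB x hx.2
  -- the jump term
  have hcosi : IntegrableOn (fun x => ζ (dist x a) * (dist x a * cosf j a x ^ 2)) C H := by
    obtain ⟨B, hB⟩ := hζ.continuous.bounded_above_of_compact_support hc
    have h1 : IntegrableOn (fun x => ζ (dist x a) * (dist x a * cosf j' a x ^ 2)) C H := by
      refine Integrable.mono' (integrableOn_const hCfin.ne : IntegrableOn (fun _ => B * b) _ H) ?_ ?_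
      · have h2 : Measurable (fun x : ℂ => dist x a) := measurable_id.dist measurable_const
        exact ((hζ.continuous.measurable.comp h2).mul
          (h2.mul ((dilj_cosf_measurable hj'm a).pow_const 2))).aestronglyMeasurable
      · filter_upwards [ae_restrict_mem hCm] with x hx
        have h3 : dist x a ≤ b := (hCJ hx).2
        have h4 := dilj_cosf_nonneg j' a x
        have h5 := dilj_cosf_le_one j' a x
        rw [norm_mul]
        have h6 : ‖dist x a * cosf j' a x ^ 2‖ ≤ b := by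
          rw [Real.norm_eq_abs, abs_of_nonneg (by positivity)]
          have h7 : cosf j' a x ^ 2 ≤ 1 := pow_le_one₀ h4 h5
          calc dist x a * cosf j' a x ^ 2 ≤ dist x a * 1 := by gcongr
            _ ≤ b := by rw [mul_one]; exact h3
        have h8 : 0 ≤ B := (norm_nonneg _).trans (hB 0)
        exact mul_le_mul (hB _) h6 (norm_nonneg _) h8
    refine h1.congr_fun ?_ hCm
    intro x hx
    simp only [cosf, hj' x hx]
  have hI2 : ∫ x in tsupport X, tdiv X j x ∂H = (∫ x in C, lam x ∂H) -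
      ∫ x in C, ζ (dist x a) * (dist x a * cosf j a x ^ 2) ∂H := by
    have e1 : ∫ x in tsupport X, tdiv X j x ∂H = ∫ x in closedBall a b, tdiv X j x ∂H := by
      symm
      refine setIntegral_eq_of_subset_of_forall_sdiff_eq_zero measurableSet_closedBall hXb ?_
      intro x hx
      have h1 : fderiv ℝ X x = 0 := fderiv_of_notMem_tsupport ℝ hx.2
      rw [tdiv, h1]
      simp
    have e2 : ∫ x in closedBall a b, tdiv X j x ∂H = ∫ x in C, tdiv X j x ∂H := by
      refine setIntegral_eq_of_subset_of_ae_sdiff_eq_zero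
        measurableSet_closedBall.nullMeasurableSet (fun x hx => (hCJ hx).2) ?_
      rw [ae_iff]
      refine measure_mono_null ?_ hCnull
      intro x hx
      simp only [mem_ofPred_eq, Classical.not_imp] at hx
      obtain ⟨⟨hxK, hxC⟩, hne⟩ := hx
      refine ⟨⟨?_, hxK⟩, hxC⟩
      rw [jrep_mem_jump_iff h.jf (hK hxK)]
      intro hj0
      apply hne
      simp [tdiv, hj0]
    rw [e1, e2, ← integral_sub (hlamS.mono_set hCS) hcosi]
    refine setIntegral_congr_fun hCm fun x hx => ?_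
    exact dilj_tdiv hζ hδ hζ1 a j (hjne x hx)
  -- the term on the rest of the discontinuity set
  have hI3 : ∫ x in (S \ jumpSet Ω u) ∩ tsupport X, lam x ∂H =
      ∫ x in (S ∩ closedBall a b) \ C, lam x ∂H := by
    symm
    refine setIntegral_eq_of_subset_of_ae_sdiff_eq_zero
      ((hSm.inter measurableSet_closedBall).diff hCm).nullMeasurableSet ?_ ?_
    · rintro x ⟨⟨hxS, hxJ⟩, hxX⟩
      exact ⟨⟨hxS, hXb hxX⟩, fun hxC => hxJ (hCJ hxC).1⟩
    · rw [ae_iff]
      have hnull : H ((jumpSet Ω u ∩ closedBall a b) \ C ∪ {a}) = 0 := by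
        have h1 : H {a} = 0 := by
          have := Measure.nullSingletonClass_hausdorff ℂ (d := 1) one_pos
          exact measure_singleton a
        exact measure_union_null hCnull h1
      refine measure_mono_null ?_ hnull
      intro x hx
      simp only [mem_ofPred_eq, Classical.not_imp] at hx
      obtain ⟨⟨⟨⟨hxS, hxK⟩, hxC⟩, hx2⟩, hne⟩ := hx
      by_cases hxJ : x ∈ jumpSet Ω u
      · exact Or.inl ⟨⟨hxJ, hxK⟩, hxC⟩
      · right
        have hxX : x ∉ tsupport X := fun hx3 => hx2 ⟨⟨hxS, hxJ⟩, hx3⟩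
        have h1 : X x = 0 := image_eq_zero_of_notMem_tsupport hxX
        rw [hXdef, dilj_X, smul_eq_zero] at h1
        rcases h1 with h1 | h1
        · exact absurd h1 hne
        · exact sub_eq_zero.1 h1
  rw [hI2, hI3] at hfv
  have hsum : (∫ x in C, lam x ∂H) + ∫ x in (S ∩ closedBall a b) \ C, lam x ∂H =
      ∫ s in Ioo 0 b, ζ s * Lq Ω u a s := by
    have h1 := integral_inter_add_sdiff hCm hlamS
    rw [inter_eq_right.2 hCS] at h1
    rw [h1]
    exact dilj_fubini hSm hfin hζ.continuous hc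
  linarith

lemma dilj_Lq_mono {Ω : Set ℂ} {u : ℂ → ℝ} {a : ℂ} {b : ℝ}
    (hfin : (μH[1] : Measure ℂ) (discSet Ω u ∩ closedBall a b) < ⊤) :
    MonotoneOn (Lq Ω u a) (Icc 0 b) := by
  intro s hs t ht hst
  rw [Lq, Lq]
  refine ENNReal.toReal_mono ?_ (measure_mono (inter_subset_inter_right _ (ball_subset_ball hst)))
  refine ((measure_mono (inter_subset_inter_right _ ?_)).trans_lt hfin).ne
  exact ball_subset_closedBall.trans (closedBall_subset_closedBall ht.2)

/-- The inequality of measures on intervals. -/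
theorem dilj_interval {Ω : Set ℂ} {u : ℂ → ℝ} {g j : ℂ → ℂ} (h : MSMin Ω u g j) {a : ℂ} {b : ℝ}
    (hb : 0 < b) (hK : closedBall a b ⊆ Ω) {C : Set ℂ} (hCJ : C ⊆ jumpSet Ω u ∩ closedBall a b)
    (hCm : MeasurableSet C) (hCnull : (μH[1] : Measure ℂ) ((jumpSet Ω u ∩ closedBall a b) \ C) = 0)
    {j' : ℂ → ℂ} (hj'm : Measurable j') (hj' : ∀ x ∈ C, j' x = j x) {α β : ℝ} (hα : 0 < α)
    (hβ : β < b) :
    IntegrableOn (fun r => Lq Ω u a r - r * (Tq g a r - Vq g a r)) (Ioo α β) ∧
    ∀ P : Set ℝ, MeasurableSet P → P ⊆ Ioo α β →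
      ∫ x in C ∩ {x | dist x a ∈ P}, dist x a * cosf j' a x ^ 2 ∂(μH[1] : Measure ℂ) ≤
        ∫ r in P, (Lq Ω u a r - r * (Tq g a r - Vq g a r)) := by
  set H : Measure ℂ := μH[1] with hH
  have hfin : H (discSet Ω u ∩ closedBall a b) < ⊤ := h.fin_S _ (isCompact_closedBall a b) hK
  have hgfin : IntegrableOn (fun x => ‖g x‖ ^ 2) (closedBall a b) :=
    h.fin_g _ (isCompact_closedBall a b) hK
  have hgfin' : ∀ s < b, IntegrableOn (fun x => ‖g x‖ ^ 2) (ball a s) := fun s hs =>
    hgfin.mono_set (ball_subset_closedBall.trans (closedBall_subset_closedBall hs.le))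
  have hJS : jumpSet Ω u ⊆ discSet Ω u := jrep_jump_subset h.isOpen h.intu
  have hCfin : H C < ⊤ :=
    (measure_mono (fun x hx => ⟨hJS (hCJ hx).1, (hCJ hx).2⟩ :
      C ⊆ discSet Ω u ∩ closedBall a b)).trans_lt hfin
  -- integrability
  obtain ⟨ζ₀, hζ₀, hζ₀c, hζ₀s, -, -, hζ₀1⟩ := meas_urysohn (K := Icc α β) (U := Ioo 0 b)
    isCompact_Icc isOpen_Ioo fun t ht => ⟨lt_of_lt_of_le hα ht.1, lt_of_le_of_lt ht.2 hβ⟩
  have hsub : Ioo α β ⊆ Ioo 0 b := Ioo_subset_Ioo hα.le hβ.le
  obtain ⟨-, -, iT, iV⟩ := radial_weight h.meas_g hgfin' hζ₀.continuous hζ₀c hζ₀s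
  have iT' : IntegrableOn (Tq g a) (Ioo α β) := by
    refine (iT.mono_set hsub).congr_fun (fun s hs => ?_) measurableSet_Ioo
    simp only [hζ₀1 s (Ioo_subset_Icc_self hs), one_mul]
  have iV' : IntegrableOn (Vq g a) (Ioo α β) := by
    refine (iV.mono_set hsub).congr_fun (fun s hs => ?_) measurableSet_Ioo
    simp only [hζ₀1 s (Ioo_subset_Icc_self hs), one_mul]
  have iTV : IntegrableOn (fun r => r * (Tq g a r - Vq g a r)) (Ioo α β) := by
    refine (iT'.sub iV').bdd_mul (c := b) continuous_id.aestronglyMeasurable ?_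
    filter_upwards [ae_restrict_mem measurableSet_Ioo] with r hr
    rw [Real.norm_eq_abs, abs_of_pos (hα.trans hr.1)]
    exact (hr.2.trans hβ).le
  have iL : IntegrableOn (Lq Ω u a) (Ioo α β) := by
    have h1 : IntegrableOn (Lq Ω u a) (Icc 0 b) :=
      (dilj_Lq_mono hfin).integrableOn_isCompact isCompact_Icc
    exact h1.mono_set (hsub.trans Ioo_subset_Icc_self)
  set W : ℝ → ℝ := fun r => Lq Ω u a r - r * (Tq g a r - Vq g a r) with hW
  have iW : IntegrableOn W (Ioo α β) := iL.sub iTV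
  refine ⟨iW, ?_⟩
  -- the densities
  set A : Set ℂ := C ∩ {x | dist x a ∈ Ioo α β} with hA
  have hdm : Measurable (fun x : ℂ => dist x a) := measurable_id.dist measurable_const
  have hAm : MeasurableSet A := hCm.inter (hdm measurableSet_Ioo)
  set k : ℂ → ℝ := fun x => dist x a * cosf j' a x ^ 2 with hk
  have hk0 : ∀ x, 0 ≤ k x := fun x => by
    have := dilj_cosf_nonneg j' a x
    rw [hk]; positivity
  have hkm : Measurable k := hdm.mul ((dilj_cosf_measurable hj'm a).pow_const 2)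
  have ik : IntegrableOn k C H := by
    refine Integrable.mono' (integrableOn_const hCfin.ne : IntegrableOn (fun _ => b) _ H)
      hkm.aestronglyMeasurable ?_
    filter_upwards [ae_restrict_mem hCm] with x hx
    have h3 : dist x a ≤ b := (hCJ hx).2
    have h4 := dilj_cosf_nonneg j' a x
    have h5 := dilj_cosf_le_one j' a x
    rw [Real.norm_eq_abs, abs_of_nonneg (hk0 x)]
    have h7 : cosf j' a x ^ 2 ≤ 1 := pow_le_one₀ h4 h5
    calc dist x a * cosf j' a x ^ 2 ≤ dist x a * 1 := by gcongr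
      _ ≤ b := by rw [mul_one]; exact h3
  set ν₁ : Measure ℝ := (volume.restrict (Ioo α β)).withDensity fun r => ENNReal.ofReal (-W r)
    with hν₁
  set κ : Measure ℂ := (H.restrict A).withDensity fun x => ENNReal.ofReal (k x) with hκ
  set μ₂ : Measure ℝ := (volume.restrict (Ioo α β)).withDensity fun r => ENNReal.ofReal (W r)
    with hμ₂
  have f1 : IsFiniteMeasure ν₁ := isFiniteMeasure_withDensity_ofReal iW.neg.hasFiniteIntegral
  have f2 : IsFiniteMeasure κ :=
    isFiniteMeasure_withDensity_ofReal (ik.mono_set inter_subset_left).hasFiniteIntegral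
  have f3 : IsFiniteMeasure μ₂ := isFiniteMeasure_withDensity_ofReal iW.hasFiniteIntegral
  have key : ∀ ζ : ℝ → ℝ, ContDiff ℝ ∞ ζ → HasCompactSupport ζ → tsupport ζ ⊆ Ioo α β →
      (∀ t, 0 ≤ ζ t) → ∫ t, ζ t ∂(ν₁ + κ.map fun x => dist x a) ≤ ∫ t, ζ t ∂μ₂ := by
    intro ζ hζ hζc hζs hζ0
    obtain ⟨B, hB⟩ := hζ.continuous.bounded_above_of_compact_support hζc
    have hbi : ∀ ν : Measure ℝ, IsFiniteMeasure ν → Integrable ζ ν := fun ν hν =>
      (integrable_const B).mono' hζ.continuous.aestronglyMeasurable (Eventually.of_forall hB)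
    have hz : ∀ t, t ∉ Ioo α β → ζ t = 0 := fun t ht =>
      image_eq_zero_of_notMem_tsupport fun h' => ht (hζs h')
    have t1 := dilj_test h hb hK hCJ hCm hCnull hj'm hj' hζ hζc (hζs.trans hsub) hζ0
    have e1 : ∫ s in Ioo 0 b, ζ s * (s * (Tq g a s - Vq g a s)) =
        ∫ s in Ioo α β, ζ s * (s * (Tq g a s - Vq g a s)) :=
      setIntegral_eq_of_subset_of_forall_sdiff_eq_zero measurableSet_Ioo hsub fun s hs => by
        rw [hz s hs.2, zero_mul]
    have e2 : ∫ s in Ioo 0 b, ζ s * Lq Ω u a s = ∫ s in Ioo α β, ζ s * Lq Ω u a s :=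
      setIntegral_eq_of_subset_of_forall_sdiff_eq_zero measurableSet_Ioo hsub fun s hs => by
        rw [hz s hs.2, zero_mul]
    have e3 : ∫ x in C, ζ (dist x a) * (dist x a * cosf j a x ^ 2) ∂H =
        ∫ x in A, k x * ζ (dist x a) ∂H := by
      rw [setIntegral_eq_of_subset_of_forall_sdiff_eq_zero hCm (inter_subset_left : A ⊆ C)]
      · refine setIntegral_congr_fun hAm fun x hx => ?_
        simp only [hk, cosf, hj' x hx.1]
        ring
      · intro x hx
        rw [hz (dist x a) fun h' => hx.2 ⟨hx.1, h'⟩, zero_mul]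
    rw [e1, e2, e3] at t1
    have iζL : IntegrableOn (fun s => ζ s * Lq Ω u a s) (Ioo α β) :=
      iL.bdd_mul (c := B) hζ.continuous.aestronglyMeasurable (Eventually.of_forall hB)
    have iζTV : IntegrableOn (fun s => ζ s * (s * (Tq g a s - Vq g a s))) (Ioo α β) :=
      iTV.bdd_mul (c := B) hζ.continuous.aestronglyMeasurable (Eventually.of_forall hB)
    have e4 : ∫ s in Ioo α β, ζ s * W s = (∫ s in Ioo α β, ζ s * Lq Ω u a s) -
        ∫ s in Ioo α β, ζ s * (s * (Tq g a s - Vq g a s)) := by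
      rw [← integral_sub iζL iζTV]
      congr 1
      funext s
      simp only [hW]
      ring
    have m1 : AEMeasurable (fun r => ENNReal.ofReal (-W r)) (volume.restrict (Ioo α β)) :=
      iW.aestronglyMeasurable.aemeasurable.neg.ennreal_ofReal
    have m2 : AEMeasurable (fun r => ENNReal.ofReal (W r)) (volume.restrict (Ioo α β)) :=
      iW.aestronglyMeasurable.aemeasurable.ennreal_ofReal
    rw [integral_add_measure (hbi _ inferInstance) (hbi _ inferInstance),
      integral_map hdm.aemeasurable hζ.continuous.aestronglyMeasurable, hν₁, hκ, hμ₂,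
      integral_withDensity_eq_integral_toReal_smul₀ m1
        (Eventually.of_forall fun _ => ENNReal.ofReal_lt_top),
      integral_withDensity_eq_integral_toReal_smul₀ m2
        (Eventually.of_forall fun _ => ENNReal.ofReal_lt_top),
      integral_withDensity_eq_integral_toReal_smul₀ hkm.ennreal_ofReal.aemeasurable
        (Eventually.of_forall fun _ => ENNReal.ofReal_lt_top)]
    have e5 : ∫ x in A, (ENNReal.ofReal (k x)).toReal • ζ (dist x a) ∂H =
        ∫ x in A, k x * ζ (dist x a) ∂H := by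
      congr 1
      funext x
      rw [ENNReal.toReal_ofReal (hk0 x), smul_eq_mul]
    rw [e5]
    have i1 : IntegrableOn (fun r => (ENNReal.ofReal (W r)).toReal • ζ r) (Ioo α β) := by
      refine Integrable.mono' (iW.norm.mul_const B) ?_ ?_
      · exact (m2.ennreal_toReal.smul hζ.continuous.aemeasurable).aestronglyMeasurable
      · refine Eventually.of_forall fun r => ?_
        rw [norm_smul, Real.norm_eq_abs, abs_of_nonneg ENNReal.toReal_nonneg]
        refine mul_le_mul ?_ (hB r) (norm_nonneg _) (norm_nonneg _)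
        rw [ENNReal.toReal_ofReal']
        exact max_le (le_abs_self _) (abs_nonneg _)
    have i2 : IntegrableOn (fun r => (ENNReal.ofReal (-W r)).toReal • ζ r) (Ioo α β) := by
      refine Integrable.mono' (iW.norm.mul_const B) ?_ ?_
      · exact (m1.ennreal_toReal.smul hζ.continuous.aemeasurable).aestronglyMeasurable
      · refine Eventually.of_forall fun r => ?_
        rw [norm_smul, Real.norm_eq_abs, abs_of_nonneg ENNReal.toReal_nonneg]
        refine mul_le_mul ?_ (hB r) (norm_nonneg _) (norm_nonneg _)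
        rw [ENNReal.toReal_ofReal']
        exact max_le (neg_le_abs _) (abs_nonneg _)
    have e6 : (∫ r in Ioo α β, (ENNReal.ofReal (W r)).toReal • ζ r) -
        ∫ r in Ioo α β, (ENNReal.ofReal (-W r)).toReal • ζ r = ∫ s in Ioo α β, ζ s * W s := by
      rw [← integral_sub i1 i2]
      congr 1
      funext r
      rw [ENNReal.toReal_ofReal', ENNReal.toReal_ofReal', smul_eq_mul, smul_eq_mul]
      rcases le_total 0 (W r) with h1 | h1
      · rw [max_eq_left h1, max_eq_right (by linarith)]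
        ring
      · rw [max_eq_right h1, max_eq_left (by linarith)]
        ring
    linarith
  intro P hP hPs
  have hle := measure_le_of_smooth key hP hPs
  rw [Measure.add_apply, Measure.map_apply hdm hP, hν₁, hκ, hμ₂, withDensity_apply _ hP,
    withDensity_apply _ hP, withDensity_apply _ (hdm hP), Measure.restrict_restrict hP,
    Measure.restrict_restrict (hdm hP), inter_eq_left.2 hPs] at hle
  have hset : (fun x : ℂ => dist x a) ⁻¹' P ∩ A = C ∩ {x | dist x a ∈ P} := by
    ext x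
    simp only [hA, mem_inter_iff, mem_preimage, mem_ofPred_eq]
    constructor
    · rintro ⟨h1, h2, h3⟩
      exact ⟨h2, h1⟩
    · rintro ⟨h1, h2⟩
      exact ⟨h2, h1, hPs h2⟩
  rw [hset] at hle
  have iWP : IntegrableOn W P := iW.mono_set hPs
  have g1 : ∫ r in P, W r = (∫⁻ r in P, ENNReal.ofReal (W r)).toReal -
      (∫⁻ r in P, ENNReal.ofReal (-W r)).toReal :=
    integral_eq_lintegral_pos_part_sub_lintegral_neg_part iWP
  have g2 : ∫ x in C ∩ {x | dist x a ∈ P}, k x ∂H =
      (∫⁻ x in C ∩ {x | dist x a ∈ P}, ENNReal.ofReal (k x) ∂H).toReal :=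
    integral_eq_lintegral_of_nonneg_ae (Eventually.of_forall hk0) hkm.aestronglyMeasurable
  rw [g1, g2]
  have n1 : ∫⁻ r in P, ENNReal.ofReal (W r) ≠ ⊤ := iWP.lintegral_lt_top.ne
  have n2 : ∫⁻ r in P, ENNReal.ofReal (-W r) ≠ ⊤ := iWP.neg.lintegral_lt_top.ne
  have n3 : ∫⁻ x in C ∩ {x | dist x a ∈ P}, ENNReal.ofReal (k x) ∂H ≠ ⊤ :=
    (ik.mono_set inter_subset_left).lintegral_lt_top.ne
  have g3 := ENNReal.toReal_mono n1 hle
  rw [ENNReal.toReal_add n2 n3] at g3
  linarith

/-- The weight `|⟨x - a, I y⟩| / (|x - a| |y|)`. -/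
noncomputable def dilj_Psi (a : ℂ) (p : ℂ × ℂ) : ℝ :=
  |inner ℝ (p.1 - a) (Complex.I * p.2)| / (‖p.1 - a‖ * ‖p.2‖)

lemma dilj_Psi_measurable (a : ℂ) : Measurable (dilj_Psi a) := by
  unfold dilj_Psi
  have h1 : Measurable (fun p : ℂ × ℂ => p.1 - a) := measurable_fst.sub measurable_const
  exact ((h1.inner (measurable_snd.const_mul _)).abs).div (h1.norm.mul measurable_snd.norm)

lemma dilj_Psi_eq (a : ℂ) (j : ℂ → ℂ) (x : ℂ) : dilj_Psi a (x, j x) = cosf j a x := rfl

lemma dilj_Psi_nonneg (a : ℂ) (p : ℂ × ℂ) : 0 ≤ dilj_Psi a p :=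
  dilj_cosf_nonneg (fun _ => p.2) a p.1

lemma dilj_Psi_le (a : ℂ) (p : ℂ × ℂ) : dilj_Psi a p ≤ 1 :=
  dilj_cosf_le_one (fun _ => p.2) a p.1

/-- derivative comparison -/
lemma dilj_deriv_le {F G : ℝ → ℝ} {s β F' G' c : ℝ} (hsβ : s < β) (hF : HasDerivAt F F' s)
    (hG : HasDerivAt G G' s) (h : ∀ t ∈ Ioo s β, c * (F t - F s) ≤ G t - G s) : c * F' ≤ G' := by
  have h1 : HasDerivAt (fun t => G t - c * F t) (G' - c * F') s := hG.sub (hF.const_mul c)
  have h2 := h1.hasDerivWithinAt (s := Ioi s)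
  rw [hasDerivWithinAt_iff_tendsto_slope' self_notMem_Ioi] at h2
  have h3 : 0 ≤ G' - c * F' := by
    refine ge_of_tendsto h2 ?_
    filter_upwards [Ioo_mem_nhdsGT hsβ] with t ht
    have h4 := h t ht
    rw [slope_def_field]
    refine div_nonneg ?_ (by linarith [ht.1])
    linarith
  linarith

theorem dilj_local {Ω : Set ℂ} {u : ℂ → ℝ} {g j : ℂ → ℂ} (h : MSMin Ω u g j) {a : ℂ} {R : ℝ}
    (hR : ball a R ⊆ Ω) {α β : ℝ} (hα : 0 < α) (hαβ : α < β) (hβ : β < R)
    (hmono : MonotoneOn (fun t => ∫ x in ball a t, dilj_Psi a (x, j x) * cosf j a x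
      ∂(μH[1] : Measure ℂ)) (Ioo 0 R)) :
    ∀ᵐ s ∂(volume.restrict (Ioo α β)),
      s * deriv (fun t => ∫ x in ball a t, dilj_Psi a (x, j x) * cosf j a x
        ∂(μH[1] : Measure ℂ)) s ≤ Lq Ω u a s - s * (Tq g a s - Vq g a s) := by
  set H : Measure ℂ := μH[1] with hH
  obtain ⟨b, hβb, hbR⟩ := exists_between hβ
  have hb : 0 < b := (hα.trans hαβ).trans hβb
  have hKR : closedBall a b ⊆ ball a R := closedBall_subset_ball hbR
  have hK : closedBall a b ⊆ Ω := hKR.trans hR
  obtain ⟨C, j', hCσ, hCJ, hCnull, hj'm, hj'⟩ := jump_rep h.toSBVData (isCompact_closedBall a b) hK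
  have hCm : MeasurableSet C := by
    obtain ⟨K', hK', hKU⟩ := hCσ
    rw [← hKU]
    exact MeasurableSet.iUnion fun n => (hK' n).measurableSet
  obtain ⟨iW, hP⟩ := dilj_interval h hb hK hCJ hCm hCnull hj'm hj' hα hβb
  set W : ℝ → ℝ := fun r => Lq Ω u a r - r * (Tq g a r - Vq g a r) with hW
  set F : ℝ → ℝ := fun t => ∫ x in ball a t, dilj_Psi a (x, j x) * cosf j a x ∂H with hF
  have hfin : H (discSet Ω u ∩ closedBall a b) < ⊤ := h.fin_S _ (isCompact_closedBall a b) hK
  have hJS : jumpSet Ω u ⊆ discSet Ω u := jrep_jump_subset h.isOpen h.intu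
  have hCfin : H C < ⊤ :=
    (measure_mono (fun x hx => ⟨hJS (hCJ hx).1, (hCJ hx).2⟩ :
      C ⊆ discSet Ω u ∩ closedBall a b)).trans_lt hfin
  have hdm : Measurable (fun x : ℂ => dist x a) := measurable_id.dist measurable_const
  -- `F` in terms of `C`
  have hFC : ∀ t ≤ b, F t = ∫ x in C ∩ ball a t, cosf j' a x ^ 2 ∂H := by
    intro t ht
    have e1 : F t = ∫ x in C ∩ ball a t, dilj_Psi a (x, j x) * cosf j a x ∂H := by
      rw [hF]
      refine setIntegral_eq_of_subset_of_ae_sdiff_eq_zero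
        measurableSet_ball.nullMeasurableSet inter_subset_right ?_
      rw [ae_iff]
      refine measure_mono_null ?_ hCnull
      intro x hx
      simp only [mem_ofPred_eq, Classical.not_imp] at hx
      obtain ⟨⟨hxt, hxC⟩, hne⟩ := hx
      have hxK : x ∈ closedBall a b :=
        (ball_subset_closedBall.trans (closedBall_subset_closedBall ht)) hxt
      refine ⟨⟨?_, hxK⟩, fun h' => hxC ⟨h', hxt⟩⟩
      rw [jrep_mem_jump_iff h.jf (hK hxK)]
      intro hj0
      apply hne
      simp [cosf, hj0]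
    rw [e1]
    refine setIntegral_congr_fun (hCm.inter measurableSet_ball) fun x hx => ?_
    rw [dilj_Psi_eq]
    simp only [cosf, hj' x hx.1]
    ring
  have ic : IntegrableOn (fun x => cosf j' a x ^ 2) C H := by
    refine Integrable.mono' (integrableOn_const hCfin.ne : IntegrableOn (fun _ => (1 : ℝ)) _ H)
      ((dilj_cosf_measurable hj'm a).pow_const 2).aestronglyMeasurable ?_
    refine Eventually.of_forall fun x => ?_
    have h4 := dilj_cosf_nonneg j' a x
    rw [Real.norm_eq_abs, abs_of_nonneg (by positivity)]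
    exact pow_le_one₀ h4 (dilj_cosf_le_one j' a x)
  have hFd : ∀ s ∈ Ioo α β, ∀ t ∈ Ioo s β, s * (F t - F s) ≤ ∫ r in Ico s t, W r := by
    intro s hs t ht
    have hsub : Ico s t ⊆ Ioo α β := fun r hr =>
      ⟨lt_of_lt_of_le hs.1 hr.1, hr.2.trans ht.2⟩
    refine le_trans ?_ (hP (Ico s t) measurableSet_Ico hsub)
    have hset : (C ∩ ball a t) \ (C ∩ ball a s) = C ∩ {x | dist x a ∈ Ico s t} := by
      ext x
      simp only [Set.mem_sdiff, mem_inter_iff, mem_ball, mem_ofPred_eq, mem_Ico]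
      constructor
      · rintro ⟨⟨h1, h2⟩, h3⟩
        exact ⟨h1, not_lt.1 fun h4 => h3 ⟨h1, h4⟩, h2⟩
      · rintro ⟨h1, h2, h3⟩
        exact ⟨⟨h1, h3⟩, fun h4 => absurd h4.2 (not_lt.2 h2)⟩
    rw [hFC t (ht.2.trans hβb).le, hFC s (hs.2.trans hβb).le,
      ← setIntegral_sdiff (hCm.inter measurableSet_ball) (ic.mono_set inter_subset_left)
        (inter_subset_inter_right _ (ball_subset_ball ht.1.le)), hset, ← integral_const_mul]
    refine setIntegral_mono_on ((ic.mono_set inter_subset_left).const_mul s) ?_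
      (hCm.inter (hdm measurableSet_Ico)) ?_
    · have i1 : IntegrableOn (fun x => cosf j' a x ^ 2) (C ∩ {x | dist x a ∈ Ico s t}) H :=
        ic.mono_set inter_subset_left
      refine i1.bdd_mul (c := b) hdm.aestronglyMeasurable ?_
      filter_upwards [ae_restrict_mem (hCm.inter (hdm measurableSet_Ico))] with x hx
      rw [Real.norm_eq_abs, abs_of_nonneg dist_nonneg]
      exact (hCJ hx.1).2
    · intro x hx
      have h4 := dilj_cosf_nonneg j' a x
      have : s ≤ dist x a := hx.2.1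
      gcongr
  -- differentiability
  have hFdiff : ∀ᵐ s, s ∈ Ioo 0 R → DifferentiableWithinAt ℝ F (Ioo 0 R) s :=
    hmono.ae_differentiableWithinAt_of_mem
  have iWI : IntervalIntegrable W volume α β := by
    rw [intervalIntegrable_iff_integrableOn_Ioo_of_le hαβ.le]
    exact iW
  have hWdiff := iWI.ae_hasDerivAt_integral
  rw [ae_restrict_iff' measurableSet_Ioo]
  filter_upwards [hFdiff, hWdiff] with s hs1 hs2 hs
  have hsR : s ∈ Ioo 0 R := ⟨hα.trans hs.1, hs.2.trans hβ⟩
  have d1 : HasDerivAt F (deriv F s) s :=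
    ((hs1 hsR).differentiableAt (Ioo_mem_nhds hsR.1 hsR.2)).hasDerivAt
  have d2 := hs2 (by rw [uIcc_of_le hαβ.le]; exact Ioo_subset_Icc_self hs) α left_mem_uIcc
  refine dilj_deriv_le hs.2 d1 d2 fun t ht => ?_
  have e1 : (∫ r in α..t, W r) - ∫ r in α..s, W r = ∫ r in Ico s t, W r := by
    rw [intervalIntegral.integral_interval_sub_left, intervalIntegral.integral_of_le ht.1.le,
      integral_Ico_eq_integral_Ioo, integral_Ioc_eq_integral_Ioo]
    · exact iWI.mono_set (by
        rw [uIcc_of_le hαβ.le, uIcc_of_le (hs.1.trans ht.1).le]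
        exact Icc_subset_Icc_right ht.2.le)
    · exact iWI.mono_set (by
        rw [uIcc_of_le hαβ.le, uIcc_of_le hs.1.le]
        exact Icc_subset_Icc_right hs.2.le)
  rw [e1]
  exact hFd s hs t ht

theorem dilation_jump {Ω : Set ℂ} {u : ℂ → ℝ} {g j : ℂ → ℂ} (h : MSMin Ω u g j) {a : ℂ} {R : ℝ}
    (hR : ball a R ⊆ Ω) :
    ∀ᵐ s ∂(volume.restrict (Ioo 0 R)),
      s * (Tq g a s - Vq g a s) + s * ∑ᶠ x ∈ jumpSet Ω u ∩ sphere a s, cosf j a x ≤
        Lq Ω u a s := by
  obtain ⟨hmono, hco⟩ := coarea_weight h.toSBVData hR (dilj_Psi_measurable a) (dilj_Psi_nonneg a)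
    (M := 1) (dilj_Psi_le a)
  have hcov : Ioo 0 R = ⋃ n : ℕ, Ioo (1 / ((n : ℝ) + 1)) (R - 1 / ((n : ℝ) + 1)) := by
    ext x
    simp only [mem_iUnion, mem_Ioo]
    constructor
    · rintro ⟨h1, h2⟩
      obtain ⟨n, hn⟩ := exists_nat_one_div_lt (show 0 < min x (R - x) from
        lt_min h1 (by linarith))
      exact ⟨n, hn.trans_le (min_le_left _ _), by linarith [hn.trans_le (min_le_right x (R - x))]⟩
    · rintro ⟨n, h1, h2⟩
      have h3 : (0 : ℝ) < 1 / ((n : ℝ) + 1) := by positivity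
      exact ⟨h3.trans h1, by linarith⟩
  have hloc : ∀ᵐ s ∂(volume.restrict (Ioo 0 R)),
      s * deriv (fun t => ∫ x in ball a t, dilj_Psi a (x, j x) * cosf j a x
        ∂(μH[1] : Measure ℂ)) s ≤ Lq Ω u a s - s * (Tq g a s - Vq g a s) := by
    rw [hcov, ae_restrict_iUnion_iff]
    intro n
    have h3 : (0 : ℝ) < 1 / ((n : ℝ) + 1) := by positivity
    rcases lt_or_ge (1 / ((n : ℝ) + 1)) (R - 1 / ((n : ℝ) + 1)) with h4 | h4
    · exact dilj_local h hR h3 h4 (by linarith) hmono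
    · rw [Ioo_eq_empty (not_lt.2 h4)]
      simp
  have hmem := ae_restrict_mem (μ := (volume : Measure ℝ)) (measurableSet_Ioo (a := (0 : ℝ)) (b := R))
  filter_upwards [hloc, hco, hmem] with s h1 h2 hs
  simp only [dilj_Psi_eq] at h1 h2
  have h3 := mul_le_mul_of_nonneg_left h2 hs.1.le
  linarith

end Pool.Agent.MP099f24
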