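import Mathlib
import Pool.Agent.Lib.MP_099f24_an.SD.Coareaw
import Pool.Agent.Lib.MP_099f24_an.SD.Cone
import Pool.Agent.Lib.MP_099f24_an.SD.Dilj
import Pool.Agent.Lib.MP_099f24_an.SD.Asm
import Pool.Agent.Lib.MP_099f24_an.SD.Polar

namespace Pool.Agent.MP099f24

open MeasureTheory Filter Topology Set Metric
open scoped ENNReal ContDiff

section Mono

variable {Ω : Set ℂ} {u : ℂ → ℝ} {g j : ℂ → ℂ} {a : ℂ} {R : ℝ}

theorem mono_cosf_nonneg (x : ℂ) : 0 ≤ cosf j a x := by
  unfold cosf; positivity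

theorem mono_cos_le (x y : ℂ) :
    |inner ℝ (x - a) (Complex.I * y)| / (‖x - a‖ * ‖y‖) ≤ 1 := by
  refine div_le_one_of_le₀ ?_ (by positivity)
  have := abs_real_inner_le_norm (x - a) (Complex.I * y)
  rwa [norm_mul, Complex.norm_I, one_mul] at this

theorem mono_ae (h : MSMin Ω u g j) (hR : ball a R ⊆ Ω) :
    ∀ᵐ s ∂(volume.restrict (Ioo 0 R)), (jumpSet Ω u ∩ sphere a s).Finite ∧
      Dq g a s / s - ∑ᶠ x ∈ jumpSet Ω u ∩ sphere a s, (1 - cosf j a x) ≤
        Tq g a s + Vq g a s := by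
  filter_upwards [comp_cone h hR, dilation_jump h hR, asm_count h.toSBVData hR,
    ae_restrict_mem measurableSet_Ioo] with s h1 h2 h3 hs
  have hfin : (jumpSet Ω u ∩ sphere a s).Finite := by
    by_contra hinf
    have hinf' : (discSet Ω u ∩ sphere a s).encard = ⊤ := by
      rw [encard_eq_top_iff]
      exact fun hf => hinf (hf.subset (inter_subset_inter_left _ (asm_jump_sub h.toSBVData)))
    obtain ⟨n, hn⟩ := exists_nat_gt (deriv (Lq Ω u a) s)
    exact absurd (h3 n (by rw [hinf']; exact le_top)) (not_le.2 hn)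
  have h4 := h1 hfin
  have h5 : ∑ᶠ x ∈ jumpSet Ω u ∩ sphere a s, (1 - cosf j a x) =
      (jumpSet Ω u ∩ sphere a s).ncard - ∑ᶠ x ∈ jumpSet Ω u ∩ sphere a s, cosf j a x := by
    rw [finsum_mem_eq_finite_toFinset_sum _ hfin, finsum_mem_eq_finite_toFinset_sum _ hfin,
      Set.ncard_eq_toFinset_card _ hfin, Finset.sum_sub_distrib]
    simp
  have hs0 : 0 < s := hs.1
  refine ⟨hfin, ?_⟩
  rw [h5, sub_le_iff_le_add, div_le_iff₀ hs0]
  nlinarith

theorem mono_Dq_ac (h : SBVData Ω u g j) (hR : ball a R ⊆ Ω) {s t : ℝ} (hs : 0 < s) (hst : s ≤ t)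
    (ht : t < R) : IntervalIntegrable (fun r => Tq g a r + Vq g a r) volume s t ∧
      Dq g a t - Dq g a s = ∫ r in s..t, (Tq g a r + Vq g a r) := by
  have hP : Ico s t ⊆ Ioi 0 := fun x hx => hs.trans_le hx.1
  have hint : IntegrableOn (fun x => ‖g x‖ ^ 2) (ball a t) := asm_g_int h hR ht
  have hsub : {x : ℂ | dist x a ∈ Ico s t} ⊆ ball a t := fun x hx => hx.2
  obtain ⟨h1, h2, h3⟩ := polar_iter a measurableSet_Ico hP (hint.mono_set hsub)
  have h4 : ∀ᵐ r ∂(volume.restrict (Ico s t)),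
      r * ∫ θ in Ioo (-Real.pi) Real.pi, ‖g (pc a r θ)‖ ^ 2 = Tq g a r + Vq g a r := by
    filter_upwards [h3] with r hr
    rw [polar_TV h.meas_g a r hr]
  have h5 : IntegrableOn (fun r => Tq g a r + Vq g a r) (Ico s t) :=
    Integrable.congr h2 h4
  refine ⟨?_, ?_⟩
  · rw [intervalIntegrable_iff_integrableOn_Ico_of_le hst]
    exact h5
  · have h6 : ∫ r in s..t, (Tq g a r + Vq g a r) = ∫ x in {x | dist x a ∈ Ico s t}, ‖g x‖ ^ 2 := by
      rw [intervalIntegral.integral_of_le hst, ← integral_Ico_eq_integral_Ioc, h1]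
      exact (integral_congr_ae h4).symm
    have h7 : ball a t \ ball a s = {x | dist x a ∈ Ico s t} := by
      ext x
      simp only [Set.mem_sdiff, mem_ball, not_lt]
      exact and_comm
    rw [h6, ← h7, setIntegral_sdiff measurableSet_ball hint (ball_subset_ball hst)]
    rfl

/-- The error term of the monotonicity formula. -/
noncomputable def tilt (j : ℂ → ℂ) (a x : ℂ) : ℝ := cosf j a x * (1 - cosf j a x) / ‖x - a‖

theorem tilt_int (h : SBVData Ω u g j) (hR : ball a R ⊆ Ω) {s t : ℝ} (hs : 0 < s) (ht : t < R) :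
    IntegrableOn (tilt j a) (ball a t \ ball a s) (μH[1] : Measure ℂ) := by
  set Ψ : ℂ × ℂ → ℝ := fun p => (1 - |inner ℝ (p.1 - a) (Complex.I * p.2)| /
    (‖p.1 - a‖ * ‖p.2‖)) / max ‖p.1 - a‖ s with hΨ
  have hΨm : Measurable Ψ := by
    refine Measurable.div ?_ ?_
    · refine measurable_const.sub (Measurable.div ?_ ?_)
      · have e : Measurable fun p : ℂ × ℂ => (inner ℝ (p.1 - a) (Complex.I * p.2) : ℝ) :=
          (measurable_fst.sub_const a).inner (measurable_snd.const_mul _)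
        exact e.norm
      · exact ((measurable_fst.sub_const a).norm).mul measurable_snd.norm
    · exact ((measurable_fst.sub_const a).norm).max measurable_const
  have hmax : ∀ p : ℂ × ℂ, s ≤ max ‖p.1 - a‖ s := fun p => le_max_right _ _
  have hΨ0 : ∀ p, 0 ≤ Ψ p := fun p =>
    div_nonneg (sub_nonneg.2 (mono_cos_le _ _)) (hs.le.trans (hmax p))
  have hΨM : ∀ p, Ψ p ≤ 1 / s := by
    intro p
    refine div_le_div₀ zero_le_one ?_ hs (hmax p)
    have : 0 ≤ |inner ℝ (p.1 - a) (Complex.I * p.2)| / (‖p.1 - a‖ * ‖p.2‖) := by positivity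
    linarith
  have h1 : IntegrableOn (fun x => Ψ (x, j x) * cosf j a x) (ball a t \ ball a s)
      (μH[1] : Measure ℂ) :=
    (coarea_weight_int h hR hΨm hΨ0 hΨM t ht).mono_set sdiff_subset
  refine h1.congr_fun (fun x hx => ?_) (measurableSet_ball.diff measurableSet_ball)
  have e2 : s ≤ ‖x - a‖ := by
    have := hx.2
    rwa [mem_ball, dist_eq_norm, not_lt] at this
  simp only [hΨ, tilt, cosf]
  rw [max_eq_left e2]
  ring

theorem mono_formula (h : MSMin Ω u g j) (hR : ball a R ⊆ Ω) {s t : ℝ} (hs : 0 < s) (hst : s ≤ t)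
    (ht : t < R) :
    Dq g a s / s ≤ Dq g a t / t +
      ∫ x in ball a t \ ball a s, tilt j a x ∂(μH[1] : Measure ℂ) := by
  -- the weight
  set Ψ : ℂ × ℂ → ℝ := fun p => (1 - |inner ℝ (p.1 - a) (Complex.I * p.2)| /
    (‖p.1 - a‖ * ‖p.2‖)) / max ‖p.1 - a‖ s with hΨ
  have hΨm : Measurable Ψ := by
    refine Measurable.div ?_ ?_
    · refine measurable_const.sub (Measurable.div ?_ ?_)
      · have e : Measurable fun p : ℂ × ℂ => (inner ℝ (p.1 - a) (Complex.I * p.2) : ℝ) :=
          (measurable_fst.sub_const a).inner (measurable_snd.const_mul _)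
        exact e.norm
      · exact ((measurable_fst.sub_const a).norm).mul measurable_snd.norm
    · exact ((measurable_fst.sub_const a).norm).max measurable_const
  have hmax : ∀ p : ℂ × ℂ, s ≤ max ‖p.1 - a‖ s := fun p => le_max_right _ _
  have hΨ0 : ∀ p, 0 ≤ Ψ p := fun p =>
    div_nonneg (sub_nonneg.2 (mono_cos_le _ _)) (hs.le.trans (hmax p))
  have hΨM : ∀ p, Ψ p ≤ 1 / s := by
    intro p
    refine div_le_div₀ zero_le_one ?_ hs (hmax p)
    have : 0 ≤ |inner ℝ (p.1 - a) (Complex.I * p.2)| / (‖p.1 - a‖ * ‖p.2‖) := by positivity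
    linarith
  obtain ⟨hB1, hB2⟩ := coarea_weight h.toSBVData hR hΨm hΨ0 hΨM
  set B : ℝ → ℝ := fun t => ∫ x in ball a t, Ψ (x, j x) * cosf j a x ∂(μH[1] : Measure ℂ) with hB
  have htR : t ∈ Ioo 0 R := ⟨hs.trans_le hst, ht⟩
  have hsub : Icc s t ⊆ Ioo 0 R := fun x hx => ⟨hs.trans_le hx.1, hx.2.trans_lt ht⟩
  have hsub' : uIcc s t ⊆ Ioo 0 R := by rwa [uIcc_of_le hst]
  -- absolute continuity of `D`
  obtain ⟨hi, -⟩ := mono_Dq_ac h.toSBVData hR hs hst ht
  have hDeq : ∀ r ∈ Icc s t, Dq g a r = Dq g a s + ∫ x in s..r, (Tq g a x + Vq g a x) := by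
    intro r hr
    have := (mono_Dq_ac h.toSBVData hR hs hr.1 (hr.2.trans_lt ht)).2
    linarith
  have hAC1 : AbsolutelyContinuousOnInterval
      (fun r => ∫ x in s..r, (Tq g a x + Vq g a x)) s t :=
    hi.absolutelyContinuousOnInterval_intervalIntegral (by simp)
  have hAC2 : AbsolutelyContinuousOnInterval
      (fun r => Dq g a s + ∫ x in s..r, (Tq g a x + Vq g a x)) s t := by
    have hc : AbsolutelyContinuousOnInterval (fun _ : ℝ => Dq g a s) s t :=
      (LipschitzWith.const (Dq g a s)).lipschitzOnWith.absolutelyContinuousOnInterval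
    exact hc.fun_add hAC1
  have hAC3 : AbsolutelyContinuousOnInterval (fun r : ℝ => r⁻¹) s t := by
    refine ContDiffOn.absolutelyContinuousOnInterval ?_
    rw [uIcc_of_le hst]
    exact contDiffOn_id.inv fun x hx => (hs.trans_le hx.1).ne'
  have hAC : AbsolutelyContinuousOnInterval
      (fun r => (Dq g a s + ∫ x in s..r, (Tq g a x + Vq g a x)) * r⁻¹) s t :=
    hAC2.fun_mul hAC3
  have hFTC := hAC.integral_deriv_eq_sub
  -- the monotone part
  have hBm := hB1.mono hsub'
  have h1 : ∫ x in s..t, deriv B x ≤ B t - B s := by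
    have h2 := hBm.intervalIntegral_deriv_mem_uIcc
    have h3 : B s ≤ B t := hBm (by simp) (by simp) hst
    rw [uIcc_of_le (by linarith)] at h2
    exact h2.2
  -- the sum of the derivatives is nonnegative
  have h4 : 0 ≤ ∫ x in s..t, (deriv (fun r => (Dq g a s +
      ∫ x in s..r, (Tq g a x + Vq g a x)) * r⁻¹) x + deriv B x) := by
    refine intervalIntegral.integral_nonneg_of_ae_restrict hst ?_
    have e1 := ae_restrict_of_ae_restrict_of_subset hsub
      (Dq_deriv h.meas_g fun _ hs => asm_g_int h.toSBVData hR hs).1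
    have e2 := ae_restrict_of_ae_restrict_of_subset hsub (mono_ae h hR)
    have e3 := ae_restrict_of_ae_restrict_of_subset hsub hB2
    have n1 : ∀ᵐ x ∂(volume.restrict (Icc s t)), x ≠ s :=
      ae_restrict_of_ae (by simp [ae_iff, measure_singleton])
    have n2 : ∀ᵐ x ∂(volume.restrict (Icc s t)), x ≠ t :=
      ae_restrict_of_ae (by simp [ae_iff, measure_singleton])
    filter_upwards [e1, e2, e3, n1, n2, ae_restrict_mem measurableSet_Icc] with r f1 f2 f3 m1 m2 hr
    have hr1 : s < r := lt_of_le_of_ne hr.1 m1.symm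
    have hr2 : r < t := lt_of_le_of_ne hr.2 m2
    have hr0 : 0 < r := hs.trans hr1
    have hloc : (fun r => (Dq g a s + ∫ x in s..r, (Tq g a x + Vq g a x)) * r⁻¹) =ᶠ[𝓝 r]
        fun r => Dq g a r * r⁻¹ := by
      filter_upwards [Icc_mem_nhds hr1 hr2] with x hx
      rw [hDeq x hx]
    have hder : HasDerivAt (fun r => Dq g a r * r⁻¹)
        ((Tq g a r + Vq g a r) * r⁻¹ + Dq g a r * (-(r ^ 2)⁻¹)) r :=
      f1.1.mul (hasDerivAt_inv hr0.ne')
    rw [hloc.deriv_eq, hder.deriv]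
    have f4 : ∑ᶠ x ∈ jumpSet Ω u ∩ sphere a r, Ψ (x, j x) =
        (∑ᶠ x ∈ jumpSet Ω u ∩ sphere a r, (1 - cosf j a x)) * r⁻¹ := by
      have eA := finsum_mem_eq_finite_toFinset_sum (fun x => Ψ (x, j x)) f2.1
      have eB := finsum_mem_eq_finite_toFinset_sum (fun x => 1 - cosf j a x) f2.1
      refine eA.trans (Eq.trans ?_ (congrArg (fun z : ℝ => z * r⁻¹) eB.symm))
      rw [Finset.sum_mul]
      refine Finset.sum_congr rfl fun x hx' => ?_
      have hx : x ∈ jumpSet Ω u ∩ sphere a r := f2.1.mem_toFinset.1 hx'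
      have e4 : ‖x - a‖ = r := by
        have := hx.2
        rwa [mem_sphere, dist_eq_norm] at this
      simp only [hΨ, cosf]
      rw [e4, max_eq_left hr1.le, div_eq_mul_inv]
    rw [f4] at f3
    have f5 : Dq g a r / r - ∑ᶠ x ∈ jumpSet Ω u ∩ sphere a r, (1 - cosf j a x) ≤
        Tq g a r + Vq g a r := f2.2
    have hrinv : 0 < r⁻¹ := inv_pos.2 hr0
    have f6 : (r ^ 2)⁻¹ = r⁻¹ * r⁻¹ := by
      rw [sq, mul_inv]
    rw [f6]
    have f7 : Dq g a r / r = Dq g a r * r⁻¹ := div_eq_mul_inv _ _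
    rw [f7] at f5
    have f8 := mul_le_mul_of_nonneg_right f5 hrinv.le
    simp only [Pi.zero_apply]
    nlinarith
  rw [intervalIntegral.integral_add hAC.intervalIntegrable_deriv hBm.intervalIntegrable_deriv,
    hFTC, ← hDeq t ⟨hst, le_rfl⟩, ← hDeq s ⟨le_rfl, hst⟩] at h4
  -- the integral over the annulus
  have hBi : IntegrableOn (fun x => Ψ (x, j x) * cosf j a x) (ball a t) (μH[1] : Measure ℂ) :=
    coarea_weight_int h.toSBVData hR hΨm hΨ0 hΨM t ht
  have h5 : B t - B s = ∫ x in ball a t \ ball a s, tilt j a x ∂(μH[1] : Measure ℂ) := by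
    have e1 : B t - B s = ∫ x in ball a t \ ball a s, Ψ (x, j x) * cosf j a x
        ∂(μH[1] : Measure ℂ) := by
      rw [setIntegral_sdiff measurableSet_ball hBi (ball_subset_ball hst)]
    rw [e1]
    refine setIntegral_congr_fun (measurableSet_ball.diff measurableSet_ball) fun x hx => ?_
    have e2 : s ≤ ‖x - a‖ := by
      have := hx.2
      rwa [mem_ball, dist_eq_norm, not_lt] at this
    simp only [hΨ, tilt, cosf]
    rw [max_eq_left e2]
    ring
  rw [div_eq_mul_inv, div_eq_mul_inv, ← h5]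
  linarith

end Mono

end Pool.Agent.MP099f24
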