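import Mathlib
import Pool.Agent.Lib.MP_099f24_an.SD.Fin

namespace Pool.Agent.MP099f24

open MeasureTheory Filter Topology Set Metric
open scoped ENNReal ContDiff

section Fin2

variable {Ω : Set ℂ} {u : ℂ → ℝ} {g j : ℂ → ℂ} {a : ℂ} {R : ℝ}

/-- Density bound for the length of the discontinuity set of a local minimizer. -/
theorem length_density {Ω : Set ℂ} (hΩ : IsOpen Ω) {u : ℂ → ℝ} (hu : IsLocalMinimizer Ω u) {x : ℂ}
    (hx : x ∈ Ω) (hcl : x ∈ closure (discSet Ω u)) {r : ℝ} (hr : 0 < r) (hb : ball x r ⊆ Ω) :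
    energy Ω u (ball x r) ≤ ENNReal.ofReal (2 * Real.pi * r) ∧
    (((μH[1] : Measure ℂ) (discSet Ω u ∩ ball x r)).toReal < r →
      3 * r ^ 2 + ((μH[1] : Measure ℂ) (discSet Ω u ∩ ball x r)).toReal ^ 2 ≤
        2 * (energy Ω u (ball x r)).toReal *
          ((μH[1] : Measure ℂ) (discSet Ω u ∩ ball x r)).toReal) ∧
    ENNReal.ofReal ((2 * Real.pi - Real.sqrt (4 * Real.pi ^ 2 - 3)) * r) ≤
      (μH[1] : Measure ℂ) (discSet Ω u ∩ ball x r) := by
  obtain ⟨u', g, j, h, hae, hdisc, hen⟩ := exists_MSMin hΩ hu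
  have hE : energy Ω u (ball x r) ≤ ENNReal.ofReal (2 * Real.pi * r) := by
    rw [hen _ measurableSet_ball hb]
    have := comp_const h hb
    rwa [hdisc] at this
  have hEtop : energy Ω u (ball x r) ≠ ⊤ := ne_top_of_le_ne_top ENNReal.ofReal_ne_top hE
  have hEeq : energy Ω u (ball x r) = (∫⁻ x in ball x r, ‖g x‖ₑ ^ 2) +
      (μH[1] : Measure ℂ) (discSet Ω u ∩ ball x r) := hen _ measurableSet_ball hb
  have hLtop : (μH[1] : Measure ℂ) (discSet Ω u ∩ ball x r) ≠ ⊤ := by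
    rw [hEeq] at hEtop
    exact (ENNReal.add_ne_top.1 hEtop).2
  have hDtop : (∫⁻ x in ball x r, ‖g x‖ₑ ^ 2) ≠ ⊤ := by
    rw [hEeq] at hEtop
    exact (ENNReal.add_ne_top.1 hEtop).1
  rw [← hdisc] at hcl
  set L := ((μH[1] : Measure ℂ) (discSet Ω u ∩ ball x r)).toReal with hL
  set D := (∫⁻ x in ball x r, ‖g x‖ₑ ^ 2).toReal with hD
  have hL0 : 0 ≤ L := ENNReal.toReal_nonneg
  have hD0 : 0 ≤ D := ENNReal.toReal_nonneg
  have hEr : (energy Ω u (ball x r)).toReal = D + L := by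
    rw [hEeq, ENNReal.toReal_add hDtop hLtop]
  have hEpi : (energy Ω u (ball x r)).toReal ≤ 2 * Real.pi * r := by
    have h1 := ENNReal.toReal_mono ENNReal.ofReal_ne_top hE
    rwa [ENNReal.toReal_ofReal (by positivity)] at h1
  have key : L < r → 3 * r ^ 2 + L ^ 2 ≤ 2 * (energy Ω u (ball x r)).toReal * L := by
    intro hLr
    have h1 : ∀ s ∈ Ioo (max L 0) r, 3 * s ^ 2 ≤ 2 * D * L + L ^ 2 := by
      intro s hs
      have hs0 : 0 < s := (le_max_right _ _).trans_lt hs.1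
      have hLs : L < s := (le_max_left _ _).trans_lt hs.1
      have e1 : Lq Ω u' x s ≤ L := by
        rw [Lq, hdisc]
        exact ENNReal.toReal_mono hLtop
          (measure_mono (inter_subset_inter_right _ (ball_subset_ball hs.2.le)))
      have e2 : Dq g x s ≤ D := by
        have e3 : ENNReal.ofReal (Dq g x s) ≤ ∫⁻ x in ball x r, ‖g x‖ₑ ^ 2 := by
          rw [Dq, ← en_lintegral (asm_g_int h.toSBVData hb hs.2)]
          exact lintegral_mono_set (ball_subset_ball hs.2.le)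
        have e4 := ENNReal.toReal_mono hDtop e3
        rwa [ENNReal.toReal_ofReal (asm_Dq_nonneg s)] at e4
      have e5 := asm_length h hb hx hcl ⟨hs0, hs.2⟩ (e1.trans_lt hLs)
      have e6 : 0 ≤ Lq Ω u' x s := asm_Lq_nonneg s
      have e7 : 0 ≤ Dq g x s := asm_Dq_nonneg s
      nlinarith [mul_le_mul e2 e1 e6 hD0, mul_le_mul e1 e1 e6 hL0]
    have h2 : 3 * r ^ 2 ≤ 2 * D * L + L ^ 2 := by
      have hlim : Tendsto (fun s : ℝ => 3 * s ^ 2) (𝓝[<] r) (𝓝 (3 * r ^ 2)) :=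
        ((continuous_const.mul (continuous_id.pow 2)).tendsto r).mono_left nhdsWithin_le_nhds
      refine le_of_tendsto hlim ?_
      have h3 : max L 0 < r := max_lt hLr hr
      filter_upwards [Ioo_mem_nhdsLT h3] with s hs
      exact h1 s hs
    rw [hEr]
    nlinarith
  refine ⟨hE, key, ?_⟩
  have hpi := Real.pi_gt_three
  have hsq : 0 ≤ 4 * Real.pi ^ 2 - 3 := by nlinarith
  set q := Real.sqrt (4 * Real.pi ^ 2 - 3) with hq
  have hq0 : 0 ≤ q := Real.sqrt_nonneg _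
  have hqq : q ^ 2 = 4 * Real.pi ^ 2 - 3 := Real.sq_sqrt hsq
  refine ENNReal.ofReal_le_of_le_toReal ?_
  rw [← hL]
  -- the constant is less than one
  have hc1 : 2 * Real.pi - q ≤ 1 := by
    have : 2 * Real.pi - 1 ≤ q := by
      refine Real.le_sqrt_of_sq_le ?_
      nlinarith
    linarith
  rcases le_or_gt r L with hrL | hLr
  · nlinarith
  · have h3 := key hLr
    have h4 : 3 * r ^ 2 + L ^ 2 ≤ 2 * (2 * Real.pi * r) * L := by
      nlinarith [mul_le_mul_of_nonneg_right hEpi hL0]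
    by_contra hcon
    rw [not_le] at hcon
    -- L < (2π - q) r, so 2π r - L > q r, (2π r - L)² > q² r²
    have h5 : q * r < 2 * Real.pi * r - L := by nlinarith
    have h6 : 0 ≤ q * r := by positivity
    have h7 : (q * r) ^ 2 < (2 * Real.pi * r - L) ^ 2 := by
      exact pow_lt_pow_left₀ h5 h6 two_ne_zero
    have h8 : (q * r) ^ 2 = (4 * Real.pi ^ 2 - 3) * r ^ 2 := by
      rw [mul_pow, hqq]
    rw [h8] at h7
    nlinarith

end Fin2

end Pool.Agent.MP099f24
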