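import Mathlib
import Pool.Agent.Lib.MP_099f24_an.SD.Asm3

namespace Pool.Agent.MP099f24

open MeasureTheory Filter Topology Set Metric
open scoped ENNReal ContDiff

/-- A monotonicity formula at every centre, without connectedness assumption. -/
theorem mono_final {Ω : Set ℂ} (hΩ : IsOpen Ω) {u : ℂ → ℝ} (hu : IsLocalMinimizer Ω u)
    {g j : ℂ → ℂ} (hg : IsSBVGrad Ω u g) (hj : IsJumpField Ω u j) {a : ℂ} {s t R : ℝ}
    (hs : 0 < s) (hst : s ≤ t) (htR : t < R) (hb : ball a R ⊆ Ω) :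
    IntegrableOn (fun x => ‖g x‖ ^ 2) (ball a t) ∧
    IntegrableOn (tilt j a) (ball a t \ ball a s) (μH[1] : Measure ℂ) ∧
    (∫ x in ball a s, ‖g x‖ ^ 2) / s ≤ (∫ x in ball a t, ‖g x‖ ^ 2) / t +
      ∫ x in ball a t \ ball a s, tilt j a x ∂(μH[1] : Measure ℂ) := by
  obtain ⟨u', g', j', h, hae, hdisc, -⟩ := exists_MSMin hΩ hu
  have hui : LocallyIntegrableOn u Ω := hu.1.1
  have hg' : IsSBVGrad Ω u' g' := ⟨h.intg, j', h.jf, h.intj, h.form⟩
  have hgg : ∀ᵐ x ∂(volume : Measure ℂ), x ∈ Ω → g x = g' x := by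
    refine rep_grad_ae hΩ hΩ Subset.rfl hui hg hg' ?_
    filter_upwards [hae] with x hx _ using hx
  have hgg' : ∀ᵐ x ∂(volume.restrict Ω), g x = g' x :=
    (ae_restrict_iff' hΩ.measurableSet).2 hgg
  have hjj : ∀ x ∈ Ω, j x = j' x := fun x hx =>
    rep_jf_eq hΩ hui hj h.jf hx (hΩ.mem_nhds hx) hae
  have e1 : ∀ r, r < R → ∫ x in ball a r, ‖g x‖ ^ 2 = Dq g' a r := by
    intro r hr
    refine integral_congr_ae ?_
    have := ae_restrict_of_ae_restrict_of_subset ((ball_subset_ball hr.le).trans hb) hgg'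
    filter_upwards [this] with x hx
    rw [hx]
  have e2 : ∫ x in ball a t \ ball a s, tilt j a x ∂(μH[1] : Measure ℂ) =
      ∫ x in ball a t \ ball a s, tilt j' a x ∂(μH[1] : Measure ℂ) := by
    refine setIntegral_congr_fun (measurableSet_ball.diff measurableSet_ball) fun x hx => ?_
    have hxΩ : x ∈ Ω := hb (ball_subset_ball htR.le hx.1)
    simp only [tilt, cosf]
    rw [hjj x hxΩ]
  refine ⟨?_, ?_, ?_⟩
  · refine Integrable.congr (asm_g_int h.toSBVData hb htR) ?_
    have := ae_restrict_of_ae_restrict_of_subset ((ball_subset_ball htR.le).trans hb) hgg'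
    filter_upwards [this] with x hx
    rw [hx]
  · refine (tilt_int h.toSBVData hb hs htR).congr_fun (fun x hx => ?_)
      (measurableSet_ball.diff measurableSet_ball)
    have hxΩ : x ∈ Ω := hb (ball_subset_ball htR.le hx.1)
    simp only [tilt, cosf]
    rw [hjj x hxΩ]
  · rw [e1 s (hst.trans_lt htR), e1 t htR, e2]
    exact mono_formula h hb hs hst htR

end Pool.Agent.MP099f24
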